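import Mathlib
import Pool.Agent.H61.SieveG

set_option autoImplicit false

namespace Pool.Agent.H54.PrimeSieve

open Finset Pool.Agent.H61.Sieve

/-- sum of reciprocals of divisors -/
noncomputable def wt (q : ℕ) : ℝ := ∑ d ∈ q.divisors, (1 : ℝ) / d

lemma one_le_wt (q : ℕ) (hq : q ≠ 0) : 1 ≤ wt q := by
  have := single_le_sum (f := fun d : ℕ => (1 : ℝ) / d) (s := q.divisors)
    (fun d _ => by positivity) (Nat.one_mem_divisors.mpr hq)
  simpa [wt] using this

lemma harm_lo (n : ℕ) : Real.log (n + 1) ≤ ∑ k ∈ Icc 1 n, (1 / k : ℝ) := by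
  induction n with
  | zero => simp
  | succ n ih =>
    rw [sum_Icc_succ_top (by omega)]
    have h0 : (0 : ℝ) < n + 1 := by positivity
    have h1 := Real.log_le_sub_one_of_pos (show (0 : ℝ) < (n + 1 + 1) / (n + 1) by positivity)
    rw [Real.log_div (by positivity) h0.ne'] at h1
    have h2 : ((n : ℝ) + 1 + 1) / (n + 1) - 1 = 1 / (n + 1) := by field_simp; ring
    push_cast
    linarith

lemma inv_sq_le (y : ℕ) : ∑ f ∈ Icc 1 y, (1 : ℝ) / (f : ℝ) ^ 2 ≤ 2 := by
  have := sum_Ioo_inv_sq_le (α := ℝ) 0 (y + 1)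
  have e : Ioo 0 (y + 1) = Icc 1 y := by ext i; simp only [mem_Ioo, mem_Icc]; omega
  rw [e] at this
  simpa [one_div] using this

lemma sum_le_of_cover {ι : Type} (I : Finset ι) (φ : ι → ℕ) (T : Finset ℕ) (f : ℕ → ℝ)
    (hf : ∀ n, 0 ≤ f n) (h : ∀ n ∈ T, ∃ i ∈ I, φ i = n) : ∑ n ∈ T, f n ≤ ∑ i ∈ I, f (φ i) := by
  classical
  refine le_trans (sum_le_sum_of_subset_of_nonneg (t := I.image φ)
    (fun n hn => mem_image.mpr (h n hn)) (fun n _ _ => hf n)) ?_
  exact sum_image_le_of_nonneg (fun i _ => hf _)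

lemma coprime_sum (q y : ℕ) (hq : q ≠ 0) :
    Real.log (y + 1) ≤ 2 * wt q * ∑ v ∈ (Icc 1 y).filter (fun v => v.Coprime q), (1 : ℝ) / v := by
  refine (harm_lo y).trans ?_
  have h1 := sum_le_of_cover
    (((Icc 1 y).filter (fun v => v.Coprime q)) ×ˢ (q.divisors ×ˢ Icc 1 y))
    (fun x => x.1 * (x.2.1 * x.2.2 ^ 2)) (Icc 1 y) (fun n => (1 : ℝ) / n)
    (fun n => by positivity) (by
      intro n hn
      obtain ⟨h1, h2⟩ := mem_Icc.mp hn
      obtain ⟨a, f, haf, ha⟩ := Nat.sq_mul_squarefree n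
      have ha0 : a ≠ 0 := ha.ne_zero
      have hf0 : f ≠ 0 := by rintro rfl; simp at haf; omega
      have hd : a / a.gcd q * a.gcd q = a := Nat.div_mul_cancel (Nat.gcd_dvd_left a q)
      refine ⟨(a / a.gcd q, a.gcd q, f), ?_, ?_⟩
      · simp only [mem_product, mem_filter, mem_Icc, Nat.mem_divisors]
        refine ⟨⟨⟨?_, ?_⟩, Nat.coprime_div_gcd_of_squarefree ha hq⟩,
          ⟨Nat.gcd_dvd_right a q, hq⟩, Nat.pos_of_ne_zero hf0, ?_⟩
        · exact Nat.div_pos (Nat.gcd_le_left _ (Nat.pos_of_ne_zero ha0))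
            (Nat.gcd_pos_of_pos_left _ (Nat.pos_of_ne_zero ha0))
        · exact (Nat.div_le_self _ _).trans
            ((Nat.le_of_dvd h1 (Dvd.intro_left _ haf)).trans h2)
        · exact (Nat.le_of_dvd h1 ⟨f * a, by rw [← haf]; ring⟩).trans h2
      · simp only
        rw [← mul_assoc, hd, mul_comm, haf])
  refine h1.trans ?_
  rw [sum_product]
  simp only [sum_product, Nat.cast_mul, Nat.cast_pow, ← one_div_mul_one_div, ← mul_sum, ← sum_mul]
  have h2 := inv_sq_le y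
  have h3 : 0 ≤ ∑ v ∈ (Icc 1 y).filter (fun v => v.Coprime q), (1 : ℝ) / v :=
    sum_nonneg (fun _ _ => by positivity)
  have h4 : 0 ≤ wt q := sum_nonneg (fun _ _ => by positivity)
  change _ * (wt q * _) ≤ _
  nlinarith [mul_le_mul_of_nonneg_left h2 (mul_nonneg h3 h4)]

lemma wt_avg (H : ℕ) : ∑ h ∈ Icc 1 H, wt (2 * h) ≤ 4 * H := by
  have h1 : ∑ h ∈ Icc 1 H, wt (2 * h) ≤ ∑ n ∈ Icc 1 (2 * H), wt n := by
    rw [← sum_image (s := Icc 1 H) (g := fun h => 2 * h) (f := wt)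
      (fun a _ b _ h => by simpa using h)]
    apply sum_le_sum_of_subset_of_nonneg
    · intro n hn
      obtain ⟨h, hh, rfl⟩ := mem_image.mp hn
      simp only [mem_Icc] at hh ⊢
      omega
    · intro n _ _
      exact sum_nonneg (fun _ _ => by positivity)
  refine h1.trans ?_
  have h2 : ∀ n ∈ Icc 1 (2 * H), wt n
      = ∑ d ∈ Icc 1 (2 * H), if d ∣ n then (1 : ℝ) / d else 0 := by
    intro n hn
    rw [← sum_filter]
    unfold wt
    congr 1
    ext d
    simp only [mem_Icc] at hn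
    simp only [Nat.mem_divisors, mem_filter, mem_Icc]
    constructor
    · rintro ⟨h, _⟩
      exact ⟨⟨Nat.pos_of_dvd_of_pos h hn.1, (Nat.le_of_dvd hn.1 h).trans hn.2⟩, h⟩
    · rintro ⟨_, h⟩
      exact ⟨h, by omega⟩
  rw [sum_congr rfl h2, sum_comm]
  have h3 : ∀ d ∈ Icc 1 (2 * H), ∑ n ∈ Icc 1 (2 * H), (if d ∣ n then (1 : ℝ) / d else 0)
      ≤ (2 * H : ℝ) * (1 / (d : ℝ) ^ 2) := by
    intro d hd
    rw [← sum_filter, sum_const, nsmul_eq_mul]
    have e : (Icc 1 (2 * H)).filter (fun n => d ∣ n) = (Ioc 0 (2 * H)).filter (fun n => d ∣ n) := rfl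
    rw [e, Nat.Ioc_filter_dvd_card_eq_div]
    have h4 := @Nat.cast_div_le ℝ _ _ _ (2 * H) d
    have h5 : (0 : ℝ) < d := by exact_mod_cast (mem_Icc.mp hd).1
    calc ((2 * H / d : ℕ) : ℝ) * (1 / d) ≤ ((2 * H : ℕ) : ℝ) / d * (1 / d) := by gcongr
      _ = _ := by push_cast; field_simp
  refine (sum_le_sum h3).trans ?_
  rw [← mul_sum]
  have := inv_sq_le (2 * H)
  have h6 : (0 : ℝ) ≤ H := Nat.cast_nonneg H
  nlinarith

lemma div_count (h : ℕ) (m : ℕ) (hm : m ≠ 0) :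
    ((m.divisors.filter (fun v => v.Coprime h)).card : ℝ)
      ≤ cm (fun p => if p ∣ h then 1 else 2) m := by
  induction m using Nat.recOnMul with
  | zero => exact absurd rfl hm
  | one => simp [cm_one, filter_singleton]
  | prime p hp =>
    rw [cm_prime _ hp, hp.divisors]
    split_ifs with h1
    · have : ({1, p} : Finset ℕ).filter (fun v => v.Coprime h) ⊆ {1} := by
        intro v hv
        simp only [mem_filter, mem_insert, mem_singleton] at hv ⊢
        rcases hv with ⟨rfl | rfl, h2⟩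
        · rfl
        · exact absurd h1 (hp.coprime_iff_not_dvd.mp h2)
      exact_mod_cast card_le_card this
    · exact_mod_cast (card_filter_le _ _).trans card_le_two
  | mul a b iha ihb =>
    have ha : a ≠ 0 := left_ne_zero_of_mul hm
    have hb : b ≠ 0 := right_ne_zero_of_mul hm
    rw [cm_mul _ ha hb]
    refine le_trans ?_ (mul_le_mul (iha ha) (ihb hb) (Nat.cast_nonneg _)
      ((Nat.cast_nonneg _).trans (iha ha)))
    rw [← Nat.cast_mul, ← card_product, Nat.cast_le]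
    refine le_trans (card_le_card ?_) (card_image_le (f := fun x : ℕ × ℕ => x.1 * x.2))
    intro v hv
    obtain ⟨h1, h2⟩ := mem_filter.mp hv
    obtain ⟨x, y, hx, hy, rfl⟩ := (Nat.dvd_mul).mp (Nat.dvd_of_mem_divisors h1)
    refine mem_image.mpr ⟨(x, y), ?_, rfl⟩
    simp only [mem_product, mem_filter, Nat.mem_divisors]
    exact ⟨⟨⟨hx, ha⟩, h2.coprime_mul_right⟩, ⟨hy, hb⟩, h2.coprime_mul_left⟩

lemma L_pair (h y : ℕ) (hh : h ≠ 0) :
    Real.log (y + 1) ^ 2 / (6 * wt (2 * h)) ≤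
      ∑ m ∈ (Icc 1 (y * y)).filter (fun m => m.Coprime 2),
        cm (fun p => if p ∣ h then 1 else 2) m / m := by
  have h1 := coprime_sum 2 y (by norm_num)
  have h2 := coprime_sum (2 * h) y (by omega)
  have h3 : wt 2 = 3 / 2 := by
    unfold wt; rw [Nat.prime_two.divisors, sum_pair (by norm_num)]; norm_num
  have hw := one_le_wt (2 * h) (by omega)
  have hl : 0 ≤ Real.log (y + 1) := Real.log_nonneg (by linarith [Nat.cast_nonneg (α := ℝ) y])
  set U := (Icc 1 y).filter (fun v => v.Coprime 2) with hU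
  set V := (Icc 1 y).filter (fun v => v.Coprime (2 * h)) with hV
  have h4 : (∑ u ∈ U, (1 : ℝ) / u) * (∑ v ∈ V, (1 : ℝ) / v) ≤
      ∑ m ∈ (Icc 1 (y * y)).filter (fun m => m.Coprime 2),
        cm (fun p => if p ∣ h then 1 else 2) m / m := by
    rw [sum_mul_sum, ← sum_product']
    have hmaps : ∀ x ∈ U ×ˢ V, x.1 * x.2 ∈ (Icc 1 (y * y)).filter (fun m => m.Coprime 2) := by
      intro x hx
      simp only [hU, hV, mem_product, mem_filter, mem_Icc] at hx ⊢
      exact ⟨⟨Nat.mul_pos hx.1.1.1 hx.2.1.1, Nat.mul_le_mul hx.1.1.2 hx.2.1.2⟩,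
        Nat.Coprime.mul_left hx.1.2 hx.2.2.coprime_mul_right_right⟩
    rw [← sum_fiberwise_of_maps_to hmaps]
    refine sum_le_sum (fun m hm => ?_)
    have hm0 : 0 < m := (mem_Icc.mp (mem_filter.mp hm).1).1
    have e : ∀ x ∈ (U ×ˢ V).filter (fun x => x.1 * x.2 = m),
        (1 : ℝ) / x.1 * (1 / x.2) = 1 / m := by
      intro x hx
      rw [← (mem_filter.mp hx).2]
      push_cast
      rw [one_div_mul_one_div]
    rw [sum_congr rfl e, sum_const, nsmul_eq_mul, mul_one_div]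
    refine div_le_div_of_nonneg_right (le_trans ?_ (div_count h m hm0.ne')) (Nat.cast_nonneg _)
    rw [Nat.cast_le]
    apply card_le_card_of_injOn (fun x => x.2)
    · intro x hx
      simp only [hU, hV, coe_filter, mem_product, mem_filter, mem_Icc, Set.mem_ofPred_eq,
        Nat.mem_divisors] at hx ⊢
      exact ⟨⟨Dvd.intro_left _ hx.2, hm0.ne'⟩, hx.1.2.2.coprime_mul_left_right⟩
    · intro x hx x' hx' hxx
      simp only [hU, hV, coe_filter, mem_product, mem_filter, mem_Icc, Set.mem_ofPred_eq] at hx hx'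
      simp only at hxx
      refine Prod.ext ?_ hxx
      have : x.1 * x.2 = x'.1 * x.2 := by rw [hx.2, hxx, hx'.2]
      exact Nat.eq_of_mul_eq_mul_right hx.1.2.1.1 this
  refine le_trans ?_ h4
  rw [div_le_iff₀ (by linarith), sq]
  rw [h3] at h1
  refine (mul_le_mul h1 h2 hl (hl.trans h1)).trans (le_of_eq ?_)
  ring

lemma log_y (K : ℕ) : (K : ℝ) / 32 ≤ Real.log (((2 ^ (K / 8) : ℕ) : ℝ) + 1) := by
  have h2 : (1 : ℝ) / 2 ≤ Real.log 2 := by linarith [Real.log_two_gt_d9]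
  have h0 : (1 : ℝ) ≤ ((2 ^ (K / 8) : ℕ) : ℝ) := by exact_mod_cast Nat.one_le_two_pow
  rcases lt_or_ge K 8 with h | h
  · have : (K : ℝ) < 8 := by exact_mod_cast h
    have h3 : Real.log 2 ≤ Real.log (((2 ^ (K / 8) : ℕ) : ℝ) + 1) :=
      Real.log_le_log (by norm_num) (by linarith)
    linarith
  · have h3 : Real.log ((2 ^ (K / 8) : ℕ) : ℝ) ≤ Real.log (((2 ^ (K / 8) : ℕ) : ℝ) + 1) :=
      Real.log_le_log (by linarith) (by linarith)
    rw [Nat.cast_pow, Real.log_pow] at h3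
    have h4 : (K : ℝ) ≤ 16 * ((K / 8 : ℕ) : ℝ) := by exact_mod_cast (show K ≤ 16 * (K / 8) by omega)
    have h5 : (0 : ℝ) ≤ ((K / 8 : ℕ) : ℝ) := Nat.cast_nonneg _
    push_cast at h3 ⊢
    nlinarith

lemma sq_le (K : ℕ) : K ^ 2 ≤ 2 * 2 ^ K := by
  induction K with
  | zero => simp
  | succ K ih =>
    rcases lt_or_ge K 3 with h | h
    · interval_cases K <;> norm_num
    · rw [pow_succ 2 K]; nlinarith

lemma err (K : ℕ) (hK : 1 ≤ K) :
    2 * (((2 ^ (K / 8) * 2 ^ (K / 8) : ℕ) : ℝ)) ^ 4 + ((2 ^ (K / 8) * 2 ^ (K / 8) : ℕ) : ℝ)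
      ≤ 6 * (4 ^ K / (K : ℝ) ^ 2) := by
  have h1 : (2 ^ (K / 8) * 2 ^ (K / 8)) ^ 4 ≤ 2 ^ K := by
    rw [← pow_add, ← pow_mul]
    exact Nat.pow_le_pow_right (by norm_num) (by omega)
  have h2 : 2 ^ (K / 8) * 2 ^ (K / 8) ≤ 2 ^ K := by
    rw [← pow_add]
    exact Nat.pow_le_pow_right (by norm_num) (by omega)
  have h1' : (((2 ^ (K / 8) * 2 ^ (K / 8) : ℕ) : ℝ)) ^ 4 ≤ 2 ^ K := by exact_mod_cast h1
  have h2' : (((2 ^ (K / 8) * 2 ^ (K / 8) : ℕ) : ℝ)) ≤ 2 ^ K := by exact_mod_cast h2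
  have h3 : (K : ℝ) ^ 2 ≤ 2 * 2 ^ K := by exact_mod_cast sq_le K
  have h4 : (0 : ℝ) < K := by exact_mod_cast hK
  have h5 : (2 : ℝ) ^ K ≤ 2 * (4 ^ K / (K : ℝ) ^ 2) := by
    rw [← mul_div_assoc, le_div_iff₀ (by positivity),
      show (4 : ℝ) ^ K = 2 ^ K * 2 ^ K by rw [← mul_pow]; norm_num]
    have : (0 : ℝ) < 2 ^ K := by positivity
    nlinarith
  linarith

lemma split_small (S : Finset ℕ) (z : ℕ) (h0 : ∀ s ∈ S, 0 < s) :
    (S.card : ℝ) ≤ (S.filter (fun s => z < s)).card + z := by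
  have h1 := card_filter_add_card_filter_not (s := S) (fun s => z < s)
  have h2 : (S.filter (fun s => ¬ z < s)).card ≤ z := by
    refine (card_le_card (t := Icc 1 z) ?_).trans (by simp)
    intro s hs
    obtain ⟨h3, h4⟩ := mem_filter.mp hs
    exact mem_Icc.mpr ⟨h0 s h3, not_lt.mp h4⟩
  exact_mod_cast (show S.card ≤ _ + z by omega)

theorem single (S : Finset ℕ) (hS : ∀ s ∈ S, s.Prime) (x K : ℕ) (hK : 1 ≤ K)
    (hx : S ⊆ Ico x (x + 4 ^ K)) : (S.card : ℝ) ≤ 38 * (4 ^ K / K) := by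
  set z := 2 ^ (K / 8) * 2 ^ (K / 8) with hz
  have hK' : (1 : ℝ) ≤ K := by exact_mod_cast hK
  have hrho : ∀ p : ℕ, p.Prime → rho (fun p s => p ∣ s) p = 1 := by
    intro p hp
    unfold rho
    have : (range p).filter (fun s => p ∣ s) = {0} := by
      ext s
      simp only [mem_filter, mem_range, mem_singleton]
      exact ⟨fun h => Nat.eq_zero_of_dvd_of_lt h.2 h.1, fun h => h ▸ ⟨hp.pos, dvd_zero p⟩⟩
    rw [this, card_singleton]
  have h := selberg' (fun p s => p ∣ s) ((Icc 1 z).filter Nat.Prime)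
    (fun p hp => (mem_filter.mp hp).2) (fun p _ s => Nat.dvd_add_self_right) (fun _ => 1)
    (fun _ => zero_le_one) (fun p hp => by rw [hrho p (mem_filter.mp hp).2]; simp)
    (fun p hp => by rw [hrho p (mem_filter.mp hp).2]; exact one_pos)
    (fun p hp => by rw [hrho p (mem_filter.mp hp).2]; exact (mem_filter.mp hp).2.one_lt)
    z (Nat.succ_le_of_lt (by positivity)) (Icc 1 z) ?_ (K / 32) (by positivity) ?_ x (4 ^ K)
    (S.filter (fun s => z < s)) ((filter_subset _ _).trans hx) ?_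
  · have h1 := split_small S z (fun s hs => (hS s hs).pos)
    have h2 := err K hK
    have h3 : (4 : ℝ) ^ K / (K : ℝ) ^ 2 ≤ 4 ^ K / K :=
      div_le_div_of_nonneg_left (by positivity) (by linarith) (by nlinarith)
    have h4 : ((4 ^ K : ℕ) : ℝ) / (K / 32) = 32 * (4 ^ K / K) := by push_cast; field_simp
    rw [← hz] at h2
    linarith
  · intro m hm
    obtain ⟨h1, h2⟩ := mem_Icc.mp hm
    refine ⟨h1, h2, fun p hp => mem_filter.mpr ⟨mem_Icc.mpr ⟨?_, ?_⟩, ?_⟩⟩
    · exact (Nat.prime_of_mem_primeFactors hp).pos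
    · exact (Nat.le_of_mem_primeFactors hp).trans h2
    · exact Nat.prime_of_mem_primeFactors hp
  · have h1 : ∀ m, cm (fun _ => 1) m = 1 := fun m => by simp [cm_eq]
    simp only [h1]
    refine (log_y K).trans (le_trans ?_ (harm_lo z))
    apply Real.log_le_log (by positivity)
    have : 2 ^ (K / 8) ≤ z := Nat.le_mul_self _
    exact_mod_cast Nat.succ_le_succ this
  · intro s hs p hp hps
    obtain ⟨h1, h2⟩ := mem_filter.mp hs
    obtain ⟨h3, h4⟩ := mem_filter.mp hp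
    have := (Nat.prime_dvd_prime_iff_eq h4 (hS s h1)).mp hps
    have := (mem_Icc.mp h3).2
    omega

lemma rho_pair (h p : ℕ) (hp : p.Prime) (h2 : p ≠ 2) :
    (if p ∣ h then (1 : ℝ) else 2) ≤ rho (fun p s => p ∣ s ∨ p ∣ s + h) p ∧
    0 < rho (fun p s => p ∣ s ∨ p ∣ s + h) p ∧ rho (fun p s => p ∣ s ∨ p ∣ s + h) p < p := by
  have h3 : 3 ≤ p := by have := hp.two_le; omega
  have hr := Nat.mod_lt h hp.pos
  have hd := Nat.div_add_mod h p
  have e : (range p).filter (fun s => p ∣ s ∨ p ∣ s + h) = {0, (p - h % p) % p} := by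
    ext s
    simp only [mem_filter, mem_range, mem_insert, mem_singleton]
    constructor
    · rintro ⟨h4, h5 | h5⟩
      · exact Or.inl (Nat.eq_zero_of_dvd_of_lt h5 h4)
      · right
        have h6 : p ∣ s + h % p := by
          rw [← hd, add_comm (p * _), ← add_assoc] at h5
          exact (Nat.dvd_add_left (dvd_mul_right _ _)).mp h5
        obtain ⟨c, hc⟩ := h6
        have h7 : c < 2 := by
          by_contra h8
          have : p * 2 ≤ p * c := Nat.mul_le_mul_left _ (by omega)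
          omega
        interval_cases c
        · have : h % p = 0 := by omega
          rw [this, Nat.sub_zero, Nat.mod_self]; omega
        · rw [Nat.mod_eq_of_lt (by omega)]; omega
    · rintro (rfl | rfl)
      · exact ⟨hp.pos, Or.inl (dvd_zero p)⟩
      · refine ⟨Nat.mod_lt _ hp.pos, Or.inr ?_⟩
        rw [Nat.dvd_iff_mod_eq_zero, Nat.mod_add_mod, ← Nat.add_mod_mod,
          Nat.sub_add_cancel hr.le, Nat.mod_self]
  unfold rho
  rw [e]
  refine ⟨?_, card_pos.mpr ⟨0, by simp⟩, lt_of_le_of_lt card_le_two (by omega)⟩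
  split_ifs with h4
  · exact_mod_cast card_pos.mpr ⟨0, by simp⟩
  · have h5 : h % p ≠ 0 := fun h6 => h4 (Nat.dvd_of_mod_eq_zero h6)
    rw [card_pair]
    · simp
    · rw [Nat.mod_eq_of_lt (by omega)]; omega

theorem pair (S : Finset ℕ) (h : ℕ) (hh : h ≠ 0) (hS : ∀ s ∈ S, s.Prime ∧ (s + h).Prime)
    (x K : ℕ) (hK : 1 ≤ K) (hx : S ⊆ Ico x (x + 4 ^ K)) :
    (S.card : ℝ) ≤ 6150 * wt (2 * h) * (4 ^ K / (K : ℝ) ^ 2) := by
  set z := 2 ^ (K / 8) * 2 ^ (K / 8) with hz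
  have hK' : (1 : ℝ) ≤ K := by exact_mod_cast hK
  have hw := one_le_wt (2 * h) (by omega)
  have hP : ∀ p ∈ (Icc 1 z).filter (fun p => p.Prime ∧ p ≠ 2), p.Prime ∧ p ≠ 2 :=
    fun p hp => (mem_filter.mp hp).2
  have hmain := selberg' (fun p s => p ∣ s ∨ p ∣ s + h) ((Icc 1 z).filter (fun p => p.Prime ∧ p ≠ 2))
    (fun p hp => (hP p hp).1)
    (fun p _ s => by rw [Nat.dvd_add_self_right, add_right_comm, Nat.dvd_add_self_right])
    (fun p => if p ∣ h then 1 else 2) (fun _ => by split_ifs <;> norm_num)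
    (fun p hp => (rho_pair h p (hP p hp).1 (hP p hp).2).1)
    (fun p hp => (rho_pair h p (hP p hp).1 (hP p hp).2).2.1)
    (fun p hp => (rho_pair h p (hP p hp).1 (hP p hp).2).2.2)
    z (Nat.succ_le_of_lt (by positivity)) ((Icc 1 z).filter (fun m => m.Coprime 2)) ?_
    ((K / 32) ^ 2 / (6 * wt (2 * h))) (by positivity) ?_ x (4 ^ K)
    (S.filter (fun s => z < s)) ((filter_subset _ _).trans hx) ?_
  · have h1 := split_small S z (fun s hs => (hS s hs).1.pos)
    have h2 := err K hK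
    have h4 : ((4 ^ K : ℕ) : ℝ) / ((K / 32) ^ 2 / (6 * wt (2 * h)))
        = 6144 * wt (2 * h) * (4 ^ K / (K : ℝ) ^ 2) := by push_cast; field_simp; ring
    have h5 : (0 : ℝ) ≤ 4 ^ K / (K : ℝ) ^ 2 := by positivity
    rw [← hz] at h2
    nlinarith
  · intro m hm
    obtain ⟨h0, h3⟩ := mem_filter.mp hm
    obtain ⟨h1, h2⟩ := mem_Icc.mp h0
    refine ⟨h1, h2, fun p hp => mem_filter.mpr ⟨mem_Icc.mpr ⟨?_, ?_⟩, ?_, ?_⟩⟩
    · exact (Nat.prime_of_mem_primeFactors hp).pos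
    · exact (Nat.le_of_mem_primeFactors hp).trans h2
    · exact Nat.prime_of_mem_primeFactors hp
    · rintro rfl
      exact (Nat.prime_two.coprime_iff_not_dvd.mp h3.symm) (Nat.dvd_of_mem_primeFactors hp)
  · refine le_trans ?_ (L_pair h (2 ^ (K / 8)) hh)
    apply div_le_div_of_nonneg_right _ (by positivity)
    exact pow_le_pow_left₀ (by positivity) (log_y K) 2
  · intro s hs p hp hps
    obtain ⟨h1, h2⟩ := mem_filter.mp hs
    obtain ⟨h3, h4⟩ := mem_filter.mp hp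
    have := (mem_Icc.mp h3).2
    rcases hps with hps | hps
    · have := (Nat.prime_dvd_prime_iff_eq h4.1 (hS s h1).1).mp hps
      omega
    · have := (Nat.prime_dvd_prime_iff_eq h4.1 (hS s h1).2).mp hps
      omega

end Pool.Agent.H54.PrimeSieve
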