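import Mathlib

open Finset

namespace Pool.Agent.H54.Zam

/-- The probability of an event under the uniform distribution on `R × Q`. -/
noncomputable def prob {R Q : Type} [Fintype R] [Fintype Q] (E : Set (R × Q)) : ℝ :=
  (E.ncard : ℝ) / ((Fintype.card R : ℝ) * (Fintype.card Q : ℝ))

/-- `((x,r),(y,q))` lies in the rectangle number `i`. -/
def InRect {X Y R Q : Type} {m : ℕ} (A : Fin m → Set (X × R)) (B : Fin m → Set (Y × Q))
    (x : X) (y : Y) (p : R × Q) (i : Fin m) : Prop :=
  (x, p.1) ∈ A i ∧ (y, p.2) ∈ B i

open Classical in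
/-- The index of a rectangle containing the point (the unique one for an unambiguous protocol),
or `none` if there is none. -/
noncomputable def transcript {X Y R Q : Type} {m : ℕ} (A : Fin m → Set (X × R))
    (B : Fin m → Set (Y × Q)) (x : X) (y : Y) (p : R × Q) : Option (Fin m) :=
  if h : ∃ i, InRect A B x y p i then some h.choose else none

/-- The rectangles `A i × B i` form an unambiguous zero-information AM protocol for `f`. -/
def IsZAM {X Y R Q : Type} [Fintype R] [Fintype Q] {m : ℕ} (f : X → Y → Bool)
    (A : Fin m → Set (X × R)) (B : Fin m → Set (Y × Q)) : Prop :=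
  (∀ x y, f x y = true → prob {p : R × Q | ∃ i, InRect A B x y p i} = 1) ∧
  (∀ x y, f x y = false → prob {p : R × Q | ∃ i, InRect A B x y p i} ≤ 1 / 2) ∧
  (∀ x y, f x y = true → ∀ p i j, InRect A B x y p i → InRect A B x y p j → i = j) ∧
  (∀ x y x' y', f x y = true → f x' y' = true → ∀ o : Option (Fin m),
    prob {p : R × Q | transcript A B x y p = o} = prob {p : R × Q | transcript A B x' y' p = o})

theorem of_maps {X Y R Q T : Type} [Fintype R] [Fintype Q] [Fintype T] [Nonempty R] [Nonempty Q]
    (f : X → Y → Bool) (a : X → T → R) (b : Y → T → Q)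
    (hc : Fintype.card T = Fintype.card R * Fintype.card Q)
    (h1 : ∀ x y, f x y = true → Function.Injective (fun t => (a x t, b y t)))
    (h0 : ∀ x y, f x y = false →
      2 * (Set.range (fun t => (a x t, b y t))).ncard ≤ Fintype.card R * Fintype.card Q) :
    ∃ (A : Fin (Fintype.card T) → Set (X × R)) (B : Fin (Fintype.card T) → Set (Y × Q)),
      IsZAM f A B := by
  classical
  let e := (Fintype.equivFin T).symm
  let A : Fin (Fintype.card T) → Set (X × R) := fun i => {p | a p.1 (e i) = p.2}
  let B : Fin (Fintype.card T) → Set (Y × Q) := fun i => {p | b p.1 (e i) = p.2}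
  have hIn : ∀ x y p i, InRect A B x y p i ↔ (a x (e i), b y (e i)) = p := by
    intro x y p i
    simp only [InRect, A, B, Set.mem_ofPred_eq, Prod.ext_iff]
  have hR : (0 : ℝ) < Fintype.card R := by exact_mod_cast Fintype.card_pos
  have hQ : (0 : ℝ) < Fintype.card Q := by exact_mod_cast Fintype.card_pos
  have hrange : ∀ x y, {p : R × Q | ∃ i, InRect A B x y p i} =
      Set.range (fun t => (a x t, b y t)) := by
    intro x y
    ext p
    simp only [Set.mem_ofPred_eq, hIn, Set.mem_range]
    constructor
    · rintro ⟨i, hi⟩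
      exact ⟨e i, hi⟩
    · rintro ⟨t, ht⟩
      exact ⟨e.symm t, by simpa using ht⟩
  have hbij : ∀ x y, f x y = true → Function.Bijective (fun t => (a x t, b y t)) := by
    intro x y h
    rw [Fintype.bijective_iff_injective_and_card]
    exact ⟨h1 x y h, by rw [hc, Fintype.card_prod]⟩
  have huniq : ∀ x y, f x y = true → ∀ p i j, InRect A B x y p i → InRect A B x y p j → i = j := by
    intro x y h p i j hi hj
    rw [hIn] at hi hj
    exact e.injective (h1 x y h (hi.trans hj.symm))
  have htr : ∀ x y, f x y = true → ∀ o : Option (Fin (Fintype.card T)),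
      {p : R × Q | transcript A B x y p = o}.ncard = if o = none then 0 else 1 := by
    intro x y h o
    have hex : ∀ p, ∃ i, InRect A B x y p i := by
      intro p
      obtain ⟨t, ht⟩ := (hbij x y h).2 p
      exact ⟨e.symm t, by rw [hIn]; simpa using ht⟩
    cases o with
    | none =>
      have : {p : R × Q | transcript A B x y p = none} = ∅ := by
        ext p
        simp [transcript, hex p]
      rw [this]; simp
    | some i =>
      have : {p : R × Q | transcript A B x y p = some i} = {(a x (e i), b y (e i))} := by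
        ext p
        simp only [transcript, Set.mem_ofPred_eq, dif_pos (hex p), Option.some.injEq,
          Set.mem_singleton_iff]
        constructor
        · intro hp
          have := (hex p).choose_spec
          rw [hp, hIn] at this
          exact this.symm
        · intro hp
          exact huniq x y h p _ _ (hex p).choose_spec (by rw [hIn]; exact hp.symm)
      rw [this]; simp
  refine ⟨A, B, ?_, ?_, huniq, ?_⟩
  · intro x y h
    rw [hrange, (hbij x y h).2.range_eq, prob, Set.ncard_univ, Nat.card_eq_fintype_card,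
      Fintype.card_prod]
    push_cast
    field_simp
  · intro x y h
    rw [hrange, prob, div_le_iff₀ (by positivity)]
    have := h0 x y h
    have h2 : (2 : ℝ) * (Set.range (fun t => (a x t, b y t))).ncard ≤
        Fintype.card R * Fintype.card Q := by exact_mod_cast this
    linarith
  · intro x y x' y' h h' o
    simp only [prob, htr x y h, htr x' y' h']

abbrev V := ZMod 2 × ZMod 2

def g (a : ZMod 3) : V := if a = 0 then (1, 0) else if a = 1 then (0, 1) else (1, 1)

def E (s : Bool) (a κ : ZMod 3) : Option (ZMod 3) → V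
  | some ν => if s then g (a - ν * κ) else 0
  | none => (if s then g a else 0) - g a

theorem E_inj : ∀ a κ : ZMod 3, κ ≠ 0 → ∀ μ μ' : Option (ZMod 3),
    E true a κ μ = E true a κ μ' → μ = μ' := by
  decide

theorem of_mv {n : ℕ} {H2 H3 : Type} [Fintype H2] [Fintype H3] [DecidableEq H2] [DecidableEq H3]
    (u2 v2 : Fin n → H2 → ZMod 2) (u3 v3 : Fin n → H3 → ZMod 3)
    (hd2 : ∀ i, ∑ h, u2 i h * v2 i h = 1) (hd3 : ∀ i, ∑ h, u3 i h * v3 i h ≠ 0)
    (hoff : ∀ i j, i ≠ j → ∑ h, u2 i h * v2 j h = 0 ∨ ∑ h, u3 i h * v3 j h = 0) :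
    ∃ (A : Fin (4 * (3 ^ Fintype.card H3 * 4 ^ Fintype.card H2)) →
        Set ((Fin n → Bool) × (H2 → V)))
      (B : Fin (4 * (3 ^ Fintype.card H3 * 4 ^ Fintype.card H2)) →
        Set (Fin n × ((H3 → ZMod 3) × V))),
      IsZAM (fun (x : Fin n → Bool) (y : Fin n) => x y) A B := by
  let T := Option (ZMod 3) × (H3 → ZMod 3) × (H2 → V)
  let ip : (H3 → ZMod 3) → Fin n → ZMod 3 := fun z j => ∑ h, z h * v3 j h
  let G : (Fin n → Bool) → (H3 → ZMod 3) → H2 → V := fun x b h =>
    ∑ j, if x j then v2 j h • g (ip b j) else 0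
  let L : Fin n → (H2 → V) → V := fun y c => ∑ h, u2 y h • c h
  let sh : Fin n → Option (ZMod 3) → (H3 → ZMod 3) := fun y μ h => μ.getD 0 * u3 y h
  let δ : Fin n → Option (ZMod 3) → (H3 → ZMod 3) → V := fun y μ b =>
    if μ = none then - g (ip b y) else 0
  let a : (Fin n → Bool) → T → (H2 → V) := fun x t => t.2.2 - G x t.2.1
  let b : Fin n → T → (H3 → ZMod 3) × V := fun y t =>
    (t.2.1 + sh y t.1, L y t.2.2 + δ y t.1 t.2.1)
  let C : (Fin n → Bool) → Fin n → (H3 → ZMod 3) → V := fun x y z =>
    ∑ j ∈ univ.erase y, if x j then (∑ h, u2 y h * v2 j h) • g (ip z j) else 0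
  have hLG : ∀ x y w, L y (G x w) =
      ∑ j, if x j then (∑ h, u2 y h * v2 j h) • g (ip w j) else 0 := by
    intro x y w
    simp only [L, G, Finset.smul_sum]
    rw [Finset.sum_comm]
    refine Finset.sum_congr rfl fun j _ => ?_
    split_ifs
    · rw [Finset.sum_smul]
      exact Finset.sum_congr rfl fun h _ => by rw [smul_smul]
    · simp
  have hip : ∀ y μ w j, ip w j = ip (w + sh y μ) j - μ.getD 0 * ∑ h, u3 y h * v3 j h := by
    intro y μ w j
    simp only [ip, sh, Pi.add_apply, add_mul, Finset.sum_add_distrib, Finset.mul_sum, mul_assoc]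
    ring
  have key : ∀ x y (t : T), (b y t).2 = L y (a x t) + C x y (b y t).1 +
      E (x y) (ip (b y t).1 y) (∑ h, u3 y h * v3 y h) t.1 := by
    rintro x y ⟨μ, w, c⟩
    have hL : L y (c - G x w) = L y c - L y (G x w) := by
      simp only [L, Pi.sub_apply, smul_sub, Finset.sum_sub_distrib]
    have hsplit : L y (G x w) = C x y (w + sh y μ) + (if x y then g (ip w y) else 0) := by
      rw [hLG, ← Finset.sum_erase_add _ _ (Finset.mem_univ y), hd2 y, one_smul]
      congr 1
      refine Finset.sum_congr rfl fun j hj => ?_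
      have hj' : y ≠ j := (Finset.ne_of_mem_erase hj).symm
      split_ifs
      · rcases hoff y j hj' with h | h
        · rw [h, zero_smul, zero_smul]
        · rw [hip y μ w j, h, mul_zero, sub_zero]
      · rfl
    show L y c + δ y μ w = L y (c - G x w) + C x y (w + sh y μ) +
      E (x y) (ip (w + sh y μ) y) (∑ h, u3 y h * v3 y h) μ
    rw [hL, hsplit]
    cases μ with
    | none =>
      have h0 : w + sh y none = w := by
        ext h; simp [sh]
      simp only [δ, E, h0, if_true]
      abel
    | some ν =>
      have h1 := hip y (some ν) w y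
      simp only [Option.getD_some] at h1
      simp only [δ, E, ← h1, reduceCtorEq, if_false]
      abel
  have hT : Fintype.card T = 4 * (3 ^ Fintype.card H3 * 4 ^ Fintype.card H2) := by
    simp [T, Fintype.card_prod, Fintype.card_option, ZMod.card]
  have := of_maps (T := T) (fun (x : Fin n → Bool) (y : Fin n) => x y) a b ?_ ?_ ?_
  · rw [hT] at this
    exact this
  · rw [hT]
    simp [Fintype.card_prod, ZMod.card]
    ring
  · rintro x y hxy ⟨μ, w, c⟩ ⟨μ', w', c'⟩ h
    simp only [Prod.mk.injEq] at h
    obtain ⟨ha, hb⟩ := h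
    have k1 := key x y (μ, w, c)
    have k2 := key x y (μ', w', c')
    rw [ha, hb] at k1
    have hE := k1.symm.trans k2
    rw [add_right_inj, hxy] at hE
    have hμ : μ = μ' := E_inj _ _ (hd3 y) _ _ hE
    subst hμ
    have hw : w = w' := add_right_cancel (congrArg Prod.fst hb)
    subst hw
    have hc : c = c' := sub_left_injective ha
    rw [hc]
  · intro x y hxy
    let F : Bool × (H2 → V) × (H3 → ZMod 3) → (H2 → V) × (H3 → ZMod 3) × V := fun p =>
      (p.2.1, p.2.2, L y p.2.1 + C x y p.2.2 + if p.1 then - g (ip p.2.2 y) else 0)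
    have hsub : Set.range (fun t => (a x t, b y t)) ⊆ Set.range F := by
      rintro _ ⟨t, rfl⟩
      refine ⟨(t.1 = none, a x t, (b y t).1), ?_⟩
      have k := key x y t
      rw [hxy] at k
      simp only [F, Prod.mk.injEq, true_and]
      refine Prod.ext rfl ?_
      simp only []
      rw [k]
      rcases t with ⟨μ, w, c⟩
      cases μ <;> simp [E]
    have h1 := Set.ncard_le_ncard hsub (Set.toFinite _)
    have h2 : (Set.range F).ncard ≤ Fintype.card (Bool × (H2 → V) × (H3 → ZMod 3)) := by
      rw [← Set.image_univ]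
      refine (Set.ncard_image_le (Set.toFinite _)).trans ?_
      rw [Set.ncard_univ, Nat.card_eq_fintype_card]
    have h3 := h1.trans h2
    simp only [Fintype.card_prod, Fintype.card_bool, Fintype.card_pi, Finset.prod_const,
      ZMod.card, Finset.card_univ] at h3 ⊢
    nlinarith [h3]

end Pool.Agent.H54.Zam
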