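import Mathlib
import Pool.Agent.H54.Zam

open Finset

namespace Pool.Agent.H54.Zam

/-- low degree expansion of the indicator of `p ^ k ∣ d` modulo `p` -/
theorem dvd_expand (p k : ℕ) [Fact p.Prime] : ∃ w : ℕ → ZMod p, (∀ j, p ^ k ≤ j → w j = 0) ∧
    ∀ {I : Type} [DecidableEq I] (D : Finset I),
      ∑ S ∈ D.powerset, w S.card = if p ^ k ∣ D.card then 1 else 0 := by
  classical
  let M := AddMonoidAlgebra (ZMod p) (ZMod (p ^ k))
  have : CharP M p := charP_of_injective_algebraMap (R := ZMod p) (A := M)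
    (RingHom.injective _) p
  let γ : M := AddMonoidAlgebra.single 1 1
  have hpow : ∀ d : ℕ, γ ^ d = AddMonoidAlgebra.single (d : ZMod (p ^ k)) 1 := by
    intro d
    have := AddMonoidAlgebra.single_pow (R := ZMod p) (1 : ZMod (p ^ k)) (1 : ZMod p) d
    rw [one_pow, nsmul_one] at this
    exact this
  have hnil : (γ - 1) ^ (p ^ k) = 0 := by
    rw [sub_pow_char_pow, hpow, one_pow, ZMod.natCast_self]
    exact sub_self _
  refine ⟨fun j => ((γ - 1) ^ j).coeff 0, ?_, ?_⟩
  · intro j hj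
    obtain ⟨c, rfl⟩ := Nat.exists_eq_add_of_le hj
    simp only [pow_add, hnil, zero_mul]
    simp
  · intro I _ D
    have h1 : ∑ S ∈ D.powerset, (γ - 1) ^ S.card = γ ^ D.card := by
      have := Finset.sum_pow_mul_eq_add_pow (γ - 1) 1 D
      simpa using this
    have h2 : ∑ S ∈ D.powerset, ((γ - 1) ^ S.card).coeff 0 = (γ ^ D.card).coeff 0 := by
      rw [← h1, AddMonoidAlgebra.coeff_sum, Finsupp.finsetSum_apply]
    rw [h2, hpow]
    simp [Finsupp.single_apply, ZMod.natCast_eq_zero_iff]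

theorem exists_vec (p k : ℕ) [Fact p.Prime] {I J : Type} [Fintype I] [DecidableEq I]
    (A B : J → Finset I) :
    ∃ u v : J → {S : Finset I // S.card < p ^ k} → ZMod p,
      ∀ i j, ∑ h, u i h * v j h = if p ^ k ∣ (A i ∩ B j).card then 1 else 0 := by
  classical
  obtain ⟨w, hw0, hw⟩ := dvd_expand p k
  refine ⟨fun i S => if S.1 ⊆ A i then w S.1.card else 0,
    fun j S => if S.1 ⊆ B j then 1 else 0, fun i j => ?_⟩
  rw [← hw (A i ∩ B j)]
  have h1 : ∑ h : {S : Finset I // S.card < p ^ k},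
      (if h.1 ⊆ A i then w h.1.card else 0) * (if h.1 ⊆ B j then (1 : ZMod p) else 0) =
      ∑ S ∈ (univ : Finset (Finset I)).filter (fun S => S.card < p ^ k),
        (if S ⊆ A i ∩ B j then w S.card else 0) := by
    rw [Finset.sum_subtype ((univ : Finset (Finset I)).filter (fun S => S.card < p ^ k))
      (p := fun S => S.card < p ^ k) (by simp)]
    refine Finset.sum_congr rfl fun S _ => ?_
    by_cases h1 : S.1 ⊆ A i <;> by_cases h2 : S.1 ⊆ B j <;> simp [h1, h2, Finset.subset_inter_iff]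
  rw [h1, Finset.sum_filter]
  have h2 : (A i ∩ B j).powerset = (univ : Finset (Finset I)).filter (fun S => S ⊆ A i ∩ B j) := by
    ext S; simp only [Finset.mem_powerset, Finset.mem_filter, Finset.mem_univ, true_and]
  rw [h2, Finset.sum_filter]
  refine Finset.sum_congr rfl fun S _ => ?_
  by_cases h : S.card < p ^ k
  · simp only [h, if_true]
  · rw [if_neg h, hw0 _ (not_lt.1 h)]
    simp

theorem card_small {I : Type} [Fintype I] [DecidableEq I] (q : ℕ) (hI : 1 ≤ Fintype.card I) :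
    Fintype.card {S : Finset I // S.card < q} ≤ (2 * Fintype.card I) ^ q := by
  classical
  rw [Fintype.card_subtype]
  have h1 : ((univ : Finset (Finset I)).filter (fun S => S.card < q)) =
      (range q).biUnion (fun j => powersetCard j (univ : Finset I)) := by
    ext S; simp
  rw [h1]
  refine Finset.card_biUnion_le.trans ?_
  have h2 : ∀ j ∈ range q, (powersetCard j (univ : Finset I)).card ≤ Fintype.card I ^ q := by
    intro j hj
    rw [Finset.card_powersetCard, Finset.card_univ]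
    exact (Nat.choose_le_pow _ _).trans
      (Nat.pow_le_pow_right hI (Finset.mem_range.1 hj).le)
  refine (Finset.sum_le_card_nsmul _ _ _ h2).trans ?_
  rw [Finset.card_range, smul_eq_mul, mul_pow]
  exact Nat.mul_le_mul_right _ Nat.lt_two_pow_self.le

theorem exists_pow (p l : ℕ) (hp : 2 ≤ p) (hl : 1 ≤ l) :
    ∃ k, l < (p ^ k) ^ 2 ∧ (p ^ k) ^ 2 ≤ p ^ 2 * l := by
  have hex : ∃ k, l < (p ^ k) ^ 2 := by
    refine ⟨l, ?_⟩
    have h1 : l < p ^ l := Nat.lt_pow_self (by omega)
    nlinarith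
  refine ⟨Nat.find hex, Nat.find_spec hex, ?_⟩
  rcases h : Nat.find hex with _ | k
  · simp only [pow_zero, one_pow]
    have : 1 ≤ p ^ 2 := Nat.one_le_pow _ _ (by omega)
    nlinarith
  · have := Nat.find_min hex (m := k) (by omega)
    rw [not_lt] at this
    calc (p ^ (k + 1)) ^ 2 = p ^ 2 * (p ^ k) ^ 2 := by ring
      _ ≤ p ^ 2 * l := Nat.mul_le_mul_left _ this

theorem main_nat (n l : ℕ) (hl : 1 ≤ l) (hn : n ≤ l ^ l) :
    ∃ (R Q : Type) (_ : Fintype R) (_ : Fintype Q) (_ : Nonempty R) (_ : Nonempty Q) (m : ℕ)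
      (A : Fin m → Set ((Fin n → Bool) × R)) (B : Fin m → Set (Fin n × Q)),
      IsZAM (fun (x : Fin n → Bool) (y : Fin n) => x y) A B ∧
      ∃ q : ℕ, q ^ 2 ≤ 9 * l ∧ Nat.clog 2 m ≤ 6 * (2 * l ^ 2) ^ q := by
  classical
  obtain ⟨a, ha1, ha2⟩ := exists_pow 2 l le_rfl hl
  obtain ⟨b, hb1, hb2⟩ := exists_pow 3 l (by norm_num) hl
  have : Fact (Nat.Prime 3) := ⟨Nat.prime_three⟩
  obtain ⟨ι⟩ : Nonempty (Fin n ↪ (Fin l → Fin l)) := by
    apply Function.Embedding.nonempty_of_card_le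
    simpa using hn
  let SA : Fin n → Finset (Fin l × Fin l) := fun i => univ.filter (fun e => ι i e.1 = e.2)
  let SB : Fin n → Finset (Fin l × Fin l) := fun i => univ.filter (fun e => ι i e.1 ≠ e.2)
  obtain ⟨u2, v2, h2⟩ := exists_vec 2 a SA SB
  obtain ⟨u3, v3, h3⟩ := exists_vec 3 b SA SB
  have hdiag : ∀ i, (SA i ∩ SB i).card = 0 := by
    intro i
    rw [Finset.card_eq_zero]
    ext e
    simp [SA, SB]
  have hle : ∀ i j, (SA i ∩ SB j).card ≤ l := by
    intro i j
    have : (SA i ∩ SB j).card ≤ (univ : Finset (Fin l)).card := by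
      apply Finset.card_le_card_of_injOn (fun e => e.1) (by simp)
      intro e he e' he' h
      simp only [SA, SB, Finset.coe_inter, Finset.coe_filter, Finset.mem_univ, true_and,
        Set.mem_inter_iff, Set.mem_ofPred_eq] at he he' h
      refine Prod.ext h ?_
      rw [← he.1, ← he'.1, h]
    simpa using this
  have hpos : ∀ i j, i ≠ j → 0 < (SA i ∩ SB j).card := by
    intro i j hij
    have : ι i ≠ ι j := fun h => hij (ι.injective h)
    obtain ⟨s, hs⟩ := Function.ne_iff.1 this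
    refine Finset.card_pos.2 ⟨(s, ι i s), ?_⟩
    simp [SA, SB, hs.symm]
  obtain ⟨A, B, hAB⟩ := of_mv u2 v2 u3 v3 (fun i => by rw [h2, hdiag]; simp)
    (fun i => by rw [h3, hdiag]; simp) (fun i j hij => by
      rw [h2, h3]
      by_contra hcon
      rw [not_or] at hcon
      have d2 : 2 ^ a ∣ (SA i ∩ SB j).card := by
        by_contra h; exact hcon.1 (if_neg h)
      have d3 : 3 ^ b ∣ (SA i ∩ SB j).card := by
        by_contra h; exact hcon.2 (if_neg h)
      have hcop : Nat.Coprime (2 ^ a) (3 ^ b) := Nat.Coprime.pow _ _ (by norm_num)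
      have := Nat.le_of_dvd (hpos i j hij) (hcop.mul_dvd_of_dvd_of_dvd d2 d3)
      have h4 := this.trans (hle i j)
      have h5 : (2 ^ a * 3 ^ b) ^ 2 ≤ l ^ 2 := Nat.pow_le_pow_left h4 2
      have h6 : l * l < (2 ^ a) ^ 2 * (3 ^ b) ^ 2 := Nat.mul_lt_mul'' ha1 hb1
      rw [mul_pow] at h5
      nlinarith)
  refine ⟨_, _, inferInstance, inferInstance, inferInstance, inferInstance, _, A, B, hAB,
    max (2 ^ a) (3 ^ b), ?_, ?_⟩
  · rcases le_total (2 ^ a) (3 ^ b) with h | h
    · rw [max_eq_right h]; omega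
    · rw [max_eq_left h]; omega
  · have hI : Fintype.card (Fin l × Fin l) = l ^ 2 := by simp [sq]
    have hI1 : 1 ≤ Fintype.card (Fin l × Fin l) := by rw [hI]; exact Nat.one_le_pow _ _ hl
    have c2 := card_small (I := Fin l × Fin l) (2 ^ a) hI1
    have c3 := card_small (I := Fin l × Fin l) (3 ^ b) hI1
    rw [hI] at c2 c3 hI1
    have hb : 1 ≤ 2 * l ^ 2 := by omega
    have e2 := c2.trans (Nat.pow_le_pow_right hb (le_max_left (2 ^ a) (3 ^ b)))
    have e3 := c3.trans (Nat.pow_le_pow_right hb (le_max_right (2 ^ a) (3 ^ b)))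
    have e1 : 1 ≤ (2 * l ^ 2) ^ max (2 ^ a) (3 ^ b) := Nat.one_le_pow _ _ hb
    set W := (2 * l ^ 2) ^ max (2 ^ a) (3 ^ b)
    rw [Nat.clog_le_iff_le_pow (by norm_num)]
    calc 4 * (3 ^ Fintype.card {S : Finset (Fin l × Fin l) // S.card < 3 ^ b} *
          4 ^ Fintype.card {S : Finset (Fin l × Fin l) // S.card < 2 ^ a})
        ≤ 4 ^ W * (4 ^ W * 4 ^ W) := by
          apply Nat.mul_le_mul
          · simpa using Nat.pow_le_pow_right (n := 4) (by norm_num) e1
          · apply Nat.mul_le_mul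
            · exact (Nat.pow_le_pow_left (by norm_num) _).trans
                (Nat.pow_le_pow_right (by norm_num) e3)
            · exact Nat.pow_le_pow_right (by norm_num) e2
      _ = 2 ^ (6 * W) := by
          rw [show (4 : ℕ) = 2 ^ 2 by norm_num, ← pow_mul, ← pow_add, ← pow_add]
          congr 1; ring

theorem main (n : ℕ) (hn : 28 ≤ n) :
    ∃ (R Q : Type) (_ : Fintype R) (_ : Fintype Q) (_ : Nonempty R) (_ : Nonempty Q) (m : ℕ)
      (A : Fin m → Set ((Fin n → Bool) × R)) (B : Fin m → Set (Fin n × Q)),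
      IsZAM (fun (x : Fin n → Bool) (y : Fin n) => x y) A B ∧
      (Nat.clog 2 m : ℝ) ≤ Real.exp (26 * √(Real.log n * Real.log (Real.log n))) := by
  have hex : ∃ l, n ≤ l ^ l := ⟨n, Nat.le_self_pow (by omega) n⟩
  have hl := Nat.find_spec hex
  have h4 : 4 ≤ Nat.find hex := by
    by_contra h
    have : Nat.find hex ≤ 3 := by omega
    interval_cases h' : Nat.find hex <;> omega
  obtain ⟨k, hk⟩ : ∃ k, Nat.find hex = k + 1 := ⟨Nat.find hex - 1, by omega⟩
  have hmin : k ^ k < n := not_le.1 (Nat.find_min hex (m := k) (by omega))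
  rw [hk] at hl h4
  obtain ⟨R, Q, i1, i2, i3, i4, m, A, B, hAB, q, hq, hm⟩ := main_nat n (k + 1) (by omega) hl
  refine ⟨R, Q, i1, i2, i3, i4, m, A, B, hAB, ?_⟩
  have hk3 : (3 : ℝ) ≤ k := by exact_mod_cast (by omega : 3 ≤ k)
  have hlogk : 1 ≤ Real.log k := by
    rw [Real.le_log_iff_exp_le (by linarith)]
    have := Real.exp_one_lt_d9
    linarith
  have hL : k * Real.log k < Real.log n := by
    rw [← Real.log_pow]
    apply Real.log_lt_log (by positivity)
    exact_mod_cast hmin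
  have hkL : (k : ℝ) ≤ Real.log n := by nlinarith
  have hLL : Real.log k ≤ Real.log (Real.log n) := Real.log_le_log (by linarith) hkL
  have hs : √k * Real.log k ≤ √(Real.log n * Real.log (Real.log n)) := by
    apply Real.le_sqrt_of_sq_le
    rw [mul_pow, Real.sq_sqrt (by linarith)]
    have : k * Real.log k * Real.log k ≤ Real.log n * Real.log (Real.log n) :=
      mul_le_mul hL.le hLL (by linarith) (by nlinarith)
    nlinarith
  have hs1 : 1 ≤ √(k : ℝ) := Real.one_le_sqrt.2 (by linarith)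
  have hq' : (q : ℝ) ≤ 6 * √k := by
    apply le_of_sq_le_sq _ (by positivity)
    rw [mul_pow, Real.sq_sqrt (by linarith)]
    have : (q : ℝ) ^ 2 ≤ 9 * (k + 1) := by exact_mod_cast hq
    linarith
  have hm' : (Nat.clog 2 m : ℝ) ≤ 6 * (2 * ((k : ℝ) + 1) ^ 2) ^ q := by exact_mod_cast hm
  have h1 : 2 * ((k : ℝ) + 1) ^ 2 ≤ (k : ℝ) ^ 4 := by
    have h9 : (9 : ℝ) ≤ (k : ℝ) ^ 2 := by nlinarith
    have : (k : ℝ) ^ 4 = (k : ℝ) ^ 2 * (k : ℝ) ^ 2 := by ring
    nlinarith
  have h2 : (2 * ((k : ℝ) + 1) ^ 2) ^ q ≤ Real.exp (q * (4 * Real.log k)) := by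
    rw [Real.exp_nat_mul]
    apply pow_le_pow_left₀ (by positivity)
    rw [show (4 : ℝ) = ((4 : ℕ) : ℝ) by norm_num, Real.exp_nat_mul, Real.exp_log (by linarith)]
    exact h1
  have h3 : (6 : ℝ) ≤ Real.exp 2 := by
    have := Real.exp_one_gt_d9
    rw [show (2 : ℝ) = 1 + 1 by norm_num, Real.exp_add]
    nlinarith
  calc (Nat.clog 2 m : ℝ) ≤ Real.exp 2 * Real.exp (q * (4 * Real.log k)) :=
        hm'.trans (mul_le_mul h3 h2 (by positivity) (by positivity))
    _ = Real.exp (2 + q * (4 * Real.log k)) := by rw [Real.exp_add]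
    _ ≤ _ := by
        apply Real.exp_le_exp.2
        have h5 : (q : ℝ) * (4 * Real.log k) ≤ 6 * √k * (4 * Real.log k) :=
          mul_le_mul_of_nonneg_right hq' (by linarith)
        have h6 : 1 ≤ √(k : ℝ) * Real.log k := by nlinarith
        nlinarith

end Pool.Agent.H54.Zam
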