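import Mathlib
import Pool.Agent.H54.Zam2

open Finset

namespace Pool.Agent.H54.APTest

theorem card_small' (m q : ℕ) :
    ((univ : Finset (Finset (Fin m))).filter (fun S => S.card < q)).card ≤ (2 * m + 2) ^ q := by
  rcases Nat.eq_zero_or_pos m with rfl | hm
  · refine (Finset.card_filter_le _ _).trans ?_
    simp only [Finset.card_univ, Fintype.card_finset, Fintype.card_fin, pow_zero]
    exact Nat.one_le_pow _ _ (by norm_num)
  · have := Pool.Agent.H54.Zam.card_small (I := Fin m) q (by rw [Fintype.card_fin]; exact hm)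
    rw [Fintype.card_subtype, Fintype.card_fin] at this
    exact this.trans (Nat.pow_le_pow_left (by omega) _)

theorem mem_ap {a d L x : ℕ} (hd : 1 ≤ d) :
    x ∈ (Finset.range L).image (fun j => a + d * j) ↔ a ≤ x ∧ ¬ a + d * L ≤ x ∧ x ≡ a [MOD d] := by
  simp only [Finset.mem_image, Finset.mem_range]
  constructor
  · rintro ⟨j, hj, rfl⟩
    refine ⟨by omega, ?_, ?_⟩
    · have : d * j < d * L := Nat.mul_lt_mul_of_pos_left hj hd
      omega
    · simp [Nat.ModEq]
  · rintro ⟨h1, h2, h3⟩
    obtain ⟨j, hj⟩ := (Nat.modEq_iff_dvd' h1).1 h3.symm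
    refine ⟨j, ?_, by omega⟩
    by_contra h
    have : d * L ≤ d * j := Nat.mul_le_mul_left _ (not_lt.1 h)
    omega

theorem eq_of_card {m : ℕ} (a : Fin m → ℕ) {x y : ℕ}
    (h : (univ.filter (fun i => a i ≤ x)).card = (univ.filter (fun i => a i ≤ y)).card) (i : Fin m) :
    a i ≤ x ↔ a i ≤ y := by
  have key : ∀ x y : ℕ, x ≤ y →
      (univ.filter (fun i => a i ≤ x)).card = (univ.filter (fun i => a i ≤ y)).card →
      (a i ≤ x ↔ a i ≤ y) := by
    intro x y hxy h
    have hs : univ.filter (fun i => a i ≤ x) ⊆ univ.filter (fun i => a i ≤ y) := by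
      intro j
      simp only [Finset.mem_filter, Finset.mem_univ, true_and]
      omega
    have := Finset.eq_of_subset_of_card_le hs h.ge
    have h2 := Finset.ext_iff.1 this i
    simpa using h2
  rcases le_total x y with hxy | hxy
  · exact key x y hxy h
  · exact (key y x hxy h.symm).symm

theorem count (n m B t w : ℕ) (ht : 1 ≤ t) (htn : t ≤ n) (hw : 4 * m ≤ (w + 1) * t)
    (T : Fin m → Finset ℕ)
    (hT : ∀ i, T i ⊆ Finset.range n ∧
      ∃ a d L : ℕ, T i = (Finset.range L).image (fun j => a + d * j))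
    (hfib : ∀ x, ((Finset.range n).filter (fun y => ∀ i, y ∈ T i ↔ x ∈ T i)).card ≤ B) :
    n ≤ 2 * (B * ((m + 1) * ((m + 1) * (t.factorial * (2 * m + 2) ^ (w + 1))))) := by
  classical
  choose a d L hadL using fun i => (hT i).2
  let Λ : Finset (Fin m) := univ.filter (fun i => (T i).card * t ≤ 2 * n)
  have hΛ : ∀ i, i ∉ Λ → 1 ≤ d i ∧ d i ≤ t := by
    intro i hi
    simp only [Λ, Finset.mem_filter, Finset.mem_univ, true_and, not_le] at hi
    have hd1 : 1 ≤ d i := by
      by_contra h
      have h0 : d i = 0 := by omega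
      have : (T i).card ≤ 1 := by
        rw [Finset.card_le_one]
        intro x hx y hy
        rw [hadL i, h0] at hx hy
        simp only [Finset.mem_image] at hx hy
        obtain ⟨_, _, rfl⟩ := hx
        obtain ⟨_, _, rfl⟩ := hy
        simp
      have : (T i).card * t ≤ 1 * t := Nat.mul_le_mul_right _ this
      omega
    refine ⟨hd1, ?_⟩
    by_contra h
    have hc : (T i).card ≤ L i := by
      rw [hadL i]
      exact Finset.card_image_le.trans (by simp)
    rcases hL : L i with _ | l
    · rw [hL] at hc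
      have : (T i).card = 0 := by omega
      rw [this] at hi
      omega
    · have hmem : a i + d i * l ∈ T i := by
        rw [hadL i, hL]
        exact Finset.mem_image.2 ⟨l, by simp, rfl⟩
      have := Finset.mem_range.1 ((hT i).1 hmem)
      have h1 : t * l ≤ d i * l := Nat.mul_le_mul_right _ (by omega)
      have h2 : (T i).card * t ≤ (l + 1) * t := Nat.mul_le_mul_right _ (by omega)
      nlinarith
  let c : ℕ → Finset (Fin m) := fun x => Λ.filter (fun i => x ∈ T i)
  have hsum : (∑ x ∈ range n, (c x).card) * t ≤ m * (2 * n) := by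
    have h1 : ∑ x ∈ range n, (c x).card = ∑ i ∈ Λ, (T i).card := by
      simp only [c, Finset.card_filter]
      rw [Finset.sum_comm]
      refine Finset.sum_congr rfl fun i _ => ?_
      rw [← Finset.card_filter, Finset.filter_mem_eq_inter, Finset.inter_eq_right.2 (hT i).1]
    rw [h1, Finset.sum_mul]
    refine (Finset.sum_le_card_nsmul Λ _ (2 * n) (fun i hi => (Finset.mem_filter.1 hi).2)).trans ?_
    rw [smul_eq_mul]
    exact Nat.mul_le_mul_right _ ((Finset.card_le_univ _).trans (by simp))
  let G := (range n).filter (fun x => (c x).card < w + 1)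
  have hG : n ≤ 2 * G.card := by
    have h1 := Finset.card_filter_add_card_filter_not (s := range n) (fun x => (c x).card < w + 1)
    have h2 : ((range n).filter (fun x => ¬ (c x).card < w + 1)).card * (w + 1) ≤
        ∑ x ∈ range n, (c x).card := by
      refine le_trans ?_ (Finset.sum_le_sum_of_subset
        (Finset.filter_subset (fun x => ¬ (c x).card < w + 1) _))
      rw [← smul_eq_mul]
      exact Finset.card_nsmul_le_sum _ _ _ (fun x hx => not_lt.1 (Finset.mem_filter.1 hx).2)
    rw [Finset.card_range] at h1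
    set u := ((range n).filter (fun x => ¬ (c x).card < w + 1)).card
    have h3 : u * (w + 1) * t ≤ m * (2 * n) := (Nat.mul_le_mul_right _ h2).trans hsum
    have h4 : 2 * u * ((w + 1) * t) ≤ n * ((w + 1) * t) := by nlinarith
    have h5 : 2 * u ≤ n := Nat.le_of_mul_le_mul_right h4 (by positivity)
    show n ≤ 2 * ((range n).filter (fun x => (c x).card < w + 1)).card
    omega
  let key : ℕ → ℕ × ℕ × ℕ × Finset (Fin m) := fun x =>
    ((univ.filter (fun i => a i ≤ x)).card, (univ.filter (fun i => a i + d i * L i ≤ x)).card,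
      x % t.factorial, c x)
  let Kset : Finset (ℕ × ℕ × ℕ × Finset (Fin m)) := range (m + 1) ×ˢ range (m + 1) ×ˢ
    range t.factorial ×ˢ (univ.filter (fun S : Finset (Fin m) => S.card < w + 1))
  have hK : G.card ≤ B * Kset.card := by
    apply Finset.card_le_mul_card_image_of_maps_to (f := key)
    · intro x hx
      simp only [Kset, key, Finset.mem_product, Finset.mem_range, Finset.mem_filter,
        Finset.mem_univ, true_and]
      refine ⟨?_, ?_, Nat.mod_lt _ (Nat.factorial_pos t), (Finset.mem_filter.1 hx).2⟩ <;>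
        exact Nat.lt_succ_of_le ((Finset.card_le_univ _).trans (by simp))
    · intro k _
      rcases (G.filter (fun x => key x = k)).eq_empty_or_nonempty with h | ⟨x, hx⟩
      · rw [h]; simp
      · refine le_trans (Finset.card_le_card ?_) (hfib x)
        intro y hy
        have hy1 := Finset.mem_filter.1 hy
        have hk : key y = key x := hy1.2.trans (Finset.mem_filter.1 hx).2.symm
        simp only [key, Prod.mk.injEq] at hk
        obtain ⟨k1, k2, k3, k4⟩ := hk
        refine Finset.mem_filter.2 ⟨(Finset.mem_filter.1 hy1.1).1, fun i => ?_⟩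
        by_cases hi : i ∈ Λ
        · have := Finset.ext_iff.1 k4 i
          simpa [c, hi] using this
        · obtain ⟨hd1, hdt⟩ := hΛ i hi
          have hm : y ≡ x [MOD d i] := Nat.ModEq.of_dvd (Nat.dvd_factorial hd1 hdt) k3
          rw [hadL i, mem_ap hd1, mem_ap hd1, eq_of_card a k1 i,
            eq_of_card (fun i => a i + d i * L i) k2 i]
          exact ⟨fun h => ⟨h.1, h.2.1, hm.symm.trans h.2.2⟩,
            fun h => ⟨h.1, h.2.1, hm.trans h.2.2⟩⟩
  have hKc : Kset.card ≤ (m + 1) * ((m + 1) * (t.factorial * (2 * m + 2) ^ (w + 1))) := by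
    simp only [Kset, Finset.card_product, Finset.card_range]
    gcongr
    exact card_small' m (w + 1)
  calc n ≤ 2 * G.card := hG
    _ ≤ 2 * (B * Kset.card) := by gcongr
    _ ≤ _ := by gcongr

theorem fib_of_success (n k m B : ℕ) (hk : 1 ≤ k) (T : Fin m → Finset ℕ)
    (J : (Fin m → Bool) → Finset ℕ) (hJ : ∀ o, (J o).card ≤ B)
    (h : ∀ S S' : Finset ℕ, S ⊆ Finset.range n → S' ⊆ Finset.range n →
      S.card ≤ k → S'.card ≤ k →
      (fun i => decide (Disjoint (T i) S)) = (fun i => decide (Disjoint (T i) S')) →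
      S ∩ J (fun i => decide (Disjoint (T i) S)) = S' ∩ J (fun i => decide (Disjoint (T i) S)) →
      S = S') (x : ℕ) :
    ((Finset.range n).filter (fun y => ∀ i, y ∈ T i ↔ x ∈ T i)).card ≤ B + 1 := by
  classical
  set F := (Finset.range n).filter (fun y => ∀ i, y ∈ T i ↔ x ∈ T i)
  let o : Fin m → Bool := fun i => decide (x ∉ T i)
  have ho : ∀ y ∈ F, (fun i => decide (Disjoint (T i) {y})) = o := by
    intro y hy
    funext i
    simp [o, (Finset.mem_filter.1 hy).2 i]
  have h1 : (F \ J o).card ≤ 1 := by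
    rw [Finset.card_le_one]
    intro y hy z hz
    rw [Finset.mem_sdiff] at hy hz
    have := h {y} {z} (by simpa using (Finset.mem_filter.1 hy.1).1)
      (by simpa using (Finset.mem_filter.1 hz.1).1) (by simpa) (by simpa)
      ((ho y hy.1).trans (ho z hz.1).symm) (by
        rw [ho y hy.1, Finset.singleton_inter_of_notMem hy.2,
          Finset.singleton_inter_of_notMem hz.2])
    simpa using this
  have h2 := Finset.le_card_sdiff (J o) F
  have h3 := hJ o
  omega

theorem numeric (c D : ℕ) : ∃ t : ℕ, 1 ≤ t ∧ ∀ m, m ≤ c * t ^ 2 →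
    2 * ((D + 1) * ((m + 1) * ((m + 1) * (t.factorial * (2 * m + 2) ^ (4 * c * t + 1))))) <
      2 ^ (t ^ 2) := by
  obtain ⟨s, hs1, hs2⟩ : ∃ s : ℕ, 2 * c + D + 3 ≤ s ∧ s * (12 * c + 20) < 2 ^ s := by
    refine ⟨2 * (12 * c + D + 20), by omega, ?_⟩
    have h1 : 12 * c + D + 20 < 2 ^ (12 * c + D + 20) := Nat.lt_two_pow_self
    have h2 : 2 * (12 * c + 20) ≤ 2 ^ (12 * c + D + 20) := by
      have h3 : 12 * c + 20 ≤ 2 ^ (12 * c + D + 19) :=
        Nat.succ_le_of_lt (lt_of_le_of_lt (by omega) Nat.lt_two_pow_self)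
      rw [show 12 * c + D + 20 = 12 * c + D + 19 + 1 by ring, pow_succ]
      omega
    rw [two_mul (12 * c + D + 20), pow_add]
    nlinarith
  refine ⟨2 ^ s, Nat.one_le_two_pow, fun m hm => ?_⟩
  set t := 2 ^ s with ht
  have hst : s < t := Nat.lt_two_pow_self
  have h3 : 2 * m + 2 ≤ t ^ 3 := by
    have : t ^ 3 = t * t ^ 2 := by ring
    have h1 : 1 ≤ t ^ 2 := Nat.one_le_pow _ _ (by omega)
    nlinarith
  have h4 : m + 1 ≤ t ^ 3 := by omega
  have h5 : D + 1 ≤ t := by omega
  have h6 : 2 ≤ t := by omega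
  calc 2 * ((D + 1) * ((m + 1) * ((m + 1) * (t.factorial * (2 * m + 2) ^ (4 * c * t + 1)))))
      ≤ t * (t * (t ^ 3 * (t ^ 3 * (t ^ t * (t ^ 3) ^ (4 * c * t + 1))))) := by
        gcongr
        exact Nat.factorial_le_pow t
    _ = t ^ ((12 * c + 1) * t + 11) := by
        rw [← pow_mul]; ring
    _ = 2 ^ (s * ((12 * c + 1) * t + 11)) := by rw [pow_mul]
    _ < 2 ^ (t ^ 2) := by
        apply Nat.pow_lt_pow_right (by norm_num)
        nlinarith

end Pool.Agent.H54.APTest
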