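import Mathlib

set_option autoImplicit false

namespace Pool.Agent.H54.Fold

open Finset

/-- bounded initial sums -/
def Bdd (c : ℕ → ℤ) : Prop := ∃ C : ℤ, ∀ N, |∑ m ∈ range N, c m| ≤ C

lemma Bdd.add {a b : ℕ → ℤ} (ha : Bdd a) (hb : Bdd b) : Bdd (fun m => a m + b m) := by
  obtain ⟨A, hA⟩ := ha
  obtain ⟨B, hB⟩ := hb
  refine ⟨A + B, fun N => ?_⟩
  rw [sum_add_distrib]
  exact (abs_add_le _ _).trans (add_le_add (hA N) (hB N))

lemma Bdd.congr {a b : ℕ → ℤ} (ha : Bdd a) (h : ∀ m, a m = b m) : Bdd b := by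
  have : a = b := funext h
  exact this ▸ ha

lemma Bdd.shift {a : ℕ → ℤ} (ha : Bdd a) (s : ℕ) : Bdd (fun m => a (s + m)) := by
  obtain ⟨A, hA⟩ := ha
  refine ⟨A + A, fun N => ?_⟩
  have h := sum_range_add a s N
  have : ∑ m ∈ range N, a (s + m) = ∑ m ∈ range (s + N), a m - ∑ m ∈ range s, a m := by
    rw [h]; ring
  rw [this]
  exact (abs_sub _ _).trans (add_le_add (hA _) (hA _))

lemma abs_sum_le (e : ℕ → ℤ) (B : ℤ) (he : ∀ m, |e m| ≤ B) (h : ℕ) :
    |∑ m ∈ range h, e m| ≤ h * B := by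
  refine (abs_sum_le_sum_abs _ _).trans ?_
  refine (sum_le_sum (fun m _ => he m)).trans ?_
  simp

lemma bdd_diff (e : ℕ → ℤ) (B : ℤ) (he : ∀ m, |e m| ≤ B) (h : ℕ) :
    Bdd (fun m => e m - e (m + h)) := by
  refine ⟨h * B + h * B, fun N => ?_⟩
  have h1 := sum_range_add e N h
  have h2 := sum_range_add e h N
  rw [add_comm h N] at h2
  have : ∑ m ∈ range N, (e m - e (m + h))
      = ∑ m ∈ range h, e m - ∑ m ∈ range h, e (N + m) := by
    rw [sum_sub_distrib]
    have : ∑ m ∈ range N, e (m + h) = ∑ m ∈ range N, e (h + m) :=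
      sum_congr rfl (fun m _ => by rw [add_comm])
    rw [this]; linarith
  rw [this]
  exact (abs_sub _ _).trans (add_le_add (abs_sum_le e B he h)
    (abs_sum_le (fun m => e (N + m)) B (fun m => he _) h))

lemma bdd_anti (e : ℕ → ℤ) (B : ℤ) (he : ∀ m, |e m| ≤ B) (h : ℕ)
    (ha : ∀ m, e (m + h) = - e m) : Bdd e := by
  obtain ⟨C, hC⟩ := bdd_diff e B he h
  refine ⟨C, fun N => ?_⟩
  have h1 := hC N
  have : ∑ m ∈ range N, (e m - e (m + h)) = 2 * ∑ m ∈ range N, e m := by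
    rw [mul_sum]; exact sum_congr rfl (fun m _ => by rw [ha]; ring)
  rw [this, abs_mul] at h1
  have h2 := abs_nonneg (∑ m ∈ range N, e m)
  have : |(2 : ℤ)| = 2 := by norm_num
  rw [this] at h1
  linarith

lemma bdd_interleave (c : ℕ → ℤ) (h0 : Bdd (fun u => c (2 * u)))
    (h1 : Bdd (fun u => c (2 * u + 1))) : Bdd c := by
  obtain ⟨A, hA⟩ := h0
  obtain ⟨B, hB⟩ := h1
  have key : ∀ n, ∑ m ∈ range (2 * n), c m
      = ∑ u ∈ range n, c (2 * u) + ∑ u ∈ range n, c (2 * u + 1) := by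
    intro n
    induction n with
    | zero => simp
    | succ n ih =>
      rw [show 2 * (n + 1) = 2 * n + 1 + 1 by ring, sum_range_succ, sum_range_succ, ih,
        sum_range_succ, sum_range_succ]
      ring
  refine ⟨A + B, fun N => ?_⟩
  obtain ⟨n, rfl | rfl⟩ := Nat.even_or_odd' N
  · rw [key]
    exact (abs_add_le _ _).trans (add_le_add (hA _) (hB _))
  · rw [sum_range_succ, key]
    have : ∑ u ∈ range n, c (2 * u) + ∑ u ∈ range n, c (2 * u + 1) + c (2 * n)
        = ∑ u ∈ range (n + 1), c (2 * u) + ∑ u ∈ range n, c (2 * u + 1) := by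
      rw [sum_range_succ]; ring
    rw [this]
    exact (abs_add_le _ _).trans (add_le_add (hA _) (hB _))

/-- the odd part -/
def od (n : ℕ) : ℕ := n / 2 ^ (n.factorization 2)

lemma od_mul (m n : ℕ) : od (m * n) = od m * od n := Nat.ordCompl_mul m n 2

lemma od_odd (n : ℕ) (h : n % 2 = 1) : od n = n := by
  unfold od
  rw [Nat.factorization_eq_zero_of_not_dvd (by omega)]
  simp

lemma od_two : od 2 = 1 := by
  unfold od
  rw [Nat.Prime.factorization_self Nat.prime_two]; norm_num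

lemma od_two_mul (n : ℕ) : od (2 * n) = od n := by rw [od_mul, od_two, one_mul]

lemma od_mod (n : ℕ) (h : n ≠ 0) : od n % 2 = 1 := by
  have := Nat.not_dvd_ordCompl Nat.prime_two h
  unfold od
  omega

/-- character of conductor 4 on the odd part -/
def f4 (n : ℕ) : ℤ := ZMod.χ₄ ((od n : ℕ) : ZMod 4)

/-- odd character of conductor 8 on the odd part -/
def f8 (n : ℕ) : ℤ := ZMod.χ₈' ((od n : ℕ) : ZMod 8)

lemma f4_mul (m n : ℕ) : f4 (m * n) = f4 m * f4 n := by
  unfold f4; rw [od_mul, Nat.cast_mul, map_mul]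

lemma f8_mul (m n : ℕ) : f8 (m * n) = f8 m * f8 n := by
  unfold f8; rw [od_mul, Nat.cast_mul, map_mul]

lemma f4_two_mul (n : ℕ) : f4 (2 * n) = f4 n := by unfold f4; rw [od_two_mul]

lemma f8_two_mul (n : ℕ) : f8 (2 * n) = f8 n := by unfold f8; rw [od_two_mul]

lemma chi4_val (n : ℕ) : ZMod.χ₄ (n : ZMod 4) =
    if n % 2 = 0 then 0 else if n % 4 = 1 then 1 else -1 := ZMod.χ₄_nat_eq_if_mod_four n

lemma chi8_val (n : ℕ) : ZMod.χ₈' (n : ZMod 8) =
    if n % 2 = 0 then 0 else if n % 8 = 1 ∨ n % 8 = 3 then 1 else -1 :=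
  ZMod.χ₈'_nat_eq_if_mod_eight n

lemma f4_odd (n : ℕ) (h : n % 2 = 1) : f4 n = if n % 4 = 1 then 1 else -1 := by
  unfold f4; rw [od_odd n h, chi4_val, if_neg (by omega)]

lemma f8_odd (n : ℕ) (h : n % 2 = 1) : f8 n = if n % 8 = 1 ∨ n % 8 = 3 then 1 else -1 := by
  unfold f8; rw [od_odd n h, chi8_val, if_neg (by omega)]

lemma f4_pm (n : ℕ) (h : n ≠ 0) : f4 n = 1 ∨ f4 n = -1 := by
  have := od_mod n h
  unfold f4; rw [chi4_val, if_neg (by omega)]
  split_ifs <;> simp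

lemma f8_pm (n : ℕ) (h : n ≠ 0) : f8 n = 1 ∨ f8 n = -1 := by
  have := od_mod n h
  unfold f8; rw [chi8_val, if_neg (by omega)]
  split_ifs <;> simp

lemma f8_abs (n : ℕ) : |f8 n| ≤ 1 := by
  unfold f8; rw [chi8_val]
  split_ifs <;> simp

lemma f4_sum (n : ℕ) : |∑ k ∈ Icc 1 n, f4 k * f4 (k + 1)| ≤ 1 := by
  have key : ∀ j, ∑ k ∈ Icc 1 (2 * j), f4 k * f4 (k + 1) = 0 := by
    intro j
    induction j with
    | zero => simp
    | succ j ih =>
      rw [show 2 * (j + 1) = 2 * j + 1 + 1 by ring, sum_Icc_succ_top (by omega),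
        sum_Icc_succ_top (by omega), ih, f4_odd (2 * j + 1) (by omega),
        f4_odd (2 * j + 1 + 1 + 1) (by omega)]
      split_ifs <;> first | omega | ring
  obtain ⟨j, rfl | rfl⟩ := Nat.even_or_odd' n
  · rw [key]; simp
  · rw [sum_Icc_succ_top (by omega), key]
    rcases f4_pm (2 * j + 1) (by omega) with h1 | h1 <;>
      rcases f4_pm (2 * j + 1 + 1) (by omega) with h2 | h2 <;> simp [h1, h2]

lemma f8_bdd_odd (h : ℕ) (hh : h % 2 = 1) : Bdd (fun m => f8 m * f8 (m + h)) := by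
  let e : ℕ → ℤ := fun m => if m % 2 = 0 then f8 m * f8 (m + h) else 0
  let r : ℕ → ℤ := fun m => if m % 2 = 1 then f8 (m + h) * (f8 m + f8 (m + h + h)) else 0
  have he : ∀ m, |e m| ≤ 1 := by
    intro m
    simp only [e]
    split_ifs
    · rw [abs_mul]
      exact mul_le_one₀ (f8_abs _) (abs_nonneg _) (f8_abs _)
    · simp
  have hr : ∀ m, |r m| ≤ 2 := by
    intro m
    simp only [r]
    split_ifs
    · rw [abs_mul]
      have h1 := f8_abs (m + h)
      have h2 : |f8 m + f8 (m + h + h)| ≤ 2 :=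
        (abs_add_le _ _).trans (by linarith [f8_abs m, f8_abs (m + h + h)])
      nlinarith [abs_nonneg (f8 (m + h)), abs_nonneg (f8 m + f8 (m + h + h))]
    · simp
  have hanti : ∀ m, r (m + 8) = - r m := by
    intro m
    simp only [r]
    by_cases hm : m % 2 = 1
    · rw [if_pos hm, if_pos (by omega)]
      obtain ⟨u, hu⟩ : ∃ u, m + h = 2 * u := ⟨(m + h) / 2, by omega⟩
      have h1 : f8 (m + 8 + h) = f8 (u + 4) := by
        rw [show m + 8 + h = 2 * (u + 4) by omega, f8_two_mul]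
      have h2 : f8 (m + h) = f8 u := by rw [hu, f8_two_mul]
      rw [h1, h2, f8_odd (m + 8) (by omega), f8_odd (m + 8 + h + h) (by omega),
        f8_odd m hm, f8_odd (m + h + h) (by omega)]
      by_cases hu2 : u % 2 = 1
      · rw [f8_odd u hu2, f8_odd (u + 4) (by omega)]
        split_ifs <;> first | omega | ring
      · split_ifs <;> first | omega | ring
    · rw [if_neg hm, if_neg (by omega)]; simp
  refine ((bdd_diff e 1 he h).add (bdd_anti r 2 hr 8 hanti)).congr (fun m => ?_)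
  simp only [e, r]
  by_cases hm : m % 2 = 1
  · rw [if_neg (by omega), if_pos (by omega), if_pos hm]; ring
  · rw [if_pos (by omega), if_neg (by omega), if_neg hm]; ring

lemma f8_bdd (h : ℕ) (hh : h % 4 ≠ 0) : Bdd (fun m => f8 m * f8 (m + h)) := by
  by_cases h1 : h % 2 = 1
  · exact f8_bdd_odd h h1
  obtain ⟨g, rfl⟩ : ∃ g, h = 2 * g := ⟨h / 2, by omega⟩
  apply bdd_interleave
  · refine (f8_bdd_odd g (by omega)).congr (fun u => ?_)
    rw [← mul_add, f8_two_mul, f8_two_mul]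
  · apply bdd_anti _ 1 _ 1
    · intro u
      rw [f8_odd (2 * (u + 1) + 1) (by omega), f8_odd (2 * (u + 1) + 1 + 2 * g) (by omega),
        f8_odd (2 * u + 1) (by omega), f8_odd (2 * u + 1 + 2 * g) (by omega)]
      split_ifs <;> first | omega | ring
    · intro u
      rw [abs_mul]
      exact mul_le_one₀ (f8_abs _) (abs_nonneg _) (f8_abs _)

lemma f8_corr (a b : ℕ) (hab : ¬ (4 : ℤ) ∣ (a : ℤ) - b) :
    ∃ C : ℤ, ∀ n, |∑ k ∈ Icc 1 n, f8 (k + a) * f8 (k + b)| ≤ C := by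
  wlog hle : a ≤ b generalizing a b
  · obtain ⟨C, hC⟩ := this b a (fun h => hab (by rwa [← neg_sub, dvd_neg])) (by omega)
    exact ⟨C, fun n => by simpa only [mul_comm] using hC n⟩
  obtain ⟨h, rfl⟩ := Nat.exists_eq_add_of_le hle
  obtain ⟨C, hC⟩ := (f8_bdd h (by push_cast at hab; omega)).shift (1 + a)
  refine ⟨C, fun n => ?_⟩
  have := hC n
  rw [show Icc 1 n = Ico 1 (n + 1) from rfl, sum_Ico_eq_sum_range]
  simp only [Nat.add_sub_cancel]
  convert this using 3 with m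
  congr 2 <;> ring

end Pool.Agent.H54.Fold
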