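import Mathlib
import Pool.Agent.H54.Fold

set_option autoImplicit false

namespace Pool.Agent.H54.BadSet

open Finset

lemma bad_of_seq (S : Set ℕ) (s : ℕ → ℕ) (hs : StrictMono s) (h1 : 1 ≤ s 0)
    (hS : ∀ k, 1 ≤ k → (k ∈ S ↔ ∃ m, s m = k))
    (a : ℕ → ℂ) (ha : ∀ n, 1 ≤ n → ‖a n‖ = 1)
    (hm : ∀ m n, 1 ≤ m → 1 ≤ n → a (m * n) = a m * a n)
    (C : ℝ) (hC : ∀ N, ‖∑ m ∈ range N, a (s m)‖ ≤ C) :
    ∃ a : ℕ → ℂ, (∀ n : ℕ, 1 ≤ n → ‖a n‖ = 1) ∧ ∃ C : ℝ, ∀ d n : ℕ, 1 ≤ d → 1 ≤ n →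
      ‖∑ k ∈ Finset.Icc 1 n, S.indicator (fun k => a (d * k)) k‖ ≤ C := by
  classical
  refine ⟨a, ha, C, fun d n hd _ => ?_⟩
  have hex : ∃ m, n < s m := ⟨n + 1, lt_of_lt_of_le (Nat.lt_succ_self n) (hs.id_le (n + 1))⟩
  set N := Nat.find hex with hN
  have hpos : ∀ m, 1 ≤ s m := fun m => h1.trans (hs.monotone (Nat.zero_le m))
  have hiff : ∀ m, m < N ↔ s m ≤ n := by
    intro m
    constructor
    · intro h
      exact not_lt.mp (Nat.find_min hex h)
    · intro h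
      by_contra h2
      have h3 : s N ≤ s m := hs.monotone (not_lt.mp h2)
      have h4 : n < s N := Nat.find_spec hex
      omega
  have key : ∑ k ∈ Finset.Icc 1 n, S.indicator (fun k => a (d * k)) k
      = ∑ m ∈ range N, a (d * s m) := by
    rw [← sum_image (s := range N) (g := s) (f := fun k => a (d * k))
      (fun x _ y _ h => hs.injective h)]
    rw [← sum_subset (s₁ := (range N).image s) (s₂ := Icc 1 n)]
    · refine sum_congr rfl (fun k hk => ?_)
      obtain ⟨m, _, rfl⟩ := mem_image.mp hk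
      rw [Set.indicator_of_mem ((hS _ (hpos m)).mpr ⟨m, rfl⟩)]
    · intro k hk
      obtain ⟨m, hm, rfl⟩ := mem_image.mp hk
      exact mem_Icc.mpr ⟨hpos m, (hiff m).mp (mem_range.mp hm)⟩
    · intro k hk hk2
      apply Set.indicator_of_notMem
      intro hkS
      obtain ⟨m, rfl⟩ := (hS _ (mem_Icc.mp hk).1).mp hkS
      exact hk2 (mem_image.mpr ⟨m, mem_range.mpr ((hiff m).mpr (mem_Icc.mp hk).2), rfl⟩)
  rw [key]
  have : ∑ m ∈ range N, a (d * s m) = a d * ∑ m ∈ range N, a (s m) := by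
    rw [mul_sum]
    exact sum_congr rfl (fun m _ => hm _ _ hd (hpos m))
  rw [this, norm_mul, ha d hd, one_mul]
  exact hC N

lemma sq_add_one_bad :
    ∃ a : ℕ → ℂ, (∀ n : ℕ, 1 ≤ n → ‖a n‖ = 1) ∧ ∃ C : ℝ, ∀ d n : ℕ, 1 ≤ d → 1 ≤ n →
      ‖∑ k ∈ Finset.Icc 1 n,
        {k : ℕ | ∃ m : ℕ, 1 ≤ m ∧ k = m ^ 2 + 1}.indicator (fun k => a (d * k)) k‖ ≤ C := by
  apply bad_of_seq _ (fun m => (m + 1) ^ 2 + 1) _ (by norm_num) _
    (fun n => (-1) ^ (n.factorization 2)) _ _ 1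
  · intro N
    have : ∀ m : ℕ, ((-1 : ℂ)) ^ (((m + 1) ^ 2 + 1).factorization 2) = - (-1) ^ m := by
      intro m
      obtain ⟨j, rfl | rfl⟩ := Nat.even_or_odd' m
      · have h1 : (2 * j + 1) ^ 2 + 1 = 2 * (2 * (j ^ 2 + j) + 1) := by ring
        rw [h1, Nat.factorization_mul (by norm_num) (by omega), Finsupp.add_apply,
          Nat.Prime.factorization_self Nat.prime_two,
          Nat.factorization_eq_zero_of_not_dvd (by omega)]
        simp [pow_mul]
      · have h1 : (2 * j + 1 + 1) ^ 2 + 1 = 2 * (2 * (j + 1) ^ 2) + 1 := by ring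
        rw [h1, Nat.factorization_eq_zero_of_not_dvd (by omega)]
        simp [pow_succ, pow_mul]
    simp only [this, sum_neg_distrib, norm_neg, neg_one_geom_sum]
    split_ifs <;> simp
  · intro a b hab
    have : (a + 1) ^ 2 < (b + 1) ^ 2 := Nat.pow_lt_pow_left (by omega) (by norm_num)
    simpa using this
  · intro k _
    constructor
    · rintro ⟨m, hm, rfl⟩
      exact ⟨m - 1, by simp only [Nat.sub_add_cancel hm]⟩
    · rintro ⟨m, rfl⟩
      exact ⟨m + 1, by omega, rfl⟩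
  · intro n _
    simp
  · intro m n hm hn
    rw [Nat.factorization_mul (by omega) (by omega), Finsupp.add_apply, pow_add]

open Pool.Agent.H54.Fold in
lemma sq_sub_one_bad :
    ∃ a : ℕ → ℂ, (∀ n : ℕ, 1 ≤ n → ‖a n‖ = 1) ∧ ∃ C : ℝ, ∀ d n : ℕ, 1 ≤ d → 1 ≤ n →
      ‖∑ k ∈ Finset.Icc 1 n,
        {k : ℕ | ∃ m : ℕ, 1 ≤ m ∧ (k : ℤ) = (m : ℤ) ^ 2 - 1}.indicator
          (fun k => a (d * k)) k‖ ≤ C := by
  obtain ⟨C, hC⟩ := (f8_bdd 2 (by norm_num)).shift 1
  apply bad_of_seq _ (fun m => (1 + m) * (1 + m + 2)) _ (by norm_num) _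
    (fun n => (f8 n : ℂ)) _ _ C
  · intro N
    have : ∑ m ∈ range N, (f8 ((1 + m) * (1 + m + 2)) : ℂ)
        = ((∑ m ∈ range N, f8 (1 + m) * f8 (1 + m + 2) : ℤ) : ℂ) := by
      push_cast
      exact sum_congr rfl (fun m _ => by rw [f8_mul]; push_cast; ring)
    rw [this, Complex.norm_intCast]
    exact_mod_cast hC N
  · intro a b hab
    simp only
    nlinarith
  · intro k hk
    constructor
    · rintro ⟨m, hm, h⟩
      have h2 : 2 ≤ m := by
        by_contra h3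
        have : m = 1 := by omega
        subst this
        omega
      obtain ⟨j, rfl⟩ := Nat.exists_eq_add_of_le h2
      refine ⟨j, ?_⟩
      have : (((1 + j) * (1 + j + 2) : ℕ) : ℤ) = k := by rw [h]; push_cast; ring
      exact_mod_cast this
    · rintro ⟨m, rfl⟩
      exact ⟨m + 2, by omega, by push_cast; ring⟩
  · intro n hn
    rcases f8_pm n (by omega) with h | h <;> simp [h]
  · intro m n _ _
    simp [f8_mul]

/-- Fermat quotient modulo 7 -/
def Q (x : ZMod 49) : ZMod 7 := (((x ^ 6).val / 7 : ℕ) : ZMod 7)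

lemma Q_mul : ∀ x y : ZMod 49, x.val % 7 ≠ 0 → y.val % 7 ≠ 0 → Q (x * y) = Q x + Q y := by
  decide +kernel

lemma Q_fiber : ∀ t : ZMod 7,
    ((range 21).filter (fun m => Q (2 ^ (m + 1) + 1) = t)).card = 3 := by
  decide +kernel

lemma periodic_bdd (c : ℕ → ℂ) (P : ℕ) (hP : 0 < P) (hc : ∀ m, ‖c m‖ ≤ 1)
    (hper : ∀ m, c (m + P) = c m) (h0 : ∑ m ∈ range P, c m = 0) (N : ℕ) :
    ‖∑ m ∈ range N, c m‖ ≤ P := by
  induction N using Nat.strong_induction_on with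
  | _ N ih =>
    rcases lt_or_ge N P with h | h
    · refine (norm_sum_le _ _).trans ((sum_le_sum (fun m _ => hc m)).trans ?_)
      simp only [sum_const, card_range, nsmul_eq_mul, mul_one]
      exact_mod_cast h.le
    · obtain ⟨k, rfl⟩ := Nat.exists_eq_add_of_le h
      rw [sum_range_add, h0, zero_add]
      have : ∑ m ∈ range k, c (P + m) = ∑ m ∈ range k, c m :=
        sum_congr rfl (fun m _ => by rw [add_comm, hper])
      rw [this]
      exact ih k (by omega)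

lemma two_pow_mod (m : ℕ) : ¬ 7 ∣ 2 ^ m + 1 := by
  have : ∀ m : ℕ, 2 ^ m % 7 = 1 ∨ 2 ^ m % 7 = 2 ∨ 2 ^ m % 7 = 4 := by
    intro m
    induction m with
    | zero => simp
    | succ m ih => rw [pow_succ]; omega
  have := this m
  omega

lemma two_pow_add_one_bad :
    ∃ a : ℕ → ℂ, (∀ n : ℕ, 1 ≤ n → ‖a n‖ = 1) ∧ ∃ C : ℝ, ∀ d n : ℕ, 1 ≤ d → 1 ≤ n →
      ‖∑ k ∈ Finset.Icc 1 n,
        {k : ℕ | ∃ m : ℕ, 1 ≤ m ∧ k = 2 ^ m + 1}.indicator (fun k => a (d * k)) k‖ ≤ C := by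
  have h7 : Nat.Prime 7 := by norm_num
  let a : ℕ → ℂ := fun n =>
    ZMod.stdAddChar (Q ((n / 7 ^ (n.factorization 7) : ℕ) : ZMod 49))
  have hnorm : ∀ n, ‖a n‖ = 1 := by
    intro n
    simp only [a, ZMod.stdAddChar_apply, Circle.norm_coe]
  have hval : ∀ m : ℕ, a (2 ^ (m + 1) + 1) = ZMod.stdAddChar (Q (2 ^ (m + 1) + 1)) := by
    intro m
    simp only [a]
    rw [Nat.factorization_eq_zero_of_not_dvd (two_pow_mod _)]
    simp
  apply bad_of_seq _ (fun m => 2 ^ (m + 1) + 1) _ (by norm_num) _ a (fun n _ => hnorm n) _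
    ((21 : ℕ) : ℝ)
  · apply periodic_bdd _ 21 (by norm_num) (fun m => (hnorm _).le)
    · intro m
      rw [hval, hval]
      have : (2 : ZMod 49) ^ (m + 21 + 1) = 2 ^ (m + 1) := by
        rw [show m + 21 + 1 = m + 1 + 21 by ring, pow_add,
          show (2 : ZMod 49) ^ 21 = 1 by decide +kernel, mul_one]
      rw [this]
    · simp only [hval]
      rw [← sum_fiberwise' (range 21) (fun m => Q (2 ^ (m + 1) + 1))
        (fun t => (ZMod.stdAddChar t : ℂ))]
      simp only [sum_const, Q_fiber]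
      rw [← smul_sum, AddChar.sum_eq_zero_of_ne_one, smul_zero]
      intro h
      have h1 := ZMod.isPrimitive_stdAddChar 7 (a := 1) (by decide)
      rw [h] at h1
      simp at h1
  · intro x y hxy
    have : 2 ^ (x + 1) < 2 ^ (y + 1) := Nat.pow_lt_pow_right (by norm_num) (by omega)
    simpa using this
  · intro k _
    constructor
    · rintro ⟨m, hm, rfl⟩
      exact ⟨m - 1, by simp only [Nat.sub_add_cancel hm]⟩
    · rintro ⟨m, rfl⟩
      exact ⟨m + 1, by omega, rfl⟩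
  · intro m n hm hn
    simp only [a]
    have hu : ∀ k : ℕ, 1 ≤ k →
        ((k / 7 ^ (k.factorization 7) : ℕ) : ZMod 49).val % 7 ≠ 0 := by
      intro k hk
      have := Nat.not_dvd_ordCompl h7 (show k ≠ 0 by omega)
      rw [ZMod.val_natCast]
      omega
    rw [Nat.ordCompl_mul, Nat.cast_mul, Q_mul _ _ (hu m hm) (hu n hn), AddChar.map_add_eq_mul]

end Pool.Agent.H54.BadSet
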