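import Mathlib

namespace Pool.Agent.H54.Circ

open Finset Matrix Function

lemma det_eq {α β γ : Type} [Fintype α] [DecidableEq α] [Fintype β] [DecidableEq β] (f : α → γ) (g : β → γ)
    (hf : Injective f) (hg : Injective g) (h : Set.range f = Set.range g) (N : γ → γ → ℤ) :
    det (of fun a a' => N (f a) (f a')) = det (of fun b b' => N (g b) (g b')) := by
  let e : α ≃ β := (Equiv.ofInjective f hf).trans ((Equiv.setCongr h).trans (Equiv.ofInjective g hg).symm)
  have he : ∀ a, g (e a) = f a := fun a => by simp [e, Equiv.apply_ofInjective_symm]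
  rw [← det_submatrix_equiv_self e]
  congr 1; ext a a'; simp [he]

lemma sum_split {β γ : Type} [Fintype β] [Fintype γ] [DecidableEq γ] (a : γ) (g : β → γ) (hg : Injective g)
    (h : ∀ x, x ∈ Set.range g ↔ x ≠ a) (F : γ → ℤ) : ∑ x, F x = F a + ∑ b, F (g b) := by
  rw [← Finset.add_sum_erase univ F (mem_univ a)]
  congr 1; symm
  exact Finset.sum_bij (fun b _ => g b) (fun b _ => by simpa using (h _).1 ⟨b, rfl⟩) (fun x _ y _ e => hg e)
    (fun y hy => by obtain ⟨b, rfl⟩ := (h y).2 (by simpa using hy); exact ⟨b, mem_univ _, rfl⟩) (fun _ _ => rfl)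

lemma blk {ι : Type} [Fintype ι] [DecidableEq ι] (A B : Matrix ι ι ℤ) :
    det (fromBlocks A B B A) = det (A + B) * det (A - B) := by
  have e : fromBlocks (1 : Matrix ι ι ℤ) 1 0 (1 : Matrix ι ι ℤ) * fromBlocks A B B A * fromBlocks 1 (-1) 0 1 =
      fromBlocks (A + B) 0 B (A - B) := by
    simp only [fromBlocks_multiply]; congr 1 <;> simp <;> abel
  have := congrArg det e
  rwa [det_mul, det_mul, det_fromBlocks_zero₂₁, det_fromBlocks_zero₂₁, det_fromBlocks_zero₁₂, det_one, mul_one, mul_one,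
    one_mul] at this

variable {G : Type} [CommGroup G] [Fintype G] [DecidableEq G]

/-- the minor of the group matrix at the identity -/
def c (a : G → ℤ) : ℤ := det (of fun j k : {g : G // g ≠ 1} => a (j.1 / k.1))

def W (r : G) : Matrix {g : G // g ≠ 1} {g : G // g ≠ 1} ℤ :=
  of fun l k => (if l.1 = r * k.1 then 1 else 0) - (if 1 = r * k.1 then 1 else 0)

lemma shift {ι : Type} (N : ι → G → ℤ) (hN : ∀ i, ∑ l, N i l = 0) (r : G) :
    (of fun i (k : {g : G // g ≠ 1}) => N i (r * k.1)) = (of fun i (l : {g : G // g ≠ 1}) => N i l.1) * W r := by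
  ext i k
  have e := sum_split (1 : G) (Subtype.val : {g : G // g ≠ 1} → G) Subtype.val_injective (by simp)
    (fun l => N i l * ((if l = r * k.1 then 1 else 0) - (if 1 = r * k.1 then 1 else 0)))
  simp only [sub_self, mul_zero, zero_add] at e
  simp only [mul_apply, of_apply, W]
  rw [← e]
  simp only [mul_sub, Finset.sum_sub_distrib, ← Finset.sum_mul, hN]
  simp

lemma W_sq (r : G) : det (W r) ^ 2 = 1 := by
  have e := shift (fun (i : {g : G // g ≠ 1}) l => (if i.1 = r⁻¹ * l then (1 : ℤ) else 0) - (if 1 = r⁻¹ * l then 1 else 0))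
    (fun i => by simp [eq_inv_mul_iff_mul_eq]) r
  have e1 : W r⁻¹ * W r = 1 := by
    rw [W, ← e]; ext i k
    simp [one_apply, Subtype.ext_iff, k.2.symm]
  have e2 := congrArg det e1
  rw [det_mul, det_one] at e2
  rcases Int.eq_one_or_neg_one_of_mul_eq_one' e2 with h | h <;> simp [h.2]

lemma c_shift (a : G → ℤ) (r : G) (h : ∑ x, a (r * x) = 0) : c a = c (fun x => a (r * x)) * det (W r) := by
  have e := shift (fun (i : {g : G // g ≠ 1}) l => a (r * (i.1 / l))) (fun i => by
    rw [← h]; exact Fintype.sum_equiv (Equiv.divLeft i.1) _ _ (fun _ => rfl)) r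
  rw [c, c, ← det_mul, ← e]
  congr 1; ext i k; simp only [of_apply]; congr 1
  rw [← mul_div_assoc, mul_div_mul_left_eq_div]

lemma half (h2 : ∀ g : G, g * g = 1 → g = 1) : ∃ (ι : Type) (_ : Fintype ι) (_ : DecidableEq ι) (u : ι → G),
    Injective (Sum.elim u (fun i => (u i)⁻¹)) ∧ ∀ x, x ∈ Set.range (Sum.elim u (fun i => (u i)⁻¹)) ↔ x ≠ 1 := by
  let t := Fintype.equivFin G
  refine ⟨{g : G // t g < t g⁻¹}, inferInstance, inferInstance, Subtype.val, ?_, fun x => ⟨?_, fun hx => ?_⟩⟩
  · rintro (⟨a, ha⟩ | ⟨a, ha⟩) (⟨b, hb⟩ | ⟨b, hb⟩) e <;> simp only [Sum.elim_inl, Sum.elim_inr] at e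
    · simp [e]
    · subst e; simp at ha; omega
    · subst e; simp at hb; omega
    · simp [inv_injective e]
  · rintro ⟨⟨a, ha⟩ | ⟨a, ha⟩, rfl⟩ <;> simp <;> rintro rfl <;> simp at ha
  · rcases lt_trichotomy (t x) (t x⁻¹) with h | h | h
    · exact ⟨.inl ⟨x, h⟩, rfl⟩
    · exact absurd (h2 x (by nth_rw 2 [t.injective h]; simp)) hx
    · exact ⟨.inr ⟨x⁻¹, by simpa using h⟩, by simp⟩

lemma skew (h2 : ∀ g : G, g * g = 1 → g = 1) (a : G → ℤ) (ha : ∀ x, a x⁻¹ = -a x) : ∃ y, c a = y ^ 2 := by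
  obtain ⟨ι, _, _, u, hi, hr⟩ := half h2
  let P : Matrix ι ι ℤ := of fun i j => a (u i / u j)
  let R : Matrix ι ι ℤ := of fun i j => a (u i * u j)
  refine ⟨det (P - R), ?_⟩
  rw [c, det_eq Subtype.val _ Subtype.val_injective hi (by ext x; rw [hr]; simp) (fun x y => a (x / y))]
  have e : (of fun b b' => a (Sum.elim u (fun i => (u i)⁻¹) b / Sum.elim u (fun i => (u i)⁻¹) b')) =
      fromBlocks 1 0 0 (-1) * fromBlocks P R R P := by
    rw [fromBlocks_multiply]
    ext (i | i) (j | j) <;> simp [P, R, ← ha, div_eq_mul_inv, mul_comm]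
  have e2 : (-1 : Matrix ι ι ℤ) * (P + R) = (P - R)ᵀ := by
    ext i j; simp [P, R, ← ha (u i / u j), mul_comm]; ring
  rw [e, det_mul, blk, det_fromBlocks_zero₂₁, det_one, one_mul, ← mul_assoc, ← det_mul, e2, det_transpose, sq]

lemma symm (h2 : ∀ g : G, g * g = 1 → g = 1) [IsCyclic G] (a : G → ℤ) (ha : ∀ x, a x⁻¹ = a x) (h0 : ∑ x, a x = 0) :
    ∃ y, c a = Fintype.card G * y ^ 2 := by
  obtain ⟨ι, _, _, u, hi, hr⟩ := half h2
  obtain ⟨s, hs⟩ := IsCyclic.exists_monoid_generator (α := G)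
  have sp : ∀ F : G → ℤ, ∑ x, F x = F 1 + ∑ l, (F (u l) + F (u l)⁻¹) := fun F => by
    rw [sum_split 1 _ hi hr, Fintype.sum_sum_type, Finset.sum_add_distrib]; rfl
  let P : Matrix ι ι ℤ := of fun i j => a (u i / u j)
  let R : Matrix ι ι ℤ := of fun i j => a (u i * u j)
  let δ : G → ℤ := fun x => (if x = s then 1 else 0) - (if x = s⁻¹ then 1 else 0)
  have dn : ∀ x, δ x⁻¹ = -δ x := fun x => by simp [δ, inv_eq_iff_eq_inv]
  have cv : ∀ (F : G → ℤ) x, ∑ z, δ (x / z) * F z = F (x / s) - F (x * s) := fun F x => by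
    have e1 : ∀ z, (x / z = s) = (z = x / s) := fun z => by
      rw [div_eq_iff_eq_mul, eq_div_iff_mul_eq', mul_comm]; exact propext eq_comm
    have e2 : ∀ z, (x / z = s⁻¹) = (z = x * s) := fun z => by
      rw [div_eq_iff_eq_mul, eq_inv_mul_iff_mul_eq, mul_comm]; exact propext eq_comm
    simp [δ, sub_mul, e1, e2]
  let D : Matrix ι ι ℤ := of fun i j => δ (u i / u j) + δ (u i * u j)
  have cD : ∀ (F : G → ℤ), (∀ x, F x⁻¹ = F x) → F 1 = 0 → ∀ i, ∑ l, D i l * F (u l) = F (u i / s) - F (u i * s) :=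
    fun F h1 h2 i => by
      rw [← cv, sp, h2, mul_zero, zero_add]
      refine Finset.sum_congr rfl (fun l _ => ?_)
      simp [D, h1, add_mul]
  let K : Matrix ι ι ℤ := 1 + replicateCol Unit (fun _ : ι => (1 : ℤ)) * replicateRow Unit (fun _ : ι => (2 : ℤ))
  have hK : det K = Fintype.card G := by
    have := sp (fun _ => 1)
    simp only [K]
    rw [det_one_add_replicateCol_mul_replicateRow]
    simp [dotProduct] at this ⊢
    omega
  have hD : det D ≠ 0 := by
    rw [Ne, ← exists_mulVec_eq_zero_iff]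
    rintro ⟨w, hw, e⟩
    let v : G → ℤ := fun z => Function.extend (Sum.elim u (fun i => (u i)⁻¹)) (Sum.elim w w) 0 z
    have v1 : ∀ l, v (u l) = w l := fun l => hi.extend_apply _ _ (.inl l)
    have v2 : ∀ l, v (u l)⁻¹ = w l := fun l => hi.extend_apply _ _ (.inr l)
    have v0 : v 1 = 0 := Function.extend_apply' _ _ _ (fun h => (hr 1).1 h rfl)
    have cs : ∀ x, x = 1 ∨ ∃ l, x = u l ∨ x = (u l)⁻¹ := fun x => by
      by_cases hx : x = 1
      · exact .inl hx
      · obtain ⟨l | l, rfl⟩ := (hr x).2 hx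
        · exact .inr ⟨l, .inl rfl⟩
        · exact .inr ⟨l, .inr rfl⟩
    have ve : ∀ x, v x⁻¹ = v x := fun x => by
      rcases cs x with rfl | ⟨l, rfl | rfl⟩ <;> simp [v1, v2]
    have k1 : ∀ i, v (u i / s) = v (u i * s) := fun i => by
      have := cD v ve v0 i
      simp only [v1] at this
      have e3 := congrFun e i
      simp only [mulVec, dotProduct, Pi.zero_apply] at e3
      omega
    have k2 : ∀ x, v (x / s) = v (x * s) := fun x => by
      rcases cs x with rfl | ⟨l, rfl | rfl⟩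
      · simp [ve]
      · exact k1 l
      · rw [← ve, ← ve (_ * _)]; simpa [div_eq_mul_inv, mul_comm] using (k1 l).symm
    have k3 : ∀ k : ℕ, v (s ^ k * s ^ k) = 0 := fun k => by
      induction k with
      | zero => simpa using v0
      | succ k ih =>
        rw [← ih]
        have := k2 (s ^ k * s ^ k * s)
        rw [mul_div_cancel_right] at this
        rw [this]; congr 1; simp only [pow_succ]; ac_rfl
    have sj : Surjective (fun g : G => g * g) := Finite.surjective_of_injective (fun x y e => by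
      have := h2 (x / y) (by rw [div_mul_div_comm]; exact div_eq_one.2 e)
      exact div_eq_one.1 this)
    apply hw; funext l
    obtain ⟨g, hg⟩ := sj (u l)
    obtain ⟨k, rfl⟩ := hs g
    rw [← v1, ← hg]; exact k3 k
  have key : D * (K * (P + R)) = (P - R) * D := by
    ext i j
    let ψ : G → ℤ := fun z => a (z / u j) + a (z * u j)
    have p1 : ∀ x, ψ x⁻¹ = ψ x := fun x => by
      simp only [ψ]; rw [← ha (x / _), ← ha (x * _)]; simp [div_eq_mul_inv, mul_comm, add_comm]
    have p0 : ∑ z, ψ z = 0 := by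
      simp only [ψ, Finset.sum_add_distrib]
      rw [Fintype.sum_equiv (Equiv.divRight (u j)) (fun x => a (x / u j)) a (fun _ => rfl),
        Fintype.sum_equiv (Equiv.mulRight (u j)) (fun x => a (x * u j)) a (fun _ => rfl), h0, add_zero]
    rw [sp] at p0
    simp only [p1] at p0
    have p2 : ∀ l, (K * (P + R)) l j = ψ (u l) - ψ 1 := fun l => by
      simp only [K, Matrix.add_mul, Matrix.one_mul]
      simp only [Matrix.add_apply, mul_apply, replicateCol_apply, replicateRow_apply]
      simp [← two_mul, ← Finset.mul_sum] at p0 ⊢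
      have : ∀ l, P l j + R l j = ψ (u l) := fun l => rfl
      simp only [this]; omega
    have p3 := cD (fun z => ψ z - ψ 1) (fun x => by simp only [p1]) (by simp) i
    rw [mul_apply, mul_apply]
    simp only [p2]
    rw [p3]
    have q1 := cv (fun z => a (u i / z)) (u j)
    have q2 := cv (fun z => a (u i / z)) (u j)⁻¹
    have q3 := sp (fun z => (δ (u j / z) + δ ((u j)⁻¹ / z)) * a (u i / z))
    simp only [add_mul, Finset.sum_add_distrib (s := (univ : Finset G)), q1, q2, div_one, dn] at q3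
    have q4 : ∑ l, (P - R) i l * D l j = -∑ l, (δ (u j / u l) * a (u i / u l) + δ ((u j)⁻¹ / u l) * a (u i / u l) +
        (δ (u j / (u l)⁻¹) * a (u i / (u l)⁻¹) + δ ((u j)⁻¹ / (u l)⁻¹) * a (u i / (u l)⁻¹))) := by
      rw [← Finset.sum_neg_distrib]
      refine Finset.sum_congr rfl (fun l _ => ?_)
      have d1 : δ (u j / u l) = -δ (u l / u j) := by rw [← dn]; simp
      have d2 : δ ((u j)⁻¹ / u l) = -δ (u l * u j) := by rw [← dn]; simp [div_eq_mul_inv]
      have d3 : δ (u j / (u l)⁻¹) = δ (u l * u j) := by simp [mul_comm]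
      have d4 : δ ((u j)⁻¹ / (u l)⁻¹) = δ (u l / u j) := by simp [div_eq_mul_inv, mul_comm]
      rw [d1, d2, d3, d4]; simp [P, R, D]; ring
    have a1 : a (u i / (u j / s)) = a (u i * s / u j) := by congr 1; simp [div_eq_mul_inv, mul_assoc]
    have a2 : a (u i / (u j * s)) = a (u i / s / u j) := by congr 1; simp [div_eq_mul_inv, mul_assoc]
    have a3 : a (u i / ((u j)⁻¹ / s)) = a (u i * s * u j) := by congr 1; simp [div_eq_mul_inv, mul_assoc]
    have a4 : a (u i / ((u j)⁻¹ * s)) = a (u i / s * u j) := by congr 1; simp [div_eq_mul_inv, mul_assoc]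
    rw [q4]
    simp only [ψ]
    linarith
  refine ⟨det (P + R), ?_⟩
  rw [c, det_eq Subtype.val _ Subtype.val_injective hi (by ext x; rw [hr]; simp) (fun x y => a (x / y))]
  have e : (of fun b b' => a (Sum.elim u (fun i => (u i)⁻¹) b / Sum.elim u (fun i => (u i)⁻¹) b')) =
      fromBlocks P R R P := by
    ext (i | i) (j | j) <;> simp [P, R]
    · rw [← ha]; simp [div_eq_mul_inv, mul_comm]
    · rw [← ha]; simp [div_eq_mul_inv, mul_comm]
  have e2 := congrArg det key
  rw [det_mul, det_mul, det_mul, mul_comm _ D.det, hK] at e2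
  rw [e, blk, ← mul_left_cancel₀ hD e2]; ring

end Pool.Agent.H54.Circ
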