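import Mathlib

namespace Pool.Agent.H54.ColBin
open PowerSeries Finset

def s : ℕ → ℕ → ℤ
  | 0, _ => 0
  | 1, l => if l = 0 then 1 else 0
  | k + 2, l => 2 * (if l = 0 then 0 else s (k + 1) (l - 1)) - s k l

lemma s_dvd (k l : ℕ) : (2 : ℤ) ^ l ∣ s k l := by
  induction k using Nat.twoStepInduction generalizing l with
  | zero => simp [s]
  | one => unfold s; split_ifs with h <;> simp [h]
  | more k h1 h2 =>
    unfold s
    refine dvd_sub ?_ (h1 l)
    rcases l with _ | l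
    · simp
    · simp only [Nat.succ_ne_zero, if_false, Nat.add_sub_cancel, pow_succ']
      exact mul_dvd_mul_left 2 (h2 l)

lemma s_zero (k l : ℕ) (h : k ≤ l) : s k l = 0 := by
  induction k using Nat.twoStepInduction generalizing l with
  | zero => simp [s]
  | one => unfold s; rw [if_neg (by omega)]
  | more k h1 h2 =>
    unfold s
    rw [h1 l (by omega), if_neg (by omega), h2 (l - 1) (by omega)]; simp

lemma s_odd (k : ℕ) : Odd (s (k + 1) 0 + s k 0) := by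
  induction k with
  | zero => simp [s]
  | succ k ih =>
    have : s (k + 2) 0 = -s k 0 := by simp [s]
    obtain ⟨a, ha⟩ := ih
    exact ⟨a - s k 0, by rw [this]; linarith⟩

noncomputable def e : ℤ⟦X⟧ := mk 1
noncomputable def R : ℤ⟦X⟧ := (1 + X) * e
noncomputable def ex : ℤ⟦X⟧ →ₐ[ℤ] ℤ⟦X⟧ := expand 2 two_ne_zero

lemma e_mul : e * (1 - X) = 1 := mk_one_mul_one_sub_eq_one ℤ
lemma ex_X : ex X = X ^ 2 := expand_X 2 _
lemma e2_mul : ex e * (1 - X ^ 2) = 1 := by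
  have := congrArg ex e_mul
  rwa [map_mul, map_sub, map_one, ex_X] at this
lemma e_eq : e = (1 + X) * ex e := by
  linear_combination (-e) * e2_mul + ((1 + X) * ex e) * e_mul
lemma R_eq : R = (1 + X) ^ 2 * ex e := by rw [R]; conv_lhs => rw [e_eq]
                                          ring
lemma exR : ex R = (1 + X ^ 2) * ex e := by rw [R, map_mul, map_add, map_one, ex_X]
lemma R_sq : R ^ 2 = 2 * ex R * R - 1 := by
  rw [exR, R_eq]
  linear_combination (-((1 + X) ^ 2 * ex e) + (-1 + (1 + X) ^ 2 * ex e) -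
    (1 - X ^ 2) * ex e) * e2_mul

noncomputable def S : ℕ → ℤ⟦X⟧
  | 0 => 0
  | 1 => 1
  | k + 2 => 2 * R * S (k + 1) - S k

lemma S_eq (k N : ℕ) (h : k ≤ N) : S k = ∑ l ∈ range N, s k l • R ^ l := by
  induction k using Nat.twoStepInduction generalizing N with
  | zero => simp [s, S]
  | one =>
    obtain ⟨N, rfl⟩ : ∃ M, N = M + 1 := ⟨N - 1, by omega⟩
    simp [s, S]
  | more k h1 h2 =>
    obtain ⟨N, rfl⟩ : ∃ M, N = M + 1 := ⟨N - 1, by omega⟩
    rw [S, h1 (N + 1) (by omega), h2 N (by omega)]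
    simp only [s, sub_smul, sum_sub_distrib]
    congr 1
    rw [sum_range_succ', mul_sum]
    simp only [Nat.succ_ne_zero, if_false, if_true, Nat.add_sub_cancel, mul_zero, zero_smul,
      add_zero, zsmul_eq_mul]
    refine sum_congr rfl fun l _ => ?_
    push_cast; ring

lemma pow_R (k : ℕ) : R ^ (k + 1) = ex (R * S (k + 1) - S k) + X * ex (2 * e * S (k + 1)) := by
  induction k using Nat.twoStepInduction with
  | zero =>
    simp only [S, zero_add, pow_one, mul_one, sub_zero, map_mul, map_ofNat]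
    rw [exR, R_eq]; ring
  | one =>
    simp only [S, map_mul, map_ofNat, map_sub, map_one, mul_one, sub_zero]
    have h : R = ex R + X * (2 * ex e) := by rw [exR, R_eq]; ring
    linear_combination R_sq + 2 * ex R * h
  | more k h1 h2 =>
    have a : S (k + 2 + 1) = 2 * R * S (k + 1 + 1) - S (k + 1) := rfl
    have b : S (k + 2) = 2 * R * S (k + 1) - S k := rfl
    have c : ex (S (k + 2)) = 2 * ex R * ex (S (k + 1)) - ex (S k) := by
      rw [b]; simp only [map_mul, map_ofNat, map_sub]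
    rw [a]
    simp only [map_mul, map_ofNat, map_sub] at *
    linear_combination R ^ (k + 1) * R_sq + 2 * ex R * h2 - h1 + c

lemma e_pow_R (k : ℕ) :
    e * R ^ k = ex (e * (S (k + 1) - S k)) + X * ex (e * (S (k + 1) + S k)) := by
  induction k using Nat.twoStepInduction with
  | zero =>
    simp only [S, pow_zero, mul_one, sub_zero, add_zero]
    linear_combination e_eq
  | one =>
    simp only [S, map_mul, map_ofNat, map_sub, map_add, map_one, mul_one, sub_zero,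
      pow_one]
    rw [exR, R_eq]
    linear_combination ((1 + X) ^ 2 * ex e) * e_eq + (-(1 - X) * ex e) * e2_mul
  | more k h1 h2 =>
    have a : S (k + 2 + 1) = 2 * R * S (k + 1 + 1) - S (k + 1) := rfl
    have b : S (k + 2) = 2 * R * S (k + 1) - S k := rfl
    have c : ex (S (k + 2)) = 2 * ex R * ex (S (k + 1)) - ex (S k) := by
      rw [b]; simp only [map_mul, map_ofNat, map_sub]
    rw [a]
    simp only [map_mul, map_ofNat, map_sub, map_add] at *
    linear_combination e * R ^ k * R_sq + 2 * ex R * h2 - h1 + (1 - X) * ex e * c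

lemma coeff_even (A B : ℤ⟦X⟧) (n : ℕ) : coeff (2 * n) (ex A + X * ex B) = coeff n A := by
  rw [map_add, ex, coeff_expand_mul]
  rcases n with _ | n
  · simp
  · rw [show 2 * (n + 1) = (2 * n + 1) + 1 by ring, coeff_succ_X_mul,
      coeff_expand_of_not_dvd _ _ _ (by omega), add_zero]

lemma coeff_odd (A B : ℤ⟦X⟧) (n : ℕ) : coeff (2 * n + 1) (ex A + X * ex B) = coeff n B := by
  rw [map_add, ex, coeff_succ_X_mul, coeff_expand_mul, coeff_expand_of_not_dvd _ _ _ (by omega),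
    zero_add]

noncomputable def F (C : ℤ⟦X⟧) (n i : ℕ) : ℤ := coeff n (e * R ^ i * C)
noncomputable def G (C : ℤ⟦X⟧) (n i : ℕ) : ℤ := coeff n (R ^ i * C)

def B (σ : ℤ) (z : ℕ → ℤ) (i : ℕ) : ℤ :=
  ∑ l ∈ range (i + 1024), (s (i + 1024) l + σ * s (i + 1023) l) * z l
def B' (z : ℕ → ℤ) (i : ℕ) : ℤ := ∑ l ∈ range (i + 1024), 2 * s (i + 1023) l * z l
def L (z : ℕ → ℤ) : ℤ := ∑ l ∈ range 1024, (s 1023 l * z (l + 1) - s 1022 l * z l)

noncomputable def up (C : ℤ⟦X⟧) : ℤ⟦X⟧ := R ^ 1023 * ex C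

lemma up_F (C : ℤ⟦X⟧) (i : ℕ) : e * R ^ i * up C =
    ex (e * (S (i + 1024) - S (i + 1023)) * C) + X * ex (e * (S (i + 1024) + S (i + 1023)) * C) := by
  have := e_pow_R (i + 1023)
  rw [map_mul ex _ C, map_mul ex _ C, up]
  linear_combination ex C * this

lemma F_even (C : ℤ⟦X⟧) (n : ℕ) : F (up C) (2 * n) = B (-1) (F C n) := by
  funext i
  rw [F, up_F, coeff_even, S_eq _ (i + 1024) le_rfl, S_eq _ (i + 1024) (by omega),
    ← sum_sub_distrib, mul_sum, sum_mul, map_sum, B]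
  refine sum_congr rfl fun l _ => ?_
  rw [← sub_smul, mul_smul_comm, smul_mul_assoc, map_zsmul, F, smul_eq_mul]; ring

lemma F_odd (C : ℤ⟦X⟧) (n : ℕ) : F (up C) (2 * n + 1) = B 1 (F C n) := by
  funext i
  rw [F, up_F, coeff_odd, S_eq _ (i + 1024) le_rfl, S_eq _ (i + 1024) (by omega),
    ← sum_add_distrib, mul_sum, sum_mul, map_sum, B]
  refine sum_congr rfl fun l _ => ?_
  rw [← add_smul, mul_smul_comm, smul_mul_assoc, map_zsmul, F, smul_eq_mul]; ring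

lemma G_odd (C : ℤ⟦X⟧) (n : ℕ) : G (up C) (2 * n + 1) = B' (F C n) := by
  funext i
  have h : R ^ i * up C = ex ((R * S (i + 1023) - S (i + 1022)) * C)
      + X * ex (2 * e * S (i + 1023) * C) := by
    have := pow_R (i + 1022)
    rw [map_mul ex _ C, map_mul ex _ C, up]
    linear_combination ex C * this
  rw [G, h, coeff_odd, S_eq _ (i + 1024) (by omega), mul_sum, sum_mul, map_sum, B']
  refine sum_congr rfl fun l _ => ?_
  rw [mul_smul_comm, smul_mul_assoc, map_zsmul, F, smul_eq_mul,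
    show 2 * e * R ^ l * C = e * R ^ l * C + e * R ^ l * C by ring, map_add]; ring

lemma c_even (C : ℤ⟦X⟧) (n : ℕ) : coeff (2 * n) (up C) = L (G C n) := by
  have h : up C = ex ((R * S 1023 - S 1022) * C) + X * ex (2 * e * S 1023 * C) := by
    have := pow_R 1022
    rw [map_mul ex _ C, map_mul ex _ C, up]
    linear_combination ex C * this
  rw [h, coeff_even, S_eq _ 1024 (by omega), S_eq 1022 1024 (by omega), mul_sum,
    ← sum_sub_distrib, sum_mul, map_sum, L]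
  refine sum_congr rfl fun l _ => ?_
  rw [sub_mul, map_sub, mul_smul_comm, smul_mul_assoc, smul_mul_assoc, map_zsmul, map_zsmul,
    G, G, pow_succ', smul_eq_mul, smul_eq_mul]

noncomputable def g (j : ℕ) : ℤ⟦X⟧ := mk fun i => if 2 ^ j ∣ i then 1 else 0
noncomputable def P (N : ℕ) : ℤ⟦X⟧ := (mk 1 : ℤ⟦X⟧) ^ 1023 * ∏ j ∈ range N, g j ^ 1023

lemma g_zero : g 0 = e := by ext i; simp [g, e]
lemma g_succ (j : ℕ) : g (j + 1) = ex (g j) := by
  ext i
  rw [ex, coeff_expand, g, g, coeff_mk, coeff_mk]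
  by_cases h : 2 ∣ i
  · obtain ⟨a, rfl⟩ := h
    simp [pow_succ', Nat.mul_dvd_mul_iff_left]
  · rw [if_neg h, if_neg]
    exact fun h' => h ((dvd_pow_self 2 (Nat.succ_ne_zero j)).trans h')

lemma P_succ (N : ℕ) : P (N + 1) = up (P N) := by
  have h : R * ex e = e * e := by rw [R]; linear_combination (-e) * e_eq
  rw [P, P, up, prod_range_succ', map_mul, map_prod, map_pow, g_zero]
  simp only [g_succ, map_pow]
  change e ^ 1023 * _ = R ^ 1023 * (ex e ^ 1023 * _)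
  rw [← mul_assoc (R ^ 1023), ← mul_pow, h, mul_pow]; ring

lemma F_zero (N i : ℕ) : F (P N) 0 i = 1 := by
  have h1 : constantCoeff e = 1 := by simp [e]
  have h2 : ∀ j, constantCoeff (g j) = 1 := by intro j; simp [g]
  have h3 : constantCoeff (mk 1 : ℤ⟦X⟧) = 1 := h1
  simp [F, P, R, h1, h2, h3, map_prod]

def z : ℕ → ℕ → ℤ
  | 0 => fun _ => 1
  | j + 1 => B (-1) (B 1 (B 1 (z j)))

def a : ℕ → ℕ
  | 0 => 0
  | j + 1 => 2 * (2 * (2 * a j + 1) + 1)

lemma F_a (N j : ℕ) : F (P (N + 3 * j)) (a j) = z j := by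
  induction j with
  | zero => funext i; exact F_zero _ _
  | succ j ih =>
    rw [show N + 3 * (j + 1) = N + 3 * j + 1 + 1 + 1 by ring, P_succ, P_succ, P_succ, a, F_even,
      F_odd, F_odd, ih, z]

def LL (z : ℕ → ℤ) : ℤ := L (B' (B (-1) (B (-1) (B (-1) (B 1 z)))))

lemma a_ge (j : ℕ) : j ≤ a j := by
  induction j with
  | zero => simp
  | succ j ih => rw [a]; omega

lemma c_eq (j : ℕ) : coeff (64 * a j + 34) (P (64 * a j + 34 + 1)) = LL (z j) := by
  have := a_ge j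
  obtain ⟨N, hN⟩ : ∃ N, 64 * a j + 34 + 1 = N + 3 * j + 1 + 1 + 1 + 1 + 1 + 1 :=
    ⟨64 * a j + 29 - 3 * j, by omega⟩
  rw [hN, show 64 * a j + 34 = 2 * (2 * (2 * (2 * (2 * (2 * a j + 1)))) + 1) by ring,
    P_succ, c_even, P_succ, G_odd, P_succ, F_even, P_succ, F_even, P_succ, F_even, P_succ, F_odd,
    F_a, LL]

/-! ### the 2-adic eigenvector -/

def Rel (r : ℕ) (t : ℤ) (x y : ℕ → ℤ) : Prop := ∀ l, (2 : ℤ) ^ r ∣ y l - t * x l

lemma Rel.B {r t x y} (h : Rel r t x y) (σ : ℤ) : Rel r t (B σ x) (B σ y) := by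
  intro i
  rw [ColBin.B, ColBin.B, mul_sum, ← sum_sub_distrib]
  refine dvd_sum fun l _ => ?_
  have := (h l).mul_left (s (i + 1024) l + σ * s (i + 1023) l)
  convert this using 1; ring

lemma Rel.B' {r t x y} (h : Rel r t x y) : Rel r t (B' x) (B' y) := by
  intro i
  rw [ColBin.B', ColBin.B', mul_sum, ← sum_sub_distrib]
  refine dvd_sum fun l _ => ?_
  have := (h l).mul_left (2 * s (i + 1023) l)
  convert this using 1; ring

lemma Rel.LL {r t x y} (h : Rel r t x y) : (2 : ℤ) ^ r ∣ LL y - t * LL x := by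
  have h1 := ((((h.B 1).B (-1)).B (-1)).B (-1)).B'
  rw [ColBin.LL, ColBin.LL, L, L, mul_sum, ← sum_sub_distrib]
  refine dvd_sum fun l _ => ?_
  have := dvd_sub ((h1 (l + 1)).mul_left (s 1023 l)) ((h1 l).mul_left (s 1022 l))
  convert this using 1; ring

lemma B_even (σ : ℤ) (d : ℕ → ℤ) (h : 2 ∣ d 0) (i : ℕ) : 2 ∣ B σ d i := by
  refine dvd_sum fun l _ => ?_
  rcases l with _ | l
  · exact h.mul_left _
  · have h2 : (2 : ℤ) ∣ 2 ^ (l + 1) := dvd_pow_self 2 (Nat.succ_ne_zero l)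
    exact (dvd_add (h2.trans (s_dvd _ _)) ((h2.trans (s_dvd _ _)).mul_left _)).mul_right _

lemma B_odd (σ : ℤ) (hσ : Odd σ) (d : ℕ → ℤ) (h : Odd (d 0)) : Odd (B σ d 0) := by
  rw [B, show 0 + 1024 = 1023 + 1 by rfl, sum_range_succ']
  refine Even.add_odd (even_iff_two_dvd.2 (dvd_sum fun l _ => ?_)) (Odd.mul ?_ h)
  · have h2 : (2 : ℤ) ∣ 2 ^ (l + 1) := dvd_pow_self 2 (Nat.succ_ne_zero l)
    exact (dvd_add (h2.trans (s_dvd _ _)) ((h2.trans (s_dvd _ _)).mul_left _)).mul_right _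
  · obtain ⟨b, hb⟩ := s_odd 1023
    obtain ⟨c, rfl⟩ := hσ
    exact ⟨b + c * s 1023 0, by rw [zero_add]; linear_combination hb⟩

lemma Rel.gain {r t x y} (h : Rel r t x y) (hx : Odd (x 0)) (σ : ℤ) :
    ∃ t', Rel (r + 1) t' (ColBin.B σ x) (ColBin.B σ y) := by
  choose d hd using h
  refine ⟨t + 2 ^ r * d 0, fun i => ?_⟩
  obtain ⟨c, hc⟩ := hx
  obtain ⟨w, hw⟩ := B_even σ (fun l => d l - d 0 * x l) ⟨-(d 0 * c), by rw [hc]; ring⟩ i
  refine ⟨w, ?_⟩
  rw [pow_succ, mul_assoc, ← hw, ColBin.B, ColBin.B, ColBin.B, mul_sum, mul_sum,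
    ← sum_sub_distrib]
  refine sum_congr rfl fun l _ => ?_
  linear_combination (s (i + 1024) l + σ * s (i + 1023) l) * hd l

lemma z_odd (j : ℕ) : Odd (z j 0) := by
  induction j with
  | zero => simp [z]
  | succ j ih => exact B_odd _ (by decide) _ (B_odd _ (by decide) _ (B_odd _ (by decide) _ ih))

lemma z_rel (j : ℕ) : ∃ t, Rel (3 * j) t (z j) (z (j + 1)) := by
  induction j with
  | zero => exact ⟨0, fun l => by simp⟩
  | succ j ih =>
    obtain ⟨t, h⟩ := ih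
    have o := z_odd j
    obtain ⟨t1, h1⟩ := h.gain o 1
    obtain ⟨t2, h2⟩ := h1.gain (B_odd _ (by decide) _ o) 1
    obtain ⟨t3, h3⟩ := h2.gain (B_odd _ (by decide) _ (B_odd _ (by decide) _ o)) (-1)
    exact ⟨t3, h3⟩

lemma z_rel' (j : ℕ) : ∃ t, ∀ i, (2 : ℤ) ^ (3 * j) ∣ LL (z (j + i + 1)) - t * LL (z (j + i)) := by
  obtain ⟨t, h⟩ := z_rel j
  refine ⟨t, fun i => Rel.LL ?_⟩
  induction i with
  | zero => exact h
  | succ i ih => exact ((ih.B 1).B 1).B (-1)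

/-! ### numerics modulo `2^24` -/

def vec (f : ℕ → ℤ) : List ℤ := (List.range 25).map fun l => f l % 16777216
def get (v : List ℤ) (l : ℕ) : ℤ := v.getD l 0

lemma get_vec (f : ℕ → ℤ) (l : ℕ) (h : l < 25) : get (vec f) l ≡ f l [ZMOD 16777216] := by
  have : get (vec f) l = f l % 16777216 := by simp [get, vec, h]
  rw [this]; exact Int.mod_modEq _ _

def rowN (k : ℕ) : List ℤ × List ℤ :=
  Nat.rec (vec fun _ => 0, vec fun l => if l = 0 then 1 else 0)
    (fun _ p => (p.2, vec fun l => 2 * (if l = 0 then 0 else get p.2 (l - 1)) - get p.1 l)) k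

lemma rowN_spec (k : ℕ) : ∀ l < 25, get (rowN k).1 l ≡ s k l [ZMOD 16777216] ∧
    get (rowN k).2 l ≡ s (k + 1) l [ZMOD 16777216] := by
  induction k with
  | zero => intro l hl; exact ⟨get_vec (fun _ => 0) l hl, get_vec (fun l => if l = 0 then 1 else 0) l hl⟩
  | succ k ih =>
    intro l hl
    refine ⟨(ih l hl).2, (get_vec (fun l => 2 * (if l = 0 then 0 else get (rowN k).2 (l - 1))
      - get (rowN k).1 l) l hl).trans ?_⟩
    rw [s]
    refine Int.ModEq.sub (Int.ModEq.mul_left _ ?_) (ih l hl).1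
    split_ifs
    · rfl
    · exact (ih (l - 1) (by omega)).2

def tab : List (List ℤ) := [
  [0, 1022, 0, 6639616, 0, 14888960, 0, 10944512, 0, 14712832, 0, 11010048, 0, 4718592, 0, 0, 0, 4194304, 0, 0, 0, 0, 0, 0, 0],
  [16777215, 0, 523264, 0, 174080, 0, 6430720, 0, 8208384, 0, 1703936, 0, 9175040, 0, 13631488, 0, 10485760, 0, 0, 0, 0, 0, 0, 0, 0],
  [0, 16776192, 0, 11184128, 0, 2236416, 0, 1916928, 0, 1703936, 0, 9175040, 0, 13631488, 0, 10485760, 0, 0, 0, 0, 0, 0, 0, 0, 0],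
  [1, 0, 16251904, 0, 5416960, 0, 14819328, 0, 12402688, 0, 1703936, 0, 9175040, 0, 13631488, 0, 10485760, 0, 0, 0, 0, 0, 0, 0, 0],
  [0, 1026, 0, 4542464, 0, 8597504, 0, 10944512, 0, 6324224, 0, 11010048, 0, 4718592, 0, 0, 0, 4194304, 0, 0, 0, 0, 0, 0, 0],
  [16777215, 0, 527364, 0, 3667968, 0, 2375680, 0, 9486336, 0, 10944512, 0, 12845056, 0, 12582912, 0, 6291456, 0, 8388608, 0, 0, 0, 0, 0, 0],
  [0, 16776188, 0, 13289480, 0, 15515648, 0, 10584064, 0, 12648448, 0, 10878976, 0, 4194304, 0, 8388608, 0, 8388608, 0, 0, 0, 0, 0, 0, 0],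
  [1, 0, 16247796, 0, 6133776, 0, 11878400, 0, 11681792, 0, 14352384, 0, 8912896, 0, 12582912, 0, 10485760, 0, 8388608, 0, 0, 0, 0, 0, 0],
  [0, 1030, 0, 2428896, 0, 13529120, 0, 13172736, 0, 10715136, 0, 1048576, 0, 13631488, 0, 0, 0, 12582912, 0, 0, 0, 0, 0, 0, 0],
  [16777215, 0, 531480, 0, 15501232, 0, 15179840, 0, 14663680, 0, 7077888, 0, 9961472, 0, 14680064, 0, 6291456, 0, 0, 0, 0, 0, 0, 0, 0],
  [0, 16776184, 0, 15411280, 0, 696128, 0, 409728, 0, 1835008, 0, 13107200, 0, 6291456, 0, 12582912, 0, 0, 0, 0, 0, 0, 0, 0, 0],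
  [1, 0, 16243672, 0, 15321328, 0, 2989632, 0, 2932992, 0, 13369344, 0, 16252928, 0, 14680064, 0, 2097152, 0, 0, 0, 0, 0, 0, 0, 0],
  [0, 1034, 0, 298848, 0, 13169312, 0, 5569536, 0, 4030976, 0, 13631488, 0, 9437184, 0, 0, 0, 4194304, 0, 0, 0, 0, 0, 0, 0],
  [16777215, 0, 535612, 0, 2053584, 0, 6571776, 0, 8206080, 0, 11469824, 0, 11010048, 0, 4194304, 0, 14680064, 0, 8388608, 0, 0, 0, 0, 0, 0],
  [0, 16776180, 0, 772376, 0, 7715072, 0, 7574016, 0, 12381184, 0, 9308160, 0, 12582912, 0, 8388608, 0, 8388608, 0, 0, 0, 0, 0, 0, 0],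
  [1, 0, 16239532, 0, 16268384, 0, 8858368, 0, 6941952, 0, 13292544, 0, 7606272, 0, 4194304, 0, 2097152, 0, 8388608, 0, 0, 0, 0, 0, 0],
  [0, 1038, 0, 14929472, 0, 8044480, 0, 10142720, 0, 1502720, 0, 499712, 0, 2629632, 0, 0, 0, 12582912, 0, 0, 0, 0, 0, 0, 0],
  [16777215, 0, 539760, 0, 13590560, 0, 7230592, 0, 13343488, 0, 6490112, 0, 10170368, 0, 1064960, 0, 14680064, 0, 0, 0, 0, 0, 0, 0, 0],
  [0, 16776176, 0, 2927264, 0, 2359424, 0, 4318464, 0, 8407040, 0, 12480512, 0, 933888, 0, 2129920, 0, 0, 0, 0, 0, 0, 0, 0, 0],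
  [1, 0, 16235376, 0, 9041184, 0, 14265472, 0, 12070656, 0, 10323968, 0, 14790656, 0, 802816, 0, 6356992, 0, 0, 0, 0, 0, 0, 0, 0],
  [0, 1042, 0, 12766272, 0, 15722944, 0, 7435264, 0, 15734272, 0, 8167424, 0, 11870208, 0, 16252928, 0, 12713984, 0, 0, 0, 0, 0, 0, 0],
  [16777215, 0, 543924, 0, 16491360, 0, 403200, 0, 2799872, 0, 4367360, 0, 1544192, 0, 6160384, 0, 9371648, 0, 8650752, 0, 0, 0, 0, 0, 0],
  [0, 16776172, 0, 5098792, 0, 482560, 0, 10148352, 0, 6642688, 0, 567296, 0, 7995392, 0, 12845056, 0, 6029312, 0, 524288, 0, 0, 0, 0, 0],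
  [1, 0, 16231204, 0, 10483440, 0, 561920, 0, 719616, 0, 8918016, 0, 16367616, 0, 9830400, 0, 16318464, 0, 3407872, 0, 1048576, 0, 0, 0, 0],
  [0, 1046, 0, 10586400, 0, 3707104, 0, 7752704, 0, 11573760, 0, 491520, 0, 7962624, 0, 6815744, 0, 9830400, 0, 6291456, 0, 2097152, 0, 0, 0],
  [16777215, 0, 548104, 0, 10689360, 0, 6852288, 0, 14785792, 0, 14229504, 0, 1392640, 0, 6094848, 0, 14090240, 0, 16252928, 0, 11534336, 0, 4194304, 0, 0],
  [0, 16776168, 0, 7287024, 0, 894400, 0, 5951872, 0, 1220608, 0, 11190272, 0, 11599872, 0, 5373952, 0, 1572864, 0, 9437184, 0, 4194304, 0, 8388608, 0],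
  [1, 0, 16227016, 0, 3884688, 0, 11713728, 0, 13895168, 0, 4988928, 0, 4210688, 0, 327680, 0, 13434880, 0, 3670016, 0, 7340032, 0, 4194304, 0, 0]]

def T (i l : ℕ) : ℤ := get (tab.getD i []) l

lemma tab_eq : ∀ i < 28, tab.getD i [] = (rowN (i + 1022)).1 := by decide +kernel

lemma T_spec (i l : ℕ) (hi : i < 28) (hl : l < 25) : T i l ≡ s (i + 1022) l [ZMOD 16777216] := by
  rw [T, tab_eq i hi]; exact (rowN_spec _ l hl).1

def App (v : List ℤ) (x : ℕ → ℤ) : Prop := ∀ l < 25, get v l ≡ x l [ZMOD 16777216]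

lemma trunc (f f' : ℕ → ℤ) (N : ℕ) (hN : 24 ≤ N) (h : ∀ l, (2 : ℤ) ^ l ∣ f l)
    (h' : ∀ l < 24, f' l ≡ f l [ZMOD 16777216]) :
    ∑ l ∈ range 24, f' l ≡ ∑ l ∈ range N, f l [ZMOD 16777216] := by
  obtain ⟨M, rfl⟩ := Nat.exists_eq_add_of_le hN
  rw [sum_range_add]
  have h1 : ∑ l ∈ range 24, f' l ≡ ∑ l ∈ range 24, f l [ZMOD 16777216] :=
    Int.ModEq.sum fun l hl => h' l (mem_range.1 hl)
  have h2 : (16777216 : ℤ) ∣ ∑ l ∈ range M, f (24 + l) :=
    dvd_sum fun l _ => (show (16777216 : ℤ) ∣ 2 ^ (24 + l) from ⟨2 ^ l, by ring⟩).trans (h _)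
  simpa using h1.add (Int.modEq_zero_iff_dvd.2 h2).symm

def Bs (σ : ℤ) (v : List ℤ) : List ℤ :=
  vec fun i => ∑ l ∈ range 24, (T (i + 2) l + σ * T (i + 1) l) * get v l
def Bs' (v : List ℤ) : List ℤ := vec fun i => ∑ l ∈ range 24, 2 * T (i + 1) l * get v l
def Ls (v : List ℤ) : ℤ := ∑ l ∈ range 24, (T 1 l * get v (l + 1) - T 0 l * get v l)

lemma App.B {v x} (h : App v x) (σ : ℤ) : App (Bs σ v) (B σ x) := fun i hi =>
  (get_vec _ i hi).trans (trunc _ _ _ (by omega)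
    (fun l => (dvd_add (s_dvd _ _) ((s_dvd _ _).mul_left _)).mul_right _)
    (fun l hl => ((T_spec (i + 2) l (by omega) (by omega)).add
      ((T_spec (i + 1) l (by omega) (by omega)).mul_left _)).mul (h l (by omega))))

lemma App.B' {v x} (h : App v x) : App (Bs' v) (B' x) := fun i hi =>
  (get_vec _ i hi).trans (trunc _ _ _ (by omega)
    (fun l => ((s_dvd _ _).mul_left _).mul_right _)
    (fun l hl => ((T_spec (i + 1) l (by omega) (by omega)).mul_left _).mul (h l (by omega))))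

lemma App.L {v x} (h : App v x) : Ls v ≡ L x [ZMOD 16777216] :=
  trunc _ _ _ (by omega)
    (fun l => dvd_sub ((s_dvd _ _).mul_right _) ((s_dvd _ _).mul_right _))
    (fun l hl => ((T_spec 1 l (by omega) (by omega)).mul (h (l + 1) (by omega))).sub
      ((T_spec 0 l (by omega) (by omega)).mul (h l (by omega))))

def zs (j : ℕ) : List ℤ := Nat.rec (vec fun _ => 1) (fun _ v => Bs (-1) (Bs 1 (Bs 1 v))) j

lemma zs_app (j : ℕ) : App (zs j) (z j) := by
  induction j with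
  | zero => exact fun l hl => get_vec _ l hl
  | succ j ih => exact ((ih.B 1).B 1).B (-1)

def LLs (v : List ℤ) : ℤ := Ls (Bs' (Bs (-1) (Bs (-1) (Bs (-1) (Bs 1 v)))))

lemma LL_app (j : ℕ) : LLs (zs j) ≡ LL (z j) [ZMOD 16777216] :=
  (((((zs_app j).B 1).B (-1)).B (-1)).B (-1)).B'.L

lemma num8 : LLs (zs 8) % 16777216 = 2048 := by decide +kernel
lemma num9 : LLs (zs 9) % 16777216 = 8390656 := by decide +kernel

lemma pow_lift (t : ℤ) (h : (2 : ℤ) ^ 13 ∣ t - (1 + 2 ^ 12)) (r : ℕ) :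
    ∃ b, t ^ 2 ^ r = 1 + 2 ^ (12 + r) * (1 + 2 * b) := by
  induction r with
  | zero => obtain ⟨b, hb⟩ := h; exact ⟨b, by rw [pow_zero, pow_one]; linear_combination hb⟩
  | succ r ih =>
    obtain ⟨b, hb⟩ := ih
    exact ⟨b + 2 ^ (10 + r) * (1 + 2 * b) ^ 2, by rw [pow_succ, pow_mul, hb]; ring⟩

lemma hensel (t q : ℤ) (h : (2 : ℤ) ^ 13 ∣ t - (1 + 2 ^ 12)) (hq : (2 : ℤ) ^ 12 ∣ q - 1) (r : ℕ) :
    ∃ i : ℕ, (2 : ℤ) ^ (12 + r) ∣ t ^ i * q - 1 := by
  induction r with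
  | zero =>  exact ⟨0, by simpa using hq⟩
  | succ r ih =>
    obtain ⟨i, c, hc⟩ := ih
    obtain ⟨b, hb⟩ := pow_lift t h r
    rcases Int.even_or_odd' c with ⟨d, rfl | rfl⟩
    · exact ⟨i, d, by rw [hc]; ring⟩
    · refine ⟨2 ^ r + i, 1 + b + d + 2 ^ (11 + r) * (1 + 2 * b) * (2 * d + 1), ?_⟩
      rw [pow_add, mul_assoc, hb, eq_add_of_sub_eq hc]; ring

lemma low (i : ℕ) : (∃ w, LL (z (8 + i)) = 2048 + 16777216 * w ∧
      ∃ w', LL (z (8 + i + 1)) = 8390656 + 16777216 * w') ∨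
    (∃ w, LL (z (8 + i)) = 8390656 + 16777216 * w ∧
      ∃ w', LL (z (8 + i + 1)) = 2048 + 16777216 * w') := by
  have h8 : LL (z 8) % 16777216 = 2048 := by rw [← num8]; exact (LL_app 8).symm
  have h9 : LL (z 9) % 16777216 = 8390656 := by rw [← num9]; exact (LL_app 9).symm
  obtain ⟨t, ht⟩ := z_rel' 8
  obtain ⟨w8, e8⟩ : ∃ w, LL (z 8) = 2048 + 16777216 * w := ⟨LL (z 8) / 16777216, by omega⟩
  obtain ⟨w9, e9⟩ : ∃ w, LL (z 9) = 8390656 + 16777216 * w := ⟨LL (z 9) / 16777216, by omega⟩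
  obtain ⟨b, rfl⟩ : ∃ b, t = 4097 + 8192 * b := by
    obtain ⟨c, hc⟩ := ht 0
    rw [add_zero, e8, e9] at hc
    refine ⟨w9 - t * w8 - c, ?_⟩
    norm_num at hc
    nlinarith
  induction i with
  | zero => exact Or.inl ⟨w8, e8, w9, e9⟩
  | succ i ih =>
    obtain ⟨c, hc⟩ := ht (i + 1)
    rw [← add_assoc] at hc ⊢
    rcases ih with ⟨-, -, w, hw⟩ | ⟨-, -, w, hw⟩
    · refine Or.inr ⟨w, hw, c + (4097 + 8192 * b) * w + 4097 * b + 2049, ?_⟩
      rw [hw] at hc; linear_combination hc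
    · refine Or.inl ⟨w, hw, c + (4097 + 8192 * b) * w + b, ?_⟩
      rw [hw] at hc; linear_combination hc

lemma main (r : ℕ) : ∃ j : ℕ, ∃ w, LL (z j) = 2 ^ 11 * (1 + 2 ^ (12 + r) * w) := by
  obtain ⟨t, ht⟩ := z_rel' (8 + r)
  have hq : ∃ q q' : ℤ, LL (z (8 + r)) = 2048 * q ∧ LL (z (8 + r + 1)) = 2048 * q' ∧
      (2 : ℤ) ^ 12 ∣ q - 1 ∧ (2 : ℤ) ^ 13 ∣ q' - (1 + 2 ^ 12) * q := by
    rcases low r with ⟨w, hw, w', hw'⟩ | ⟨w, hw, w', hw'⟩
    · exact ⟨1 + 8192 * w, 4097 + 8192 * w', by rw [hw]; ring, by rw [hw']; ring,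
        ⟨2 * w, by ring⟩, ⟨w' - 4097 * w, by ring⟩⟩
    · exact ⟨4097 + 8192 * w, 1 + 8192 * w', by rw [hw]; ring, by rw [hw']; ring,
        ⟨1 + 2 * w, by ring⟩, ⟨w' - 4097 * w - 2049, by ring⟩⟩
  obtain ⟨q, q', e1, e2, h1, h2⟩ := hq
  have hd : (2 : ℤ) ^ (24 + r) ∣ 2 ^ (3 * (8 + r)) := pow_dvd_pow _ (by omega)
  have h3 : (2 : ℤ) ^ 13 ∣ t - (1 + 2 ^ 12) := by
    obtain ⟨c, hc⟩ := hd.trans (ht 0)
    rw [add_zero, e1, e2] at hc
    have h4 : (2 : ℤ) ^ 13 ∣ q' - t * q :=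
      ⟨2 ^ r * c, by apply mul_left_cancel₀ (show (2048 : ℤ) ≠ 0 by norm_num); linear_combination hc⟩
    have h5 : (2 : ℤ) ^ 13 ∣ (t - (1 + 2 ^ 12)) * q := by
      have := dvd_sub h2 h4
      rwa [show q' - (1 + 2 ^ 12) * q - (q' - t * q) = (t - (1 + 2 ^ 12)) * q by ring] at this
    refine IsCoprime.dvd_of_dvd_mul_right (IsCoprime.pow_left ?_) h5
    obtain ⟨c, hc⟩ := h1
    exact ⟨-(2 ^ 11 * c), 1, by linear_combination hc⟩
  have ind : ∀ i, (2 : ℤ) ^ (24 + r) ∣ LL (z (8 + r + i)) - t ^ i * (2048 * q) := by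
    intro i
    induction i with
    | zero => simp [e1]
    | succ i ih =>
      have := dvd_add (hd.trans (ht i)) (ih.mul_left t)
      rw [← add_assoc, show LL (z (8 + r + i + 1)) - t ^ (i + 1) * (2048 * q) =
        LL (z (8 + r + i + 1)) - t * LL (z (8 + r + i)) +
          t * (LL (z (8 + r + i)) - t ^ i * (2048 * q)) by ring]
      exact this
  obtain ⟨i, c, hc⟩ := hensel t q h3 h1 r
  obtain ⟨d, hd'⟩ := ind i
  exact ⟨8 + r + i, c + 2 * d, by linear_combination hd' + 2048 * hc⟩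

end Pool.Agent.H54.ColBin
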