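import Mathlib
import Pool.Agent.H54.Zam2

open Finset Polynomial

namespace Pool.Agent.H54.Dpf

/-- A 3-party distributed point function with domain `Fin N`, output group `G` and keys of
`L` bits, with perfect correctness and perfect security against any single party. -/
def IsDPF {G : Type} [AddCommGroup G] {N L : ℕ} (Gen : Fin N → G → PMF (Fin 3 → Fin L → Bool))
    (Eval : Fin 3 → (Fin L → Bool) → Fin N → G) : Prop :=
  (∀ α β k, k ∈ (Gen α β).support → ∀ x, ∑ i, Eval i (k i) x = if x = α then β else 0) ∧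
  (∀ (i : Fin 3) α β α' β',
    (Gen α β).map (fun k => k i) = (Gen α' β').map (fun k => k i))

theorem map_unif {K : Type} [Fintype K] [Nonempty K] (f : K → K) (hf : Function.Injective f) :
    (PMF.uniformOfFintype K).map f = PMF.uniformOfFintype K := by
  classical
  have hb : Function.Bijective f := Finite.injective_iff_bijective.1 hf
  ext k
  obtain ⟨a, rfl⟩ := hb.2 k
  rw [PMF.map_apply, tsum_eq_single a]
  · simp
  · intro b hb'
    rw [if_neg]
    exact fun h => hb' (hf h).symm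

theorem of_keys {G K : Type} [AddCommGroup G] [Fintype K] [Nonempty K] {N L : ℕ}
    (κ : Fin N → G → Fin 3 → K → K) (ev : Fin 3 → K → Fin N → G)
    (hinj : ∀ α β i, Function.Injective (κ α β i))
    (hev : ∀ α β ρ x, ∑ i, ev i (κ α β i ρ) x = if x = α then β else 0)
    (hL : Fintype.card K ≤ 2 ^ L) :
    ∃ (Gen : Fin N → G → PMF (Fin 3 → Fin L → Bool))
      (Eval : Fin 3 → (Fin L → Bool) → Fin N → G), IsDPF Gen Eval := by
  obtain ⟨enc⟩ : Nonempty (K ↪ (Fin L → Bool)) := by
    apply Function.Embedding.nonempty_of_card_le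
    simpa using hL
  refine ⟨fun α β => (PMF.uniformOfFintype K).map (fun ρ i => enc (κ α β i ρ)),
    fun i k x => ev i (Function.invFun enc k) x, ?_, ?_⟩
  · intro α β k hk x
    rw [PMF.support_map] at hk
    obtain ⟨ρ, -, rfl⟩ := hk
    simp only [Function.leftInverse_invFun enc.injective _]
    exact hev α β ρ x
  · have : ∀ (i : Fin 3) α β, ((PMF.uniformOfFintype K).map
        (fun ρ i => enc (κ α β i ρ))).map (fun k => k i) = (PMF.uniformOfFintype K).map enc := by
      intro i α β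
      conv_rhs => rw [← map_unif _ (hinj α β i)]
      rw [PMF.map_comp, PMF.map_comp]
      rfl
    intro i α β α' β'
    rw [this, this]

theorem X_pow_dvd (n K : ℕ) :
    (X : (ZMod n)[X]) ^ (K + 1) ∣ (1 + X) ^ (n ^ K) - 1 := by
  induction K with
  | zero => simp
  | succ K ih =>
    have h := sq_dvd_add_pow_sub_sub ((1 + X : (ZMod n)[X]) ^ (n ^ K) - 1) 1 n
    have hn : (n : (ZMod n)[X]) = 0 := by
      rw [← Polynomial.C_eq_natCast, ZMod.natCast_self, map_zero]
    rw [hn, mul_zero, sub_zero, one_pow, add_sub_cancel, ← pow_mul, ← pow_succ] at h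
    refine Dvd.dvd.trans ?_ h
    refine Dvd.dvd.trans ?_ (pow_dvd_pow_of_dvd ih 2)
    rw [← pow_mul]
    exact pow_dvd_pow _ (by omega)

theorem root_expand (n Q : ℕ) (hn : 1 ≤ n) (hQ : 1 ≤ Q) (hc : Nat.Coprime Q n) :
    ∃ w : ℕ → ZMod n, (∀ j, Q ≤ j → w j = 0) ∧
      ∀ {I : Type} [DecidableEq I] (D : Finset I),
        (D.card = 0 → ∑ S ∈ D.powerset, w S.card = 1) ∧
        (∀ i, 1 ≤ i → i < Q → D.card = Q * i → ∑ S ∈ D.powerset, w S.card = 0) := by
  classical
  have hN : NeZero (n ^ Q) := ⟨by positivity⟩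
  obtain ⟨e, m, hem⟩ : ∃ e m : ℕ, e * Q + 1 = n ^ Q * m := by
    have hu := (ZMod.isUnit_iff_coprime Q (n ^ Q)).2 (hc.pow_right Q)
    obtain ⟨u, hu⟩ := hu.exists_left_inv
    have : n ^ Q ∣ (-u).val * Q + 1 := by
      rw [← ZMod.natCast_eq_zero_iff]
      push_cast
      rw [ZMod.natCast_zmod_val, neg_mul, hu, neg_add_cancel]
    exact ⟨_, this⟩
  let x : (ZMod n)[X] := 1 + X
  have hz : ∀ y : (ZMod n)[X], X ^ Q ∣ y → y.coeff (Q - 1) = 0 := fun y hy =>
    Polynomial.X_pow_dvd_iff.1 hy _ (by omega)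
  refine ⟨fun j => (x ^ (Q - 1) * (x ^ e - 1) ^ j).coeff (Q - 1), ?_, ?_⟩
  · intro j hj
    apply hz
    apply Dvd.dvd.mul_left
    have h1 : X ∣ x ^ e - 1 := by
      have := sub_dvd_pow_sub_pow x 1 e
      simpa [x] using this
    exact (pow_dvd_pow _ hj).trans (pow_dvd_pow_of_dvd h1 j)
  · intro I _ D
    have h1 : ∑ S ∈ D.powerset, (x ^ e - 1) ^ S.card = (x ^ e) ^ D.card := by
      have := Finset.sum_pow_mul_eq_add_pow (x ^ e - 1) 1 D
      simpa using this
    have h2 : ∑ S ∈ D.powerset, (x ^ (Q - 1) * (x ^ e - 1) ^ S.card).coeff (Q - 1) =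
        (x ^ (Q - 1) * (x ^ e) ^ D.card).coeff (Q - 1) := by
      rw [← h1, Finset.mul_sum, Polynomial.finsetSum_coeff]
    simp only [h2]
    constructor
    · intro h
      rw [h, pow_zero, mul_one, Polynomial.coeff_one_add_X_pow]
      simp
    · intro i hi hiQ h
      have h3 : x ^ (Q - 1) * (x ^ e) ^ D.card = x ^ (Q - 1 - i) +
          x ^ (Q - 1 - i) * ((x ^ (n ^ Q)) ^ (m * i) - 1 ^ (m * i)) := by
        rw [one_pow, mul_sub, mul_one, add_sub_cancel, h, ← pow_mul, ← pow_mul, ← pow_add,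
          ← pow_add]
        congr 1
        rw [← mul_assoc, ← mul_assoc, ← hem]
        have : Q - 1 = Q - 1 - i + i := by omega
        nlinarith
      rw [h3, Polynomial.coeff_add, Polynomial.coeff_one_add_X_pow,
        Nat.choose_eq_zero_of_lt (by omega), hz]
      · simp
      · apply Dvd.dvd.mul_left
        exact ((pow_dvd_pow _ (Nat.le_succ Q)).trans (X_pow_dvd n Q)).trans
          (sub_dvd_pow_sub_pow _ _ _)

theorem vec_of_w {R : Type} [CommRing R] (Q : ℕ) (w : ℕ → R) (hw0 : ∀ j, Q ≤ j → w j = 0)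
    {I J : Type} [Fintype I] [DecidableEq I] (A B : J → Finset I) :
    ∃ u v : J → {S : Finset I // S.card < Q} → R,
      ∀ i j, ∑ h, u i h * v j h = ∑ S ∈ (A i ∩ B j).powerset, w S.card := by
  classical
  refine ⟨fun i S => if S.1 ⊆ A i then w S.1.card else 0,
    fun j S => if S.1 ⊆ B j then 1 else 0, fun i j => ?_⟩
  have h1 : ∑ h : {S : Finset I // S.card < Q},
      (if h.1 ⊆ A i then w h.1.card else 0) * (if h.1 ⊆ B j then (1 : R) else 0) =
      ∑ S ∈ (univ : Finset (Finset I)).filter (fun S => S.card < Q),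
        (if S ⊆ A i ∩ B j then w S.card else 0) := by
    rw [Finset.sum_subtype ((univ : Finset (Finset I)).filter (fun S => S.card < Q))
      (p := fun S => S.card < Q) (by simp)]
    refine Finset.sum_congr rfl fun S _ => ?_
    by_cases h1 : S.1 ⊆ A i <;> by_cases h2 : S.1 ⊆ B j <;> simp [h1, h2, Finset.subset_inter_iff]
  rw [h1, Finset.sum_filter]
  have h2 : (A i ∩ B j).powerset = (univ : Finset (Finset I)).filter (fun S => S ⊆ A i ∩ B j) := by
    ext S; simp only [Finset.mem_powerset, Finset.mem_filter, Finset.mem_univ, true_and]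
  rw [h2, Finset.sum_filter]
  refine Finset.sum_congr rfl fun S _ => ?_
  by_cases h : S.card < Q
  · simp only [h, if_true]
  · rw [if_neg h, hw0 _ (not_lt.1 h)]
    simp

section conv
variable {G : Type} [AddCommGroup G] {q : ℕ}

def L1 (B : ZMod q → G) (e : ZMod q) : G := -B (e + 2) + B (e + 3) + B (e + 4) - B (e + 5)
def L2 (B : ZMod q → G) (e : ZMod q) : G := B (e + 4) - B (e + 3) - B (e + 3) + B (e + 2)
def L3 (B : ZMod q → G) (e : ZMod q) : G := B (e + 2) - B (e + 4) - B (e + 1) + B (e + 3)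
def EE (B : ZMod q → G) (e : ZMod q) : G :=
  B e - B (e + 1) - B (e + 1) + B (e + 3) + B (e + 3) - B (e + 4)

theorem conv1 (B1 B2 B3 : ZMod q → G) (e : ZMod q) :
    (L3 B3 (e + 2) - L2 B2 (e + 2)) + (L1 B1 (e + 1) - L3 B3 (e + 1)) + (L2 B2 e - L1 B1 e) =
      EE (B1 + B2 + B3) (e + 2) := by
  simp only [L1, L2, L3, EE, Pi.add_apply, add_assoc]
  norm_num
  abel

theorem EE_single (hq : 5 ≤ q) (e : ZMod q) (β : G) : EE (Pi.single e β) e = β := by
  have h : ∀ c : ℕ, 0 < c → c < 5 → (Pi.single e β : ZMod q → G) (e + c) = 0 := by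
    intro c h0 h5
    apply Pi.single_eq_of_ne
    intro h
    have h1 : (c : ZMod q) = 0 := by simpa using h
    rw [ZMod.natCast_eq_zero_iff] at h1
    have := Nat.le_of_dvd h0 h1
    omega
  have h1 := h 1 (by norm_num) (by norm_num)
  have h3 := h 3 (by norm_num) (by norm_num)
  have h4 := h 4 (by norm_num) (by norm_num)
  push_cast at h1 h3 h4
  simp [EE, h1, h3, h4]

end conv

end Pool.Agent.H54.Dpf
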