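import Mathlib
import Pool.Agent.H54.Dpf

open Finset

namespace Pool.Agent.H54.Dpf
open Pool.Agent.H54.Zam

theorem of_mv {G R H H' : Type} [AddCommGroup G] [Fintype G] [CommRing R] [Module R G]
    [Fintype H] [Fintype H'] [DecidableEq H] [DecidableEq H'] {N L q : ℕ} [NeZero q]
    (hq : 5 ≤ q) (u v : Fin N → H → ZMod q) (u' v' : Fin N → H' → R)
    (hd : ∀ i, ∑ h, u i h * v i h = 1) (hd' : ∀ i, ∑ h, u' i h * v' i h = 1)
    (hoff : ∀ i j, i ≠ j → ∑ h, u i h * v j h = 0 ∨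
      (∑ h, u i h * v j h = 1 ∧ ∑ h, u' i h * v' j h = 0))
    (hL : (q ^ Fintype.card H) ^ 2 * ((Fintype.card G ^ q) ^ Fintype.card H') ^ 2 ≤ 2 ^ L) :
    ∃ (Gen : Fin N → G → PMF (Fin 3 → Fin L → Bool))
      (Eval : Fin 3 → (Fin L → Bool) → Fin N → G), IsDPF Gen Eval := by
  let K := (H → ZMod q) × (H → ZMod q) × (H' → ZMod q → G) × (H' → ZMod q → G)
  let ip : (H → ZMod q) → Fin N → ZMod q := fun a x => ∑ h, a h * v x h
  let jp : (H' → ZMod q → G) → Fin N → ZMod q → G := fun b x => ∑ h, v' x h • b h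
  let a3 : Fin N → (H → ZMod q) → (H → ZMod q) → (H → ZMod q) := fun α a1 a2 => u α - a1 - a2
  let θ : Fin N → G → (H → ZMod q) → (H → ZMod q) → ZMod q → G := fun α β a1 a2 =>
    Pi.single (ip a2 α + 2 * ip (a3 α a1 a2) α) β
  let b3 : Fin N → G → K → (H' → ZMod q → G) := fun α β ρ =>
    (fun h => u' α h • θ α β ρ.1 ρ.2.1) - ρ.2.2.1 - ρ.2.2.2
  let κ : Fin N → G → Fin 3 → K → K := fun α β =>
    ![fun ρ => (ρ.2.1, a3 α ρ.1 ρ.2.1, ρ.2.2.2, b3 α β ρ),
      fun ρ => (ρ.1, a3 α ρ.1 ρ.2.1, ρ.2.2.1, b3 α β ρ), fun ρ => ρ]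
  let ev : Fin 3 → K → Fin N → G :=
    ![fun k x => L3 (jp k.2.2.2 x) (ip k.1 x + 2 * ip k.2.1 x) -
        L2 (jp k.2.2.1 x) (ip k.1 x + 2 * ip k.2.1 x),
      fun k x => L1 (jp k.2.2.1 x) (ip k.2.1 x - ip k.1 x) -
        L3 (jp k.2.2.2 x) (ip k.2.1 x - ip k.1 x),
      fun k x => L2 (jp k.2.2.2 x) (-(2 * ip k.1 x) - ip k.2.1 x) -
        L1 (jp k.2.2.1 x) (-(2 * ip k.1 x) - ip k.2.1 x)]
  refine of_keys κ ev ?_ ?_ ?_
  · intro α β i
    fin_cases i
    · rintro ⟨a1, a2, b1, b2⟩ ⟨a1', a2', b1', b2'⟩ h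
      simp only [κ, a3, b3, Fin.zero_eta, Matrix.cons_val_zero] at h
      obtain ⟨h2, h3, h4, h5⟩ := by simpa only [Prod.mk.injEq, K] using h
      subst h2 h4
      have h1 : a1 = a1' := sub_right_injective (sub_left_injective h3)
      subst h1
      have h6 : b1 = b1' := sub_right_injective (sub_left_injective h5)
      rw [h6]
    · rintro ⟨a1, a2, b1, b2⟩ ⟨a1', a2', b1', b2'⟩ h
      simp only [κ, a3, b3, Fin.mk_one, Matrix.cons_val_one, Matrix.cons_val_zero] at h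
      obtain ⟨h2, h3, h4, h5⟩ := by simpa only [Prod.mk.injEq, K] using h
      subst h2 h4
      have h1 : a2 = a2' := sub_right_injective h3
      subst h1
      have h6 : b2 = b2' := sub_right_injective h5
      rw [h6]
    · exact fun _ _ h => h
  · rintro α β ⟨a1, a2, b1, b2⟩ x
    have hA : ∀ y, ip (a3 α a1 a2) y = (∑ h, u α h * v y h) - ip a1 y - ip a2 y := by
      intro y
      simp only [ip, a3, Pi.sub_apply, sub_mul, Finset.sum_sub_distrib]
    have hB : jp b1 x + jp b2 x + jp (b3 α β (a1, a2, b1, b2)) x =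
        (∑ h, u' α h * v' x h) • θ α β a1 a2 := by
      simp only [jp, b3, Pi.sub_apply, smul_sub, Finset.sum_sub_distrib, Finset.sum_smul,
        smul_smul, mul_comm]
      abel
    rw [Fin.sum_univ_three]
    show (L3 (jp (b3 α β (a1, a2, b1, b2)) x) (ip a2 x + 2 * ip (a3 α a1 a2) x) -
        L2 (jp b2 x) (ip a2 x + 2 * ip (a3 α a1 a2) x)) +
      (L1 (jp b1 x) (ip (a3 α a1 a2) x - ip a1 x) -
        L3 (jp (b3 α β (a1, a2, b1, b2)) x) (ip (a3 α a1 a2) x - ip a1 x)) +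
      (L2 (jp b2 x) (-(2 * ip a1 x) - ip a2 x) - L1 (jp b1 x) (-(2 * ip a1 x) - ip a2 x)) = _
    have hone : ∑ h, u α h * v x h = 1 →
        (L3 (jp (b3 α β (a1, a2, b1, b2)) x) (ip a2 x + 2 * ip (a3 α a1 a2) x) -
        L2 (jp b2 x) (ip a2 x + 2 * ip (a3 α a1 a2) x)) +
      (L1 (jp b1 x) (ip (a3 α a1 a2) x - ip a1 x) -
        L3 (jp (b3 α β (a1, a2, b1, b2)) x) (ip (a3 α a1 a2) x - ip a1 x)) +
      (L2 (jp b2 x) (-(2 * ip a1 x) - ip a2 x) - L1 (jp b1 x) (-(2 * ip a1 x) - ip a2 x)) =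
        EE ((∑ h, u' α h * v' x h) • θ α β a1 a2) (ip a2 x + 2 * ip (a3 α a1 a2) x) := by
      intro h1
      have e1 : ip a2 x + 2 * ip (a3 α a1 a2) x = (-(2 * ip a1 x) - ip a2 x) + 2 := by
        rw [hA, h1]; ring
      have e2 : ip (a3 α a1 a2) x - ip a1 x = (-(2 * ip a1 x) - ip a2 x) + 1 := by
        rw [hA, h1]; ring
      rw [e1, e2, conv1, hB]
    split_ifs with hx
    · subst hx
      rw [hone (hd x), hd', one_smul]
      exact EE_single hq _ _
    · rcases hoff α x (Ne.symm hx) with h | ⟨h, h'⟩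
      · have e1 : ip a2 x + 2 * ip (a3 α a1 a2) x = (-(2 * ip a1 x) - ip a2 x) := by
          rw [hA, h]; ring
        have e2 : ip (a3 α a1 a2) x - ip a1 x = (-(2 * ip a1 x) - ip a2 x) := by
          rw [hA, h]; ring
        rw [e1, e2]
        abel
      · rw [hone h, h', zero_smul]
        simp [EE]
  · refine le_trans (le_of_eq ?_) hL
    simp only [K, Fintype.card_prod, Fintype.card_pi, Finset.prod_const, ZMod.card,
      Finset.card_univ]
    ring

theorem main_nat (G : Type) [AddCommGroup G] [Fintype G] (q : ℕ) [Fact q.Prime] (hq : 5 ≤ q)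
    (hG : Fintype.card G < q) (N l : ℕ) (hl : 1 ≤ l) (hn : N ≤ l ^ l) :
    ∃ Q : ℕ, Q ^ 2 ≤ q ^ 2 * l ∧
      ∃ (Gen : Fin N → G → PMF (Fin 3 → Fin (4 * q ^ 2 * (2 * l ^ 2) ^ Q) → Bool))
      (Eval : Fin 3 → (Fin (4 * q ^ 2 * (2 * l ^ 2) ^ Q) → Bool) → Fin N → G),
      IsDPF Gen Eval := by
  classical
  obtain ⟨b, hb1, hb2⟩ := exists_pow q l (by omega) hl
  refine ⟨q ^ b, hb2, ?_⟩
  have hqp : q.Prime := Fact.out
  have hcard : 1 ≤ Fintype.card G := Fintype.card_pos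
  let : Module (ZMod (Fintype.card G)) G := AddCommGroup.zmodModule (fun x => card_nsmul_eq_zero)
  have hcop : Nat.Coprime (q ^ b) (Fintype.card G) :=
    Nat.Coprime.pow_left _ (Nat.coprime_of_lt_prime (by omega) hG hqp)
  obtain ⟨w, hw0, hw⟩ := root_expand (Fintype.card G) (q ^ b) hcard
    (Nat.one_le_pow _ _ hqp.pos) hcop
  obtain ⟨ι⟩ : Nonempty (Fin N ↪ (Fin l → Fin l)) := by
    apply Function.Embedding.nonempty_of_card_le
    simpa using hn
  let SA : Fin N → Finset (Fin l × Fin l) := fun i => univ.filter (fun e => ι i e.1 = e.2)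
  let SB : Fin N → Finset (Fin l × Fin l) := fun i => univ.filter (fun e => ι i e.1 ≠ e.2)
  obtain ⟨u, v, h2⟩ := exists_vec q b SA SB
  obtain ⟨u', v', h3⟩ := vec_of_w (q ^ b) w hw0 SA SB
  have hdiag : ∀ i, (SA i ∩ SB i).card = 0 := by
    intro i
    rw [Finset.card_eq_zero]
    ext e
    simp [SA, SB]
  have hle : ∀ i j, (SA i ∩ SB j).card ≤ l := by
    intro i j
    have : (SA i ∩ SB j).card ≤ (univ : Finset (Fin l)).card := by
      apply Finset.card_le_card_of_injOn (fun e => e.1) (by simp)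
      intro e he e' he' h
      simp only [SA, SB, Finset.coe_inter, Finset.coe_filter, Finset.mem_univ, true_and,
        Set.mem_inter_iff, Set.mem_ofPred_eq] at he he' h
      refine Prod.ext h ?_
      rw [← he.1, ← he'.1, h]
    simpa using this
  have hpos : ∀ i j, i ≠ j → 0 < (SA i ∩ SB j).card := by
    intro i j hij
    have : ι i ≠ ι j := fun h => hij (ι.injective h)
    obtain ⟨s, hs⟩ := Function.ne_iff.1 this
    refine Finset.card_pos.2 ⟨(s, ι i s), ?_⟩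
    simp [SA, SB, hs.symm]
  have : NeZero q := ⟨hqp.ne_zero⟩
  refine of_mv hq u v u' v' (fun i => by rw [h2, hdiag]; simp)
    (fun i => by rw [h3]; exact (hw _).1 (hdiag i)) (fun i j hij => ?_) ?_
  · rw [h2, h3]
    by_cases hdv : q ^ b ∣ (SA i ∩ SB j).card
    · right
      refine ⟨if_pos hdv, ?_⟩
      obtain ⟨c, hc⟩ := hdv
      have h1 := hpos i j hij
      have h4 := hle i j
      refine (hw _).2 c ?_ ?_ hc
      · rcases c with _ | c
        · omega
        · omega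
      · by_contra hcon
        have : q ^ b * q ^ b ≤ q ^ b * c := Nat.mul_le_mul_left _ (not_lt.1 hcon)
        nlinarith
    · left
      exact if_neg hdv
  · have hI : Fintype.card (Fin l × Fin l) = l ^ 2 := by simp [sq]
    have hI1 : 1 ≤ Fintype.card (Fin l × Fin l) := by rw [hI]; exact Nat.one_le_pow _ _ hl
    have c2 := card_small (I := Fin l × Fin l) (q ^ b) hI1
    rw [hI] at c2
    set W := (2 * l ^ 2) ^ q ^ b
    set h := Fintype.card {S : Finset (Fin l × Fin l) // S.card < q ^ b}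
    have hq2 : q ≤ 2 ^ q := Nat.lt_two_pow_self.le
    have hq3 : q ≤ (2 ^ q) ^ q := hq2.trans (Nat.le_self_pow (by omega) _)
    have hG2 : Fintype.card G ^ q ≤ (2 ^ q) ^ q := Nat.pow_le_pow_left (hG.le.trans hq2) _
    have hp : 1 ≤ (2 ^ q) ^ q := le_trans (by omega) hq3
    calc (q ^ h) ^ 2 * ((Fintype.card G ^ q) ^ h) ^ 2
        ≤ (((2 ^ q) ^ q) ^ W) ^ 2 * (((2 ^ q) ^ q) ^ W) ^ 2 := by
          apply Nat.mul_le_mul <;> apply Nat.pow_le_pow_left
          · exact (Nat.pow_le_pow_left hq3 _).trans (Nat.pow_le_pow_right hp c2)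
          · exact (Nat.pow_le_pow_left hG2 _).trans (Nat.pow_le_pow_right hp c2)
      _ = 2 ^ (4 * q ^ 2 * W) := by
          simp only [← pow_mul, ← pow_add]
          congr 1; ring

theorem asym (n k : ℕ) (hk : 3 ≤ k) (hmin : k ^ k < n) (c q Q : ℕ) (hc : 1 ≤ c)
    (hQ : Q ^ 2 ≤ q ^ 2 * (k + 1)) :
    ((c * (2 * (k + 1) ^ 2) ^ Q : ℕ) : ℝ) ≤
      Real.exp ((c + 8 * q) * √(Real.log n * Real.log (Real.log n))) := by
  have hk3 : (3 : ℝ) ≤ k := by exact_mod_cast hk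
  have hlogk : 1 ≤ Real.log k := by
    rw [Real.le_log_iff_exp_le (by linarith)]
    have := Real.exp_one_lt_d9
    linarith
  have hL : k * Real.log k < Real.log n := by
    rw [← Real.log_pow]
    apply Real.log_lt_log (by positivity)
    exact_mod_cast hmin
  have hkL : (k : ℝ) ≤ Real.log n := by nlinarith
  have hLL : Real.log k ≤ Real.log (Real.log n) := Real.log_le_log (by linarith) hkL
  have hs : √k * Real.log k ≤ √(Real.log n * Real.log (Real.log n)) := by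
    apply Real.le_sqrt_of_sq_le
    rw [mul_pow, Real.sq_sqrt (by linarith)]
    have : k * Real.log k * Real.log k ≤ Real.log n * Real.log (Real.log n) :=
      mul_le_mul hL.le hLL (by linarith) (by nlinarith)
    nlinarith
  have hs1 : 1 ≤ √(k : ℝ) := Real.one_le_sqrt.2 (by linarith)
  have hq0 : (0 : ℝ) ≤ q := by positivity
  have hq' : (Q : ℝ) ≤ 2 * q * √k := by
    apply le_of_sq_le_sq _ (by positivity)
    rw [mul_pow, mul_pow, Real.sq_sqrt (by linarith)]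
    have : (Q : ℝ) ^ 2 ≤ (q : ℝ) ^ 2 * (k + 1) := by exact_mod_cast hQ
    nlinarith [sq_nonneg (q : ℝ)]
  have h1 : 2 * ((k : ℝ) + 1) ^ 2 ≤ (k : ℝ) ^ 4 := by
    have h9 : (9 : ℝ) ≤ (k : ℝ) ^ 2 := by nlinarith
    have : (k : ℝ) ^ 4 = (k : ℝ) ^ 2 * (k : ℝ) ^ 2 := by ring
    nlinarith
  have h2 : (2 * ((k : ℝ) + 1) ^ 2) ^ Q ≤ Real.exp (Q * (4 * Real.log k)) := by
    rw [Real.exp_nat_mul]
    apply pow_le_pow_left₀ (by positivity)
    rw [show (4 : ℝ) = ((4 : ℕ) : ℝ) by norm_num, Real.exp_nat_mul, Real.exp_log (by linarith)]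
    exact h1
  have h3 : (c : ℝ) ≤ Real.exp c := by linarith [Real.add_one_le_exp (c : ℝ)]
  have hc0 : (0 : ℝ) ≤ c := by positivity
  push_cast
  calc (c : ℝ) * (2 * ((k : ℝ) + 1) ^ 2) ^ Q ≤ Real.exp c * Real.exp (Q * (4 * Real.log k)) :=
        mul_le_mul h3 h2 (by positivity) (by positivity)
    _ = Real.exp (c + Q * (4 * Real.log k)) := by rw [Real.exp_add]
    _ ≤ _ := by
        apply Real.exp_le_exp.2
        have h5 : (Q : ℝ) * (4 * Real.log k) ≤ 2 * q * √k * (4 * Real.log k) :=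
          mul_le_mul_of_nonneg_right hq' (by linarith)
        have h6 : 1 ≤ √(k : ℝ) * Real.log k := by nlinarith
        have h7 := mul_le_mul_of_nonneg_left hs hq0
        have h8 := mul_le_mul_of_nonneg_left (h6.trans hs) hc0
        nlinarith

theorem main (G : Type) [AddCommGroup G] [Finite G] :
    ∃ C : ℝ, ∀ N : ℕ, ∃ L : ℕ,
      (L : ℝ) ≤ Real.exp (C * (1 + √(Real.log N * Real.log (Real.log N)))) ∧
      ∃ (Gen : Fin N → G → PMF (Fin 3 → Fin L → Bool))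
        (Eval : Fin 3 → (Fin L → Bool) → Fin N → G), IsDPF Gen Eval := by
  have := Fintype.ofFinite G
  obtain ⟨q, hq, hqp⟩ := Nat.exists_infinite_primes (Fintype.card G + 5)
  have : Fact q.Prime := ⟨hqp⟩
  refine ⟨(4 * q ^ 2 * 18 ^ (2 * q) : ℕ) + (4 * q ^ 2 : ℕ) + 8 * q, fun N => ?_⟩
  have hs0 : 0 ≤ √(Real.log N * Real.log (Real.log N)) := Real.sqrt_nonneg _
  have hA : (0 : ℝ) ≤ (4 * q ^ 2 * 18 ^ (2 * q) : ℕ) := by positivity
  have hB : (0 : ℝ) ≤ (4 * q ^ 2 : ℕ) := by positivity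
  have hC : (0 : ℝ) ≤ 8 * q := by positivity
  by_cases hN : N ≤ 27
  · obtain ⟨Q, hQ, h⟩ := main_nat G q (by omega) (by omega) N 3 (by norm_num) hN
    refine ⟨_, ?_, h⟩
    have hQ' : Q ≤ 2 * q := by nlinarith
    have h1 : 4 * q ^ 2 * (2 * 3 ^ 2) ^ Q ≤ 4 * q ^ 2 * 18 ^ (2 * q) :=
      Nat.mul_le_mul_left _ (Nat.pow_le_pow_right (by norm_num) hQ')
    have h2 : ((4 * q ^ 2 * (2 * 3 ^ 2) ^ Q : ℕ) : ℝ) ≤ (4 * q ^ 2 * 18 ^ (2 * q) : ℕ) := by
      exact_mod_cast h1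
    refine h2.trans (le_trans ?_ (Real.add_one_le_exp _))
    nlinarith [mul_nonneg hA hs0, mul_nonneg hB hs0, mul_nonneg hC hs0]
  · have hex : ∃ l, N ≤ l ^ l := ⟨N, Nat.le_self_pow (by omega) N⟩
    have hl := Nat.find_spec hex
    have h4 : 4 ≤ Nat.find hex := by
      by_contra h
      have : Nat.find hex ≤ 3 := by omega
      interval_cases h' : Nat.find hex <;> omega
    obtain ⟨k, hk⟩ : ∃ k, Nat.find hex = k + 1 := ⟨Nat.find hex - 1, by omega⟩
    have hmin : k ^ k < N := not_le.1 (Nat.find_min hex (m := k) (by omega))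
    rw [hk] at hl h4
    obtain ⟨Q, hQ, h⟩ := main_nat G q (by omega) (by omega) N (k + 1) (by omega) hl
    refine ⟨_, ?_, h⟩
    refine (asym N k (by omega) hmin (4 * q ^ 2) q Q (by have := hqp.pos; nlinarith) hQ).trans ?_
    apply Real.exp_le_exp.2
    nlinarith [mul_nonneg hA hs0]

end Pool.Agent.H54.Dpf
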