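import Mathlib

set_option autoImplicit false

namespace Pool.Agent.H54.Emd

open Finset

/-- the l1 norm of a finite vector -/
noncomputable def nm {J : Type} [Fintype J] (v : J → ℝ) : ℝ := ∑ j, |v j|

section nm
variable {J : Type} [Fintype J]

theorem nm_nonneg (v : J → ℝ) : 0 ≤ nm v := sum_nonneg fun _ _ => abs_nonneg _

theorem nm_add (v w : J → ℝ) : nm (v + w) ≤ nm v + nm w := by
  unfold nm
  rw [← sum_add_distrib]
  exact sum_le_sum fun j _ => abs_add_le _ _

theorem nm_smul (a : ℝ) (v : J → ℝ) : nm (a • v) = |a| * nm v := by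
  unfold nm
  rw [mul_sum]
  exact sum_congr rfl fun j _ => by simp [abs_mul]

theorem nm_neg (v : J → ℝ) : nm (-v) = nm v := by simp [nm]

theorem nm_sub (v w : J → ℝ) : nm (v - w) ≤ nm v + nm w := by
  rw [sub_eq_add_neg, ← nm_neg w]
  exact nm_add _ _

theorem nm_elim {K : Type} [Fintype K] (v v' : J → ℝ) (w w' : K → ℝ) :
    nm (Sum.elim v w - Sum.elim v' w') = nm (v - v') + nm (w - w') := by
  simp [nm, Fintype.sum_sum_type]

theorem nm_key (G G' : J → ℝ) (D D' K : ℝ) (hD : 0 < D) (hD' : 0 < D') (h : nm G' ≤ K * D') :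
    D * nm (D⁻¹ • G - D'⁻¹ • G') ≤ nm (G - G') + K * |D - D'| ∧
    nm (G - G') ≤ D * nm (D⁻¹ • G - D'⁻¹ • G') + K * |D - D'| := by
  have e : D • (D⁻¹ • G - D'⁻¹ • G') = (G - G') + ((D' - D) / D') • G' := by
    funext j
    simp only [Pi.smul_apply, Pi.sub_apply, Pi.add_apply, smul_eq_mul]
    field_simp
    ring
  have h1 : nm (((D' - D) / D') • G') ≤ K * |D - D'| := by
    rw [nm_smul, abs_div, abs_of_pos hD', abs_sub_comm, div_mul_eq_mul_div, div_le_iff₀ hD']
    calc |D - D'| * nm G' ≤ |D - D'| * (K * D') := mul_le_mul_of_nonneg_left h (abs_nonneg _)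
      _ = _ := by ring
  have h2 : D * nm (D⁻¹ • G - D'⁻¹ • G') = nm ((G - G') + ((D' - D) / D') • G') := by
    rw [← e, nm_smul, abs_of_pos hD]
  rw [h2]
  refine ⟨(nm_add _ _).trans (by linarith), ?_⟩
  have := nm_sub ((G - G') + ((D' - D) / D') • G') (((D' - D) / D') • G')
  rw [add_sub_cancel_right] at this
  linarith

end nm

section cube
variable {M C : Type} [DecidableEq M] [Fintype C] [DecidableEq C] (φ : M → C → Bool)

def part (A : Finset M) (c : C) (b : Bool) : Finset M := A.filter fun a => φ a c = b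

noncomputable def avg (A : Finset M) (c : C) : ℝ := ((part φ A c true).card : ℝ) / A.card

def split (A : Finset M) : Finset C := univ.filter fun c => ∀ b, (part φ A c b).Nonempty

def cost (σ : M → M) (A : Finset M) : ℕ := ∑ a ∈ A, hammingDist (φ a) (φ (σ a))

theorem part_sub (A : Finset M) (c : C) (b : Bool) : part φ A c b ⊆ A := filter_subset _ _

theorem part_card (A : Finset M) (c : C) :
    (part φ A c true).card + (part φ A c false).card = A.card := by
  have := card_filter_add_card_filter_not (s := A) (fun a => φ a c = true)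
  simpa [part] using this

theorem split_mono {T A : Finset M} (h : T ⊆ A) : split φ T ⊆ split φ A := by
  intro c hc
  simp only [split, mem_filter, mem_univ, true_and] at hc ⊢
  exact fun b => (hc b).mono (filter_subset_filter _ h)

theorem avg_mem (A : Finset M) (c : C) : 0 ≤ avg φ A c ∧ avg φ A c ≤ 1 := by
  refine ⟨div_nonneg (Nat.cast_nonneg _) (Nat.cast_nonneg _), div_le_one_of_le₀ ?_ (Nat.cast_nonneg _)⟩
  exact_mod_cast card_le_card (part_sub φ A c true)

theorem avg_const {A : Finset M} (hA : A.Nonempty) (c : C) (b : Bool) (h : ∀ a ∈ A, φ a c = b) :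
    avg φ A c = if b then 1 else 0 := by
  unfold avg part
  cases b
  · rw [filter_false_of_mem fun a ha => by simp [h a ha]]
    simp
  · rw [filter_true_of_mem h]
    have : (A.card : ℝ) ≠ 0 := by exact_mod_cast hA.card_pos.ne'
    simp [this]

theorem not_split {A : Finset M} {c : C} (h : c ∉ split φ A) : ∃ b, ∀ a ∈ A, φ a c = b := by
  simp only [split, mem_filter, mem_univ, true_and, not_forall, not_nonempty_iff_eq_empty] at h
  obtain ⟨b, hb⟩ := h
  refine ⟨!b, fun a ha => ?_⟩
  have := filter_eq_empty_iff.1 hb ha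
  cases b <;> simpa using this

theorem sum_le_card (f : C → ℝ) (X : Finset C) (K : ℝ) (h1 : ∀ c ∈ X, f c ≤ K)
    (h2 : ∀ c ∉ X, f c ≤ 0) : ∑ c, f c ≤ K * X.card := by
  calc ∑ c, f c ≤ ∑ c, if c ∈ X then K else 0 :=
        sum_le_sum fun c _ => by split_ifs with h; exacts [h1 c h, h2 c h]
    _ = _ := by simp [mul_comm]

theorem nm_avg_sub {T A : Finset M} (h : T ⊆ A) (hT : T.Nonempty) :
    nm (avg φ T - avg φ A) ≤ (split φ A).card := by
  rw [← one_mul ((split φ A).card : ℝ)]
  refine sum_le_card _ _ _ (fun c _ => ?_) fun c hc => ?_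
  · have := avg_mem φ T c
    have := avg_mem φ A c
    rw [Pi.sub_apply, abs_le]
    constructor <;> linarith
  · obtain ⟨b, hb⟩ := not_split φ hc
    rw [Pi.sub_apply, avg_const φ hT c b fun a ha => hb a (h ha), avg_const φ (hT.mono h) c b hb]
    simp

theorem cost_eq (σ : M → M) (A : Finset M) :
    cost φ σ A = ∑ c, (A.filter fun a => φ a c ≠ φ (σ a) c).card := by
  simp only [cost, hammingDist, card_filter]
  exact sum_comm

theorem cost_mono (σ : M → M) {T A : Finset M} (h : T ⊆ A) : cost φ σ T ≤ cost φ σ A :=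
  sum_le_sum_of_subset h

theorem part_card_bij {σ : M → M} {A A' : Finset M} (h : Set.BijOn σ A A') (c : C) (b : Bool) :
    (part φ A' c b).card = (A.filter fun a => φ (σ a) c = b).card := by
  symm
  refine card_bij (fun a _ => σ a) (fun a ha => ?_) (fun a ha a' ha' e => ?_) fun y hy => ?_
  · rw [mem_filter] at ha
    exact mem_filter.2 ⟨h.mapsTo ha.1, ha.2⟩
  · exact h.injOn (mem_filter.1 ha).1 (mem_filter.1 ha').1 e
  · obtain ⟨a, ha, rfl⟩ := h.surjOn (mem_filter.1 hy).1
    exact ⟨a, mem_filter.2 ⟨ha, (mem_filter.1 hy).2⟩, rfl⟩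

theorem card_bij' {σ : M → M} {A A' : Finset M} (h : Set.BijOn σ A A') : A.card = A'.card :=
  card_bij (fun a _ => σ a) (fun _ ha => h.mapsTo ha) (fun _ ha _ ha' e => h.injOn ha ha' e)
    fun _ hy => by
      obtain ⟨a, ha, rfl⟩ := h.surjOn hy
      exact ⟨a, ha, rfl⟩

theorem nm_avg_le {σ : M → M} {A A' : Finset M} (h : Set.BijOn σ A A') :
    nm (avg φ A - avg φ A') ≤ cost φ σ A := by
  rw [cost_eq, Nat.cast_sum]
  refine sum_le_sum fun c _ => ?_
  rw [Pi.sub_apply, avg, avg, ← card_bij' h, part_card_bij φ h, ← sub_div, abs_div, Nat.abs_cast]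
  have : |((part φ A c true).card : ℝ) - (A.filter fun a => φ (σ a) c = true).card| ≤
      (A.filter fun a => φ a c ≠ φ (σ a) c).card := by
    simp only [part, card_filter, Nat.cast_sum]
    rw [← sum_sub_distrib]
    refine (abs_sum_le_sum_abs _ _).trans (sum_le_sum fun a _ => ?_)
    cases φ a c <;> cases φ (σ a) c <;> simp
  rcases Nat.eq_zero_or_pos A.card with h0 | h0
  · simp [h0]
  · exact (div_le_self (abs_nonneg _) (by exact_mod_cast h0)).trans this

def bad (σ : M → M) (A : Finset M) : Finset C := univ.filter fun c => ∃ a ∈ A, φ a c ≠ φ (σ a) c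

theorem bad_card (σ : M → M) (A : Finset M) : (bad φ σ A).card ≤ cost φ σ A := by
  rw [cost_eq, bad, card_filter]
  refine sum_le_sum fun c _ => ?_
  split_ifs with h
  · obtain ⟨a, ha, h⟩ := h
    exact card_pos.2 ⟨a, mem_filter.2 ⟨ha, h⟩⟩
  · exact Nat.zero_le _

theorem part_bij {σ : M → M} {A A' : Finset M} (h : Set.BijOn σ A A') {c : C}
    (hc : c ∉ bad φ σ A) (b : Bool) : Set.BijOn σ (part φ A c b) (part φ A' c b) := by
  simp only [bad, mem_filter, mem_univ, true_and, not_exists, not_and, not_not] at hc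
  refine ⟨fun a ha => ?_, h.injOn.mono (coe_subset.2 (part_sub φ A c b)), fun y hy => ?_⟩
  · have := mem_filter.1 (mem_coe.1 ha)
    exact mem_coe.2 (mem_filter.2 ⟨h.mapsTo this.1, (hc a this.1).symm.trans this.2⟩)
  · have := mem_filter.1 (mem_coe.1 hy)
    obtain ⟨a, ha, rfl⟩ := h.surjOn this.1
    exact ⟨a, mem_coe.2 (mem_filter.2 ⟨ha, (hc a ha).trans this.2⟩), rfl⟩

theorem split_iff {A A' : Finset M} {c : C} (h : ∀ b, (part φ A c b).card = (part φ A' c b).card) :
    c ∈ split φ A ↔ c ∈ split φ A' := by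
  simp only [split, mem_filter, mem_univ, true_and, ← card_pos, h]

theorem card_close {X Y B : Finset C} (h : ∀ c ∉ B, c ∈ X ↔ c ∈ Y) :
    |(X.card : ℝ) - Y.card| ≤ B.card := by
  have h1 : X.card ≤ Y.card + B.card := (card_le_card fun c hc => by
    by_cases hb : c ∈ B
    · exact mem_union_right _ hb
    · exact mem_union_left _ ((h c hb).1 hc)).trans (card_union_le _ _)
  have h2 : Y.card ≤ X.card + B.card := (card_le_card fun c hc => by
    by_cases hb : c ∈ B
    · exact mem_union_right _ hb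
    · exact mem_union_left _ ((h c hb).2 hc)).trans (card_union_le _ _)
  rw [abs_le]
  constructor
  · have : (Y.card : ℝ) ≤ X.card + B.card := by exact_mod_cast h2
    linarith
  · have : (X.card : ℝ) ≤ Y.card + B.card := by exact_mod_cast h1
    linarith

def diff (A A' : Finset M) : Finset C :=
  univ.filter fun c => (part φ A c true).card ≠ (part φ A' c true).card

theorem diff_card {A A' : Finset M} (h : A.card = A'.card) :
    ((diff φ A A').card : ℝ) ≤ A.card * nm (avg φ A - avg φ A') := by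
  rcases Nat.eq_zero_or_pos A.card with h0 | h0
  · have : diff φ A A' = ∅ := by
      rw [card_eq_zero.1 h0, card_eq_zero.1 (h.symm.trans h0)]
      simp [diff]
    simp [this, h0]
  have hA : (0 : ℝ) < A.card := by exact_mod_cast h0
  rw [diff, card_filter, Nat.cast_sum, nm, mul_sum]
  refine sum_le_sum fun c _ => ?_
  rw [Pi.sub_apply, avg, avg, ← h, ← sub_div, abs_div, abs_of_pos hA, mul_div_cancel₀ _ hA.ne']
  split_ifs with hc
  · have : (1 : ℤ) ≤ |((part φ A c true).card : ℤ) - (part φ A' c true).card| :=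
      Int.one_le_abs (sub_ne_zero.2 (by exact_mod_cast hc))
    exact_mod_cast this
  · simp

theorem not_diff {A A' : Finset M} (h : A.card = A'.card) {c : C} (hc : c ∉ diff φ A A')
    (b : Bool) : (part φ A c b).card = (part φ A' c b).card := by
  simp only [diff, mem_filter, mem_univ, true_and, not_not] at hc
  have h1 := part_card φ A c
  have h2 := part_card φ A' c
  cases b <;> omega

theorem cost_any {σ : M → M} {A A' : Finset M} (h : Set.BijOn σ A A') :
    cost φ σ A ≤ A.card * ((split φ A).card + (diff φ A A').card) := by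
  rw [cost, ← smul_eq_mul]
  refine sum_le_card_nsmul _ _ _ fun a ha => ?_
  refine (card_le_card fun c hc => ?_).trans (card_union_le _ _)
  by_contra hn
  rw [mem_union, not_or] at hn
  obtain ⟨b, hb⟩ := not_split φ hn.1
  have h1 := not_diff φ (card_bij' h) hn.2 (!b)
  have h2 : part φ A c (!b) = ∅ := filter_false_of_mem fun x hx => by simp [hb x hx]
  rw [h2, card_empty, eq_comm, card_eq_zero] at h1
  have := filter_eq_empty_iff.1 h1 (h.mapsTo ha)
  refine (mem_filter.1 hc).2 ?_
  rw [hb a ha]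
  cases b <;> simpa using this

theorem glue {A A' : Finset M} (c : C) (σ : Bool → M → M)
    (h : ∀ b, Set.BijOn (σ b) (part φ A c b) (part φ A' c b)) :
    Set.BijOn (fun a => σ (φ a c) a) A A' ∧
    cost φ (fun a => σ (φ a c) a) A = ∑ b, cost φ (σ b) (part φ A c b) := by
  have hm : ∀ a ∈ A, σ (φ a c) a ∈ part φ A' c (φ a c) := fun a ha =>
    (h _).mapsTo (mem_coe.2 (mem_filter.2 ⟨ha, rfl⟩))
  refine ⟨⟨fun a ha => part_sub φ _ _ _ (hm a ha), fun a ha a' ha' e => ?_, fun y hy => ?_⟩, ?_⟩
  · have e1 : φ a c = φ a' c := by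
      rw [← (mem_filter.1 (hm a ha)).2, ← (mem_filter.1 (hm a' ha')).2]
      exact congrArg (fun z => φ z c) e
    refine (h (φ a c)).injOn (mem_coe.2 (mem_filter.2 ⟨ha, rfl⟩))
      (mem_coe.2 (mem_filter.2 ⟨ha', e1.symm⟩)) ?_
    simpa only [e1] using e
  · obtain ⟨a, ha, e⟩ := (h (φ y c)).surjOn (mem_coe.2 (mem_filter.2 ⟨hy, rfl⟩))
    have := mem_filter.1 (mem_coe.1 ha)
    exact ⟨a, this.1, by simpa only [this.2] using e⟩
  · unfold cost part
    rw [← sum_fiberwise A (fun a => φ a c)]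
    refine sum_congr rfl fun b _ => sum_congr rfl fun a ha => ?_
    simp only [(mem_filter.1 ha).2]

/-- the three properties of a shape map at level `n` -/
def Good {J : Type} [Fintype J] (n : ℕ) (K L R : ℝ) (sh : Finset M → J → ℝ) : Prop :=
  (∀ A, nm (sh A) ≤ K * (split φ A).card) ∧
  (∀ (A A' : Finset M) (σ : M → M), Set.BijOn σ A A' → nm (sh A - sh A') ≤ L * cost φ σ A) ∧
  ∀ A A' : Finset M, A.card = A'.card → A.card ≤ n + 1 → ∃ σ : M → M, Set.BijOn σ A A' ∧
    (cost φ σ A : ℝ) ≤ R * (nm (avg φ A - avg φ A') + nm (sh A - sh A'))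

theorem exists_bij {A A' : Finset M} (h : A.card = A'.card) : ∃ σ : M → M, Set.BijOn σ A A' := by
  let e : A ≃ A' := Finset.equivOfCardEq h
  refine ⟨fun a => if h : a ∈ A then e ⟨a, h⟩ else a, fun a ha => ?_, fun a ha a' ha' h => ?_,
    fun y hy => ?_⟩
  · simp only [dif_pos (mem_coe.1 ha)]
    exact (e _).2
  · simp only [dif_pos (mem_coe.1 ha), dif_pos (mem_coe.1 ha')] at h
    exact congrArg Subtype.val (e.injective (Subtype.ext h))
  · refine ⟨e.symm ⟨y, hy⟩, (e.symm _).2, ?_⟩
    simp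

theorem good_zero : Good φ 0 0 0 1 (fun _ (_ : Empty) => 0) := by
  refine ⟨fun A => by simp [nm], fun A A' σ _ => by simp [nm], fun A A' h h1 => ?_⟩
  obtain ⟨σ, hσ⟩ := exists_bij h
  refine ⟨σ, hσ, ?_⟩
  have h2 : split φ A = ∅ := by
    refine filter_eq_empty_iff.2 fun c _ hc => ?_
    have := part_card φ A c
    have := (hc true).card_pos
    have := (hc false).card_pos
    omega
  have h3 : (cost φ σ A : ℝ) ≤ A.card * ((split φ A).card + (diff φ A A').card) := by
    exact_mod_cast cost_any φ hσ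
  have h4 := diff_card φ h
  have h5 : (A.card : ℝ) ≤ 1 := by exact_mod_cast h1
  have h6 := nm_nonneg (avg φ A - avg φ A')
  have h7 : (0 : ℝ) ≤ (diff φ A A').card := Nat.cast_nonneg _
  simp only [h2, card_empty, Nat.cast_zero, zero_add] at h3
  have : nm ((fun _ : Empty => (0 : ℝ)) - fun _ => 0) = 0 := by simp [nm]
  rw [this]
  nlinarith

section step
variable {J : Type} [Fintype J] (sh : Finset M → J → ℝ)

noncomputable def GG (A : Finset M) (c : C) (b : Bool) : C ⊕ J → ℝ :=
  Sum.elim (avg φ (part φ A c b) - avg φ A) (sh (part φ A c b))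

noncomputable def slot (A : Finset M) (c : C) (b : Bool) : C ⊕ J → ℝ :=
  if c ∈ split φ A then ((split φ A).card : ℝ)⁻¹ • GG φ sh A c b else 0

noncomputable def next (A : Finset M) (p : C × Bool × (C ⊕ J)) : ℝ := slot φ sh A p.1 p.2.1 p.2.2

theorem nm_next (A A' : Finset M) :
    nm (next φ sh A - next φ sh A') = ∑ c, ∑ b, nm (slot φ sh A c b - slot φ sh A' c b) := by
  simp only [nm, Fintype.sum_prod_type, next, Pi.sub_apply]

theorem split_pos {A : Finset M} {c : C} (h : c ∈ split φ A) : (0 : ℝ) < (split φ A).card := by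
  exact_mod_cast card_pos.2 ⟨c, h⟩

theorem nm_GG {K : ℝ} (hK : 0 ≤ K) (h : ∀ A, nm (sh A) ≤ K * (split φ A).card) {A : Finset M}
    {c : C} (hc : c ∈ split φ A) (b : Bool) :
    nm (GG φ sh A c b) ≤ (1 + K) * (split φ A).card := by
  have h1 := nm_avg_sub φ (part_sub φ A c b) ((mem_filter.1 hc).2 b)
  have h2 : ((split φ (part φ A c b)).card : ℝ) ≤ (split φ A).card := by
    exact_mod_cast card_le_card (split_mono φ (part_sub φ A c b))
  have h3 := h (part φ A c b)
  have h4 : nm (GG φ sh A c b) =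
      nm (avg φ (part φ A c b) - avg φ A) + nm (sh (part φ A c b)) := by
    simp [nm, GG, Fintype.sum_sum_type]
  nlinarith

theorem nm_slot {K : ℝ} (hK : 0 ≤ K) (h : ∀ A, nm (sh A) ≤ K * (split φ A).card) (A : Finset M)
    (c : C) (b : Bool) : nm (slot φ sh A c b) ≤ 1 + K := by
  unfold slot
  split_ifs with hc
  · have := split_pos φ hc
    rw [nm_smul, abs_of_pos (inv_pos.2 this), inv_mul_le_iff₀ this, mul_comm]
    exact nm_GG φ sh hK h hc b
  · simp only [nm, Pi.zero_apply, abs_zero, sum_const_zero]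
    linarith

theorem next_norm {K : ℝ} (hK : 0 ≤ K) (h : ∀ A, nm (sh A) ≤ K * (split φ A).card)
    (A : Finset M) : nm (next φ sh A) ≤ 2 * (1 + K) * (split φ A).card := by
  have : nm (next φ sh A) = ∑ c, ∑ b, nm (slot φ sh A c b) := by
    simp only [nm, Fintype.sum_prod_type, next]
  rw [this]
  refine sum_le_card _ _ _ (fun c _ => ?_) fun c hc => ?_
  · rw [Fintype.sum_bool]
    linarith [nm_slot φ sh hK h A c true, nm_slot φ sh hK h A c false]
  · simp [slot, hc, nm]

theorem next_up {K L : ℝ} (hK : 0 ≤ K) (hL : 0 ≤ L) (h : ∀ A, nm (sh A) ≤ K * (split φ A).card)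
    (hu : ∀ (A A' : Finset M) (σ : M → M), Set.BijOn σ A A' → nm (sh A - sh A') ≤ L * cost φ σ A)
    (A A' : Finset M) (σ : M → M) (hσ : Set.BijOn σ A A') :
    nm (next φ sh A - next φ sh A') ≤ (2 * (3 + L + K) + 4 * (1 + K)) * cost φ σ A := by
  set E : ℝ := ((cost φ σ A : ℕ) : ℝ) with hE
  have hE0 : 0 ≤ E := Nat.cast_nonneg _
  have hB : ((bad φ σ A).card : ℝ) ≤ E := by rw [hE]; exact_mod_cast bad_card φ σ A
  have hs : ∀ c ∉ bad φ σ A, c ∈ split φ A ↔ c ∈ split φ A' := fun c hc =>
    split_iff φ fun b => card_bij' (part_bij φ hσ hc b)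
  have hD := (card_close hs).trans hB
  have key : ∀ c b, nm (slot φ sh A c b - slot φ sh A' c b) ≤
      (if c ∈ split φ A then (3 + L + K) * E / (split φ A).card else 0) +
        if c ∈ bad φ σ A then 2 * (1 + K) else 0 := by
    intro c b
    by_cases hb : c ∈ bad φ σ A
    · have h0 : 0 ≤ if c ∈ split φ A then (3 + L + K) * E / (split φ A).card else 0 := by
        split_ifs <;> positivity
      rw [if_pos hb]
      linarith [nm_sub (slot φ sh A c b) (slot φ sh A' c b), nm_slot φ sh hK h A c b,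
        nm_slot φ sh hK h A' c b]
    rw [if_neg hb, add_zero]
    split_ifs with hc
    · have hc' := (hs c hb).1 hc
      have h1 := (nm_key (GG φ sh A c b) (GG φ sh A' c b) _ _ _ (split_pos φ hc) (split_pos φ hc')
        (nm_GG φ sh hK h hc' b)).1
      have hp := part_bij φ hσ hb b
      have h2 : (cost φ σ (part φ A c b) : ℝ) ≤ E := by
        rw [hE]; exact_mod_cast cost_mono φ σ (part_sub φ A c b)
      have h3 := hu _ _ σ hp
      have h4 := nm_avg_le φ hp
      have h5 := nm_avg_le φ hσ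
      have h6 := nm_sub (avg φ (part φ A c b) - avg φ (part φ A' c b)) (avg φ A - avg φ A')
      rw [GG, GG, nm_elim, sub_sub_sub_comm] at h1
      rw [le_div_iff₀ (split_pos φ hc), slot, slot, if_pos hc, if_pos hc', mul_comm, GG, GG]
      nlinarith
    · rw [slot, slot, if_neg hc, if_neg fun h' => hc ((hs c hb).2 h')]
      simp [nm]
  rw [nm_next]
  calc _ ≤ ∑ c, ∑ _b : Bool, ((if c ∈ split φ A then (3 + L + K) * E / (split φ A).card else 0) +
        if c ∈ bad φ σ A then 2 * (1 + K) else 0) :=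
        sum_le_sum fun c _ => sum_le_sum fun b _ => key c b
    _ = 2 * ((split φ A).card * ((3 + L + K) * E / (split φ A).card) +
        (bad φ σ A).card * (2 * (1 + K))) := by
        simp [sum_add_distrib, mul_add]
        ring
    _ ≤ _ := by
        have : ((split φ A).card : ℝ) * ((3 + L + K) * E / (split φ A).card) ≤ (3 + L + K) * E := by
          rcases eq_or_ne ((split φ A).card : ℝ) 0 with h0 | h0
          · rw [h0, zero_mul]; positivity
          · rw [mul_div_cancel₀ _ h0]
        nlinarith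

theorem next_low {n : ℕ} {K L R : ℝ} (hK : 0 ≤ K) (hR : 0 ≤ R) (hg : Good φ n K L R sh)
    (A A' : Finset M) (h : A.card = A'.card) (hn : A.card ≤ n + 2) :
    ∃ σ : M → M, Set.BijOn σ A A' ∧ (cost φ σ A : ℝ) ≤
      (3 * (n + 2) ^ 2 + 2 * R * (3 + (1 + K) * (n + 2))) *
        (nm (avg φ A - avg φ A') + nm (next φ sh A - next φ sh A')) := by
  have ha := nm_nonneg (avg φ A - avg φ A')
  have hb := nm_nonneg (next φ sh A - next φ sh A')
  set δ := nm (avg φ A - avg φ A') + nm (next φ sh A - next φ sh A') with hδ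
  have hδ0 : 0 ≤ δ := by linarith
  have hs : (A.card : ℝ) ≤ n + 2 := by exact_mod_cast hn
  have hn0 : (0 : ℝ) ≤ n := Nat.cast_nonneg _
  have hd : ((diff φ A A').card : ℝ) ≤ (n + 2) * δ := (diff_card φ h).trans
    (mul_le_mul hs (by linarith) ha (by linarith))
  by_cases hc : ((split φ A).card : ℝ) ≤ 2 * (n + 2) * δ
  · obtain ⟨σ, hσ⟩ := exists_bij h
    refine ⟨σ, hσ, ?_⟩
    have h3 : (cost φ σ A : ℝ) ≤ A.card * ((split φ A).card + (diff φ A A').card) := by
      exact_mod_cast cost_any φ hσ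
    have h4 : (A.card : ℝ) * ((split φ A).card + (diff φ A A').card) ≤
        (n + 2) * (3 * (n + 2) * δ) :=
      mul_le_mul hs (by linarith) (by positivity) (by linarith)
    have : 0 ≤ 2 * R * (3 + (1 + K) * (n + 2)) * δ := by positivity
    nlinarith
  push Not at hc
  set D : ℝ := (((split φ A).card : ℕ) : ℝ) with hD
  have hG : D / 2 ≤ (split φ A \ diff φ A A').card := by
    have : D ≤ (split φ A \ diff φ A A').card + (diff φ A A').card := by
      rw [hD]; exact_mod_cast card_le_card_sdiff_add_card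
    linarith
  have hD0 : 0 < D := lt_of_le_of_lt (by positivity) hc
  obtain ⟨c, hc1, hc2⟩ : ∃ c ∈ split φ A \ diff φ A A',
      ∑ b, nm (slot φ sh A c b - slot φ sh A' c b) ≤ 2 * δ / D := by
    refine exists_le_of_sum_le (card_pos.1 (by exact_mod_cast (half_pos hD0).trans_le hG)) ?_
    rw [sum_const, nsmul_eq_mul]
    calc _ ≤ nm (next φ sh A - next φ sh A') := by
          rw [nm_next]
          exact sum_le_sum_of_subset_of_nonneg (subset_univ _) fun c _ _ =>
            sum_nonneg fun b _ => nm_nonneg _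
      _ ≤ D / 2 * (2 * δ / D) := by
          rw [show D / 2 * (2 * δ / D) = δ by field_simp]
          linarith
      _ ≤ _ := mul_le_mul_of_nonneg_right hG (by positivity)
  obtain ⟨hc3, hc4⟩ := mem_sdiff.1 hc1
  have hc5 := (split_iff φ (not_diff φ h hc4)).1 hc3
  have hDD := (card_close fun c hc => split_iff φ (not_diff φ h hc)).trans hd
  have key : ∀ b, ∃ σ : M → M, Set.BijOn σ (part φ A c b) (part φ A' c b) ∧
      (cost φ σ (part φ A c b) : ℝ) ≤ R * (3 + (1 + K) * (n + 2)) * δ := by
    intro b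
    have h1 := part_card φ A c
    have h2 := ((mem_filter.1 hc3).2 true).card_pos
    have h3 := ((mem_filter.1 hc3).2 false).card_pos
    obtain ⟨σ, hσ, h4⟩ := hg.2.2 _ _ (not_diff φ h hc4 b) (by cases b <;> omega)
    refine ⟨σ, hσ, h4.trans ?_⟩
    rw [mul_assoc]
    refine mul_le_mul_of_nonneg_left ?_ hR
    have h5 := (nm_key (GG φ sh A c b) (GG φ sh A' c b) _ _ _ hD0 (split_pos φ hc5)
      (nm_GG φ sh hK hg.1 hc5 b)).2
    have h6 : nm (slot φ sh A c b - slot φ sh A' c b) ≤ 2 * δ / D :=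
      (single_le_sum (f := fun b => nm (slot φ sh A c b - slot φ sh A' c b))
        (fun _ _ => nm_nonneg _) (mem_univ b)).trans hc2
    rw [slot, slot, if_pos hc3, if_pos hc5, le_div_iff₀ hD0] at h6
    have h7 := nm_add ((avg φ (part φ A c b) - avg φ A) - (avg φ (part φ A' c b) - avg φ A'))
      (avg φ A - avg φ A')
    rw [show (avg φ (part φ A c b) - avg φ A) - (avg φ (part φ A' c b) - avg φ A') +
      (avg φ A - avg φ A') = avg φ (part φ A c b) - avg φ (part φ A' c b) by abel] at h7
    have h8 := nm_elim (avg φ (part φ A c b) - avg φ A) (avg φ (part φ A' c b) - avg φ A')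
      (sh (part φ A c b)) (sh (part φ A' c b))
    have h9 : (1 + K) * |D - (split φ A').card| ≤ (1 + K) * ((n + 2) * δ) :=
      mul_le_mul_of_nonneg_left hDD (by linarith)
    unfold GG at h5 h6
    nlinarith
  choose σ hσ hc using key
  obtain ⟨h1, h2⟩ := glue φ c σ hσ
  refine ⟨_, h1, ?_⟩
  rw [h2, Nat.cast_sum, Fintype.sum_bool]
  have : (0 : ℝ) ≤ 3 * (n + 2) ^ 2 * δ := by positivity
  nlinarith [hc true, hc false]

end step

end cube

theorem exists_good (n : ℕ) : ∃ K L R : ℝ, 0 ≤ K ∧ 0 ≤ L ∧ 0 < R ∧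
    ∀ (M C : Type) [DecidableEq M] [Fintype C] [DecidableEq C] (φ : M → C → Bool),
      ∃ (J : Type) (_ : Fintype J) (sh : Finset M → J → ℝ), Good φ n K L R sh := by
  induction n with
  | zero => exact ⟨0, 0, 1, le_rfl, le_rfl, one_pos, fun M C _ _ _ φ => ⟨_, _, _, good_zero φ⟩⟩
  | succ n ih =>
    obtain ⟨K, L, R, hK, hL, hR, h⟩ := ih
    refine ⟨2 * (1 + K), 2 * (3 + L + K) + 4 * (1 + K),
      3 * (n + 2) ^ 2 + 2 * R * (3 + (1 + K) * (n + 2)), by positivity, by positivity,
      by positivity, fun M C _ _ _ φ => ?_⟩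
    obtain ⟨J, _, sh, hg⟩ := h M C φ
    exact ⟨_, _, next φ sh, next_norm φ sh hK hg.1, next_up φ sh hK hL hg.1 hg.2.1,
      next_low φ sh hK hR.le hg⟩

end Pool.Agent.H54.Emd
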