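import Pool.Agent.H54.Emd

set_option autoImplicit false

namespace Pool.Agent.H54.Emd

open Finset

/-- signed sum -/
def sg {d : ℕ} (v : Fin d → ℝ) (e : Fin d → Bool) : ℝ := ∑ i, if e i then v i else -v i

theorem moments (d : ℕ) (v : Fin d → ℝ) :
    ∑ e, sg v e ^ 2 = 2 ^ d * ∑ i, v i ^ 2 ∧ ∑ e, sg v e ^ 4 ≤ 3 * 2 ^ d * (∑ i, v i ^ 2) ^ 2 := by
  induction d with
  | zero => simp [sg]
  | succ d ih =>
    obtain ⟨h1, h2⟩ := ih (fun i => v i.succ)
    have e : ∀ F : ℝ → ℝ, ∑ e, F (sg v e) = ∑ e : Fin d → Bool,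
        (F (v 0 + sg (fun i => v i.succ) e) + F (-v 0 + sg (fun i => v i.succ) e)) := by
      intro F
      rw [← (Fin.consEquiv fun _ => Bool).sum_comp, Fintype.sum_prod_type, Fintype.sum_bool,
        sum_add_distrib]
      simp [sg, Fin.consEquiv, Fin.sum_univ_succ]
    rw [e (· ^ 2), e (· ^ 4), Fin.sum_univ_succ]
    set w := sg fun i => v i.succ
    set q := ∑ i : Fin d, v i.succ ^ 2
    have hq : 0 ≤ q := sum_nonneg fun _ _ => sq_nonneg _
    have hc : ∑ _e : Fin d → Bool, (1 : ℝ) = 2 ^ d := by simp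
    constructor
    · have : ∀ e, (v 0 + w e) ^ 2 + (-v 0 + w e) ^ 2 = 2 * v 0 ^ 2 * 1 + 2 * w e ^ 2 :=
        fun e => by ring
      simp only [this, sum_add_distrib, ← mul_sum, hc, h1]
      ring
    · have : ∀ e, (v 0 + w e) ^ 4 + (-v 0 + w e) ^ 4 =
          2 * v 0 ^ 4 * 1 + 12 * v 0 ^ 2 * w e ^ 2 + 2 * w e ^ 4 := fun e => by ring
      simp only [this, sum_add_distrib, ← mul_sum, hc, h1]
      have : (0 : ℝ) ≤ 2 ^ d * v 0 ^ 4 := by positivity
      rw [pow_succ 2 d]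
      nlinarith

theorem khin (d : ℕ) (v : Fin d → ℝ) :
    2 ^ d / 2 * √(∑ i, v i ^ 2) ≤ ∑ e, |sg v e| ∧
      ∑ e, |sg v e| ≤ 2 * (2 ^ d / 2) * √(∑ i, v i ^ 2) := by
  obtain ⟨h1, h2⟩ := moments d v
  have hq : 0 ≤ ∑ i, v i ^ 2 := sum_nonneg fun _ _ => sq_nonneg _
  set r := √(∑ i, v i ^ 2) with hr
  rw [← Real.sq_sqrt hq, ← hr] at h1 h2
  have hc : ∑ _e : Fin d → Bool, (1 : ℝ) = 2 ^ d := by simp
  have hr0 : 0 ≤ r := Real.sqrt_nonneg _
  rcases hr0.eq_or_lt with h0 | h0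
  · rw [← h0] at h1 ⊢
    have : ∀ e ∈ univ, sg v e ^ 2 = 0 :=
      (sum_eq_zero_iff_of_nonneg fun _ _ => sq_nonneg _).1 (by simpa using h1)
    have : ∀ e, sg v e = 0 := fun e => by simpa using this e (mem_univ _)
    simp [this]
  constructor
  · have key : ∀ e, r ^ 2 * sg v e ^ 2 - 1 / 6 * sg v e ^ 4 ≤ r ^ 3 * |sg v e| := by
      intro e
      have hu := abs_nonneg (sg v e)
      rw [← sq_abs (sg v e), show sg v e ^ 4 = |sg v e| ^ 4 by rw [← abs_pow, abs_of_nonneg (by positivity)]]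
      set u := |sg v e|
      have : 0 ≤ r ^ 3 - r ^ 2 * u + 1 / 6 * u ^ 3 := by
        nlinarith [mul_nonneg hu (sq_nonneg (2 * u - 3 * r)), mul_nonneg h0.le (sq_nonneg (2 * u - 3 * r)),
          mul_pos h0 (mul_pos h0 h0), mul_nonneg hu (mul_pos h0 h0).le]
      nlinarith [mul_nonneg hu this]
    have := sum_le_sum fun e (_ : e ∈ univ) => key e
    rw [sum_sub_distrib, ← mul_sum, ← mul_sum, ← mul_sum, h1] at this
    refine le_of_mul_le_mul_left ?_ (pow_pos h0 3)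
    nlinarith
  · have key : ∀ e, 2 * r * |sg v e| ≤ sg v e ^ 2 + r ^ 2 * 1 := fun e => by
      nlinarith [sq_nonneg (|sg v e| - r), sq_abs (sg v e)]
    have := sum_le_sum fun e (_ : e ∈ univ) => key e
    rw [sum_add_distrib, ← mul_sum, ← mul_sum, h1, hc] at this
    refine le_of_mul_le_mul_left ?_ (mul_pos two_pos h0)
    nlinarith

theorem cut_count (B a b : ℕ) (ha : a ≤ B) (hb : b ≤ B) :
    ((univ.filter fun t : Fin B => decide (t.val < a) ≠ decide (t.val < b)).card : ℝ) =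
      |(a : ℝ) - b| := by
  wlog h : a ≤ b generalizing a b
  · rw [abs_sub_comm, ← this b a hb ha (by omega)]
    simp only [ne_comm]
  have : (univ.filter fun t : Fin B => decide (t.val < a) ≠ decide (t.val < b)).card =
      (Ico a b).card := by
    refine card_bij (fun t _ => t.val) (fun t ht => ?_) (fun _ _ _ _ e => Fin.ext e) fun y hy => ?_
    · simp only [mem_filter, mem_univ, true_and, ne_eq, decide_eq_decide] at ht
      rw [mem_Ico]
      omega
    · rw [mem_Ico] at hy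
      refine ⟨⟨y, by omega⟩, ?_, rfl⟩
      simp only [mem_filter, mem_univ, true_and, ne_eq, decide_eq_decide]
      omega
  rw [this, Nat.card_Ico, Nat.cast_sub h, abs_sub_comm, abs_of_nonneg]
  exact sub_nonneg.2 (by exact_mod_cast h)

theorem exists_cuts {M I : Type} [Fintype I] [DecidableEq I] (B : ℕ) (g : I → M → ℕ)
    (hg : ∀ i x, g i x ≤ B) : ∃ φ : M → I × Fin B → Bool,
      ∀ x y, (hammingDist (φ x) (φ y) : ℝ) = ∑ i, |(g i x : ℝ) - g i y| := by
  refine ⟨fun x p => decide (p.2.val < g p.1 x), fun x y => ?_⟩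
  simp only [← cut_count B _ _ (hg _ x) (hg _ y), hammingDist, card_filter, Fintype.sum_prod_type,
    Nat.cast_sum]

theorem grid_cuts (Δ d : ℕ) (ρ : (Fin d → Fin Δ) → (Fin d → Fin Δ) → ℝ)
    (h : (ρ = fun x y => ∑ i, |((x i).val : ℝ) - (y i).val|) ∨
      ρ = fun x y => √(∑ i, (((x i).val : ℝ) - (y i).val) ^ 2)) :
    ∃ (C : Type) (_ : Fintype C) (_ : DecidableEq C) (φ : (Fin d → Fin Δ) → C → Bool) (a : ℝ),
      0 < a ∧ ∀ x y, a * ρ x y ≤ hammingDist (φ x) (φ y) ∧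
        hammingDist (φ x) (φ y) ≤ 2 * a * ρ x y := by
  rcases h with rfl | rfl
  · obtain ⟨φ, h⟩ := exists_cuts Δ (fun (i : Fin d) (x : Fin d → Fin Δ) => (x i).val)
      fun i x => (x i).2.le
    refine ⟨_, inferInstance, inferInstance, φ, 1, one_pos, fun x y => ?_⟩
    have : (0 : ℝ) ≤ hammingDist (φ x) (φ y) := Nat.cast_nonneg _
    rw [h] at this ⊢
    constructor <;> linarith
  · obtain ⟨φ, h⟩ := exists_cuts (d * Δ) (fun (e : Fin d → Bool) (x : Fin d → Fin Δ) =>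
      ∑ i, if e i then (x i).val else Δ - (x i).val) fun e x => by
        refine (sum_le_card_nsmul _ _ Δ fun i _ => ?_).trans (by simp)
        have := (x i).2
        split_ifs <;> omega
    refine ⟨_, inferInstance, inferInstance, φ, 2 ^ d / 2, by positivity, fun x y => ?_⟩
    have : ∀ e : Fin d → Bool, ((∑ i, if e i then (x i).val else Δ - (x i).val : ℕ) : ℝ) -
        (∑ i, if e i then (y i).val else Δ - (y i).val : ℕ) =
        sg (fun i => ((x i).val : ℝ) - (y i).val) e := by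
      intro e
      rw [Nat.cast_sum, Nat.cast_sum, ← sum_sub_distrib]
      refine sum_congr rfl fun i _ => ?_
      split_ifs
      · rfl
      · rw [Nat.cast_sub (x i).2.le, Nat.cast_sub (y i).2.le]
        ring
    simp only [h, this]
    exact khin d _

section W
variable {M : Type} [Fintype M] [DecidableEq M] (ρ : M → M → ℝ)

/-- costs of couplings of the uniform measures on `S` and `T` -/
def costs (s : ℕ) (S T : Finset M) : Set ℝ :=
  {c | ∃ π : M → M → ℝ, (∀ x y, 0 ≤ π x y) ∧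
    (∀ x, ∑ y, π x y = if x ∈ S then 1 / (s : ℝ) else 0) ∧
    (∀ y, ∑ x, π x y = if y ∈ T then 1 / (s : ℝ) else 0) ∧ c = ∑ x, ∑ y, π x y * ρ x y}

theorem mem_costs (s : ℕ) {S T : Finset M} {σ : M → M} (h : Set.BijOn σ S T) :
    1 / (s : ℝ) * ∑ a ∈ S, ρ a (σ a) ∈ costs ρ s S T := by
  refine ⟨fun x y => if x ∈ S ∧ σ x = y then 1 / (s : ℝ) else 0, fun x y => ?_, fun x => ?_,
    fun y => ?_, ?_⟩
  · beta_reduce
    split_ifs <;> positivity
  · by_cases hx : x ∈ S <;> simp [hx]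
  · beta_reduce
    split_ifs with hy
    · obtain ⟨a, ha, rfl⟩ := h.surjOn hy
      rw [sum_eq_single a, if_pos ⟨ha, rfl⟩]
      · exact fun b _ hb => if_neg fun e => hb (h.injOn e.1 ha e.2)
      · simp
    · exact sum_eq_zero fun x _ => if_neg fun ⟨e1, e2⟩ => hy (e2 ▸ h.mapsTo e1)
  · rw [mul_sum, ← sum_subset (subset_univ S)]
    · exact sum_congr rfl fun x hx => by simp [hx]
    · exact fun x _ hx => by simp [hx]

theorem of_costs {s : ℕ} (hs : 0 < s) {S T : Finset M} (hS : S.card = s) (hT : T.card = s) {c : ℝ}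
    (hc : c ∈ costs ρ s S T) : ∃ σ : M → M, Set.BijOn σ S T ∧ ∑ a ∈ S, ρ a (σ a) ≤ s * c := by
  obtain ⟨π, h0, h1, h2, rfl⟩ := hc
  have hs' : (s : ℝ) ≠ 0 := by positivity
  let e : S ≃ T := Finset.equivOfCardEq (hS.trans hT.symm)
  have z1 : ∀ x ∉ S, ∀ y, π x y = 0 := fun x hx y =>
    (sum_eq_zero_iff_of_nonneg fun _ _ => h0 _ _).1 ((h1 x).trans (if_neg hx)) y (mem_univ _)
  have z2 : ∀ y ∉ T, ∀ x, π x y = 0 := fun y hy x =>
    (sum_eq_zero_iff_of_nonneg fun _ _ => h0 _ _).1 ((h2 y).trans (if_neg hy)) x (mem_univ _)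
  have sT : ∀ f : M → ℝ, (∀ y ∉ T, f y = 0) → ∑ y, f y = ∑ j : S, f (e j) := fun f hf => by
    rw [← sum_subset (subset_univ T) fun y _ hy => hf y hy, ← sum_coe_sort T, ← e.sum_comp]
  have sS : ∀ f : M → ℝ, (∀ y ∉ S, f y = 0) → ∑ y, f y = ∑ j : S, f j := fun f hf => by
    rw [← sum_subset (subset_univ S) fun y _ hy => hf y hy, ← sum_coe_sort S]
  let P : Matrix S S ℝ := fun i j => s * π i (e j)
  have hP : P ∈ doublyStochastic ℝ S := by
    refine mem_doublyStochastic_iff_sum.2 ⟨fun i j => mul_nonneg (by positivity) (h0 _ _),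
      fun i => ?_, fun j => ?_⟩
    · simp only [P, ← mul_sum]
      rw [← sT (π i) fun y hy => z2 y hy _, h1, if_pos i.2, mul_one_div_cancel hs']
    · simp only [P, ← mul_sum]
      rw [← sS (fun x => π x (e j)) fun y hy => z1 y hy _, h2, if_pos (e j).2, mul_one_div_cancel hs']
  obtain ⟨w, hw0, hw1, hw2⟩ := exists_eq_sum_perm_of_mem_doublyStochastic hP
  have e1 : s * ∑ x, ∑ y, π x y * ρ x y = ∑ τ, w τ * ∑ i : S, ρ i (e (τ i)) := by
    rw [sS _ fun x hx => by simp [z1 x hx], mul_sum]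
    have : ∀ i : S, s * ∑ y, π i y * ρ i y = ∑ τ, w τ * ρ i (e (τ i)) := by
      intro i
      rw [sT _ fun y hy => by simp [z2 y hy], mul_sum]
      have : ∀ j : S, s * (π i (e j) * ρ i (e j)) =
          ∑ τ : Equiv.Perm S, w τ * if τ i = j then ρ i (e j) else 0 := by
        intro j
        have := congrFun (congrFun hw2 i) j
        rw [← mul_assoc, show s * π i (e j) = P i j from rfl, ← this, Matrix.sum_apply, sum_mul]
        refine sum_congr rfl fun τ _ => ?_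
        simp [Equiv.toPEquiv_apply, PEquiv.toMatrix_apply]
      simp only [this]
      rw [sum_comm]
      simp
    simp only [this]
    rw [sum_comm]
    simp only [mul_sum]
  obtain ⟨τ, -, hτ⟩ := exists_min_image univ (fun τ : Equiv.Perm S => ∑ i : S, ρ i (e (τ i)))
    univ_nonempty
  refine ⟨fun a => if h : a ∈ S then e (τ ⟨a, h⟩) else a, ⟨fun a ha => ?_, fun a ha a' ha' h => ?_,
    fun y hy => ?_⟩, ?_⟩
  · simp only [dif_pos (mem_coe.1 ha)]
    exact (e _).2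
  · simp only [dif_pos (mem_coe.1 ha), dif_pos (mem_coe.1 ha')] at h
    exact congrArg Subtype.val (τ.injective (e.injective (Subtype.ext h)))
  · refine ⟨τ.symm (e.symm ⟨y, hy⟩), (τ.symm _).2, ?_⟩
    simp
  · rw [e1, ← sum_coe_sort S]
    simp only [coe_mem, dif_pos, Subtype.coe_eta]
    calc _ = ∑ τ', w τ' * ∑ i : S, ρ i (e (τ i)) := by rw [← sum_mul, hw1, one_mul]
      _ ≤ _ := sum_le_sum fun τ' _ => mul_le_mul_of_nonneg_left (hτ τ' (mem_univ _)) (hw0 _)

end W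

theorem main (s : ℕ) : ∃ f : ℝ, ∀ (M C : Type) [Fintype M] [DecidableEq M] [Fintype C]
    [DecidableEq C] (φ : M → C → Bool) (ρ : M → M → ℝ) (a : ℝ), 0 < s → 0 < a →
    (∀ x y, a * ρ x y ≤ hammingDist (φ x) (φ y) ∧ hammingDist (φ x) (φ y) ≤ 2 * a * ρ x y) →
    ∃ (n : ℕ) (F : Finset M → Fin n → ℝ) (r : ℝ), 0 < r ∧ ∀ S T : Finset M, S.card = s →
      T.card = s → r * sInf (costs ρ s S T) ≤ ∑ j, |F S j - F T j| ∧
        ∑ j, |F S j - F T j| ≤ f * r * sInf (costs ρ s S T) := by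
  obtain ⟨K, L, R, hK, hL, hR, h⟩ := exists_good s
  refine ⟨2 * (1 + L) * R, fun M C _ _ _ _ φ ρ a hs ha hρ => ?_⟩
  obtain ⟨J, _, sh, hg⟩ := h M C φ
  have hs' : (0 : ℝ) < s := by exact_mod_cast hs
  let e := (Fintype.equivFin (C ⊕ J)).symm
  refine ⟨_, fun S j => Sum.elim (avg φ S) (sh S) (e j), a * s / R, by positivity,
    fun S T hS hT => ?_⟩
  have e1 : ∑ j, |Sum.elim (avg φ S) (sh S) (e j) - Sum.elim (avg φ T) (sh T) (e j)| =
      nm (avg φ S - avg φ T) + nm (sh S - sh T) := by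
    rw [← nm_elim]
    exact e.sum_comp fun j => |Sum.elim (avg φ S) (sh S) j - Sum.elim (avg φ T) (sh T) j|
  rw [e1]
  have up : ∀ c ∈ costs ρ s S T,
      (nm (avg φ S - avg φ T) + nm (sh S - sh T)) / (2 * (1 + L) * a * s) ≤ c := by
    intro c hc
    obtain ⟨σ, hσ, h1⟩ := of_costs ρ hs hS hT hc
    have h2 := nm_avg_le φ hσ
    have h3 := hg.2.1 _ _ σ hσ
    have h4 : (cost φ σ S : ℝ) ≤ 2 * a * ∑ x ∈ S, ρ x (σ x) := by
      rw [cost, Nat.cast_sum, mul_sum]
      exact sum_le_sum fun x _ => (hρ _ _).2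
    have h5 : (cost φ σ S : ℝ) ≤ 2 * a * (s * c) :=
      h4.trans (mul_le_mul_of_nonneg_left h1 (by positivity))
    rw [div_le_iff₀ (by positivity)]
    nlinarith
  obtain ⟨σ, hσ, h1⟩ := hg.2.2 S T (hS.trans hT.symm) (by omega)
  have hm := mem_costs ρ s hσ
  constructor
  · have h2 := csInf_le ⟨_, up⟩ hm
    have h3 : a * ∑ x ∈ S, ρ x (σ x) ≤ cost φ σ S := by
      rw [cost, Nat.cast_sum, mul_sum]
      exact sum_le_sum fun x _ => (hρ _ _).1
    rw [div_mul_eq_mul_div, div_le_iff₀ hR]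
    calc _ ≤ a * s * (1 / (s : ℝ) * ∑ x ∈ S, ρ x (σ x)) :=
          mul_le_mul_of_nonneg_left h2 (by positivity)
      _ = a * ∑ x ∈ S, ρ x (σ x) := by field_simp
      _ ≤ _ := by linarith
  · have h2 := le_csInf ⟨_, hm⟩ up
    rw [div_le_iff₀ (by positivity)] at h2
    refine h2.trans (le_of_eq ?_)
    field_simp

end Pool.Agent.H54.Emd
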