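import Mathlib

set_option autoImplicit false

namespace Pool.Agent.H54.Euler

open Finset

/-- one-line word of a permutation -/
def w {n : ℕ} (σ : Equiv.Perm (Fin n)) (j : ℕ) : ℕ := if h : j < n then (σ ⟨j, h⟩ : ℕ) else 0

/-- number of descents -/
def des {n : ℕ} (σ : Equiv.Perm (Fin n)) : ℕ :=
  ∑ j ∈ range (n - 1), if w σ (j + 1) < w σ j then 1 else 0

lemma des_eq {n : ℕ} (σ : Equiv.Perm (Fin n)) :
    ((univ : Finset (Fin n × Fin n)).filter
      (fun p => p.2.val = p.1.val + 1 ∧ σ p.2 < σ p.1)).card = des σ := by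
  unfold des
  rw [← card_filter]
  apply card_bij (fun p _ => p.1.val)
  · intro p hp
    obtain ⟨h1, h2⟩ := (mem_filter.mp hp).2
    have h3 := p.2.2
    refine mem_filter.mpr ⟨mem_range.mpr (by omega), ?_⟩
    unfold w
    rw [dif_pos (by omega), dif_pos p.1.2]
    have : (⟨p.1.val + 1, by omega⟩ : Fin n) = p.2 := Fin.ext h1.symm
    rw [this]
    exact h2
  · intro p hp q hq h
    obtain ⟨h1, _⟩ := (mem_filter.mp hp).2
    obtain ⟨h2, _⟩ := (mem_filter.mp hq).2
    exact Prod.ext (Fin.ext h) (Fin.ext (by omega))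
  · intro j hj
    obtain ⟨h1, h2⟩ := mem_filter.mp hj
    have h3 := mem_range.mp h1
    refine ⟨(⟨j, by omega⟩, ⟨j + 1, by omega⟩), mem_filter.mpr ⟨mem_univ _, rfl, ?_⟩, rfl⟩
    unfold w at h2
    rw [dif_pos (by omega), dif_pos (by omega)] at h2
    exact h2

/-- insert the largest value at position p -/
def ins {n : ℕ} (p : Fin (n + 1)) (σ : Equiv.Perm (Fin n)) : Equiv.Perm (Fin (n + 1)) :=
  (finSuccEquiv' p).trans ((Equiv.optionCongr σ).trans finSuccEquivLast.symm)

lemma ins_at {n : ℕ} (p : Fin (n + 1)) (σ : Equiv.Perm (Fin n)) : ins p σ p = Fin.last n := by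
  simp [ins]

lemma ins_succAbove {n : ℕ} (p : Fin (n + 1)) (σ : Equiv.Perm (Fin n)) (i : Fin n) :
    ins p σ (p.succAbove i) = (σ i).castSucc := by
  simp [ins]

lemma ins_bij (n : ℕ) : Function.Bijective
    (fun x : Fin (n + 1) × Equiv.Perm (Fin n) => ins x.1 x.2) := by
  rw [Fintype.bijective_iff_injective_and_card]
  refine ⟨?_, by simp [Fintype.card_perm, Nat.factorial_succ]⟩
  rintro ⟨p, σ⟩ ⟨q, τ⟩ h
  simp only at h
  have hpq : p = q := by
    apply (ins p σ).injective
    rw [ins_at, h, ins_at]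
  subst hpq
  refine Prod.ext rfl (Equiv.ext (fun i => ?_))
  have h1 := ins_succAbove p σ i
  rw [h, ins_succAbove] at h1
  exact (Fin.castSucc_injective _ h1).symm

lemma w_lt {n : ℕ} (σ : Equiv.Perm (Fin n)) (j : ℕ) (hj : j < n) : w σ j < n := by
  unfold w; rw [dif_pos hj]; exact (σ _).2

lemma w_ins {n : ℕ} (p : Fin (n + 1)) (σ : Equiv.Perm (Fin n)) (j : ℕ) (hj : j ≤ n) :
    w (ins p σ) j = if j < p then w σ j else if j = p then n else w σ (j - 1) := by
  have hp := p.2
  unfold w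
  rw [dif_pos (by omega)]
  split_ifs with h1 h2 h3 h4
  · have : (⟨j, by omega⟩ : Fin (n + 1)) = p.succAbove ⟨j, h2⟩ := by
      rw [Fin.succAbove_of_castSucc_lt _ _ (by exact h1)]; rfl
    rw [this, ins_succAbove]; rfl
  · omega
  · have : (⟨j, by omega⟩ : Fin (n + 1)) = p := Fin.ext h3
    rw [this, ins_at]; rfl
  · have : (⟨j, by omega⟩ : Fin (n + 1)) = p.succAbove ⟨j - 1, h4⟩ := by
      rw [Fin.succAbove_of_le_castSucc _ _ (by
        rw [Fin.le_def]; simp only [Fin.val_castSucc]; omega)]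
      apply Fin.ext
      simp only [Fin.val_succ]; omega
    rw [this, ins_succAbove]; rfl
  · omega

lemma des_ins {n : ℕ} (p : Fin (n + 1)) (σ : Equiv.Perm (Fin n)) :
    des (ins p σ) = if (p : ℕ) = n ∨ (1 ≤ (p : ℕ) ∧ w σ p < w σ (p - 1)) then des σ
      else des σ + 1 := by
  have hp := p.2
  set d : ℕ → ℕ := fun j => if w σ (j + 1) < w σ j then 1 else 0 with hd
  set d' : ℕ → ℕ := fun j => if w (ins p σ) (j + 1) < w (ins p σ) j then 1 else 0 with hd'
  have e0 : des σ = ∑ j ∈ range (n - 1), d j := rfl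
  have e1 : des (ins p σ) = ∑ j ∈ range n, d' j := rfl
  have h1 : ∀ j : ℕ, j + 1 < (p : ℕ) → d' j = d j := by
    intro j hj
    simp only [hd, hd']
    rw [w_ins p σ (j + 1) (by omega), w_ins p σ j (by omega), if_pos hj,
      if_pos (show j < p by omega)]
  have h2 : ∀ j : ℕ, j + 1 = (p : ℕ) → d' j = 0 := by
    intro j hj
    simp only [hd']
    rw [w_ins p σ (j + 1) (by omega), w_ins p σ j (by omega), if_neg (show ¬ j + 1 < p by omega),
      if_pos hj, if_pos (show j < p by omega), if_neg]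
    have := w_lt σ j (by omega)
    omega
  have h3 : (p : ℕ) < n → d' p = 1 := by
    intro hj
    simp only [hd']
    rw [w_ins p σ (p + 1) (by omega), w_ins p σ p (by omega),
      if_neg (show ¬ (p : ℕ) + 1 < p by omega), if_neg (show ¬ (p : ℕ) + 1 = p by omega),
      if_neg (lt_irrefl _), if_pos rfl, if_pos]
    exact w_lt σ _ (by omega)
  have h4 : ∀ j, (p : ℕ) ≤ j → j + 2 ≤ n → d' (j + 1) = d j := by
    intro j hj hj2
    simp only [hd, hd']
    rw [w_ins p σ (j + 1 + 1) (by omega), w_ins p σ (j + 1) (by omega),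
      if_neg (show ¬ j + 1 + 1 < p by omega), if_neg (show ¬ j + 1 + 1 = p by omega),
      if_neg (show ¬ j + 1 < p by omega), if_neg (show ¬ j + 1 = p by omega)]
    rfl
  rw [e0, e1]
  rcases Nat.eq_zero_or_pos (p : ℕ) with h0 | h0
  · rcases Nat.eq_zero_or_pos n with hn | hn
    · rw [if_pos (Or.inl (by omega))]
      subst hn; simp
    · rw [if_neg (by omega)]
      obtain ⟨m, rfl⟩ : ∃ m, n = m + 1 := ⟨n - 1, by omega⟩
      rw [sum_range_succ', Nat.add_sub_cancel]
      have := h3 (by omega)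
      rw [h0] at this
      rw [this]
      congr 1
      exact sum_congr rfl (fun j hj => h4 j (by omega) (by have := mem_range.mp hj; omega))
  · obtain ⟨q, hq⟩ : ∃ q, (p : ℕ) = q + 1 := ⟨p - 1, by omega⟩
    rcases eq_or_ne (p : ℕ) n with hn | hn
    · rw [if_pos (Or.inl hn)]
      have : n = q + 1 := by omega
      rw [show range n = range (q + 1) by rw [this], show n - 1 = q by omega, sum_range_succ,
        h2 q hq.symm, add_zero]
      exact sum_congr rfl (fun j hj => h1 j (by have := mem_range.mp hj; omega))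
    · obtain ⟨r, hr⟩ : ∃ r, n = q + 2 + r := ⟨n - (q + 2), by omega⟩
      have a1 : ∑ j ∈ range n, d' j = ∑ j ∈ range q, d j + 1 + ∑ j ∈ range r, d (q + 1 + j) := by
        rw [show range n = range (q + 2 + r) by rw [hr], sum_range_add, sum_range_succ,
          sum_range_succ, h2 q hq.symm, ← hq, h3 (by omega), add_zero]
        congr 1
        · congr 1
          exact sum_congr rfl (fun j hj => h1 j (by have := mem_range.mp hj; omega))
        · refine sum_congr rfl (fun j hj => ?_)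
          rw [show q + 2 + j = p + j + 1 by omega]
          exact h4 _ (by omega) (by have := mem_range.mp hj; omega)
      have a2 : ∑ j ∈ range (n - 1), d j
          = ∑ j ∈ range q, d j + d q + ∑ j ∈ range r, d (q + 1 + j) := by
        rw [show n - 1 = q + 1 + r by omega, sum_range_add, sum_range_succ]
      rw [a1, a2]
      have a3 : d q = if w σ p < w σ (p - 1) then 1 else 0 := by
        simp only [hd, hq, Nat.add_sub_cancel]
      rw [a3]
      by_cases hc : w σ p < w σ (p - 1)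
      · rw [if_pos (Or.inr ⟨by omega, hc⟩), if_pos hc]
      · rw [if_neg (by omega), if_neg hc]; ring

lemma sum_ins {n : ℕ} (σ : Equiv.Perm (Fin n)) (f : ℕ → ℝ) :
    ∑ p : Fin (n + 1), f (des (ins p σ))
      = (des σ + 1) * f (des σ) + (n - des σ) * f (des σ + 1) := by
  simp only [des_ins]
  rw [Fin.sum_univ_eq_sum_range (fun p : ℕ => f (if p = n ∨ (1 ≤ p ∧ w σ p < w σ (p - 1))
    then des σ else des σ + 1)) (n + 1), sum_range_succ, if_pos (Or.inl rfl)]
  rcases Nat.eq_zero_or_pos n with hn | hn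
  · subst hn
    simp [des]
  obtain ⟨m, rfl⟩ : ∃ m, n = m + 1 := ⟨n - 1, by omega⟩
  rw [sum_range_succ', if_neg (by omega)]
  have h1 : ∀ j ∈ range m, f (if j + 1 = m + 1 ∨ (1 ≤ j + 1 ∧ w σ (j + 1) < w σ (j + 1 - 1))
      then des σ else des σ + 1) = f (des σ + 1) +
        ((if w σ (j + 1) < w σ j then 1 else 0 : ℕ) : ℝ) * (f (des σ) - f (des σ + 1)) := by
    intro j hj
    have := mem_range.mp hj
    rw [Nat.add_sub_cancel]
    by_cases hc : w σ (j + 1) < w σ j
    · rw [if_pos (Or.inr ⟨by omega, hc⟩), if_pos hc]; push_cast; ring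
    · rw [if_neg (by omega), if_neg hc]; push_cast; ring
  rw [sum_congr rfl h1, sum_add_distrib, ← sum_mul, ← Nat.cast_sum]
  have : ∑ j ∈ range m, (if w σ (j + 1) < w σ j then 1 else 0 : ℕ) = des σ := rfl
  rw [this, sum_const, card_range, nsmul_eq_mul]
  push_cast
  ring

lemma rec_sum (n : ℕ) (f : ℕ → ℝ) :
    ∑ τ : Equiv.Perm (Fin (n + 1)), f (des τ) = ∑ σ : Equiv.Perm (Fin n),
      ((des σ + 1) * f (des σ) + (n - des σ) * f (des σ + 1)) := by
  rw [← (ins_bij n).sum_comp (fun τ => f (des τ)), Fintype.sum_prod_type_right]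
  exact sum_congr rfl (fun σ _ => sum_ins σ f)

lemma des_le {n : ℕ} (σ : Equiv.Perm (Fin n)) : des σ ≤ n := by
  unfold des
  refine (sum_le_sum (g := fun _ => 1) (fun j _ => by split_ifs <;> omega)).trans ?_
  simp

lemma main (x : ℕ → ℝ) (h0 : ∀ n, 0 ≤ x n) (hx : ∀ k, x (k + 1) ^ 2 ≤ x k * x (k + 2))
    (n : ℕ) : (∑ τ : Equiv.Perm (Fin (n + 1)), x (des τ)) ^ 2 ≤
      (∑ τ : Equiv.Perm (Fin n), x (des τ)) * ∑ τ : Equiv.Perm (Fin (n + 2)), x (des τ) := by
  rw [rec_sum (n + 1) x, rec_sum n (fun k : ℕ => ((k : ℝ) + 1) * x k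
    + (((n + 1 : ℕ) : ℝ) - k) * x (k + 1)), rec_sum n x]
  apply sum_sq_le_sum_mul_sum_of_sq_le_mul
  · intro σ _; exact h0 _
  · intro σ _
    have h1 : (0 : ℝ) ≤ n - des σ := sub_nonneg.mpr (by exact_mod_cast des_le σ)
    have a := h0 (des σ)
    have b := h0 (des σ + 1)
    have c := h0 (des σ + 1 + 1)
    push_cast
    have h2 : (0 : ℝ) ≤ n + 1 - des σ := by linarith
    have h3 : (0 : ℝ) ≤ n + 1 - (des σ + 1) := by linarith
    positivity
  · intro σ _
    have h1 : (0 : ℝ) ≤ n := Nat.cast_nonneg n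
    have a := h0 (des σ)
    have b := h0 (des σ + 1)
    have c := hx (des σ)
    push_cast
    have h2 : 0 ≤ ((n : ℝ) - des σ) ^ 2 * (x (des σ) * x (des σ + 2) - x (des σ + 1) ^ 2) :=
      mul_nonneg (sq_nonneg _) (by linarith)
    have h3 : 0 ≤ ((n : ℝ) + 1) * (x (des σ) * x (des σ + 1)) := by positivity
    nlinarith

lemma z_eq (x : ℕ → ℝ) (n : ℕ) : ∑ k ∈ range (n + 1),
    (((univ : Finset (Equiv.Perm (Fin n))).filter (fun σ => des σ = k)).card : ℝ) * x k
      = ∑ τ : Equiv.Perm (Fin n), x (des τ) := by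
  rw [← sum_fiberwise_of_maps_to (s := univ) (t := range (n + 1)) (g := des)
    (fun σ _ => mem_range.mpr (Nat.lt_succ_of_le (des_le σ)))]
  refine sum_congr rfl (fun k _ => ?_)
  rw [sum_congr rfl (fun σ hσ => by rw [(mem_filter.mp hσ).2]), sum_const, nsmul_eq_mul]

end Pool.Agent.H54.Euler
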