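import Mathlib

set_option autoImplicit false

namespace Pool.Agent.H54.FactGap

open Nat

theorem exact_dvd (n p : ℕ) (S : Finset ℕ) (hp : p.Prime) (h1 : p ≤ n) (h2 : n < 2 * p)
    (hS : ∀ m ∈ S, 2 * p ≤ m) :
    p ∣ n ! + ∑ m ∈ S, m ! ∧ ¬ p ^ 2 ∣ n ! + ∑ m ∈ S, m ! := by
  have hsq : p ^ 2 ∣ ∑ m ∈ S, m ! := by
    apply Finset.dvd_sum
    intro m hm
    have a : p ∣ p ! := Nat.dvd_factorial hp.pos le_rfl
    have b : p ^ 2 ∣ p ! * p ! := by rw [pow_two]; exact mul_dvd_mul a a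
    exact (b.trans (Nat.factorial_mul_factorial_dvd_factorial_add p p)).trans
      (Nat.factorial_dvd_factorial (by have := hS m hm; omega))
  refine ⟨dvd_add (Nat.dvd_factorial hp.pos h1) ((dvd_pow_self p two_ne_zero).trans hsq), ?_⟩
  intro h
  have h3 : p ^ 2 ∣ n ! := (Nat.dvd_add_left hsq).1 h
  have h4 : Nat.log p n < 2 := by
    apply Nat.log_lt_of_lt_pow (by have := hp.pos; omega)
    have := hp.two_le
    nlinarith
  rw [hp.pow_dvd_factorial_iff h4] at h3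
  have h5 : n / p < 2 := (Nat.div_lt_iff_lt_mul hp.pos).2 h2
  simp at h3
  omega

theorem exists_prime (n : ℕ) (hn : 2 ≤ n) : ∃ p : ℕ, p.Prime ∧ p ≤ n ∧ n < 2 * p := by
  obtain ⟨p, hp, h1, h2⟩ := Nat.exists_prime_lt_and_le_two_mul (n / 2) (by omega)
  exact ⟨p, hp, by omega, by omega⟩

end Pool.Agent.H54.FactGap
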