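import Mathlib

set_option autoImplicit false

namespace Pool.Agent.H54.Fermi

open Finset Matrix

variable {n : ℕ}

/-- sign of a vertex with respect to a face -/
def sg (v : Fin n) (s : Finset (Fin n)) : ℝ := (-1 : ℝ) ^ (s.filter (fun w => w < v)).card

lemma sg_sq (v : Fin n) (s : Finset (Fin n)) : sg v s * sg v s = 1 := by
  unfold sg; rw [← mul_pow]; simp

lemma sg_insert (v w : Fin n) (s : Finset (Fin n)) (hw : w ∉ s) :
    sg v (insert w s) = (if w < v then -1 else 1) * sg v s := by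
  unfold sg
  rw [filter_insert]
  split_ifs with h
  · rw [card_insert_of_notMem (fun h' => hw (mem_filter.mp h').1), pow_succ]; ring
  · ring

lemma sg_insert_self (v : Fin n) (s : Finset (Fin n)) (hv : v ∉ s) :
    sg v (insert v s) = sg v s := by
  rw [sg_insert v v s hv, if_neg (lt_irrefl v), one_mul]

/-- annihilation operator -/
def an (v : Fin n) : (Finset (Fin n) → ℝ) →ₗ[ℝ] (Finset (Fin n) → ℝ) where
  toFun x t := if v ∈ t then 0 else sg v t * x (insert v t)
  map_add' x y := by funext t; simp only [Pi.add_apply]; split_ifs <;> ring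
  map_smul' c x := by
    funext t; simp only [Pi.smul_apply, smul_eq_mul, RingHom.id_apply]; split_ifs <;> ring

/-- creation operator -/
def cr (v : Fin n) : (Finset (Fin n) → ℝ) →ₗ[ℝ] (Finset (Fin n) → ℝ) where
  toFun x s := if v ∈ s then sg v s * x (s.erase v) else 0
  map_add' x y := by funext t; simp only [Pi.add_apply]; split_ifs <;> ring
  map_smul' c x := by
    funext t; simp only [Pi.smul_apply, smul_eq_mul, RingHom.id_apply]; split_ifs <;> ring

lemma an_apply (v : Fin n) (x : Finset (Fin n) → ℝ) (t : Finset (Fin n)) :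
    an v x t = if v ∈ t then 0 else sg v t * x (insert v t) := rfl

lemma cr_apply (v : Fin n) (x : Finset (Fin n) → ℝ) (s : Finset (Fin n)) :
    cr v x s = if v ∈ s then sg v s * x (s.erase v) else 0 := rfl

lemma adj (v : Fin n) (x y : Finset (Fin n) → ℝ) : an v x ⬝ᵥ y = x ⬝ᵥ cr v y := by
  unfold dotProduct
  rw [← sum_filter_add_sum_filter_not univ (fun t => v ∈ t),
    ← sum_filter_add_sum_filter_not univ (fun t => v ∈ t)]
  have h1 : ∑ t ∈ univ.filter (fun t => v ∈ t), an v x t * y t = 0 :=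
    sum_eq_zero (fun t ht => by rw [an_apply, if_pos (mem_filter.mp ht).2, zero_mul])
  have h2 : ∑ t ∈ univ.filter (fun t => ¬ v ∈ t), x t * cr v y t = 0 :=
    sum_eq_zero (fun t ht => by rw [cr_apply, if_neg (mem_filter.mp ht).2, mul_zero])
  rw [h1, h2, zero_add, add_zero]
  refine sum_bij' (fun t _ => insert v t) (fun s _ => s.erase v) ?_ ?_ ?_ ?_ ?_
  · intro t _; simp
  · intro s _; simp
  · intro t ht; exact erase_insert (mem_filter.mp ht).2
  · intro s hs; exact insert_erase (mem_filter.mp hs).2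
  · intro t ht
    have h := (mem_filter.mp ht).2
    rw [an_apply, cr_apply, if_neg h, if_pos (mem_insert_self _ _), erase_insert h,
      sg_insert_self v t h]
    ring

lemma an_an (v w : Fin n) (x : Finset (Fin n) → ℝ) : an v (an w x) = - an w (an v x) := by
  funext t
  simp only [an_apply, Pi.neg_apply, mem_insert]
  by_cases hv : v ∈ t
  · simp [hv]
  by_cases hw : w ∈ t
  · simp [hw]
  rcases lt_trichotomy v w with h | h | h
  · simp only [hv, hw, h.ne, h.ne', or_self, if_false, sg_insert _ _ _ hv, sg_insert _ _ _ hw,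
      h, not_lt.mpr h.le, if_true, Finset.insert_comm v w]
    ring
  · simp [h]
  · simp only [hv, hw, h.ne, h.ne', or_self, if_false, sg_insert _ _ _ hv, sg_insert _ _ _ hw,
      h, not_lt.mpr h.le, if_true, Finset.insert_comm v w]
    ring

lemma an_cr (v w : Fin n) (x : Finset (Fin n) → ℝ) :
    cr w (an v x) = (if v = w then x else 0) - an v (cr w x) := by
  funext t
  by_cases hvw : v = w
  · subst hvw
    simp only [an_apply, cr_apply, Pi.sub_apply, if_true, mem_insert_self, notMem_erase, if_false]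
    by_cases hv : v ∈ t
    · rw [if_pos hv, if_pos hv, insert_erase hv, sub_zero]
      have := sg_insert_self v (t.erase v) (notMem_erase v t)
      rw [insert_erase hv] at this
      rw [← this, ← mul_assoc, sg_sq, one_mul]
    · rw [if_neg hv, if_neg hv, erase_insert hv, sg_insert_self v t hv, ← mul_assoc, sg_sq]
      ring
  · rw [if_neg hvw]
    simp only [an_apply, cr_apply, Pi.sub_apply, Pi.zero_apply, mem_insert, mem_erase,
      ne_eq, hvw, Ne.symm hvw, not_false_eq_true, true_and, false_or]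
    by_cases hv : v ∈ t
    · simp [hv]
    by_cases hw : w ∈ t
    · rw [if_pos hw, if_neg hv, if_neg hv, if_pos hw, sg_insert _ _ _ hv,
        erase_insert_of_ne hvw]
      have h1 := sg_insert v w (t.erase w) (notMem_erase w t)
      rw [insert_erase hw] at h1
      rw [h1]
      rcases lt_or_gt_of_ne hvw with h | h
      · rw [if_neg (not_lt.mpr h.le), if_pos h]; ring
      · rw [if_pos h, if_neg (not_lt.mpr h.le)]; ring
    · simp [hv, hw]

/-- boundary of the full simplex -/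
def bd : (Finset (Fin n) → ℝ) →ₗ[ℝ] (Finset (Fin n) → ℝ) := ∑ v, an v

/-- coboundary of the full simplex -/
def cb : (Finset (Fin n) → ℝ) →ₗ[ℝ] (Finset (Fin n) → ℝ) := ∑ v, cr v

lemma bd_apply (x : Finset (Fin n) → ℝ) : bd x = ∑ v, an v x := LinearMap.sum_apply _ _ _

lemma cb_apply (x : Finset (Fin n) → ℝ) : cb x = ∑ v, cr v x := LinearMap.sum_apply _ _ _

lemma adj_bd (x y : Finset (Fin n) → ℝ) : bd x ⬝ᵥ y = x ⬝ᵥ cb y := by
  rw [bd_apply, cb_apply, sum_dotProduct, dotProduct_sum]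
  exact sum_congr rfl (fun v _ => adj v x y)

lemma bd_an (v : Fin n) (x : Finset (Fin n) → ℝ) : bd (an v x) = - an v (bd x) := by
  rw [bd_apply, bd_apply, map_sum, ← sum_neg_distrib]
  exact sum_congr rfl (fun w _ => an_an w v x)

lemma bd_bd (x : Finset (Fin n) → ℝ) : bd (bd x) = 0 := by
  have h : bd (bd x) = - bd (bd x) := by
    conv_lhs => rw [bd_apply x, map_sum]
    conv_rhs => rw [bd_apply (bd x), ← sum_neg_distrib]
    exact sum_congr rfl (fun w _ => bd_an w x)
  funext t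
  have := congrFun h t
  simp only [Pi.neg_apply, Pi.zero_apply] at this ⊢
  linarith

lemma cb_an (v : Fin n) (x : Finset (Fin n) → ℝ) : cb (an v x) = x - an v (cb x) := by
  rw [cb_apply, cb_apply, map_sum]
  simp only [an_cr, sum_sub_distrib, sum_ite_eq, mem_univ, if_true]

lemma bd_sq (x : Finset (Fin n) → ℝ) : bd x ⬝ᵥ bd x = n * (x ⬝ᵥ x) - cb x ⬝ᵥ cb x := by
  have h : cb (bd x) = (n : ℝ) • x - bd (cb x) := by
    rw [bd_apply x, map_sum, bd_apply (cb x)]
    simp only [cb_an, sum_sub_distrib, sum_const, card_univ, Fintype.card_fin,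
      Nat.cast_smul_eq_nsmul]
  rw [adj_bd, h, dotProduct_sub, dotProduct_smul, smul_eq_mul, dotProduct_comm x (bd _), adj_bd]

/-- restriction to a family of faces -/
def pr (p : Finset (Fin n) → Prop) [DecidablePred p] (x : Finset (Fin n) → ℝ) :
    Finset (Fin n) → ℝ := fun s => if p s then x s else 0

lemma an_sq (p : Finset (Fin n) → Prop) [DecidablePred p] (y : Finset (Fin n) → ℝ) :
    ∑ v, pr p (an v y) ⬝ᵥ pr p (an v y)
      = ∑ T, ((T.filter (fun v => p (T.erase v))).card : ℝ) * (y T * y T) := by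
  have h1 : ∀ v, pr p (an v y) ⬝ᵥ pr p (an v y)
      = ∑ T, (if v ∈ T ∧ p (T.erase v) then 1 else 0) * (y T * y T) := by
    intro v
    have : pr p (an v y) ⬝ᵥ pr p (an v y) = an v y ⬝ᵥ pr p (an v y) := by
      unfold dotProduct pr
      exact sum_congr rfl (fun t _ => by split_ifs <;> simp)
    rw [this, adj]
    refine sum_congr rfl (fun T _ => ?_)
    rw [cr_apply]
    by_cases hv : v ∈ T
    · have h2 := sg_insert_self v (T.erase v) (notMem_erase v T)
      rw [insert_erase hv] at h2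
      have h3 := sg_sq v T
      simp only [pr, an_apply, hv, if_true, notMem_erase, if_false, insert_erase hv, ← h2,
        true_and]
      split_ifs
      · linear_combination (y T * y T) * h3
      · ring
    · simp [hv]
  simp only [h1]
  rw [sum_comm]
  refine sum_congr rfl (fun T _ => ?_)
  rw [← sum_mul, ← natCast_card_filter]
  congr 3
  ext v
  simp

lemma number (m : ℕ) (y : Finset (Fin n) → ℝ) (hy : ∀ s, y s ≠ 0 → s.card = m) :
    ∑ v, an v y ⬝ᵥ an v y = m * (y ⬝ᵥ y) := by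
  have h := an_sq (fun _ => True) y
  have h1 : ∀ z : Finset (Fin n) → ℝ, pr (fun _ => True) z = z := fun z => by
    funext s; simp [pr]
  simp only [h1, filter_true] at h
  rw [h, dotProduct, mul_sum]
  refine sum_congr rfl (fun T _ => ?_)
  by_cases h0 : y T = 0
  · simp [h0]
  · rw [hy T h0]

lemma key_sum (p : Finset (Fin n) → Prop) [DecidablePred p] (x : Finset (Fin n) → ℝ)
    (hx : ∀ s, x s ≠ 0 → p s) :
    bd x ⬝ᵥ bd x ≤ ∑ v, pr p (cb (an v x)) ⬝ᵥ pr p (cb (an v x)) := by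
  have h1 : ∀ v, pr p (cb (an v x)) ⬝ᵥ pr p (cb (an v x))
      = x ⬝ᵥ x - 2 * (an v (cb x) ⬝ᵥ x) + pr p (an v (cb x)) ⬝ᵥ pr p (an v (cb x)) := by
    intro v
    rw [cb_an]
    unfold dotProduct
    rw [mul_sum, ← sum_sub_distrib, ← sum_add_distrib]
    refine sum_congr rfl (fun s _ => ?_)
    simp only [pr, Pi.sub_apply]
    split_ifs with h
    · ring
    · have : x s = 0 := by by_contra h0; exact h (hx s h0)
      rw [this]; ring
  simp only [h1]
  rw [sum_add_distrib, sum_sub_distrib, sum_const, card_univ, Fintype.card_fin, nsmul_eq_mul,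
    ← mul_sum, ← sum_dotProduct, ← bd_apply, bd_sq, adj_bd, an_sq]
  have h2 : cb x ⬝ᵥ cb x ≤
      ∑ T, ((T.filter (fun v => p (T.erase v))).card : ℝ) * (cb x T * cb x T) := by
    refine sum_le_sum (fun T _ => ?_)
    by_cases h0 : cb x T = 0
    · simp [h0]
    · rw [cb_apply, Finset.sum_apply] at h0
      obtain ⟨v, _, hv⟩ := exists_ne_zero_of_sum_ne_zero h0
      rw [cr_apply] at hv
      have h3 : v ∈ T := by by_contra h; exact hv (if_neg h)
      rw [if_pos h3] at hv
      have h4 : 1 ≤ (T.filter (fun v => p (T.erase v))).card :=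
        card_pos.mpr ⟨v, mem_filter.mpr ⟨h3, hx _ (right_ne_zero_of_mul hv)⟩⟩
      have h5 : (1 : ℝ) ≤ (T.filter (fun v => p (T.erase v))).card := by exact_mod_cast h4
      nlinarith [mul_self_nonneg (cb x T)]
  linarith

lemma dot_nonneg (x : Finset (Fin n) → ℝ) : 0 ≤ x ⬝ᵥ x :=
  sum_nonneg (fun _ _ => mul_self_nonneg _)

lemma step (p q : Finset (Fin n) → Prop) [DecidablePred p] (k : ℕ)
    (hp : ∀ s, p s → s.card = k + 2) (hpq : ∀ t v, v ∉ t → p (insert v t) → q t)
    (c l : ℝ) (hc0 : 0 ≤ c) (hl0 : 0 < l)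
    (hc : ∀ y : Finset (Fin n) → ℝ, (∀ s, y s ≠ 0 → q s) → bd y ⬝ᵥ bd y ≤ c * (y ⬝ᵥ y))
    (hl : ∀ x : Finset (Fin n) → ℝ, (∀ s, x s ≠ 0 → p s) → bd x ⬝ᵥ bd x ≤ l * (x ⬝ᵥ x))
    (x : Finset (Fin n) → ℝ) (hx : ∀ s, x s ≠ 0 → p s) :
    bd x ⬝ᵥ bd x ≤ (c * (k + 2) / (k + 1 + c / l)) * (x ⬝ᵥ x) := by
  have ha : ∀ (y : Finset (Fin n) → ℝ), (∀ s, y s ≠ 0 → p s) → ∀ v s, an v y s ≠ 0 →
      q s ∧ s.card = k + 1 := by
    intro y hy v s h
    rw [an_apply] at h
    have h1 : v ∉ s := fun h' => h (if_pos h')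
    rw [if_neg h1] at h
    have h2 := hy _ (right_ne_zero_of_mul h)
    have h3 := hp _ h2
    rw [card_insert_of_notMem h1] at h3
    exact ⟨hpq s v h1 h2, by omega⟩
  have hb : ∀ (y : Finset (Fin n) → ℝ), (∀ s, y s ≠ 0 → p s) → ∀ s, bd y s ≠ 0 →
      q s ∧ s.card = k + 1 := by
    intro y hy s h
    rw [bd_apply, Finset.sum_apply] at h
    obtain ⟨v, _, hv⟩ := exists_ne_zero_of_sum_ne_zero h
    exact ha y hy v s hv
  have h1 : ∀ v, an v (bd x) ⬝ᵥ an v (bd x) ≤ c * (an v x ⬝ᵥ an v x)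
      - (c / l) * (pr p (cb (an v x)) ⬝ᵥ pr p (cb (an v x))) := by
    intro v
    set g := pr p (cb (an v x)) with hg
    have hgp : ∀ s, g s ≠ 0 → p s := by
      intro s h; by_contra h'; exact h (if_neg h')
    have h2 := hc (an v x - l⁻¹ • bd g) (by
      intro s h
      by_cases h3 : an v x s = 0
      · refine (hb g hgp s (fun h4 => h ?_)).1
        simp [h3, h4]
      · exact (ha x hx v s h3).1)
    rw [map_sub, map_smul, bd_bd, smul_zero, sub_zero, bd_an, neg_dotProduct_neg] at h2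
    have h3 : bd g ⬝ᵥ an v x = g ⬝ᵥ g := by
      rw [adj_bd]
      unfold dotProduct
      refine sum_congr rfl (fun s _ => ?_)
      simp only [hg, pr]
      split_ifs <;> simp
    have h4 := hl g hgp
    have h5 : (an v x - l⁻¹ • bd g) ⬝ᵥ (an v x - l⁻¹ • bd g)
        ≤ an v x ⬝ᵥ an v x - l⁻¹ * (g ⬝ᵥ g) := by
      rw [sub_dotProduct, dotProduct_sub, dotProduct_sub, smul_dotProduct, smul_dotProduct,
        dotProduct_smul, dotProduct_smul, dotProduct_comm (an v x) (bd g), h3]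
      simp only [smul_eq_mul]
      have h6 : l⁻¹ * (l⁻¹ * (bd g ⬝ᵥ bd g)) ≤ l⁻¹ * (l⁻¹ * (l * (g ⬝ᵥ g))) := by gcongr
      rw [← mul_assoc l⁻¹ l, inv_mul_cancel₀ hl0.ne', one_mul] at h6
      linarith
    have h6 := mul_le_mul_of_nonneg_left h5 hc0
    rw [div_eq_mul_inv]
    linarith
  have h2 := sum_le_sum (fun v (_ : v ∈ univ) => h1 v)
  rw [sum_sub_distrib, ← mul_sum, ← mul_sum, number (k + 1) _ (fun s h => (hb x hx s h).2),
    number (k + 2) _ (fun s h => hp s (hx s h))] at h2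
  have h3 := mul_le_mul_of_nonneg_left (key_sum p x hx) (div_nonneg hc0 hl0.le)
  have h4 : (0 : ℝ) < k + 1 + c / l := by positivity
  rw [div_mul_eq_mul_div, le_div_iff₀ h4]
  push_cast at h2
  linarith

lemma main (p q : Finset (Fin n) → Prop) [DecidablePred p] (k : ℕ)
    (hp : ∀ s, p s → s.card = k + 2) (hpq : ∀ t v, v ∉ t → p (insert v t) → q t)
    (c : ℝ) (hc0 : 0 ≤ c)
    (hc : ∀ y : Finset (Fin n) → ℝ, (∀ s, y s ≠ 0 → q s) → bd y ⬝ᵥ bd y ≤ c * (y ⬝ᵥ y))
    (x : Finset (Fin n) → ℝ) (hx : ∀ s, x s ≠ 0 → p s) :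
    bd x ⬝ᵥ bd x ≤ c * (x ⬝ᵥ x) := by
  let S : Set ℝ := {l | 0 ≤ l ∧
    ∀ x : Finset (Fin n) → ℝ, (∀ s, x s ≠ 0 → p s) → bd x ⬝ᵥ bd x ≤ l * (x ⬝ᵥ x)}
  have hne : S.Nonempty := ⟨n, Nat.cast_nonneg n, fun x _ => by
    rw [bd_sq]; linarith [dot_nonneg (cb x)]⟩
  have hbdd : BddBelow S := ⟨0, fun l hl => hl.1⟩
  have hl : ∀ x : Finset (Fin n) → ℝ, (∀ s, x s ≠ 0 → p s) →
      bd x ⬝ᵥ bd x ≤ sInf S * (x ⬝ᵥ x) := by
    intro x hx
    rcases (dot_nonneg x).eq_or_lt with h0 | h0
    · obtain ⟨l, hl⟩ := hne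
      have := hl.2 x hx
      rw [← h0] at this ⊢
      simpa using this
    · rw [← div_le_iff₀ h0]
      exact le_csInf hne (fun l hl => (div_le_iff₀ h0).mpr (hl.2 x hx))
  refine (hl x hx).trans (mul_le_mul_of_nonneg_right ?_ (dot_nonneg x))
  by_contra hlt
  push Not at hlt
  have hl0 : 0 < sInf S := lt_of_le_of_lt hc0 hlt
  have h4 : (0 : ℝ) < k + 1 + c / sInf S := by positivity
  have h1 : sInf S ≤ c * (k + 2) / (k + 1 + c / sInf S) :=
    csInf_le hbdd ⟨by positivity, step p q k hp hpq c _ hc0 hl0 hc hl⟩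
  rw [le_div_iff₀ h4, mul_add, mul_div_cancel₀ _ hl0.ne'] at h1
  have : (0 : ℝ) ≤ k := Nat.cast_nonneg k
  nlinarith

lemma D_mulVec (p : Finset (Fin n) → Prop) [DecidablePred p]
    (D : Matrix (Finset (Fin n)) (Finset (Fin n)) ℝ)
    (hD : ∀ t s, D t s = if p s then ∑ v ∈ s, (if t = s.erase v then sg v s else 0) else 0)
    (x : Finset (Fin n) → ℝ) : D *ᵥ x = bd (pr p x) := by
  funext t
  have h1 : bd (pr p x) t = bd (pr p x) ⬝ᵥ Pi.single t 1 := by simp
  rw [h1, adj_bd, mulVec, dotProduct, dotProduct]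
  refine sum_congr rfl (fun s _ => ?_)
  rw [hD, cb_apply, Finset.sum_apply]
  simp only [pr, cr_apply]
  split_ifs with h
  · rw [mul_comm, sum_ite_mem, univ_inter]
    congr 1
    refine sum_congr rfl (fun v _ => ?_)
    rw [Pi.single_apply]
    by_cases h2 : t = s.erase v
    · simp [h2]
    · simp [h2, Ne.symm h2]
  · simp

lemma pr_le (p : Finset (Fin n) → Prop) [DecidablePred p] (x : Finset (Fin n) → ℝ) :
    pr p x ⬝ᵥ pr p x ≤ x ⬝ᵥ x :=
  sum_le_sum (fun s _ => by
    simp only [pr]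
    split_ifs
    · exact le_rfl
    · simpa using mul_self_nonneg (x s))

lemma pr_eq (p : Finset (Fin n) → Prop) [DecidablePred p] (x : Finset (Fin n) → ℝ)
    (hx : ∀ s, x s ≠ 0 → p s) : pr p x = x := by
  funext s
  simp only [pr]
  split_ifs with h
  · rfl
  · by_contra h0; exact h (hx s (Ne.symm h0))

end Pool.Agent.H54.Fermi
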