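import Mathlib

namespace Pool.Agent.H54.Ftm

open Nat

/-- no two adjacent ones -/
def ok (x : List Bool) : Prop := x.IsChain (fun a b => ¬ (a = true ∧ b = true))

instance (x : List Bool) : Decidable (ok x) := by unfold ok; infer_instance

/-- value of a least-significant-first word placed at index `s` -/
def vr : List Bool → ℕ → ℕ
  | [], _ => 0
  | b :: x, s => (if b then fib s else 0) + vr x (s + 1)

def on (x : List Bool) : ZMod 2 := (x.count true : ℕ)

def t (i : ℕ) : ZMod 2 := ((Nat.zeckendorf i).length : ℕ)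

lemma vr_app (x y : List Bool) : ∀ s, vr (x ++ y) s = vr x s + vr y (s + x.length) := by
  induction x with
  | nil => intro s; simp [vr]
  | cons b x ih => intro s; simp only [List.cons_append, vr, ih, List.length_cons]; rw [show s + 1 + x.length = s + (x.length + 1) by ring]; ring

lemma on_app (x y : List Bool) : on (x ++ y) = on x + on y := by simp [on]
lemma on_f (x : List Bool) : on (false :: x) = on x := by simp [on]
lemma on_t (x : List Bool) : on (true :: x) = on x + 1 := by simp [on]

lemma ok_f (x : List Bool) : ok (false :: x) ↔ ok x := by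
  cases x <;> simp [ok]

lemma ok_glue (x y : List Bool) : ok (x ++ false :: y) ↔ ok x ∧ ok y := by
  unfold ok
  rw [List.isChain_split]
  have h1 : (x ++ [false]).IsChain (fun a b => ¬ (a = true ∧ b = true)) ↔ x.IsChain (fun a b => ¬ (a = true ∧ b = true)) := by
    rw [List.isChain_append]; simp
  rw [h1]; exact and_congr Iff.rfl (ok_f y)

lemma ok_l {x y : List Bool} (h : ok (x ++ y)) : ok x := List.IsChain.left_of_append h
lemma ok_r {x y : List Bool} (h : ok (x ++ y)) : ok y := List.IsChain.right_of_append h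
lemma ok_rev (x : List Bool) : ok x.reverse ↔ ok x := by
  unfold ok; rw [List.isChain_reverse]; simp only [and_comm]

lemma ok_tt (x : List Bool) : ¬ ok (true :: true :: x) := by simp [ok]
lemma ok_tf (x : List Bool) : ok (true :: false :: x) ↔ ok x := by
  rw [← ok_f x]; simp [ok]

lemma vr_rec (x : List Bool) : ∀ s, vr x (s + 2) = vr x s + vr x (s + 1) := by
  induction x with
  | nil => intro s; simp [vr]
  | cons b x ih =>
    intro s
    have := ih (s + 1)
    rw [show s + 1 + 2 = s + 2 + 1 by ring] at this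
    cases b <;> simp only [vr, fib_add_two, this] <;> simp <;> omega

lemma bound : ∀ x : List Bool, ok x → ∀ s, vr x (s + 1) + fib s ≤ fib (s + 1 + x.length)
  | [], _, s => by simp [vr, fib_le_fib_succ]
  | [true], _, s => by simp [vr, fib_add_two, add_assoc]; omega
  | false :: x, h, s => by
    have := bound x ((ok_f x).1 h) (s + 1)
    have h2 := fib_le_fib_succ (n := s)
    simp only [vr, List.length_cons]
    rw [show s + 1 + (x.length + 1) = s + 1 + 1 + x.length by ring]
    simp; omega
  | true :: true :: x, h, _ => absurd h (ok_tt x)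
  | true :: false :: x, h, s => by
    have := bound x ((ok_tf x).1 h) (s + 2)
    simp only [vr, List.length_cons]
    rw [show s + 1 + (x.length + 1 + 1) = s + 2 + 1 + x.length by ring, show s + 1 + 1 + 1 = s + 2 + 1 by ring]
    rw [fib_add_two] at this
    simp at *; omega

lemma bound2 {x : List Bool} (h : ok x) : vr x 2 < fib (x.length + 2) := by
  have := bound x h 1
  rw [show 1 + 1 + x.length = x.length + 2 by ring] at this
  simp at this; omega

lemma exw : ∀ m n : ℕ, n < fib (m + 2) → ∃ x, ok x ∧ x.length = m ∧ vr x 2 = n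
  | 0, n, h => ⟨[], by simp [ok], rfl, by simp [vr] at *; omega⟩
  | 1, n, h => by
    have : n = 0 ∨ n = 1 := by simp [fib_add_two] at h; omega
    rcases this with rfl | rfl
    · exact ⟨[false], by decide, rfl, by simp [vr]⟩
    · exact ⟨[true], by decide, rfl, by simp [vr]⟩
  | m + 2, n, h => by
    by_cases h1 : n < fib (m + 1 + 2)
    · obtain ⟨x, hx, hl, hv⟩ := exw (m + 1) n h1
      refine ⟨x ++ [false], (ok_glue x []).2 ⟨hx, by decide⟩, by simp [hl], by simp [vr_app, vr, hv]⟩
    · have h2 : n - fib (m + 1 + 2) < fib (m + 2) := by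
        rw [show m + 2 + 2 = (m + 2) + 2 by ring, fib_add_two] at h
        rw [show m + 1 + 2 = m + 2 + 1 by ring] at *; omega
      obtain ⟨x, hx, hl, hv⟩ := exw m _ h2
      refine ⟨x ++ [false, true], (ok_glue x [true]).2 ⟨hx, by decide⟩, by simp [hl], ?_⟩
      simp only [vr_app, vr, hv, hl]
      rw [show 2 + m + 1 = m + 1 + 2 by ring]; simp; omega

/-- index list, most significant first input -/
def idx : List Bool → List ℕ
  | [] => []
  | b :: x => if b then (x.length + 2) :: idx x else idx x

lemma idx_len (x : List Bool) : (idx x).length = x.count true := by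
  induction x with
  | nil => rfl
  | cons b x ih => cases b <;> simp [idx, ih]

lemma idx_sum (x : List Bool) : ((idx x).map fib).sum = vr x.reverse 2 := by
  induction x with
  | nil => rfl
  | cons b x ih => cases b <;> simp [idx, ih, vr_app, vr, add_comm]

lemma idx_hd (x : List Bool) : ∀ a ∈ (idx x ++ [0]).head?, a ≤ x.length + 1 := by
  induction x with
  | nil => simp [idx]
  | cons b x ih =>
    cases b
    · intro a ha; have := ih a (by simpa [idx] using ha); simp; omega
    · simp [idx]

lemma idx_rep : ∀ x : List Bool, ok x → (idx x).IsZeckendorfRep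
  | [], _ => by simp [idx, List.IsZeckendorfRep]
  | [true], _ => by simp [idx, List.IsZeckendorfRep]
  | false :: x, h => by simpa [idx] using idx_rep x ((ok_f x).1 h)
  | true :: true :: x, h => absurd h (ok_tt x)
  | true :: false :: x, h => by
    have h1 := idx_rep x ((ok_tf x).1 h)
    have h2 := idx_hd x
    unfold List.IsZeckendorfRep at *
    simp only [idx, if_true, List.cons_append, List.length_cons]
    simp only [Bool.false_eq_true, if_false]
    rw [List.isChain_cons]
    exact ⟨fun a ha => by have := h2 a ha; omega, h1⟩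

lemma t_vr {x : List Bool} (h : ok x) : t (vr x 2) = on x := by
  have h1 := idx_rep x.reverse ((ok_rev x).2 h)
  have h2 := idx_sum x.reverse
  rw [List.reverse_reverse] at h2
  rw [← h2, t, Nat.zeckendorf_sum_fib h1, idx_len]; simp [on]

lemma up : ∀ x : List Bool, ok x → ∃ x', ok x' ∧ ∀ s, vr x' s = vr (true :: x) s
  | [], _ => ⟨[true], by decide, fun _ => rfl⟩
  | [true], _ => ⟨[false, false, true], by decide, fun s => by simp [vr, fib_add_two, add_assoc]⟩
  | false :: x, h => ⟨true :: false :: x, (ok_tf x).2 ((ok_f x).1 h), fun _ => rfl⟩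
  | true :: true :: x, h => absurd h (ok_tt x)
  | true :: false :: x, h => by
    obtain ⟨y, hy, hv⟩ := up x ((ok_tf x).1 h)
    refine ⟨false :: false :: y, (ok_f _).2 ((ok_f _).2 hy), fun s => ?_⟩
    simp only [vr, hv]
    rw [show s + 1 + 1 = s + 2 by ring, fib_add_two]; simp; omega

open Real goldenRatio in
noncomputable def E : List Bool → ℝ
  | [] => 0
  | b :: x => (if b then 1 else 0) + ψ * E x

open Real goldenRatio in
lemma E_eq (x : List Bool) : ∀ s, (vr x (s + 1) : ℝ) - Real.goldenRatio * vr x s = ψ ^ s * E x := by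
  induction x with
  | nil => intro s; simp [vr, E]
  | cons b x ih =>
    intro s
    have h1 := ih (s + 1)
    have h2 := Real.fib_succ_sub_goldenRatio_mul_fib s
    cases b <;> simp only [vr, E] <;> simp <;> rw [pow_succ] at h1 <;> linarith

open Real goldenRatio in
lemma psi_b : -0.62 < ψ ∧ ψ < -0.61 := by
  have h1 := goldenConj_sq
  have h2 := goldenConj_neg
  have h3 := neg_one_lt_goldenConj
  constructor <;> nlinarith

open Real goldenRatio in
lemma E_rng : ∀ x : List Bool, ok x → -1 < E x ∧ E x < 1 - ψ
  | [], _ => by have := psi_b; simp only [E]; constructor <;> linarith [this.2]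
  | [true], _ => by have := psi_b; simp [E]; linarith [this.2]
  | false :: x, h => by
    obtain ⟨h1, h2⟩ := E_rng x ((ok_f x).1 h)
    have := psi_b; have h3 := goldenConj_sq
    simp only [E]; simp only [Bool.false_eq_true, if_false]
    constructor <;> nlinarith [this.1, this.2]
  | true :: true :: x, h => absurd h (ok_tt x)
  | true :: false :: x, h => by
    obtain ⟨h1, h2⟩ := E_rng x ((ok_tf x).1 h)
    have := psi_b; have h3 := goldenConj_sq
    simp only [E]; simp only [Bool.false_eq_true, if_false, if_true]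
    have h4 : 1 + ψ * (0 + ψ * E x) = 1 + (ψ + 1) * E x := by rw [← h3]; ring
    rw [h4]
    constructor <;> nlinarith [this.1, this.2]

lemma rec2 (f g : ℕ → ℕ) (hf : ∀ s, f (s + 2) = f s + f (s + 1)) (hg : ∀ s, g (s + 2) = g s + g (s + 1))
    (h0 : f 0 = g 0) (h1 : f 1 = g 1) : ∀ s, f s = g s
  | 0 => h0
  | 1 => h1
  | s + 2 => by rw [hf, hg, rec2 f g hf hg h0 h1 s, rec2 f g hf hg h0 h1 (s + 1)]

open Real goldenRatio in
lemma lemA {x : List Bool} (h : ok x) (j : ℕ) :
    ∃ y, ok y ∧ ∀ s, vr y (s + 2) = vr x (s + 4) + fib (s + 4 + j) := by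
  obtain ⟨y, hy, -, hv⟩ := exw (vr x 4 + fib (4 + j) + 5) (vr x 4 + fib (4 + j))
    (lt_of_lt_of_le (by omega) (Nat.le_fib_self (by omega)))
  refine ⟨y, hy, rec2 _ _ (fun s => vr_rec y (s + 2)) (fun s => ?_) (by simpa using hv) ?_⟩
  · have := vr_rec x (s + 4)
    have h2 := fib_add_two (n := s + 4 + j)
    rw [show s + 2 + 4 + j = s + 4 + j + 2 by ring, show s + 1 + 4 + j = s + 4 + j + 1 by ring,
      show s + 2 + 4 = s + 4 + 2 by ring, show s + 1 + 4 = s + 4 + 1 by ring]
    omega
  · have e1 := E_eq y 2
    have e2 := E_eq x 4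
    have e3 := Real.fib_succ_sub_goldenRatio_mul_fib (4 + j)
    obtain ⟨a1, a2⟩ := E_rng y hy
    obtain ⟨b1, b2⟩ := E_rng x h
    obtain ⟨p1, p2⟩ := psi_b
    have q : |ψ ^ j| ≤ 1 := by
      rw [abs_pow]; exact pow_le_one₀ (abs_nonneg _) (by rw [abs_le]; constructor <;> linarith)
    rw [abs_le] at q
    rw [hv] at e1
    have h3 := goldenConj_sq
    have h4 : ψ ^ 4 = (ψ + 1) ^ 2 := by rw [← h3]; ring
    have key : (vr y 3 : ℝ) - (vr x 5 + fib (5 + j)) = (ψ + 1) * (E y - (ψ + 1) * (E x + ψ ^ j)) := by
      rw [pow_add, h4] at e3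
      rw [h4] at e2; rw [h3] at e1
      rw [show 4 + j + 1 = 5 + j by ring] at e3
      push_cast at e1
      norm_num at e1 e2
      linarith
    have k1 : -2 * 0.39 < (ψ + 1) * (E x + ψ ^ j) := by nlinarith
    have k2 : (ψ + 1) * (E x + ψ ^ j) < 2.62 * 0.39 := by nlinarith
    have k3 : (vr y 3 : ℝ) < (vr x 5 + fib (5 + j) : ℕ) + 1 := by push_cast; nlinarith
    have k4 : ((vr x 5 + fib (5 + j) : ℕ) : ℝ) < (vr y 3 : ℝ) + 1 := by push_cast; nlinarith
    have k5 : vr y 3 < vr x 5 + fib (5 + j) + 1 := by exact_mod_cast k3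
    have k6 : vr x 5 + fib (5 + j) < vr y 3 + 1 := by exact_mod_cast k4
    show vr y 3 = vr x 5 + fib (5 + j)
    omega

end Pool.Agent.H54.Ftm
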