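import Mathlib
import Pool.Agent.H54.Ftm1

namespace Pool.Agent.H54.Ftm

open Nat

def w1 : List Bool := [true, false, false, true, false, true, false, true]
def w2 : List Bool := [true, false, true, false, true, false, false, true]
def blk (w : List Bool) : List Bool := [false, false, false] ++ w ++ [false, false, false, false]
def tb1 : List (List ℕ) := [[1, 0, 1, 0, 0, 1, 0, 1, 0, 1, 0, 0, 0],
    [0, 0, 0, 1, 0, 1, 0, 1, 0, 1, 0, 0, 0],
    [1, 0, 0, 1, 0, 1, 0, 1, 0, 1, 0, 0, 0],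
    [0, 0, 0, 0, 0, 0, 0, 0, 0, 0, 1, 0, 0],
    [0, 0, 1, 0, 0, 0, 0, 0, 0, 0, 1, 0, 0],
    [0, 0, 0, 0, 1, 0, 0, 0, 0, 0, 1, 0, 0],
    [0, 0, 1, 0, 0, 1, 0, 0, 0, 0, 1, 0, 0],
    [0, 0, 0, 0, 1, 0, 1, 0, 0, 0, 1, 0, 0],
    [0, 0, 1, 0, 0, 1, 0, 1, 0, 0, 1, 0, 0],
    [0, 0, 0, 0, 1, 0, 1, 0, 1, 0, 1, 0, 0],
    [0, 0, 1, 0, 0, 1, 0, 1, 0, 0, 0, 1, 0],
    [0, 0, 1, 0, 0, 1, 0, 1, 0, 1, 0, 1, 0],
    [0, 0, 1, 0, 0, 1, 0, 1, 0, 1, 0, 0, 1]]
def tb2 : List (List ℕ) := [[1, 0, 1, 0, 1, 0, 1, 0, 0, 1, 0, 0, 0],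
    [0, 0, 0, 0, 0, 0, 0, 1, 0, 1, 0, 0, 0],
    [1, 0, 0, 0, 0, 0, 0, 1, 0, 1, 0, 0, 0],
    [0, 0, 1, 0, 0, 0, 0, 1, 0, 1, 0, 0, 0],
    [1, 0, 0, 1, 0, 0, 0, 1, 0, 1, 0, 0, 0],
    [0, 0, 1, 0, 1, 0, 0, 1, 0, 1, 0, 0, 0],
    [1, 0, 0, 1, 0, 1, 0, 1, 0, 1, 0, 0, 0],
    [0, 0, 1, 0, 1, 0, 0, 0, 0, 0, 1, 0, 0],
    [0, 0, 1, 0, 1, 0, 1, 0, 0, 0, 1, 0, 0],
    [0, 0, 1, 0, 1, 0, 0, 0, 1, 0, 1, 0, 0],
    [0, 0, 1, 0, 1, 0, 1, 0, 0, 0, 0, 1, 0],
    [0, 0, 1, 0, 1, 0, 1, 0, 0, 1, 0, 1, 0],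
    [0, 0, 1, 0, 1, 0, 1, 0, 0, 1, 0, 0, 1]]
def rw1 (o : ℕ) : List Bool := (tb1.getD o []).map (fun a => a == 1)
def rw2 (o : ℕ) : List Bool := (tb2.getD o []).map (fun a => a == 1)

def Chk (w r : List Bool) (o : ℕ) : Prop :=
  ok r ∧ r.length = 13 ∧ vr r 1 = vr (blk w) 0 + fib (o + 1) ∧ vr r 2 = vr (blk w) 1 + fib (o + 2)

instance (w r : List Bool) (o : ℕ) : Decidable (Chk w r o) := by unfold Chk; infer_instance

lemma chk : ∀ o < 13, Chk w1 (rw1 o) o ∧ Chk w2 (rw2 o) o ∧ on (rw1 o) = on (rw2 o) := by decide +kernel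

lemma mid {w r : List Bool} {o : ℕ} (hw : w.length = 8) (h : Chk w r o) {lo hi : List Bool} (hl : ok lo) (hh : ok hi) :
    t (vr (lo ++ (blk w ++ hi)) 2 + fib (lo.length + 3 + o)) = on lo + on r + on hi := by
  obtain ⟨h1, h2, h3, h4⟩ := h
  have e : ∀ s, vr r (s + 1) = vr (blk w) s + fib (s + 1 + o) := by
    refine rec2 _ _ (fun s => vr_rec r (s + 1)) (fun s => ?_) (by simpa [add_comm] using h3)
      (by rw [show 1 + 1 + o = o + 2 by ring]; exact h4)
    have := vr_rec (blk w) s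
    have h2 := fib_add_two (n := s + 1 + o)
    rw [show s + 2 + 1 + o = s + 1 + o + 2 by ring, show s + 1 + 1 + o = s + 1 + o + 1 by ring]
    omega
  have hb : (blk w).length = 15 := by simp [blk, hw]
  have := t_vr ((ok_glue lo (r ++ false :: hi)).2 ⟨hl, (ok_glue r hi).2 ⟨h1, hh⟩⟩)
  rw [on_app, on_f, on_app, on_f, ← add_assoc] at this
  rw [← this]; congr 1
  simp only [vr_app, vr, h2, hb, e]
  rw [show 2 + lo.length + 1 + o = lo.length + 3 + o by ring,
    show 2 + lo.length + 1 + 13 + 1 = 2 + lo.length + 15 by ring]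
  simp; omega

lemma low {w : List Bool} (hw : w.length = 8) (hk : ok w) {lo hi : List Bool} (hl : ok lo) (hh : ok hi) {k : ℕ}
    (h : k ≤ lo.length + 2) :
    t (vr (lo ++ (blk w ++ hi)) 2 + fib k) = t (vr lo 2 + fib k) + on w + on hi := by
  have h1 := bound2 hl
  have h2 := fib_mono h
  have h3 := fib_add_two (n := lo.length + 2)
  have h4 := fib_le_fib_succ (n := lo.length + 2)
  obtain ⟨z, hz, hzl, hv⟩ := exw (lo.length + 2) (vr lo 2 + fib k) (by omega)
  have := t_vr ((ok_glue z (w ++ false :: false :: false :: false :: hi)).2 ⟨hz, (ok_glue w _).2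
    ⟨hk, (ok_f _).2 ((ok_f _).2 ((ok_f _).2 hh))⟩⟩)
  rw [on_app, on_f, on_app, on_f, on_f, on_f, on_f, ← add_assoc, ← t_vr hz, hv] at this
  rw [← this]; congr 1
  simp only [blk, vr_app, vr, hzl, hv, hw, List.cons_append, List.nil_append, List.append_assoc]
  rw [show 2 + (lo.length + 2) + 1 = 2 + lo.length + 1 + 1 + 1 by ring]
  simp; omega

lemma high {hi : List Bool} (hh : ok hi) (j : ℕ) : ∃ y, ∀ {w : List Bool} (_ : w.length = 8) (_ : ok w)
    {lo : List Bool} (_ : ok lo), t (vr (lo ++ (blk w ++ hi)) 2 + fib (lo.length + 16 + j)) = on lo + on w + on y := by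
  obtain ⟨y, hy, e⟩ := lemA ((ok_f hi).2 hh) j
  refine ⟨y, fun {w} hw hk {lo} hl => ?_⟩
  have := t_vr ((ok_glue lo (false :: false :: (w ++ false :: y))).2 ⟨hl, (ok_f _).2 ((ok_f _).2
    ((ok_glue w y).2 ⟨hk, hy⟩))⟩)
  rw [on_app, on_f, on_f, on_f, on_app, on_f, ← add_assoc] at this
  rw [← this]; congr 1
  have e1 := e (lo.length + 12)
  simp only [blk, vr_app, vr, hw, List.cons_append, List.nil_append, List.append_assoc] at e1 ⊢
  rw [show 2 + lo.length + 1 + 1 + 1 + 8 + 1 = lo.length + 12 + 2 by ring, e1,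
    show lo.length + 12 + 2 + 1 + 1 + 1 = lo.length + 12 + 4 + 1 by ring,
    show lo.length + 12 + 4 + j = lo.length + 16 + j by ring]
  simp; omega

lemma ok_blk {w : List Bool} (hk : ok w) (lo hi : List Bool) : ok (lo ++ (blk w ++ hi)) ↔ ok lo ∧ ok hi := by
  simp only [blk, List.cons_append, List.nil_append, List.append_assoc, ok_glue, ok_f, hk, true_and]

def Eqv (k : ℕ) (z z' : List Bool) : Prop :=
  ∀ lo, (ok (lo ++ z) ↔ ok (lo ++ z')) ∧
    (ok (lo ++ z) → t (vr (lo ++ z) 2 + fib k) = t (vr (lo ++ z') 2 + fib k))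

lemma Eqv.trans {k : ℕ} {a b c : List Bool} (h1 : Eqv k a b) (h2 : Eqv k b c) : Eqv k a c :=
  fun lo => ⟨(h1 lo).1.trans (h2 lo).1, fun h => ((h1 lo).2 h).trans ((h2 lo).2 ((h1 lo).1.1 h))⟩

lemma Eqv.app {k : ℕ} {a b : List Bool} (p : List Bool) (h : Eqv k a b) : Eqv k (p ++ a) (p ++ b) :=
  fun lo => by simpa only [List.append_assoc] using h (lo ++ p)

lemma eqv_sw (k : ℕ) (hi : List Bool) : Eqv k (blk w2 ++ hi) (blk w1 ++ hi) := by
  intro lo
  have k1 : ok w1 := by decide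
  have k2 : ok w2 := by decide
  rw [ok_blk k1, ok_blk k2]
  refine ⟨Iff.rfl, fun ⟨hl, hh⟩ => ?_⟩
  have e : on w1 = on w2 := by decide
  rcases le_or_gt k (lo.length + 2) with h | h
  · rw [low rfl k1 hl hh h, low rfl k2 hl hh h, e]
  · rcases lt_or_ge k (lo.length + 16) with h' | h'
    · obtain ⟨o, rfl⟩ : ∃ o, k = lo.length + 3 + o := ⟨k - (lo.length + 3), by omega⟩
      obtain ⟨c1, c2, c3⟩ := chk o (by omega)
      rw [mid rfl c1 hl hh, mid rfl c2 hl hh, c3]
    · obtain ⟨j, rfl⟩ : ∃ j, k = lo.length + 16 + j := ⟨k - (lo.length + 16), by omega⟩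
      obtain ⟨y, hy⟩ := high hh j
      rw [hy rfl k1 hl, hy rfl k2 hl, e]

lemma eqv_pad (k : ℕ) (z : List Bool) : ∀ m, Eqv k z (z ++ List.replicate m false)
  | 0 => fun lo => by simp
  | m + 1 => (eqv_pad k z m).trans (fun lo => by
      rw [List.replicate_succ', ← List.append_assoc z, ← List.append_assoc lo _ [false], ok_glue]
      refine ⟨by simp [ok], fun _ => ?_⟩
      rw [vr_app (lo ++ (z ++ List.replicate m false))]; simp [vr])

def hd (x : List Bool) : Bool := x.head? == some true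

def oks : ℕ → List (List Bool)
  | 0 => [[]]
  | n + 1 => (oks n).flatMap (fun x => if hd x then [false :: x] else [false :: x, true :: x])

lemma mem_oks : ∀ x : List Bool, ok x → x ∈ oks x.length
  | [], _ => by simp [oks]
  | b :: x, h => by
    have hx : ok x := ok_r (x := [b]) h
    simp only [List.length_cons, oks, List.mem_flatMap]
    refine ⟨x, mem_oks x hx, ?_⟩
    cases b
    · split_ifs <;> simp
    · rcases x with _ | ⟨_ | _, x⟩
      · simp [hd]
      · simp [hd]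
      · exact absurd h (ok_tt x)

def Bl (a : Bool) : List (List Bool) :=
  (oks 15).filter (fun p => p != blk w2 && !(a && p.getLast? == some true))

def W : ℕ → List (List Bool)
  | 0 => [[]]
  | n + 1 => (W n).flatMap (fun w => (Bl (hd w)).map (· ++ w))

lemma mem_Bl {p w : List Bool} (h : ok (p ++ w)) (hl : p.length = 15) (hp : p ≠ blk w2) : p ∈ Bl (hd w) := by
  have := mem_oks p (ok_l h)
  rw [hl] at this
  simp only [Bl, List.mem_filter, this, true_and, Bool.and_eq_true, bne_iff_ne, Bool.not_eq_true']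
  refine ⟨hp, ?_⟩
  unfold ok at h
  rw [List.isChain_append] at h
  by_contra hc
  simp only [hd, Bool.and_eq_false_imp, beq_iff_eq, not_forall, Bool.not_eq_false] at hc
  obtain ⟨c1, c2⟩ := hc
  exact h.2.2 true (by simpa using c2) true (by simpa using c1) ⟨rfl, rfl⟩

lemma normal (k : ℕ) : ∀ n z, ok z → ∃ w hi, w ∈ W n ∧ w.length = 15 * n ∧ Eqv k z (w ++ hi)
  | 0, z, _ => ⟨[], z, by simp [W], rfl, fun lo => by simp⟩
  | n + 1, z, h => by
    have e0 := eqv_pad k z 15
    set z0 := z ++ List.replicate 15 false with hz0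
    have h0 : ok z0 := by simpa using (e0 []).1.1 (by simpa using h)
    have hp : (z0.take 15).length = 15 := by simp [hz0]
    rw [← List.take_append_drop 15 z0] at h0 e0
    set p := z0.take 15
    obtain ⟨w, hi, hw, hl, e⟩ := normal k n _ (ok_r h0)
    have e1 := e0.trans (e.app p)
    by_cases hq : p = blk w2
    · rw [hq] at e1
      have e2 := e1.trans (eqv_sw k _)
      have h2 : ok (blk w1 ++ (w ++ hi)) := by simpa using (e2 []).1.1 (by simpa using h)
      rw [← List.append_assoc] at h2 e2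
      refine ⟨blk w1 ++ w, hi, ?_, by simp [hl, blk, w1]; ring, e2⟩
      simp only [W, List.mem_flatMap, List.mem_map]
      exact ⟨w, hw, _, mem_Bl (ok_l h2) rfl (by decide), rfl⟩
    · have h2 : ok (p ++ (w ++ hi)) := by simpa using (e1 []).1.1 (by simpa using h)
      rw [← List.append_assoc] at h2 e1
      refine ⟨p ++ w, hi, ?_, by simp [hl, hp]; ring, e1⟩
      simp only [W, List.mem_flatMap, List.mem_map]
      exact ⟨w, hw, _, mem_Bl (ok_l h2) hp hq, rfl⟩

def wt (x : List Bool) : ℕ := if hd x then 377 else 610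

lemma bl_sum : ∀ a : Bool, ((Bl a).map wt).sum ≤ 1363 * (if a then 377 else 610) ∧ ∀ p ∈ Bl a, p ≠ [] := by
  decide +kernel

lemma fm_sum (L : List (List Bool)) (f : List Bool → List (List Bool)) (c : ℕ)
    (h : ∀ w ∈ L, ((f w).map wt).sum ≤ c * wt w) : ((L.flatMap f).map wt).sum ≤ c * (L.map wt).sum := by
  induction L with
  | nil => simp
  | cons a L ih =>
    have h1 := h a (by simp)
    have h2 := ih (fun w hw => h w (by simp [hw]))
    simp only [List.flatMap_cons, List.map_append, List.sum_append, List.map_cons, List.sum_cons]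
    nlinarith

lemma W_sum : ∀ n, ((W n).map wt).sum ≤ 1363 ^ n * 610
  | 0 => by simp [W, wt, hd]
  | n + 1 => by
    have h1 := W_sum n
    have h2 := fm_sum (W n) (fun w => (Bl (hd w)).map (· ++ w)) 1363 (fun w _ => by
      have := bl_sum (hd w)
      rw [List.map_map, List.map_congr_left (g := wt) (fun p hp => by
        rcases p with _ | ⟨b, p⟩
        · exact absurd rfl (this.2 _ hp)
        · simp [wt, hd])]
      exact this.1)
    have h3 : W (n + 1) = (W n).flatMap (fun w => (Bl (hd w)).map (· ++ w)) := by rw [W]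
    rw [h3, pow_succ]
    generalize (List.map wt ((W n).flatMap (fun w => (Bl (hd w)).map (· ++ w)))).sum = A at *
    generalize (List.map wt (W n)).sum = B at *
    omega

lemma len_le (L : List (List Bool)) : L.length * 377 ≤ (L.map wt).sum := by
  induction L with
  | nil => simp
  | cons a L ih =>
    simp only [List.length_cons, List.map_cons, List.sum_cons]
    have : 377 ≤ wt a := by unfold wt; split_ifs <;> omega
    rw [add_mul]; linarith

lemma W_len (n : ℕ) : (W n).length ≤ 2 * 1363 ^ n := by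
  have h1 := W_sum n
  have h2 := len_le (W n)
  omega

def gp (a : Bool) (M : ℕ) : ℕ := if a then fib (M + 1) else fib (M + 2)

lemma top {hi : List Bool} (hh : ok hi) : ∃ P Q : ZMod 2, ∀ M v, v < gp (hd hi) (M + 2) + fib (M + 2) →
    t (v + vr hi (M + 4)) = if v < gp (hd hi) (M + 2) then t v + P else t (v - gp (hd hi) (M + 2)) + Q := by
  have main : ∀ h1 : List Bool, ok h1 → ∃ Q : ZMod 2, ∀ m r, r < fib (m + 2) →
      t (r + vr (true :: h1) (m + 3)) = t r + Q := by
    intro h1 k1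
    obtain ⟨y, hy, e⟩ := up h1 k1
    refine ⟨on y, fun m r hr => ?_⟩
    obtain ⟨z, hz, hl, hv⟩ := exw m r hr
    have := t_vr ((ok_glue z y).2 ⟨hz, hy⟩)
    rw [on_app, on_f, ← t_vr hz, hv] at this
    rw [← this, ← e]; congr 1
    simp only [vr_app, vr, hv, hl]; rw [show 2 + m + 1 = m + 3 by ring]; simp
  have m2 : ∀ h1 : List Bool, ok h1 → ∀ m r, r < fib (m + 2) → t (r + vr h1 (m + 3)) = t r + on h1 := by
    intro y hy m r hr
    obtain ⟨z, hz, hl, hv⟩ := exw m r hr
    have := t_vr ((ok_glue z y).2 ⟨hz, hy⟩)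
    rw [on_app, on_f, ← t_vr hz, hv] at this
    rw [← this]; congr 1
    simp only [vr_app, vr, hv, hl]; rw [show 2 + m + 1 = m + 3 by ring]; simp
  by_cases ha : hd hi = true
  · obtain ⟨Q, hQ⟩ := main hi hh
    refine ⟨on hi, Q, fun M v hv => ?_⟩
    simp only [gp, ha, if_true] at *
    split_ifs with h
    · exact m2 hi hh (M + 1) v h
    · rw [← hQ M _ (by omega)]; congr 1
      simp only [vr, if_true]; rw [show M + 2 + 1 = M + 3 by ring] at *
      rw [show M + 3 + 1 = M + 4 by ring]; omega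
  · obtain ⟨h1, k1, e⟩ : ∃ h1, ok h1 ∧ ∀ s, vr hi s = vr h1 (s + 1) := by
      rcases hi with _ | ⟨_ | _, x⟩
      · exact ⟨[], hh, fun _ => rfl⟩
      · exact ⟨x, (ok_f x).1 hh, fun s => by simp [vr]⟩
      · simp [hd] at ha
    obtain ⟨Q, hQ⟩ := main h1 k1
    refine ⟨on h1, Q, fun M v hv => ?_⟩
    simp only [gp, ha, Bool.false_eq_true, if_false] at *
    have := fib_le_fib_succ (n := M + 2)
    split_ifs with h
    · rw [e]; exact m2 h1 k1 (M + 2) v h
    · rw [← hQ (M + 1) _ (by rw [show M + 1 + 2 = M + 2 + 1 by ring]; omega), e]; congr 1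
      simp only [vr, if_true]; rw [show M + 2 + 2 = M + 1 + 3 by ring] at *
      rw [show M + 4 + 1 = M + 1 + 3 + 1 by ring]; omega

lemma ok_hd {hi : List Bool} (hh : ok hi) (z : List Bool) : ok (z ++ hi) ↔ ok (z ++ [hd hi]) := by
  rcases hi with _ | ⟨_ | _, x⟩
  · simp only [hd, List.append_nil]; exact ⟨fun h => (ok_glue z []).2 ⟨h, hh⟩, ok_l⟩
  · rw [ok_glue]; simp only [hd]; exact ⟨fun h => (ok_glue z []).2 ⟨h.1, by decide⟩, fun h => ⟨ok_l h, (ok_f x).1 hh⟩⟩
  · unfold ok at *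
    rw [List.isChain_split]; exact ⟨fun h => h.1, fun h => ⟨h, hh⟩⟩

lemma lt_gp {z : List Bool} {a : Bool} (h : ok (z ++ [a])) : vr z 2 < gp a z.length := by
  cases a
  · exact bound2 (ok_l h)
  · have := bound2 h
    simp only [vr_app, vr, List.length_append, List.length_singleton, if_true, gp] at *
    rw [show z.length + 1 + 2 = z.length + 1 + 2 from rfl, fib_add_two, show 2 + z.length = z.length + 1 + 1 by ring] at this
    omega

/-- residual of a prefix -/
def res (k : ℕ) (z : List Bool) (y : List Bool) : Option (ZMod 2) :=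
  if ok (y.reverse ++ z) then some (t (vr (y.reverse ++ z) 2 + fib k)) else none

def RR (k : ℕ) (d : List Bool × Bool × ZMod 2 × ZMod 2) (y : List Bool) : Option (ZMod 2) :=
  if ok (y.reverse ++ d.1 ++ [d.2.1]) then
    some (if vr (y.reverse ++ d.1) 2 + fib k < gp d.2.1 (y.reverse ++ d.1).length
      then t (vr (y.reverse ++ d.1) 2 + fib k) + d.2.2.1
      else t (vr (y.reverse ++ d.1) 2 + fib k - gp d.2.1 (y.reverse ++ d.1).length) + d.2.2.2)
  else none

lemma res_mem (n : ℕ) (hn : 1 ≤ n) (z : List Bool) (h : ok z) :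
    ∃ d : List Bool × Bool × ZMod 2 × ZMod 2, d.1 ∈ W n ∧ res (15 * n) z = RR (15 * n) d := by
  obtain ⟨w, hi, hw, hl, e⟩ := normal (15 * n) n z h
  have h2 : ok (w ++ hi) := by simpa using (e []).1.1 (by simpa using h)
  obtain ⟨P, Q, hPQ⟩ := top (ok_r h2)
  refine ⟨(w, hd hi, P, Q), hw, funext fun y => ?_⟩
  have e1 := e y.reverse
  rw [← List.append_assoc] at e1
  simp only [res, RR]
  by_cases hy : ok (y.reverse ++ z)
  · have k := e1.1.1 hy
    rw [if_pos hy, if_pos ((ok_hd (ok_r h2) _).1 k), e1.2 hy, vr_app (y.reverse ++ w)]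
    have k2 := lt_gp ((ok_hd (ok_r h2) _).1 k)
    have k3 : 15 * n ≤ (y.reverse ++ w).length := by simp [hl]
    obtain ⟨M, hM⟩ : ∃ M, (y.reverse ++ w).length = M + 2 := ⟨(y.reverse ++ w).length - 2, by omega⟩
    rw [hM] at k2 k3 ⊢
    have k4 := fib_mono k3
    rw [← hPQ M _ (by omega)]
    congr 2; rw [show 2 + (M + 2) = M + 4 by ring]; ring
  · rw [if_neg hy, if_neg (fun k => hy (e1.1.2 ((ok_hd (ok_r h2) _).2 k)))]

lemma states (n : ℕ) (hn : 1 ≤ n) : ∃ T : Finset (List Bool → Option (ZMod 2)),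
    T.card ≤ 16 * 1363 ^ n ∧ ∀ z, ok z → res (15 * n) z ∈ T := by
  classical
  refine ⟨((W n).toFinset ×ˢ (Finset.univ : Finset (Bool × ZMod 2 × ZMod 2))).image (RR (15 * n)), ?_, fun z hz => ?_⟩
  · refine Finset.card_image_le.trans ?_
    have h1 := List.toFinset_card_le (W n)
    have h2 := W_len n
    rw [Finset.card_product]
    simp only [Finset.card_univ, Fintype.card_prod, Fintype.card_bool, ZMod.card]
    omega
  · obtain ⟨d, hd, e⟩ := res_mem n hn z hz
    exact Finset.mem_image.2 ⟨d, by simp [hd], e.symm⟩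

lemma fib_lb : ∀ n, 1364 ^ n ≤ fib (15 * (n + 1))
  | 0 => by decide
  | n + 1 => by
    have h := fib_lb n
    have h1 := fib_add (15 * n) 14
    have h2 := fib_add (15 * n) 29
    rw [show 15 * (n + 1) = 15 * n + 14 + 1 by ring, h1] at h
    rw [show 15 * (n + 1 + 1) = 15 * n + 29 + 1 by ring, h2, pow_succ]
    norm_num at *
    omega

end Pool.Agent.H54.Ftm
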