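import Mathlib

namespace Pool.Agent.H54.Hasse

open Finset Polynomial

variable {p : ℕ} [Fact p.Prime] {K : Type} [Field K] [Algebra (ZMod p) K] {h : ℕ}

lemma pw_sum (hp : p = 2 * h + 1) (k : ℕ) (hk : k ≤ 3 * h) :
    ∑ x : ZMod p, (algebraMap (ZMod p) K x) ^ k = if k = 2 * h then -1 else 0 := by
  have h1 : 1 ≤ h := by have := (Fact.out : p.Prime).two_le; omega
  have hc : Fintype.card (ZMod p) - 1 = 2 * h := by rw [ZMod.card]; omega
  have key : ∑ x : ZMod p, x ^ k = if k = 2 * h then -1 else 0 := by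
    rcases lt_or_ge k (2 * h) with hl | hl
    · rw [FiniteField.sum_pow_lt_card_sub_one _ k (by omega), if_neg (by omega)]
    · have e := FiniteField.sum_pow_units (ZMod p) k
      rw [hc] at e
      have e2 : ∑ x : ZMod p, x ^ k = ∑ x : (ZMod p)ˣ, (x : ZMod p) ^ k := by
        rw [← Finset.sum_erase (univ : Finset (ZMod p)) (a := 0) (by simp; omega)]
        symm
        refine Finset.sum_bij (fun x _ => (x : ZMod p)) (fun x _ => by simp) (fun x _ y _ hxy => Units.ext hxy)
          (fun y hy => ⟨Units.mk0 y (by simpa using hy), by simp, rfl⟩) (fun _ _ => rfl)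
      rw [e2, e]
      by_cases hk2 : k = 2 * h
      · simp [hk2]
      · rw [if_neg hk2, if_neg]
        rintro ⟨c, hc⟩
        rcases c with _ | _ | c
        · omega
        · omega
        · nlinarith
  simp only [← map_pow]
  rw [← map_sum, key]; split_ifs <;> simp

lemma ev_sum (hp : p = 2 * h + 1) (g : K[X]) (hg : g.natDegree ≤ 3 * h) (u : K) :
    ∑ x : ZMod p, g.eval (u * algebraMap (ZMod p) K x) = -(u ^ (2 * h) * g.coeff (2 * h)) := by
  simp only [eval_eq_sum_range' (Nat.lt_succ_of_le hg)]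
  rw [Finset.sum_comm]
  rw [Finset.sum_eq_single (2 * h)]
  · simp only [mul_pow, ← mul_assoc]; rw [← Finset.mul_sum, pw_sum hp _ (by omega)]; simp; ring
  · intro k hk hne
    simp only [mul_pow, ← mul_assoc]
    rw [← Finset.mul_sum, pw_sum hp _ (by simp at hk; omega), if_neg hne, mul_zero]
  · intro hh; simp at hh; omega

lemma tr_pow (hp : p = 2 * h + 1) (k : ℕ) (hk : k ≤ 3 * h) (c : K) :
    ∑ x : ZMod p, (algebraMap (ZMod p) K x + c) ^ k = ∑ x : ZMod p, (algebraMap (ZMod p) K x) ^ k := by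
  have : CharP K p := (Algebra.charP_iff (ZMod p) K p).1 inferInstance
  simp only [add_pow]
  rw [Finset.sum_comm, Finset.sum_eq_single k]
  · simp
  · intro l hl hne
    simp only [mul_assoc]
    have hl2 : l < k := by simp at hl; omega
    rw [← Finset.sum_mul, pw_sum hp _ (by omega)]
    split_ifs with h2
    · have : (p : ℕ) ∣ k.choose l := (Fact.out : p.Prime).dvd_choose (by omega) (by omega) (by omega)
      rw [(CharP.cast_eq_zero_iff K p _).2 this]; simp
    · simp
  · intro hh; simp at hh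

lemma tr (hp : p = 2 * h + 1) (g : K[X]) (hg : g.natDegree ≤ 3 * h) (c : K) :
    ∑ x : ZMod p, g.eval (algebraMap (ZMod p) K x + c) = ∑ x : ZMod p, g.eval (algebraMap (ZMod p) K x) := by
  simp only [eval_eq_sum_range' (Nat.lt_succ_of_le hg)]
  rw [Finset.sum_comm, Finset.sum_comm (s := univ)]
  refine Finset.sum_congr rfl (fun k hk => ?_)
  rw [← Finset.mul_sum, ← Finset.mul_sum, tr_pow hp k (by simp at hk; omega)]

variable (p h) in
noncomputable def T (a b : K) : K :=
  ∑ x : ZMod p, (algebraMap (ZMod p) K x * ((algebraMap (ZMod p) K x) ^ 2 + a * algebraMap (ZMod p) K x + b)) ^ h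

noncomputable def G (h : ℕ) (a b : K) : K[X] := (X * (X ^ 2 + C a * X + C b)) ^ h

lemma G_deg (a b : K) : (G h a b).natDegree ≤ 3 * h := by
  unfold G
  refine natDegree_pow_le.trans ?_
  rw [mul_comm]; refine Nat.mul_le_mul_right _ ?_
  compute_degree

lemma G_ev (a b x : K) : (G h a b).eval x = (x * (x ^ 2 + a * x + b)) ^ h := by simp [G]

lemma T_tr (hp : p = 2 * h + 1) (a b c a' b' : K)
    (e : ∀ x, (x + c) * ((x + c) ^ 2 + a * (x + c) + b) = x * (x ^ 2 + a' * x + b')) :
    T p h a b = T p h a' b' := by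
  have := tr hp (G h a b) (G_deg a b) c
  simp only [G_ev, e] at this
  exact this.symm

lemma T_u (hp : p = 2 * h + 1) (a b u : K) :
    ∑ x : ZMod p, (G h a b).eval (u * algebraMap (ZMod p) K x) = u ^ (2 * h) * T p h a b := by
  have h1 := ev_sum hp (G h a b) (G_deg a b) u
  have h2 := ev_sum hp (G h a b) (G_deg a b) 1
  simp only [one_mul, one_pow, G_ev] at h2
  rw [h1, T, h2]; ring

lemma T_sc (hp : p = 2 * h + 1) (a b u : K) : T p h (u * a) (u ^ 2 * b) = u ^ h * T p h a b := by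
  have h1 : 1 ≤ h := by have := (Fact.out : p.Prime).two_le; omega
  by_cases hu : u = 0
  · subst hu
    have := pw_sum (K := K) hp (3 * h) le_rfl
    rw [if_neg (by omega)] at this
    rw [zero_pow (by omega : h ≠ 0), zero_mul (T p h a b), T]
    refine Eq.trans (Finset.sum_congr rfl (fun x _ => ?_)) this
    rw [pow_mul]; congr 1; ring
  · have e := T_u hp (u * a) (u ^ 2 * b) u
    have e2 : ∀ x : K, (G h (u * a) (u ^ 2 * b)).eval (u * x) = u ^ (2 * h) * (u ^ h * (x * (x ^ 2 + a * x + b)) ^ h) := by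
      intro x; rw [G_ev, pow_mul, ← mul_pow, ← mul_pow]; congr 1; ring
    simp only [e2, ← Finset.mul_sum] at e
    exact (mul_left_cancel₀ (pow_ne_zero _ hu) e).symm

lemma ch (hp : p = 2 * h + 1) : ∀ j, j ≤ h → ((h.choose j : ℕ) : K) * (-4) ^ j = ((2 * j).choose j : ℕ)
  | 0, _ => by simp
  | j + 1, hj => by
    have : CharP K p := (Algebra.charP_iff (ZMod p) K p).1 inferInstance
    have ih := ch hp j (by omega)
    have h0 : ((j + 1 : ℕ) : K) ≠ 0 := by
      rw [Ne, CharP.cast_eq_zero_iff K p]; exact Nat.not_dvd_of_pos_of_lt (by omega) (by omega)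
    have h1 : ((h.choose (j + 1) : ℕ) : K) * (j + 1 : ℕ) = (h.choose j : ℕ) * ((h : K) - j) := by
      rw [← Nat.cast_sub (by omega)]; exact_mod_cast congrArg (Nat.cast (R := K)) (Nat.choose_succ_right_eq h j)
    have h2 : ((j + 1 : ℕ) : K) * ((2 * (j + 1)).choose (j + 1) : ℕ) = 2 * (2 * j + 1) * ((2 * j).choose j : ℕ) := by
      exact_mod_cast congrArg (Nat.cast (R := K)) (Nat.succ_mul_centralBinom_succ j)
    have h3 : (2 * h + 1 : K) = 0 := by
      have := CharP.cast_eq_zero K p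
      rw [hp] at this; exact_mod_cast this
    apply mul_left_cancel₀ h0
    rw [h2, ← ih, pow_succ]
    linear_combination (-4) ^ j * (-4) * h1 - 2 * (-4) ^ j * (h.choose j : K) * h3

lemma iso_i (hp : p = 2 * h + 1) (b : K) (i : ℕ) (hi : i ≤ h) :
    ∑ x : ZMod p, (algebraMap (ZMod p) K x) ^ i * (-4 * b + (algebraMap (ZMod p) K x) ^ 2) ^ h =
    ∑ x : ZMod p, (algebraMap (ZMod p) K x) ^ (2 * h - i) * (b + (algebraMap (ZMod p) K x) ^ 2) ^ i := by
  have e1 : ∀ x : K, x ^ i * (-4 * b + x ^ 2) ^ h =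
      ∑ l ∈ range (h + 1), ((-4 * b) ^ l * (h.choose l : ℕ)) * x ^ (i + 2 * (h - l)) := by
    intro x; rw [add_pow, Finset.mul_sum]; refine Finset.sum_congr rfl (fun l _ => ?_); rw [pow_add, pow_mul]; ring
  have e2 : ∀ x : K, x ^ (2 * h - i) * (b + x ^ 2) ^ i =
      ∑ l ∈ range (i + 1), (b ^ l * (i.choose l : ℕ)) * x ^ (2 * h - i + 2 * (i - l)) := by
    intro x; rw [add_pow, Finset.mul_sum]; refine Finset.sum_congr rfl (fun l _ => ?_); rw [pow_add, pow_mul]; ring
  simp only [e1, e2]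
  rw [Finset.sum_comm, Finset.sum_comm (s := univ)]
  simp only [← Finset.mul_sum]
  rcases Nat.even_or_odd' i with ⟨j, rfl | rfl⟩
  · rw [Finset.sum_eq_single j, Finset.sum_eq_single j]
    · rw [pw_sum hp _ (by omega), pw_sum hp _ (by omega), if_pos (by omega), if_pos (by omega), ← ch hp j (by omega)]
      rw [mul_pow]; ring
    · intro l hl hne; simp at hl; rw [pw_sum hp _ (by omega), if_neg (by omega), mul_zero]
    · intro hh; simp at hh; omega
    · intro l hl hne; simp at hl; rw [pw_sum hp _ (by omega), if_neg (by omega), mul_zero]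
    · intro hh; simp at hh; omega
  · rw [Finset.sum_eq_zero, Finset.sum_eq_zero]
    · intro l hl; simp at hl; rw [pw_sum hp _ (by omega), if_neg (by omega), mul_zero]
    · intro l hl; simp at hl; rw [pw_sum hp _ (by omega), if_neg (by omega), mul_zero]

lemma T_iso (hp : p = 2 * h + 1) (a b : K) : T p h (-2 * a) (a ^ 2 - 4 * b) = T p h a b := by
  have e := tr hp (G h (-2 * a) (a ^ 2 - 4 * b)) (G_deg _ _) a
  simp only [G_ev] at e
  rw [T, ← e, T]
  have e1 : ∀ x : K, ((x + a) * ((x + a) ^ 2 + -2 * a * (x + a) + (a ^ 2 - 4 * b))) ^ h =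
      ∑ i ∈ range (h + 1), (a ^ (h - i) * (h.choose i : ℕ)) * (x ^ i * (-4 * b + x ^ 2) ^ h) := by
    intro x
    rw [show (x + a) ^ 2 + -2 * a * (x + a) + (a ^ 2 - 4 * b) = -4 * b + x ^ 2 by ring, mul_pow, add_pow x a,
      Finset.sum_mul]
    refine Finset.sum_congr rfl (fun i _ => by ring)
  have e2 : ∀ x : K, (x * (x ^ 2 + a * x + b)) ^ h =
      ∑ i ∈ range (h + 1), (a ^ (h - i) * (h.choose i : ℕ)) * (x ^ (2 * h - i) * (b + x ^ 2) ^ i) := by
    intro x
    rw [show x * (x ^ 2 + a * x + b) = x * (b + x ^ 2) + a * x ^ 2 by ring, add_pow]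
    refine Finset.sum_congr rfl (fun i hi => ?_)
    simp at hi
    rw [show 2 * h - i = i + 2 * (h - i) by omega, pow_add, pow_mul, mul_pow, mul_pow]; ring
  simp only [e1, e2]
  rw [Finset.sum_comm, Finset.sum_comm (s := univ)]
  refine Finset.sum_congr rfl (fun i hi => ?_)
  rw [← Finset.mul_sum, ← Finset.mul_sum, iso_i hp b i (by simp at hi; omega)]

lemma T_cm (hp : p = 2 * h + 1) (h7 : (-7 : K) ^ h = -1) (α : K) (hα : α ^ 2 - α + 2 = 0) : T p h (21 : K) 112 = 0 := by
  have : CharP K p := (Algebra.charP_iff (ZMod p) K p).1 inferInstance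
  have h1 : 1 ≤ h := by have := (Fact.out : p.Prime).two_le; omega
  have e1 : T p h (21 : K) 112 = T p h (3 * α - 12) (7 - 21 * α) :=
    T_tr hp _ _ (α - 11) _ _ (fun x => by linear_combination (3 * x + α - 11) * hα)
  have e2 := T_iso hp (3 * α - 12) (7 - 21 * α)
  have e3 : T p h (-2 * (3 * α - 12)) ((3 * α - 12) ^ 2 - 4 * (7 - 21 * α)) = T p h (α ^ 2 * 21) ((α ^ 2) ^ 2 * 112) :=
    T_tr hp _ _ (9 * α - 22) _ _ (fun x => by
      linear_combination (-21 * x ^ 2 + (256 - 112 * α - 112 * α ^ 2) * x + 324 * α - 792) * hα)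
  rw [e2, ← e1, T_sc hp] at e3
  by_contra hne
  have e4 : (α ^ 2) ^ h = 1 := mul_right_cancel₀ hne (by rw [← e3, one_mul])
  have e5 : α ^ p = α := by rw [hp, pow_succ, pow_mul, e4, one_mul]
  have e6 : (α + α - 1) ^ p = α + α - 1 := by rw [sub_pow_char, add_pow_char, e5, one_pow]
  have e7 : (α + α - 1) ^ 2 = -7 := by linear_combination 4 * hα
  have e8 : (α + α - 1) ^ p = -(α + α - 1) := by
    conv_lhs => rw [hp, pow_succ, pow_mul, e7, h7]
    ring
  have h2 : (2 : K) ≠ 0 := by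
    have : ((2 : ℕ) : K) ≠ 0 := by
      rw [Ne, CharP.cast_eq_zero_iff K p]; exact Nat.not_dvd_of_pos_of_lt (by omega) (by omega)
    exact_mod_cast this
  have e9 : α + α - 1 = 0 := mul_left_cancel₀ h2 (by linear_combination e8 - e6)
  rw [e9] at e7
  rw [← e7] at h7
  rw [← pow_mul, zero_pow (by omega)] at h7
  simp at h7

lemma T_zero (hp : p = 2 * h + 1) (h7 : (-7 : ZMod p) ^ h = -1) :
    T p h (21 : ZMod p) 112 = 0 ∧ T p h (42 : ZMod p) (-7) = 0 := by
  obtain ⟨α, hα⟩ := IsAlgClosed.exists_root (X ^ 2 - X + C 2 : (AlgebraicClosure (ZMod p))[X]) (by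
    have : (X ^ 2 - X + C 2 : (AlgebraicClosure (ZMod p))[X]).degree = 2 := by compute_degree!
    rw [this]; decide)
  have h8 : (-7 : AlgebraicClosure (ZMod p)) ^ h = -1 := by
    have := congrArg (algebraMap (ZMod p) (AlgebraicClosure (ZMod p))) h7
    simpa [map_ofNat] using this
  have e := T_cm hp h8 α (by simpa using hα)
  have e1 : T p h (21 : ZMod p) 112 = 0 := by
    apply (algebraMap (ZMod p) (AlgebraicClosure (ZMod p))).injective
    rw [map_zero, ← e]; simp [T, map_ofNat]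
  refine ⟨e1, ?_⟩
  have e2 := T_iso hp (21 : ZMod p) 112
  have e3 := T_sc hp (-2 * 21 : ZMod p) (21 ^ 2 - 4 * 112) (-1)
  rw [e2, e1, mul_zero] at e3
  rw [← e3]; congr 1 <;> norm_num

end Pool.Agent.H54.Hasse
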