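import Mathlib

set_option autoImplicit false
open Finset

namespace Pool.Agent.H54.Helly

/-- A primitive-at-`p` relation among more than `r` vectors of `ℤ^r`. -/
lemma rel_prim {ι : Type} [Fintype ι] {r : ℕ} (v : ι → Fin r → ℤ) (h : r < Fintype.card ι)
    (p : ℕ) (hp : p.Prime) : ∃ a : ι → ℤ, ∑ i, a i • v i = 0 ∧ ∃ i, ¬ (p : ℤ) ∣ a i := by
  have h1 : ¬ LinearIndependent ℤ v := fun hl => by
    have := hl.fintype_card_le_finrank
    simp at this
    omega
  obtain ⟨a, ha, i, hi⟩ := Fintype.not_linearIndependent_iff.mp h1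
  have key : ∀ n : ℕ, ∀ a : ι → ℤ, ∑ i, a i • v i = 0 → a i ≠ 0 → (a i).natAbs = n →
      ∃ a : ι → ℤ, ∑ i, a i • v i = 0 ∧ ∃ i, ¬ (p : ℤ) ∣ a i := by
    intro n
    induction n using Nat.strong_induction_on with
    | _ n ih =>
      intro a ha hi hn
      by_cases h2 : ∀ j, (p : ℤ) ∣ a j
      · choose b hb using h2
        have hp0 : (p : ℤ) ≠ 0 := by exact_mod_cast hp.ne_zero
        have h3 : ∑ j, b j • v j = 0 := by
          have : (p : ℤ) • ∑ j, b j • v j = 0 := by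
            rw [smul_sum, ← ha]
            exact sum_congr rfl fun j _ => by rw [hb j, mul_smul]
          exact (smul_eq_zero.mp this).resolve_left hp0
        have h4 : b i ≠ 0 := fun h => hi (by rw [hb i, h, mul_zero])
        refine ih (b i).natAbs ?_ b h3 h4 rfl
        rw [← hn, hb i, Int.natAbs_mul, Int.natAbs_natCast]
        have := Int.natAbs_pos.mpr h4
        have := hp.two_le
        nlinarith
      · push Not at h2
        exact ⟨a, ha, h2⟩
  exact key _ a ha hi rfl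

/-- Local generation: at most `r` of the given elements generate all of them at `p`. -/
lemma loc {X ι : Type} [AddCommGroup X] [DecidableEq ι] {r : ℕ} (gen : Fin r → X) (χ : ι → X)
    (hχ : ∀ i, χ i ∈ Submodule.span ℤ (Set.range gen)) (p : ℕ) (hp : p.Prime) (I : Finset ι) :
    ∃ S ⊆ I, S.card ≤ r ∧ ∃ c : ℤ, ¬ (p : ℤ) ∣ c ∧
      ∀ j ∈ I, ∃ t : ι → ℤ, c • χ j = ∑ s ∈ S, t s • χ s := by
  have hpp : Prime (p : ℤ) := Nat.prime_iff_prime_int.mp hp
  have key : ∀ n : ℕ, ∀ S ⊆ I, S.card = n → (∃ c : ℤ, ¬ (p : ℤ) ∣ c ∧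
      ∀ j ∈ I, ∃ t : ι → ℤ, c • χ j = ∑ s ∈ S, t s • χ s) →
      ∃ S ⊆ I, S.card ≤ r ∧ ∃ c : ℤ, ¬ (p : ℤ) ∣ c ∧
      ∀ j ∈ I, ∃ t : ι → ℤ, c • χ j = ∑ s ∈ S, t s • χ s := by
    intro n
    induction n with
    | zero => exact fun S hS h0 h => ⟨S, hS, by omega, h⟩
    | succ n ih =>
      rintro S hS hn ⟨c, hc, h⟩
      by_cases hr : S.card ≤ r
      · exact ⟨S, hS, hr, c, hc, h⟩
      choose v hv using fun i => (Submodule.mem_span_range_iff_exists_fun ℤ).mp (hχ i)
      obtain ⟨a, ha, ⟨i, hi⟩, hai⟩ := rel_prim (fun s : S => v s) (by simpa using hr) p hp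
      let a' : ι → ℤ := fun s => if h : s ∈ S then a ⟨s, h⟩ else 0
      have h1 : ∑ s ∈ S, a' s • χ s = 0 := by
        rw [← sum_coe_sort S]
        have h2 : ∀ s : S, a' s • χ s = ∑ k, (a s • v s) k • gen k := by
          intro s
          simp only [a', s.2, dif_pos, ← hv s, smul_sum, Pi.smul_apply, smul_eq_mul, mul_smul]
        rw [sum_congr rfl fun s _ => h2 s, sum_comm]
        refine sum_eq_zero fun k _ => ?_
        rw [← sum_smul, ← Finset.sum_apply, ha]
        simp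
      have h3 : a' i = a ⟨i, hi⟩ := by simp [a', hi]
      rw [← add_sum_erase S _ hi] at h1
      refine ih (S.erase i) ((erase_subset _ _).trans hS) (by rw [card_erase_of_mem hi]; omega)
        ⟨a' i * c, fun hd => (hpp.dvd_or_dvd hd).elim (h3 ▸ hai) hc, fun j hj => ?_⟩
      obtain ⟨t, ht⟩ := h j hj
      refine ⟨fun s => a' i * t s - t i * a' s, ?_⟩
      rw [mul_smul, ht, ← add_sum_erase S _ hi, smul_add, smul_comm,
        eq_neg_of_add_eq_zero_left h1]
      simp only [sub_smul, sum_sub_distrib, mul_smul, ← smul_sum, smul_neg]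
      abel
  refine key _ I Subset.rfl rfl ⟨1, hpp.not_dvd_one, fun j hj => ⟨fun s => if s = j then 1 else 0, ?_⟩⟩
  simp [hj]

lemma of_local {X : Type} [AddCommGroup X] (M : AddSubgroup X) (x : X)
    (h : ∀ p : ℕ, p.Prime → ∃ c : ℤ, ¬ (p : ℤ) ∣ c ∧ c • x ∈ M) : x ∈ M := by
  let J : Ideal ℤ :=
    { carrier := {c | c • x ∈ M}
      add_mem' := fun {a b} ha hb => by
        simp only [Set.mem_ofPred_eq, add_smul] at *; exact M.add_mem ha hb
      zero_mem' := by simp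
      smul_mem' := fun a b hb => by
        simp only [Set.mem_ofPred_eq, smul_eq_mul, mul_smul] at *; exact M.zsmul_mem hb a }
  obtain ⟨g, hg⟩ := (IsPrincipalIdealRing.principal J).principal
  have hJ : ∀ c : ℤ, c • x ∈ M ↔ g ∣ c := fun c => by
    rw [← Ideal.mem_span_singleton]
    show c ∈ J ↔ _
    rw [hg]
  have h1 : g.natAbs = 1 := by
    by_contra h1
    obtain ⟨c, hc, hx⟩ := h _ (Nat.minFac_prime h1)
    exact hc ((Int.natCast_dvd.mpr (Nat.minFac_dvd _)).trans ((hJ c).mp hx))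
  have := (hJ 1).mpr (isUnit_iff_dvd_one.mp (Int.isUnit_iff_natAbs_eq.mpr h1))
  simpa using this

/-- Integral Caratheodory for cones. -/
lemma cara {X ι : Type} [AddCommGroup X] [Module.Finite ℤ X] [DecidableEq ι] (χ : ι → X)
    (U : Finset ι) (m : ι → ℤ) (hm : ∀ i ∈ U, 0 ≤ m i) :
    ∃ V ⊆ U, V.card ≤ Module.finrank ℤ X ∧ ∃ k : ℤ, 0 < k ∧ ∃ m' : ι → ℤ, (∀ i ∈ V, 0 ≤ m' i) ∧
      k • ∑ i ∈ U, m i • χ i = ∑ i ∈ V, m' i • χ i := by
  induction hn : U.card using Nat.strong_induction_on generalizing U m with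
  | _ n ih =>
    by_cases hr : U.card ≤ Module.finrank ℤ X
    · exact ⟨U, Subset.rfl, hr, 1, one_pos, m, hm, one_smul _ _⟩
    have red : ∀ i ∈ U, ∀ k : ℤ, 0 < k → ∀ m1 : ι → ℤ, (∀ j ∈ U, 0 ≤ m1 j) → m1 i = 0 →
        k • ∑ j ∈ U, m j • χ j = ∑ j ∈ U, m1 j • χ j →
        ∃ V ⊆ U, V.card ≤ Module.finrank ℤ X ∧ ∃ k : ℤ, 0 < k ∧ ∃ m' : ι → ℤ,
          (∀ i ∈ V, 0 ≤ m' i) ∧ k • ∑ i ∈ U, m i • χ i = ∑ i ∈ V, m' i • χ i := by
      intro i hi k hk m1 hm1 h0 he
      obtain ⟨V, hV, hc, k', hk', m', hm', he'⟩ := ih (U.erase i).card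
        (by rw [← hn]; exact card_erase_lt_of_mem hi) (U.erase i) m1
        (fun j hj => hm1 j (mem_of_mem_erase hj)) rfl
      refine ⟨V, hV.trans (erase_subset _ _), hc, k' * k, by positivity, m', hm', ?_⟩
      rw [mul_smul, he, ← he', ← add_sum_erase U _ hi, h0, zero_smul, zero_add]
    by_cases hz : ∃ i ∈ U, m i = 0
    · obtain ⟨i, hi, h0⟩ := hz
      exact red i hi 1 one_pos m hm h0 (one_smul _ _)
    push Not at hz
    have hpos : ∀ i ∈ U, 0 < m i := fun i hi => lt_of_le_of_ne (hm i hi) (hz i hi).symm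
    have h1 : ¬ LinearIndependent ℤ (fun s : U => χ s) := fun hl => by
      have := hl.fintype_card_le_finrank
      simp at this
      omega
    obtain ⟨a, ha, i0, hi0⟩ : ∃ a : ι → ℤ, ∑ j ∈ U, a j • χ j = 0 ∧ ∃ i ∈ U, 0 < a i := by
      obtain ⟨a, ha, i, hi⟩ := Fintype.not_linearIndependent_iff.mp h1
      let a' : ι → ℤ := fun s => if h : s ∈ U then a ⟨s, h⟩ else 0
      have h2 : ∑ s ∈ U, a' s • χ s = 0 := by
        rw [← sum_coe_sort U, ← ha]
        exact sum_congr rfl fun s _ => by simp [a', s.2]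
      have h3 : a' i = a i := by simp [a', i.2]
      rcases lt_or_gt_of_ne hi with h | h
      · refine ⟨fun s => - a' s, by simp [h2], i, i.2, by simp only [h3]; linarith⟩
      · exact ⟨a', h2, i, i.2, by rw [h3]; exact h⟩
    obtain ⟨i, hi, hmax⟩ := exists_max_image U (fun j => (a j : ℚ) / m j) ⟨i0, hi0.1⟩
    have hq : ∀ j ∈ U, (0 : ℚ) < m j := fun j hj => by exact_mod_cast hpos j hj
    have hai : 0 < a i := by
      have h2 : (0 : ℚ) < (a i0 : ℚ) / m i0 := div_pos (by exact_mod_cast hi0.2) (hq _ hi0.1)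
      have h3 := h2.trans_le (hmax i0 hi0.1)
      exact_mod_cast (div_pos_iff_of_pos_right (hq i hi)).mp h3
    refine red i hi (a i) hai (fun j => a i * m j - m i * a j) (fun j hj => ?_) (by ring) ?_
    · have h2 := hmax j hj
      rw [div_le_div_iff₀ (hq j hj) (hq i hi)] at h2
      have h3 : a j * m i ≤ a i * m j := by exact_mod_cast h2
      linarith
    · simp only [sub_smul, sum_sub_distrib, mul_smul, ← smul_sum, ha, smul_zero, sub_zero]

end Pool.Agent.H54.Helly
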