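import Mathlib
import Pool.Agent.H54.Helly

set_option autoImplicit false
open Finset

namespace Pool.Agent.H54.Helly2

lemma classes {H K ι : Type} [Group H] [Field K] (s : Finset ι) (c : ι → K) (ψ : ι → H →* K)
    (h : ∀ x, ∑ m ∈ s, c m * ψ m x = 0) (φ : H →* K) [DecidablePred fun m => ψ m = φ] :
    ∑ m ∈ s.filter (fun m => ψ m = φ), c m = 0 := by
  classical
  have h1 := linearIndependent_iff'.mp (linearIndependent_monoidHom H K) (s.image ψ)
    (fun φ => ∑ m ∈ s.filter (fun m => ψ m = φ), c m) (by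
      funext x
      rw [Finset.sum_apply, Pi.zero_apply, ← h x,
        ← sum_fiberwise_of_maps_to (g := ψ) (fun m hm => mem_image_of_mem ψ hm)]
      refine sum_congr rfl fun φ _ => ?_
      simp only [Pi.smul_apply, smul_eq_mul, sum_mul]
      exact sum_congr rfl fun m hm => by rw [(mem_filter.mp hm).2])
  by_cases hφ : φ ∈ s.image ψ
  · convert h1 φ hφ
  · refine sum_eq_zero fun m hm => absurd ?_ hφ
    obtain ⟨h2, h3⟩ := mem_filter.mp hm
    exact h3 ▸ mem_image_of_mem ψ h2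

variable {K : Type} [Field K] {N : ℕ}

def mon (a : Fin N → ℤ) : (Fin N → Kˣ) →* Kˣ where
  toFun x := ∏ i, x i ^ a i
  map_one' := by simp
  map_mul' x y := by simp [mul_zpow, prod_mul_distrib]

lemma mon_apply (a : Fin N → ℤ) (x : Fin N → Kˣ) : mon a x = ∏ i, x i ^ a i := rfl

lemma mon_add (a b : Fin N → ℤ) (x : Fin N → Kˣ) : mon (a + b) x = mon a x * mon b x := by
  simp [mon_apply, zpow_add, prod_mul_distrib]

lemma mon_zero (x : Fin N → Kˣ) : mon (0 : Fin N → ℤ) x = 1 := by simp [mon_apply]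

lemma mon_sub (a b : Fin N → ℤ) (x : Fin N → Kˣ) : mon (a - b) x = mon a x / mon b x := by
  rw [eq_div_iff_mul_eq', ← mon_add, sub_add_cancel]

lemma eval_eq (f : MvPolynomial (Fin N) K) (x : Fin N → Kˣ) :
    MvPolynomial.eval (fun i => (x i : K)) f =
      ∑ m ∈ f.support, f.coeff m * ((mon (fun i => (m i : ℤ)) x : Kˣ) : K) := by
  rw [MvPolynomial.eval_eq']
  simp [mon_apply]

/-- The character of a subgroup given by a monomial, with values in `K`. -/
def res (H : Subgroup (Fin N → Kˣ)) (m : Fin N →₀ ℕ) : H →* K :=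
  (Units.coeHom K).comp ((mon (fun i => (m i : ℤ))).comp H.subtype)

lemma mem_of_perp (H : Subgroup (Fin N → Kˣ)) (P : Set (MvPolynomial (Fin N) K))
    (hP : (H : Set (Fin N → Kˣ)) =
      {x | ∀ f ∈ P, MvPolynomial.eval (fun i => (x i : K)) f = 0})
    (x : Fin N → Kˣ) (hx : ∀ a : Fin N → ℤ, (∀ h ∈ H, mon a h = 1) → mon a x = 1) : x ∈ H := by
  classical
  rw [← SetLike.mem_coe, hP]
  intro f hf
  have h1 : ∀ y : H, ∑ m ∈ f.support, f.coeff m * res H m y = 0 := fun y => by
    have h2 : y.1 ∈ (H : Set (Fin N → Kˣ)) := y.2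
    rw [hP] at h2
    rw [← h2 f hf, eval_eq]; rfl
  rw [eval_eq, ← sum_fiberwise_of_maps_to (g := res H) (fun m hm => mem_image_of_mem _ hm)]
  refine sum_eq_zero fun φ hφ => ?_
  obtain ⟨m0, -, rfl⟩ := mem_image.mp hφ
  have h2 : ∀ m ∈ f.support.filter (fun m => res H m = res H m0),
      f.coeff m * ((mon (fun i => (m i : ℤ)) x : Kˣ) : K)
        = f.coeff m * ((mon (fun i => (m0 i : ℤ)) x : Kˣ) : K) := by
    intro m hm
    have h3 := hx ((fun i => (m i : ℤ)) - fun i => (m0 i : ℤ)) fun h hh => by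
      rw [mon_sub, div_eq_one]
      have h5 : res H m ⟨h, hh⟩ = res H m0 ⟨h, hh⟩ := by rw [(mem_filter.mp hm).2]
      exact Units.ext h5
    rw [mon_sub, div_eq_one] at h3
    rw [h3]
  rw [sum_congr rfl h2, ← sum_mul, classes _ _ _ h1, zero_mul]

lemma char_mon (G : Subgroup (Fin N → Kˣ)) (χ : G →* Kˣ) (f : MvPolynomial (Fin N) K) (k : ℕ)
    (h : ∀ g : G, (χ g : K) * (∏ i, (g.1 i : K)) ^ k =
      MvPolynomial.eval (fun i => (g.1 i : K)) f) :
    ∃ a : Fin N → ℤ, χ = (mon a).comp G.subtype := by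
  classical
  let φ : G →* Kˣ := χ * (mon (fun _ => (k : ℤ))).comp G.subtype
  have hφ : ∀ g : G, (φ g : K) = (χ g : K) * (∏ i, (g.1 i : K)) ^ k := fun g => by
    simp [φ, mon_apply, prod_pow]
  let φ' : G →* K := (Units.coeHom K).comp φ
  have h1 := classes (insertNone f.support) (fun o => o.elim (-1) (fun m => f.coeff m))
    (fun o => o.elim φ' (res G)) (fun g => by
      rw [sum_insertNone]
      simp only [Option.elim]
      have h2 : φ' g = (φ g : K) := rfl
      rw [h2, hφ, h, eval_eq, neg_one_mul, neg_add_eq_zero]; rfl) φ'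
  by_contra hc
  push Not at hc
  rw [sum_filter, sum_insertNone] at h1
  simp only [Option.elim, if_true] at h1
  rw [sum_eq_zero] at h1
  · simp at h1
  · intro m _
    refine ite_eq_right_iff.mpr fun h3 => False.elim ?_
    apply hc ((fun i => (m i : ℤ)) - fun _ => (k : ℤ))
    ext g
    have h5 : res G m g = φ' g := by rw [h3]
    have h4 : mon (fun i => (m i : ℤ)) g.1 = φ g := Units.ext h5
    simp only [MonoidHom.comp_apply, Subgroup.coe_subtype, mon_sub, h4, φ, MonoidHom.mul_apply,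
      mul_div_cancel_right]

lemma glue [IsAlgClosed K] {D : Type} [AddCommGroup D] (σ : D →+ (Fin N → ℤ))
    (φ : D →+ Additive Kˣ) (h : ∀ ρ, σ ρ = 0 → φ ρ = 0) :
    ∃ x : Fin N → Kˣ, ∀ ρ, mon (σ ρ) x = (φ ρ).toMul := by
  have hdiv : DivisibleBy (Additive Kˣ) ℕ := divisibleByOfSMulRightSurj _ _ fun {n} hn a => by
    obtain ⟨z, hz⟩ := IsAlgClosed.exists_pow_nat_eq ((a.toMul : Kˣ) : K) (Nat.pos_of_ne_zero hn)
    have h0 : z ≠ 0 := fun h => by
      rw [h, zero_pow hn] at hz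
      exact a.toMul.ne_zero hz.symm
    refine ⟨Additive.ofMul (Units.mk0 z h0), ?_⟩
    apply Additive.toMul.injective
    exact Units.ext (by simpa using hz)
  have hdiv' : DivisibleBy (Additive Kˣ) ℤ := AddGroup.divisibleByIntOfDivisibleByNat _
  obtain ⟨ψ, hψ⟩ := (Module.Baer.of_divisible (Additive Kˣ)).extension_property_addMonoidHom
    (QuotientAddGroup.kerLift σ) (QuotientAddGroup.kerLift_injective σ)
    (QuotientAddGroup.lift σ.ker φ h)
  refine ⟨fun k => (ψ (Pi.single k 1)).toMul, fun ρ => ?_⟩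
  have h1 : ψ (σ ρ) = φ ρ := DFunLike.congr_fun hψ (QuotientAddGroup.mk ρ)
  have h2 : σ ρ = ∑ k, σ ρ k • (Pi.single k 1 : Fin N → ℤ) := by
    funext j
    simp [Finset.sum_apply, Pi.single_apply]
  rw [← h1]
  conv_rhs => rw [h2]
  simp only [mon_apply, map_sum, map_zsmul, toMul_sum, toMul_zsmul]

end Pool.Agent.H54.Helly2
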