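import Mathlib

namespace Pool.Agent.H54.Hilb

open MeasureTheory Set Filter
open scoped ENNReal

theorem cs {α : Type*} [MeasurableSpace α] (μ : Measure α) {A B : α → ℝ≥0∞}
    (hA : AEMeasurable A μ) (hB : AEMeasurable B μ) :
    (∫⁻ a, A a * B a ∂μ) ^ 2 ≤ (∫⁻ a, A a ^ 2 ∂μ) * ∫⁻ a, B a ^ 2 ∂μ := by
  have h := ENNReal.lintegral_mul_le_Lp_mul_Lq μ Real.HolderConjugate.two_two hA hB
  have h2 := pow_le_pow_left' h 2
  have e : ∀ x : ℝ≥0∞, (x ^ (1 / 2 : ℝ)) ^ 2 = x := fun x => by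
    rw [← ENNReal.rpow_natCast, ← ENNReal.rpow_mul]; norm_num
  rw [mul_pow, e, e] at h2
  simpa using h2

theorem amgm (x y : NNReal) (hx : 0 < x) (hy : 0 < y) (h : 1 ≤ 4 * x * y) (s t : ℝ≥0∞) :
    (s * t) ^ 2 ≤ x * s ^ 4 + y * t ^ 4 := by
  by_cases hs : s = ⊤
  · have : (x : ℝ≥0∞) * s ^ 4 = ⊤ := by
      rw [hs, ENNReal.top_pow (by norm_num), ENNReal.mul_top (by exact_mod_cast hx.ne')]
    rw [this]; simp
  by_cases ht : t = ⊤
  · have : (y : ℝ≥0∞) * t ^ 4 = ⊤ := by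
      rw [ht, ENNReal.top_pow (by norm_num), ENNReal.mul_top (by exact_mod_cast hy.ne')]
    rw [this]; simp
  lift s to NNReal using hs
  lift t to NNReal using ht
  have : (s * t) ^ 2 ≤ x * s ^ 4 + y * t ^ 4 := by
    have hx' : (0 : ℝ) < x := hx
    have h' : (1 : ℝ) ≤ 4 * x * y := by exact_mod_cast h
    have : ((s : ℝ) * t) ^ 2 ≤ x * s ^ 4 + y * t ^ 4 := by
      refine le_of_mul_le_mul_left ?_ (show (0 : ℝ) < 4 * x by linarith)
      nlinarith [sq_nonneg (2 * (x : ℝ) * s ^ 2 - t ^ 2), mul_le_mul_of_nonneg_right h'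
        (show (0 : ℝ) ≤ (t : ℝ) ^ 4 by positivity)]
    exact_mod_cast this
  exact_mod_cast this

theorem quantile (μ : Measure ℝ) [IsProbabilityMeasure μ] [NullSingletonClass μ] {θ : ℝ} (h0 : 0 < θ)
    (h1 : θ < 1) : ∃ m, μ (Iic m) = ENNReal.ofReal θ := by
  have hc : Continuous (ProbabilityTheory.cdf μ) := by
    rw [continuous_iff_continuousAt]
    intro a
    rw [(ProbabilityTheory.monotone_cdf μ).continuousAt_iff_leftLim_eq_rightLim,
      StieltjesFunction.rightLim_eq]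
    have h := (ProbabilityTheory.cdf μ).measure_singleton a
    rw [ProbabilityTheory.measure_cdf, measure_singleton, eq_comm, ENNReal.ofReal_eq_zero] at h
    have := (ProbabilityTheory.monotone_cdf μ).leftLim_le (le_refl a)
    linarith
  obtain ⟨m, hm⟩ := mem_range_of_exists_le_of_exists_ge hc
    ((ProbabilityTheory.tendsto_cdf_atBot μ).eventually_le_const h0).exists
    ((ProbabilityTheory.tendsto_cdf_atTop μ).eventually_const_le h1).exists
  exact ⟨m, by rw [← ProbabilityTheory.ofReal_cdf, hm]⟩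

theorem quantile' {f : ℝ → ℝ≥0∞} (h : ∫⁻ x, f x = 1) {θ : ℝ} (h0 : 0 < θ)
    (h1 : θ < 1) : ∃ m, ∫⁻ x in Iic m, f x = ENNReal.ofReal θ ∧
      ∫⁻ x in Ioi m, f x = ENNReal.ofReal (1 - θ) := by
  have : IsProbabilityMeasure (volume.withDensity f) := ⟨by simpa using h⟩
  obtain ⟨m, hm⟩ := quantile (volume.withDensity f) h0 h1
  rw [withDensity_apply _ measurableSet_Iic] at hm
  refine ⟨m, hm, ?_⟩
  have := lintegral_add_compl (μ := volume) f (measurableSet_Iic (a := m))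
  rw [hm, h, compl_Iic] at this
  rw [ENNReal.ofReal_sub _ h0.le, ENNReal.ofReal_one, ← this,
    ENNReal.add_sub_cancel_left ENNReal.ofReal_ne_top]

theorem shift (f : ℝ → ℝ≥0∞) (u : ℝ) : ∫⁻ t, f (t + u) = ∫⁻ t, f t :=
  lintegral_add_right_eq_self f u

theorem shift_Ioi (f : ℝ → ℝ≥0∞) (u m : ℝ) :
    ∫⁻ t in Ioi m, f (t + u) = ∫⁻ t in Ioi (m + u), f t := by
  rw [← lintegral_indicator measurableSet_Ioi, ← lintegral_indicator measurableSet_Ioi,
    ← shift ((Ioi (m + u)).indicator f) u]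
  refine lintegral_congr fun t => ?_
  by_cases h : m < t <;> simp [indicator, h]

variable {p q : ℝ → ℝ≥0∞}

theorem beta_one (hp : Measurable p) (hq : Measurable q) (h1 : ∫⁻ x, p x ^ 4 = 1)
    (h2 : ∫⁻ x, q x ^ 4 = 1) (u : ℝ) : ∫⁻ t, (p (t + u) * q t) ^ 2 ≤ 1 := by
  calc _ ≤ ∫⁻ t, ((1 / 2 : NNReal) * p (t + u) ^ 4 + (1 / 2 : NNReal) * q t ^ 4) :=
        lintegral_mono fun t => amgm _ _ (by norm_num) (by norm_num) (by norm_num) _ _
    _ = 1 := by
      rw [lintegral_add_left (by fun_prop), lintegral_const_mul _ (by fun_prop),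
        lintegral_const_mul _ (by fun_prop), shift (fun t => p t ^ 4), h1, h2, mul_one,
        ← ENNReal.coe_add]
      norm_num

theorem beta_two (hp : Measurable p) (hq : Measurable q) (h1 : ∫⁻ x, p x ^ 4 = 1) {m u : ℝ}
    (h2 : ∫⁻ x in Iic m, q x ^ 4 = ENNReal.ofReal (1 / 2))
    (h3 : ∫⁻ x in Ioi m, q x ^ 4 = ENNReal.ofReal (1 - 1 / 2))
    (h4 : ∫⁻ x in Ioi (m + u), p x ^ 4 ≤ ENNReal.ofReal (1 - 3 / 4)) :
    ∫⁻ t, (p (t + u) * q t) ^ 2 ≤ (29 / 30 : NNReal) := by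
  rw [← shift_Ioi (fun t => p t ^ 4)] at h4
  have h5 := lintegral_add_compl (μ := volume) (fun t => p (t + u) ^ 4) (measurableSet_Iic (a := m))
  rw [shift (fun t => p t ^ 4), h1, compl_Iic] at h5
  rw [← lintegral_add_compl _ (measurableSet_Iic (a := m)), compl_Iic]
  have a1 : ∫⁻ t in Iic m, (p (t + u) * q t) ^ 2 ≤
      (2 / 5 : NNReal) * (∫⁻ t in Iic m, p (t + u) ^ 4) + (5 / 8 : NNReal) * ENNReal.ofReal (1 / 2) := by
    rw [← h2, ← lintegral_const_mul _ (by fun_prop), ← lintegral_const_mul _ (by fun_prop),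
      ← lintegral_add_left (by fun_prop)]
    exact lintegral_mono fun t => amgm _ _ (by norm_num) (by norm_num) (by norm_num) _ _
  have a2 : ∫⁻ t in Ioi m, (p (t + u) * q t) ^ 2 ≤
      (2 / 3 : NNReal) * (∫⁻ t in Ioi m, p (t + u) ^ 4)
        + (3 / 8 : NNReal) * ENNReal.ofReal (1 - 1 / 2) := by
    rw [← h3, ← lintegral_const_mul _ (by fun_prop), ← lintegral_const_mul _ (by fun_prop),
      ← lintegral_add_left (by fun_prop)]
    exact lintegral_mono fun t => amgm _ _ (by norm_num) (by norm_num) (by norm_num) _ _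
  refine (add_le_add a1 a2).trans ?_
  generalize ∫⁻ t in Iic m, p (t + u) ^ 4 = a at h5
  generalize ∫⁻ t in Ioi m, p (t + u) ^ 4 = b at h4 h5
  lift a to NNReal using ne_top_of_le_ne_top ENNReal.one_ne_top (h5 ▸ le_self_add)
  lift b to NNReal using ne_top_of_le_ne_top ENNReal.one_ne_top (h5 ▸ le_add_self)
  have e1 : ENNReal.ofReal (1 / 2) = (1 / 2 : NNReal) := by
    rw [← ENNReal.ofReal_coe_nnreal]; norm_num
  have e2 : ENNReal.ofReal (1 - 1 / 2) = (1 / 2 : NNReal) := by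
    rw [← ENNReal.ofReal_coe_nnreal]; norm_num
  have e3 : ENNReal.ofReal (1 - 3 / 4) = (1 / 4 : NNReal) := by
    rw [← ENNReal.ofReal_coe_nnreal]; norm_num
  rw [e3, ENNReal.coe_le_coe] at h4
  rw [e1, e2]
  simp only [← ENNReal.coe_mul, ← ENNReal.coe_add, ENNReal.coe_le_coe]
  rw [← ENNReal.coe_add, ENNReal.coe_eq_one] at h5
  have h4' : (b : ℝ) ≤ 1 / 4 := by exact_mod_cast h4
  have h5' : (a : ℝ) + b = 1 := by exact_mod_cast h5
  rw [← NNReal.coe_le_coe]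
  push_cast
  linarith

theorem core (hp : Measurable p) (hq : Measurable q) (h1 : ∫⁻ x, p x ^ 4 = 1)
    (h2 : ∫⁻ x, q x ^ 4 = 1) :
    ∫⁻ u, (∫⁻ t, p (t + u) ^ 3 * q t ^ 3) ^ 2 ≤ (239 / 240 : NNReal) := by
  obtain ⟨m, hm1, hm2⟩ := quantile' h2 (θ := 1 / 2) (by norm_num) (by norm_num)
  obtain ⟨n, -, hn2⟩ := quantile' h1 (θ := 3 / 4) (by norm_num) (by norm_num)
  set γ : ℝ → ℝ≥0∞ := fun u => ∫⁻ t, p (t + u) ^ 4 * q t ^ 4 with hγ
  have hγm : Measurable γ := Measurable.lintegral_prod_right' (f := fun z : ℝ × ℝ =>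
    p (z.2 + z.1) ^ 4 * q z.2 ^ 4) (by fun_prop)
  have a1 : ∀ u, (∫⁻ t, p (t + u) ^ 3 * q t ^ 3) ^ 2 ≤ γ u * ∫⁻ t, (p (t + u) * q t) ^ 2 := by
    intro u
    have := cs volume (A := fun t => (p (t + u) * q t) ^ 2) (B := fun t => p (t + u) * q t)
      (by fun_prop) (by fun_prop)
    have e1 : ∀ t, (p (t + u) * q t) ^ 2 * (p (t + u) * q t) = p (t + u) ^ 3 * q t ^ 3 :=
      fun t => by ring
    have e2 : ∀ t, ((p (t + u) * q t) ^ 2) ^ 2 = p (t + u) ^ 4 * q t ^ 4 := fun t => by ring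
    simpa only [e1, e2] using this
  have swap : ∀ S : Set ℝ, ∫⁻ u in S, γ u = ∫⁻ t, (∫⁻ u in S, p (t + u) ^ 4) * q t ^ 4 := by
    intro S
    rw [hγ, lintegral_lintegral_swap (by
      apply Measurable.aemeasurable
      exact (by fun_prop : Measurable fun z : ℝ × ℝ => p (z.2 + z.1) ^ 4 * q z.2 ^ 4))]
    exact lintegral_congr fun t => lintegral_mul_const _ (by fun_prop)
  have a2 : ∫⁻ u, γ u = 1 := by
    have := swap univ
    simp only [Measure.restrict_univ] at this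
    rw [this, ← h2]
    refine lintegral_congr fun t => ?_
    simp only [add_comm t]
    rw [shift (fun t => p t ^ 4), h1, one_mul]
  have a3 : ENNReal.ofReal (1 - 3 / 4) * ENNReal.ofReal (1 / 2) ≤ ∫⁻ u in Ioi (n - m), γ u := by
    rw [swap, ← hm1, ← lintegral_const_mul _ (by fun_prop)]
    refine le_trans ?_ (setLIntegral_le_lintegral (Iic m) _)
    refine setLIntegral_mono' measurableSet_Iic fun t ht => ?_
    gcongr
    simp only [add_comm t]
    rw [shift_Ioi (fun t => p t ^ 4), ← hn2]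
    exact lintegral_mono_set (Ioi_subset_Ioi (by have : t ≤ m := ht; linarith))
  have a4 := lintegral_add_compl (μ := volume) γ (measurableSet_Ioi (a := n - m))
  rw [a2] at a4
  rw [← lintegral_add_compl _ (measurableSet_Ioi (a := n - m))]
  have b1 : ∫⁻ u in Ioi (n - m), (∫⁻ t, p (t + u) ^ 3 * q t ^ 3) ^ 2
      ≤ (∫⁻ u in Ioi (n - m), γ u) * (29 / 30 : NNReal) := by
    rw [← lintegral_mul_const _ hγm]
    refine setLIntegral_mono' measurableSet_Ioi fun u hu => (a1 u).trans ?_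
    gcongr
    refine beta_two hp hq h1 hm1 hm2 ?_
    rw [← hn2]
    exact lintegral_mono_set (Ioi_subset_Ioi (by have : n - m < u := hu; linarith))
  have b2 : ∫⁻ u in (Ioi (n - m))ᶜ, (∫⁻ t, p (t + u) ^ 3 * q t ^ 3) ^ 2
      ≤ ∫⁻ u in (Ioi (n - m))ᶜ, γ u :=
    lintegral_mono fun u => (a1 u).trans (by
      simpa using mul_le_mul_right (beta_one hp hq h1 h2 u) (γ u))
  refine (add_le_add b1 b2).trans ?_
  generalize ∫⁻ u in Ioi (n - m), γ u = a at a3 a4
  generalize ∫⁻ u in (Ioi (n - m))ᶜ, γ u = b at a4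
  lift a to NNReal using ne_top_of_le_ne_top ENNReal.one_ne_top (a4 ▸ le_self_add)
  lift b to NNReal using ne_top_of_le_ne_top ENNReal.one_ne_top (a4 ▸ le_add_self)
  rw [← ENNReal.ofReal_mul (by norm_num), ← ENNReal.ofReal_coe_nnreal,
    ENNReal.ofReal_le_ofReal_iff a.coe_nonneg] at a3
  simp only [← ENNReal.coe_mul, ← ENNReal.coe_add, ENNReal.coe_le_coe]
  rw [← ENNReal.coe_add, ENNReal.coe_eq_one] at a4
  have h5' : (a : ℝ) + b = 1 := by exact_mod_cast a4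
  rw [← NNReal.coe_le_coe]
  push_cast
  linarith

noncomputable def k (u : ℝ) : ℝ≥0∞ :=
  ENNReal.ofReal (Real.exp (u / 4) * (1 + Real.exp u) ^ (-(1 / 2) : ℝ))

theorem k_meas : Measurable k := by unfold k; fun_prop

theorem cov (c : ℝ) (hc : 0 < c) (F : ℝ → ℝ≥0∞) :
    ∫⁻ x in Ioi 0, F x = ∫⁻ s, ENNReal.ofReal (c * Real.exp (c * s)) * F (Real.exp (c * s)) := by
  have e : (fun s => Real.exp (c * s)) '' univ = Ioi 0 := by
    ext x
    constructor
    · rintro ⟨s, _, rfl⟩; exact Real.exp_pos _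
    · intro hx
      exact ⟨Real.log x / c, trivial, by
        simp only
        rw [mul_div_cancel₀ _ hc.ne', Real.exp_log hx]⟩
  have := lintegral_image_eq_lintegral_abs_deriv_mul (f := fun s => Real.exp (c * s))
    (f' := fun s => c * Real.exp (c * s)) MeasurableSet.univ (fun x _ => by
      have := ((hasDerivAt_id x).const_mul c).exp
      simp only [id, mul_one] at this
      rw [mul_comm]
      exact this.hasDerivWithinAt)
    (fun x _ y _ h => mul_left_cancel₀ hc.ne' (Real.exp_injective h)) F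
  rw [e, Measure.restrict_univ] at this
  rw [this]
  refine lintegral_congr fun s => ?_
  rw [abs_of_pos (by positivity)]

theorem k_sq : ∫⁻ u, k u ^ 2 = ENNReal.ofReal Real.pi := by
  have h := cov (1 / 2) (by norm_num) fun v => ENNReal.ofReal (2 * (1 + v ^ 2)⁻¹)
  rw [← ofReal_integral_eq_lintegral_ofReal
    (integrable_inv_one_add_sq.const_mul 2).integrableOn
    (ae_of_all _ fun v => by positivity), integral_const_mul, integral_Ioi_inv_one_add_sq,
    Real.arctan_zero, sub_zero, mul_div_cancel₀ _ two_ne_zero] at h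
  rw [h]
  refine lintegral_congr fun u => ?_
  rw [k, ← ENNReal.ofReal_pow (by positivity), ← ENNReal.ofReal_mul (by positivity)]
  congr 1
  have e1 : Real.exp (u / 4) ^ 2 = Real.exp (1 / 2 * u) := by
    rw [← Real.exp_nat_mul]; congr 1; push_cast; ring
  have e2 : Real.exp (1 / 2 * u) ^ 2 = Real.exp u := by
    rw [← Real.exp_nat_mul]; congr 1; push_cast; ring
  have e3 : ((1 + Real.exp u) ^ (-(1 / 2) : ℝ)) ^ 2 = (1 + Real.exp u)⁻¹ := by
    rw [← Real.rpow_natCast, ← Real.rpow_mul (by positivity), ← Real.rpow_neg_one]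
    norm_num
  rw [mul_pow, e1, e2, e3]
  ring

/-- the improved constant -/
noncomputable def C0 : ℝ := Real.sqrt (Real.pi * (239 / 240))

theorem conv1 (hp : Measurable p) (hq : Measurable q) (h1 : ∫⁻ x, p x ^ 4 = 1)
    (h2 : ∫⁻ x, q x ^ 4 = 1) :
    ∫⁻ u, k u * ∫⁻ t, p (t + u) ^ 3 * q t ^ 3 ≤ ENNReal.ofReal C0 := by
  have hm : Measurable fun u => ∫⁻ t, p (t + u) ^ 3 * q t ^ 3 :=
    Measurable.lintegral_prod_right' (f := fun z : ℝ × ℝ => p (z.2 + z.1) ^ 3 * q z.2 ^ 3)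
      (by fun_prop)
  have h := cs volume k_meas.aemeasurable hm.aemeasurable
  rw [k_sq] at h
  have h3 := h.trans (mul_le_mul_right (core hp hq h1 h2) _)
  rw [← ENNReal.pow_le_pow_left_iff two_ne_zero]
  refine h3.trans (le_of_eq ?_)
  rw [C0, ← ENNReal.ofReal_pow (Real.sqrt_nonneg _), Real.sq_sqrt (by positivity),
    ENNReal.ofReal_mul Real.pi_pos.le, ← ENNReal.ofReal_coe_nnreal]
  norm_num

theorem C0_pos : 0 < C0 := Real.sqrt_pos.2 (by have := Real.pi_pos; positivity)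

theorem conv2 (hp : Measurable p) (hq : Measurable q) :
    ∫⁻ u, k u * ∫⁻ t, p (t + u) ^ 3 * q t ^ 3 ≤ ENNReal.ofReal C0 *
      (∫⁻ x, p x ^ 4) ^ (3 / 4 : ℝ) * (∫⁻ x, q x ^ 4) ^ (3 / 4 : ℝ) := by
  have hC : ENNReal.ofReal C0 ≠ 0 := by simpa using C0_pos
  by_cases p0 : ∫⁻ x, p x ^ 4 = 0
  · have hz : ∀ u, ∫⁻ t, p (t + u) ^ 3 * q t ^ 3 = 0 := by
      intro u
      rw [← shift (fun x => p x ^ 4) u, lintegral_eq_zero_iff (by fun_prop)] at p0
      refine (lintegral_congr_ae ?_).trans lintegral_zero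
      filter_upwards [p0] with t ht
      have : p (t + u) = 0 := by simpa using ht
      simp [this]
    simp [hz]
  by_cases q0 : ∫⁻ x, q x ^ 4 = 0
  · have hz : ∀ u, ∫⁻ t, p (t + u) ^ 3 * q t ^ 3 = 0 := by
      intro u
      rw [lintegral_eq_zero_iff (by fun_prop)] at q0
      refine (lintegral_congr_ae ?_).trans lintegral_zero
      filter_upwards [q0] with t ht
      have : q t = 0 := by simpa using ht
      simp [this]
    simp [hz]
  have p1 : (∫⁻ x, p x ^ 4) ^ (3 / 4 : ℝ) ≠ 0 := by simp [p0]; norm_num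
  have q1 : (∫⁻ x, q x ^ 4) ^ (3 / 4 : ℝ) ≠ 0 := by simp [q0]; norm_num
  by_cases pt : ∫⁻ x, p x ^ 4 = ⊤
  · rw [pt, ENNReal.top_rpow_of_pos (by norm_num), ENNReal.mul_top hC, ENNReal.top_mul q1]
    exact le_top
  by_cases qt : ∫⁻ x, q x ^ 4 = ⊤
  · rw [qt, ENNReal.top_rpow_of_pos (by norm_num), ENNReal.mul_top (mul_ne_zero hC p1)]
    exact le_top
  have nrm : ∀ f : ℝ → ℝ≥0∞, Measurable f → ∫⁻ x, f x ^ 4 ≠ 0 → ∫⁻ x, f x ^ 4 ≠ ⊤ →
      ∃ g : ℝ → ℝ≥0∞, Measurable g ∧ ∫⁻ x, g x ^ 4 = 1 ∧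
        ∀ x, f x ^ 3 = (∫⁻ x, f x ^ 4) ^ (3 / 4 : ℝ) * g x ^ 3 := by
    intro f hf h0 ht
    set P := ∫⁻ x, f x ^ 4 with hP
    refine ⟨fun x => P ^ (-(1 / 4) : ℝ) * f x, by fun_prop, ?_, fun x => ?_⟩
    · simp only [mul_pow]
      rw [lintegral_const_mul _ (by fun_prop), ← hP, ← ENNReal.rpow_natCast, ← ENNReal.rpow_mul]
      norm_num
      rw [ENNReal.rpow_neg_one, ENNReal.inv_mul_cancel h0 ht]
    · rw [mul_pow, ← mul_assoc, ← ENNReal.rpow_natCast (P ^ _), ← ENNReal.rpow_mul,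
        ← ENNReal.rpow_add _ _ h0 ht]
      norm_num
  obtain ⟨p', hp', a1, a2⟩ := nrm p hp p0 pt
  obtain ⟨q', hq', b1, b2⟩ := nrm q hq q0 qt
  have h := conv1 hp' hq' a1 b1
  set P := (∫⁻ x, p x ^ 4) ^ (3 / 4 : ℝ)
  set Q := (∫⁻ x, q x ^ 4) ^ (3 / 4 : ℝ)
  have hm : Measurable fun u => ∫⁻ t, p' (t + u) ^ 3 * q' t ^ 3 :=
    Measurable.lintegral_prod_right' (f := fun z : ℝ × ℝ => p' (z.2 + z.1) ^ 3 * q' z.2 ^ 3)
      (by fun_prop)
  calc _ = ∫⁻ u, (k u * ∫⁻ t, p' (t + u) ^ 3 * q' t ^ 3) * (P * Q) := by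
        refine lintegral_congr fun u => ?_
        rw [mul_assoc, ← lintegral_mul_const _ (by fun_prop)]
        congr 1
        refine lintegral_congr fun t => ?_
        rw [a2, b2]; ring
    _ = (∫⁻ u, k u * ∫⁻ t, p' (t + u) ^ 3 * q' t ^ 3) * (P * Q) :=
        lintegral_mul_const _ (k_meas.mul hm)
    _ ≤ _ := by rw [mul_assoc]; gcongr

noncomputable def tr (f : ℝ → ℝ≥0∞) (s : ℝ) : ℝ≥0∞ :=
  f (Real.exp s) ^ (1 / 3 : ℝ) * ENNReal.ofReal (Real.exp (s / 4))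

theorem tr4 (f : ℝ → ℝ≥0∞) : ∫⁻ s, tr f s ^ 4 = ∫⁻ x in Ioi 0, f x ^ (4 / 3 : ℝ) := by
  rw [cov 1 one_pos]
  refine lintegral_congr fun s => ?_
  rw [tr, mul_pow, ← ENNReal.rpow_natCast (f _ ^ _), ← ENNReal.rpow_mul,
    ← ENNReal.ofReal_pow (Real.exp_pos _).le, ← Real.exp_nat_mul, mul_comm, one_mul, one_mul]
  rw [show ((4 : ℕ) : ℝ) * (s / 4) = s by push_cast; ring,
    show (1 / 3 : ℝ) * ((4 : ℕ) : ℝ) = 4 / 3 by norm_num]

theorem tr3 (f : ℝ → ℝ≥0∞) (s : ℝ) :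
    tr f s ^ 3 = f (Real.exp s) * ENNReal.ofReal (Real.exp (3 * (s / 4))) := by
  rw [tr, mul_pow, ← ENNReal.rpow_natCast (f _ ^ _), ← ENNReal.rpow_mul,
    ← ENNReal.ofReal_pow (Real.exp_pos _).le, ← Real.exp_nat_mul]
  norm_num

theorem integral_ineq {f g : ℝ → ℝ≥0∞} (hf : Measurable f) (hg : Measurable g) :
    ∫⁻ x in Ioi 0, ∫⁻ y in Ioi 0, f x * g y * ENNReal.ofReal ((x + y) ^ (-(1 / 2) : ℝ)) ≤
      ENNReal.ofReal C0 * (∫⁻ x in Ioi 0, f x ^ (4 / 3 : ℝ)) ^ (3 / 4 : ℝ) *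
        (∫⁻ x in Ioi 0, g x ^ (4 / 3 : ℝ)) ^ (3 / 4 : ℝ) := by
  have hp : Measurable (tr f) := by unfold tr; fun_prop
  have hq : Measurable (tr g) := by unfold tr; fun_prop
  rw [← tr4, ← tr4]
  refine le_trans (le_of_eq ?_) (conv2 hp hq)
  have hk := k_meas
  calc _ = ∫⁻ s, ∫⁻ t, k (s - t) * (tr f s ^ 3 * tr g t ^ 3) := by
        rw [cov 1 one_pos]
        refine lintegral_congr fun s => ?_
        rw [cov 1 one_pos, ← lintegral_const_mul _ (by fun_prop)]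
        refine lintegral_congr fun t => ?_
        simp only [one_mul]
        rw [tr3, tr3, k]
        have e : Real.exp s * (Real.exp t * (Real.exp s + Real.exp t) ^ (-(1 / 2) : ℝ)) =
            Real.exp ((s - t) / 4) * (1 + Real.exp (s - t)) ^ (-(1 / 2) : ℝ) *
              (Real.exp (3 * (s / 4)) * Real.exp (3 * (t / 4))) := by
          have e1 : Real.exp s + Real.exp t = Real.exp t * (1 + Real.exp (s - t)) := by
            rw [mul_add, mul_one, ← Real.exp_add, add_comm]; congr 2; ring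
          rw [e1, Real.mul_rpow (by positivity) (by positivity), ← Real.exp_mul]
          have e2 : Real.exp s * (Real.exp t * Real.exp (t * -(1 / 2))) = Real.exp ((s - t) / 4) *
              (Real.exp (3 * (s / 4)) * Real.exp (3 * (t / 4))) := by
            simp only [← Real.exp_add]; congr 1; ring
          linear_combination ((1 + Real.exp (s - t)) ^ (-(1 / 2) : ℝ)) * e2
        have e' := congrArg ENNReal.ofReal e
        rw [ENNReal.ofReal_mul (by positivity), ENNReal.ofReal_mul (by positivity),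
          ENNReal.ofReal_mul (by positivity), ENNReal.ofReal_mul (q := Real.exp _)
            (by positivity)] at e'
        calc _ = f (Real.exp s) * g (Real.exp t) * (ENNReal.ofReal (Real.exp s) *
              (ENNReal.ofReal (Real.exp t) *
                ENNReal.ofReal ((Real.exp s + Real.exp t) ^ (-(1 / 2) : ℝ)))) := by ring
          _ = _ := by rw [e']; ring
    _ = ∫⁻ t, ∫⁻ s, k (s - t) * (tr f s ^ 3 * tr g t ^ 3) :=
        lintegral_lintegral_swap (by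
          apply Measurable.aemeasurable
          exact (by fun_prop : Measurable fun z : ℝ × ℝ =>
            k (z.1 - z.2) * (tr f z.1 ^ 3 * tr g z.2 ^ 3)))
    _ = ∫⁻ t, ∫⁻ u, k u * (tr f (t + u) ^ 3 * tr g t ^ 3) := by
        refine lintegral_congr fun t => ?_
        rw [← shift _ t]
        simp only [add_sub_cancel_right, add_comm t]
    _ = ∫⁻ u, ∫⁻ t, k u * (tr f (t + u) ^ 3 * tr g t ^ 3) :=
        lintegral_lintegral_swap (by
          apply Measurable.aemeasurable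
          exact (by fun_prop : Measurable fun z : ℝ × ℝ =>
            k z.2 * (tr f (z.1 + z.2) ^ 3 * tr g z.1 ^ 3)))
    _ = _ := lintegral_congr fun u => lintegral_const_mul _ (by fun_prop)

theorem step (h : ℕ → ℝ≥0∞) : ∫⁻ x in Ioi (0 : ℝ), h (⌈x⌉₊ - 1) = ∑' m, h m := by
  have e : Ioi (0 : ℝ) = ⋃ m : ℕ, Ioc (m : ℝ) (m + 1) := by
    ext x
    simp only [mem_Ioi, mem_iUnion, mem_Ioc]
    constructor
    · intro hx
      have h1 : 1 ≤ ⌈x⌉₊ := Nat.ceil_pos.2 hx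
      refine ⟨⌈x⌉₊ - 1, ?_, ?_⟩
      · rw [← Nat.lt_ceil]; omega
      · push_cast [h1]
        simpa using Nat.le_ceil x
    · rintro ⟨m, h1, _⟩
      exact lt_of_le_of_lt (Nat.cast_nonneg m) h1
  have hc : ∀ m : ℕ, ∀ x ∈ Ioc (m : ℝ) (m + 1), ⌈x⌉₊ - 1 = m := by
    intro m x hx
    have : ⌈x⌉₊ = m + 1 := (Nat.ceil_eq_iff (by omega)).2 (by simpa using hx)
    omega
  rw [e, lintegral_iUnion (fun _ => measurableSet_Ioc) (fun i j hij => by
    rw [Function.onFun, Set.disjoint_left]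
    intro x h1 h2
    exact hij ((hc i x h1).symm.trans (hc j x h2)))]
  refine tsum_congr fun m => ?_
  rw [setLIntegral_congr_fun measurableSet_Ioc (g := fun _ => h m)
    (fun x hx => by simp only [hc m x hx])]
  simp

theorem series_ineq (a b : ℕ → ℝ≥0∞) :
    ∑' m, ∑' n, a m * b n * ENNReal.ofReal ((((m : ℝ) + 1) + ((n : ℝ) + 1)) ^ (-(1 / 2) : ℝ)) ≤
      ENNReal.ofReal C0 * (∑' m, a m ^ (4 / 3 : ℝ)) ^ (3 / 4 : ℝ) *
        (∑' m, b m ^ (4 / 3 : ℝ)) ^ (3 / 4 : ℝ) := by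
  have hm : ∀ a : ℕ → ℝ≥0∞, Measurable fun x : ℝ => a (⌈x⌉₊ - 1) := fun a =>
    (measurable_from_nat (f := fun n => a (n - 1))).comp Nat.measurable_ceil
  have h := integral_ineq (hm a) (hm b)
  rw [step fun m => a m ^ (4 / 3 : ℝ), step fun m => b m ^ (4 / 3 : ℝ)] at h
  refine le_trans ?_ h
  rw [← step]
  refine setLIntegral_mono' measurableSet_Ioi fun x hx => ?_
  rw [← step]
  refine setLIntegral_mono' measurableSet_Ioi fun y hy => ?_
  have c : ∀ z : ℝ, 0 < z → z ≤ ((⌈z⌉₊ - 1 : ℕ) : ℝ) + 1 := fun z hz => by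
    have h1 : 1 ≤ ⌈z⌉₊ := Nat.ceil_pos.2 hz
    push_cast [h1]
    simpa using Nat.le_ceil z
  exact mul_le_mul_right (ENNReal.ofReal_le_ofReal (Real.rpow_le_rpow_of_nonpos (add_pos hx hy)
    (add_le_add (c x hx) (c y hy)) (by norm_num))) _

/-- `λ = 2 - 1/p - 1/q` -/
noncomputable def lam (p q : ℝ) : ℝ := 2 - 1 / p - 1 / q

/-- `K(p,q) = π^λ csc^λ(π (q-1) / (λ q))` -/
noncomputable def K (p q : ℝ) : ℝ :=
  Real.pi ^ lam p q * (1 / Real.sin (Real.pi * (q - 1) / (lam p q * q))) ^ lam p q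

/-- inequality (S) with constant `C`; `a m` stands for `a_{m+1}` -/
def HoldsS (p q C : ℝ) : Prop :=
  ∀ a b : ℕ → NNReal,
    ∑' m, ∑' n, (a m : ℝ≥0∞) * b n * ENNReal.ofReal ((((m : ℝ) + 1) + ((n : ℝ) + 1)) ^ (-lam p q))
      ≤ ENNReal.ofReal C * (∑' m, (a m : ℝ≥0∞) ^ p) ^ (1 / p) * (∑' n, (b n : ℝ≥0∞) ^ q) ^ (1 / q)

/-- inequality (I) with constant `C` -/
def HoldsI (p q C : ℝ) : Prop :=
  ∀ f g : ℝ → ℝ≥0∞, Measurable f → Measurable g →
    ∫⁻ x in Ioi 0, ∫⁻ y in Ioi 0, f x * g y * ENNReal.ofReal ((x + y) ^ (-lam p q))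
      ≤ ENNReal.ofReal C * (∫⁻ x in Ioi 0, f x ^ p) ^ (1 / p) * (∫⁻ y in Ioi 0, g y ^ q) ^ (1 / q)

theorem lam_eq : lam (4 / 3) (4 / 3) = 1 / 2 := by unfold lam; norm_num

theorem C0_lt : C0 < K (4 / 3) (4 / 3) := by
  rw [K, lam_eq, show Real.pi * (4 / 3 - 1) / (1 / 2 * (4 / 3)) = Real.pi / 2 by ring,
    Real.sin_pi_div_two, div_one, Real.one_rpow, mul_one, ← Real.sqrt_eq_rpow, C0]
  have := Real.pi_pos
  exact Real.sqrt_lt_sqrt (by positivity) (by linarith)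

theorem holdsS : HoldsS (4 / 3) (4 / 3) C0 := by
  intro a b
  rw [lam_eq, show (1 : ℝ) / (4 / 3) = 3 / 4 by norm_num]
  exact series_ineq _ _

theorem holdsI : HoldsI (4 / 3) (4 / 3) C0 := by
  intro f g hf hg
  rw [lam_eq, show (1 : ℝ) / (4 / 3) = 3 / 4 by norm_num]
  exact integral_ineq hf hg

end Pool.Agent.H54.Hilb
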