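import Mathlib

namespace Pool.Agent.H54.Jac

open Finset

/-- product of the integers below `m` prime to `p` -/
def F (p m : ℕ) : ℤ := ∏ i ∈ range m, if p ∣ i then 1 else (i : ℤ)

lemma fact_eq {p : ℕ} (hp : 0 < p) (m : ℕ) : (m.factorial : ℤ) = F p (m + 1) * p ^ (m / p) * (m / p).factorial := by
  induction m with
  | zero => simp [F]
  | succ m ih =>
    rw [Nat.factorial_succ, F, prod_range_succ, ← F, Nat.succ_div]
    push_cast
    rw [ih]
    split_ifs with h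
    · have e : ((m : ℤ) + 1) = p * ((m / p : ℕ) + 1) := by
        have := Nat.mul_div_cancel' h
        rw [Nat.succ_div, if_pos h] at this
        exact_mod_cast this.symm
      rw [Nat.factorial_succ, e]; push_cast; ring
    · simp; ring

lemma fact_p {p : ℕ} (hp : 0 < p) (n : ℕ) : ((p * n).factorial : ℤ) = F p (p * n) * p ^ n * n.factorial := by
  rw [fact_eq hp, Nat.mul_div_cancel_left _ hp, F, prod_range_succ, ← F]; simp

lemma F_cop {p : ℕ} (hp : p.Prime) (m : ℕ) : IsCoprime (p : ℤ) (F p m) := by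
  refine IsCoprime.prod_right (fun i _ => ?_)
  split_ifs with h
  · exact isCoprime_one_right
  · exact Nat.isCoprime_iff_coprime.2 ((Nat.Prime.coprime_iff_not_dvd hp).2 h)

lemma ch_eq {p : ℕ} (hp : 0 < p) (k l : ℕ) :
    ((p * (k + l)).choose (p * k) : ℤ) * (F p (p * k) * F p (p * l)) = (k + l).choose k * F p (p * (k + l)) := by
  have e1 := congrArg (Nat.cast (R := ℤ)) (Nat.add_choose_mul_factorial_mul_factorial (p * l) (p * k))
  have e2 := congrArg (Nat.cast (R := ℤ)) (Nat.add_choose_mul_factorial_mul_factorial l k)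
  rw [← mul_add, add_comm l k] at e1
  rw [add_comm l k] at e2
  push_cast at e1 e2
  rw [fact_p hp, fact_p hp, fact_p hp, ← e2] at e1
  have h0 : (p : ℤ) ^ (k + l) * l.factorial * k.factorial ≠ 0 := by positivity
  apply mul_left_cancel₀ h0
  linear_combination e1

lemma prod_eps {ι : Type} (s : Finset ι) (b : ι → ℤ) (e : ℤ) :
    ∃ z, ∏ i ∈ s, (1 + e * b i) = 1 + e * ∑ i ∈ s, b i + e ^ 2 * z := by
  classical
  induction s using Finset.induction_on with
  | empty => exact ⟨0, by simp⟩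
  | insert a s ha ih =>
    obtain ⟨z, hz⟩ := ih
    rw [prod_insert ha, sum_insert ha, hz]
    exact ⟨z + b a * ∑ i ∈ s, b i + e * b a * z, by ring⟩

lemma inv_sum {q : ℕ} [NeZero q] (h2 : IsUnit (2 : ZMod q)) (h3 : IsUnit (3 : ZMod q)) :
    ∑ i ∈ range q, (Ring.inverse (i : ZMod q)) ^ 2 = 0 := by
  have e : ∑ i ∈ range q, (Ring.inverse (i : ZMod q)) ^ 2 = ∑ y : ZMod q, (Ring.inverse y) ^ 2 :=
    Finset.sum_nbij' (fun t => (t : ZMod q)) (fun y => y.val) (fun _ _ => by simp) (fun y _ => by simp [ZMod.val_lt])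
      (fun t ht => ZMod.val_cast_of_lt (by simpa using ht)) (fun y _ => by simp) (fun _ _ => rfl)
  rw [e]
  have e2 := Fintype.sum_equiv h2.unit.mulLeft (fun y : ZMod q => (Ring.inverse (2 * y)) ^ 2)
    (fun y => (Ring.inverse y) ^ 2) (fun _ => rfl)
  simp only [Ring.mul_inverse_rev, mul_pow, ← Finset.sum_mul] at e2
  have e3 := Ring.inverse_mul_cancel _ h2
  refine h3.mul_left_cancel ?_
  linear_combination (-4) * e2 + (∑ y : ZMod q, (Ring.inverse y) ^ 2) * (Ring.inverse (2 : ZMod q) * 2 + 1) * e3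

def P (p q t : ℕ) : ℤ := ∏ i ∈ range (q + 1), if p ∣ i then 1 else ((q : ℤ) * t + i)

lemma P_sq {p q : ℕ} (hq : p ∣ q) (t : ℕ) :
    P p q t ^ 2 = ∏ i ∈ range (q + 1), if p ∣ i then 1 else ((i : ℤ) * (q - i) + q ^ 2 * (t * (t + 1))) := by
  rw [sq]
  nth_rw 2 [P]
  rw [← prod_range_reflect, P, ← prod_mul_distrib]
  refine prod_congr rfl (fun i hi => ?_)
  have hi' : i ≤ q := by simp at hi; omega
  rw [show q + 1 - 1 - i = q - i by omega]
  by_cases h : p ∣ i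
  · simp [h, Nat.dvd_sub hq h]
  · rw [if_neg h, if_neg h, if_neg (fun h2 => h (by simpa [Nat.sub_sub_self hi'] using Nat.dvd_sub hq h2))]
    push_cast [hi']; ring

lemma P_cong {p : ℕ} (hp : p.Prime) (h3 : 3 < p) (s t : ℕ) :
    P p (p ^ (s + 1)) t ≡ F p (p ^ (s + 1)) [ZMOD ((p ^ (s + 1) : ℕ) : ℤ) ^ 3] := by
  obtain ⟨q, hq⟩ : ∃ q, q = p ^ (s + 1) := ⟨_, rfl⟩
  rw [← hq]
  have q0 : q ≠ 0 := by rw [hq]; exact pow_ne_zero _ hp.ne_zero
  have : NeZero q := ⟨q0⟩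
  have pq : p ∣ q := by rw [hq]; exact dvd_pow_self _ (by omega)
  have un : ∀ i : ℕ, IsUnit (i : ZMod q) ↔ ¬p ∣ i := fun i => by
    rw [ZMod.isUnit_iff_coprime, hq, Nat.coprime_pow_right_iff (by omega), Nat.coprime_comm, hp.coprime_iff_not_dvd]
  have e0 : P p q 0 = F p q := by rw [P, prod_range_succ, if_pos pq, F]; simp
  let b : ℕ → ℤ := fun i => -(((Ring.inverse (i : ZMod q)).val : ℤ) ^ 2)
  have hb : (q : ℤ) ∣ ∑ i ∈ range (q + 1), b i := by
    rw [← ZMod.intCast_zmod_eq_zero_iff_dvd, sum_range_succ]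
    have := inv_sum (q := q) (by simpa using (un 2).2 (Nat.not_dvd_of_pos_of_lt (by omega) (by omega)))
      (by simpa using (un 3).2 (Nat.not_dvd_of_pos_of_lt (by omega) (by omega)))
    simp [b, this]
  have e1 : P p q t ^ 2 ≡ P p q 0 ^ 2 * ∏ i ∈ range (q + 1), (1 + (q : ℤ) ^ 2 * (t * (t + 1)) * b i) [ZMOD (q : ℤ) ^ 3] := by
    rw [P_sq pq, P_sq pq, ← prod_mul_distrib]
    refine Int.ModEq.prod (fun i _ => ?_)
    split_ifs with h
    · simp [b, Ring.inverse_non_unit _ (fun hu => (un i).1 hu h)]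
    · have : (q : ℤ) ∣ (i : ℤ) * (q - i) * b i - 1 := by
        rw [← ZMod.intCast_zmod_eq_zero_iff_dvd]
        have := Ring.mul_inverse_cancel _ ((un i).2 h)
        simp [b]
        linear_combination ((i : ZMod q) * Ring.inverse (i : ZMod q) + 1) * this
      obtain ⟨z, hz⟩ := this
      exact Int.modEq_iff_dvd.2 ⟨t * (t + 1) * z, by push_cast; linear_combination (q : ℤ) ^ 2 * (t * (t + 1)) * hz⟩
  obtain ⟨z, hz⟩ := prod_eps (range (q + 1)) b ((q : ℤ) ^ 2 * (t * (t + 1)))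
  obtain ⟨w, hw⟩ := hb
  rw [hz, hw] at e1
  obtain ⟨y, hy⟩ := e1.dvd
  have e2 : P p q t ≡ P p q 0 [ZMOD p] := by
    refine Int.ModEq.prod (fun i _ => ?_)
    split_ifs
    · rfl
    · obtain ⟨r, rfl⟩ := pq
      exact Int.modEq_iff_dvd.2 ⟨-(r * t), by push_cast; ring⟩
  obtain ⟨x, hx⟩ := e2.dvd
  rw [e0] at hx hy
  have c1 : IsCoprime (p : ℤ) (F p q + P p q t) := by
    rw [show F p q + P p q t = 2 * F p q + p * -x by linear_combination -hx]
    exact (IsCoprime.mul_right (Nat.isCoprime_iff_coprime.2 ((Nat.coprime_primes hp Nat.prime_two).2 (by omega)))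
      (F_cop hp q)).add_mul_left_right _
  have c2 : IsCoprime ((q : ℤ) ^ 3) (F p q + P p q t) := by rw [hq]; push_cast; rw [← hq]; exact c1.pow_left.pow_left
  refine Int.modEq_iff_dvd.2 (c2.dvd_of_dvd_mul_left ⟨y - F p q ^ 2 * (t * (t + 1) * w + q * (t * (t + 1)) ^ 2 * z), ?_⟩)
  linear_combination hy

lemma F_cong {p : ℕ} (hp : p.Prime) (h3 : 3 < p) (s N : ℕ) :
    F p (p ^ (s + 1) * N) ≡ F p (p ^ (s + 1)) ^ N [ZMOD ((p ^ (s + 1) : ℕ) : ℤ) ^ 3] := by
  induction N with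
  | zero => simp [F]
  | succ N ih =>
    have pq : p ∣ p ^ (s + 1) := dvd_pow_self _ (by omega)
    have e : F p (p ^ (s + 1) * (N + 1)) = F p (p ^ (s + 1) * N) * P p (p ^ (s + 1)) N := by
      rw [mul_add, mul_one, F, prod_range_add, ← F, P, prod_range_succ, if_pos pq, mul_one]
      congr 1
      refine prod_congr rfl (fun i _ => ?_)
      simp only [Nat.dvd_add_right (pq.mul_right N)]; push_cast; rfl
    rw [e, pow_succ (F _ _)]
    exact ih.mul (P_cong hp h3 s N)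

/-- Jacobsthal's congruence in ratio form -/
lemma jac {p : ℕ} (hp : p.Prime) (h3 : 3 < p) (s d k l : ℕ) (hk : p ^ s ∣ k) (hl : p ^ s ∣ l)
    (hd : (p : ℤ) ^ d ∣ (k + l).choose k) :
    (p : ℤ) ^ (d + 3 * (s + 1)) ∣ ((p * (k + l)).choose (p * k) : ℤ) - (k + l).choose k := by
  have e := ch_eq hp.pos k l
  obtain ⟨K, rfl⟩ := hk
  obtain ⟨L, rfl⟩ := hl
  have r : ∀ x, p * (p ^ s * x) = p ^ (s + 1) * x := fun x => by ring
  have c : IsCoprime ((p : ℤ) ^ (d + 3 * (s + 1))) (F p (p * (p ^ s * K)) * F p (p * (p ^ s * L))) :=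
    ((F_cop hp _).mul_right (F_cop hp _)).pow_left
  refine c.dvd_of_dvd_mul_right ?_
  rw [sub_mul, e, ← mul_sub, pow_add]
  refine mul_dvd_mul hd ?_
  rw [← mul_add, r, r, r]
  have := (F_cong hp h3 s K).mul (F_cong hp h3 s L)
  rw [← pow_add] at this
  have := (this.trans (F_cong hp h3 s (K + L)).symm).dvd
  push_cast at this
  rwa [← pow_mul, mul_comm] at this

lemma ch_dvd {p : ℕ} (hp : p.Prime) (d s n k : ℕ) (hk : ¬p ∣ k) (hn : p ^ (d + s) ∣ n) :
    (p : ℤ) ^ d ∣ (n.choose (p ^ s * k) : ℤ) := by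
  have k0 : p ^ s * k ≠ 0 := mul_ne_zero (pow_ne_zero _ hp.ne_zero) (by rintro rfl; simp at hk)
  obtain ⟨j, hj⟩ := Nat.exists_eq_succ_of_ne_zero k0
  rcases n with _ | n
  · rw [hj]; simp
  have e := Nat.add_one_mul_choose_eq n j
  rw [Nat.succ_eq_add_one] at hj
  rw [← hj] at e
  have : p ^ s * p ^ d ∣ p ^ s * ((n + 1).choose (p ^ s * k) * k) := by
    rw [← pow_add, add_comm s d, show p ^ s * ((n + 1).choose (p ^ s * k) * k) = (n + 1).choose (p ^ s * k) * (p ^ s * k) by ring,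
      ← e]
    exact hn.mul_right _
  have := Nat.dvd_of_mul_dvd_mul_left (pow_pos hp.pos s) this
  exact_mod_cast (Nat.Coprime.pow_left d ((Nat.Prime.coprime_iff_not_dvd hp).2 hk)).dvd_of_dvd_mul_right this

/-- for every `k ≤ n` there is a level `s` splitting the valuation of `n` -/
lemma level {p : ℕ} (hp : p.Prime) (a n k : ℕ) (hn : p ^ a ∣ n) :
    ∃ s d, s + d = a ∧ p ^ s ∣ k ∧ (p : ℤ) ^ d ∣ (n.choose k : ℤ) := by
  by_cases h : p ^ a ∣ k
  · exact ⟨a, 0, rfl, h, by simp⟩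
  · obtain ⟨s, k', h1, rfl⟩ := Nat.exists_eq_pow_mul_and_not_dvd (n := k) (by rintro rfl; simp at h) p hp.ne_one
    have : s < a := by
      by_contra hc
      exact h ((pow_dvd_pow p (by omega)).mul_right _)
    exact ⟨s, a - s, by omega, Dvd.intro _ rfl, ch_dvd hp _ _ _ _ h1 (by rwa [Nat.sub_add_cancel this.le])⟩

lemma cube {p : ℕ} (hp : p.Prime) (h3 : 3 < p) (a n k : ℕ) (hn : p ^ a ∣ n) (hk : k ≤ n) :
    (p : ℤ) ^ (3 + 3 * a) ∣ ((p * n).choose (p * k) : ℤ) ^ 3 - (n.choose k : ℤ) ^ 3 := by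
  obtain ⟨s, d, rfl, h1, h2⟩ := level hp a n k hn
  obtain ⟨l, rfl⟩ := Nat.exists_eq_add_of_le hk
  have hl : p ^ s ∣ l := (Nat.dvd_add_right h1).1 ((pow_dvd_pow p (by omega)).trans hn)
  obtain ⟨x, hx⟩ := jac hp h3 s d k l h1 hl h2
  obtain ⟨y, hy⟩ := h2
  rw [sub_eq_iff_eq_add] at hx
  rw [hx, hy]
  exact ⟨3 * x * y ^ 2 + 3 * p ^ (3 * (s + 1)) * x ^ 2 * y + p ^ (6 * (s + 1)) * x ^ 3, by ring⟩

end Pool.Agent.H54.Jac
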