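import Pool.Agent.H54.Ritt

namespace Pool.Agent.H54.Kreiss

open Finset SupNorm Complex Ritt

/-- `T` is strongly Kreiss bounded with constant at most `M`. -/
def StrongKreiss {X : Type} [NormedAddCommGroup X] [NormedSpace ℂ X] (T : X →L[ℂ] X) (M : ℝ) :
    Prop :=
  spectrum ℂ T ⊆ Metric.closedBall 0 1 ∧
    ∀ k : ℕ, 1 ≤ k → ∀ z : ℂ, 1 < ‖z‖ → ‖resolvent T z ^ k‖ ≤ M / (‖z‖ - 1) ^ k

/-- `θ` is admissible. -/
def Admissible (θ : ℝ) : Prop :=
  ∀ M : ℝ, 1 ≤ M → ∃ C : ℝ, ∀ d : ℕ, 1 ≤ d →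
    ∀ (X : Type) [NormedAddCommGroup X] [NormedSpace ℂ X] [CompleteSpace X]
      [FiniteDimensional ℂ X], Module.finrank ℂ X = d → ∀ T : X →L[ℂ] X, StrongKreiss T M →
      ∀ n : ℕ, 1 ≤ n → ‖T ^ n‖ ≤ C * (d : ℝ) ^ θ

noncomputable def B (a : ℕ → ℝ) : ℕ → ℕ → ℝ
  | 0, j => a j
  | N + 1, j => (B a N j + B a N (j + 1)) / 2

noncomputable def P {ι : Type} (lam : ι → ℂ) : List ℂ → ι → ℂ
  | [] => 1
  | ζ :: L => fun i => P lam L i * ((1 + ζ * lam i) / 2)

theorem P_le {ι : Type} (lam : ι → ℂ) (h : ∀ i, ‖lam i‖ ≤ 1) (i : ι) :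
    ∀ L : List ℂ, (∀ ζ ∈ L, ‖ζ‖ ≤ 1) → ‖P lam L i‖ ≤ 1
  | [], _ => by simp [P]
  | ζ :: L, hL => by
    have h1 := P_le lam h i L fun x hx => hL x (List.mem_cons_of_mem _ hx)
    have h2 : ‖ζ * lam i‖ ≤ 1 := by
      rw [norm_mul]; exact mul_le_one₀ (hL ζ List.mem_cons_self) (norm_nonneg _) (h i)
    have h3 : ‖(1 + ζ * lam i) / 2‖ ≤ 1 := by
      have := norm_add_le 1 (ζ * lam i)
      rw [norm_div, div_le_one (by simp)]
      simp only [norm_one, Complex.norm_ofNat] at *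
      linarith
    simp only [P]
    rw [norm_mul]
    exact mul_le_one₀ h1 (norm_nonneg _) h3

theorem sum_le_B {ι : Type} [Fintype ι] (lam c : ι → ℂ) (a : ℕ → ℝ)
    (h : ∀ k, ‖∑ i, c i * lam i ^ k‖ ≤ a k) : ∀ L : List ℂ, (∀ ζ ∈ L, ‖ζ‖ ≤ 1) → ∀ j : ℕ,
      ‖∑ i, c i * P lam L i * lam i ^ j‖ ≤ B a L.length j
  | [], _, j => by simpa [P, B] using h j
  | ζ :: L, hL, j => by
    have ih := sum_le_B lam c a h L fun x hx => hL x (List.mem_cons_of_mem _ hx)
    have e : ∑ i, c i * P lam (ζ :: L) i * lam i ^ j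
        = (∑ i, c i * P lam L i * lam i ^ j + ζ * ∑ i, c i * P lam L i * lam i ^ (j + 1)) / 2 := by
      rw [mul_sum, ← sum_add_distrib, sum_div]
      refine sum_congr rfl fun i _ => ?_
      simp only [P]; ring
    rw [e, List.length_cons, B, norm_div, Complex.norm_ofNat]
    have h1 := norm_add_le (∑ i, c i * P lam L i * lam i ^ j)
      (ζ * ∑ i, c i * P lam L i * lam i ^ (j + 1))
    rw [norm_mul] at h1
    have h2 := mul_le_mul_of_nonneg_right (hL ζ List.mem_cons_self)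
      (norm_nonneg (∑ i, c i * P lam L i * lam i ^ (j + 1)))
    have := ih j
    have := ih (j + 1)
    linarith

theorem B_lin {δ : ℝ} (hδ : 0 ≤ δ) : ∀ N j : ℕ, B (fun k => k * δ) N j ≤ (N + j) * δ
  | 0, j => by simp [B]
  | N + 1, j => by
    have h1 := B_lin hδ N j
    have h2 := B_lin hδ N (j + 1)
    rw [B]
    push_cast at *
    nlinarith

theorem geo {m : ℕ} {ω : ℂ} (hω : IsPrimitiveRoot ω m) (k : ℕ) :
    ∑ s ∈ range m, (ω ^ s) ^ k = if m ∣ k then (m : ℂ) else 0 := by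
  have e : ∀ s, (ω ^ s) ^ k = (ω ^ k) ^ s := fun s => by rw [← pow_mul, ← pow_mul, mul_comm]
  simp only [e]
  split_ifs with h
  · rw [(hω.pow_eq_one_iff_dvd k).2 h]; simp
  · have h1 : ω ^ k ≠ 1 := fun h' => h ((hω.pow_eq_one_iff_dvd k).1 h')
    rw [geom_sum_eq h1, ← pow_mul, mul_comm, pow_mul, hω.pow_eq_one]
    simp

theorem B_ind {m : ℕ} (hm : 0 < m) {ω : ℂ} (hω : IsPrimitiveRoot ω m) : ∀ N j : ℕ,
    ((B (fun k => if m ∣ k then 1 else 0) N j : ℝ) : ℂ)
      = (∑ s ∈ range m, ((1 + ω ^ s) / 2) ^ N * (ω ^ s) ^ j) / m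
  | 0, j => by
    have : (m : ℂ) ≠ 0 := by exact_mod_cast hm.ne'
    simp only [B, pow_zero, one_mul, geo hω]
    split_ifs <;> simp [this]
  | N + 1, j => by
    rw [B]
    push_cast
    rw [B_ind hm hω N j, B_ind hm hω N (j + 1), ← add_div, ← sum_add_distrib, div_div, mul_comm,
      ← div_div, sum_div]
    congr 1
    refine sum_congr rfl fun s _ => ?_
    ring

theorem add_lt_two {y : ℂ} (h : ‖y‖ = 1) (h1 : y ≠ 1) : ‖1 + y‖ < 2 := by
  have h2 := parallelogram_law_with_norm ℝ (1 : ℂ) y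
  have h3 : 0 < ‖1 - y‖ := norm_pos_iff.2 (sub_ne_zero.2 h1.symm)
  rw [h, norm_one] at h2
  nlinarith [norm_nonneg (1 + y)]

theorem B_ev {m : ℕ} (hm : 0 < m) : ∃ N0 : ℕ, 0 < N0 ∧ ∀ N, N0 ≤ N →
    B (fun k => if m ∣ k then 1 else 0) N 0 ≤ 2 / m := by
  have hω := Complex.isPrimitiveRoot_exp m hm.ne'
  set ω := Complex.exp (2 * Real.pi * I / m)
  have hn : ∀ s, ‖ω ^ s‖ = 1 := fun s => by rw [norm_pow, hω.norm'_eq_one hm.ne', one_pow]
  have ht : Filter.Tendsto (fun N : ℕ => ∑ s ∈ range m, ‖(1 + ω ^ s) / 2‖ ^ N) Filter.atTop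
      (nhds (∑ s ∈ range m, if s = 0 then 1 else 0)) := by
    refine tendsto_finsetSum _ fun s hs => ?_
    split_ifs with h
    · subst h
      have : ∀ N : ℕ, (1 : ℝ) = ‖(1 + ω ^ 0) / 2‖ ^ N := fun N => by norm_num
      exact tendsto_const_nhds.congr this
    · refine tendsto_pow_atTop_nhds_zero_of_lt_one (norm_nonneg _) ?_
      have h1 : ω ^ s ≠ 1 := hω.pow_ne_one_of_pos_of_lt h (mem_range.1 hs)
      rw [norm_div, div_lt_one (by simp), Complex.norm_ofNat]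
      exact add_lt_two (hn s) h1
  have e : (∑ s ∈ range m, if s = 0 then (1 : ℝ) else 0) = 1 := by
    rw [sum_ite_eq' (range m) 0 fun _ => (1 : ℝ), if_pos (mem_range.2 hm)]
  rw [e] at ht
  obtain ⟨N0, h⟩ := Filter.eventually_atTop.1 (ht.eventually_le_const (show (1 : ℝ) < 2 by norm_num))
  refine ⟨N0 + 1, Nat.succ_pos _, fun N hN => ?_⟩
  have h1 := h N (by omega)
  have h2 := congrArg norm (B_ind hm hω N 0)
  rw [Complex.norm_real, Real.norm_eq_abs, norm_div, Complex.norm_natCast] at h2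
  refine (le_abs_self _).trans (h2.le.trans ?_)
  refine div_le_div_of_nonneg_right (((norm_sum_le _ _).trans (le_of_eq ?_)).trans h1)
    (Nat.cast_nonneg _)
  simp [norm_pow]

theorem abstract {ι : Type} [Fintype ι] (lam c : ι → ℂ) {t : ℝ} (ht : 0 < t)
    (h1 : ∀ i, ‖lam i‖ ≤ 1)
    (h2 : ∀ L : List ℂ, (∀ ζ ∈ L, ‖ζ‖ ≤ 1) → ‖∑ i, c i * P lam L i‖ ≤ t) :
    ∃ (X : Type) (_ : NormedAddCommGroup X) (_ : NormedSpace ℂ X) (_ : CompleteSpace X)
      (_ : FiniteDimensional ℂ X), Module.finrank ℂ X = Fintype.card ι ∧ ∃ T : X →L[ℂ] X,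
      StrongKreiss T 1 ∧ ∀ n : ℕ, ‖∑ i, c i * lam i ^ n‖ ≤ ‖T ^ n‖ * t := by
  let ψ : {L : List ℂ // ∀ ζ ∈ L, ‖ζ‖ ≤ 1} × Option ι → (ι → ℂ) →ₗ[ℂ] ℂ := fun k =>
    match k.2 with
    | none => fn fun i => c i * P lam k.1.1 i
    | some i => ((t : ℂ) * P lam k.1.1 i) • LinearMap.proj i
  let F : Fam (ι → ℂ) :=
    { I := {L : List ℂ // ∀ ζ ∈ L, ‖ζ‖ ≤ 1} × Option ι
      ψ := ψ
      bdd := fun x => ⟨t * ‖x‖ + (∑ i, ‖c i‖) * ‖x‖, by
        have p1 : 0 ≤ (∑ i, ‖c i‖) * ‖x‖ := by positivity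
        have p2 : 0 ≤ t * ‖x‖ := by positivity
        have p3 : ∀ (L : {L : List ℂ // ∀ ζ ∈ L, ‖ζ‖ ≤ 1}) i, ‖P lam L.1 i * x i‖ ≤ ‖x‖ :=
          fun L i => by
            rw [norm_mul]
            exact (mul_le_of_le_one_left (norm_nonneg _) (P_le lam h1 i L.1 L.2)).trans
              (norm_le_pi_norm x i)
        rintro ⟨L, _ | i⟩
        · have := sum_bd c _ (p3 L)
          show ‖∑ i, c i * P lam L.1 i * x i‖ ≤ _
          simp only [mul_assoc]
          linarith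
        · show ‖(t : ℂ) * P lam L.1 i * x i‖ ≤ _
          rw [mul_assoc, norm_mul, Complex.norm_real, Real.norm_eq_abs, abs_of_pos ht]
          have := mul_le_mul_of_nonneg_left (p3 L i) ht.le
          linarith⟩
      sep := fun x hx => funext fun i => by
        have : (t : ℂ) * 1 * x i = 0 := hx (⟨[], by simp⟩, some i)
        have h0 : (t : ℂ) ≠ 0 := by exact_mod_cast ht.ne'
        simpa [h0] using this }
  let Θ : (ι → ℂ) →ₐ[ℂ] (F.Sp →L[ℂ] F.Sp) := F.op.comp (Algebra.lmul ℂ (ι → ℂ))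
  have hq : ∀ ζ : ℂ, ‖ζ‖ ≤ 1 → ∀ x : F.Sp, ‖Θ (fun i => (1 + ζ * lam i) / 2) x‖ ≤ ‖x‖ := by
    intro ζ hζ x
    refine F.norm_le _ (norm_nonneg _) ?_
    rintro ⟨L, o⟩
    have := F.le_norm x (⟨ζ :: L.1, by
      intro y hy
      rcases List.mem_cons.1 hy with rfl | hy
      · exact hζ
      · exact L.2 y hy⟩, o)
    refine le_trans (le_of_eq (congrArg norm ?_)) this
    rcases o with _ | i
    · show ∑ i, c i * P lam L.1 i * ((1 + ζ * lam i) / 2 * (show ι → ℂ from x) i)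
        = ∑ i, c i * (P lam L.1 i * ((1 + ζ * lam i) / 2)) * (show ι → ℂ from x) i
      exact sum_congr rfl fun i _ => by ring
    · show (t : ℂ) * P lam L.1 i * ((1 + ζ * lam i) / 2 * (show ι → ℂ from x) i)
        = (t : ℂ) * (P lam L.1 i * ((1 + ζ * lam i) / 2)) * (show ι → ℂ from x) i
      ring
  have hne : ∀ z : ℂ, 1 < ‖z‖ → ∀ i, z - lam i ≠ 0 := fun z hz i h => by
    have := h1 i
    rw [← sub_eq_zero.1 h] at this
    linarith
  have hres : ∀ z : ℂ, 1 < ‖z‖ → z ∉ spectrum ℂ (Θ lam) ∧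
      resolvent (Θ lam) z = Θ fun i => (z - lam i)⁻¹ := by
    intro z hz
    have e1 : (algebraMap ℂ (ι → ℂ) z - lam) * (fun i => (z - lam i)⁻¹) = 1 := by
      funext i
      exact mul_inv_cancel₀ (hne z hz i)
    apply resolvent_eq
    · rw [← Θ.commutes, ← map_sub, ← map_mul, e1, map_one]
    · rw [← Θ.commutes, ← map_sub, ← map_mul, mul_comm, e1, map_one]
  refine ⟨F.Sp, inferInstance, inferInstance, inferInstance, inferInstance,
    Module.finrank_fintype_fun_eq_card ℂ, Θ lam, ⟨?_, ?_⟩, fun n => ?_⟩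
  · intro z hz
    by_contra h
    rw [mem_closedBall_zero_iff, not_le] at h
    exact (hres z h).1 hz
  · intro k hk z hz
    have hz0 : z ≠ 0 := by rintro rfl; norm_num at hz
    have hR : ‖resolvent (Θ lam) z‖ ≤ 1 / (‖z‖ - 1) := by
      rw [(hres z hz).2]
      refine ContinuousLinearMap.opNorm_le_bound _ (by apply div_nonneg <;> linarith) fun y => ?_
      set x := Θ (fun i => (z - lam i)⁻¹) y with hx
      have hζ : ‖(‖z‖ : ℂ) / z‖ = 1 := by
        rw [norm_div, Complex.norm_real, norm_norm, div_self (norm_ne_zero_iff.2 hz0)]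
      have e : ((‖z‖ + 1 : ℝ) : ℂ) • x = ((‖z‖ : ℂ) / z) • y
          + (2 : ℂ) • Θ (fun i => (1 + (‖z‖ : ℂ) / z * lam i) / 2) x := by
        funext i
        show ((‖z‖ + 1 : ℝ) : ℂ) * ((z - lam i)⁻¹ * (show ι → ℂ from y) i)
          = (‖z‖ : ℂ) / z * (show ι → ℂ from y) i
            + 2 * ((1 + (‖z‖ : ℂ) / z * lam i) / 2 * ((z - lam i)⁻¹ * (show ι → ℂ from y) i))
        have := hne z hz i
        push_cast
        field_simp
        ring
      have e2 := congrArg norm e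
      have h3 := norm_add_le (((‖z‖ : ℂ) / z) • y)
        ((2 : ℂ) • Θ (fun i => (1 + (‖z‖ : ℂ) / z * lam i) / 2) x)
      rw [← e2, norm_smul, norm_smul, norm_smul, hζ, Complex.norm_real, Real.norm_eq_abs,
        abs_of_pos (by linarith), Complex.norm_ofNat] at h3
      have h4 := hq _ hζ.le x
      rw [div_mul_eq_mul_div, le_div_iff₀ (by linarith)]
      linarith
    calc _ ≤ ‖resolvent (Θ lam) z‖ ^ k := norm_pow_le' _ hk
      _ ≤ (1 / (‖z‖ - 1)) ^ k := by gcongr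
      _ = _ := by rw [div_pow, one_pow]
  · let x0 : F.Sp := (show ι → ℂ from 1)
    have hx0 : ‖x0‖ ≤ t := by
      refine F.norm_le _ ht.le ?_
      rintro ⟨L, _ | i⟩
      · show ‖∑ i, c i * P lam L.1 i * 1‖ ≤ t
        simpa using h2 L.1 L.2
      · show ‖(t : ℂ) * P lam L.1 i * 1‖ ≤ t
        rw [mul_one, norm_mul, Complex.norm_real, Real.norm_eq_abs, abs_of_pos ht]
        exact mul_le_of_le_one_right ht.le (P_le lam h1 i L.1 L.2)
    have h6 := F.le_norm ((Θ lam ^ n) x0) (⟨[], by simp⟩, none)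
    have h7 := (Θ lam ^ n).le_opNorm x0
    have h8 : F.ψ (⟨[], by simp⟩, none) ((Θ lam ^ n) x0) = ∑ i, c i * lam i ^ n := by
      rw [← map_pow]
      show ∑ i, c i * 1 * ((lam ^ n) i * 1) = _
      simp
    rw [h8] at h6
    have := mul_le_mul_of_nonneg_left hx0 (norm_nonneg (Θ lam ^ n))
    linarith

theorem example_m (m : ℕ) (hm : 0 < m) :
    ∃ (X : Type) (_ : NormedAddCommGroup X) (_ : NormedSpace ℂ X) (_ : CompleteSpace X)
      (_ : FiniteDimensional ℂ X), Module.finrank ℂ X = 2 * m ∧ ∃ T : X →L[ℂ] X,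
      StrongKreiss T 1 ∧ ∃ n : ℕ, 1 ≤ n ∧ (m : ℝ) / 4 ≤ ‖T ^ n‖ := by
  obtain ⟨N0, hN0, hB⟩ := B_ev hm
  have hω := Complex.isPrimitiveRoot_exp m hm.ne'
  set ω := Complex.exp (2 * Real.pi * I / m)
  have hn : ∀ s, ‖ω ^ s‖ = 1 := fun s => by rw [norm_pow, hω.norm'_eq_one hm.ne', one_pow]
  have hm' : (1 : ℝ) ≤ m := by exact_mod_cast hm
  have hN0' : (1 : ℝ) ≤ N0 := by exact_mod_cast hN0
  set δ : ℝ := 1 / (m * N0) with hδ
  have hδ0 : 0 < δ := by positivity
  have hδ1 : δ ≤ 1 := by rw [hδ, div_le_one (by positivity)]; nlinarith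
  let lam : Bool × Fin m → ℂ := fun i => (if i.1 then ((1 - δ : ℝ) : ℂ) else 1) * ω ^ (i.2 : ℕ)
  let c : Bool × Fin m → ℂ := fun i => (if i.1 then -1 else 1) / m
  have hs : ∀ k, ‖∑ i, c i * lam i ^ k‖ = (if m ∣ k then 1 else 0) * (1 - (1 - δ) ^ k) := by
    intro k
    have e : ∑ i, c i * lam i ^ k
        = (((if m ∣ k then 1 else 0) * (1 - (1 - δ) ^ k) : ℝ) : ℂ) := by
      have g := geo hω k
      rw [← Fin.sum_univ_eq_sum_range (fun s => (ω ^ s) ^ k)] at g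
      have hm0 : (m : ℂ) ≠ 0 := by exact_mod_cast hm.ne'
      rw [Fintype.sum_prod_type, Fintype.sum_bool]
      simp only [c, lam, if_true, Bool.false_eq_true, if_false, mul_pow, one_pow, one_mul,
        ← mul_assoc, ← mul_sum, g]
      split_ifs <;> push_cast <;> field_simp <;> ring
    rw [e, Complex.norm_real, Real.norm_eq_abs, abs_of_nonneg]
    have : (1 - δ) ^ k ≤ 1 := pow_le_one₀ (by linarith) (by linarith)
    split_ifs <;> linarith
  obtain ⟨X, i1, i2, i3, i4, hd, T, hT, hb⟩ := abstract lam c (t := 2 / m) (by positivity)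
    (fun i => by
      simp only [lam]
      rw [norm_mul, hn, mul_one]
      split_ifs
      · rw [Complex.norm_real, Real.norm_eq_abs, abs_of_nonneg (by linarith)]; linarith
      · simp)
    (fun L hL => by
      rcases le_total N0 L.length with h | h
      · have := sum_le_B lam c (fun k => if m ∣ k then 1 else 0) (fun k => by
          rw [hs]
          have : 0 ≤ (1 - δ) ^ k := pow_nonneg (by linarith) k
          split_ifs <;> linarith) L hL 0
        simp only [pow_zero, mul_one] at this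
        exact this.trans (hB _ h)
      · have := sum_le_B lam c (fun k => k * δ) (fun k => by
          rw [hs]
          have h1 : 1 + k * (-δ) ≤ (1 + -δ) ^ k := one_add_mul_le_pow (by linarith) k
          have h2 : 0 ≤ k * δ := by positivity
          rw [← sub_eq_add_neg] at h1
          split_ifs <;> linarith) L hL 0
        simp only [pow_zero, mul_one] at this
        refine this.trans ((B_lin hδ0.le _ _).trans ?_)
        have h' : (L.length : ℝ) ≤ N0 := by exact_mod_cast h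
        have e : (N0 : ℝ) * δ = 1 / m := by rw [hδ]; field_simp
        have : (1 : ℝ) / m ≤ 2 / m := by gcongr; norm_num
        have := mul_le_mul_of_nonneg_right h' hδ0.le
        push_cast
        linarith)
  obtain ⟨k, hk⟩ := exists_pow_lt_of_lt_one (show (0 : ℝ) < 1 / 2 by norm_num)
    (show 1 - δ < 1 by linarith)
  refine ⟨X, i1, i2, i3, i4, by simpa using hd, T, hT, m * (k + 1), Nat.mul_pos hm (Nat.succ_pos _),
    ?_⟩
  have h1 := hb (m * (k + 1))
  rw [hs, if_pos (dvd_mul_right _ _), one_mul] at h1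
  have h2 : (1 - δ) ^ (m * (k + 1)) ≤ (1 - δ) ^ k :=
    pow_le_pow_of_le_one (by linarith) (by linarith) (by nlinarith)
  rw [← mul_div_assoc, le_div_iff₀ (by positivity)] at h1
  nlinarith

theorem main {θ : ℝ} (h : Admissible θ) : 1 ≤ θ := by
  by_contra hθ
  push Not at hθ
  obtain ⟨C, hC⟩ := h 1 le_rfl
  have ht : Filter.Tendsto (fun m : ℕ => ((2 * m : ℕ) : ℝ) ^ (1 - θ)) Filter.atTop Filter.atTop :=
    (tendsto_rpow_atTop (by linarith)).comp (tendsto_natCast_atTop_atTop.comp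
      (Filter.tendsto_id.const_mul_atTop' (by norm_num)))
  obtain ⟨m, hm1, hm2⟩ := ((ht.eventually_gt_atTop (8 * C)).and (Filter.eventually_gt_atTop 0)).exists
  obtain ⟨X, i1, i2, i3, i4, hd, T, hT, n, hn, hb⟩ := example_m m hm2
  have h1 := hC (2 * m) (by omega) X hd T hT n hn
  have h0 : (0 : ℝ) < ((2 * m : ℕ) : ℝ) := by positivity
  have e : ((2 * m : ℕ) : ℝ) ^ (1 - θ) * ((2 * m : ℕ) : ℝ) ^ θ = 2 * m := by
    rw [← Real.rpow_add h0]; simp
  have h2 := mul_lt_mul_of_pos_right hm1 (Real.rpow_pos_of_pos h0 θ)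
  linarith

end Pool.Agent.H54.Kreiss
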