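import Pool.Agent.H54.LauA

namespace Pool.Agent.H54.LauB
open Pool.Agent.H54.LauA

theorem beqF {a b : ℕ} : Nat.beq a b = false ↔ a ≠ b := by
  rw [← Bool.not_eq_true, Nat.beq_eq]

theorem xor_lt {a b : ℕ} (ha : a < 64) (hb : b < 64) : a ^^^ b < 64 :=
  Nat.xor_lt_two_pow (n := 6) ha hb

theorem swap (qa qb : ℕ → Bool) (ha : polB qa = true) (hb : polB qb = true) (hn : ndB qb = true)
    (θ : ℕ → ℕ) (hθ : ∀ x < 64, θ x < 64) (h0 : θ 0 = 0)
    (h : ∀ t' < 64, ∃ t < 64, ∀ x < 64, qb (t' ^^^ θ x) = qa (t ^^^ x)) :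
    ∀ x < 64, ∀ y < 64, θ (x ^^^ y) = θ x ^^^ θ y ∧ bb qb (θ x) (θ y) = bb qa x y := by
  intro x hx y hy
  have hxy := xor_lt hx hy
  have key : ∀ t' < 64, (qb (t' ^^^ θ (x ^^^ y)) ^^ qb (t' ^^^ (θ x ^^^ θ y))) =
      (bb qa x y ^^ bb qb (θ x) (θ y)) := by
    intro t' ht'
    obtain ⟨t, ht, e⟩ := h t' ht'
    have E1 := allB_spec (allB_spec (allB_spec ha x hx) y hy) t ht
    have E2 := allB_spec (allB_spec (allB_spec hb _ (hθ x hx)) _ (hθ y hy)) t' ht'
    have e0 := e 0 (by norm_num)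
    rw [h0, Nat.xor_zero, Nat.xor_zero] at e0
    simp only [beq_iff_eq] at E1 E2
    rw [← E1, ← E2, ← e0, ← e x hx, ← e y hy, ← e _ hxy]
    generalize qb t' = a
    generalize qb (t' ^^^ θ x) = b
    generalize qb (t' ^^^ θ y) = c
    generalize qb (t' ^^^ θ (x ^^^ y)) = d
    generalize qb (t' ^^^ (θ x ^^^ θ y)) = f
    revert a b c d f; decide
  have hN := allB_spec (allB_spec hn _ (hθ _ hxy)) _ (xor_lt (hθ x hx) (hθ y hy))
  have k0 := key 0 (by norm_num)
  rw [Nat.zero_xor, Nat.zero_xor] at k0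
  have hall : (allB 64 fun t => (qb (t ^^^ θ (x ^^^ y)) ^^ qb (t ^^^ (θ x ^^^ θ y))) ==
      (qb (θ (x ^^^ y)) ^^ qb (θ x ^^^ θ y))) = true := by
    apply allB_of
    intro t ht
    rw [key t ht, k0]; simp
  simp only [hall, Bool.not_true, Bool.or_false, Nat.beq_eq] at hN
  refine ⟨hN, ?_⟩
  rw [hN] at k0
  revert k0
  generalize qb (θ x ^^^ θ y) = a
  generalize bb qa x y = b
  generalize bb qb (θ x) (θ y) = c
  revert a b c; decide

theorem adj_fib {a b : ℕ} (ha : a < 192) (hb : b < 192) (h : adjB a b = true) :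
    a / 64 ≠ b / 64 := by
  have e := allB_spec (allB_spec fibB a ha) b hb
  simp only [h, Bool.not_true, Bool.false_or, Bool.not_eq_true', beqF] at e
  exact e

theorem adj_top {y : ℕ} (h : y ≠ 192) : adjB 192 y = true := by
  unfold adjB
  rw [beqF.2 h]; rfl

theorem core (N : ℕ) (h1 : 192 ≤ N) (h2 : N ≤ 193) (s : ℕ → ℕ) (hlt : ∀ x < N, s x < N)
    (hadj : ∀ x < N, ∀ y < N, adjB (s x) (s y) = adjB x y)
    (hsurj : ∀ y < N, ∃ x < N, s x = y) (hinj : ∀ x < N, ∀ y < N, s x = s y → x = y)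
    (h0 : s 0 = 0) (h73 : s 73 = 137) : False := by
  have na : ∀ x < 192, ∃ y < 192, y ≠ x ∧ adjB x y = false := by
    intro x hx
    obtain ⟨y, hy, e⟩ := exB_spec (allB_spec nonadj x hx)
    simp only [Bool.and_eq_true, Bool.not_eq_true', beqF] at e
    exact ⟨y, hy, e.1, e.2⟩
  have A1 : ∀ x < 192, s x < 192 := by
    intro x hx
    by_contra hc
    have e : s x = 192 := by have := hlt x (by omega); omega
    obtain ⟨y, hy, hne, hf⟩ := na x hx
    have := hadj x (by omega) y (by omega)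
    rw [e, hf, adj_top] at this
    · exact absurd this (by simp)
    · intro e2; exact hne (hinj y (by omega) x (by omega) (by rw [e, e2]))
  have A2 : ∀ y < 192, ∃ x < 192, s x = y := by
    intro y hy
    obtain ⟨x, hx, e⟩ := hsurj y (by omega)
    by_cases hx2 : x < 192
    · exact ⟨x, hx2, e⟩
    · exfalso
      have ex : x = 192 := by omega
      obtain ⟨y', hy', hne, hf⟩ := na y hy
      obtain ⟨x', hx', e'⟩ := hsurj y' (by omega)
      have := hadj x hx x' hx'
      rw [e, e', hf, ex, adj_top] at this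
      · exact absurd this (by simp)
      · intro e2; apply hne; rw [← e, ← e', e2, ex]
  have H : ∀ x < 192, ∀ y < 192, adjB (s x) (s y) = adjB x y :=
    fun x hx y hy => hadj x (by omega) y (by omega)
  have T : ∀ x < 64, ∃ y < 192, ∃ z < 192, adjB y 0 = true ∧ adjB y x = true ∧ adjB z 0 = true ∧
      adjB z x = true ∧ adjB y z = true := by
    intro x hx
    obtain ⟨y, hy, e⟩ := exB_spec (allB_spec tri x hx)
    simp only [Bool.and_eq_true] at e
    obtain ⟨z, hz, e2⟩ := exB_spec e.2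
    simp only [Bool.and_eq_true] at e2
    exact ⟨64 + y, by omega, 128 + z, by omega, e.1.1, e.1.2, e2.1.1, e2.1.2, e2.2⟩
  have T' : ∀ x < 192, ∀ y < 192, ∀ z < 192, adjB y 0 = true → adjB y x = true →
      adjB z 0 = true → adjB z x = true → adjB y z = true → x < 64 := by
    intro x hx y hy z hz a1 a2 a3 a4 a5
    have b1 := adj_fib hy (by norm_num) a1
    have b2 := adj_fib hy hx a2
    have b3 := adj_fib hz (by norm_num) a3
    have b4 := adj_fib hz hx a4
    have b5 := adj_fib hy hz a5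
    omega
  have B1 : ∀ x < 64, s x < 64 := by
    intro x hx
    obtain ⟨y, hy, z, hz, a1, a2, a3, a4, a5⟩ := T x hx
    have hx' : x < 192 := by omega
    refine T' _ (A1 x hx') _ (A1 y hy) _ (A1 z hz) ?_ ?_ ?_ ?_ ?_
    · rw [← h0, H y hy 0 (by norm_num)]; exact a1
    · rw [H y hy x hx']; exact a2
    · rw [← h0, H z hz 0 (by norm_num)]; exact a3
    · rw [H z hz x hx']; exact a4
    · rw [H y hy z hz]; exact a5
  have B2 : ∀ x < 192, s x < 64 → x < 64 := by
    intro x hx hs
    obtain ⟨y', hy', z', hz', a1, a2, a3, a4, a5⟩ := T _ hs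
    obtain ⟨y, hy, rfl⟩ := A2 y' hy'
    obtain ⟨z, hz, rfl⟩ := A2 z' hz'
    refine T' x hx y hy z hz ?_ ?_ ?_ ?_ ?_
    · rw [← H y hy 0 (by norm_num), h0]; exact a1
    · rw [← H y hy x hx]; exact a2
    · rw [← H z hz 0 (by norm_num), h0]; exact a3
    · rw [← H z hz x hx]; exact a4
    · rw [← H y hy z hz]; exact a5
  have C1 : ∀ x < 64, 128 ≤ s (64 + x) := by
    intro x hx
    have e := allB_spec f12 x hx
    simp only [Bool.and_eq_true] at e
    obtain ⟨y, hy, e2⟩ := exB_spec e.1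
    simp only [Bool.and_eq_true] at e2
    have a1 := e2.1
    have a2 := e2.2
    rw [← H _ (by omega) _ (by omega)] at a1 a2
    rw [h73] at a2
    have l1 := A1 (128 + y) (by omega)
    have l2 := A1 (64 + x) (by omega)
    have b1 := adj_fib l1 l2 a1
    have b2 := adj_fib l1 (by norm_num) a2
    have n1 : ¬ s (128 + y) < 64 := fun h => by have := B2 _ (by omega) h; omega
    have n2 : ¬ s (64 + x) < 64 := fun h => by have := B2 _ (by omega) h; omega
    omega
  have C2 : ∀ x < 64, 64 ≤ s (128 + x) ∧ s (128 + x) < 128 := by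
    intro x hx
    have e := allB_spec f12 x hx
    simp only [Bool.and_eq_true] at e
    obtain ⟨y, hy, a1⟩ := exB_spec e.2
    rw [← H _ (by omega) _ (by omega)] at a1
    have l1 := A1 (128 + x) (by omega)
    have l2 := A1 (64 + y) (by omega)
    have b1 := adj_fib l2 l1 a1
    have n1 : ¬ s (128 + x) < 64 := fun h => by have := B2 _ (by omega) h; omega
    have := C1 y hy
    omega
  have Q : ∀ t < 64, ∀ x < 64, adjB (64 + t) x = q1 (t ^^^ x) ∧ adjB (128 + t) x = q2 (t ^^^ x) := by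
    intro t ht x hx
    have e := allB_spec (allB_spec adjq t ht) x hx
    simpa using e
  have D1 : ∀ t' < 64, ∃ t < 64, ∀ x < 64, q2 (t' ^^^ s x) = q1 (t ^^^ x) := by
    intro t' ht'
    obtain ⟨z, hz, e⟩ := A2 (128 + t') (by omega)
    have n1 : ¬ z < 64 := fun h => by have := B1 z h; omega
    have n2 : z < 128 := by
      by_contra h
      have := C2 (z - 128) (by omega)
      rw [show 128 + (z - 128) = z by omega] at this
      omega
    refine ⟨z - 64, by omega, fun x hx => ?_⟩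
    rw [← (Q _ ht' _ (B1 x hx)).2, ← (Q (z - 64) (by omega) x hx).1,
      show 64 + (z - 64) = z by omega, ← e, H z hz x (by omega)]
  have D2 : ∀ t' < 64, ∃ t < 64, ∀ x < 64, q1 (t' ^^^ s x) = q2 (t ^^^ x) := by
    intro t' ht'
    obtain ⟨z, hz, e⟩ := A2 (64 + t') (by omega)
    have n1 : ¬ z < 64 := fun h => by have := B1 z h; omega
    have n2 : 128 ≤ z := by
      by_contra h
      have := C1 (z - 64) (by omega)
      rw [show 64 + (z - 64) = z by omega] at this
      omega
    refine ⟨z - 128, by omega, fun x hx => ?_⟩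
    rw [← (Q _ ht' _ (B1 x hx)).1, ← (Q (z - 128) (by omega) x hx).2,
      show 128 + (z - 128) = z by omega, ← e, H z hz x (by omega)]
  have S1 := swap q1 q2 pol1 pol2 nd2 s B1 h0 D1
  have S2 := swap q2 q1 pol2 pol1 nd1 s B1 h0 D2
  have SF : ∀ x < 64, tab TS x < 64 ∧
      (x = (tab TS (tab TS x)) ^^^ (tab TS (tab TS (tab TS x))) → tab TS (tab TS (tab TS x)) = 0) ∧
      ∀ y < 64, bb q2 x y = bb q1 (tab TS x) y := by
    intro x hx
    have e := allB_spec sfact x hx
    simp only [Bool.and_eq_true, Bool.or_eq_true, Bool.not_eq_true', beqF,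
      Nat.beq_eq, Nat.blt_eq] at e
    refine ⟨e.1.1, fun h => ?_, fun y hy => ?_⟩
    · rcases e.1.2 with h' | h'
      · exact absurd h h'
      · exact h'
    · simpa using allB_spec e.2 y hy
  have K : ∀ x < 64, tab TS (s (tab TS x)) = s x := by
    intro x hx
    have l1 := (SF x hx).1
    have l2 := B1 _ l1
    have l3 := (SF _ l2).1
    have e := allB_spec (allB_spec ndb _ l3) _ (B1 x hx)
    have hall : (allB 64 fun y => bb q1 (tab TS (s (tab TS x))) y == bb q1 (s x) y) = true := by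
      apply allB_of
      intro y' hy'
      obtain ⟨y, hy, rfl⟩ := A2 y' (by omega)
      have hy2 := B2 y hy hy'
      rw [← (SF _ l2).2.2 _ hy', (S1 _ l1 y hy2).2, ← (SF x hx).2.2 y hy2, (S2 x hx y hy2).2]
      simp
    simpa only [hall, Bool.not_true, Bool.or_false, Nat.beq_eq] using e
  have l0 : (1 : ℕ) < 64 := by norm_num
  have l1 := (SF 1 l0).1
  have l2 := (SF _ l1).1
  have l3 := (SF _ l2).1
  have k0 := K 1 l0
  have k1 := K _ l1
  have k2 := K _ l2
  have ad := (S1 _ l1 1 l0).1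
  rw [← s3] at ad
  have fin := (SF _ (B1 _ l3)).2.1
  rw [k2, k1, k0] at fin
  have := hinj 1 (by omega) 0 (by omega) (by rw [fin ad, h0])
  omega

end Pool.Agent.H54.LauB
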