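import Mathlib

namespace Pool.Agent.H54.LauDef

/-- The vertex-deleted subgraph `G - v`. -/
def card {V : Type} (G : SimpleGraph V) (v : V) : SimpleGraph {x : V // x ≠ v} :=
  G.comap Subtype.val

/-- The number of isomorphism types among the cards `G - v`. -/
noncomputable def cardTypes {V : Type} (G : SimpleGraph V) : ℕ :=
  Nat.card (Quot fun u w : V => Nonempty (card G u ≃g card G w))

/-- The number of orbits of the automorphism group of `G` on the vertices. -/
noncomputable def autOrbits {V : Type} (G : SimpleGraph V) : ℕ :=
  Nat.card (Quot fun u w : V => ∃ φ : G ≃g G, φ u = w)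

end Pool.Agent.H54.LauDef
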