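import Pool.Agent.H54.LauB
import Pool.Agent.H54.LauDef

namespace Pool.Agent.H54.LauC
open Pool.Agent.H54.LauA Pool.Agent.H54.LauB Pool.Agent.H54.LauDef

theorem quot_ge {α : Type} [Finite α] (r : α → α → Prop) (hr : Equivalence r) (m : ℕ)
    (ρ : Fin m → α) (h : ∀ i j, r (ρ i) (ρ j) → i = j) : m ≤ Nat.card (Quot r) := by
  have : Function.Injective (fun i => Quot.mk r (ρ i)) :=
    fun i j e => h i j (hr.eqvGen_iff.1 (Quot.eq.1 e))
  simpa using Nat.card_le_card_of_injective _ this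

theorem quot_eq {α : Type} (r : α → α → Prop) (hr : Equivalence r) (m : ℕ)
    (ρ : Fin m → α) (h : ∀ i j, r (ρ i) (ρ j) → i = j) (h2 : ∀ a, ∃ i, r a (ρ i)) :
    Nat.card (Quot r) = m := by
  have : Function.Bijective (fun i => Quot.mk r (ρ i)) := by
    refine ⟨fun i j e => h i j (hr.eqvGen_iff.1 (Quot.eq.1 e)), fun q => ?_⟩
    induction q using Quot.ind with
    | mk a =>
      obtain ⟨i, hi⟩ := h2 a
      exact ⟨i, (Quot.sound hi).symm⟩
  simpa using (Nat.card_eq_of_bijective _ this).symm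

theorem card_cnt {α : Type} (N : ℕ) (ι : α → ℕ) (hι : Function.Injective ι) (hl : ∀ a, ι a < N)
    (P : α → Prop) (p : ℕ → Bool) (h1 : ∀ a, P a ↔ p (ι a) = true)
    (h2 : ∀ y < N, p y = true → ∃ a, ι a = y) : Nat.card {a // P a} = cnt N p := by
  have e : Nat.card {a // P a} = Nat.card ((Finset.range N).filter fun y => p y = true) := by
    refine Nat.card_eq_of_bijective
      (fun a => ⟨ι a.1, Finset.mem_filter.2 ⟨Finset.mem_range.2 (hl _), (h1 _).1 a.2⟩⟩) ⟨?_, ?_⟩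
    · intro a b e
      exact Subtype.ext (hι (congrArg Subtype.val e))
    · rintro ⟨y, hy⟩
      obtain ⟨hy1, hy2⟩ := Finset.mem_filter.1 hy
      obtain ⟨a, rfl⟩ := h2 y (Finset.mem_range.1 hy1) hy2
      exact ⟨⟨a, (h1 _).2 hy2⟩, rfl⟩
  rw [e, Nat.card_eq_fintype_card, Fintype.card_coe, Finset.card_filter, cnt_eq]

def R {V : Type} (K : SimpleGraph V) (u w : V) : Prop := Nonempty (card K u ≃g card K w)
def Sim {V : Type} (K : SimpleGraph V) (u w : V) : Prop := ∃ φ : K ≃g K, φ u = w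

theorem R_equiv {V : Type} (K : SimpleGraph V) : Equivalence (R K) :=
  ⟨fun _ => ⟨SimpleGraph.Iso.refl⟩, fun ⟨e⟩ => ⟨e.symm⟩, fun ⟨e⟩ ⟨f⟩ => ⟨e.trans f⟩⟩

theorem Sim_equiv {V : Type} (K : SimpleGraph V) : Equivalence (Sim K) :=
  ⟨fun _ => ⟨SimpleGraph.Iso.refl, rfl⟩, fun ⟨e, h⟩ => ⟨e.symm, by rw [← h]; simp⟩,
    fun ⟨e, h⟩ ⟨f, g⟩ => ⟨e.trans f, by rw [← g, ← h]; rfl⟩⟩

theorem R_of_Sim {V : Type} (K : SimpleGraph V) {u w : V} (h : Sim K u w) : R K u w := by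
  obtain ⟨φ, rfl⟩ := h
  exact ⟨{ toEquiv := φ.toEquiv.subtypeEquiv (fun x => by simp)
           map_rel_iff' := fun {a b} => φ.map_rel_iff }⟩

theorem iso_of {V : Type} (G : SimpleGraph V) (v : V) (σ : G ≃g G) (u w : {x // x ≠ v})
    (h : ∀ x, (x ≠ v ∧ x ≠ u.1) ↔ (σ x ≠ v ∧ σ x ≠ w.1)) : R (card G v) u w := by
  have h' : ∀ x, (x ≠ v ∧ x ≠ w.1) → (σ.symm x ≠ v ∧ σ.symm x ≠ u.1) := fun x hx =>
    (h _).2 (by simpa using hx)
  exact ⟨{
    toFun := fun x => ⟨⟨σ x.1.1, ((h _).1 ⟨x.1.2, fun e => x.2 (Subtype.ext e)⟩).1⟩,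
      fun e => ((h _).1 ⟨x.1.2, fun e => x.2 (Subtype.ext e)⟩).2 (congrArg Subtype.val e)⟩
    invFun := fun x => ⟨⟨σ.symm x.1.1, (h' _ ⟨x.1.2, fun e => x.2 (Subtype.ext e)⟩).1⟩,
      fun e => (h' _ ⟨x.1.2, fun e => x.2 (Subtype.ext e)⟩).2 (congrArg Subtype.val e)⟩
    left_inv := fun x => Subtype.ext (Subtype.ext (by simp))
    right_inv := fun x => Subtype.ext (Subtype.ext (by simp))
    map_rel_iff' := fun {a b} => σ.map_rel_iff }⟩

noncomputable def dg {V : Type} (K : SimpleGraph V) (x : V) : ℕ := Nat.card {y // K.Adj x y}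
noncomputable def ninv {V : Type} (D : ℕ) (K : SimpleGraph V) : ℕ := Nat.card {x // dg K x = D}

theorem dg_iso {V W : Type} {K : SimpleGraph V} {L : SimpleGraph W} (φ : K ≃g L) (x : V) :
    dg L (φ x) = dg K x :=
  (Nat.card_congr (φ.toEquiv.subtypeEquiv (fun _ => φ.map_rel_iff.symm))).symm

theorem ninv_iso {V W : Type} {K : SimpleGraph V} {L : SimpleGraph W} (φ : K ≃g L) (D : ℕ) :
    ninv D K = ninv D L :=
  Nat.card_congr (φ.toEquiv.subtypeEquiv (fun x => by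
    show dg K x = D ↔ dg L (φ x) = D
    rw [dg_iso]))

theorem adjB_comm (x y : ℕ) : adjB x y = adjB y x := by
  unfold adjB
  have : Nat.xor x y = Nat.xor y x := Nat.xor_comm x y
  rw [this]
  cases Nat.beq x 192 <;> cases Nat.beq y 192 <;> rfl

theorem adjB_self (x : ℕ) : adjB x x = false := by
  unfold adjB
  have : Nat.xor x x = 0 := Nat.xor_self x
  rw [this, bit0]
  cases Nat.beq x 192 <;> rfl

def GG (N : ℕ) : SimpleGraph (Fin N) where
  Adj x y := adjB x y = true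
  symm := ⟨fun x y h => by rw [adjB_comm]; exact h⟩
  loopless := ⟨fun x h => by rw [adjB_self] at h; exact absurd h (by simp)⟩

def vv (N : ℕ) (h1 : 192 ≤ N) : Fin N := ⟨0, by omega⟩
abbrev HV (N : ℕ) (h1 : 192 ≤ N) := {x : Fin N // x ≠ vv N h1}
def HH (N : ℕ) (h1 : 192 ≤ N) : SimpleGraph (HV N h1) := card (GG N) (vv N h1)
def mk {N : ℕ} (h1 : 192 ≤ N) (x : ℕ) (hx : x < N) (h0 : x ≠ 0) : HV N h1 :=
  ⟨⟨x, hx⟩, fun e => h0 (congrArg Fin.val e)⟩

theorem ne0 {N : ℕ} {h1 : 192 ≤ N} (a : HV N h1) : a.1.1 ≠ 0 := fun e => a.2 (Fin.ext e)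

theorem dg_H {N : ℕ} (h1 : 192 ≤ N) (a : HV N h1) : dg (HH N h1) a = degH N a.1.1 := by
  refine card_cnt N (fun y : HV N h1 => y.1.1) (fun a b e => Subtype.ext (Fin.ext e))
    (fun a => a.1.2) _ _ (fun y => ?_) (fun y hy e => ?_)
  · have := ne0 y
    simp only [Bool.and_eq_true, Bool.not_eq_true', beqF]
    exact ⟨fun h => ⟨this, h⟩, fun h => h.2⟩
  · simp only [Bool.and_eq_true, Bool.not_eq_true', beqF] at e
    exact ⟨mk h1 y hy e.1, rfl⟩

theorem ninv_H {N : ℕ} (h1 : 192 ≤ N) (D : ℕ) (u : HV N h1) :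
    ninv D (card (HH N h1) u) = invB N D u.1.1 := by
  have inj : Function.Injective (fun y : {x : HV N h1 // x ≠ u} => y.1.1.1) :=
    fun a b e => Subtype.ext (Subtype.ext (Fin.ext e))
  have nu : ∀ y : {x : HV N h1 // x ≠ u}, y.1.1.1 ≠ u.1.1 :=
    fun y e => y.2 (Subtype.ext (Fin.ext e))
  have sj : ∀ y < N, y ≠ 0 → y ≠ u.1.1 → ∃ a : {x : HV N h1 // x ≠ u}, a.1.1.1 = y :=
    fun y hy a b => ⟨⟨mk h1 y hy a, fun e => b (congrArg (fun z : HV N h1 => z.1.1) e)⟩, rfl⟩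
  refine card_cnt N _ inj (fun a => a.1.1.2) _ _ (fun x => ?_) (fun y hy e => ?_)
  · have e : dg (card (HH N h1) u) x =
        cnt N fun y => !(Nat.beq y 0) && !(Nat.beq y u.1.1) && adjB x.1.1.1 y := by
      refine card_cnt N _ inj (fun a => a.1.1.2) _ _ (fun y => ?_) (fun y hy e => ?_)
      · simp only [Bool.and_eq_true, Bool.not_eq_true', beqF]
        exact ⟨fun h => ⟨⟨ne0 _, nu y⟩, h⟩, fun h => h.2⟩
      · simp only [Bool.and_eq_true, Bool.not_eq_true', beqF] at e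
        exact sj y hy e.1.1 e.1.2
    rw [e]
    simp only [Bool.and_eq_true, Bool.not_eq_true', beqF, Nat.beq_eq]
    exact ⟨fun h => ⟨⟨ne0 _, nu x⟩, h⟩, fun h => h.2⟩
  · simp only [Bool.and_eq_true, Bool.not_eq_true', beqF] at e
    exact sj y hy e.1.1 e.1.2

theorem not_sim {N : ℕ} (h1 : 192 ≤ N) (h2 : N ≤ 193) (D : ℕ)
    (hd : ∀ x < N, x ≠ 0 → adjB x 0 = !(Nat.beq (degH N x) D)) (a b : HV N h1)
    (ha : a.1.1 = 73) (hb : b.1.1 = 137) : ¬ Sim (HH N h1) a b := by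
  rintro ⟨θ, hθ⟩
  let s : ℕ → ℕ := fun x => if h : x < N ∧ x ≠ 0 then (θ (mk h1 x h.1 h.2)).1.1 else 0
  have s0 : s 0 = 0 := by simp [s]
  have sa : ∀ c : HV N h1, s c.1.1 = (θ c).1.1 := by
    intro c
    have : c.1.1 < N ∧ c.1.1 ≠ 0 := ⟨c.1.2, ne0 c⟩
    simp only [s, dif_pos this]
    rfl
  have cs : ∀ x < N, x = 0 ∨ ∃ c : HV N h1, c.1.1 = x := by
    intro x hx
    by_cases h : x = 0
    · exact Or.inl h
    · exact Or.inr ⟨mk h1 x hx h, rfl⟩
  have z : ∀ c : HV N h1, adjB (θ c).1.1 0 = adjB c.1.1 0 := by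
    intro c
    rw [hd _ c.1.2 (ne0 c), hd _ (θ c).1.2 (ne0 _), ← dg_H, ← dg_H, dg_iso]
  refine core N h1 h2 s ?_ ?_ ?_ ?_ s0 (by rw [← ha, sa, hθ, hb])
  · intro x hx
    rcases cs x hx with rfl | ⟨c, rfl⟩
    · rw [s0]; exact hx
    · rw [sa]; exact (θ c).1.2
  · intro x hx y hy
    rcases cs x hx with rfl | ⟨c, rfl⟩ <;> rcases cs y hy with rfl | ⟨d, rfl⟩
    · rw [s0]
    · rw [s0, sa, adjB_comm, z, adjB_comm]
    · rw [s0, sa, z]
    · rw [sa, sa]
      exact Bool.eq_iff_iff.2 (θ.map_rel_iff (a := c) (b := d))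
  · intro y hy
    rcases cs y hy with rfl | ⟨c, rfl⟩
    · exact ⟨0, hy, s0⟩
    · exact ⟨(θ.symm c).1.1, (θ.symm c).1.2, by rw [sa]; simp⟩
  · intro x hx y hy e
    rcases cs x hx with rfl | ⟨c, rfl⟩ <;> rcases cs y hy with rfl | ⟨d, rfl⟩
    · rfl
    · rw [s0, sa] at e; exact absurd e.symm (ne0 _)
    · rw [s0, sa] at e; exact absurd e (ne0 _)
    · rw [sa, sa] at e
      rw [θ.injective (Subtype.ext (Fin.ext e))]

theorem aut_of {N : ℕ} (h1 : 192 ≤ N) (h2 : N ≤ 193) (T : ℕ) (hT : autB T = true) :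
    ∃ σ : GG N ≃g GG N, ∀ x, (σ x).1 = tab T x.1 := by
  have F : ∀ x < 193, (tab T x < 193 ∧ (x = 192 ∨ tab T x < 192)) ∧
      ∀ y < 193, adjB (tab T x) (tab T y) = adjB x y ∧ (tab T x = tab T y → x = y) := by
    intro x hx
    have e := allB_spec hT x hx
    simp only [Bool.and_eq_true, Bool.or_eq_true, Nat.beq_eq, Nat.blt_eq] at e
    refine ⟨e.1, fun y hy => ?_⟩
    have e2 := allB_spec e.2 y hy
    simp only [Bool.and_eq_true, Bool.or_eq_true, Nat.beq_eq, eqB_iff, Bool.not_eq_true',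
      beqF] at e2
    exact ⟨e2.1, fun h => e2.2.resolve_left (fun h' => h' h)⟩
  have lt : ∀ x : Fin N, tab T x.1 < N := by
    intro x
    have := (F x.1 (by omega)).1
    have := x.2
    omega
  let f : Fin N → Fin N := fun x => ⟨tab T x.1, lt x⟩
  have inj : Function.Injective f := fun x y e =>
    Fin.ext (((F x.1 (by omega)).2 y.1 (by omega)).2 (congrArg Fin.val e))
  refine ⟨{ toEquiv := Equiv.ofBijective f (Finite.injective_iff_bijective.1 inj)
            map_rel_iff' := fun {a b} => ?_ }, fun x => rfl⟩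
  show adjB (tab T a.1) (tab T b.1) = true ↔ adjB a.1 b.1 = true
  rw [((F a.1 (by omega)).2 b.1 (by omega)).1]

theorem fix_R {N : ℕ} (h1 : 192 ≤ N) (σ : GG N ≃g GG N) (h0 : σ (vv N h1) = vv N h1)
    (u w : HV N h1) (h : σ u.1 = w.1) : R (HH N h1) u w := by
  refine iso_of _ _ σ u w (fun x => ?_)
  have a : σ x ≠ vv N h1 ↔ x ≠ vv N h1 := by
    conv_lhs => rw [← h0]
    simp
  have b : σ x ≠ w.1 ↔ x ≠ u.1 := by rw [← h]; simp
  rw [a, b]

theorem swap_R {N : ℕ} (h1 : 192 ≤ N) (σ : GG N ≃g GG N) (u w : HV N h1)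
    (h0 : σ (vv N h1) = w.1) (h : σ u.1 = vv N h1) : R (HH N h1) u w := by
  refine iso_of _ _ σ u w (fun x => ?_)
  have a : σ x ≠ vv N h1 ↔ x ≠ u.1 := by
    have : σ x ≠ σ u.1 ↔ x ≠ u.1 := by simp
    rw [h] at this; exact this
  have b : σ x ≠ w.1 ↔ x ≠ vv N h1 := by rw [← h0]; simp
  rw [a, b, and_comm]

theorem aut_gen (j : ℕ) : autB (gen j) = true := by
  unfold gen
  cases Nat.beq j 0 <;> cases Nat.beq j 1 <;> cases Nat.beq j 2 <;>
    simp only [cond_true, cond_false, aut0, aut1, aut2, aut3]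

theorem to_root {N : ℕ} (h1 : 192 ≤ N) (h2 : N ≤ 193) (n : ℕ) : ∀ u : HV N h1, tab TD u.1.1 = n →
    ∃ r : HV N h1, R (HH N h1) u r ∧ (r.1.1 = 1 ∨ r.1.1 = 73 ∨ r.1.1 = 64 ∨ r.1.1 = 192) := by
  induction n using Nat.strong_induction_on with
  | _ n ih =>
    intro u hu
    have e := allB_spec bfs u.1.1 (by have := u.1.2; omega)
    simp only [Bool.or_eq_true, Nat.beq_eq] at e
    rcases e with (e | e) | e
    · exact absurd e (ne0 u)
    · exact ⟨u, (R_equiv _).refl u, by tauto⟩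
    · obtain ⟨j, -, e⟩ := exB_spec e
      simp only [Bool.or_eq_true, Bool.and_eq_true, Nat.beq_eq, Nat.blt_eq] at e
      obtain ⟨σ, hσ⟩ := aut_of h1 h2 _ (aut_gen j)
      rcases e with ⟨e1, e2⟩ | ⟨e1, e2⟩
      · have h0 : σ (vv N h1) = vv N h1 := Fin.ext (by rw [hσ]; exact e1)
        have hn : σ u.1 ≠ vv N h1 := fun h => u.2 (σ.injective (h.trans h0.symm))
        obtain ⟨r, hr, hr2⟩ := ih _ (hu ▸ e2) ⟨σ u.1, hn⟩ (by rw [hσ])
        exact ⟨r, (R_equiv _).trans (fix_R h1 σ h0 u ⟨σ u.1, hn⟩ rfl) hr, hr2⟩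
      · have h0 : σ u.1 = vv N h1 := Fin.ext (by rw [hσ]; exact e1)
        have hn : σ (vv N h1) ≠ vv N h1 := fun h => u.2 (σ.injective (h0.trans h.symm))
        obtain ⟨r, hr, hr2⟩ := ih _ (hu ▸ e2) ⟨σ (vv N h1), hn⟩ (by rw [hσ]; rfl)
        exact ⟨r, (R_equiv _).trans (swap_R h1 σ u ⟨σ (vv N h1), hn⟩ rfl h0) hr, hr2⟩

theorem connH {N : ℕ} (h1 : 192 ≤ N) (h2 : N ≤ 193) : (HH N h1).Connected := by
  let c : HV N h1 := mk h1 73 (by omega) (by omega)
  have key : ∀ x : HV N h1, (HH N h1).Reachable x c := by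
    intro x
    obtain ⟨y, hy, e⟩ := exB_spec (allB_spec conn x.1.1 (by have := x.1.2; omega))
    simp only [Bool.and_eq_true, Bool.not_eq_true', beqF] at e
    have a1 : (HH N h1).Adj x (mk h1 y (by omega) e.1.1) := e.1.2
    have a2 : (HH N h1).Adj (mk h1 y (by omega) e.1.1) c := e.2
    exact a1.reachable.trans a2.reachable
  have : Nonempty (HV N h1) := ⟨c⟩
  exact ⟨fun x y => (key x).trans (key y).symm⟩

theorem main {N : ℕ} (h1 : 192 ≤ N) (h2 : N ≤ 193) (D D2 k : ℕ)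
    (hd : ∀ x < N, x ≠ 0 → adjB x 0 = !(Nat.beq (degH N x) D))
    (ρ : Fin k → HV N h1) (i0 : Fin k) (hi0 : (ρ i0).1.1 = 73)
    (hρ : ∀ i j, invB N D2 (ρ i).1.1 = invB N D2 (ρ j).1.1 → i = j)
    (hs : ∀ r : HV N h1, (r.1.1 = 1 ∨ r.1.1 = 73 ∨ r.1.1 = 64 ∨ r.1.1 = 192) → ∃ i, ρ i = r) :
    (HH N h1).Connected ∧ cardTypes (HH N h1) = k ∧ k < autOrbits (HH N h1) := by
  have hR : ∀ i j, R (HH N h1) (ρ i) (ρ j) → i = j := by
    rintro i j ⟨φ⟩
    apply hρ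
    rw [← ninv_H, ← ninv_H, ninv_iso φ]
  refine ⟨connH h1 h2, quot_eq (R _) (R_equiv _) k ρ hR (fun a => ?_), ?_⟩
  · obtain ⟨r, hr, hr2⟩ := to_root h1 h2 _ a rfl
    obtain ⟨i, rfl⟩ := hs r hr2
    exact ⟨i, hr⟩
  · let b : HV N h1 := mk h1 137 (by omega) (by omega)
    have hb : R (HH N h1) b (ρ i0) := by
      obtain ⟨σ, hσ⟩ := aut_of h1 h2 _ aut2
      refine swap_R h1 σ b (ρ i0) (Fin.ext ?_) (Fin.ext ?_)
      · rw [hσ, hi0]; exact star.2
      · rw [hσ]; exact star.1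
    have hn : ∀ i, ¬ Sim (HH N h1) (ρ i) b := by
      intro i h
      have := hR i i0 ((R_equiv _).trans (R_of_Sim _ h) hb)
      subst this
      exact not_sim h1 h2 D hd _ _ hi0 rfl h
    refine quot_ge (Sim _) (Sim_equiv _) (k + 1) (Fin.cons b ρ) (fun i j h => ?_)
    induction i using Fin.cases with
    | zero =>
      induction j using Fin.cases with
      | zero => rfl
      | succ j => exact absurd ((Sim_equiv _).symm h) (hn j)
    | succ i =>
      induction j using Fin.cases with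
      | zero => exact absurd h (hn i)
      | succ j => rw [hR i j (R_of_Sim _ h)]

theorem three : (HH 192 le_rfl).Connected ∧ cardTypes (HH 192 le_rfl) = 3 ∧
    3 < autOrbits (HH 192 le_rfl) := by
  refine main le_rfl (by norm_num) 56 54 3 (fun x hx h0 => ?_)
    ![mk le_rfl 1 (by norm_num) (by norm_num), mk le_rfl 73 (by norm_num) (by norm_num),
      mk le_rfl 64 (by norm_num) (by norm_num)] 1 rfl (fun i j h => ?_) (fun r hr => ?_)
  · have e := allB_spec deg192 x hx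
    simp only [Bool.or_eq_true, Nat.beq_eq, beq_iff_eq] at e
    exact e.resolve_left h0
  · obtain ⟨a, b, c⟩ := inv192
    fin_cases i <;> fin_cases j <;> first | rfl | (exfalso; simp [mk, a, b, c] at h)
  · have := r.1.2
    rcases hr with h | h | h | h
    · exact ⟨0, Subtype.ext (Fin.ext h.symm)⟩
    · exact ⟨1, Subtype.ext (Fin.ext h.symm)⟩
    · exact ⟨2, Subtype.ext (Fin.ext h.symm)⟩
    · omega

theorem h193 : 192 ≤ 193 := by norm_num

theorem four : (HH 193 h193).Connected ∧ cardTypes (HH 193 h193) = 4 ∧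
    4 < autOrbits (HH 193 h193) := by
  refine main h193 le_rfl 57 55 4 (fun x hx h0 => ?_)
    ![mk h193 1 (by norm_num) (by norm_num), mk h193 73 (by norm_num) (by norm_num),
      mk h193 64 (by norm_num) (by norm_num), mk h193 192 (by norm_num) (by norm_num)] 1 rfl
      (fun i j h => ?_) (fun r hr => ?_)
  · have e := allB_spec deg193 x hx
    simp only [Bool.or_eq_true, Nat.beq_eq, beq_iff_eq] at e
    exact e.resolve_left h0
  · obtain ⟨a, b, c, d⟩ := inv193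
    fin_cases i <;> fin_cases j <;> first | rfl | (exfalso; simp [mk, a, b, c, d] at h)
  · rcases hr with h | h | h | h
    · exact ⟨0, Subtype.ext (Fin.ext h.symm)⟩
    · exact ⟨1, Subtype.ext (Fin.ext h.symm)⟩
    · exact ⟨2, Subtype.ext (Fin.ext h.symm)⟩
    · exact ⟨3, Subtype.ext (Fin.ext h.symm)⟩

end Pool.Agent.H54.LauC
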