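import Pool.Agent.H54.LichDef

namespace Pool.Agent.H54.Lich
open Pool.Agent.H54.LichDef Function

variable {n : ℕ} (c : Fin n → Fin n → ℝ)

noncomputable def hh (k : Fin n) (y : Fin n → ℝ) : ℝ := ∑ m, c k m * y m ^ 2
noncomputable def GG : Met n := fun y => Matrix.diagonal fun k => Real.exp (hh c k y)

theorem hd_coord (y : Fin n → ℝ) (i m : Fin n) :
    HasDerivAt (fun s => update y i s m) (if m = i then 1 else 0) (y i) := by
  by_cases h : m = i
  · subst h; simp only [update_self, if_true]; exact hasDerivAt_id _
  · simp only [update_of_ne h, if_neg h]; exact hasDerivAt_const _ _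

theorem hd_h (y : Fin n → ℝ) (i k : Fin n) :
    HasDerivAt (fun s => hh c k (update y i s)) (2 * c k i * y i) (y i) := by
  have h := HasDerivAt.fun_sum (u := Finset.univ)
    (fun m _ => ((hd_coord y i m).fun_pow 2).const_mul (c k m))
  refine h.congr_deriv ?_
  simp only [update_eq_self, mul_ite, mul_one, mul_zero, Finset.sum_ite_eq', Finset.mem_univ,
    if_true]
  norm_num; ring

theorem pd_G (y : Fin n → ℝ) (i j l : Fin n) :
    pd (GG c · j l) i y = if j = l then 2 * c j i * y i * Real.exp (hh c j y) else 0 := by
  unfold pd GG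
  by_cases h : j = l
  · subst h
    simp only [Matrix.diagonal_apply_eq, if_true]
    have := (hd_h c y i j).exp.deriv
    rw [update_eq_self] at this
    rw [this]; ring
  · simp [Matrix.diagonal_apply_ne _ h, h]

theorem G_inv (y : Fin n → ℝ) :
    (GG c y)⁻¹ = Matrix.diagonal fun k => Real.exp (-hh c k y) := by
  apply Matrix.inv_eq_right_inv
  unfold GG
  rw [Matrix.diagonal_mul_diagonal, ← Matrix.diagonal_one]
  congr 1; funext k
  rw [← Real.exp_add]; simp

noncomputable def Gam (k i j : Fin n) (y : Fin n → ℝ) : ℝ :=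
  (if j = k then c k i * y i else 0) + (if i = k then c k j * y j else 0) -
    (if i = j then c i k * y k * Real.exp (hh c i y - hh c k y) else 0)

theorem chris_G (k i j : Fin n) : chris (GG c) k i j = Gam c k i j := by
  funext y
  unfold chris Gam
  simp only [pd_G, G_inv, Matrix.diagonal_apply, ite_mul, zero_mul, Finset.sum_ite_eq,
    Finset.mem_univ, if_true]
  have e1 : Real.exp (-hh c k y) * Real.exp (hh c k y) = 1 := by rw [← Real.exp_add]; simp
  have e2 : Real.exp (hh c i y - hh c k y) = Real.exp (-hh c k y) * Real.exp (hh c i y) := by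
    rw [← Real.exp_add]; congr 1; ring
  rw [e2]
  have a1 : Real.exp (-hh c k y) * (if j = k then 2 * c j i * y i * Real.exp (hh c j y) else 0) =
      2 * (if j = k then c k i * y i else 0) := by
    split_ifs with h
    · subst h; linear_combination (2 * c j i * y i) * e1
    · simp
  have a2 : Real.exp (-hh c k y) * (if i = k then 2 * c i j * y j * Real.exp (hh c i y) else 0) =
      2 * (if i = k then c k j * y j else 0) := by
    split_ifs with h
    · subst h; linear_combination (2 * c i j * y j) * e1
    · simp
  have a3 : Real.exp (-hh c k y) * (if i = j then 2 * c i k * y k * Real.exp (hh c i y) else 0) =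
      2 * (if i = j then c i k * y k * (Real.exp (-hh c k y) * Real.exp (hh c i y)) else 0) := by
    split_ifs with h
    · ring
    · simp
  linear_combination (a1 + a2 - a3) / 2

noncomputable def DG (k i j m : Fin n) (y : Fin n → ℝ) : ℝ :=
  (if j = k then c k i * (if i = m then 1 else 0) else 0) +
    (if i = k then c k j * (if j = m then 1 else 0) else 0) -
    (if i = j then c i k * (if k = m then 1 else 0) * Real.exp (hh c i y - hh c k y) +
      c i k * y k * (Real.exp (hh c i y - hh c k y) * (2 * c i m * y m - 2 * c k m * y m)) else 0)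

theorem pd_Gam (k i j m : Fin n) (y : Fin n → ℝ) : pd (Gam c k i j) m y = DG c k i j m y := by
  unfold pd Gam DG
  apply HasDerivAt.deriv
  refine HasDerivAt.fun_sub (HasDerivAt.fun_add ?_ ?_) ?_
  · by_cases h : j = k
    · simp only [if_pos h]; exact (hd_coord y m i).const_mul _
    · simp only [if_neg h]; exact hasDerivAt_const _ _
  · by_cases h : i = k
    · simp only [if_pos h]; exact (hd_coord y m j).const_mul _
    · simp only [if_neg h]; exact hasDerivAt_const _ _
  · by_cases h : i = j
    · simp only [if_pos h]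
      have := ((hd_coord y m k).const_mul (c i k)).fun_mul ((hd_h c y m i).fun_sub (hd_h c y m k)).exp
      simpa only [update_eq_self] using this
    · simp only [if_neg h]; exact hasDerivAt_const _ _

theorem riem_G (l i j m : Fin n) (y : Fin n → ℝ) : riem (GG c) l i j m y =
    DG c l j m i y - DG c l i m j y +
      ∑ p, (Gam c l i p y * Gam c p j m y - Gam c l j p y * Gam c p i m y) := by
  unfold riem
  simp only [chris_G, pd_Gam]

theorem cont_h (k : Fin n) : Continuous (hh c k) := by unfold hh; fun_prop

theorem cont_Gam (k i j : Fin n) : Continuous (Gam c k i j) := by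
  have := cont_h c i
  have := cont_h c k
  unfold Gam
  split_ifs <;> fun_prop

theorem cont_DG (k i j m : Fin n) : Continuous (DG c k i j m) := by
  have := cont_h c i
  have := cont_h c k
  unfold DG
  split_ifs <;> fun_prop

theorem cont_riem (l i j m : Fin n) : Continuous (riem (GG c) l i j m) := by
  have : riem (GG c) l i j m = fun y => DG c l j m i y - DG c l i m j y +
      ∑ p, (Gam c l i p y * Gam c p j m y - Gam c l j p y * Gam c p i m y) :=
    funext (riem_G c l i j m)
  rw [this]
  exact ((cont_DG c _ _ _ _).sub (cont_DG c _ _ _ _)).add (continuous_finsetSum _ fun p _ =>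
    ((cont_Gam c _ _ _).mul (cont_Gam c _ _ _)).sub ((cont_Gam c _ _ _).mul (cont_Gam c _ _ _)))

theorem cont_inv (a b : Fin n) : Continuous fun y => (GG c y)⁻¹ a b := by
  have := cont_h c a
  simp only [G_inv, Matrix.diagonal_apply]
  split_ifs <;> fun_prop

theorem smooth_G (i j : Fin n) : ContDiff ℝ ((⊤ : ℕ∞) : WithTop ℕ∞) (GG c · i j) := by
  unfold GG hh
  simp only [Matrix.diagonal_apply]
  split_ifs <;> fun_prop

theorem pos_G (y : Fin n → ℝ) : (GG c y).PosDef :=
  Matrix.PosDef.diagonal fun _ => Real.exp_pos _

theorem inv0 : (GG c 0)⁻¹ = 1 := by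
  rw [G_inv, ← Matrix.diagonal_one]; simp [hh]

theorem riem0 (hs : ∀ i j, c i j = c j i) (l i j m : Fin n) : riem (GG c) l i j m 0 =
    -2 * c i j * ((if l = i then (if j = m then 1 else 0) else 0) -
      (if l = j then (if i = m then 1 else 0) else 0)) := by
  rw [riem_G]
  simp only [DG, Gam, hh, Pi.zero_apply, mul_zero, zero_mul, ite_self, add_zero, sub_self,
    Finset.sum_const_zero, Real.exp_zero, mul_one]
  have h1 := hs i j
  by_cases a : l = i <;> by_cases b : l = j <;> by_cases d : j = m <;> by_cases e : i = m <;>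
    simp_all [eq_comm] <;> (try split_ifs) <;> (try simp_all) <;> ring

theorem inner0 (hs : ∀ i j, c i j = c j i) (i j m : Fin n) (f : Fin n → ℝ) :
    ∑ l, riem (GG c) l i j m 0 * f l =
      -2 * c i j * ((if j = m then f i else 0) - (if i = m then f j else 0)) := by
  simp only [riem0 c hs, mul_assoc, ← Finset.mul_sum, sub_mul, Finset.sum_sub_distrib, ite_mul,
    zero_mul, one_mul, Finset.sum_ite_eq', Finset.mem_univ, if_true]

variable {k : ℕ}

noncomputable def FF (y : Fin n → ℝ) (T : Tens k n) : ℝ := gInner (GG c) y (ricL (GG c) y T) T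

theorem FF0 (hs : ∀ i j, c i j = c j i) (T : Tens k n) : FF c 0 T =
    ∑ I : Fin k → Fin n, (∑ i, ∑ a, -∑ j, -2 * c a (I i) *
      ((if I i = update I i a j then T (update (update I i a) j a) else 0) -
        (if a = update I i a j then T (update (update I i a) j (I i)) else 0))) * T I := by
  unfold FF gInner
  refine Finset.sum_congr rfl fun I _ => ?_
  rw [Finset.sum_eq_single I]
  · simp only [inv0, Matrix.one_apply_eq, Finset.prod_const_one, one_mul, ricL, Matrix.one_apply,
      ite_mul, zero_mul, Finset.sum_ite_eq, Finset.mem_univ, if_true, curvAct, inner0 c hs]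
  · intro J _ hJ
    obtain ⟨j, hj⟩ := Function.ne_iff.1 hJ
    rw [Finset.prod_eq_zero (Finset.mem_univ j) (by rw [inv0, Matrix.one_apply_ne (Ne.symm hj)])]
    simp
  · simp

theorem cont_FF : Continuous fun p : (Fin n → ℝ) × Tens k n => FF c p.1 p.2 := by
  have hT : ∀ I : Fin k → Fin n, Continuous fun p : (Fin n → ℝ) × Tens k n => p.2 I :=
    fun I => (continuous_apply I).comp continuous_snd
  unfold FF gInner ricL curvAct
  refine continuous_finsetSum _ fun I _ => continuous_finsetSum _ fun J _ =>
    ((continuous_finsetProd _ fun j _ => (cont_inv c _ _).comp continuous_fst).mul ?_).mul (hT J)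
  refine continuous_finsetSum _ fun i _ => continuous_finsetSum _ fun a _ =>
    continuous_finsetSum _ fun d _ => ((cont_inv c _ _).comp continuous_fst).mul ?_
  exact (continuous_finsetSum _ fun j _ => continuous_finsetSum _ fun l _ =>
    ((cont_riem c _ _ _ _).comp continuous_fst).mul (hT _)).neg

theorem FF_smul (y : Fin n → ℝ) (s : ℝ) (T : Tens k n) : FF c y (s • T) = s ^ 2 * FF c y T := by
  have e : ∀ I, ricL (GG c) y (s • T) I = s * ricL (GG c) y T I := by
    intro I
    simp only [ricL, curvAct, Pi.smul_apply, smul_eq_mul, Finset.mul_sum, mul_neg,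
      Finset.sum_neg_distrib]
    congr 1
    refine Finset.sum_congr rfl fun _ _ => Finset.sum_congr rfl fun _ _ =>
      Finset.sum_congr rfl fun _ _ => Finset.sum_congr rfl fun _ _ =>
      Finset.sum_congr rfl fun _ _ => by ring
  unfold FF gInner
  simp only [e, Pi.smul_apply, smul_eq_mul, Finset.mul_sum]
  exact Finset.sum_congr rfl fun _ _ => Finset.sum_congr rfl fun _ _ => by ring

theorem near (h : ∀ T : Tens k n, IsSym T → T ≠ 0 → 0 < FF c 0 T) :
    ∃ ε > 0, ∀ y ∈ Metric.ball (0 : Fin n → ℝ) ε, ∀ T : Tens k n, IsSym T → 0 ≤ FF c y T := by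
  have hc : IsClosed {T : Tens k n | IsSym T} := by
    have : {T : Tens k n | IsSym T} = ⋂ σ : Equiv.Perm (Fin k), ⋂ I, {T | T (I ∘ σ) = T I} := by
      ext T; simp [IsSym]
    rw [this]
    exact isClosed_iInter fun σ => isClosed_iInter fun I =>
      isClosed_eq (continuous_apply _) (continuous_apply _)
  have hK := (isCompact_sphere (0 : Tens k n) 1).inter_right hc
  have hev := hK.eventually_forall_of_forall_eventually (x₀ := (0 : Fin n → ℝ))
    (P := fun y T => 0 < FF c y T) (fun T hT => by
      have h0 : T ≠ 0 := by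
        rintro rfl
        have := hT.1
        simp at this
      exact (cont_FF c).continuousAt.eventually (lt_mem_nhds (h T hT.2 h0)))
  obtain ⟨ε, hε, hb⟩ := Metric.eventually_nhds_iff_ball.1 hev
  refine ⟨ε, hε, fun y hy T hT => ?_⟩
  by_cases h0 : T = 0
  · have := FF_smul c y 0 T
    rw [zero_smul, ← h0] at this
    rw [this]; simp
  · have hn : 0 < ‖T‖ := norm_pos_iff.2 h0
    have h1 := hb y hy (‖T‖⁻¹ • T) ⟨by simp [norm_smul, hn.ne'], fun σ I => by
      simp only [Pi.smul_apply]; rw [hT σ I]⟩
    rw [FF_smul] at h1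
    exact ((mul_pos_iff_of_pos_left (by positivity)).1 h1).le

end Pool.Agent.H54.Lich
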