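import Pool.Agent.H54.Lich1

namespace Pool.Agent.H54.Lich
open Pool.Agent.H54.LichDef Function

def cc : Fin 4 → Fin 4 → ℝ := fun i j => if i = j then 0 else if i.val / 2 = j.val / 2 then -30 else 1

theorem cc_symm (i j : Fin 4) : cc i j = cc j i := by
  unfold cc
  simp only [eq_comm (a := i), eq_comm (a := i.val / 2)]

theorem sum3 (f : (Fin 3 → Fin 4) → ℝ) : ∑ I, f I = ∑ a, ∑ b, ∑ d, f ![a, b, d] := by
  simp only [← (Fin.consEquiv fun _ : Fin 3 => Fin 4).sum_comp,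
    ← (Fin.consEquiv fun _ : Fin 2 => Fin 4).sum_comp,
    ← (Fin.consEquiv fun _ : Fin 1 => Fin 4).sum_comp, Fintype.sum_prod_type, Finset.univ_unique,
    Finset.sum_singleton]
  rfl

theorem sum2 (f : (Fin 2 → Fin 4) → ℝ) : ∑ I, f I = ∑ a, ∑ b, f ![a, b] := by
  simp only [← (Fin.consEquiv fun _ : Fin 2 => Fin 4).sum_comp,
    ← (Fin.consEquiv fun _ : Fin 1 => Fin 4).sum_comp, Fintype.sum_prod_type, Finset.univ_unique,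
    Finset.sum_singleton]
  rfl

theorem u0 (a b d x : Fin 4) : update ![a, b, d] 0 x = ![x, b, d] := by
  funext i; fin_cases i <;> rfl
theorem u1 (a b d x : Fin 4) : update ![a, b, d] 1 x = ![a, x, d] := by
  funext i; fin_cases i <;> rfl
theorem u2 (a b d x : Fin 4) : update ![a, b, d] 2 x = ![a, b, x] := by
  funext i; fin_cases i <;> rfl
theorem v0 (a b x : Fin 4) : update ![a, b] 0 x = ![x, b] := by
  funext i; fin_cases i <;> rfl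
theorem v1 (a b x : Fin 4) : update ![a, b] 1 x = ![a, x] := by
  funext i; fin_cases i <;> rfl
theorem p0 (a b d : Fin 4) : ![a, b, d] 0 = a := rfl
theorem p1 (a b d : Fin 4) : ![a, b, d] 1 = b := rfl
theorem p2 (a b d : Fin 4) : ![a, b, d] 2 = d := rfl
theorem r0 (a b : Fin 4) : ![a, b] 0 = a := rfl
theorem r1 (a b : Fin 4) : ![a, b] 1 = b := rfl

theorem ccv : cc 0 0 = 0 ∧ cc 0 1 = -30 ∧ cc 0 2 = 1 ∧ cc 0 3 = 1 ∧ cc 1 0 = -30 ∧ cc 1 1 = 0 ∧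
    cc 1 2 = 1 ∧ cc 1 3 = 1 ∧ cc 2 0 = 1 ∧ cc 2 1 = 1 ∧ cc 2 2 = 0 ∧ cc 2 3 = -30 ∧
    cc 3 0 = 1 ∧ cc 3 1 = 1 ∧ cc 3 2 = -30 ∧ cc 3 3 = 0 := by
  unfold cc
  refine ⟨?_, ?_, ?_, ?_, ?_, ?_, ?_, ?_, ?_, ?_, ?_, ?_, ?_, ?_, ?_, ?_⟩ <;>
    first | exact if_pos rfl | exact (if_neg (by decide)).trans (if_pos (by decide)) |
      exact (if_neg (by decide)).trans (if_neg (by decide))

theorem three (T : Tens 3 4) (hT : IsSym T) : ∑ I, T I ^ 2 ≤ FF cc 0 T := by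
  obtain ⟨t, ht⟩ : ∃ t : Fin 4 → Fin 4 → Fin 4 → ℝ, ∀ a b d, T ![a, b, d] = t a b d :=
    ⟨fun a b d => T ![a, b, d], fun _ _ _ => rfl⟩
  have s1 : ∀ a b d, t a b d = t b a d := by
    intro a b d
    rw [← ht, ← ht, ← hT (Equiv.swap 0 1) ![b, a, d]]
    congr 1; funext i; fin_cases i <;> rfl
  have s2 : ∀ a b d, t a b d = t a d b := by
    intro a b d
    rw [← ht, ← ht, ← hT (Equiv.swap 1 2) ![a, d, b]]
    congr 1; funext i; fin_cases i <;> rfl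
  have e010 : t 0 1 0 = t 0 0 1 := (s2 0 1 0)
  have e020 : t 0 2 0 = t 0 0 2 := (s2 0 2 0)
  have e021 : t 0 2 1 = t 0 1 2 := (s2 0 2 1)
  have e030 : t 0 3 0 = t 0 0 3 := (s2 0 3 0)
  have e031 : t 0 3 1 = t 0 1 3 := (s2 0 3 1)
  have e032 : t 0 3 2 = t 0 2 3 := (s2 0 3 2)
  have e100 : t 1 0 0 = t 0 0 1 := ((s1 1 0 0).trans (s2 0 1 0))
  have e101 : t 1 0 1 = t 0 1 1 := (s1 1 0 1)
  have e102 : t 1 0 2 = t 0 1 2 := (s1 1 0 2)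
  have e103 : t 1 0 3 = t 0 1 3 := (s1 1 0 3)
  have e110 : t 1 1 0 = t 0 1 1 := ((s2 1 1 0).trans (s1 1 0 1))
  have e120 : t 1 2 0 = t 0 1 2 := ((s2 1 2 0).trans (s1 1 0 2))
  have e121 : t 1 2 1 = t 1 1 2 := (s2 1 2 1)
  have e130 : t 1 3 0 = t 0 1 3 := ((s2 1 3 0).trans (s1 1 0 3))
  have e131 : t 1 3 1 = t 1 1 3 := (s2 1 3 1)
  have e132 : t 1 3 2 = t 1 2 3 := (s2 1 3 2)
  have e200 : t 2 0 0 = t 0 0 2 := ((s1 2 0 0).trans (s2 0 2 0))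
  have e201 : t 2 0 1 = t 0 1 2 := ((s1 2 0 1).trans (s2 0 2 1))
  have e202 : t 2 0 2 = t 0 2 2 := (s1 2 0 2)
  have e203 : t 2 0 3 = t 0 2 3 := (s1 2 0 3)
  have e210 : t 2 1 0 = t 0 1 2 := (((s1 2 1 0).trans (s2 1 2 0)).trans (s1 1 0 2))
  have e211 : t 2 1 1 = t 1 1 2 := ((s1 2 1 1).trans (s2 1 2 1))
  have e212 : t 2 1 2 = t 1 2 2 := (s1 2 1 2)
  have e213 : t 2 1 3 = t 1 2 3 := (s1 2 1 3)
  have e220 : t 2 2 0 = t 0 2 2 := ((s2 2 2 0).trans (s1 2 0 2))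
  have e221 : t 2 2 1 = t 1 2 2 := ((s2 2 2 1).trans (s1 2 1 2))
  have e230 : t 2 3 0 = t 0 2 3 := ((s2 2 3 0).trans (s1 2 0 3))
  have e231 : t 2 3 1 = t 1 2 3 := ((s2 2 3 1).trans (s1 2 1 3))
  have e232 : t 2 3 2 = t 2 2 3 := (s2 2 3 2)
  have e300 : t 3 0 0 = t 0 0 3 := ((s1 3 0 0).trans (s2 0 3 0))
  have e301 : t 3 0 1 = t 0 1 3 := ((s1 3 0 1).trans (s2 0 3 1))
  have e302 : t 3 0 2 = t 0 2 3 := ((s1 3 0 2).trans (s2 0 3 2))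
  have e303 : t 3 0 3 = t 0 3 3 := (s1 3 0 3)
  have e310 : t 3 1 0 = t 0 1 3 := (((s1 3 1 0).trans (s2 1 3 0)).trans (s1 1 0 3))
  have e311 : t 3 1 1 = t 1 1 3 := ((s1 3 1 1).trans (s2 1 3 1))
  have e312 : t 3 1 2 = t 1 2 3 := ((s1 3 1 2).trans (s2 1 3 2))
  have e313 : t 3 1 3 = t 1 3 3 := (s1 3 1 3)
  have e320 : t 3 2 0 = t 0 2 3 := (((s1 3 2 0).trans (s2 2 3 0)).trans (s1 2 0 3))
  have e321 : t 3 2 1 = t 1 2 3 := (((s1 3 2 1).trans (s2 2 3 1)).trans (s1 2 1 3))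
  have e322 : t 3 2 2 = t 2 2 3 := ((s1 3 2 2).trans (s2 2 3 2))
  have e323 : t 3 2 3 = t 2 3 3 := (s1 3 2 3)
  have e330 : t 3 3 0 = t 0 3 3 := ((s2 3 3 0).trans (s1 3 0 3))
  have e331 : t 3 3 1 = t 1 3 3 := ((s2 3 3 1).trans (s1 3 1 3))
  have e332 : t 3 3 2 = t 2 3 3 := ((s2 3 3 2).trans (s1 3 2 3))
  obtain ⟨c00, c01, c02, c03, c10, c11, c12, c13, c20, c21, c22, c23, c30, c31, c32, c33⟩ := ccv
  rw [FF0 cc cc_symm, sum3, sum3]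
  simp only [Fin.sum_univ_three, u0, u1, u2, p0, p1, p2, ht, if_true]
  simp only [Fin.sum_univ_four, Fin.isValue, Fin.reduceEq, if_true, if_false, c00, c01, c02, c03,
    c10, c11, c12, c13, c20, c21, c22, c23, c30, c31, c32, c33, e010, e020, e021, e030, e031, e032, e100, e101, e102, e103, e110, e120, e121, e130, e131, e132, e200, e201, e202, e203, e210, e211, e212, e213, e220, e221, e230, e231, e232, e300, e301, e302, e303, e310, e311, e312, e313, e320, e321, e322, e323, e330, e331, e332]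
  have hs : 0 ≤ (167 / 1 : ℝ) * ((1 / 1 : ℝ) * t 0 0 0 + (-360 / 167 : ℝ) * t 0 1 1 + (12 / 167 : ℝ) * t 0 2 2 + (12 / 167 : ℝ) * t 0 3 3) ^ 2 +
      (1221 / 1 : ℝ) * ((1 / 1 : ℝ) * t 0 0 1 + (-120 / 407 : ℝ) * t 1 1 1 + (4 / 407 : ℝ) * t 1 2 2 + (4 / 407 : ℝ) * t 1 3 3) ^ 2 +
      (477 / 1 : ℝ) * ((1 / 1 : ℝ) * t 0 0 2 + (-40 / 53 : ℝ) * t 1 1 2 + (4 / 159 : ℝ) * t 2 2 2 + (4 / 159 : ℝ) * t 2 3 3) ^ 2 +
      (477 / 1 : ℝ) * ((1 / 1 : ℝ) * t 0 0 3 + (-40 / 53 : ℝ) * t 1 1 3 + (4 / 159 : ℝ) * t 2 2 3 + (4 / 159 : ℝ) * t 3 3 3) ^ 2 +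
      (74307 / 167 : ℝ) * ((1 / 1 : ℝ) * t 0 1 1 + (4 / 47 : ℝ) * t 0 2 2 + (4 / 47 : ℝ) * t 0 3 3) ^ 2 +
      (1674 / 1 : ℝ) * ((1 / 1 : ℝ) * t 0 1 2) ^ 2 +
      (1674 / 1 : ℝ) * ((1 / 1 : ℝ) * t 0 1 3) ^ 2 +
      (22227 / 47 : ℝ) * ((1 / 1 : ℝ) * t 0 2 2 + (-184 / 239 : ℝ) * t 0 3 3) ^ 2 +
      (1674 / 1 : ℝ) * ((1 / 1 : ℝ) * t 0 2 3) ^ 2 +
      (46035 / 239 : ℝ) * ((1 / 1 : ℝ) * t 0 3 3) ^ 2 +
      (24769 / 407 : ℝ) * ((1 / 1 : ℝ) * t 1 1 1 + (12 / 47 : ℝ) * t 1 2 2 + (12 / 47 : ℝ) * t 1 3 3) ^ 2 +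
      (10881 / 53 : ℝ) * ((1 / 1 : ℝ) * t 1 1 2 + (4 / 39 : ℝ) * t 2 2 2 + (4 / 39 : ℝ) * t 2 3 3) ^ 2 +
      (10881 / 53 : ℝ) * ((1 / 1 : ℝ) * t 1 1 3 + (4 / 39 : ℝ) * t 2 2 3 + (4 / 39 : ℝ) * t 3 3 3) ^ 2 +
      (22227 / 47 : ℝ) * ((1 / 1 : ℝ) * t 1 2 2 + (-184 / 239 : ℝ) * t 1 3 3) ^ 2 +
      (1674 / 1 : ℝ) * ((1 / 1 : ℝ) * t 1 2 3) ^ 2 +
      (46035 / 239 : ℝ) * ((1 / 1 : ℝ) * t 1 3 3) ^ 2 +
      (2139 / 13 : ℝ) * ((1 / 1 : ℝ) * t 2 2 2 + (-152 / 69 : ℝ) * t 2 3 3) ^ 2 +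
      (15841 / 13 : ℝ) * ((1 / 1 : ℝ) * t 2 2 3 + (-152 / 511 : ℝ) * t 3 3 3) ^ 2 +
      (28985 / 69 : ℝ) * ((1 / 1 : ℝ) * t 2 3 3) ^ 2 +
      (28985 / 511 : ℝ) * ((1 / 1 : ℝ) * t 3 3 3) ^ 2 := by positivity
  linarith

def SS : Tens 2 4 := fun I => if I 0 = I 1 then (if (I 0).val / 2 = 0 then 1 else -1) else 0

theorem SS_sym : IsSym SS := by
  intro σ I
  have h : σ = 1 ∨ σ = Equiv.swap 0 1 := by revert σ; decide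
  rcases h with rfl | rfl
  · rfl
  · unfold SS
    have a : (I ∘ Equiv.swap (0 : Fin 2) 1) 0 = I 1 := rfl
    have b : (I ∘ Equiv.swap (0 : Fin 2) 1) 1 = I 0 := rfl
    rw [a, b]
    by_cases e : I 0 = I 1
    · rw [e]
    · rw [if_neg e, if_neg (Ne.symm e)]

theorem two : FF cc 0 SS < 0 := by
  obtain ⟨c00, c01, c02, c03, c10, c11, c12, c13, c20, c21, c22, c23, c30, c31, c32, c33⟩ := ccv
  rw [FF0 cc cc_symm, sum2]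
  simp only [Fin.sum_univ_two, v0, v1, r0, r1, SS, if_true]
  simp only [Fin.sum_univ_four, Fin.isValue, Fin.reduceEq, if_true, if_false, c00, c01, c02, c03,
    c10, c11, c12, c13, c20, c21, c22, c23, c30, c31, c32, c33]
  norm_num

theorem pos3 (T : Tens 3 4) (hT : IsSym T) (h0 : T ≠ 0) : 0 < FF cc 0 T := by
  refine lt_of_lt_of_le ?_ (three T hT)
  obtain ⟨I, hI⟩ := Function.ne_iff.1 h0
  exact Finset.sum_pos' (fun _ _ => sq_nonneg _) ⟨I, Finset.mem_univ _, by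
    have : T I ≠ 0 := hI
    positivity⟩

end Pool.Agent.H54.Lich
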