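import Mathlib

/-! Riemannian geometry in coordinates and the curvature term of the Lichnerowicz Laplacian. -/

namespace Pool.Agent.H54.LichDef

/-- A field of coefficient matrices `g_ij` in the coordinates of `ℝⁿ`. -/
abbrev Met (n : ℕ) := (Fin n → ℝ) → Matrix (Fin n) (Fin n) ℝ

/-- Components `T(∂_{I 0}, …, ∂_{I (k-1)})` of a `(0,k)`-tensor at a point. -/
abbrev Tens (k n : ℕ) := (Fin k → Fin n) → ℝ

variable {k n : ℕ}

/-- The `i`-th coordinate derivative. -/
noncomputable def pd (u : (Fin n → ℝ) → ℝ) (i : Fin n) (y : Fin n → ℝ) : ℝ :=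
  deriv (fun s => u (Function.update y i s)) (y i)

/-- Christoffel symbols: `∇_{∂ i} ∂ j = ∑ l, chris G l i j ∂ l`. -/
noncomputable def chris (G : Met n) (l i j : Fin n) (y : Fin n → ℝ) : ℝ :=
  (∑ m, (G y)⁻¹ l m * (pd (G · j m) i y + pd (G · i m) j y - pd (G · i j) m y)) / 2

/-- Curvature `R(X,Y) = ∇_X ∇_Y - ∇_Y ∇_X - ∇_[X,Y]`:
`R(∂ i, ∂ j) ∂ m = ∑ l, riem G l i j m ∂ l`. -/
noncomputable def riem (G : Met n) (l i j m : Fin n) (y : Fin n → ℝ) : ℝ :=
  pd (chris G l j m) i y - pd (chris G l i m) j y +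
    ∑ p, (chris G l i p y * chris G p j m y - chris G l j p y * chris G p i m y)

/-- Symmetric tensors. -/
def IsSym (T : Tens k n) : Prop := ∀ (σ : Equiv.Perm (Fin k)) (I : Fin k → Fin n), T (I ∘ σ) = T I

/-- `R(∂ a, ∂ b) T`, with `R(∂ a, ∂ b)` acting on `(0,k)`-tensors as a derivation. -/
noncomputable def curvAct (G : Met n) (y : Fin n → ℝ) (a b : Fin n) (T : Tens k n) : Tens k n :=
  fun I => -∑ j, ∑ l, riem G l a b (I j) y * T (Function.update I j l)

/-- The curvature term `Ric_L(T)`; the orthonormal trace is the contraction with `g⁻¹`. -/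
noncomputable def ricL (G : Met n) (y : Fin n → ℝ) (T : Tens k n) : Tens k n :=
  fun I => ∑ i, ∑ a, ∑ c, (G y)⁻¹ a c * curvAct G y a (I i) T (Function.update I i c)

/-- The inner product `g(T, S)` of `(0,k)`-tensors at `y`. -/
noncomputable def gInner (G : Met n) (y : Fin n → ℝ) (T S : Tens k n) : ℝ :=
  ∑ I, ∑ J, (∏ j, (G y)⁻¹ (I j) (J j)) * T I * S J

end Pool.Agent.H54.LichDef
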