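import Pool.Agent.H54.WZ3

namespace Pool.Agent.H54.SuperCat

open Nat Finset

instance : Fact (Nat.Prime 5) := ⟨Nat.prime_five⟩

/-- the rational `q` is 5-integral with residue `s` -/
def E (q : ℚ) (s : ZMod 5) : Prop := ∃ a b : ℤ, (b : ZMod 5) ≠ 0 ∧ q * b = a ∧ (a : ZMod 5) = s * b

lemma E.int (z : ℤ) : E z z := ⟨z, 1, by simp, by simp, by simp⟩

lemma E.frac {a b : ℤ} {s : ZMod 5} (hb : (b : ZMod 5) ≠ 0) (h : (a : ZMod 5) = s * b) : E (a / b) s := by
  have : (b : ℚ) ≠ 0 := fun h0 => hb (by rw [show b = 0 by exact_mod_cast h0]; simp)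
  exact ⟨a, b, hb, by field_simp, h⟩

lemma E.mul {q r : ℚ} {s t : ZMod 5} (h1 : E q s) (h2 : E r t) : E (q * r) (s * t) := by
  obtain ⟨a, b, hb, e1, e2⟩ := h1
  obtain ⟨c, d, hd, e3, e4⟩ := h2
  exact ⟨a * c, b * d, by push_cast; exact mul_ne_zero hb hd, by push_cast; rw [← e1, ← e3]; ring,
    by push_cast; rw [e2, e4]; ring⟩

lemma E.add {q r : ℚ} {s t : ZMod 5} (h1 : E q s) (h2 : E r t) : E (q + r) (s + t) := by
  obtain ⟨a, b, hb, e1, e2⟩ := h1
  obtain ⟨c, d, hd, e3, e4⟩ := h2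
  exact ⟨a * d + c * b, b * d, by push_cast; exact mul_ne_zero hb hd, by push_cast; rw [← e1, ← e3]; ring,
    by push_cast; rw [e2, e4]; ring⟩

lemma E.inv {q : ℚ} {s t : ZMod 5} (h1 : E q s) (h : s * t = 1) : E q⁻¹ t := by
  obtain ⟨a, b, hb, e1, e2⟩ := h1
  have ha : (a : ZMod 5) ≠ 0 := by rw [e2]; exact mul_ne_zero (left_ne_zero_of_mul_eq_one h) hb
  have hq : q ≠ 0 := fun h0 => ha (by
    rw [h0, zero_mul] at e1
    rw [show a = 0 by exact_mod_cast e1.symm]; simp)
  exact ⟨b, a, ha, by rw [← e1]; field_simp, by rw [e2]; linear_combination (-(b : ZMod 5)) * h⟩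

lemma E.of_eq {q r : ℚ} {s t : ZMod 5} (h : E q s) (h1 : r = q) (h2 : t = s) : E r t := h1 ▸ h2 ▸ h

lemma E.sum {n : ℕ} {f : ℕ → ℚ} (hf : ∀ j < n, E (f j) 0) : E (∑ j ∈ range n, f j) 0 := by
  induction n with
  | zero => exact (E.int 0).of_eq (by simp) (by simp)
  | succ n ih => exact ((ih fun j hj => hf j (by omega)).add (hf n (by omega))).of_eq (sum_range_succ _ _) (by simp)

lemma E.dvd {z : ℤ} (h : E z 0) : 5 ∣ z := by
  obtain ⟨a, b, hb, e1, e2⟩ := h
  have : z * b = a := by exact_mod_cast e1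
  rw [← this, zero_mul] at e2
  push_cast at e2
  exact (ZMod.intCast_zmod_eq_zero_iff_dvd z 5).1 ((mul_eq_zero.1 e2).resolve_right hb)

lemma E.pow1 {q : ℚ} (h : E q 1) (n : ℕ) : E (q ^ n) 1 := by
  induction n with
  | zero => exact (E.int 1).of_eq (by simp) (by simp)
  | succ n ih => exact (ih.mul h).of_eq (pow_succ _ _) (by simp)

lemma fac5 (i : ℕ) : ∃ r, E r ((-1) ^ i) ∧ ((5 * i)! : ℚ) = r * 5 ^ i * i ! := by
  induction i with
  | zero => exact ⟨1, (E.int 1).of_eq (by simp) (by simp), by simp⟩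
  | succ i ih =>
    obtain ⟨r, h1, h2⟩ := ih
    refine ⟨_, (h1.mul (E.int ((5 * i + 1) * (5 * i + 2) * (5 * i + 3) * (5 * i + 4)))).of_eq rfl ?_, ?_⟩
    · rw [pow_succ]
      congr 1
      push_cast
      generalize (i : ZMod 5) = x
      revert x
      decide
    · rw [show 5 * (i + 1) = 5 * i + 1 + 1 + 1 + 1 + 1 by ring]
      simp only [factorial_succ]
      push_cast
      rw [h2]
      ring

lemma hz5 (a b : ℕ) : ∃ r, E r ((-1) ^ (a + b)) ∧ hz (5 * a) (5 * b) * 5 ^ b = r * 5 ^ a * hz a b := by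
  induction b with
  | zero =>
    induction a with
    | zero => exact ⟨1, (E.int 1).of_eq (by simp) (by simp), by simp⟩
    | succ a ih =>
      obtain ⟨r, h1, h2⟩ := ih
      refine ⟨_, (h1.mul (E.frac (a := (10 * a + 1) * (10 * a + 3) * (10 * a + 7) * (10 * a + 9)) (b := 16)
        (s := -1) (by decide) ?_)).of_eq rfl (by ring), ?_⟩
      · push_cast
        generalize (a : ZMod 5) = x
        revert x
        decide
      · simp only [hz, pow_zero, mul_one] at h2 ⊢
        rw [show 5 * (a + 1) = 5 * a + 1 + 1 + 1 + 1 + 1 by ring]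
        simp only [h]
        push_cast
        rw [h2]
        ring
  | succ b ih =>
    obtain ⟨r, h1, h2⟩ := ih
    refine ⟨_, (h1.mul (E.frac (a := 16) (b := (10 * a - 10 * b - 1) * (10 * a - 10 * b - 3) *
      (10 * a - 10 * b - 7) * (10 * a - 10 * b - 9)) (s := -1) ?_ ?_)).of_eq rfl (by ring), ?_⟩
    · push_cast
      generalize (a : ZMod 5) = x
      generalize (b : ZMod 5) = y
      revert x y
      decide
    · push_cast
      generalize (a : ZMod 5) = x
      generalize (b : ZMod 5) = y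
      revert x y
      decide
    · have o1 := od (5 * a) (5 * b)
      have o2 := od (5 * a) (5 * b + 1)
      have o3 := od a b
      have o4 := od (5 * a) (5 * b + 3)
      have o5 := od (5 * a) (5 * b + 4)
      rw [show 5 * (b + 1) = 5 * b + 1 + 1 + 1 + 1 + 1 by ring]
      simp only [hz]
      push_cast at *
      rw [show hz (5 * a) (5 * b) = r * 5 ^ a * hz a b / 5 ^ b by rw [← h2]; field_simp,
        show (2 * (5 * (a : ℚ)) - 2 * (5 * b + 2) - 1) = 5 * (2 * a - 2 * b - 1) by ring,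
        show (10 * (a : ℚ) - 10 * b - 1) = 2 * (5 * a) - 2 * (5 * b) - 1 by ring,
        show (10 * (a : ℚ) - 10 * b - 3) = 2 * (5 * a) - 2 * (5 * b + 1) - 1 by ring,
        show (10 * (a : ℚ) - 10 * b - 7) = 2 * (5 * a) - 2 * (5 * b + 3) - 1 by ring,
        show (10 * (a : ℚ) - 10 * b - 9) = 2 * (5 * a) - 2 * (5 * b + 4) - 1 by ring]
      generalize (2 * (5 * (a : ℚ)) - 2 * (5 * b) - 1) = x1 at *
      generalize (2 * (5 * (a : ℚ)) - 2 * (5 * b + 1) - 1) = x2 at *
      generalize (2 * (a : ℚ) - 2 * b - 1) = x3 at *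
      generalize (2 * (5 * (a : ℚ)) - 2 * (5 * b + 3) - 1) = x4 at *
      generalize (2 * (5 * (a : ℚ)) - 2 * (5 * b + 4) - 1) = x5 at *
      field_simp
      ring

lemma hz_add (b c : ℕ) : hz (b + c) b = h c := by
  induction b with
  | zero => simp [hz]
  | succ b ih => rw [show b + 1 + c = b + c + 1 by ring, hz_ss, ih]

/-- the 5-adic valuation of `n!` -/
def L5 (n : ℕ) : ℕ := padicValNat 5 n !

lemma L5q (n m : ℕ) (h : n / 5 = m) : L5 n = m + L5 m := by
  rw [L5, ← padicValNat_mul_div_factorial, padicValNat_factorial_mul, h, add_comm, L5]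

lemma L5add (a b c d : ℕ) (h : a + b + c ≤ d) : L5 a + L5 b + L5 c ≤ L5 d := by
  rw [L5, L5, L5, L5, ← padicValNat.mul (factorial_ne_zero _) (factorial_ne_zero _),
    ← padicValNat.mul (by positivity) (factorial_ne_zero _), ← padicValNat_dvd_iff_le (factorial_ne_zero _)]
  exact pow_padicValNat_dvd.trans ((mul_dvd_mul_right (factorial_mul_factorial_dvd_factorial_add a b) _).trans
    ((factorial_mul_factorial_dvd_factorial_add _ c).trans (factorial_dvd_factorial h)))

lemma chi5 (m : ℕ) (hm : 1 ≤ m) : L5 (3 * m) + L5 m + L5 (2 * m) + 1 ≤ L5 (6 * m) := by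
  induction m using Nat.strong_induction_on with
  | _ m ih =>
    rw [L5q m _ rfl, L5q (3 * m) _ rfl, L5q (2 * m) _ rfl, L5q (6 * m) _ rfl]
    by_cases h : m % 5 = 0
    · have := ih (m / 5) (by omega) (by omega)
      rw [show 3 * m / 5 = 3 * (m / 5) by omega, show 2 * m / 5 = 2 * (m / 5) by omega,
        show 6 * m / 5 = 6 * (m / 5) by omega]
      omega
    · have := L5add (3 * m / 5) (m / 5) (2 * m / 5) (6 * m / 5) (by omega)
      have : 3 * m / 5 + m / 5 + 2 * m / 5 + 1 ≤ 6 * m / 5 := by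
        obtain ⟨q, r, hr, rfl⟩ : ∃ q r, r < 5 ∧ m = 5 * q + r := ⟨m / 5, m % 5, by omega, by omega⟩
        interval_cases r <;> omega
      omega

lemma phi5 (m : ℕ) : L5 (3 * m + 1) + L5 m + L5 (2 * m + 1) + 1 ≤ L5 (6 * m + 2) ↔ ¬ ∃ k, 2 * m + 1 = 5 ^ k := by
  induction m using Nat.strong_induction_on with
  | _ m ih =>
    rcases Nat.eq_zero_or_pos m with rfl | m0
    · exact iff_of_false (by rw [L5q (6 * 0 + 2) 0 rfl]; simp [L5]) (not_not.2 ⟨0, rfl⟩)
    rw [L5q m _ rfl, L5q (3 * m + 1) _ rfl, L5q (2 * m + 1) _ rfl, L5q (6 * m + 2) _ rfl]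
    by_cases h : m % 5 = 2
    · have : (∃ k, 2 * m + 1 = 5 ^ k) ↔ ∃ k, 2 * (m / 5) + 1 = 5 ^ k := by
        refine ⟨fun ⟨k, hk⟩ => ?_, fun ⟨k, hk⟩ => ⟨k + 1, by rw [pow_succ]; omega⟩⟩
        cases k with
        | zero => omega
        | succ k => exact ⟨k, by rw [pow_succ] at hk; omega⟩
      rw [this, ← ih (m / 5) (by omega), show (3 * m + 1) / 5 = 3 * (m / 5) + 1 by omega,
        show (2 * m + 1) / 5 = 2 * (m / 5) + 1 by omega, show (6 * m + 2) / 5 = 6 * (m / 5) + 2 by omega]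
      omega
    · refine iff_of_true ?_ fun ⟨k, hk⟩ => ?_
      · by_cases h0 : m % 5 = 0
        · have := chi5 (m / 5) (by omega)
          rw [show (3 * m + 1) / 5 = 3 * (m / 5) by omega, show (2 * m + 1) / 5 = 2 * (m / 5) by omega,
            show (6 * m + 2) / 5 = 6 * (m / 5) by omega]
          omega
        · have := L5add ((3 * m + 1) / 5) (m / 5) ((2 * m + 1) / 5) ((6 * m + 2) / 5) (by omega)
          have : (3 * m + 1) / 5 + m / 5 + (2 * m + 1) / 5 + 1 ≤ (6 * m + 2) / 5 := by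
            obtain ⟨q, r, hr, rfl⟩ : ∃ q r, r < 5 ∧ m = 5 * q + r := ⟨m / 5, m % 5, by omega, by omega⟩
            interval_cases r <;> omega
          omega
      · cases k with
        | zero => omega
        | succ k => rw [pow_succ] at hk; omega

lemma dint (n : ℕ) : ∃ z : ℕ, (6 * n)! = (3 * n)! * n ! * (2 * n + 1)! * z := by
  show (3 * n)! * n ! * (2 * n + 1)! ∣ (6 * n)!
  rw [← factorization_prime_le_iff_dvd (by positivity) (by positivity)]
  intro p hp
  have B : ∀ m, m ≤ 6 * n + 1 → (m !).factorization p = ∑ i ∈ Ico 1 (6 * n + 2), m / p ^ i :=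
    fun m hm => factorization_factorial hp ((Nat.log_le_self _ _).trans_lt (by omega))
  rw [Nat.factorization_mul (by positivity) (by positivity), Nat.factorization_mul (by positivity) (by positivity)]
  simp only [Finsupp.add_apply]
  rw [B _ (by omega), B _ (by omega), B _ (by omega), B _ (by omega)]
  simp only [← sum_add_distrib]
  refine sum_le_sum fun i hi => ?_
  have hq : 2 ≤ p ^ i := hp.two_le.trans (le_self_pow (by have := (mem_Ico.1 hi).1; omega) _)
  generalize p ^ i = q at hq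
  obtain ⟨x, r, hr, rfl⟩ : ∃ x r, r < q ∧ n = r + q * x :=
    ⟨n / q, n % q, Nat.mod_lt _ (by omega), (Nat.mod_add_div _ _).symm⟩
  have q0 : 0 < q := by omega
  rw [show 3 * (r + q * x) = 3 * r + q * (3 * x) by ring, show 2 * (r + q * x) + 1 = 2 * r + 1 + q * (2 * x) by ring,
    show 6 * (r + q * x) = 6 * r + q * (6 * x) by ring]
  simp only [Nat.add_mul_div_left _ _ q0, Nat.div_eq_of_lt hr]
  have A : ∀ t k, k ≤ t / q ↔ k * q ≤ t := fun t k => Nat.le_div_iff_mul_le q0
  have := A (3 * r) 1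
  have := A (3 * r) 2
  have := A (3 * r) 3
  have := A (2 * r + 1) 1
  have := A (2 * r + 1) 2
  have := A (6 * r) 1
  have := A (6 * r) 2
  have := A (6 * r) 3
  generalize (3 * r) / q = i at *
  generalize (2 * r + 1) / q = j at *
  generalize (6 * r) / q = k at *
  omega

end Pool.Agent.H54.SuperCat
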