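import Mathlib

open Finset

namespace Pool.Agent.H54.NetCode

/-- `M` is a set of edges whose removal leaves no directed path from `s i` to `t i`. -/
def IsMulticut {V ι : Type} (E : V → V → Prop) (s t : ι → V) (M : Finset (V × V)) : Prop :=
  (∀ e ∈ M, E e.1 e.2) ∧
    ∀ i, ¬ Relation.ReflTransGen (fun u v => E u v ∧ (u, v) ∉ M) (s i) (t i)

/-- A zero-error network code with alphabet `α`, block length `b`, message lengths `a i`. -/
def IsSolution {V ι : Type} (E : V → V → Prop) (s t : ι → V) (α : Type) (b : ℕ) (a : ι → ℕ) :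
    Prop :=
  ∃ y : (∀ i, Fin (a i) → α) → {e : V × V // E e.1 e.2} → (Fin b → α),
    (∀ e : {e : V × V // E e.1 e.2},
      ∃ f : ({e' : {e : V × V // E e.1 e.2} // e'.1.2 = e.1.1} → Fin b → α) →
          (∀ i : {i // s i = e.1.1}, Fin (a i.1) → α) → Fin b → α,
        ∀ x, y x e = f (fun e' => y x e'.1) (fun i => x i.1)) ∧
    (∀ i, ∃ g : ({e' : {e : V × V // E e.1 e.2} // e'.1.2 = t i} → Fin b → α) → Fin (a i) → α,
        ∀ x, g (fun e' => y x e'.1) = x i)

/-- The set of total rates of all solutions (alphabets with at least two letters). -/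
def rates {V ι : Type} [Fintype ι] (E : V → V → Prop) (s t : ι → V) : Set ℝ :=
  {ρ | ∃ (α : Type) (_ : Fintype α) (_ : Nontrivial α) (b : ℕ) (a : ι → ℕ),
    1 ≤ b ∧ IsSolution E s t α b a ∧ ρ = (∑ i, (a i : ℝ)) / b}

theorem gns {V ι : Type} [Fintype ι] (E : V → V → Prop) (s t : ι → V) (α : Type) [Fintype α]
    [Nontrivial α] (b : ℕ) (a : ι → ℕ) (h : IsSolution E s t α b a)
    (S : Finset (V × V)) (I : Finset ι) (rk : V → ℕ)
    (hE : ∀ u v, E u v → (u, v) ∉ S → rk u < rk v) (hI : ∀ i ∈ I, rk (t i) < rk (s i)) :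
    ∑ i ∈ I, a i ≤ b * S.card := by
  classical
  obtain ⟨y, hf, hg⟩ := h
  choose f hf using hf
  choose g hg using hg
  have key : ∀ x x' : (∀ i, Fin (a i) → α), (∀ i, i ∉ I → x i = x' i) →
      (∀ e, e.1 ∈ S → y x e = y x' e) → x = x' := by
    intro x x' h1 h2
    have hy : ∀ n, ∀ e : {e : V × V // E e.1 e.2}, rk e.1.1 < n → y x e = y x' e := by
      intro n
      induction n with
      | zero => intro e he; omega
      | succ n ih =>
        intro e he
        have hin : ∀ e' : {e : V × V // E e.1 e.2}, rk e'.1.2 ≤ n → y x e' = y x' e' := by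
          intro e' he'
          by_cases hS : e'.1 ∈ S
          · exact h2 e' hS
          · exact ih e' (lt_of_lt_of_le (hE _ _ e'.2 hS) he')
        rw [hf e x, hf e x']
        congr 1
        · funext e'
          exact hin e'.1 (by rw [e'.2]; omega)
        · funext i
          by_cases hi : i.1 ∈ I
          · rw [← hg i.1 x, ← hg i.1 x']
            congr 1
            funext e'
            have := hI i.1 hi
            exact hin e'.1 (by rw [e'.2]; rw [i.2] at this; omega)
          · exact h1 i.1 hi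
    funext i
    rw [← hg i x, ← hg i x']
    congr 1
    funext e'
    exact hy _ e'.1 (Nat.lt_succ_self _)
  obtain ⟨a0, -⟩ := exists_pair_ne α
  let ext : (∀ i : I, Fin (a i.1) → α) → (∀ i, Fin (a i) → α) := fun z i =>
    if h : i ∈ I then z ⟨i, h⟩ else fun _ => a0
  let F : (∀ i : I, Fin (a i.1) → α) → (S → Fin b → α) := fun z e =>
    if h : E e.1.1 e.1.2 then y (ext z) ⟨e.1, h⟩ else fun _ => a0
  have hF : Function.Injective F := by
    intro z z' hz
    have := key (ext z) (ext z') (fun i hi => by simp [ext, hi]) (fun e he => by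
      have := congrFun hz ⟨e.1, he⟩
      simpa [F, e.2] using this)
    funext i
    have h3 := congrFun this i.1
    simpa [ext, i.2] using h3
  have hc := Fintype.card_le_of_injective F hF
  simp only [Fintype.card_pi, Finset.prod_const, Finset.card_univ, Fintype.card_fin,
    Fintype.card_coe, Finset.prod_pow_eq_pow_sum] at hc
  rw [← pow_mul, Finset.sum_coe_sort I a] at hc
  exact (Nat.pow_le_pow_iff_right Fintype.one_lt_card).1 hc

abbrev Vtx (m L : ℕ) := Fin (2 * m + 2) × (Fin m → Fin L)

def Edge {m L : ℕ} (u v : Vtx m L) : Prop :=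
  u.1.val < v.1.val ∧ (u.1.val % 2 = 1 → v.1.val = u.1.val + 1) ∧
    ∀ j : Fin m, (u.1.val < 2 * j.val + 1 ∧ 2 * j.val + 1 < v.1.val → u.2 j < v.2 j) ∧
      (¬ (u.1.val < 2 * j.val + 1 ∧ 2 * j.val + 1 < v.1.val) → u.2 j = v.2 j)

abbrev Pairs (m L r : ℕ) :=
  {p : (Fin m → Fin L) × (Fin m → Fin L) // (univ.filter (fun j => p.1 j ≠ p.2 j)).card ≤ r}

def src {m L r : ℕ} (p : Pairs m L r) : Vtx m L := (⟨0, by omega⟩, p.1.1)
def snk {m L r : ℕ} (p : Pairs m L r) : Vtx m L := (⟨2 * m + 1, by omega⟩, p.1.2)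

theorem upper (m L r : ℕ) (α : Type) [Fintype α] [Nontrivial α] (b : ℕ) (a : Pairs m L r → ℕ)
    (h : IsSolution Edge src snk α b a) : (m - r) * ∑ i, a i ≤ m * (b * L ^ m) := by
  classical
  have h1 : ∀ l : Fin m, ∑ i ∈ univ.filter (fun p : Pairs m L r => p.1.1 l = p.1.2 l), a i ≤
      b * L ^ m := by
    intro l
    let S : Finset (Vtx m L × Vtx m L) := univ.image (fun τ : Fin m → Fin L =>
      ((⟨2 * l.val + 1, by omega⟩, τ), (⟨2 * l.val + 2, by omega⟩, τ)))
    have hS : S.card ≤ L ^ m := Finset.card_image_le.trans (by simp)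
    refine (gns Edge src snk α b a h S _ (fun v => (2 * (v.2 l).val +
      if v.1.val ≤ 2 * l.val + 1 then 1 else 0) * (2 * m + 2) + v.1.val) ?_ ?_).trans
      (Nat.mul_le_mul_left _ hS)
    · rintro ⟨p, τ⟩ ⟨p', τ'⟩ ⟨e1, e2, e3⟩ hn
      simp only at e1 e2 e3 ⊢
      by_cases hj : p.val < 2 * l.val + 1 ∧ 2 * l.val + 1 < p'.val
      · have := (e3 l).1 hj
        rw [if_pos (by omega), if_neg (by omega)]
        have h4 : (2 * (τ l).val + 1) * (2 * m + 2) ≤ (2 * (τ' l).val + 0) * (2 * m + 2) :=
          Nat.mul_le_mul_right _ (by have := Fin.lt_def.1 this; omega)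
        omega
      · rw [(e3 l).2 hj]
        by_cases hp : p.val = 2 * l.val + 1
        · exfalso
          apply hn
          have hp' := e2 (by omega)
          have hτ : τ = τ' := funext fun j => (e3 j).2 (by omega)
          refine Finset.mem_image.2 ⟨τ, Finset.mem_univ _, ?_⟩
          rw [← hτ]
          simp only [Prod.mk.injEq, and_true]
          exact ⟨Fin.ext hp.symm, Fin.ext (by simp only; omega)⟩
        · by_cases hq : p.val ≤ 2 * l.val + 1
          · rw [if_pos hq, if_pos (by omega)]; omega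
          · rw [if_neg hq, if_neg (by omega)]; omega
    · intro p hp
      have hp' := (Finset.mem_filter.1 hp).2
      have hl := l.2
      show (2 * (p.1.2 l).val + if 2 * m + 1 ≤ 2 * l.val + 1 then 1 else 0) * (2 * m + 2) +
        (2 * m + 1) < (2 * (p.1.1 l).val + if 0 ≤ 2 * l.val + 1 then 1 else 0) * (2 * m + 2) + 0
      rw [if_neg (by omega), if_pos (by omega), hp']
      nlinarith
  calc (m - r) * ∑ i, a i = ∑ i, (m - r) * a i := Finset.mul_sum _ _ _
    _ ≤ ∑ i : Pairs m L r, (univ.filter (fun l : Fin m => i.1.1 l = i.1.2 l)).card * a i := by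
        refine Finset.sum_le_sum fun i _ => Nat.mul_le_mul_right _ ?_
        have h2 := Finset.card_filter_add_card_filter_not (s := (univ : Finset (Fin m)))
          (fun l => i.1.1 l = i.1.2 l)
        have h3 := i.2
        simp only [Finset.card_univ, Fintype.card_fin, ne_eq] at h2 h3
        omega
    _ = ∑ l : Fin m, ∑ i ∈ univ.filter (fun p : Pairs m L r => p.1.1 l = p.1.2 l), a i := by
        simp only [Finset.card_filter, Finset.sum_filter, Finset.sum_mul]
        rw [Finset.sum_comm]
        simp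
    _ ≤ m * (b * L ^ m) := by
        refine (Finset.sum_le_card_nsmul _ _ _ (fun l _ => h1 l)).trans ?_
        simp

theorem line_step {m L : ℕ} (W : Finset (Fin m → Fin L)) (j : Fin m) :
    W.card ≤ (W.filter (fun τ' => ∃ τ ∈ W, τ j < τ' j ∧ ∀ i, i ≠ j → τ i = τ' i)).card +
      L ^ (m - 1) := by
  classical
  have h1 := Finset.card_filter_add_card_filter_not (s := W)
    (fun τ' => ∃ τ ∈ W, τ j < τ' j ∧ ∀ i, i ≠ j → τ i = τ' i)
  have h2 : (W.filter (fun τ' => ¬ ∃ τ ∈ W, τ j < τ' j ∧ ∀ i, i ≠ j → τ i = τ' i)).card ≤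
      (univ : Finset ({i // i ≠ j} → Fin L)).card := by
    apply Finset.card_le_card_of_injOn (fun τ i => τ i.1) (by simp)
    intro τ hτ τ' hτ' h
    rw [Finset.mem_coe, Finset.mem_filter] at hτ hτ'
    have h3 : ∀ i, i ≠ j → τ i = τ' i := fun i hi => congrFun h ⟨i, hi⟩
    rcases lt_trichotomy (τ j) (τ' j) with h4 | h4 | h4
    · exact absurd ⟨τ, hτ.1, h4, h3⟩ hτ'.2
    · funext i
      by_cases hi : i = j
      · rw [hi, h4]
      · exact h3 i hi
    · exact absurd ⟨τ', hτ'.1, h4, fun i hi => (h3 i hi).symm⟩ hτ.2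
  have h3 : (univ : Finset ({i // i ≠ j} → Fin L)).card = L ^ (m - 1) := by
    simp only [Finset.card_univ, Fintype.card_pi, Finset.prod_const, Fintype.card_fin, ne_eq,
      Fintype.card_subtype_compl, Fintype.card_unique]
  omega

def charge {m L : ℕ} (e : Vtx m L × Vtx m L) : ℕ × (Fin m → Fin L) :=
  if e.2.1.val = 2 * m + 1 then (e.1.1.val / 2 - 1, e.1.2) else ((e.2.1.val - 1) / 2, e.2.2)

theorem stair (m L r : ℕ) (hr : r < m) (M : Finset (Vtx m L × Vtx m L))
    (hM : IsMulticut Edge (src (r := r)) snk M) (A : Finset (Fin m)) (hA : A.card = r)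
    (Z : Finset (Fin m → Fin L))
    (hZ : ∀ τ ∈ Z, ∀ l : Fin m, (l.val, τ) ∈ M.image charge → l ∈ A) :
    Z.card ≤ r * L ^ (m - 1) := by
  classical
  have main : ∀ j, j ≤ m → ∃ W ⊆ Z,
      Z.card ≤ W.card + (A.filter (fun i => i.val < j)).card * L ^ (m - 1) ∧
      ∀ τ ∈ W, ∃ (σ : Fin m → Fin L) (u : Vtx m L), (∀ i, σ i ≠ τ i → i ∈ A) ∧
        Relation.ReflTransGen (fun u v => Edge u v ∧ (u, v) ∉ M) (⟨0, by omega⟩, σ) u ∧
        u.1.val % 2 = 0 ∧ u.1.val ≤ 2 * j ∧
        (∀ i : Fin m, (u.1.val < 2 * i.val + 1 ∧ i.val < j → u.2 i < τ i) ∧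
          (¬ (u.1.val < 2 * i.val + 1 ∧ i.val < j) → u.2 i = τ i)) ∧
        ((∀ i : Fin m, i.val < j → i ∈ A) ∨ (u.1.val / 2 - 1, u.2) ∉ M.image charge) := by
    intro j
    induction j with
    | zero =>
      intro _
      refine ⟨Z, Finset.Subset.refl _, by omega, fun τ _ => ⟨τ, (⟨0, by omega⟩, τ), by simp,
        Relation.ReflTransGen.refl, by simp, by simp, by simp, Or.inl (by simp)⟩⟩
    | succ j ih =>
      intro hj
      obtain ⟨W, hWZ, hWc, hW⟩ := ih (by omega)
      let jj : Fin m := ⟨j, by omega⟩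
      by_cases hjA : jj ∈ A
      · refine ⟨W.filter (fun τ' => ∃ τ ∈ W, τ jj < τ' jj ∧ ∀ i, i ≠ jj → τ i = τ' i),
          (Finset.filter_subset _ _).trans hWZ, ?_, ?_⟩
        · have h1 := line_step W jj
          have h2 : (A.filter (fun i => i.val < j)).card + 1 ≤
              (A.filter (fun i => i.val < j + 1)).card := by
            apply Finset.card_lt_card
            refine ⟨fun i hi => ?_, fun h => ?_⟩
            · rw [Finset.mem_filter] at hi ⊢
              exact ⟨hi.1, by omega⟩
            · have := Finset.mem_filter.1 (h (Finset.mem_filter.2 ⟨hjA, by simp [jj]⟩))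
              simp [jj] at this
          nlinarith [Nat.mul_le_mul_right (L ^ (m - 1)) h2]
        · intro τ' hτ'
          obtain ⟨τ, hτ, h1, h2⟩ := (Finset.mem_filter.1 hτ').2
          obtain ⟨σ, u, k1, k2, k3, k4, k5, k6⟩ := hW τ hτ
          refine ⟨σ, u, fun i hi => ?_, k2, k3, by omega, fun i => ?_, ?_⟩
          · by_cases hij : i = jj
            · rw [hij]; exact hjA
            · exact k1 i (by rw [h2 i hij]; exact hi)
          · by_cases hij : i = jj
            · subst hij
              have := (k5 jj).2 (by simp [jj])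
              refine ⟨fun _ => this ▸ h1, fun h => absurd ⟨by simp only [jj]; omega, by simp [jj]⟩ h⟩
            · have hne : i.val ≠ j := fun h => hij (Fin.ext h)
              rw [← h2 i hij]
              exact ⟨fun h => (k5 i).1 ⟨h.1, by omega⟩, fun h => (k5 i).2 (by omega)⟩
          · rcases k6 with k6 | k6
            · left
              intro i hi
              by_cases hij : i = jj
              · rw [hij]; exact hjA
              · have hne : i.val ≠ j := fun h => hij (Fin.ext h)
                exact k6 i (by omega)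
            · exact Or.inr k6
      · refine ⟨W, hWZ, hWc.trans ?_, ?_⟩
        · gcongr
          omega
        · intro τ hτ
          obtain ⟨σ, u, k1, k2, k3, k4, k5, k6⟩ := hW τ hτ
          have hX : (j, τ) ∉ M.image charge := fun h => hjA (hZ τ (hWZ hτ) jj h)
          let v1 : Vtx m L := (⟨2 * j + 1, by omega⟩, τ)
          let v2 : Vtx m L := (⟨2 * j + 2, by omega⟩, τ)
          have e1 : Edge u v1 ∧ (u, v1) ∉ M := by
            refine ⟨⟨by simp only [v1]; omega, by omega, fun i => ?_⟩, fun h => hX ?_⟩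
            · simp only [v1]
              exact ⟨fun h => (k5 i).1 (by omega), fun h => (k5 i).2 (by omega)⟩
            · refine Finset.mem_image.2 ⟨_, h, ?_⟩
              simp only [charge, v1]
              rw [if_neg (by omega)]
              simp
          have e2 : Edge v1 v2 ∧ (v1, v2) ∉ M := by
            refine ⟨⟨by simp only [v1, v2]; omega, by simp [v1, v2], fun i => ?_⟩, fun h => hX ?_⟩
            · simp only [v1, v2]
              exact ⟨fun h => by omega, fun _ => trivial⟩
            · refine Finset.mem_image.2 ⟨_, h, ?_⟩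
              simp only [charge, v2]
              rw [if_neg (by omega)]
              simp only [Prod.mk.injEq, and_true]
              omega
          refine ⟨σ, v2, k1, (k2.tail e1).tail e2, by simp only [v2]; omega,
            by simp only [v2]; omega, fun i => ?_, Or.inr ?_⟩
          · simp only [v2]
            exact ⟨fun h => by omega, fun _ => trivial⟩
          · simp only [v2]
            rw [show (2 * j + 2) / 2 - 1 = j by omega]
            exact hX
  obtain ⟨W, -, hWc, hW⟩ := main m le_rfl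
  have hA' : (A.filter (fun i => i.val < m)).card ≤ r := hA ▸ Finset.card_filter_le _ _
  rcases W.eq_empty_or_nonempty with h | ⟨τ, hτ⟩
  · rw [h, Finset.card_empty, zero_add] at hWc
    exact hWc.trans (Nat.mul_le_mul_right _ hA')
  · exfalso
    obtain ⟨σ, u, k1, k2, k3, k4, k5, k6⟩ := hW τ hτ
    have hp : (univ.filter (fun j => σ j ≠ τ j)).card ≤ r := by
      rw [← hA]
      exact Finset.card_le_card fun i hi => k1 i (Finset.mem_filter.1 hi).2
    refine hM.2 ⟨(σ, τ), hp⟩ (k2.tail ⟨⟨by simp only [snk]; omega, by omega, fun i => ?_⟩,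
      fun h => ?_⟩)
    · have := i.2
      simp only [snk]
      exact ⟨fun h => (k5 i).1 (by omega), fun h => (k5 i).2 (by omega)⟩
    · rcases k6 with k6 | k6
      · have : (univ : Finset (Fin m)).card ≤ A.card :=
          Finset.card_le_card fun i _ => k6 i i.2
        simp at this
        omega
      · refine k6 (Finset.mem_image.2 ⟨_, h, ?_⟩)
        simp [charge, snk]

theorem lower (m L r : ℕ) (hr : r < m) (M : Finset (Vtx m L × Vtx m L))
    (hM : IsMulticut Edge (src (r := r)) snk M) :
    (r + 1) * L ^ m ≤ M.card + (r + 1) * (2 ^ m * (r * L ^ (m - 1))) := by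
  classical
  let X := M.image charge
  let Λ : (Fin m → Fin L) → Finset (Fin m) := fun τ => univ.filter (fun l => (l.val, τ) ∈ X)
  have h1 : ∑ τ, (Λ τ).card ≤ M.card := by
    refine le_trans ?_ (Finset.card_image_le (f := charge))
    rw [← Finset.card_sigma]
    apply Finset.card_le_card_of_injOn (fun p => (p.2.val, p.1))
    · intro p hp
      have := (Finset.mem_sigma.1 hp).2
      exact (Finset.mem_filter.1 this).2
    · rintro ⟨τ, l⟩ _ ⟨τ', l'⟩ _ h
      simp only [Prod.mk.injEq] at h
      obtain ⟨h1, rfl⟩ := h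
      rw [Fin.ext h1]
  have h2 : (univ.filter (fun τ => ¬ (Λ τ).card ≤ r)).card * (r + 1) ≤ ∑ τ, (Λ τ).card := by
    refine le_trans ?_ (Finset.sum_le_sum_of_subset
      (Finset.filter_subset (fun τ => ¬ (Λ τ).card ≤ r) _))
    rw [← smul_eq_mul]
    exact Finset.card_nsmul_le_sum _ _ _ (fun x hx => not_le.1 (Finset.mem_filter.1 hx).2)
  have h3 : (univ.filter (fun τ => (Λ τ).card ≤ r)).card ≤ 2 ^ m * (r * L ^ (m - 1)) := by
    have hsub : univ.filter (fun τ => (Λ τ).card ≤ r) ⊆
        (powersetCard r (univ : Finset (Fin m))).biUnion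
          (fun A => univ.filter (fun τ => Λ τ ⊆ A)) := by
      intro τ hτ
      obtain ⟨A, hA1, hA2, hA3⟩ := Finset.exists_subsuperset_card_eq (Finset.subset_univ (Λ τ))
        (Finset.mem_filter.1 hτ).2 (by simp; omega : r ≤ (univ : Finset (Fin m)).card)
      simp only [Finset.mem_biUnion, Finset.mem_powersetCard, Finset.mem_filter, Finset.mem_univ,
        true_and]
      exact ⟨A, ⟨hA2, hA3⟩, hA1⟩
    refine (Finset.card_le_card hsub).trans (Finset.card_biUnion_le.trans ?_)
    refine (Finset.sum_le_card_nsmul _ _ (r * L ^ (m - 1)) fun A hA => ?_).trans ?_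
    · refine stair m L r hr M hM A (Finset.mem_powersetCard.1 hA).2 _ fun τ hτ l hl => ?_
      exact (Finset.mem_filter.1 hτ).2 (Finset.mem_filter.2 ⟨Finset.mem_univ _, hl⟩)
    · rw [smul_eq_mul, Finset.card_powersetCard, Finset.card_univ, Fintype.card_fin]
      exact Nat.mul_le_mul_right _ (Nat.choose_le_two_pow _ _)
  have h4 := Finset.card_filter_add_card_filter_not (s := (univ : Finset (Fin m → Fin L)))
    (fun τ => (Λ τ).card ≤ r)
  simp only [Finset.card_univ, Fintype.card_pi, Finset.prod_const, Fintype.card_fin] at h4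
  rw [← h4]
  nlinarith [Nat.mul_le_mul_left (r + 1) h3]

theorem main (C : ℕ) : ∃ (V ι : Type) (_ : Fintype V) (_ : Fintype ι) (E : V → V → Prop)
    (s t : ι → V), (∀ v, ¬ Relation.TransGen E v v) ∧ (∀ i, s i ≠ t i) ∧
    ∃ B : ℝ, (∀ ρ ∈ rates E s t, ρ ≤ B) ∧
      ∀ M : Finset (V × V), IsMulticut E s t M → C * B < M.card := by
  obtain ⟨r, hr⟩ : ∃ r, r = 4 * C + 1 := ⟨_, rfl⟩
  obtain ⟨m, hm⟩ : ∃ m, m = 2 * r := ⟨_, rfl⟩
  obtain ⟨L, hL⟩ : ∃ L, L = 2 * (2 ^ m * r) := ⟨_, rfl⟩
  refine ⟨Vtx m L, Pairs m L r, inferInstance, inferInstance, Edge, src, snk, ?_, ?_,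
    2 * (L : ℝ) ^ m, ?_, ?_⟩
  · have : ∀ u v : Vtx m L, Relation.TransGen Edge u v → u.1.val < v.1.val := by
      intro u v h
      induction h with
      | single h => exact h.1
      | tail _ h ih => exact ih.trans h.1
    exact fun v h => lt_irrefl _ (this v v h)
  · intro i h
    have := congrArg (fun v : Vtx m L => v.1.val) h
    simp [src, snk] at this
  · rintro ρ ⟨α, _, _, b, a, hb, hs, rfl⟩
    have h1 := upper m L r α b a hs
    have h0 : ∀ x : ℕ, m * x = r * (2 * x) := fun x => by rw [hm]; ring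
    rw [show m - r = r by omega, h0] at h1
    have h2 := Nat.le_of_mul_le_mul_left h1 (by omega)
    have hb' : (0 : ℝ) < b := by exact_mod_cast hb
    rw [div_le_iff₀ hb']
    have h3 : ((∑ i, a i : ℕ) : ℝ) ≤ ((2 * (b * L ^ m) : ℕ) : ℝ) := by exact_mod_cast h2
    push_cast at h3
    linarith
  · intro M hM
    have h1 := lower m L r (by omega) M hM
    have h2 : L ^ m = 2 * (2 ^ m * (r * L ^ (m - 1))) := by
      calc L ^ m = L * L ^ (m - 1) := by rw [← pow_succ']; congr 1; omega
        _ = 2 * (2 ^ m * r) * L ^ (m - 1) := by rw [← hL]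
        _ = _ := by ring
    have h3 : 0 < L ^ m := by
      apply Nat.pow_pos
      rw [hL]
      have : 0 < r := by omega
      positivity
    have h4 : C * (2 * L ^ m) < M.card := by
      set N := 2 ^ m * (r * L ^ (m - 1))
      rw [h2] at h1 h3 ⊢
      rw [hr] at h1
      nlinarith
    exact_mod_cast h4

end Pool.Agent.H54.NetCode
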