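import Mathlib

set_option autoImplicit false

namespace Pool.Agent.H54.Nim

/-- the rules that define nim multiplication (nim sum is exclusive or) -/
structure Rules (mul : ℕ → ℕ → ℕ) : Prop where
  ferm : ∀ a n : ℕ, n < 2 ^ 2 ^ a → mul (2 ^ 2 ^ a) n = 2 ^ 2 ^ a * n
  sq : ∀ a : ℕ, mul (2 ^ 2 ^ a) (2 ^ 2 ^ a) = 3 * 2 ^ 2 ^ a / 2
  one : ∀ n : ℕ, mul 1 n = n
  comm : ∀ m n : ℕ, mul m n = mul n m
  assoc : ∀ m n k : ℕ, mul (mul m n) k = mul m (mul n k)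
  distrib : ∀ m n k : ℕ, mul m (n ^^^ k) = mul m n ^^^ mul m k

end Pool.Agent.H54.Nim
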