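import Mathlib
import Pool.Agent.H54.NimDef

set_option autoImplicit false

namespace Pool.Agent.H54.Nim

lemma add_eq_xor (r x y : ℕ) (hy : y < 2 ^ r) : 2 ^ r * x + y = (2 ^ r * x) ^^^ y := by
  apply Nat.eq_of_testBit_eq
  intro i
  rw [Nat.testBit_two_pow_mul_add _ hy, Nat.testBit_xor, Nat.testBit_two_pow_mul]
  split_ifs with h
  · simp [show ¬ i ≥ r by omega]
  · have : y.testBit i = false :=
      Nat.testBit_lt_two_pow (lt_of_lt_of_le hy (Nat.pow_le_pow_right (by norm_num) (by omega)))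
    simp [this, show i ≥ r by omega]

lemma H_succ (a : ℕ) : 2 ^ 2 ^ (a + 1) = 2 ^ 2 ^ a * 2 ^ 2 ^ a := by
  rw [← pow_add]; congr 1; ring

lemma H_even (a : ℕ) : 2 ^ 2 ^ a = 2 * (2 ^ 2 ^ a / 2) := by
  have : 2 ∣ 2 ^ 2 ^ a := dvd_pow_self 2 (by positivity)
  omega

lemma P_lt (a : ℕ) : 2 ^ 2 ^ a / 2 < 2 ^ 2 ^ a := Nat.div_lt_self (by positivity) (by norm_num)

lemma P_succ (a : ℕ) : 2 ^ 2 ^ (a + 1) / 2 = 2 ^ 2 ^ a * (2 ^ 2 ^ a / 2) + 0 := by
  rw [H_succ, add_zero, Nat.mul_div_assoc _ (dvd_pow_self 2 (by positivity))]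

lemma split (a x : ℕ) (hx : x < 2 ^ 2 ^ (a + 1)) :
    ∃ x1 x0, x1 < 2 ^ 2 ^ a ∧ x0 < 2 ^ 2 ^ a ∧ x = 2 ^ 2 ^ a * x1 + x0 := by
  refine ⟨x / 2 ^ 2 ^ a, x % 2 ^ 2 ^ a, ?_, Nat.mod_lt _ (by positivity),
    (Nat.div_add_mod _ _).symm⟩
  rw [H_succ] at hx
  exact Nat.div_lt_of_lt_mul hx

lemma join_lt (a x1 x0 : ℕ) (h1 : x1 < 2 ^ 2 ^ a) (h0 : x0 < 2 ^ 2 ^ a) :
    2 ^ 2 ^ a * x1 + x0 < 2 ^ 2 ^ (a + 1) := by
  rw [H_succ]; nlinarith

section
variable {mul : ℕ → ℕ → ℕ} (h : Rules mul)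
include h

lemma Rules.zero (m : ℕ) : mul m 0 = 0 := by
  have := h.distrib m 0 0
  rw [Nat.xor_self, Nat.xor_self] at this
  exact this

lemma Rules.zero' (m : ℕ) : mul 0 m = 0 := by rw [h.comm, h.zero]

lemma Rules.distrib' (m n k : ℕ) : mul (n ^^^ k) m = mul n m ^^^ mul k m := by
  rw [h.comm, h.distrib, h.comm m n, h.comm m k]

lemma Rules.expand0 (a x1 x0 y1 y0 : ℕ) (hx1 : x1 < 2 ^ 2 ^ a) (hx0 : x0 < 2 ^ 2 ^ a)
    (hy1 : y1 < 2 ^ 2 ^ a) (hy0 : y0 < 2 ^ 2 ^ a) :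
    mul (2 ^ 2 ^ a * x1 + x0) (2 ^ 2 ^ a * y1 + y0) =
      mul (2 ^ 2 ^ a) (mul x1 y1 ^^^ mul x1 y0 ^^^ mul x0 y1) ^^^
        (mul x0 y0 ^^^ mul (mul x1 y1) (2 ^ 2 ^ a / 2)) := by
  rw [add_eq_xor _ _ _ hx0, add_eq_xor _ _ _ hy0, ← h.ferm a x1 hx1, ← h.ferm a y1 hy1]
  have hsq : mul (2 ^ 2 ^ a) (2 ^ 2 ^ a) = 2 ^ 2 ^ a ^^^ (2 ^ 2 ^ a / 2) := by
    rw [h.sq, ← mul_one (2 ^ 2 ^ a), ← add_eq_xor _ _ _ (by rw [mul_one]; exact P_lt a)]
    have := H_even a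
    omega
  generalize 2 ^ 2 ^ a / 2 = P at *
  generalize 2 ^ 2 ^ a = H at *
  have : Std.Associative mul := ⟨h.assoc⟩
  have : Std.Commutative mul := ⟨h.comm⟩
  have e : mul (mul H x1) (mul H y1) = mul (mul H H) (mul x1 y1) := by ac_rfl
  simp only [h.distrib, h.distrib', e, hsq]
  ac_rfl

lemma Rules.closed (a : ℕ) : ∀ x y, x < 2 ^ 2 ^ a → y < 2 ^ 2 ^ a → mul x y < 2 ^ 2 ^ a := by
  induction a with
  | zero =>
    intro x y hx hy
    have : x = 0 ∨ x = 1 := by norm_num at hx; omega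
    rcases this with rfl | rfl
    · rw [h.zero']; norm_num
    · rwa [h.one]
  | succ a ih =>
    intro x y hx hy
    obtain ⟨x1, x0, hx1, hx0, rfl⟩ := split a x hx
    obtain ⟨y1, y0, hy1, hy0, rfl⟩ := split a y hy
    have h1 : mul x1 y1 ^^^ mul x1 y0 ^^^ mul x0 y1 < 2 ^ 2 ^ a :=
      Nat.xor_lt_two_pow (Nat.xor_lt_two_pow (ih _ _ hx1 hy1) (ih _ _ hx1 hy0)) (ih _ _ hx0 hy1)
    have h0 : mul x0 y0 ^^^ mul (mul x1 y1) (2 ^ 2 ^ a / 2) < 2 ^ 2 ^ a :=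
      Nat.xor_lt_two_pow (ih _ _ hx0 hy0) (ih _ _ (ih _ _ hx1 hy1) (P_lt a))
    rw [h.expand0 a _ _ _ _ hx1 hx0 hy1 hy0, h.ferm a _ h1, ← add_eq_xor _ _ _ h0]
    exact join_lt a _ _ h1 h0

lemma Rules.expand (a x1 x0 y1 y0 : ℕ) (hx1 : x1 < 2 ^ 2 ^ a) (hx0 : x0 < 2 ^ 2 ^ a)
    (hy1 : y1 < 2 ^ 2 ^ a) (hy0 : y0 < 2 ^ 2 ^ a) :
    mul (2 ^ 2 ^ a * x1 + x0) (2 ^ 2 ^ a * y1 + y0) =
      2 ^ 2 ^ a * (mul x1 y1 ^^^ mul x1 y0 ^^^ mul x0 y1) +
        (mul x0 y0 ^^^ mul (mul x1 y1) (2 ^ 2 ^ a / 2)) := by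
  have ih := h.closed a
  have h1 : mul x1 y1 ^^^ mul x1 y0 ^^^ mul x0 y1 < 2 ^ 2 ^ a :=
    Nat.xor_lt_two_pow (Nat.xor_lt_two_pow (ih _ _ hx1 hy1) (ih _ _ hx1 hy0)) (ih _ _ hx0 hy1)
  have h0 : mul x0 y0 ^^^ mul (mul x1 y1) (2 ^ 2 ^ a / 2) < 2 ^ 2 ^ a :=
    Nat.xor_lt_two_pow (ih _ _ hx0 hy0) (ih _ _ (ih _ _ hx1 hy1) (P_lt a))
  rw [h.expand0 a _ _ _ _ hx1 hx0 hy1 hy0, h.ferm a _ h1, ← add_eq_xor _ _ _ h0]

lemma Rules.sq_inj (a : ℕ) : ∀ x, x < 2 ^ 2 ^ a → mul x x = 0 → x = 0 := by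
  induction a with
  | zero =>
    intro x hx h0
    have : x = 0 ∨ x = 1 := by norm_num at hx; omega
    rcases this with rfl | rfl
    · rfl
    · rw [h.one] at h0; exact h0
  | succ a ih =>
    intro x hx h0
    obtain ⟨x1, x0, hx1, hx0, rfl⟩ := split a x hx
    rw [h.expand a _ _ _ _ hx1 hx0 hx1 hx0, h.comm x0 x1, Nat.xor_assoc, Nat.xor_self,
      Nat.xor_zero] at h0
    have hp : 0 < 2 ^ 2 ^ a := by positivity
    have h1 : x1 = 0 := ih _ hx1 (by nlinarith)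
    subst h1
    simp only [h.zero', Nat.xor_zero, mul_zero, zero_add] at h0
    simp [ih _ hx0 h0]

lemma Rules.P_inj (a : ℕ) : ∀ x, x < 2 ^ 2 ^ a → mul x (2 ^ 2 ^ a / 2) = 0 → x = 0 := by
  induction a with
  | zero =>
    intro x _ h0
    norm_num at h0
    rw [h.comm, h.one] at h0
    exact h0
  | succ a ih =>
    intro x hx h0
    obtain ⟨x1, x0, hx1, hx0, rfl⟩ := split a x hx
    have hp : 0 < 2 ^ 2 ^ a := by positivity
    rw [P_succ, h.expand a _ _ _ _ hx1 hx0 (P_lt a) hp] at h0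
    simp only [h.zero, Nat.xor_zero, Nat.zero_xor] at h0
    have h1 : x1 = 0 := ih _ hx1 (ih _ (h.closed a _ _ hx1 (P_lt a)) (by omega))
    subst h1
    simp only [h.zero', Nat.zero_xor, add_zero] at h0
    simp [ih _ hx0 (by nlinarith)]

lemma Rules.g_add (P x y : ℕ) :
    mul (mul (x ^^^ y) (x ^^^ y)) P = mul (mul x x) P ^^^ mul (mul y y) P := by
  have : mul (x ^^^ y) (x ^^^ y) = mul x x ^^^ mul y y := by
    rw [h.distrib, h.distrib', h.distrib', h.comm y x, Nat.xor_assoc,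
      ← Nat.xor_assoc (mul x y), Nat.xor_self, Nat.zero_xor]
  rw [this, h.distrib']

lemma Rules.exists_odd (a : ℕ) :
    ∃ j < 2 ^ a, mul (mul (2 ^ j) (2 ^ j)) (2 ^ 2 ^ a / 2) % 2 = 1 := by
  have hp : 0 < 2 ^ 2 ^ a := by positivity
  let g : Fin (2 ^ 2 ^ a) → Fin (2 ^ 2 ^ a) := fun u =>
    ⟨mul (mul u u) (2 ^ 2 ^ a / 2), h.closed a _ _ (h.closed a _ _ u.2 u.2) (P_lt a)⟩
  have hinj : Function.Injective g := by
    intro u v huv
    have h1 : mul (mul u u) (2 ^ 2 ^ a / 2) = mul (mul v v) (2 ^ 2 ^ a / 2) :=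
      congrArg Fin.val huv
    have h2 : (u : ℕ) ^^^ v < 2 ^ 2 ^ a := Nat.xor_lt_two_pow u.2 v.2
    have h3 := h.g_add (2 ^ 2 ^ a / 2) u v
    rw [h1, Nat.xor_self] at h3
    have h4 := h.sq_inj a _ h2 (h.P_inj a _ (h.closed a _ _ h2 h2) h3)
    exact Fin.ext (Nat.eq_of_xor_eq_zero h4)
  have h1 : 1 < 2 ^ 2 ^ a := Nat.one_lt_two_pow (by positivity)
  obtain ⟨u, hu⟩ := Finite.surjective_of_injective hinj ⟨1, h1⟩
  have hu' : mul (mul u u) (2 ^ 2 ^ a / 2) = 1 := congrArg Fin.val hu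
  by_contra hc
  push Not at hc
  have key : ∀ r ≤ 2 ^ a, ∀ v < 2 ^ r, mul (mul v v) (2 ^ 2 ^ a / 2) % 2 = 0 := by
    intro r
    induction r with
    | zero =>
      intro _ v hv
      have : v = 0 := by omega
      rw [this, h.zero, h.zero']
    | succ r ih =>
      intro hr v hv
      rcases lt_or_ge v (2 ^ r) with h2 | h2
      · exact ih (by omega) v h2
      · obtain ⟨w, rfl⟩ := Nat.exists_eq_add_of_le h2
        have hw : w < 2 ^ r := by rw [pow_succ] at hv; omega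
        have h3 := add_eq_xor r 1 w hw
        rw [mul_one] at h3
        rw [h3, h.g_add]
        have h4 := ih (by omega) w hw
        have h5 := hc r (by omega)
        have h6 := @Nat.xor_mod_two_pow (mul (mul (2 ^ r) (2 ^ r)) (2 ^ 2 ^ a / 2))
          (mul (mul w w) (2 ^ 2 ^ a / 2)) 1
        rw [pow_one] at h6
        rw [h6, h4, Nat.xor_zero]
        omega
  have := key _ le_rfl u u.2
  omega

lemma Rules.t_eq (a j : ℕ) (hj : j < 2 ^ a) :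
    mul (2 ^ (2 ^ a + j)) (2 ^ (2 ^ a + j)) % 2
      = mul (mul (2 ^ j) (2 ^ j)) (2 ^ 2 ^ a / 2) % 2 := by
  have hp : 0 < 2 ^ 2 ^ a := by positivity
  have h1 : 2 ^ j < 2 ^ 2 ^ a := Nat.pow_lt_pow_right (by norm_num) hj
  rw [pow_add, ← add_zero (2 ^ 2 ^ a * 2 ^ j), h.expand a _ _ _ _ h1 hp h1 hp]
  simp only [h.zero, h.zero', Nat.xor_zero, Nat.zero_xor]
  rw [H_even a, mul_assoc, Nat.mul_add_mod, ← H_even a]

lemma Rules.t_zero (b j : ℕ) (hj : j < 2 ^ b) :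
    mul (2 ^ (2 ^ (b + 1) + j)) (2 ^ (2 ^ (b + 1) + j)) % 2 = 0 := by
  have hp : 0 < 2 ^ 2 ^ b := by positivity
  have h1 : 2 ^ j < 2 ^ 2 ^ b := Nat.pow_lt_pow_right (by norm_num) hj
  have h2 := h.closed b _ _ h1 h1
  rw [h.t_eq _ _ (by rw [pow_succ]; omega), P_succ]
  have h3 := h.expand b 0 (mul (2 ^ j) (2 ^ j)) _ 0 hp h2 (P_lt b) hp
  rw [mul_zero, zero_add] at h3
  rw [h3]
  simp only [h.zero, h.zero', Nat.xor_zero, Nat.zero_xor, add_zero]
  rw [H_even b, mul_assoc, Nat.mul_mod_right]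

lemma Rules.not_periodic (e p : ℕ) (hp : 0 < p)
    (hper : ∀ i, mul (2 ^ (e + p + i)) (2 ^ (e + p + i)) % 2
      = mul (2 ^ (e + i)) (2 ^ (e + i)) % 2) : False := by
  have hb : e + p < 2 ^ (e + p) := Nat.lt_two_pow_self
  set b := e + p with hbd
  have hb2 : 2 ^ (b + 1) = 2 ^ b + 2 ^ b := by ring
  have key : ∀ j, mul (2 ^ (2 ^ (b + 1) + j)) (2 ^ (2 ^ (b + 1) + j)) % 2 = 0 := by
    intro j
    induction j using Nat.strong_induction_on with
    | _ j ih =>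
      rcases lt_or_ge j (2 ^ b) with h1 | h1
      · exact h.t_zero b j h1
      · have h2 := hper (2 ^ (b + 1) + j - b)
        rw [show b + (2 ^ (b + 1) + j - b) = 2 ^ (b + 1) + j by omega,
          show e + (2 ^ (b + 1) + j - b) = 2 ^ (b + 1) + (j - p) by omega] at h2
        rw [h2]
        exact ih _ (by omega)
  obtain ⟨j, hj, h1⟩ := h.exists_odd (b + 1)
  rw [← h.t_eq _ _ hj, key] at h1
  omega

lemma Rules.not_fg {ι : Type} (S : Submodule ℤ (ι → ℤ)) (hS : S.FG) (f : ℕ → ι → ℤ)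
    (hf : ∀ e, f e ∈ S) (x : ℕ → ι)
    (hx : ∀ e i, f e (x i) = mul (2 ^ (e + i)) (2 ^ (e + i))) : False := by
  obtain ⟨n, v, hv⟩ := Submodule.fg_iff_exists_fin_generating_family.mp hS
  have h1 : ∀ e, ∃ c : Fin n → ℤ, ∑ k, c k • v k = f e := by
    intro e
    exact (Submodule.mem_span_range_iff_exists_fun ℤ).mp (hv ▸ hf e)
  choose c hc using h1
  have key : ∀ e e', (fun k => (c e k : ZMod 2)) = (fun k => (c e' k : ZMod 2)) → ∀ i,
      mul (2 ^ (e + i)) (2 ^ (e + i)) % 2 = mul (2 ^ (e' + i)) (2 ^ (e' + i)) % 2 := by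
    intro e e' hee i
    apply (ZMod.natCast_eq_natCast_iff' _ _ 2).mp
    have h2 : ∀ e, ((mul (2 ^ (e + i)) (2 ^ (e + i)) : ℕ) : ZMod 2)
        = ∑ k, (c e k : ZMod 2) * (v k (x i) : ZMod 2) := by
      intro e
      have h3 := congrFun (hc e) (x i)
      rw [hx, Finset.sum_apply] at h3
      have h4 := congrArg (fun z : ℤ => (z : ZMod 2)) h3
      simp only [Pi.smul_apply, smul_eq_mul, Int.cast_sum, Int.cast_mul, Int.cast_natCast] at h4
      exact h4.symm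
    rw [h2, h2]
    exact Finset.sum_congr rfl (fun k _ => by rw [congrFun hee k])
  obtain ⟨e, e', hne, hee⟩ :=
    Finite.exists_ne_map_eq_of_infinite (fun e : ℕ => fun k => (c e k : ZMod 2))
  rcases lt_or_gt_of_ne hne with h2 | h2
  · obtain ⟨p, rfl⟩ := Nat.exists_eq_add_of_le h2.le
    exact h.not_periodic e p (by omega) (fun i => (key _ _ hee i).symm)
  · obtain ⟨p, rfl⟩ := Nat.exists_eq_add_of_le h2.le
    exact h.not_periodic e' p (by omega) (fun i => key _ _ hee i)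

end

/-- multiplication at a finite level of the tower -/
def mulL : ℕ → ℕ → ℕ → ℕ
  | 0, m, n => (m % 2) * (n % 2)
  | a + 1, m, n =>
    2 ^ 2 ^ a * (mulL a (m / 2 ^ 2 ^ a) (n / 2 ^ 2 ^ a) ^^^ mulL a (m / 2 ^ 2 ^ a) n
        ^^^ mulL a m (n / 2 ^ 2 ^ a))
      + (mulL a m n ^^^ mulL a (mulL a (m / 2 ^ 2 ^ a) (n / 2 ^ 2 ^ a)) (2 ^ 2 ^ a / 2))

lemma mulL_lt (a : ℕ) : ∀ m n, mulL a m n < 2 ^ 2 ^ a := by
  induction a with
  | zero =>
    intro m n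
    simp only [mulL]
    rcases Nat.mod_two_eq_zero_or_one m with h | h <;>
      rcases Nat.mod_two_eq_zero_or_one n with h' | h' <;> simp [h, h']
  | succ a ih =>
    intro m n
    simp only [mulL]
    exact join_lt a _ _ (Nat.xor_lt_two_pow (Nat.xor_lt_two_pow (ih _ _) (ih _ _)) (ih _ _))
      (Nat.xor_lt_two_pow (ih _ _) (ih _ _))

lemma mulL_comm (a : ℕ) : ∀ m n, mulL a m n = mulL a n m := by
  induction a with
  | zero => intro m n; simp only [mulL]; ring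
  | succ a ih =>
    intro m n
    simp only [mulL]
    rw [ih (n / 2 ^ 2 ^ a) (m / 2 ^ 2 ^ a), ih (n / 2 ^ 2 ^ a) m, ih n (m / 2 ^ 2 ^ a), ih n m]
    congr 2
    ac_rfl

lemma join_xor (r x y x' y' : ℕ) (hy : y < 2 ^ r) (hy' : y' < 2 ^ r) :
    (2 ^ r * x + y) ^^^ (2 ^ r * x' + y') = 2 ^ r * (x ^^^ x') + (y ^^^ y') := by
  apply Nat.eq_of_testBit_eq
  intro i
  rw [Nat.testBit_xor, Nat.testBit_two_pow_mul_add _ hy, Nat.testBit_two_pow_mul_add _ hy',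
    Nat.testBit_two_pow_mul_add _ (Nat.xor_lt_two_pow hy hy')]
  split_ifs <;> simp

lemma mulL_distrib (a : ℕ) : ∀ m n k, mulL a m (n ^^^ k) = mulL a m n ^^^ mulL a m k := by
  induction a with
  | zero =>
    intro m n k
    simp only [mulL]
    have h6 := @Nat.xor_mod_two_pow n k 1
    rw [pow_one] at h6
    rw [h6]
    rcases Nat.mod_two_eq_zero_or_one m with h | h <;> simp [h]
  | succ a ih =>
    intro m n k
    have ih' : ∀ m n k, mulL a (n ^^^ k) m = mulL a n m ^^^ mulL a k m := by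
      intro m n k
      rw [mulL_comm, ih, mulL_comm a m n, mulL_comm a m k]
    simp only [mulL]
    rw [join_xor _ _ _ _ _ (Nat.xor_lt_two_pow (mulL_lt _ _ _) (mulL_lt _ _ _))
      (Nat.xor_lt_two_pow (mulL_lt _ _ _) (mulL_lt _ _ _))]
    simp only [Nat.xor_div_two_pow, ih, ih']
    congr 1
    · congr 1; ac_rfl
    · ac_rfl

lemma mulL_zero (a m : ℕ) : mulL a m 0 = 0 := by
  have := mulL_distrib a m 0 0
  rw [Nat.xor_self, Nat.xor_self] at this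
  exact this

lemma mulL_zero' (a m : ℕ) : mulL a 0 m = 0 := by rw [mulL_comm, mulL_zero]

lemma mulL_hi (a : ℕ) : ∀ b, a ≤ b → ∀ m x, mulL a m (2 ^ 2 ^ b * x) = 0 := by
  induction a with
  | zero =>
    intro b _ m x
    simp only [mulL]
    rw [H_even b, mul_assoc, Nat.mul_mod_right, mul_zero]
  | succ a ih =>
    intro b hb m x
    have h1 : ∃ y, 2 ^ 2 ^ b * x / 2 ^ 2 ^ a = 2 ^ 2 ^ a * y := by
      have h2 : 2 ^ (a + 1) ≤ 2 ^ b := Nat.pow_le_pow_right (by norm_num) hb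
      obtain ⟨c, hc⟩ := Nat.exists_eq_add_of_le h2
      refine ⟨2 ^ c * x, ?_⟩
      rw [hc, pow_add, H_succ, mul_assoc, mul_assoc, Nat.mul_div_cancel_left _ (by positivity)]
    obtain ⟨y, hy⟩ := h1
    simp only [mulL]
    rw [hy]
    simp only [ih a le_rfl, ih b (by omega), mulL_zero', Nat.xor_self, mul_zero, add_zero]

lemma mulL_join (a m x y : ℕ) (hy : y < 2 ^ 2 ^ a) :
    mulL a m (2 ^ 2 ^ a * x + y) = mulL a m y := by
  rw [add_eq_xor _ _ _ hy, mulL_distrib, mulL_hi a a le_rfl, Nat.zero_xor]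

lemma join_div (a x y : ℕ) (hy : y < 2 ^ 2 ^ a) : (2 ^ 2 ^ a * x + y) / 2 ^ 2 ^ a = x := by
  rw [Nat.mul_add_div (by positivity), Nat.div_eq_of_lt hy, add_zero]

lemma mulL_assoc (a : ℕ) : ∀ m n k, mulL a (mulL a m n) k = mulL a m (mulL a n k) := by
  induction a with
  | zero => intro m n k; simp only [mulL, Nat.mul_mod_mod, Nat.mod_mul_mod]
            rcases Nat.mod_two_eq_zero_or_one m with h | h <;>
              rcases Nat.mod_two_eq_zero_or_one n with h' | h' <;>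
                rcases Nat.mod_two_eq_zero_or_one k with h'' | h'' <;> simp [h, h', h'', Nat.mul_mod]
  | succ a ih =>
    intro m n k
    have d := mulL_distrib a
    have d' : ∀ m n k, mulL a (n ^^^ k) m = mulL a n m ^^^ mulL a k m := by
      intro m n k
      rw [mulL_comm, d, mulL_comm a m n, mulL_comm a m k]
    have j' : ∀ m x y, y < 2 ^ 2 ^ a → mulL a (2 ^ 2 ^ a * x + y) m = mulL a y m := by
      intro m x y hy
      rw [mulL_comm, mulL_join _ _ _ _ hy, mulL_comm]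
    have lt : ∀ p q r s, mulL a p q ^^^ mulL a r s < 2 ^ 2 ^ a :=
      fun p q r s => Nat.xor_lt_two_pow (mulL_lt _ _ _) (mulL_lt _ _ _)
    simp only [mulL]
    simp only [join_div _ _ _ (lt _ _ _ _), mulL_join _ _ _ _ (lt _ _ _ _), j' _ _ _ (lt _ _ _ _)]
    have : Std.Associative (mulL a) := ⟨ih⟩
    have : Std.Commutative (mulL a) := ⟨mulL_comm a⟩
    simp only [d, d']
    congr 1
    · congr 1; ac_rfl
    · ac_rfl

lemma mulL_one (a : ℕ) : ∀ n, mulL a 1 n = n % 2 ^ 2 ^ a := by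
  induction a with
  | zero => intro n; simp [mulL]
  | succ a ih =>
    intro n
    have h1 : 1 / 2 ^ 2 ^ a = 0 := Nat.div_eq_of_lt (Nat.one_lt_two_pow (by positivity))
    simp only [mulL, h1, mulL_zero', Nat.xor_self, Nat.zero_xor, Nat.xor_zero, ih]
    rw [H_succ, Nat.mod_mul, add_comm]

lemma mulL_compat (a m n : ℕ) (hm : m < 2 ^ 2 ^ a) (hn : n < 2 ^ 2 ^ a) (b : ℕ) (hb : a ≤ b) :
    mulL b m n = mulL a m n := by
  induction b, hb using Nat.le_induction with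
  | base => rfl
  | succ b hb ih =>
    have h1 : 2 ^ 2 ^ a ≤ 2 ^ 2 ^ b :=
      Nat.pow_le_pow_right (by norm_num) (Nat.pow_le_pow_right (by norm_num) hb)
    simp only [mulL, Nat.div_eq_of_lt (lt_of_lt_of_le hm h1),
      Nat.div_eq_of_lt (lt_of_lt_of_le hn h1), mulL_zero, mulL_zero', Nat.xor_self, mul_zero,
      zero_add, Nat.xor_zero, ih]

lemma lt_H (m a : ℕ) (h : m ≤ a) : m < 2 ^ 2 ^ a :=
  lt_of_le_of_lt h (Nat.lt_two_pow_self.trans Nat.lt_two_pow_self)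

lemma nim_eq (m n a : ℕ) (hm : m < 2 ^ 2 ^ a) (hn : n < 2 ^ 2 ^ a) :
    mulL (m + n) m n = mulL a m n := by
  rw [← mulL_compat (m + n) m n (lt_H _ _ (by omega)) (lt_H _ _ (by omega)) (m + n + a) (by omega),
    mulL_compat a m n hm hn (m + n + a) (by omega)]

lemma exists_rules : ∃ mul, Rules mul := by
  refine ⟨fun m n => mulL (m + n) m n, ?_, ?_, ?_, ?_, ?_, ?_⟩
  · intro a n hn
    have hp : 0 < 2 ^ 2 ^ a := by positivity
    have h1 : 1 < 2 ^ 2 ^ a := Nat.one_lt_two_pow (by positivity)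
    have h2 := mulL_hi a a le_rfl n 1
    rw [mul_one, mulL_comm] at h2
    rw [nim_eq _ _ (a + 1) (by rw [H_succ]; nlinarith) (by rw [H_succ]; nlinarith)]
    simp only [mulL, Nat.div_self hp, Nat.div_eq_of_lt hn, mulL_zero, mulL_zero', mulL_one, h2,
      Nat.zero_xor, Nat.xor_zero, Nat.mod_eq_of_lt hn, add_zero, Nat.zero_mod]
  · intro a
    have hp : 0 < 2 ^ 2 ^ a := by positivity
    have h1 : 1 < 2 ^ 2 ^ a := Nat.one_lt_two_pow (by positivity)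
    have h2 : ∀ m, mulL a (2 ^ 2 ^ a) m = 0 := by
      intro m
      have h2 := mulL_hi a a le_rfl m 1
      rwa [mul_one, mulL_comm] at h2
    rw [nim_eq _ _ (a + 1) (by rw [H_succ]; nlinarith) (by rw [H_succ]; nlinarith)]
    simp only [mulL, Nat.div_self hp, mulL_one, h2, Nat.mod_self, Nat.mod_eq_of_lt h1,
      Nat.zero_xor, Nat.xor_zero, Nat.mod_eq_of_lt (P_lt a)]
    have := H_even a
    omega
  · intro n
    rw [mulL_one, Nat.mod_eq_of_lt (lt_H _ _ (by omega))]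
  · intro m n
    rw [mulL_comm, add_comm]
  · intro m n k
    have hm := lt_H m (m + n + k) (by omega)
    have hn := lt_H n (m + n + k) (by omega)
    have hk := lt_H k (m + n + k) (by omega)
    rw [nim_eq m n _ hm hn, nim_eq n k _ hn hk, nim_eq _ k _ (mulL_lt _ _ _) hk,
      nim_eq m _ _ hm (mulL_lt _ _ _), mulL_assoc]
  · intro m n k
    have hm := lt_H m (m + n + k) (by omega)
    have hn := lt_H n (m + n + k) (by omega)
    have hk := lt_H k (m + n + k) (by omega)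
    rw [nim_eq m n _ hm hn, nim_eq m k _ hm hk, nim_eq m _ _ hm (Nat.xor_lt_two_pow hn hk),
      mulL_distrib]

end Pool.Agent.H54.Nim
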