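import Mathlib

namespace Pool.Agent.H54.PPC

/-- `B` pp-constructs `A`. -/
def PpC (kB : ℕ) (B : Digraph (Fin kB)) (kA : ℕ) (A : Digraph (Fin kA)) : Prop :=
  ∃ (n m : ℕ)
    (Es Qs : Set (((Fin 2 × Fin n) ⊕ Fin m) × ((Fin 2 × Fin n) ⊕ Fin m)))
    (E : (Fin n → Fin kB) → (Fin n → Fin kB) → Prop),
    0 < n ∧
    (∀ x y : Fin n → Fin kB, E x y ↔ ∃ s : Fin m → Fin kB,
        (∀ p ∈ Es,
          B.Adj (Sum.elim (fun q : Fin 2 × Fin n => (![x, y] q.1) q.2) s p.1)
                (Sum.elim (fun q : Fin 2 × Fin n => (![x, y] q.1) q.2) s p.2)) ∧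
        (∀ p ∈ Qs,
          Sum.elim (fun q : Fin 2 × Fin n => (![x, y] q.1) q.2) s p.1 =
            Sum.elim (fun q : Fin 2 × Fin n => (![x, y] q.1) q.2) s p.2)) ∧
    (∃ f : Fin kA → (Fin n → Fin kB), ∀ a b : Fin kA, A.Adj a b → E (f a) (f b)) ∧
    (∃ g : (Fin n → Fin kB) → Fin kA,
        ∀ x y : Fin n → Fin kB, E x y → A.Adj (g x) (g y))

def IsPol {V m : Type} (E : V → V → Prop) (h : (m → V) → V) : Prop :=
  ∀ x y : m → V, (∀ l, E (x l) (y l)) → E (h x) (h y)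

def TS {V : Type} (E : V → V → Prop) (n : ℕ) : Prop :=
  ∃ h : (Fin n → V) → V, IsPol E h ∧ ∀ x y, Set.range x = Set.range y → h x = h y

theorem range_comp_eq {V W m : Type} {x y : m → V} (h : Set.range x = Set.range y) (φ : V → W) :
    Set.range (fun l => φ (x l)) = Set.range (fun l => φ (y l)) := by
  have h1 := Set.range_comp φ x
  have h2 := Set.range_comp φ y
  rw [h] at h1
  exact h1.trans h2.symm

theorem TS.of_hom {V W : Type} {E : V → V → Prop} {F : W → W → Prop} {n : ℕ} (h : TS E n)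
    (f : W → V) (g : V → W) (hf : ∀ a b, F a b → E (f a) (f b))
    (hg : ∀ a b, E a b → F (g a) (g b)) : TS F n := by
  obtain ⟨t, ht, hs⟩ := h
  exact ⟨fun x => g (t fun l => f (x l)), fun x y hxy => hg _ _ (ht _ _ fun l => hf _ _ (hxy l)),
    fun x y hxy => congrArg g (hs _ _ (range_comp_eq hxy f))⟩

theorem TS.of_ppc {kB kA n : ℕ} {B : Digraph (Fin kB)} {A : Digraph (Fin kA)}
    (h : TS B.Adj n) (hp : PpC kB B kA A) : TS A.Adj n := by
  obtain ⟨N, m, Es, Qs, E, -, hE, ⟨f, hf⟩, ⟨g, hg⟩⟩ := hp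
  refine TS.of_hom (E := E) ?_ f g hf hg
  obtain ⟨t, ht, hs⟩ := h
  refine ⟨fun x j => t fun l => x l j, fun x y hxy => ?_,
    fun x y hxy => funext fun j => hs _ _ (range_comp_eq hxy (fun z => z j))⟩
  choose s hs1 hs2 using fun l => (hE _ _).1 (hxy l)
  have key : ∀ z : (Fin 2 × Fin N) ⊕ Fin m,
      Sum.elim (fun q : Fin 2 × Fin N =>
        (![fun j => t fun l => x l j, fun j => t fun l => y l j] q.1) q.2)
        (fun i => t fun l => s l i) z =
      t fun l => Sum.elim (fun q : Fin 2 × Fin N => (![x l, y l] q.1) q.2) (s l) z := by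
    rintro (⟨i, j⟩ | i)
    · fin_cases i <;> rfl
    · rfl
  refine (hE _ _).2 ⟨fun i => t fun l => s l i, fun p hp => ?_, fun p hp => ?_⟩
  · rw [key, key]
    exact ht _ _ fun l => hs1 l p hp
  · rw [key, key]
    exact congrArg t (funext fun l => hs2 l p hp)

def toDi {V : Type} {k : ℕ} (E : V → V → Prop) (e : V ≃ Fin k) : Digraph (Fin k) :=
  ⟨fun u v => E (e.symm u) (e.symm v)⟩

theorem ppc_of_crit {A B : Type} [Finite A] [Finite B] [Nonempty A] (EA : A → A → Prop)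
    (EB : B → B → Prop) {kA kB : ℕ} (eA : A ≃ Fin kA) (eB : B ≃ Fin kB)
    (g : ((B → A) → A) → B)
    (hg : ∀ h : ({e : B × B // EB e.1 e.2} → A) → A, IsPol EA h →
      EB (g fun x => h fun e => x e.1.1) (g fun x => h fun e => x e.1.2)) :
    PpC kA (toDi EA eA) kB (toDi EB eB) := by
  obtain ⟨n, ⟨en⟩⟩ := Finite.exists_equiv_fin (B → A)
  obtain ⟨m, ⟨em⟩⟩ := Finite.exists_equiv_fin ({e : B × B // EB e.1 e.2} → A)
  refine ⟨n, m, {p | ∃ u v, (∀ e, EA (u e) (v e)) ∧ p = (Sum.inr (em u), Sum.inr (em v))},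
    {p | ∃ z : B → A, p = (Sum.inl (0, en z), Sum.inr (em fun e => z e.1.1)) ∨
      p = (Sum.inl (1, en z), Sum.inr (em fun e => z e.1.2))}, _,
    Fin.pos (en (Classical.arbitrary _)), fun _ _ => Iff.rfl,
    ⟨fun b j => eA (en.symm j (eB.symm b)), fun a b hab => ?_⟩,
    ⟨fun x => eB (g fun z => eA.symm (x (en z))), fun x y hxy => ?_⟩⟩
  · refine ⟨fun i => eA (em.symm i ⟨(eB.symm a, eB.symm b), hab⟩), ?_, ?_⟩
    · rintro p ⟨u, v, huv, rfl⟩
      simpa [toDi] using huv _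
    · rintro p ⟨z, rfl | rfl⟩ <;> simp
  · obtain ⟨s, h1, h2⟩ := hxy
    have hp : IsPol EA (fun u : {e : B × B // EB e.1 e.2} → A => eA.symm (s (em u))) :=
      fun u v huv => h1 _ ⟨u, v, huv, rfl⟩
    have h3 := hg _ hp
    have e1 : (fun z => eA.symm (x (en z))) =
        fun z : B → A => eA.symm (s (em fun e => z e.1.1)) :=
      funext fun z => congrArg eA.symm (h2 _ ⟨z, Or.inl rfl⟩)
    have e2 : (fun z => eA.symm (y (en z))) =
        fun z : B → A => eA.symm (s (em fun e => z e.1.2)) :=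
      funext fun z => congrArg eA.symm (h2 _ ⟨z, Or.inr rfl⟩)
    simp only [toDi, Equiv.symm_apply_apply]
    rw [e1, e2]
    exact h3

theorem ts_toDi {V : Type} {k n : ℕ} (E : V → V → Prop) (e : V ≃ Fin k) :
    TS (toDi E e).Adj n ↔ TS E n :=
  ⟨fun h => h.of_hom e e.symm (fun a b hab => by simpa [toDi] using hab) (fun _ _ hab => hab),
    fun h => h.of_hom e.symm e (fun _ _ hab => hab) (fun a b hab => by simpa [toDi] using hab)⟩

end Pool.Agent.H54.PPC
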