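import Mathlib
import Pool.Agent.H54.PPC

namespace Pool.Agent.H54.PPD
open Pool.Agent.H54.PPC

inductive V (D T : Type) (H : ℕ) : Type
  | d (a : D) : V D T H
  | r (t : T) : V D T H
  | q (a : D) (t : T) (l : Fin (H + 1)) (κ : Fin 3) : V D T H
  | p (j : Fin (H + 1)) : V D T H

instance {D T : Type} [Finite D] [Finite T] (H : ℕ) : Finite (V D T H) := by
  refine Finite.of_surjective
    (fun x : D ⊕ T ⊕ (D × T × Fin (H + 1) × Fin 3) ⊕ Fin (H + 1) =>
      Sum.elim V.d (Sum.elim V.r (Sum.elim (fun y => V.q y.1 y.2.1 y.2.2.1 y.2.2.2) V.p)) x) ?_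
  rintro (a | t | ⟨a, t, l, κ⟩ | j)
  · exact ⟨Sum.inl a, rfl⟩
  · exact ⟨Sum.inr (Sum.inl t), rfl⟩
  · exact ⟨Sum.inr (Sum.inr (Sum.inl (a, t, l, κ))), rfl⟩
  · exact ⟨Sum.inr (Sum.inr (Sum.inr j)), rfl⟩

variable {D T : Type} {H : ℕ}

def Step (s : Prop) (κ κ' : Fin 3) : Prop :=
  (s → κ = 1 ∧ κ' = 1) ∧ (¬ s → (κ = 1 ∧ κ' = 0) ∨ (κ = 2 ∧ κ' = 0) ∨ (κ = 2 ∧ κ' = 1))

def Adj (sg : D → T → ℕ → Prop) : V D T H → V D T H → Prop
  | .d a, .q a' _ l κ => a = a' ∧ l.val = 1 ∧ κ = 1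
  | .q _ t l κ, .r t' => t = t' ∧ l.val + 1 = H ∧ κ = 1
  | .q a t l κ, .q a' t' l' κ' =>
      a = a' ∧ t = t' ∧ l'.val = l.val + 1 ∧ 1 ≤ l.val ∧ l'.val < H ∧ Step (sg a t l.val) κ κ'
  | .p j, .p j' => j'.val = j.val + 1 ∧ j'.val < H
  | _, _ => False

def lev : V D T H → ℕ
  | .d _ => 0
  | .r _ => H
  | .q _ _ l _ => l.val
  | .p j => j.val

def main : V D T H → Prop
  | .p _ => False
  | _ => True

def al (a0 : D) : V D T H → D
  | .d a => a
  | .q a _ _ _ => a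
  | _ => a0

def ta (t0 : T) : V D T H → T
  | .r t => t
  | .q _ t _ _ => t
  | _ => t0

def kd : V D T H → Fin 3
  | .q _ _ _ κ => κ
  | _ => 1

def fin (H x : ℕ) : Fin (H + 1) := ⟨min x H, by omega⟩

def mk (H : ℕ) (a : D) (t : T) (l : ℕ) (κ : Fin 3) : V D T H :=
  if l = 0 then .d a else if l = H then .r t else .q a t (fin H l) κ

theorem lev_le (v : V D T H) : lev v ≤ H := by
  rcases v with a | t | ⟨a, t, l, κ⟩ | j
  · exact Nat.zero_le _
  · exact le_rfl
  · exact Nat.lt_succ_iff.1 l.2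
  · exact Nat.lt_succ_iff.1 j.2

variable {sg : D → T → ℕ → Prop}

theorem adj_spec (hH : 2 ≤ H) (a0 : D) (t0 : T) {u v : V D T H} (h : Adj sg u v) :
    lev v = lev u + 1 ∧ (main u ↔ main v) ∧ (¬ main v → lev v < H) ∧
    (main u → (lev v < H → al a0 u = al a0 v) ∧ (0 < lev u → ta t0 u = ta t0 v) ∧
      (lev u = 0 → kd v = 1 ∧ u = .d (al a0 u)) ∧ (lev v = H → kd u = 1 ∧ v = .r (ta t0 v)) ∧
      (0 < lev u → lev v < H → Step (sg (al a0 u) (ta t0 u) (lev u)) (kd u) (kd v))) := by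
  rcases u with a | t | ⟨a, t, l, κ⟩ | j <;> rcases v with a' | t' | ⟨a', t', l', κ'⟩ | j' <;>
    simp only [Adj] at h <;> simp only [lev, main, al, ta, kd]
  · obtain ⟨rfl, h2, rfl⟩ := h
    simp [h2]
    omega
  · obtain ⟨rfl, h2, rfl⟩ := h
    have : l.val ≠ 0 := by omega
    simp [h2, this]
  · obtain ⟨rfl, rfl, h3, h4, h5, h6⟩ := h
    refine ⟨h3, trivial, fun _ => h5, fun _ => ⟨fun _ => rfl, fun _ => rfl, fun _ => by omega,
      fun _ => by omega, fun _ _ => h6⟩⟩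
  · simp [h.1]
    omega

theorem adj_mk (hH : 2 ≤ H) {a a' : D} {t t' : T} {l : ℕ} {κ κ' : Fin 3} (hl : l < H)
    (h1 : l + 1 < H → a = a') (h2 : 0 < l → t = t') (h3 : l = 0 → κ' = 1)
    (h4 : l + 1 = H → κ = 1) (h5 : 0 < l → l + 1 < H → Step (sg a t l) κ κ') :
    Adj sg (mk H a t l κ) (mk H a' t' (l + 1) κ') := by
  unfold mk
  by_cases h0 : l = 0
  · rw [if_pos h0, if_neg (by omega), if_neg (by omega)]
    exact ⟨h1 (by omega), by simp only [fin]; omega, h3 h0⟩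
  · rw [if_neg h0, if_neg (by omega), if_neg (by omega)]
    by_cases hH' : l + 1 = H
    · rw [if_pos hH']
      exact ⟨h2 (by omega), by simp only [fin]; omega, h4 hH'⟩
    · rw [if_neg hH']
      refine ⟨h1 (by omega), h2 (by omega), by simp only [fin]; omega, by simp only [fin]; omega,
        by simp only [fin]; omega, ?_⟩
      have : (fin H l).val = l := by simp only [fin]; omega
      rw [this]
      exact h5 (by omega) (by omega)

open Classical in
noncomputable def Kd (sg : D → T → ℕ → Prop) (a0 : D) (t0 : T) (S : Set (V D T H)) (a : D) (t : T)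
    (l : ℕ) : Fin 3 :=
  if ∃ v ∈ S, kd v = 0 then (if sg a t (l - 1) then 1 else 0)
  else if (∃ v ∈ S, kd v = 2) ∧ ¬ sg a t l ∧ ∀ v ∈ S, ¬ sg (al a0 v) (ta t0 v) l → kd v = 2
    then 2 else 1

open Classical in
noncomputable def Phi (sg : D → T → ℕ → Prop) (a0 : D) (t0 : T) (a : D) (t : T)
    (S : Set (V D T H)) : V D T H :=
  if ∃ l, ∀ v ∈ S, main v ∧ lev v = l then
    mk H a t (sInf (lev '' S)) (Kd sg a0 t0 S a t (sInf (lev '' S)))
  else .p (fin H (sInf (lev '' S)))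

theorem Kd_one {a0 : D} {t0 : T} {S : Set (V D T H)} (a : D) (t : T) (l : ℕ)
    (h : ∀ v ∈ S, kd v = 1) : Kd sg a0 t0 S a t l = 1 := by
  unfold Kd
  rw [if_neg, if_neg]
  · rintro ⟨⟨v, hv, h2⟩, -⟩
    rw [h v hv] at h2
    exact absurd h2 (by decide)
  · rintro ⟨v, hv, h2⟩
    rw [h v hv] at h2
    exact absurd h2 (by decide)

theorem Kd_a {a0 : D} {t0 : T} {S : Set (V D T H)} {a : D} {t : T} {l : ℕ}
    (h : ¬ ∃ v ∈ S, kd v = 0) (h' : sg a t l) : Kd sg a0 t0 S a t l = 1 := by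
  unfold Kd
  rw [if_neg h, if_neg (fun hh => hh.2.1 h')]

theorem Kd_b {a0 : D} {t0 : T} {S : Set (V D T H)} {a : D} {t : T} {l : ℕ}
    (h : ¬ ∃ v ∈ S, kd v = 2) (h' : sg a t l) : Kd sg a0 t0 S a t (l + 1) = 1 := by
  unfold Kd
  by_cases h0 : ∃ v ∈ S, kd v = 0
  · rw [if_pos h0, Nat.add_sub_cancel, if_pos h']
  · rw [if_neg h0, if_neg (fun hh => h hh.1)]

theorem Kd_c {a0 : D} {t0 : T} {S : Set (V D T H)} {a : D} {t : T} {l : ℕ}
    (h : ∃ v ∈ S, kd v = 0) (h' : ¬ sg a t l) : Kd sg a0 t0 S a t (l + 1) = 0 := by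
  unfold Kd
  rw [if_pos h, Nat.add_sub_cancel, if_neg h']

theorem Kd_d {a0 : D} {t0 : T} {S : Set (V D T H)} (a : D) (t : T) (l : ℕ)
    (h : ¬ ∃ v ∈ S, kd v = 0) : Kd sg a0 t0 S a t l = 1 ∨ Kd sg a0 t0 S a t l = 2 := by
  unfold Kd
  rw [if_neg h]
  split_ifs <;> simp

theorem Kd_e {a0 : D} {t0 : T} {S : Set (V D T H)} {a : D} {t : T} {l : ℕ}
    (h : ¬ ∃ v ∈ S, kd v = 0) (h' : (∃ v ∈ S, kd v = 2) ∧ ¬ sg a t l ∧
      ∀ v ∈ S, ¬ sg (al a0 v) (ta t0 v) l → kd v = 2) : Kd sg a0 t0 S a t l = 2 := by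
  unfold Kd
  rw [if_neg h, if_pos h']

theorem Kd_f {a0 : D} {t0 : T} {S : Set (V D T H)} {a : D} {t : T} {l : ℕ}
    (h : ¬ ∃ v ∈ S, kd v = 0) (h' : ¬ ∃ v ∈ S, kd v = 2) : Kd sg a0 t0 S a t l = 1 := by
  unfold Kd
  rw [if_neg h, if_neg (fun hh => h' hh.1)]

theorem phi_adj (hH : 2 ≤ H) (a0 : D) (t0 : T) {m : Type} (I : Set m) (hI : I.Nonempty)
    (f : (m → D) → D) (F : (m → T) → T)
    (hf : ∀ x y, (∀ l ∈ I, x l = y l) → f x = f y) (hF : ∀ x y, (∀ l ∈ I, x l = y l) → F x = F y)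
    (hs : ∀ x y l, (∀ j ∈ I, sg (x j) (y j) l) → sg (f x) (F y) l)
    (v w : m → V D T H) (h : ∀ l, Adj sg (v l) (w l)) :
    Adj sg (Phi sg a0 t0 (f fun l => al a0 (v l)) (F fun l => ta t0 (v l)) (v '' I))
      (Phi sg a0 t0 (f fun l => al a0 (w l)) (F fun l => ta t0 (w l)) (w '' I)) := by
  have sp := fun l => adj_spec hH a0 t0 (h l)
  obtain ⟨_, ⟨l0, hl0, rfl⟩, h0⟩ := Nat.sInf_mem ((hI.image v).image lev)
  have hmin : ∀ l ∈ I, lev (v l0) ≤ lev (v l) := fun l hl =>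
    h0 ▸ Nat.sInf_le ⟨v l, ⟨l, hl, rfl⟩, rfl⟩
  have h1 : sInf (lev '' (w '' I)) = lev (v l0) + 1 := by
    apply le_antisymm
    · exact Nat.sInf_le ⟨w l0, ⟨l0, hl0, rfl⟩, (sp l0).1⟩
    · obtain ⟨_, ⟨l1, hl1, rfl⟩, h1⟩ := Nat.sInf_mem ((hI.image w).image lev)
      rw [← h1, (sp l1).1]
      exact Nat.succ_le_succ (hmin l1 hl1)
  have hlt : lev (v l0) < H := by
    have := lev_le (w l0)
    rw [(sp l0).1] at this
    omega
  unfold Phi
  rw [← h0, h1]
  by_cases hc : ∃ l, ∀ u ∈ v '' I, main u ∧ lev u = l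
  · have hc' : ∀ l ∈ I, main (v l) ∧ lev (v l) = lev (v l0) := by
      obtain ⟨L, hL⟩ := hc
      exact fun l hl => ⟨(hL _ ⟨l, hl, rfl⟩).1,
        (hL _ ⟨l, hl, rfl⟩).2.trans (hL _ ⟨l0, hl0, rfl⟩).2.symm⟩
    have hw : ∀ l ∈ I, lev (w l) = lev (v l0) + 1 := fun l hl => by rw [(sp l).1, (hc' l hl).2]
    have sq := fun l (hl : l ∈ I) => (sp l).2.2.2 (hc' l hl).1
    rw [if_pos hc, if_pos ⟨lev (v l0) + 1, by
      rintro _ ⟨l, hl, rfl⟩
      exact ⟨(sp l).2.1.1 (hc' l hl).1, hw l hl⟩⟩]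
    set L := lev (v l0)
    have e1 : L + 1 < H → (f fun l => al a0 (v l)) = f fun l => al a0 (w l) := fun hL =>
      hf _ _ fun l hl => (sq l hl).1 (by rw [hw l hl]; exact hL)
    have e2 : 0 < L → (F fun l => ta t0 (v l)) = F fun l => ta t0 (w l) := fun hL =>
      hF _ _ fun l hl => (sq l hl).2.1 (by rw [(hc' l hl).2]; exact hL)
    refine adj_mk hH hlt e1 e2 (fun hL => Kd_one _ _ _ ?_) (fun hL => Kd_one _ _ _ ?_)
      fun hL hL' => ?_
    · rintro _ ⟨l, hl, rfl⟩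
      exact ((sq l hl).2.2.1 (by rw [(hc' l hl).2]; exact hL)).1
    · rintro _ ⟨l, hl, rfl⟩
      exact ((sq l hl).2.2.2.1 (by rw [hw l hl]; exact hL)).1
    · have st : ∀ l ∈ I, Step (sg (al a0 (v l)) (ta t0 (v l)) L) (kd (v l)) (kd (w l)) := by
        intro l hl
        have := (sq l hl).2.2.2.2 (by rw [(hc' l hl).2]; exact hL) (by rw [hw l hl]; exact hL')
        rwa [(hc' l hl).2] at this
      have n0 : ¬ ∃ u ∈ v '' I, kd u = 0 := by
        rintro ⟨_, ⟨l, hl, rfl⟩, h2⟩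
        have := st l hl
        rw [h2] at this
        by_cases hh : sg (al a0 (v l)) (ta t0 (v l)) L
        · exact absurd (this.1 hh).1 (by decide)
        · rcases this.2 hh with h3 | h3 | h3 <;> exact absurd h3.1 (by decide)
      have n2 : ¬ ∃ u ∈ w '' I, kd u = 2 := by
        rintro ⟨_, ⟨l, hl, rfl⟩, h2⟩
        have := st l hl
        rw [h2] at this
        by_cases hh : sg (al a0 (v l)) (ta t0 (v l)) L
        · exact absurd (this.1 hh).2 (by decide)
        · rcases this.2 hh with h3 | h3 | h3 <;> exact absurd h3.2 (by decide)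
      rw [← e1 hL', ← e2 hL]
      refine ⟨fun hsg => ⟨Kd_a n0 hsg, Kd_b n2 hsg⟩, fun hsg => ?_⟩
      by_cases hb : ∃ u ∈ w '' I, kd u = 0
      · rw [Kd_c hb hsg]
        rcases Kd_d (sg := sg) (a0 := a0) (t0 := t0) (f fun l => al a0 (v l))
          (F fun l => ta t0 (v l)) L n0 with h3 | h3 <;> rw [h3] <;> simp
      · have k2 : ∀ l ∈ I, ¬ sg (al a0 (v l)) (ta t0 (v l)) L → kd (v l) = 2 := by
          intro l hl hh
          rcases (st l hl).2 hh with h3 | h3 | h3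
          · exact absurd ⟨_, ⟨l, hl, rfl⟩, h3.2⟩ hb
          · exact h3.1
          · exact h3.1
        refine Or.inr (Or.inr ⟨Kd_e n0 ⟨?_, hsg, ?_⟩, Kd_f hb n2⟩)
        · by_contra hcon
          exact hsg (hs _ _ _ fun l hl => by
            by_contra hh
            exact hcon ⟨_, ⟨l, hl, rfl⟩, k2 l hl hh⟩)
        · rintro _ ⟨l, hl, rfl⟩
          exact k2 l hl
  · have hc' : ¬ ∃ l, ∀ u ∈ w '' I, main u ∧ lev u = l := by
      rintro ⟨L, hL⟩
      refine hc ⟨L - 1, ?_⟩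
      rintro _ ⟨l, hl, rfl⟩
      have := hL _ ⟨l, hl, rfl⟩
      refine ⟨(sp l).2.1.2 this.1, ?_⟩
      rw [← this.2, (sp l).1]
      simp
    have hlt' : lev (v l0) + 1 < H := by
      by_contra hcon
      refine hc' ⟨H, ?_⟩
      rintro _ ⟨l, hl, rfl⟩
      have h2 := hmin l hl
      have h3 := (sp l).1
      have h4 := lev_le (w l)
      refine ⟨?_, by omega⟩
      by_contra h5
      have := (sp l).2.2.1 h5
      omega
    rw [if_neg hc, if_neg hc']
    exact ⟨by simp only [fin]; omega, by simp only [fin]; omega⟩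

theorem restrict (hH : 2 ≤ H) (a0 : D) (t0 : T) {m : Type} (h : (m → V D T H) → V D T H)
    (hp : IsPol (Adj sg) h) (a : m → D) (t : m → T) (L : ℕ) (hL : 0 < L) (hL' : L + 1 < H)
    (hs : ∀ j, sg (a j) (t j) L) :
    sg (al a0 (h fun j => .d (a j))) (ta t0 (h fun j => .r (t j))) L := by
  classical
  let N : ℕ → V D T H := fun l => h fun j => mk H (a j) (t j) l 1
  let B : ℕ → V D T H := fun l =>
    h fun j => mk H (a j) (t j) (l + 1) (if sg (a j) (t j) l then 1 else 0)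
  let C : ℕ → V D T H := fun l =>
    h fun j => mk H (a j) (t j) l (if sg (a j) (t j) l then 1 else 2)
  have e0 : Adj sg (N 0) (N 1) := hp _ _ fun j =>
    adj_mk hH (by omega) (fun _ => rfl) (fun _ => rfl) (fun _ => rfl) (fun _ => rfl)
      (fun h => absurd h (lt_irrefl _))
  have eH : ∀ l, l + 1 = H → Adj sg (N l) (N (l + 1)) := fun l hl => hp _ _ fun j =>
    adj_mk hH (by omega) (fun _ => rfl) (fun _ => rfl) (fun _ => rfl) (fun _ => rfl)
      (fun _ h => by omega)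
  have eL : Adj sg (N L) (N (L + 1)) := hp _ _ fun j =>
    adj_mk hH (by omega) (fun _ => rfl) (fun _ => rfl) (fun _ => rfl) (fun _ => rfl)
      (fun _ _ => ⟨fun _ => ⟨rfl, rfl⟩, fun hh => absurd (hs j) hh⟩)
  have e1 : ∀ l, 0 < l → l + 1 < H → Adj sg (N l) (B l) := fun l h1 h2 => hp _ _ fun j =>
    adj_mk hH (by omega) (fun _ => rfl) (fun _ => rfl) (by omega) (by omega)
      (fun _ _ => ⟨fun hh => by simp [hh], fun hh => by simp [hh]⟩)
  have e2 : ∀ l, 0 < l → l + 1 < H → Adj sg (C l) (B l) := fun l h1 h2 => hp _ _ fun j =>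
    adj_mk hH (by omega) (fun _ => rfl) (fun _ => rfl) (by omega) (by omega)
      (fun _ _ => ⟨fun hh => by simp [hh], fun hh => by simp [hh]⟩)
  have e3 : ∀ l, 0 < l → l + 1 < H → Adj sg (C l) (N (l + 1)) := fun l h1 h2 => hp _ _ fun j =>
    adj_mk hH (by omega) (fun _ => rfl) (fun _ => rfl) (by omega) (by omega)
      (fun _ _ => ⟨fun hh => by simp [hh], fun hh => by simp [hh]⟩)
  have hlev : ∀ l, l ≤ H → lev (N l) = lev (N 0) + l ∧ (main (N 0) ↔ main (N l)) := by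
    intro l
    induction l with
    | zero => intro _; exact ⟨rfl, Iff.rfl⟩
    | succ l ih =>
      intro hl
      obtain ⟨i1, i2⟩ := ih (by omega)
      by_cases h0 : l = 0
      · subst h0
        exact ⟨(adj_spec hH a0 t0 e0).1, (adj_spec hH a0 t0 e0).2.1⟩
      · by_cases h1 : l + 1 = H
        · have := adj_spec hH a0 t0 (eH l h1)
          exact ⟨by omega, i2.trans this.2.1⟩
        · have s1 := adj_spec hH a0 t0 (e1 l (by omega) (by omega))
          have s2 := adj_spec hH a0 t0 (e2 l (by omega) (by omega))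
          have s3 := adj_spec hH a0 t0 (e3 l (by omega) (by omega))
          exact ⟨by omega, i2.trans (s1.2.1.trans (s2.2.1.symm.trans s3.2.1))⟩
  obtain ⟨G, rfl⟩ : ∃ G, H = G + 1 := ⟨H - 1, by omega⟩
  have sH := adj_spec hH a0 t0 (eH G rfl)
  have l0 : lev (N 0) = 0 := by
    have h1 := (hlev (G + 1) le_rfl).1
    have h2 := lev_le (N (G + 1))
    omega
  have hl : ∀ l, l ≤ G + 1 → lev (N l) = l := fun l h1 => by rw [(hlev l h1).1, l0, zero_add]
  have hm : ∀ l, l ≤ G + 1 → main (N l) := by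
    have : main (N (G + 1)) := by
      by_contra hh
      have := sH.2.2.1 hh
      rw [hl _ le_rfl] at this
      omega
    exact fun l h1 => (hlev l h1).2.1 ((hlev _ le_rfl).2.2 this)
  have step : ∀ l, 0 < l → l < G → al a0 (N l) = al a0 (N (l + 1)) ∧
      ta t0 (N l) = ta t0 (N (l + 1)) := by
    intro l h1 h2
    have s1 := adj_spec hH a0 t0 (e1 l (by omega) (by omega))
    have s2 := adj_spec hH a0 t0 (e2 l (by omega) (by omega))
    have s3 := adj_spec hH a0 t0 (e3 l (by omega) (by omega))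
    have m1 := hm l (by omega)
    have m2 := s2.2.1.2 (s1.2.1.1 m1)
    have k1 := hl l (by omega)
    have k2 := s1.1
    have k3 := s2.1
    have k4 := s3.1
    exact ⟨((s1.2.2.2 m1).1 (by omega)).trans
        (((s2.2.2.2 m2).1 (by omega)).symm.trans ((s3.2.2.2 m2).1 (by omega))),
      ((s1.2.2.2 m1).2.1 (by omega)).trans
        (((s2.2.2.2 m2).2.1 (by omega)).symm.trans ((s3.2.2.2 m2).2.1 (by omega)))⟩
  have hal : ∀ l, l ≤ G → al a0 (N l) = al a0 (N 0) := by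
    intro l
    induction l with
    | zero => intro _; rfl
    | succ l ih =>
      intro h1
      by_cases h0 : l = 0
      · subst h0
        exact (((adj_spec hH a0 t0 e0).2.2.2 (hm 0 (by omega))).1
          (by rw [hl 1 (by omega)]; omega)).symm
      · exact (step l (by omega) (by omega)).1.symm.trans (ih (by omega))
  have hta : ∀ n l, 0 < l → l + n = G → ta t0 (N l) = ta t0 (N (G + 1)) := by
    intro n
    induction n with
    | zero =>
      intro l h1 h2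
      obtain rfl : l = G := by omega
      exact (sH.2.2.2 (hm l (by omega))).2.1 (by rw [hl l (by omega)]; exact h1)
    | succ n ih =>
      intro l h1 h2
      exact (step l h1 (by omega)).2.trans (ih (l + 1) (by omega) (by omega))
  have kin : ∀ l, 0 < l → l ≤ G → kd (N l) ≠ 2 := by
    intro l h1 h2 h3
    obtain ⟨l, rfl⟩ : ∃ k, l = k + 1 := ⟨l - 1, by omega⟩
    by_cases h0 : l = 0
    · subst h0
      have := (((adj_spec hH a0 t0 e0).2.2.2 (hm 0 (by omega))).2.2.1 l0).1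
      rw [this] at h3
      exact absurd h3 (by decide)
    · have s3 := adj_spec hH a0 t0 (e3 l (by omega) (by omega))
      have k1 := hl (l + 1) (by omega)
      have k2 := s3.1
      have := (s3.2.2.2 (s3.2.1.2 (hm _ (by omega)))).2.2.2.2 (by omega) (by omega)
      rw [h3] at this
      by_cases hh : sg (al a0 (C l)) (ta t0 (C l)) (lev (C l))
      · exact absurd (this.1 hh).2 (by decide)
      · rcases this.2 hh with h4 | h4 | h4 <;> exact absurd h4.2 (by decide)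
  have kout : ∀ l, 0 < l → l ≤ G → kd (N l) ≠ 0 := by
    intro l h1 h2 h3
    have k1 := hl l (by omega)
    by_cases h0 : l = G
    · subst h0
      have := ((sH.2.2.2 (hm l (by omega))).2.2.2.1 (hl _ le_rfl)).1
      rw [this] at h3
      exact absurd h3 (by decide)
    · have s1 := adj_spec hH a0 t0 (e1 l (by omega) (by omega))
      have k2 := s1.1
      have := (s1.2.2.2 (hm _ (by omega))).2.2.2.2 (by omega) (by omega)
      rw [h3] at this
      by_cases hh : sg (al a0 (N l)) (ta t0 (N l)) (lev (N l))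
      · exact absurd (this.1 hh).1 (by decide)
      · rcases this.2 hh with h4 | h4 | h4 <;> exact absurd h4.1 (by decide)
  have sL := ((adj_spec hH a0 t0 eL).2.2.2 (hm L (by omega))).2.2.2.2
    (by rw [hl L (by omega)]; exact hL) (by rw [hl (L + 1) (by omega)]; exact hL')
  rw [hl L (by omega), hal L (by omega), hta (G - L) L hL (by omega)] at sL
  have n0 : N 0 = h fun j => .d (a j) := by simp [N, mk]
  have nH : N (G + 1) = h fun j => .r (t j) := by simp [N, mk]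
  rw [← n0, ← nH]
  by_contra hh
  rcases sL.2 hh with h4 | h4 | h4
  · exact kout (L + 1) (by omega) (by omega) h4.2
  · exact kin L hL (by omega) h4.1
  · exact kin L hL (by omega) h4.1

end Pool.Agent.H54.PPD
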