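import Mathlib
import Pool.Agent.H54.PPD

namespace Pool.Agent.H54.PPE
open Pool.Agent.H54.PPC Pool.Agent.H54.PPD

def SR {n : ℕ} (a : Fin n → SignType) (b : SignType) : Prop :=
  (∀ i j, i ≠ j → -a i ≤ a j) ∧ 0 ≤ b ∧ (b = 1 → ∃ i, a i = 1)

def TR (a a' b : SignType) : Prop := 0 ≤ b ∧ (b = 0 → a = a')

def R (k : ℕ) (t : Fin 7 ⊕ Fin (k + 4) → SignType) : Prop :=
  t (.inl 1) = -t (.inl 0) ∧ TR (t (.inl 2)) (t (.inl 3)) (t (.inl 4)) ∧ t (.inl 5) = 1 ∧
    SR (fun i => t (.inr i)) (t (.inl 6))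

/-- componentwise preservation -/
def Pres (k : ℕ) {m : Type} (f : (m → SignType) → SignType) : Prop :=
  (∀ x, f (fun l => -x l) = -f x) ∧
  (∀ x y b, (∀ l, TR (x l) (y l) (b l)) → TR (f x) (f y) (f b)) ∧ f (fun _ => 1) = 1 ∧
  (∀ (a : Fin (k + 4) → m → SignType) (b : m → SignType),
    (∀ l, SR (fun i => a i l) (b l)) → SR (fun i => f (a i)) (f b))

theorem pres_iff (k : ℕ) {m : Type} (f : (m → SignType) → SignType) :
    Pres k f ↔ ∀ t : m → {t // R k t}, R k (fun i => f fun l => (t l).1 i) := by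
  constructor
  · rintro ⟨h1, h2, h3, h4⟩ t
    refine ⟨?_, h2 _ _ _ fun l => (t l).2.2.1, ?_, h4 _ _ fun l => (t l).2.2.2.2⟩
    · rw [← h1]
      exact congrArg f (funext fun l => (t l).2.1)
    · rw [← h3]
      exact congrArg f (funext fun l => (t l).2.2.2.1)
  · intro h
    have s0 : SR (fun _ : Fin (k + 4) => (0 : SignType)) 0 :=
      ⟨fun _ _ _ => by simp, le_rfl, fun h => absurd h (by decide)⟩
    have t0 : TR 0 0 0 := ⟨le_rfl, fun _ => rfl⟩
    refine ⟨fun x => ?_, fun x y b hb => ?_, ?_, fun a b hb => ?_⟩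
    · exact (h fun l => ⟨Sum.elim ![x l, -x l, 0, 0, 0, 1, 0] fun _ => 0, rfl, t0, rfl, s0⟩).1
    · exact (h fun l =>
        ⟨Sum.elim ![0, 0, x l, y l, b l, 1, 0] fun _ => 0, rfl, hb l, rfl, s0⟩).2.1
    · exact (h fun l => ⟨Sum.elim ![0, 0, 0, 0, 0, 1, 0] fun _ => 0, rfl, t0, rfl, s0⟩).2.2.1
    · exact (h fun l =>
        ⟨Sum.elim ![0, 0, 0, 0, 0, 1, b l] fun i => a i l, rfl, t0, rfl, hb l⟩).2.2.2

section
variable {k : ℕ} {m : Type} {f : (m → SignType) → SignType}

theorem Pres.P (h : Pres k f) (x y : m → SignType) (hxy : ∀ l, -x l ≤ y l) : -f x ≤ f y := by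
  have := (h.2.2.2 (fun i l => if i = 0 then x l else if i = 1 then y l else 1) (fun _ => 0)
    fun l => ⟨fun i j hij => ?_, le_rfl, fun h => absurd h (by decide)⟩).1 0 1 (by simp)
  · simpa using this
  · have h1 := hxy l
    have key : ∀ a b : SignType, -a ≤ b → -b ≤ a := by decide
    have k1 : ∀ a : SignType, a ≤ 1 ∧ -1 ≤ a := by decide
    by_cases hi0 : i = 0 <;> by_cases hi1 : i = 1 <;> by_cases hj0 : j = 0 <;>
      by_cases hj1 : j = 1 <;> simp_all

theorem Pres.Q (h : Pres k f) (y z b : m → SignType) (hy : ∀ l, 0 ≤ y l) (hz : ∀ l, 0 ≤ z l)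
    (hb : ∀ l, 0 ≤ b l) (hh : ∀ l, b l = 1 → y l = 1 ∨ z l = 1) (h1 : f b = 1) :
    f y = 1 ∨ f z = 1 := by
  have hS : ∀ l, SR (fun i : Fin (k + 4) => if i = 0 then y l else z l) (b l) := by
    refine fun l => ⟨fun i j _ => ?_, hb l, fun h => ?_⟩
    · have key : ∀ a b : SignType, 0 ≤ a → 0 ≤ b → -a ≤ b := by decide
      apply key <;> simp only [] <;> split_ifs <;> first | exact hy l | exact hz l
    · rcases hh l h with h2 | h2
      · exact ⟨0, by simpa using h2⟩
      · exact ⟨1, by simpa using h2⟩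
  obtain ⟨i, hi⟩ := (h.2.2.2 (fun i l => if i = 0 then y l else z l) b hS).2.2 h1
  by_cases h0 : i = 0
  · left; simpa [h0] using hi
  · right; simpa [h0] using hi

open Classical in
def Sup (f : (m → SignType) → SignType) : Set m := {l | f (fun j => if j = l then 1 else 0) = 1}

theorem Pres.iff [Finite m] (h : Pres k f) (b : m → SignType) (hb : ∀ l, 0 ≤ b l) :
    f b = 1 ↔ ∃ l ∈ Sup f, b l = 1 := by
  classical
  constructor
  · intro h1
    have := Fintype.ofFinite m
    have key : ∀ s : Finset m, f (fun j => if j ∈ s then 1 else 0) = 1 → ∃ l ∈ s, l ∈ Sup f := by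
      intro s
      induction s using Finset.induction_on with
      | empty =>
        intro h2
        have h3 := h.1 (fun _ => 0)
        simp only [Finset.notMem_empty, if_false] at h2
        simp only [neg_zero, h2] at h3
        exact absurd h3 (by decide)
      | insert a s _ ih =>
        intro h2
        rcases h.Q (fun j => if j = a then 1 else 0) (fun j => if j ∈ s then 1 else 0) _
          (fun l => by split_ifs <;> decide) (fun l => by split_ifs <;> decide)
          (fun l => by split_ifs <;> decide) (fun l => by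
            by_cases h4 : l = a <;> by_cases h5 : l ∈ s <;> simp [h4, h5]) h2 with h3 | h3
        · refine ⟨a, Finset.mem_insert_self _ _, ?_⟩
          exact h3
        · obtain ⟨l, hl, hl'⟩ := ih h3
          exact ⟨l, Finset.mem_insert_of_mem hl, hl'⟩
    obtain ⟨l, hl, hl'⟩ := key (Finset.univ.filter fun j => b j = 1) (by
      refine Eq.trans (congrArg f ?_) h1
      funext j
      have key : ∀ a : SignType, 0 ≤ a → ¬ a = 1 → 0 = a := by decide
      by_cases hj : b j = 1
      · simp [hj]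
      · simpa [hj] using key _ (hb j) hj)
    exact ⟨l, hl', (Finset.mem_filter.1 hl).2⟩
  · rintro ⟨l, hl, hl'⟩
    refine (h.Q b b _ hb hb (fun j => ?_) (fun j => ?_) hl).elim id id
    · split_ifs <;> decide
    · split_ifs with hj
      · intro _; left; rw [hj, hl']
      · intro h; exact absurd h (by decide)

theorem Pres.dep [Finite m] (h : Pres k f) (x y : m → SignType)
    (hxy : ∀ l ∈ Sup f, x l = y l) : f x = f y := by
  classical
  have h1 := h.2.1 x y (fun l => if l ∈ Sup f then 0 else 1) fun l =>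
    ⟨by split_ifs <;> decide, fun h => by
      by_cases hl : l ∈ Sup f
      · exact hxy l hl
      · rw [if_neg hl] at h; exact absurd h (by decide)⟩
  apply h1.2
  have key : ∀ a : SignType, 0 ≤ a → ¬ a = 1 → a = 0 := by decide
  refine key _ h1.1 fun h2 => ?_
  obtain ⟨l, hl, h3⟩ := (h.iff _ fun l => by split_ifs <;> decide).1 h2
  rw [if_pos hl] at h3
  exact absurd h3 (by decide)

theorem Pres.ne [Finite m] (h : Pres k f) : (Sup f).Nonempty := by
  obtain ⟨l, hl, -⟩ := (h.iff (fun _ => 1) fun _ => by decide).1 h.2.2.1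
  exact ⟨l, hl⟩

theorem Pres.sup_comp [Finite m] (h : Pres k f) {m' : Type} (π : m → m') :
    Sup (fun x : m' → SignType => f fun l => x (π l)) = π '' Sup f := by
  classical
  ext j
  simp only [Sup, Set.mem_ofPred_eq, Set.mem_image]
  rw [h.iff _ fun l => by split_ifs <;> decide]
  constructor
  · rintro ⟨l, hl, h2⟩
    refine ⟨l, hl, ?_⟩
    by_contra h3
    rw [if_neg h3] at h2
    exact absurd h2 (by decide)
  · rintro ⟨l, hl, h2⟩
    exact ⟨l, hl, if_pos h2⟩

theorem Pres.succ (h : Pres k f) : Pres (k + 1) f := by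
  classical
  refine ⟨h.1, h.2.1, h.2.2.1, fun a b hab => ⟨fun i j hij => h.P _ _ fun l => (hab l).1 i j hij,
    (h.2.1 b b b fun l => ⟨(hab l).2.1, fun _ => rfl⟩).1, fun h1 => ?_⟩⟩
  have key : ∀ e : Fin (k + 4) → Fin (k + 1 + 4), Function.Injective e →
      f (fun l => if ∃ i, a (e i) l = 1 then 1 else 0) = 1 → ∃ i, f (a i) = 1 := by
    intro e he h2
    obtain ⟨i, hi⟩ := (h.2.2.2 (fun i => a (e i)) _ fun l => ⟨fun i j hij =>
      (hab l).1 _ _ (he.ne hij), by split_ifs <;> decide, fun h3 => by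
        by_contra h4
        rw [if_neg h4] at h3
        exact absurd h3 (by decide)⟩).2.2 h2
    exact ⟨e i, hi⟩
  refine (h.Q _ _ b (fun l => by split_ifs <;> decide) (fun l => by split_ifs <;> decide)
    (fun l => (hab l).2.1) (fun l hl => ?_) h1).elim
    (key Fin.castSucc (Fin.castSucc_injective _)) (key Fin.succ (Fin.succ_injective _))
  obtain ⟨i, hi⟩ := (hab l).2.2 hl
  rcases Fin.eq_zero_or_eq_succ i with rfl | ⟨i, rfl⟩
  · left
    exact if_pos ⟨0, hi⟩
  · right
    exact if_pos ⟨i, hi⟩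

end

open Classical in
noncomputable def gts {m : Type} (x : m → SignType) : SignType :=
  if ∃ l, x l = 1 then (if ∃ l, x l = -1 then 0 else 1) else if ∃ l, x l = -1 then -1 else 0

theorem gts_range {m : Type} (x y : m → SignType) (h : Set.range x = Set.range y) :
    gts x = gts y := by
  have h1 : ∀ c, (∃ l, x l = c) ↔ ∃ l, y l = c := fun c => Set.ext_iff.1 h c
  unfold gts
  rw [h1 1, h1 (-1)]

theorem gts_one {m : Type} (x : m → SignType) :
    gts x = 1 ↔ (∃ l, x l = 1) ∧ ¬ ∃ l, x l = -1 := by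
  unfold gts
  split_ifs with h1 h2 h2 <;> simp only [h1, h2] <;> simp

theorem gts_pres (k : ℕ) : Pres (k + 1) (gts (m := Fin (k + 4))) := by
  classical
  have hneg : ∀ x : Fin (k + 4) → SignType, gts (fun l => -x l) = -gts x := by
    intro x
    have e1 : ∀ a : SignType, -a = 1 ↔ a = -1 := by decide
    have e2 : ∀ a : SignType, -a = -1 ↔ a = 1 := by decide
    simp only [gts, e1, e2]
    split_ifs <;> decide
  have hnn : ∀ b : Fin (k + 4) → SignType, (∀ l, 0 ≤ b l) → 0 ≤ gts b := by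
    intro b hb
    have : ¬ ∃ l, b l = -1 := by
      rintro ⟨l, hl⟩
      have := hb l
      rw [hl] at this
      exact absurd this (by decide)
    simp only [gts, if_neg this]
    split_ifs <;> decide
  refine ⟨hneg, fun x y b hb => ⟨hnn b fun l => (hb l).1, fun h0 => ?_⟩, ?_, fun a b hab =>
    ⟨fun i j hij => ?_, hnn b fun l => (hab l).2.1, fun h1 => ?_⟩⟩
  · congr 1
    funext l
    apply (hb l).2
    have key : ∀ a : SignType, 0 ≤ a → ¬ a = 1 → a = 0 := by decide
    refine key _ (hb l).1 fun h1 => ?_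
    have : gts b = 1 := (gts_one b).2 ⟨⟨l, h1⟩, by
      rintro ⟨l, hl⟩
      have := (hb l).1
      rw [hl] at this
      exact absurd this (by decide)⟩
    rw [this] at h0
    exact absurd h0 (by decide)
  · exact (gts_one _).2 ⟨⟨0, rfl⟩, by rintro ⟨l, hl⟩; exact absurd hl (by decide)⟩
  · have k1 : ∀ u v : SignType, -u ≤ v → (u = -1 → v = 1) ∧ (v = -1 → u = 1) := by decide
    have p1 : (∃ l, a i l = -1) → ∃ l, a j l = 1 := fun ⟨l, hl⟩ =>
      ⟨l, (k1 _ _ ((hab l).1 i j hij)).1 hl⟩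
    have p2 : (∃ l, a j l = -1) → ∃ l, a i l = 1 := fun ⟨l, hl⟩ =>
      ⟨l, (k1 _ _ ((hab l).1 i j hij)).2 hl⟩
    simp only [gts]
    split_ifs <;> first | decide | exact absurd (p1 ‹_›) ‹_› | exact absurd (p2 ‹_›) ‹_›
  · obtain ⟨⟨l0, hl0⟩, -⟩ := (gts_one b).1 h1
    have k1 : ∀ u v : SignType, -u ≤ v → u = -1 → v = 1 := by decide
    by_cases hm : ∃ i l, a i l = -1
    · obtain ⟨i0, l1, h2⟩ := hm
      have : ∃ j, ¬ ∃ l, a j l = -1 := by
        by_contra hcon
        push Not at hcon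
        choose c hc using hcon
        have hinj : Function.Injective c := by
          intro i j hij
          by_contra hne
          have : a j (c i) = 1 := k1 _ _ ((hab (c i)).1 i j hne) (hc i)
          rw [hij, hc j] at this
          exact absurd this (by decide)
        have := Fintype.card_le_of_injective c hinj
        simp at this
      obtain ⟨j, hj⟩ := this
      refine ⟨j, (gts_one _).2 ⟨⟨l1, k1 _ _ ((hab l1).1 i0 j ?_) h2⟩, hj⟩⟩
      rintro rfl
      exact hj ⟨l1, h2⟩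
    · obtain ⟨i, hi⟩ := (hab l0).2.2 hl0
      exact ⟨i, (gts_one _).2 ⟨⟨l0, hi⟩, fun ⟨l, hl⟩ => hm ⟨i, l, hl⟩⟩⟩

theorem no_ts (k : ℕ) (f : (Fin (k + 4) → SignType) → SignType) (h : Pres k f)
    (hs : ∀ x y, Set.range x = Set.range y → f x = f y) : False := by
  let x : Fin (k + 4) → Fin (k + 4) → SignType := fun i l => if i = l then -1 else 1
  have hne : ∀ i : Fin (k + 4), ∃ j, i ≠ j := fun i => ⟨_, (exists_ne i).choose_spec.symm⟩
  have hr : ∀ i, Set.range (x i) = Set.range (fun l => -x i l) := by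
    intro i
    obtain ⟨j, hj⟩ := hne i
    ext c
    constructor
    · rintro ⟨l, rfl⟩
      by_cases hl : i = l
      · exact ⟨j, by simp [x, hl, hl ▸ hj]⟩
      · exact ⟨i, by simp [x, hl]⟩
    · rintro ⟨l, rfl⟩
      by_cases hl : i = l
      · exact ⟨j, by simp [x, hl, hl ▸ hj]⟩
      · exact ⟨i, by simp [x, hl]⟩
  obtain ⟨i, hi⟩ := (h.2.2.2 x (fun _ => 1) fun l => ⟨fun i j hij => by
    by_cases h1 : i = l <;> by_cases h2 : j = l <;> simp_all [x], by decide, fun _ => by
      obtain ⟨j, hj⟩ := hne l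
      exact ⟨j, by simp [x, hj.symm]⟩⟩).2.2 h.2.2.1
  have h1 := hs _ _ (hr i)
  have hi' : f (x i) = 1 := hi
  rw [h.1, hi'] at h1
  exact absurd h1 (by decide)

abbrev TT (k : ℕ) := {t // R k t}

instance (k : ℕ) : Finite (TT k) := Subtype.finite

def lv (k : ℕ) : Fin 7 ⊕ Fin (k + 4) → ℕ := Sum.elim (fun i => i.val + 1) (fun i => i.val + 8)

theorem lv_inj (k : ℕ) : Function.Injective (lv k) := by
  rintro (i | i) (j | j) h <;> simp only [lv, Sum.elim_inl, Sum.elim_inr] at h
  · rw [Fin.ext (by omega : i.val = j.val)]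
  · omega
  · omega
  · rw [Fin.ext (by omega : i.val = j.val)]

def sg (k : ℕ) (a : SignType) (t : TT k) (L : ℕ) : Prop := ∃ i, lv k i = L ∧ t.1 i = a

def t0 (k : ℕ) : TT k := ⟨Sum.elim ![0, 0, 0, 0, 0, 1, 0] fun _ => 0, rfl, ⟨le_rfl, fun _ => rfl⟩,
  rfl, ⟨fun _ _ _ => by simp, le_rfl, fun h => absurd (show (0 : SignType) = 1 from h) (by decide)⟩⟩

abbrev VV (k : ℕ) := V SignType (TT k) (k + 14)

def EE (k : ℕ) : VV k → VV k → Prop := Adj (sg k)

def res {k : ℕ} {m : Type} (h : (m → VV k) → VV k) (a : m → SignType) : SignType :=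
  al 0 (h fun j => .d (a j))

theorem res_pres {k : ℕ} {m : Type} (h : (m → VV k) → VV k) (hp : IsPol (EE k) h) :
    Pres k (res h) := by
  rw [pres_iff]
  intro t
  have : (fun i => res h fun l => (t l).1 i) = (ta (t0 k) (h fun j => .r (t j))).1 := by
    funext i
    obtain ⟨i', h1, h2⟩ := restrict (by omega) 0 (t0 k) h hp (fun l => (t l).1 i) t (lv k i)
      (by rcases i with i | i <;> simp [lv]) (by
        rcases i with i | i <;> simp only [lv, Sum.elim_inl, Sum.elim_inr] <;> omega)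
      (fun j => ⟨i, rfl, rfl⟩)
    rw [lv_inj k h1] at h2
    exact h2.symm
  rw [this]
  exact (ta (t0 k) _).2

open Classical in
noncomputable def FF (k : ℕ) {m : Type} (f : (m → SignType) → SignType) (t : m → TT k) : TT k :=
  if h : R k (fun i => f fun l => (t l).1 i) then ⟨_, h⟩ else t0 k

noncomputable def ext (k : ℕ) {m : Type} (f : (m → SignType) → SignType) (v : m → VV k) : VV k :=
  Phi (sg k) 0 (t0 k) (f fun l => al 0 (v l)) (FF k f fun l => ta (t0 k) (v l)) (v '' Sup f)

theorem ext_pol (k : ℕ) {m : Type} [Finite m] (f : (m → SignType) → SignType) (h : Pres k f) :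
    IsPol (EE k) (ext k f) := by
  intro v w hvw
  refine phi_adj (by omega) 0 (t0 k) (Sup f) h.ne f (FF k f) h.dep ?_ ?_ v w hvw
  · intro x y hxy
    have : (fun i => f fun l => (x l).1 i) = fun i => f fun l => (y l).1 i :=
      funext fun i => h.dep _ _ fun l hl => by rw [hxy l hl]
    apply Subtype.ext
    simp only [FF, dif_pos ((pres_iff k f).1 h _)]
    exact this
  · intro x y L hxy
    obtain ⟨l0, hl0⟩ := h.ne
    obtain ⟨i, hi, -⟩ := hxy l0 hl0
    refine ⟨i, hi, ?_⟩
    simp only [FF, dif_pos ((pres_iff k f).1 h _)]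
    refine h.dep _ _ fun l hl => ?_
    obtain ⟨j, hj, h2⟩ := hxy l hl
    rw [lv_inj k (hi.trans hj.symm)]
    exact h2

theorem ts_succ (k : ℕ) : TS (EE (k + 1)) (k + 4) := by
  refine ⟨ext (k + 1) gts, ext_pol _ _ (gts_pres k), fun x y hxy => ?_⟩
  have hs : Sup (gts (m := Fin (k + 4))) = Set.univ := by
    apply Set.eq_univ_of_forall
    intro l
    refine (gts_one _).2 ⟨⟨l, if_pos rfl⟩, ?_⟩
    rintro ⟨j, hj⟩
    split_ifs at hj
  unfold ext
  rw [hs, Set.image_univ, Set.image_univ, hxy, gts_range _ _ (range_comp_eq hxy (al 0))]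
  congr 1
  apply Subtype.ext
  simp only [FF, dif_pos ((pres_iff _ _).1 (gts_pres k) _)]
  exact funext fun i => gts_range _ _ (range_comp_eq hxy fun v => (ta (t0 (k + 1)) v).1 i)

theorem not_ts (k : ℕ) : ¬ TS (EE k) (k + 4) := by
  rintro ⟨h, hp, hs⟩
  exact no_ts k (res h) (res_pres h hp) fun x y hxy =>
    congrArg (al 0) (hs _ _ (range_comp_eq hxy V.d))

theorem ext_comp (k : ℕ) {m m' : Type} [Finite m] (f : (m → SignType) → SignType) {k' : ℕ}
    (h : Pres k' f) (π : m → m') (v : m' → VV k) :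
    ext k (fun x : m' → SignType => f fun l => x (π l)) v = ext k f (fun l => v (π l)) := by
  unfold ext
  rw [h.sup_comp π, Set.image_image]
  rfl

theorem chain : ∃ (k : ℕ → ℕ) (G : (i : ℕ) → Digraph (Fin (k i))),
    (∀ i, 0 < k i) ∧ ∀ i, PpC (k i) (G i) (k (i + 1)) (G (i + 1)) ∧
      ¬ PpC (k (i + 1)) (G (i + 1)) (k i) (G i) := by
  choose n hn using fun k => Finite.exists_equiv_fin (VV k)
  let e := fun k => (hn k).some
  refine ⟨n, fun k => toDi (EE k) (e k), fun k => Fin.pos (e k (.d 0)), fun k => ⟨?_, ?_⟩⟩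
  · have : Nonempty (VV k) := ⟨.d 0⟩
    refine ppc_of_crit (EE k) (EE (k + 1)) (e k) (e (k + 1))
      (fun x => ext (k + 1) (res x) id) fun h hp => ?_
    have h1 := res_pres h hp
    have e1 := ext_comp (k + 1) (res h) h1 (fun e => e.1.1) id
    have e2 := ext_comp (k + 1) (res h) h1 (fun e => e.1.2) id
    have := ext_pol (k + 1) (res h) h1.succ (fun e => e.1.1) (fun e => e.1.2) fun e => e.2
    exact e1 ▸ e2 ▸ this
  · intro h
    exact not_ts k ((ts_toDi _ _).1 (((ts_toDi _ _).2 (ts_succ k)).of_ppc h))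

end Pool.Agent.H54.PPE
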