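import Mathlib

namespace Pool.Agent.H54.Plast

def Dig (b : ℂ) (M : ℕ) : ℕ → ℂ → Prop
  | 0, x => x = 0
  | m + 1, x => ∃ y, ∃ c : ℕ, c ≤ M ∧ Dig b M m y ∧ x = b * y + c

lemma dig_zero (b : ℂ) (M : ℕ) : ∀ m, Dig b M m 0
  | 0 => rfl
  | m + 1 => ⟨0, 0, by omega, dig_zero b M m, by simp⟩

lemma dig_add {b : ℂ} {M : ℕ} (l : ℕ) : ∀ (m : ℕ) (z : ℂ),
    Dig b M (m + l) z ↔ ∃ x y, Dig b M m x ∧ Dig b M l y ∧ z = x + b ^ m * y
  | 0, z => by simp [Dig]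
  | m + 1, z => by
    rw [show m + 1 + l = (m + l) + 1 by ring]
    constructor
    · rintro ⟨y, c, hc, h, rfl⟩
      obtain ⟨x, w, h1, h2, rfl⟩ := (dig_add l m y).1 h
      exact ⟨_, w, ⟨x, c, hc, h1, rfl⟩, h2, by ring⟩
    · rintro ⟨_, w, ⟨x, c, hc, h1, rfl⟩, h2, rfl⟩
      exact ⟨_, c, hc, (dig_add l m _).2 ⟨x, w, h1, h2, rfl⟩, by ring⟩

lemma dig_pad {b : ℂ} {M m : ℕ} {x : ℂ} (h : Dig b M m x) : Dig b M (m + 1) x :=
  (dig_add 1 m x).2 ⟨x, 0, h, dig_zero _ _ _, by simp⟩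

lemma weave {g : ℂ} : ∀ (m : ℕ) (x y : ℂ), Dig (g ^ 2) 1 m x → Dig (g ^ 2) 1 m y → Dig g 1 (2 * m) (x + g * y)
  | 0, x, y, h1, h2 => by simp only [Dig] at *; simp [h1, h2]
  | m + 1, _, _, ⟨x, a, ha, h1, rfl⟩, ⟨y, c, hc, h2, rfl⟩ =>
    ⟨_, a, ha, ⟨_, c, hc, weave m x y h1 h2, rfl⟩, by ring⟩

abbrev St := ℤ × ℤ × ℤ

def val (g : ℂ) (r : St) : ℂ := r.1 + r.2.1 * g + r.2.2 * g ^ 2

def bit (r : St) (c0 c1 : ℕ) : ℕ :=
  if 29206608 ≤ (r.2.1 + c0) * 1000000 + (r.2.1 + r.2.2 + c1) * 1324718 + (r.1 + r.2.2) * 1754878 then 1 else 0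

def st (r : St) (c0 c1 : ℕ) : St :=
  (r.2.1 + c0 - 5 * bit r c0 c1, r.2.1 + r.2.2 + c1 - 9 * bit r c0 c1, r.1 + r.2.2 - 7 * bit r c0 c1)

def mask : ℕ := 0x8001800100000000000000000000000000000000000000000000000000008000c001c003c007c003c0000000000000000000000000000000000000008000c001c003e007e007f00ff007f000e00000000000000000000000000000008001c003c003e007f00ff01ff81ff807f801f8000000000000000000000000018001c003c007e00ff00ff81ff83ffc0ffc07fc01fc007c00000000000000000100038007c007e00ff01ff83ff83ffc1ffe0ffe07ff01fe007c001c000000000200078007c00fe01ff03ff83ff83ffc1ffe0fff07fe03fe01fc007800300000000006000f801fc01fe03ff07ff83ffc1ffe1ffe0ffe07fc03f801f000700020000008000e001f803fe07ff07ff83ffc1ffe1ffe0ffc07f803f801f000e000400000000000003e003f803fe03ff03ffc1ffe1ffc0ffc07f803f003e001e000c0000000000000000000001f801fe01ff81ffc0ffc0ff807f003f003e001c0008000000000000000000000000007800fe00ff80ff807f007f003e003c0018000800000000000000000000000000000000003e003f803f003e003c003c001800000000000000000000000000000000000000000000001e001e001c0018001000000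

def mem (r : St) : Bool :=
  decide (-3 ≤ r.1 ∧ r.1 < 13 ∧ -3 ≤ r.2.1 ∧ r.2.1 < 13 ∧ -4 ≤ r.2.2 ∧ r.2.2 < 12) &&
    mask.testBit ((r.1 + 3) * 256 + (r.2.1 + 3) * 16 + (r.2.2 + 4)).toNat

def fl : ℕ → St → St
  | 0, r => r
  | t + 1, r => fl t (st r 0 0)

def ok (r : St) : Bool :=
  !mem r || (decide (fl 16 r = (0, 0, 0)) && (List.range 3).all fun a => (List.range 3).all fun c => mem (st r a c))

lemma all_ok : ((List.range 16).all fun x => (List.range 16).all fun y => (List.range 16).all fun z =>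
    ok ((x : ℤ) - 3, (y : ℤ) - 3, (z : ℤ) - 4)) = true := by decide +kernel

lemma closed {r : St} (h : mem r = true) :
    fl 16 r = (0, 0, 0) ∧ ∀ a ≤ 2, ∀ c ≤ 2, mem (st r a c) = true := by
  obtain ⟨x, y, z⟩ := r
  have hb : -3 ≤ x ∧ x < 13 ∧ -3 ≤ y ∧ y < 13 ∧ -4 ≤ z ∧ z < 12 := by
    simp only [mem, Bool.and_eq_true, decide_eq_true_eq] at h; exact h.1
  have := all_ok
  simp only [List.all_eq_true, List.mem_range] at this
  have := this (x + 3).toNat (by omega) (y + 3).toNat (by omega) (z + 4).toNat (by omega)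
  rw [show (((x + 3).toNat : ℕ) : ℤ) - 3 = x by omega, show (((y + 3).toNat : ℕ) : ℤ) - 3 = y by omega,
    show (((z + 4).toNat : ℕ) : ℤ) - 4 = z by omega] at this
  simp only [ok, h, Bool.not_true, Bool.false_or, Bool.and_eq_true, decide_eq_true_eq, List.all_eq_true,
    List.mem_range] at this
  exact ⟨this.1, fun a ha c hc => this.2 a (by omega) c (by omega)⟩

variable {g : ℂ}

lemma bit_le (r : St) (a c : ℕ) : bit r a c ≤ 1 := by unfold bit; split_ifs <;> omega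

lemma val_st (hg : g ^ 3 = g + 1) (r : St) (a c : ℕ) :
    val g (st r a c) + g ^ 12 * bit r a c = g ^ 2 * val g r + a + c * g := by
  have e : g ^ 12 = 5 + 9 * g + 7 * g ^ 2 := by
    linear_combination (g ^ 9 + g ^ 7 + g ^ 6 + g ^ 5 + 2 * g ^ 4 + 2 * g ^ 3 + 3 * g ^ 2 + 4 * g + 5) * hg
  simp only [val, st]; push_cast; rw [e]
  linear_combination (-(r.2.1 : ℂ) - r.2.2 * g) * hg

lemma core (hg : g ^ 3 = g + 1) : ∀ (n : ℕ) (x : ℂ), Dig g 2 (2 * n) x →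
    ∃ O r, mem r = true ∧ Dig (g ^ 2) 1 n O ∧ x = g ^ 12 * O + val g r
  | 0, x, h => ⟨0, (0, 0, 0), by decide +kernel, rfl, by simpa [val, Dig] using h⟩
  | n + 1, _, ⟨_, a, ha, ⟨y, c, hc, h, rfl⟩, rfl⟩ => by
    obtain ⟨O, r, h1, h2, rfl⟩ := core hg n y h
    exact ⟨_, st r a c, (closed h1).2 a ha c hc, ⟨O, bit r a c, bit_le _ _ _, h2, rfl⟩, by
      linear_combination -val_st hg r a c⟩

lemma feed (hg : g ^ 3 = g + 1) : ∀ (t n : ℕ) (O : ℂ) (r : St), Dig (g ^ 2) 1 n O →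
    ∃ O2, Dig (g ^ 2) 1 (n + t) O2 ∧ (g ^ 2) ^ t * (g ^ 12 * O + val g r) = g ^ 12 * O2 + val g (fl t r)
  | 0, n, O, r, h => ⟨O, h, by simp [fl]⟩
  | t + 1, n, O, r, h => by
    obtain ⟨O2, h1, h2⟩ := feed hg t (n + 1) _ (st r 0 0) ⟨O, bit r 0 0, bit_le _ _ _, h, rfl⟩
    refine ⟨O2, by rwa [show n + (t + 1) = n + 1 + t by ring], ?_⟩
    have := val_st hg r 0 0
    rw [fl, ← h2]; push_cast at this
    linear_combination -(g ^ 2) ^ t * this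

lemma conv (hg : g ^ 3 = g + 1) (n : ℕ) (x : ℂ) (h : Dig g 2 (2 * n) x) : Dig (g ^ 2) 1 (n + 16) (g ^ 20 * x) := by
  obtain ⟨O, r, h1, h2, rfl⟩ := core hg n x h
  obtain ⟨O2, h3, h4⟩ := feed hg 16 n O r h2
  have g0 : g ≠ 0 := by rintro rfl; simp at hg
  rw [(closed h1).1] at h4
  have : g ^ 20 * (g ^ 12 * O + val g r) = O2 := by
    apply mul_left_cancel₀ (pow_ne_zero 12 g0)
    simp only [val] at h4 ⊢; push_cast at h4
    linear_combination h4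
  rwa [this]

lemma decomp (hg : g ^ 3 = g + 1) (w : ℂ) (h : Dig g 2 68 w) : ∃ Z0 Z1 Y0 Y1, Dig (g ^ 2) 1 10 Z0 ∧ Dig (g ^ 2) 1 24 Z1 ∧
    Dig (g ^ 2) 1 28 Y0 ∧ Dig (g ^ 2) 1 6 Y1 ∧
    w * g ^ 68 = g ^ 48 * Z0 + g ^ 68 * (Z1 + g ^ 13 * Y0) + (g ^ 68) ^ 2 * (g * Y1) ∧
    (w = 0 → Z0 = 0 ∧ Z1 = 0 ∧ Y0 = 0 ∧ Y1 = 0) := by
  by_cases w0 : w = 0
  · exact ⟨0, 0, 0, 0, dig_zero _ _ _, dig_zero _ _ _, dig_zero _ _ _, dig_zero _ _ _, by simp [w0], by simp⟩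
  obtain ⟨L, H, h1, h2, rfl⟩ := (dig_add 34 34 w).1 h
  obtain ⟨Z0, Z1, a1, a2, a3⟩ := (dig_add 23 10 _).1 (conv hg 17 L h1)
  have h3 : Dig g 2 35 (g * H) := ⟨H, 0, by omega, h2, by simp⟩
  obtain ⟨Y0, Y1, b1, b2, b3⟩ := (dig_add 6 28 _).1 (conv hg 18 _ (dig_pad h3))
  exact ⟨Z0, Z1, Y0, Y1, a1, dig_pad a2, b1, b2, by linear_combination g ^ 48 * a3 + g ^ 81 * b3, fun e => absurd e w0⟩

lemma glue {Z0 Z1 Y0 Y1 : ℂ} (a1 : Dig (g ^ 2) 1 10 Z0) (a2 : Dig (g ^ 2) 1 24 Z1) (b1 : Dig (g ^ 2) 1 28 Y0)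
    (b2 : Dig (g ^ 2) 1 6 Y1) : Dig g 1 68 (g * Y1 + (Z1 + g ^ 13 * Y0) + g ^ 48 * Z0) := by
  have := weave 34 _ _ ((dig_add 10 24 _).2 ⟨_, _, a2, a1, rfl⟩) ((dig_add 28 6 _).2 ⟨_, _, b2, b1, rfl⟩)
  rwa [show Z1 + (g ^ 2) ^ 24 * Z0 + g * (Y1 + (g ^ 2) ^ 6 * Y0) = g * Y1 + (Z1 + g ^ 13 * Y0) + g ^ 48 * Z0 by ring] at this

end Pool.Agent.H54.Plast
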