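import Mathlib

set_option autoImplicit false

namespace Pool.Agent.H54.Pot

open Finset Matrix

section aut
variable {α S : Type} (w : S → α → ℤ) (nx : S → α → S)

def run : S → List α → ℤ
  | _, [] => 1
  | s, a :: l => w s a * run (nx s a) l

def picks (a : α) : List α → List (α × List α)
  | [] => []
  | b :: t => (b, a :: t) :: (picks a t).map fun p => (p.1, b :: p.2)

def tot : ℕ → S → List α → ℤ
  | 0, _, _ => 1
  | _ + 1, _, [] => 0
  | n + 1, s, a :: t => (((a, t) :: picks a t).map fun p =>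
      if w s p.1 = 0 then 0 else w s p.1 * tot n (nx s p.1) p.2).sum

theorem sum_picks (a : α) : ∀ (n : ℕ) (y : Fin n → α) (G : α × List α → ℤ),
    ∑ q, G (y q, List.ofFn (Function.update y q a)) = ((picks a (List.ofFn y)).map G).sum
  | 0, _, _ => by simp [picks]
  | n + 1, y, G => by
    rw [Fin.sum_univ_succ, List.ofFn_succ (f := y), picks, List.map_cons, List.sum_cons,
      List.map_map, ← sum_picks a n]
    congr 1
    · simp [List.ofFn_succ]
    · refine sum_congr rfl fun q _ => ?_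
      simp only [Function.comp, List.ofFn_succ]
      have : (fun i : Fin n => Function.update y q.succ a i.succ) =
          Function.update (fun i => y i.succ) q a := by
        funext i
        simp [Function.update_apply]
      rw [this, Function.update_of_ne (Fin.succ_ne_zero q).symm]

theorem sum_run : ∀ (n : ℕ) (s : S) (x : Fin n → α),
    ∑ σ : Equiv.Perm (Fin n), run w nx s (List.ofFn fun i => x (σ i)) = tot w nx n s (List.ofFn x)
  | 0, _, _ => by simp [run, tot]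
  | n + 1, s, x => by
    rw [← Equiv.Perm.decomposeFin.symm.sum_comp, Fintype.sum_prod_type, List.ofFn_succ (f := x), tot,
      List.map_cons, List.sum_cons, ← sum_picks, Fin.sum_univ_succ]
    have h : ∀ a b : ℤ, (if a = 0 then 0 else a * b) = a * b := fun a b => by
      split_ifs with h <;> simp [h]
    simp only [h, List.ofFn_succ, run, Equiv.Perm.decomposeFin_symm_apply_zero,
      Equiv.Perm.decomposeFin_symm_apply_succ, ← mul_sum, ← sum_run n]
    congr 1
    refine sum_congr rfl fun q _ => congrArg _ (sum_congr rfl fun e _ => congrArg _ ?_)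
    congr 1
    funext i
    by_cases h : e i = q
    · simp [h]
    · rw [Function.update_of_ne h, Equiv.swap_apply_of_ne_of_ne (Fin.succ_ne_zero _)
        fun h' => h (Fin.succ_injective _ h')]

def totK (k : S → List α → ℤ) : ℕ → S → List α → ℤ
  | 0, s, l => k s l
  | _ + 1, _, [] => 0
  | n + 1, s, a :: t => (((a, t) :: picks a t).map fun p =>
      if w s p.1 = 0 then 0 else w s p.1 * totK k n (nx s p.1) p.2).sum

theorem tot_eq (m : ℕ) : ∀ (n : ℕ) (s : S) (l : List α),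
    tot w nx (m + n) s l = totK w nx (tot w nx m) n s l
  | 0, _, _ => rfl
  | _ + 1, _, [] => rfl
  | n + 1, s, a :: t => by
    rw [← add_assoc, tot, totK]
    simp only [tot_eq m n]

end aut

abbrev V3 := ℤ × ℤ × ℤ

def dot (a b : V3) : ℤ := a.1 * b.1 + a.2.1 * b.2.1 + a.2.2 * b.2.2

def cr (a b : V3) : V3 :=
  (a.2.1 * b.2.2 - a.2.2 * b.2.1, a.2.2 * b.1 - a.1 * b.2.2, a.1 * b.2.1 - a.2.1 * b.1)

def vs : List V3 := [(1, 0, 0), (0, 1, 0), (0, 0, 1), (1, 1, 0), (1, -1, 0), (1, 0, 1), (1, 0, -1),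
  (0, 1, 1), (0, 1, -1)]

def wP : List V3 → V3 → ℤ
  | [], _ => 0
  | b :: _, a => dot a b

def wD : ℕ × V3 → V3 → ℤ
  | (2, b), a => dot b a * dot b a
  | _, _ => 1

def nD : ℕ × V3 → V3 → ℕ × V3
  | (0, _), a => (1, a)
  | (1, b), a => (2, cr b a)
  | (_, b), _ => (0, b)

def DD (a b c : V3) : ℤ := dot (cr a b) c * dot (cr a b) c

theorem DD1 (a b c : V3) : DD a b c = DD b a c := by
  simp only [DD, dot, cr]
  ring

theorem DD2 (a b c : V3) : DD a b c = DD a c b := by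
  simp only [DD, dot, cr]
  ring

theorem ite_mul0 (a b : ℤ) : (if a = 0 then 0 else a * b) = a * b := by
  split_ifs with h <;> simp [h]

theorem tot3 (z a b c : V3) : tot wD nD 3 (0, z) [a, b, c] = 6 * DD a b c := by
  simp only [tot, picks, List.map, List.sum_cons, List.sum_nil, ite_mul0, wD, nD, ← DD.eq_1]
  simp only [DD1, DD2]
  ring

def k3 : ℕ × V3 → List V3 → ℤ
  | (0, _), [a, b, c] => 6 * DD a b c
  | s, l => tot wD nD 3 s l

theorem k3_eq : tot wD nD 3 = k3 := by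
  funext s l
  unfold k3
  split
  · exact tot3 _ _ _ _
  · rfl

def k6 : ℕ × V3 → List V3 → ℤ
  | (0, _), [a, b, c, d, e, f] => 72 * (DD a b c * DD d e f + DD a b d * DD c e f +
      DD a b e * DD c d f + DD a b f * DD c d e + DD a c d * DD b e f + DD a c e * DD b d f +
      DD a c f * DD b d e + DD a d e * DD b c f + DD a d f * DD b c e + DD a e f * DD b c d)
  | s, l => tot wD nD 6 s l

theorem k6_eq : tot wD nD 6 = k6 := by
  funext s l
  unfold k6
  split
  · rw [tot_eq wD nD 3 3, k3_eq]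
    simp only [totK, picks, List.map, List.sum_cons, List.sum_nil, ite_mul0, wD, nD, ← DD.eq_1, k3]
    simp only [DD1, DD2]
    ring
  · rfl

theorem totD : tot wD nD 9 (0, (0, 0, 0)) vs = 953856 := by
  rw [tot_eq wD nD 6 3, k6_eq]
  decide +kernel

def kP : List V3 → List V3 → ℤ
  | [x, y, z], [a, b, c] => dot a x * (dot b y * dot c z + dot c y * dot b z) +
      dot b x * (dot a y * dot c z + dot c y * dot a z) +
      dot c x * (dot b y * dot a z + dot a y * dot b z)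
  | s, l => tot wP (fun s _ => s.tail) 3 s l

theorem kP_eq : tot wP (fun s _ => s.tail) 3 = kP := by
  funext s l
  unfold kP
  split
  · simp only [tot, picks, List.map, List.sum_cons, List.sum_nil, ite_mul0]
    simp only [wP, List.tail]
    ring
  · rfl

theorem totP : tot wP (fun s _ => s.tail) 9 vs vs = 4320 := by
  rw [tot_eq wP _ 3 6, kP_eq]
  decide +kernel

theorem rayleigh {n : Type} [Fintype n] [DecidableEq n] (M : Matrix n n ℝ) (hM : M.IsHermitian)
    (c : ℝ) (h : ∀ (μ : ℝ) (y : n → ℝ), y ≠ 0 → M *ᵥ y = μ • y → μ ≤ c) (u : n → ℝ) :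
    u ⬝ᵥ (M *ᵥ u) ≤ c * (u ⬝ᵥ u) := by
  have hN : (c • (1 : Matrix n n ℝ) - M).IsHermitian := by
    refine Matrix.IsHermitian.sub ?_ hM
    simp [Matrix.IsHermitian]
  have : (c • (1 : Matrix n n ℝ) - M).PosSemidef := by
    refine hN.posSemidef_iff_eigenvalues_nonneg.2 fun i => ?_
    have h1 := hN.mulVec_eigenvectorBasis i
    have h2 : ⇑(hN.eigenvectorBasis i) ≠ 0 := fun e =>
      hN.eigenvectorBasis.orthonormal.ne_zero i (by ext j; exact congrFun e j)
    rw [Matrix.sub_mulVec, Matrix.smul_mulVec, Matrix.one_mulVec] at h1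
    have := h (c - hN.eigenvalues i) _ h2 (by rw [sub_smul, ← h1, sub_sub_cancel])
    simpa using this
  have := this.dotProduct_mulVec_nonneg u
  rw [Matrix.sub_mulVec, Matrix.smul_mulVec, Matrix.one_mulVec, dotProduct_sub, dotProduct_smul,
    star_trivial, smul_eq_mul] at this
  linarith

theorem sum3 {n : ℕ} (G : Fin 3 → Fin 3 → Fin 3 → ℝ) (H : (Fin n → Fin 3) → ℝ) :
    ∑ f : Fin (n + 3) → Fin 3, G (f 0) (f 1) (f 2) * H (fun i => f i.succ.succ.succ) =
      (∑ a, ∑ b, ∑ c, G a b c) * ∑ g, H g := by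
  have e : ∀ (m : ℕ) (F : (Fin (m + 1) → Fin 3) → ℝ),
      ∑ f, F f = ∑ a, ∑ g : Fin m → Fin 3, F (Fin.cons a g) := fun m F => by
    rw [← (Fin.consEquiv fun _ => Fin 3).sum_comp, Fintype.sum_prod_type]
    rfl
  simp only [e (n + 2), e (n + 1), e n, sum_mul]
  simp only [mul_sum]
  rfl

theorem sum9 (G1 G2 G3 : Fin 3 → Fin 3 → Fin 3 → ℝ) :
    ∑ f : Fin 9 → Fin 3, G1 (f 0) (f 1) (f 2) * (G2 (f 3) (f 4) (f 5) * G3 (f 6) (f 7) (f 8)) =
      (∑ a, ∑ b, ∑ c, G1 a b c) * ((∑ a, ∑ b, ∑ c, G2 a b c) * ∑ a, ∑ b, ∑ c, G3 a b c) := by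
  have h3 := sum3 (n := 0) G3 fun _ => 1
  have h2 := sum3 (n := 3) G2 fun f => G3 (f 0) (f 1) (f 2)
  have h1 := sum3 (n := 6) G1 fun f => G2 (f 0) (f 1) (f 2) * G3 (f 3) (f 4) (f 5)
  simp only [mul_one, univ_unique, sum_singleton] at h3
  rw [h3] at h2
  exact h1.trans (congrArg _ h2)

def eps : Fin 3 → Fin 3 → Fin 3 → ℝ :=
  ![![![0, 0, 0], ![0, 0, 1], ![0, -1, 0]], ![![0, 0, -1], ![0, 0, 0], ![1, 0, 0]],
    ![![0, 1, 0], ![-1, 0, 0], ![0, 0, 0]]]

def co (a : V3) : Fin 3 → ℝ := ![a.1, a.2.1, a.2.2]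

theorem eps_det (x y z : V3) : ∑ a, ∑ b, ∑ c, eps a b c * (co x a * co y b * co z c) =
    (dot (cr x y) z : ℤ) := by
  simp [Fin.sum_univ_succ, eps, co, dot, cr]
  ring

theorem eps_sq : ∑ a, ∑ b, ∑ c, eps a b c * eps a b c = 6 := by
  simp [Fin.sum_univ_succ, eps]
  norm_num

def xv (i : Fin 9) : V3 := vs.getD i (0, 0, 0)

theorem ofFn_xv : List.ofFn xv = vs := by decide

def VV : Matrix (Fin 3) (Fin 9) ℝ := fun k i => co (xv i) k

theorem gram (i j : Fin 9) : (VVᴴ * VV) i j = (dot (xv i) (xv j) : ℤ) := by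
  simp [VV, Matrix.mul_apply, Fin.sum_univ_succ, co, dot, add_assoc]

theorem per_eq : (VVᴴ * VV).permanent = 4320 := by
  have := (sum_run wP (fun s _ => s.tail) 9 vs xv).trans (ofFn_xv ▸ totP)
  rw [← show ((4320 : ℤ) : ℝ) = 4320 by norm_num, ← this, Int.cast_sum]
  refine sum_congr rfl fun σ _ => ?_
  simp only [gram, ← Int.cast_prod]
  rw [← ofFn_xv]
  simp [Fin.prod_univ_succ, List.ofFn_succ, run, wP]

def uu (σ : Equiv.Perm (Fin 9)) : ℝ :=
  (dot (cr (xv (σ 0)) (xv (σ 1))) (xv (σ 2)) * (dot (cr (xv (σ 3)) (xv (σ 4))) (xv (σ 5)) *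
    dot (cr (xv (σ 6)) (xv (σ 7))) (xv (σ 8))) : ℤ)

theorem uu_sq : uu ⬝ᵥ uu = 953856 := by
  have := (sum_run wD nD 9 (0, (0, 0, 0)) xv).trans (ofFn_xv ▸ totD)
  rw [← show ((953856 : ℤ) : ℝ) = 953856 by norm_num, ← this, Int.cast_sum]
  refine sum_congr rfl fun σ _ => ?_
  simp only [uu, ← Int.cast_mul, Int.cast_inj]
  simp [List.ofFn_succ, run, wD, nD]
  ring

theorem main : ∃ A : Matrix (Fin 9) (Fin 9) ℝ, A.PosSemidef ∧
    ∃ (μ : ℝ) (y : Equiv.Perm (Fin 9) → ℝ), y ≠ 0 ∧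
      (Matrix.of fun σ τ : Equiv.Perm (Fin 9) => ∏ i, A (σ i) (τ i)) *ᵥ y = μ • y ∧
      A.permanent < μ := by
  refine ⟨VVᴴ * VV, Matrix.posSemidef_conjTranspose_mul_self VV, ?_⟩
  by_contra h
  push Not at h
  let W : Matrix (Fin 9 → Fin 3) (Equiv.Perm (Fin 9)) ℝ := Matrix.of fun f σ => ∏ i, VV (f i) (σ i)
  have hW : (Matrix.of fun σ τ : Equiv.Perm (Fin 9) => ∏ i, (VVᴴ * VV) (σ i) (τ i)) = Wᴴ * W := by
    ext σ τ
    simp only [Matrix.of_apply, Matrix.mul_apply, Matrix.conjTranspose_apply, star_trivial, W,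
      Fintype.prod_sum, prod_mul_distrib]
  rw [hW, per_eq] at h
  have h1 := rayleigh _ (Matrix.isHermitian_conjTranspose_mul_self W) _ h uu
  let E : (Fin 9 → Fin 3) → ℝ := fun f =>
    eps (f 0) (f 1) (f 2) * (eps (f 3) (f 4) (f 5) * eps (f 6) (f 7) (f 8))
  have h2 : ∑ f, E f ^ 2 = 216 := by
    have := sum9 (fun a b c => eps a b c * eps a b c) (fun a b c => eps a b c * eps a b c)
      (fun a b c => eps a b c * eps a b c)
    rw [eps_sq] at this
    rw [show (216 : ℝ) = 6 * (6 * 6) by norm_num, ← this]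
    exact sum_congr rfl fun f _ => by simp only [E]; ring
  have h3 : E ᵥ* W = uu := by
    funext σ
    simp only [uu, Int.cast_mul, ← eps_det, ← sum9, Matrix.vecMul, dotProduct]
    refine sum_congr rfl fun f _ => ?_
    simp only [E, W, VV, Fin.prod_univ_succ, Fin.prod_univ_zero, Matrix.of_apply]
    simp
    ring
  have h4 := sum_mul_sq_le_sq_mul_sq univ E (W *ᵥ uu)
  have h5 : ∑ f, E f * (W *ᵥ uu) f = 953856 := by
    rw [← uu_sq, ← dotProduct, Matrix.dotProduct_mulVec, h3]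
  have h6 : ∑ f, (W *ᵥ uu) f ^ 2 = uu ⬝ᵥ ((Wᴴ * W) *ᵥ uu) := by
    rw [← Matrix.mulVec_mulVec, Matrix.dotProduct_mulVec, Matrix.conjTranspose_eq_transpose_of_trivial,
      Matrix.vecMul_transpose]
    simp only [dotProduct, sq]
  rw [h5, h2, h6] at h4
  rw [uu_sq] at h1
  linarith

end Pool.Agent.H54.Pot
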