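import Mathlib

set_option autoImplicit false
open Finset

namespace Pool.Agent.H54.Pow4

lemma sqf_count (p : ℕ) (hp : 2 ≤ p) :
    (p : ℝ) / 24 ≤ (((Ico 1 p).filter Squarefree).card : ℝ) := by
  classical
  have h1 : (Ico 1 p).filter (fun e => ¬ Squarefree e) ⊆
      (Ico 2 p).biUnion (fun q => (Ioc 0 (p - 1)).filter (fun e => q ^ 2 ∣ e)) := by
    intro e he
    obtain ⟨h2, h3⟩ := mem_filter.mp he
    obtain ⟨h4, h5⟩ := mem_Ico.mp h2
    rw [Nat.squarefree_iff_prime_squarefree] at h3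
    push Not at h3
    obtain ⟨q, hq, hd⟩ := h3
    have h6 := Nat.le_of_dvd (by omega) hd
    have h7 := hq.two_le
    refine mem_biUnion.mpr ⟨q, mem_Ico.mpr ⟨h7, by nlinarith⟩, mem_filter.mpr ⟨mem_Ioc.mpr ⟨by omega, by omega⟩, ?_⟩⟩
    rwa [sq]
  have h2 : (((Ico 1 p).filter (fun e => ¬ Squarefree e)).card : ℝ) ≤
      ∑ q ∈ Ico 2 p, ((p : ℝ) - 1) * ((q : ℝ) ^ 2)⁻¹ := by
    refine le_trans (Nat.cast_le.mpr ((card_le_card h1).trans card_biUnion_le)) ?_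
    push_cast
    refine sum_le_sum fun q _ => ?_
    rw [Nat.Ioc_filter_dvd_card_eq_div]
    refine Nat.cast_div_le.trans (le_of_eq ?_)
    rw [Nat.cast_sub (by omega)]; push_cast; ring
  have h3 : ∑ q ∈ Ico 2 p, ((q : ℝ) ^ 2)⁻¹ ≤ 11 / 12 := by
    have h4 : Ico 2 p ⊆ insert 2 (Ioo 2 p) := by
      intro q hq
      simp only [mem_Ico, mem_insert, mem_Ioo] at *
      omega
    refine (sum_le_sum_of_subset_of_nonneg h4 (fun _ _ _ => by positivity)).trans ?_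
    rw [sum_insert (by simp)]
    have := sum_Ioo_inv_sq_le (α := ℝ) 2 p
    norm_num at this ⊢
    linarith
  rw [← mul_sum] at h2
  have h4 := card_filter_add_card_filter_not (s := Ico 1 p) Squarefree
  rw [Nat.card_Ico] at h4
  have h5 : (((Ico 1 p).filter Squarefree).card : ℝ) +
      (((Ico 1 p).filter (fun e => ¬ Squarefree e)).card : ℝ) = p - 1 := by
    rw [← Nat.cast_add, h4, Nat.cast_sub (by omega)]; simp
  have h6 : (2 : ℝ) ≤ p := by exact_mod_cast hp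
  nlinarith

lemma ndvd_count (p B : ℕ) (hp : 2 ≤ p) :
    B ≤ 2 * ((Ioc 0 B).filter (fun b => ¬ p ∣ b)).card := by
  have h1 := card_filter_add_card_filter_not (s := Ioc 0 B) (fun b => p ∣ b)
  rw [Nat.Ioc_filter_dvd_card_eq_div, Nat.card_Ioc] at h1
  have h2 : B / p ≤ B / 2 := Nat.div_le_div_left hp (by norm_num)
  omega

lemma kernel_eq {s t u v : ℕ} (hs : Squarefree s) (ht : Squarefree t) (hu : u ≠ 0) (hv : v ≠ 0)
    (h : s * u ^ 2 = t * v ^ 2) : s = t := by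
  apply Nat.eq_of_factorization_eq hs.ne_zero ht.ne_zero
  intro q
  have h1 := congrArg (fun n => n.factorization q) h
  simp only [Nat.factorization_mul hs.ne_zero (pow_ne_zero 2 hu),
    Nat.factorization_mul ht.ne_zero (pow_ne_zero 2 hv), Nat.factorization_pow, Finsupp.add_apply,
    Finsupp.smul_apply, smul_eq_mul] at h1
  have h2 := hs.natFactorization_le_one q
  have h3 := ht.natFactorization_le_one q
  omega

lemma pe_eq {p e p' e' : ℕ} (hp : p.Prime) (hp' : p'.Prime) (he : 0 < e) (he' : 0 < e')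
    (h1 : e < p) (h2 : e' < p') (h : p * e = p' * e') : p = p' ∧ e = e' := by
  have h3 : p = p' := by
    rcases (Nat.Prime.dvd_mul hp).mp (h ▸ dvd_mul_right p e) with h4 | h4
    · exact (Nat.prime_dvd_prime_iff_eq hp hp').mp h4
    · rcases (Nat.Prime.dvd_mul hp').mp (h.symm ▸ dvd_mul_right p' e') with h5 | h5
      · exact ((Nat.prime_dvd_prime_iff_eq hp' hp).mp h5).symm
      · have := Nat.le_of_dvd he' h4
        have := Nat.le_of_dvd he h5
        omega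
  subst h3
  exact ⟨rfl, Nat.eq_of_mul_eq_mul_left hp.pos h⟩

lemma sqf_pe {p e : ℕ} (hp : p.Prime) (he : Squarefree e) (h1 : e < p) : Squarefree (p * e) := by
  rw [Nat.squarefree_mul_iff]
  refine ⟨(Nat.Prime.coprime_iff_not_dvd hp).mpr fun h => ?_, hp.squarefree, he⟩
  have := Nat.le_of_dvd (Nat.pos_of_ne_zero he.ne_zero) h
  omega

theorem main (C : ℝ) : ∀ᶠ n : ℕ in Filter.atTop, ∀ A : Finset ℕ, A ⊆ Icc 1 n →
    (∀ a ∈ A, ∀ b ∈ A, a ≠ b → ¬ ∃ x : ℕ, 0 < x ∧ a * b = x ^ 4) →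
    C * Real.sqrt n ≤ (n : ℝ) - A.card := by
  classical
  obtain ⟨P, hP, hsum⟩ : ∃ P : Finset ℕ, (∀ p ∈ P, p.Prime) ∧ 96 * C ≤ ∑ p ∈ P, (1 : ℝ) / p := by
    by_contra h
    push Not at h
    apply Nat.Primes.not_summable_one_div
    refine summable_of_sum_le (c := 96 * C) (fun p => by positivity) fun u => ?_
    have := h (u.image Subtype.val) (fun p hp => by
      obtain ⟨q, _, rfl⟩ := mem_image.mp hp
      exact q.2)
    exact le_trans (le_of_eq (sum_image (f := fun p : ℕ => (1 : ℝ) / p)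
      (fun a _ b _ hab => Subtype.ext hab)).symm) this.le
  filter_upwards [Filter.eventually_ge_atTop ((P.sup id) ^ 4)] with n hn A hA hfree
  set m := Nat.sqrt n with hm
  set I : Finset (Σ _ : ℕ, ℕ × ℕ) := P.sigma (fun p => ((Ico 1 p).filter Squarefree) ×ˢ
    ((Ioc 0 (m / p ^ 2)).filter (fun b => ¬ p ∣ b))) with hI
  have hmem : ∀ i ∈ I, i.1.Prime ∧ 0 < i.2.1 ∧ i.2.1 < i.1 ∧ Squarefree i.2.1 ∧ 0 < i.2.2 ∧
      i.2.2 * i.1 ^ 2 ≤ m ∧ ¬ i.1 ∣ i.2.2 := by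
    rintro ⟨p, e, b⟩ hi
    simp only [hI, mem_sigma, mem_product, mem_filter, mem_Ico, mem_Ioc] at hi
    obtain ⟨h1, ⟨⟨h2, h3⟩, h4⟩, ⟨h5, h6⟩, h7⟩ := hi
    refine ⟨hP p h1, h2, h3, h4, h5, ?_, h7⟩
    exact (Nat.le_div_iff_mul_le (pow_pos (hP p h1).pos 2)).mp h6
  let x : (Σ _ : ℕ, ℕ × ℕ) → ℕ := fun i => i.1 * i.2.1 * (i.2.1 * i.2.2) ^ 2
  let y : (Σ _ : ℕ, ℕ × ℕ) → ℕ := fun i => i.1 * i.2.1 * (i.1 * i.2.2) ^ 2
  let g : (Σ _ : ℕ, ℕ × ℕ) → ℕ := fun i => if x i ∈ A then y i else x i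
  have hxy : ∀ i ∈ I, 0 < x i ∧ x i < y i ∧ y i ≤ n := by
    intro i hi
    obtain ⟨h1, h2, h3, h4, h5, h6, h7⟩ := hmem i hi
    have h8 := h1.pos
    refine ⟨by positivity, ?_, ?_⟩
    · apply Nat.mul_lt_mul_of_pos_left _ (by positivity)
      exact Nat.pow_lt_pow_left (Nat.mul_lt_mul_of_pos_right h3 h5) (by norm_num)
    · have h9 : m * m ≤ n := Nat.sqrt_le n
      have h10 : (i.2.2 * i.1 ^ 2) * (i.2.2 * i.1 ^ 2) ≤ m * m := Nat.mul_le_mul h6 h6
      have h11 : i.1 * i.2.1 * (i.1 * i.2.2) ^ 2 ≤ i.1 * i.1 * (i.1 * i.2.2) ^ 2 :=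
        Nat.mul_le_mul_right _ (Nat.mul_le_mul_left _ h3.le)
      have h12 : i.1 * i.1 * (i.1 * i.2.2) ^ 2 = (i.2.2 * i.1 ^ 2) * (i.2.2 * i.1 ^ 2) := by ring
      show i.1 * i.2.1 * (i.1 * i.2.2) ^ 2 ≤ n
      omega
  have hg : ∀ i ∈ I, g i ∈ Icc 1 n \ A := by
    intro i hi
    obtain ⟨h1, h2, h3⟩ := hxy i hi
    obtain ⟨k1, k2, k3, k4, k5, k6, k7⟩ := hmem i hi
    have k8 := k1.pos
    simp only [g]
    split_ifs with h
    · refine mem_sdiff.mpr ⟨mem_Icc.mpr ⟨by omega, h3⟩, fun h' => ?_⟩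
      refine hfree _ h _ h' h2.ne ⟨i.1 * i.2.1 * i.2.2, by positivity, ?_⟩
      simp only [x, y]; ring
    · exact mem_sdiff.mpr ⟨mem_Icc.mpr ⟨by omega, by omega⟩, h⟩
  have hinj : Set.InjOn g I := by
    rintro ⟨p, e, b⟩ hi ⟨p', e', b'⟩ hj hij
    obtain ⟨k1, k2, k3, k4, k5, k6, k7⟩ := hmem _ hi
    obtain ⟨l1, l2, l3, l4, l5, l6, l7⟩ := hmem _ hj
    dsimp only at k1 k2 k3 k4 k5 k6 k7 l1 l2 l3 l4 l5 l6 l7
    have k8 := k1.pos
    have l8 := l1.pos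
    obtain ⟨t, ht, ht0, hgt⟩ : ∃ t, (t = e ∨ t = p) ∧ 0 < t ∧
        g ⟨p, e, b⟩ = p * e * (t * b) ^ 2 := by
      simp only [g]; split_ifs
      · exact ⟨p, Or.inr rfl, k8, rfl⟩
      · exact ⟨e, Or.inl rfl, k2, rfl⟩
    obtain ⟨t', ht', ht0', hgt'⟩ : ∃ t, (t = e' ∨ t = p') ∧ 0 < t ∧
        g ⟨p', e', b'⟩ = p' * e' * (t * b') ^ 2 := by
      simp only [g]; split_ifs
      · exact ⟨p', Or.inr rfl, l8, rfl⟩
      · exact ⟨e', Or.inl rfl, l2, rfl⟩
    rw [hgt, hgt'] at hij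
    have h1 := kernel_eq (sqf_pe k1 k4 k3) (sqf_pe l1 l4 l3) (by positivity) (by positivity) hij
    obtain ⟨rfl, rfl⟩ := pe_eq k1 l1 k2 l2 k3 l3 h1
    have h2 : t * b = t' * b' := by
      have := Nat.eq_of_mul_eq_mul_left (by positivity) hij
      exact Nat.pow_left_injective (by norm_num) this
    have hne : ¬ p ∣ e := fun h => by have := Nat.le_of_dvd k2 h; omega
    have h3 : b = b' := by
      rcases ht with h | h <;> rcases ht' with h' | h' <;> rw [h, h'] at h2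
      · exact Nat.eq_of_mul_eq_mul_left k2 h2
      · have h4 : p ∣ e * b := ⟨b', h2⟩
        exact absurd ((Nat.Prime.dvd_mul k1).mp h4) (by tauto)
      · have h4 : p ∣ e * b' := ⟨b, h2.symm⟩
        exact absurd ((Nat.Prime.dvd_mul k1).mp h4) (by tauto)
      · exact Nat.eq_of_mul_eq_mul_left k8 h2
    rw [h3]
  have hcard := card_le_card_of_injOn g hg hinj
  rw [card_sdiff_of_subset hA, Nat.card_Icc] at hcard
  have hAn : A.card ≤ n := by simpa using card_le_card hA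
  have h1 : (I.card : ℝ) ≤ (n : ℝ) - A.card := by
    rw [← Nat.cast_sub hAn]; exact_mod_cast (by omega)
  refine le_trans ?_ h1
  have hsq : Real.sqrt n ≤ m + 1 := by
    rw [Real.sqrt_le_left (by positivity)]
    exact_mod_cast (Nat.lt_succ_sqrt' n).le
  have h2 : ∀ p ∈ P, Real.sqrt n / 96 * (1 / p) ≤ ((((Ico 1 p).filter Squarefree) ×ˢ
      ((Ioc 0 (m / p ^ 2)).filter (fun b => ¬ p ∣ b))).card : ℝ) := by
    intro p hp
    have hp2 := (hP p hp).two_le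
    have hp0 : (0 : ℝ) < p := by exact_mod_cast (hP p hp).pos
    rw [card_product]; push_cast
    have h3 := sqf_count p hp2
    have h4 := ndvd_count p (m / p ^ 2) hp2
    have h5 : p ^ 2 ≤ m := by
      rw [hm, Nat.le_sqrt']
      have : p ≤ P.sup id := le_sup (f := id) hp
      calc (p ^ 2) ^ 2 = p ^ 4 := by ring
        _ ≤ (P.sup id) ^ 4 := Nat.pow_le_pow_left this 4
        _ ≤ n := hn
    have h6 : m + 1 ≤ 2 * (m / p ^ 2) * p ^ 2 := by
      have h7 := Nat.div_add_mod m (p ^ 2)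
      have h8 := Nat.mod_lt m (pow_pos (hP p hp).pos 2)
      have h9 : 1 ≤ m / p ^ 2 := (Nat.le_div_iff_mul_le (pow_pos (hP p hp).pos 2)).mpr (by omega)
      nlinarith
    set c := ((Ioc 0 (m / p ^ 2)).filter (fun b => ¬ p ∣ b)).card
    have h7 : (m : ℝ) + 1 ≤ 4 * c * p ^ 2 := by
      have : m + 1 ≤ 4 * c * p ^ 2 := h6.trans (Nat.mul_le_mul_right _ (by omega))
      exact_mod_cast this
    have h8 : Real.sqrt n / 96 * (1 / p) ≤ p / 24 * c := by
      rw [mul_one_div, div_le_iff₀ hp0]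
      nlinarith
    exact h8.trans (mul_le_mul_of_nonneg_right h3 (Nat.cast_nonneg _))
  rw [hI, card_sigma]; push_cast
  refine le_trans ?_ (sum_le_sum h2)
  rw [← mul_sum]
  have := Real.sqrt_nonneg n
  nlinarith

end Pool.Agent.H54.Pow4
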