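import Mathlib
import Pool.Agent.H54.PrimeSieve

set_option autoImplicit false

namespace Pool.Agent.H54.PrimeDiff

open Finset Pool.Agent.H54.PrimeSieve
open Classical

variable (A : Finset ℕ) (s : ℕ)

/-- elements in the same window of scale k -/
def win (k a : ℕ) : Finset ℕ := A.filter (fun b => (b + s) / 4 ^ k = (a + s) / 4 ^ k)

/-- number of larger elements in the same window -/
def nu (k a : ℕ) : ℕ := ((win A s k a).filter (fun b => a < b)).card

/-- normalised density -/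
noncomputable def sig (k a : ℕ) : ℝ := ((win A s k a).card : ℝ) * k / 4 ^ k

/-- stopping scale -/
noncomputable def kap (L : ℕ) (θ : ℝ) (a : ℕ) : ℕ := Nat.findGreatest (fun k => θ ≤ sig A s k a) L

lemma win_sub (k a : ℕ) :
    win A s k a ⊆ Ico ((a + s) / 4 ^ k * 4 ^ k - s) ((a + s) / 4 ^ k * 4 ^ k - s + 4 ^ k) := by
  intro b hb
  have h := (mem_filter.mp hb).2
  have h1 := Nat.div_add_mod' (b + s) (4 ^ k)
  have h2 := Nat.mod_lt (b + s) (show 0 < 4 ^ k by positivity)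
  rw [h] at h1
  rw [mem_Ico]
  omega

lemma win_eq {k K a b : ℕ} (h : b ∈ win A s k a) (hk : k ≤ K) : win A s K b = win A s K a := by
  have h1 := (mem_filter.mp h).2
  obtain ⟨j, rfl⟩ := Nat.exists_eq_add_of_le hk
  unfold win
  rw [pow_add, ← Nat.div_div_eq_div_mul, ← Nat.div_div_eq_div_mul (a + s), h1]

lemma close {k a b : ℕ} (h : b ∈ win A s k a) : b < a + 4 ^ k := by
  have h0 := (mem_filter.mp h).2
  have h1 := Nat.div_add_mod' (b + s) (4 ^ k)
  have h2 := Nat.mod_lt (b + s) (show 0 < 4 ^ k by positivity)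
  have h3 := Nat.div_add_mod' (a + s) (4 ^ k)
  rw [h0] at h1
  omega

variable {A}

lemma sig_lt (hA : ∀ p ∈ A, p.Prime) (k a : ℕ) : sig A s k a < 64 := by
  unfold sig
  rcases Nat.eq_zero_or_pos k with rfl | hk
  · simp
  have h := single (win A s k a) (fun p hp => hA p (mem_filter.mp hp).1) _ k hk (win_sub A s k a)
  have hk' : (0 : ℝ) < k := by exact_mod_cast hk
  rw [← mul_div_assoc, le_div_iff₀ hk'] at h
  rw [div_lt_iff₀ (by positivity)]
  have : (0 : ℝ) < 4 ^ k := by positivity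
  linarith

lemma pairs (hA : ∀ p ∈ A, p.Prime) (K a j : ℕ) (hK : 1 ≤ K) :
    ∑ b ∈ win A s K a, (nu A s j b : ℝ) ≤ 24600 * 4 ^ j * (4 ^ K / (K : ℝ) ^ 2) := by
  have h1 : ∀ b ∈ win A s K a, (nu A s j b : ℝ)
      ≤ ∑ h ∈ Icc 1 (4 ^ j), if b + h ∈ A then (1 : ℝ) else 0 := by
    intro b _
    rw [← natCast_card_filter, Nat.cast_le]
    apply card_le_card_of_injOn (fun c => c - b)
    · intro c hc
      obtain ⟨h2, h3⟩ := mem_filter.mp hc
      have h4 := close A s h2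
      have h5 := (mem_filter.mp h2).1
      simp only [coe_filter, mem_Icc, Set.mem_ofPred_eq]
      refine ⟨by omega, ?_⟩
      rwa [Nat.add_sub_cancel' h3.le]
    · intro c hc d hd hcd
      have h2 := (mem_filter.mp hc).2
      have h3 := (mem_filter.mp hd).2
      simp only at hcd
      omega
  refine (sum_le_sum h1).trans ?_
  rw [sum_comm]
  have h2 : ∀ h ∈ Icc 1 (4 ^ j), ∑ b ∈ win A s K a, (if b + h ∈ A then (1 : ℝ) else 0)
      ≤ 6150 * wt (2 * h) * (4 ^ K / (K : ℝ) ^ 2) := by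
    intro h hh
    rw [← natCast_card_filter]
    refine pair _ h (by have := (mem_Icc.mp hh).1; omega) ?_ _ K hK
      ((filter_subset _ _).trans (win_sub A s K a))
    intro b hb
    obtain ⟨h3, h4⟩ := mem_filter.mp hb
    exact ⟨hA _ (mem_filter.mp h3).1, hA _ h4⟩
  refine (sum_le_sum h2).trans ?_
  rw [← sum_mul, ← mul_sum]
  have h3 := wt_avg (4 ^ j)
  push_cast at h3
  have h4 : (0 : ℝ) ≤ 4 ^ K / (K : ℝ) ^ 2 := by positivity
  nlinarith

lemma sum_le_of_fiber {β : Type} [DecidableEq β] (key : ℕ → β) (G : ℕ → ℝ) (c : ℝ)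
    (h : ∀ a ∈ A, ∑ b ∈ A.filter (fun b => key b = key a), G b
      ≤ c * (A.filter (fun b => key b = key a)).card) : ∑ a ∈ A, G a ≤ c * A.card := by
  rw [← sum_fiberwise_of_maps_to (s := A) (t := A.image key) (g := key)
    (fun a ha => mem_image_of_mem _ ha), card_eq_sum_card_image key A, Nat.cast_sum, mul_sum]
  refine sum_le_sum (fun y hy => ?_)
  obtain ⟨a, ha, rfl⟩ := mem_image.mp hy
  exact h a ha

lemma kap_eq (L : ℕ) (θ : ℝ) {a b : ℕ} (h0 : kap A s L θ a ≠ 0)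
    (h : b ∈ win A s (kap A s L θ a) a) : kap A s L θ b = kap A s L θ a := by
  have h1 : ∀ k, kap A s L θ a ≤ k → sig A s k b = sig A s k a := by
    intro k hk
    unfold sig
    rw [win_eq A s h hk]
  have h2 := (Nat.findGreatest_eq_iff (P := fun k => θ ≤ sig A s k a) (k := L)
    (m := kap A s L θ a)).mp rfl
  apply Nat.findGreatest_eq_iff.mpr
  refine ⟨h2.1, fun _ => ?_, fun n hn hn2 => ?_⟩
  · rw [h1 _ le_rfl]; exact h2.2.1 h0
  · rw [h1 _ hn.le]; exact h2.2.2 hn hn2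

lemma far (hA : ∀ p ∈ A, p.Prime) (L : ℕ) (θ : ℝ) (hθ : 0 < θ) (R : ℕ) (hR : 0 < R) :
    ∑ a ∈ A, ∑ k ∈ Icc 1 L, (if R * k < kap A s L θ a then (nu A s k a : ℝ) / 4 ^ k else 0)
      ≤ 24600 / (R * θ) * A.card := by
  apply sum_le_of_fiber (fun a => (kap A s L θ a, (a + s) / 4 ^ kap A s L θ a))
  intro a _
  have hR' : (0 : ℝ) < R := by exact_mod_cast hR
  by_cases h0 : kap A s L θ a = 0
  · refine le_trans (le_of_eq (sum_eq_zero (fun b hb => sum_eq_zero (fun k _ => ?_))))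
      (by positivity)
    have := congrArg Prod.fst (mem_filter.mp hb).2
    simp only at this
    rw [if_neg (by omega)]
  set K := kap A s L θ a with hK
  have e : A.filter (fun b => (kap A s L θ b, (b + s) / 4 ^ kap A s L θ b)
      = (K, (a + s) / 4 ^ K)) = win A s K a := by
    ext b
    simp only [mem_filter, Prod.mk.injEq]
    constructor
    · rintro ⟨h1, h2, h3⟩
      rw [h2] at h3
      exact mem_filter.mpr ⟨h1, h3⟩
    · intro h1
      have h2 := kap_eq s L θ h0 h1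
      rw [h2]
      exact ⟨(mem_filter.mp h1).1, rfl, (mem_filter.mp h1).2⟩
  rw [e, sum_congr rfl (fun b hb => by rw [kap_eq s L θ h0 hb]), sum_comm]
  have hK0 : (0 : ℝ) < K := by exact_mod_cast Nat.pos_of_ne_zero h0
  have h1 : ∀ k ∈ Icc 1 L, ∑ b ∈ win A s K a, (if R * k < K then (nu A s k b : ℝ) / 4 ^ k else 0)
      ≤ if R * k < K then 24600 * (4 ^ K / (K : ℝ) ^ 2) else 0 := by
    intro k _
    split_ifs with h
    · rw [← sum_div, div_le_iff₀ (by positivity)]
      refine (pairs s hA K a k (Nat.pos_of_ne_zero h0)).trans (le_of_eq (by ring))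
    · simp
  refine (sum_le_sum h1).trans ?_
  rw [← sum_filter, sum_const, nsmul_eq_mul]
  have h2 : (((Icc 1 L).filter (fun k => R * k < K)).card : ℝ) ≤ K / R := by
    refine le_trans ?_ (@Nat.cast_div_le ℝ _ _ _ K R)
    rw [Nat.cast_le]
    refine (card_le_card (t := Icc 1 (K / R)) ?_).trans (by simp)
    intro k hk
    obtain ⟨h3, h4⟩ := mem_filter.mp hk
    exact mem_Icc.mpr ⟨(mem_Icc.mp h3).1, (Nat.le_div_iff_mul_le hR).mpr (by nlinarith)⟩
  have h3 : θ ≤ sig A s K a := Nat.findGreatest_of_ne_zero rfl h0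
  unfold sig at h3
  rw [le_div_iff₀ (by positivity)] at h3
  calc _ ≤ (K / R : ℝ) * (24600 * (4 ^ K / (K : ℝ) ^ 2)) := by gcongr
    _ = 24600 / (R * θ) * (θ * 4 ^ K / K) := by field_simp
    _ ≤ _ := by
      gcongr
      rwa [div_le_iff₀ hK0]

lemma harm (a b : ℕ) (ha : 1 ≤ a) (hab : a ≤ b) :
    ∑ k ∈ Icc a b, (1 : ℝ) / k ≤ 1 + Real.log b - Real.log a := by
  induction b, hab using Nat.le_induction with
  | base =>
    have : (1 : ℝ) ≤ a := by exact_mod_cast ha
    simp only [Icc_self, sum_singleton, add_sub_cancel_right]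
    rw [div_le_one (by linarith)]; exact this
  | succ b hb ih =>
    rw [sum_Icc_succ_top (by omega)]
    have h0 : (0 : ℝ) < b := by exact_mod_cast (show 0 < b by omega)
    have h1 := Real.log_le_sub_one_of_pos (show (0 : ℝ) < b / (b + 1) by positivity)
    rw [Real.log_div h0.ne' (by positivity)] at h1
    have h2 : (b : ℝ) / (b + 1) - 1 = - (1 / (b + 1)) := by field_simp; ring
    push_cast
    linarith

lemma near (L κ m : ℕ) :
    ∑ k ∈ Icc 1 L, (if k ≤ κ ∧ κ ≤ 4 ^ m * k then (1 : ℝ) / k else 0) ≤ 1 + 2 * m := by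
  rw [← sum_filter]
  rcases ((Icc 1 L).filter (fun k => k ≤ κ ∧ κ ≤ 4 ^ m * k)).eq_empty_or_nonempty with h | h
  · rw [h, sum_empty]; positivity
  have h1 := min'_mem _ h
  set a := min' _ h with ha
  obtain ⟨h2, h3, h4⟩ := mem_filter.mp h1
  have h5 := (mem_Icc.mp h2).1
  refine le_trans (sum_le_sum_of_subset_of_nonneg (t := Icc a κ) ?_ (fun _ _ _ => by positivity))
    ((harm a κ h5 h3).trans ?_)
  · intro k hk
    exact mem_Icc.mpr ⟨min'_le _ _ hk, (mem_filter.mp hk).2.1⟩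
  · have h6 : (0 : ℝ) < a := by exact_mod_cast h5
    have h7 : (κ : ℝ) ≤ 4 ^ m * a := by exact_mod_cast h4
    have h8 : (0 : ℝ) < κ := by exact_mod_cast (show 0 < κ by omega)
    have h9 := Real.log_le_log h8 h7
    rw [Real.log_mul (by positivity) h6.ne', Real.log_pow] at h9
    have h10 : Real.log 4 ≤ 2 := by
      rw [show (4 : ℝ) = 2 ^ 2 by norm_num, Real.log_pow]
      have := Real.log_two_lt_d9
      push_cast
      linarith
    have h11 : (0 : ℝ) ≤ m := Nat.cast_nonneg m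
    nlinarith

lemma pointwise (hA : ∀ p ∈ A, p.Prime) (L a k : ℕ) (ha : a ∈ A) (hk : k ∈ Icc 1 L) :
    (nu A s k a : ℝ) / 4 ^ k ≤ ∑ m ∈ range (2 * L + 6),
      (64 / 2 ^ m * (if k ≤ kap A s L (64 / 2 ^ (m + 1)) a ∧
          kap A s L (64 / 2 ^ (m + 1)) a ≤ 4 ^ m * k then (1 : ℝ) / k else 0)
        + (if 4 ^ m * k < kap A s L (64 / 2 ^ (m + 1)) a then (nu A s k a : ℝ) / 4 ^ k else 0)) := by
  obtain ⟨hk1, hkL⟩ := mem_Icc.mp hk
  have hk' : (1 : ℝ) ≤ k := by exact_mod_cast hk1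
  have h0 : ¬ k ≤ kap A s L (64 / 2 ^ 0) a := by
    have : kap A s L (64 / 2 ^ 0) a = 0 := by
      apply Nat.findGreatest_eq_zero_iff.mpr
      intro n _ _
      have := sig_lt s hA n a
      simp only [pow_zero, div_one, not_le]
      exact this
    omega
  have h1 : k ≤ kap A s L (64 / 2 ^ (2 * L + 6)) a := by
    apply Nat.le_findGreatest hkL
    have h2 : (1 : ℝ) ≤ (win A s k a).card := by
      have : a ∈ win A s k a := mem_filter.mpr ⟨ha, rfl⟩
      exact_mod_cast card_pos.mpr ⟨a, this⟩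
    unfold sig
    rw [div_le_div_iff₀ (by positivity) (by positivity), pow_add, pow_mul]
    have h3 : (4 : ℝ) ^ k ≤ 4 ^ L := pow_le_pow_right₀ (by norm_num) hkL
    have h4 : (1 : ℝ) ≤ (win A s k a).card * k := one_le_mul_of_one_le_of_one_le h2 hk'
    have h5 : (0 : ℝ) < 4 ^ L := by positivity
    norm_num
    nlinarith
  have hex : ∃ m, k ≤ kap A s L (64 / 2 ^ m) a := ⟨_, h1⟩
  have h2 := Nat.find_spec hex
  have h3 : Nat.find hex ≤ 2 * L + 6 := Nat.find_min' hex h1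
  have h4 : Nat.find hex ≠ 0 := fun h => h0 (by rwa [h] at h2)
  obtain ⟨m, hm⟩ := Nat.exists_eq_succ_of_ne_zero h4
  have h5 := Nat.find_min hex (m := m) (by omega)
  rw [hm] at h2
  refine le_trans ?_ (single_le_sum (a := m) (fun i _ => ?_) (mem_range.mpr (by omega)))
  · by_cases h6 : kap A s L (64 / 2 ^ (m + 1)) a ≤ 4 ^ m * k
    · rw [if_pos ⟨h2, h6⟩, if_neg (not_lt.mpr h6), add_zero]
      have h7 : ¬ (64 / 2 ^ m ≤ sig A s k a) :=
        Nat.findGreatest_is_greatest (not_le.mp h5) hkL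
      have h8 : (nu A s k a : ℝ) ≤ (win A s k a).card := by
        exact_mod_cast card_filter_le _ _
      unfold sig at h7
      rw [mul_one_div, le_div_iff₀ (by linarith)]
      refine le_trans ?_ (not_le.mp h7).le
      rw [div_mul_eq_mul_div]
      gcongr
    · rw [if_neg (fun h => h6 h.2), if_pos (not_le.mp h6), mul_zero, zero_add]
  · have : (0 : ℝ) ≤ (nu A s k a : ℝ) / 4 ^ k := by positivity
    apply add_nonneg
    · apply mul_nonneg (by positivity)
      split_ifs <;> positivity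
    · split_ifs <;> positivity

lemma geo (M : ℕ) : ∑ m ∈ range M, (1 + 2 * (m : ℝ)) / 2 ^ m ≤ 6 := by
  have : ∑ m ∈ range M, (1 + 2 * (m : ℝ)) / 2 ^ m = 6 - (4 * M + 6) / 2 ^ M := by
    induction M with
    | zero => simp
    | succ M ih => rw [sum_range_succ, ih]; push_cast; field_simp; ring
  rw [this]
  have : (0 : ℝ) ≤ (4 * M + 6) / 2 ^ M := by positivity
  linarith

lemma grid (hA : ∀ p ∈ A, p.Prime) (L : ℕ) :
    ∑ a ∈ A, ∑ k ∈ Icc 1 L, (nu A s k a : ℝ) / 4 ^ k ≤ 6000 * A.card := by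
  refine (sum_le_sum (fun a ha => sum_le_sum (fun k hk => pointwise s hA L a k ha hk))).trans ?_
  rw [sum_congr rfl (fun a _ => sum_comm), sum_comm]
  have h1 : ∀ m ∈ range (2 * L + 6), ∑ a ∈ A, ∑ k ∈ Icc 1 L,
      (64 / 2 ^ m * (if k ≤ kap A s L (64 / 2 ^ (m + 1)) a ∧
          kap A s L (64 / 2 ^ (m + 1)) a ≤ 4 ^ m * k then (1 : ℝ) / k else 0)
        + (if 4 ^ m * k < kap A s L (64 / 2 ^ (m + 1)) a then (nu A s k a : ℝ) / 4 ^ k else 0))
      ≤ (1 + 2 * (m : ℝ)) / 2 ^ m * (1000 * A.card) := by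
    intro m _
    simp only [sum_add_distrib, ← mul_sum]
    have h2 := far s hA L (64 / 2 ^ (m + 1)) (by positivity) (4 ^ m) (by positivity)
    have h3 := sum_le_sum (fun a (_ : a ∈ A) => near L (kap A s L (64 / 2 ^ (m + 1)) a) m)
    rw [sum_const, nsmul_eq_mul] at h3
    have h4 : (24600 : ℝ) / (((4 ^ m : ℕ) : ℝ) * (64 / 2 ^ (m + 1))) = 768.75 / 2 ^ m := by
      push_cast
      rw [show (4 : ℝ) ^ m = 2 ^ m * 2 ^ m by rw [← mul_pow]; norm_num]
      field_simp
      ring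
    rw [h4] at h2
    have h5 := mul_le_mul_of_nonneg_left h3 (show (0 : ℝ) ≤ 64 / 2 ^ m by positivity)
    refine (add_le_add h5 h2).trans ?_
    have h6 : (0 : ℝ) ≤ (A.card : ℝ) / 2 ^ m := by positivity
    have h7 : (0 : ℝ) ≤ m := Nat.cast_nonneg m
    have e1 : (64 : ℝ) / 2 ^ m * (A.card * (1 + 2 * m)) + 768.75 / 2 ^ m * A.card
        = (64 * (1 + 2 * m) + 768.75) * (A.card / 2 ^ m) := by ring
    have e2 : (1 + 2 * (m : ℝ)) / 2 ^ m * (1000 * A.card)
        = (1000 * (1 + 2 * m)) * (A.card / 2 ^ m) := by ring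
    rw [e1, e2]
    exact mul_le_mul_of_nonneg_right (by linarith) h6
  refine (sum_le_sum h1).trans ?_
  rw [← sum_mul]
  have := geo (2 * L + 6)
  have h0 : (0 : ℝ) ≤ A.card := Nat.cast_nonneg _
  nlinarith

lemma three_u (k : ℕ) : 3 * ∑ i ∈ range k, 4 ^ i + 1 = 4 ^ k := by
  induction k with
  | zero => simp
  | succ k ih => rw [sum_range_succ, pow_succ]; omega

lemma third (L a b : ℕ) (hab : a < b) (hL : 3 * b < 4 ^ L) :
    ∃ k ∈ Icc 1 L, (1 : ℝ) / ((b : ℝ) - a) ≤ 12 / 4 ^ k ∧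
      ((b + 0) / 4 ^ k = (a + 0) / 4 ^ k ∨
        (b + ∑ i ∈ range L, 4 ^ i) / 4 ^ k = (a + ∑ i ∈ range L, 4 ^ i) / 4 ^ k) := by
  obtain ⟨d, rfl⟩ := Nat.exists_eq_add_of_le hab.le
  have hex : ∃ k, 3 * d < 4 ^ k := ⟨L, by omega⟩
  have h1 := Nat.find_spec hex
  have h2 : Nat.find hex ≤ L := Nat.find_min' hex (by omega)
  have h3 : Nat.find hex ≠ 0 := fun h => by rw [h] at h1; omega
  obtain ⟨j, hj⟩ := Nat.exists_eq_succ_of_ne_zero h3
  have h4 := Nat.find_min hex (m := j) (by omega)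
  rw [hj] at h1 h2
  refine ⟨j + 1, mem_Icc.mpr ⟨by omega, h2⟩, ?_, ?_⟩
  · have h5 : (4 : ℝ) ^ j ≤ 3 * d := by exact_mod_cast not_lt.mp h4
    have h6 : (0 : ℝ) < d := by exact_mod_cast (show 0 < d by omega)
    push_cast
    rw [add_sub_cancel_left, div_le_div_iff₀ h6 (by positivity), pow_succ]
    linarith
  · obtain ⟨r, rfl⟩ := Nat.exists_eq_add_of_le h2
    have h5 := three_u (j + 1)
    rw [sum_range_add]
    simp only [pow_add 4 (j + 1), ← mul_sum]
    change 3 * d < 4 ^ (j + 1) at h1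
    generalize ∑ i ∈ range (j + 1), 4 ^ i = u at *
    generalize ∑ i ∈ range r, 4 ^ i = q
    generalize 4 ^ (j + 1) = N at *
    have hN : 0 < N := by omega
    rw [← add_assoc, ← add_assoc, Nat.add_mul_div_left _ _ hN, Nat.add_mul_div_left _ _ hN,
      add_zero, add_zero]
    obtain ⟨w, t, ht, rfl⟩ : ∃ w t, t < N ∧ a = t + N * w :=
      ⟨a / N, a % N, Nat.mod_lt _ hN, (Nat.mod_add_div a N).symm⟩
    rw [add_right_comm t, add_right_comm (t + d), add_right_comm t (N * w) u,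
      Nat.add_mul_div_left _ _ hN, Nat.add_mul_div_left _ _ hN, Nat.add_mul_div_left _ _ hN,
      Nat.add_mul_div_left _ _ hN]
    by_cases h6 : t + d < N
    · left; rw [Nat.div_eq_of_lt h6, Nat.div_eq_of_lt ht]
    · right
      rw [Nat.div_eq_of_lt_le (k := 1) (by omega) (by omega),
        Nat.div_eq_of_lt_le (k := 1) (by omega) (by omega)]

theorem main (hA : ∀ p ∈ A, p.Prime) :
    ∑ p ∈ A, ∑ q ∈ A.filter (fun q => p < q), (1 : ℝ) / ((q : ℝ) - (p : ℝ))
      ≤ 144000 * A.card := by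
  obtain ⟨L, hL⟩ : ∃ L, ∀ b ∈ A, 3 * b < 4 ^ L := by
    refine ⟨3 * A.sup id, fun b hb => ?_⟩
    have : b ≤ A.sup id := le_sup (f := id) hb
    exact lt_of_le_of_lt (by omega) (Nat.lt_pow_self (by norm_num))
  set u := ∑ i ∈ range L, 4 ^ i with hu
  have h1 : ∀ a ∈ A, ∑ q ∈ A.filter (fun q => a < q), (1 : ℝ) / ((q : ℝ) - (a : ℝ))
      ≤ 12 * (∑ k ∈ Icc 1 L, (nu A 0 k a : ℝ) / 4 ^ k
        + ∑ k ∈ Icc 1 L, (nu A u k a : ℝ) / 4 ^ k) := by
    intro a _
    have e : ∀ s k, (nu A s k a : ℝ) = ∑ b ∈ A.filter (fun q => a < q),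
        if (b + s) / 4 ^ k = (a + s) / 4 ^ k then (1 : ℝ) else 0 := by
      intro s k
      rw [← natCast_card_filter, nu, win, filter_comm]
    simp only [e, ← sum_add_distrib, mul_sum, sum_div]
    rw [sum_comm]
    refine sum_le_sum (fun b hb => ?_)
    obtain ⟨h2, h3⟩ := mem_filter.mp hb
    obtain ⟨k, hk, h4, h5⟩ := third L a b h3 (hL b h2)
    refine le_trans (h4.trans ?_) (single_le_sum (a := k) (fun i _ => ?_) hk)
    · have h6 : (0 : ℝ) < 4 ^ k := by positivity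
      rw [← add_div, mul_div_assoc']
      gcongr
      rcases h5 with h5 | h5
      · rw [if_pos h5]; split_ifs <;> norm_num
      · rw [if_pos h5]; split_ifs <;> norm_num
    · split_ifs <;> positivity
  refine (sum_le_sum h1).trans ?_
  rw [← mul_sum, sum_add_distrib]
  linarith [grid 0 hA L, grid u hA L]

end Pool.Agent.H54.PrimeDiff
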