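import Pool.Agent.H54.RSeqA

namespace Pool.Agent.H54.RSeq

/-- relators of `⟨a, b ∣ a^N = b^2 = 1, b a b⁻¹ = a^r⟩`, with `a = of 0`, `b = of 1` -/
def rels (N r : ℕ) : Set (FreeGroup (Fin 2)) :=
  {FreeGroup.of 0 ^ N, FreeGroup.of 1 ^ 2,
    FreeGroup.of 1 * FreeGroup.of 0 * (FreeGroup.of 1)⁻¹ * (FreeGroup.of 0 ^ r)⁻¹}

/-- the non-identity elements can be listed as `g 0, …, g (k-1)` with pairwise distinct
cyclically consecutive quotients -/
def RSequenceable (G : Type*) [Group G] : Prop :=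
  ∃ (k : ℕ) (g : ℕ → G), Set.InjOn g (Set.Iio k) ∧ g '' Set.Iio k = {1}ᶜ ∧
    Set.InjOn (fun i => (g i)⁻¹ * g ((i + 1) % k)) (Set.Iio k)

section
variable {G : Type*} [Group G] (a b : G)

def w (i e : ℤ) : G := a ^ i * if e % 2 = 0 then 1 else b

variable {a b} {r : ℕ}

lemma conj (h : b * a * b⁻¹ = a ^ r) (k : ℤ) : b * a ^ k = a ^ (r * k) * b := by
  rw [zpow_mul, zpow_natCast, ← h, conj_zpow]; simp

lemma w_mul (hb : b ^ 2 = 1) (h : b * a * b⁻¹ = a ^ r) (i e j f : ℤ) :
    (w a b i e)⁻¹ * w a b j f = w a b (if e % 2 = 0 then j - i else r * (j - i)) (e + f) := by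
  have hb' : b⁻¹ = b := by rw [inv_eq_iff_mul_eq_one, ← sq, hb]
  have hbb : b * b = 1 := by rw [← sq, hb]
  have e1 : (a ^ i)⁻¹ * a ^ j = a ^ (j - i) := by rw [← zpow_neg, ← zpow_add]; ring_nf
  unfold w
  by_cases h1 : e % 2 = 0 <;> by_cases h2 : f % 2 = 0
  · rw [if_pos h1, if_pos h2, if_pos h1, if_pos (by omega)]; simpa using e1
  · rw [if_pos h1, if_neg h2, if_pos h1, if_neg (by omega), mul_one, ← mul_assoc, e1]
  · rw [if_neg h1, if_pos h2, if_neg h1, if_neg (by omega), mul_inv_rev, mul_one, mul_assoc, e1,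
      hb', conj h]
  · rw [if_neg h1, if_neg h2, if_neg h1, if_pos (by omega), mul_inv_rev, mul_assoc,
      ← mul_assoc _ (a ^ j), e1, hb', ← mul_assoc, conj h, mul_assoc, hbb]

theorem main (m : ℕ) (s : ℤ) (hm : 1 ≤ m) (hs : s = 1 ∨ s = -1) (hr : (r : ℤ) = 4 * m + s)
    (ha : a ^ (8 * m) = 1) (hb : b ^ 2 = 1) (h : b * a * b⁻¹ = a ^ r)
    (hall : ∀ g, ∃ i e, g = w a b i e)
    (hinj : ∀ i e j f, w a b i e = w a b j f → (8 * m : ℤ) ∣ i - j ∧ e % 2 = f % 2)
    (X E : ℤ → ℤ) (h1 : G1 m X E) (h2 : G2 m X E) (h3 : G3 m s X E) : RSequenceable G := by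
  classical
  have hk : ∀ i : ℕ, i ∈ Set.Iio (16 * m - 1) → (0 : ℤ) ≤ i ∧ (i : ℤ) < 16 * m - 1 := fun i hi => by
    have : i < 16 * m - 1 := hi
    omega
  refine ⟨16 * m - 1, fun i => w a b (X i) (E i), fun i hi j hj hij => ?_, ?_,
    fun i hi i' hi' hij => ?_⟩
  · obtain ⟨u, v⟩ := hinj _ _ _ _ hij
    have p := h1 i (hk i hi).1 (hk i hi).2
    have q := h1 j (hk j hj).1 (hk j hj).2
    have := Int.eq_zero_of_abs_lt_dvd u (abs_lt.2 ⟨by omega, by omega⟩)
    exact_mod_cast h2 i j (hk i hi).1 (hk i hi).2 (hk j hj).1 (hk j hj).2 (by omega) (by omega)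
  · ext g
    constructor
    · rintro ⟨i, hi, rfl⟩ hg
      have p := h1 i (hk i hi).1 (hk i hi).2
      obtain ⟨u, v⟩ := hinj (X i) (E i) 0 0 ((Set.mem_singleton_iff.1 hg).trans (by simp [w]))
      have := Int.eq_zero_of_abs_lt_dvd u (abs_lt.2 ⟨by omega, by omega⟩)
      omega
    · intro hg
      obtain ⟨y, e, rfl⟩ := hall g
      have h8 : (0 : ℤ) < 8 * m := by omega
      have hw : w a b y e = w a b (y % (8 * m)) (e % 2) := by
        unfold w
        rw [Int.emod_emod_of_dvd _ dvd_rfl]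
        congr 1
        have : a ^ (8 * m : ℤ) = 1 := by rw [← ha, ← zpow_natCast]; push_cast; rfl
        exact zpow_eq_zpow_emod y this
      have hs := Finset.surj_on_of_inj_on_of_card_le (s := Finset.range (16 * m - 1))
        (t := (Finset.Ico (0 : ℤ) (8 * m) ×ˢ Finset.Ico (0 : ℤ) 2).erase (0, 0))
        (fun i _ => (X i, E i)) (fun i hi => ?_) (fun i j hi hj hij => ?_) ?_
        (y % (8 * m), e % 2) ?_
      · obtain ⟨i, hi, e⟩ := hs
        refine ⟨i, Finset.mem_range.1 hi, ?_⟩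
        rw [hw, (Prod.mk.inj e).1, (Prod.mk.inj e).2]
      · have p := h1 i (hk i (Finset.mem_range.1 hi)).1 (hk i (Finset.mem_range.1 hi)).2
        simp only [Finset.mem_erase, Finset.mem_product, Finset.mem_Ico, ne_eq, Prod.mk.injEq]
        omega
      · have p := hk i (Finset.mem_range.1 hi)
        have q := hk j (Finset.mem_range.1 hj)
        exact_mod_cast h2 i j p.1 p.2 q.1 q.2 (Prod.mk.inj hij).1 (Prod.mk.inj hij).2
      · rw [Finset.card_erase_of_mem (by simp; omega)]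
        simp; omega
      · simp only [Finset.mem_erase, Finset.mem_product, Finset.mem_Ico, ne_eq, Prod.mk.injEq]
        refine ⟨fun hh => hg ?_, ⟨Int.emod_nonneg _ h8.ne', Int.emod_lt_of_pos _ h8⟩, by omega⟩
        rw [hw, hh.1, hh.2]; simp [w]
  · have nx : ∀ i : ℕ, i ∈ Set.Iio (16 * m - 1) → ∀ j : ℕ, j = (i + 1) % (16 * m - 1) →
        (((i : ℤ) + 1 < 16 * m - 1 ∧ (j : ℤ) = i + 1) ∨ ((i : ℤ) + 1 = 16 * m - 1 ∧ (j : ℤ) = 0)) := by
      intro i hi j hj
      have : i < 16 * m - 1 := hi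
      by_cases hh : i + 1 < 16 * m - 1
      · rw [Nat.mod_eq_of_lt hh] at hj; omega
      · rw [show i + 1 = 16 * m - 1 by omega, Nat.mod_self] at hj; omega
    have tw : ∀ e d : ℤ, (e = 0 ∨ e = 1) → -(8 * m : ℤ) < d → d < 8 * m → ∃ T,
        ((e = 0 ∧ T = d) ∨ (e = 1 ∧ d % 2 = 0 ∧ T = s * d) ∨
          (e = 1 ∧ d % 2 = 1 ∧ T = s * d + 4 * m)) ∧
        (8 * m : ℤ) ∣ (if e % 2 = 0 then d else r * d) - T ∧ -(8 * m : ℤ) < T ∧ T < 12 * m := by
      rintro e d (rfl | rfl) d0 d1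
      · exact ⟨d, by omega, by simp, by omega, by omega⟩
      · have hd := Int.emod_add_mul_ediv d 2
        by_cases hp : d % 2 = 0
        · refine ⟨s * d, by omega, ⟨d / 2, ?_⟩, by rcases hs with rfl | rfl <;> omega⟩
          rw [if_neg (by norm_num), hr]; rw [hp] at hd
          linear_combination (-4 * m : ℤ) * hd
        · have hp' : d % 2 = 1 := by omega
          refine ⟨s * d + 4 * m, by omega, ⟨d / 2, ?_⟩, by rcases hs with rfl | rfl <;> omega⟩
          rw [if_neg (by norm_num), hr]; rw [hp'] at hd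
          linear_combination (-4 * m : ℤ) * hd
    simp only [w_mul hb h] at hij
    obtain ⟨u, v⟩ := hinj _ _ _ _ hij
    have n1 := nx i hi _ rfl
    have n2 := nx i' hi' _ rfl
    generalize (i + 1) % (16 * m - 1) = j at *
    generalize (i' + 1) % (16 * m - 1) = j' at *
    have p := h1 i (hk i hi).1 (hk i hi).2
    have p' := h1 i' (hk i' hi').1 (hk i' hi').2
    have q := h1 j (by omega) (by omega)
    have q' := h1 j' (by omega) (by omega)
    obtain ⟨T, t1, t2, t3⟩ := tw (E i) (X j - X i) p.2.2.1 (by omega) (by omega)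
    obtain ⟨T', t1', t2', t3'⟩ := tw (E i') (X j' - X i') p'.2.2.1 (by omega) (by omega)
    have hd : (8 * m : ℤ) ∣ T - T' := by
      have := dvd_add (dvd_sub u t2) t2'
      rwa [show ∀ x y z w : ℤ, x - y - (x - z) + (y - w) = z - w by intros; ring] at this
    obtain ⟨c, hc⟩ := hd
    have c1 : -3 < c := by nlinarith
    have c2 : c < 3 := by nlinarith
    exact_mod_cast h3 i i' j j' T T' (hk i hi).1 (hk i hi).2 n1 (hk i' hi').1 (hk i' hi').2 n2
      t1 t1' v (by interval_cases c <;> omega)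
end

theorem pres (m r : ℕ) (s : ℤ) (hm : 1 ≤ m) (hs : s = 1 ∨ s = -1) (hr : (r : ℤ) = 4 * m + s)
    (X E : ℤ → ℤ) (h1 : G1 m X E) (h2 : G2 m X E) (h3 : G3 m s X E) :
    RSequenceable (PresentedGroup (rels (8 * m) r)) := by
  set a : PresentedGroup (rels (8 * m) r) := PresentedGroup.of 0
  set b : PresentedGroup (rels (8 * m) r) := PresentedGroup.of 1
  have rel : ∀ x ∈ rels (8 * m) r, PresentedGroup.mk (rels (8 * m) r) x = 1 :=
    fun x hx => PresentedGroup.one_of_mem hx
  have ha : a ^ (8 * m) = 1 := by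
    have := rel (FreeGroup.of 0 ^ (8 * m)) (by simp [rels])
    rwa [map_pow] at this
  have hb : b ^ 2 = 1 := by
    have := rel (FreeGroup.of 1 ^ 2) (by simp [rels])
    rwa [map_pow] at this
  have h : b * a * b⁻¹ = a ^ r := by
    have := rel (FreeGroup.of 1 * FreeGroup.of 0 * (FreeGroup.of 1)⁻¹ * (FreeGroup.of 0 ^ r)⁻¹)
      (by simp [rels])
    simp only [map_mul, map_inv, map_pow] at this
    exact mul_inv_eq_one.1 this
  refine main m s hm hs hr ha hb h (fun g => ?_) (fun i e j f hij => ?_) X E h1 h2 h3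
  · have inv : ∀ g, (∃ i e, g = w a b i e) → ∃ i e, g⁻¹ = w a b i e := by
      rintro g ⟨i, e, rfl⟩
      have := w_mul hb h i e 0 0
      rw [show w a b 0 0 = 1 by simp [w], mul_one] at this
      exact ⟨_, _, this⟩
    let H : Subgroup (PresentedGroup (rels (8 * m) r)) :=
      { carrier := {g | ∃ i e, g = w a b i e}
        one_mem' := ⟨0, 0, by simp [w]⟩
        inv_mem' := fun {g} hg => inv g hg
        mul_mem' := fun {x y} hx hy => by
          obtain ⟨i, e, hx⟩ := inv x hx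
          obtain ⟨j, f, rfl⟩ := hy
          exact ⟨_, _, by rw [← w_mul hb h i e j f, ← hx, inv_inv]⟩ }
    refine PresentedGroup.generated_by _ H (fun j => ?_) g
    fin_cases j
    · exact ⟨1, 0, by simp [w, a]⟩
    · exact ⟨0, 1, by simp [w, b]⟩
  · have hrr : (r : ZMod (8 * m)) * r = 1 := by
      have : ((r * r - 1 : ℤ) : ZMod (8 * m)) = 0 := by
        rw [ZMod.intCast_zmod_eq_zero_iff_dvd, hr]
        exact ⟨2 * m + s, by rcases hs with rfl | rfl <;> push_cast <;> ring⟩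
      push_cast at this
      exact sub_eq_zero.1 this
    have hr1 : (r : ZMod (8 * m)) ≠ 1 := fun hh => by
      have : ((r - 1 : ℤ) : ZMod (8 * m)) = 0 := by push_cast; rw [hh, sub_self]
      rw [ZMod.intCast_zmod_eq_zero_iff_dvd] at this
      have := Int.eq_zero_of_abs_lt_dvd this (abs_lt.2 ⟨by push_cast; omega, by push_cast; omega⟩)
      omega
    let B : Equiv.Perm (ZMod (8 * m)) := ⟨fun x => r * x, fun x => r * x,
      fun x => by simp [← mul_assoc, hrr], fun x => by simp [← mul_assoc, hrr]⟩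
    let φ : Fin 2 → Equiv.Perm (ZMod (8 * m)) := ![Equiv.addLeft 1, B]
    have hφ : ∀ x ∈ rels (8 * m) r, FreeGroup.lift φ x = 1 := by
      rintro x (rfl | rfl | rfl)
      · ext x; simp [φ, -Nat.cast_mul]
      · ext x; simp [φ, B, sq, ← mul_assoc, hrr]
      · rw [map_mul, map_inv, mul_inv_eq_one]
        ext x; simp [φ, B, mul_add, ← mul_assoc, hrr, Equiv.Perm.inv_def]
    have ev : ∀ i e x, PresentedGroup.toGroup hφ (w a b i e) x
        = i + if e % 2 = 0 then x else r * x := by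
      intro i e x
      unfold w
      split_ifs <;> simp [a, b, φ, B]
    have e0 := ev i e 0
    have e1 := ev i e 1
    rw [hij, ev] at e0 e1
    simp only [mul_zero, ite_self, add_zero] at e0
    rw [e0, add_right_inj, mul_one] at e1
    refine ⟨?_, ?_⟩
    · have := (ZMod.intCast_eq_intCast_iff_dvd_sub j i (8 * m)).1 e0
      exact_mod_cast this
    · by_contra hne
      split_ifs at e1 with c1 c2 c2
      · omega
      · exact hr1 e1.symm
      · exact hr1 e1
      · omega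

end Pool.Agent.H54.RSeq
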