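import Mathlib

set_option linter.unusedVariables false
set_option linter.unnecessarySeqFocus false
set_option linter.unusedTactic false
set_option linter.unreachableTactic false

namespace Pool.Agent.H54.RSeq

def G1 (m : ℤ) (X E : ℤ → ℤ) : Prop := ∀ i, 0 ≤ i → i < 16 * m - 1 →
    0 ≤ X i ∧ X i < 8 * m ∧ (E i = 0 ∨ E i = 1) ∧ (X i ≠ 0 ∨ E i ≠ 0)

def G2 (m : ℤ) (X E : ℤ → ℤ) : Prop :=
  ∀ i j, 0 ≤ i → i < 16 * m - 1 → 0 ≤ j → j < 16 * m - 1 → X i = X j → E i = E j → i = j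

def G3 (m s : ℤ) (X E : ℤ → ℤ) : Prop :=
  ∀ i i' j j' T T' : ℤ, 0 ≤ i → i < 16 * m - 1 →
    ((i + 1 < 16 * m - 1 ∧ j = i + 1) ∨ (i + 1 = 16 * m - 1 ∧ j = 0)) →
    0 ≤ i' → i' < 16 * m - 1 →
    ((i' + 1 < 16 * m - 1 ∧ j' = i' + 1) ∨ (i' + 1 = 16 * m - 1 ∧ j' = 0)) →
    ((E i = 0 ∧ T = X j - X i) ∨ (E i = 1 ∧ (X j - X i) % 2 = 0 ∧ T = s * (X j - X i)) ∨
      (E i = 1 ∧ (X j - X i) % 2 = 1 ∧ T = s * (X j - X i) + 4 * m)) →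
    ((E i' = 0 ∧ T' = X j' - X i') ∨ (E i' = 1 ∧ (X j' - X i') % 2 = 0 ∧ T' = s * (X j' - X i')) ∨
      (E i' = 1 ∧ (X j' - X i') % 2 = 1 ∧ T' = s * (X j' - X i') + 4 * m)) →
    (E i + E j) % 2 = (E i' + E j') % 2 →
    (T - T' = -16 * m ∨ T - T' = -8 * m ∨ T - T' = 0 ∨ T - T' = 8 * m ∨ T - T' = 16 * m) → i = i'

end Pool.Agent.H54.RSeq
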