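import Pool.Agent.H54.RSeqA

set_option linter.unusedVariables false
set_option linter.unnecessarySeqFocus false
set_option linter.unusedTactic false
set_option linter.unreachableTactic false

namespace Pool.Agent.H54.RSeq

def Xm (m i : ℤ) : ℤ :=
  if i < (8 * m - 1) then (if (i - (0)) % 2 = 0 then (5 * m) - (i - (0)) / 2 else (4 * m + 1) + (i - (0)) / 2) else
  if i < (10 * m - 2) then (if (i - (8 * m - 1)) % 2 = 0 then (7 * m) + (i - (8 * m - 1)) / 2 else (7 * m - 1) - (i - (8 * m - 1)) / 2) else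
  if i < (12 * m - 3) then (if (i - (10 * m - 2)) % 2 = 0 then (6 * m) - (i - (10 * m - 2)) / 2 else (1) + (i - (10 * m - 2)) / 2) else
  if i < (12 * m - 2) then (4 * m) else
  if i < (14 * m - 3) then (if (i - (12 * m - 2)) % 2 = 0 then (2 * m) - (i - (12 * m - 2)) / 2 else (2 * m + 1) + (i - (12 * m - 2)) / 2) else
  if i < (16 * m - 2) then (if (i - (14 * m - 3)) % 2 = 0 then (1 * m) - (i - (14 * m - 3)) / 2 else (3 * m) + (i - (14 * m - 3)) / 2) else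
  (1 * m)

def Em (m i : ℤ) : ℤ :=
  if i < (8 * m - 1) then (if (i - (0)) % 2 = 0 then 0 else 1) else
  if i < (10 * m - 2) then (if (i - (8 * m - 1)) % 2 = 0 then 0 else 0) else
  if i < (12 * m - 3) then (if (i - (10 * m - 2)) % 2 = 0 then 0 else 0) else
  if i < (12 * m - 2) then 1 else
  if i < (14 * m - 3) then (if (i - (12 * m - 2)) % 2 = 0 then 1 else 1) else
  if i < (16 * m - 2) then (if (i - (14 * m - 3)) % 2 = 0 then 1 else 1) else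
  0

lemma cm00 (m i : ℤ) (hm : 1 ≤ m) (h : (0) ≤ i ∧ i < (8 * m - 1) ∧ (i - (0)) % 2 = 0) :
    2 * Xm m i = 2 * (5 * m) - (i - (0)) ∧ Em m i = 0 := by
  constructor
  · rw [Xm, if_pos (show i < (8 * m - 1) by omega), if_pos h.2.2] <;> omega
  · rw [Em, if_pos (show i < (8 * m - 1) by omega), if_pos h.2.2]

lemma cm01 (m i : ℤ) (hm : 1 ≤ m) (h : (0) ≤ i ∧ i < (8 * m - 1) ∧ (i - (0)) % 2 = 1) :
    2 * Xm m i = 2 * (4 * m + 1) + (i - (0) - 1) ∧ Em m i = 1 := by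
  constructor
  · rw [Xm, if_pos (show i < (8 * m - 1) by omega), if_neg (show ¬ (i - (0)) % 2 = 0 by omega)] <;> omega
  · rw [Em, if_pos (show i < (8 * m - 1) by omega), if_neg (show ¬ (i - (0)) % 2 = 0 by omega)]

lemma cm10 (m i : ℤ) (hm : 1 ≤ m) (h : (8 * m - 1) ≤ i ∧ i < (10 * m - 2) ∧ (i - (8 * m - 1)) % 2 = 0) :
    2 * Xm m i = 2 * (7 * m) + (i - (8 * m - 1)) ∧ Em m i = 0 := by
  constructor
  · rw [Xm, if_neg (show ¬ i < (8 * m - 1) by omega), if_pos (show i < (10 * m - 2) by omega), if_pos h.2.2] <;> omega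
  · rw [Em, if_neg (show ¬ i < (8 * m - 1) by omega), if_pos (show i < (10 * m - 2) by omega), if_pos h.2.2]

lemma cm11 (m i : ℤ) (hm : 1 ≤ m) (h : (8 * m - 1) ≤ i ∧ i < (10 * m - 2) ∧ (i - (8 * m - 1)) % 2 = 1) :
    2 * Xm m i = 2 * (7 * m - 1) - (i - (8 * m - 1) - 1) ∧ Em m i = 0 := by
  constructor
  · rw [Xm, if_neg (show ¬ i < (8 * m - 1) by omega), if_pos (show i < (10 * m - 2) by omega), if_neg (show ¬ (i - (8 * m - 1)) % 2 = 0 by omega)] <;> omega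
  · rw [Em, if_neg (show ¬ i < (8 * m - 1) by omega), if_pos (show i < (10 * m - 2) by omega), if_neg (show ¬ (i - (8 * m - 1)) % 2 = 0 by omega)]

lemma cm20 (m i : ℤ) (hm : 1 ≤ m) (h : (10 * m - 2) ≤ i ∧ i < (12 * m - 3) ∧ (i - (10 * m - 2)) % 2 = 0) :
    2 * Xm m i = 2 * (6 * m) - (i - (10 * m - 2)) ∧ Em m i = 0 := by
  constructor
  · rw [Xm, if_neg (show ¬ i < (8 * m - 1) by omega), if_neg (show ¬ i < (10 * m - 2) by omega), if_pos (show i < (12 * m - 3) by omega), if_pos h.2.2] <;> omega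
  · rw [Em, if_neg (show ¬ i < (8 * m - 1) by omega), if_neg (show ¬ i < (10 * m - 2) by omega), if_pos (show i < (12 * m - 3) by omega), if_pos h.2.2]

lemma cm21 (m i : ℤ) (hm : 1 ≤ m) (h : (10 * m - 2) ≤ i ∧ i < (12 * m - 3) ∧ (i - (10 * m - 2)) % 2 = 1) :
    2 * Xm m i = 2 * (1) + (i - (10 * m - 2) - 1) ∧ Em m i = 0 := by
  constructor
  · rw [Xm, if_neg (show ¬ i < (8 * m - 1) by omega), if_neg (show ¬ i < (10 * m - 2) by omega), if_pos (show i < (12 * m - 3) by omega), if_neg (show ¬ (i - (10 * m - 2)) % 2 = 0 by omega)] <;> omega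
  · rw [Em, if_neg (show ¬ i < (8 * m - 1) by omega), if_neg (show ¬ i < (10 * m - 2) by omega), if_pos (show i < (12 * m - 3) by omega), if_neg (show ¬ (i - (10 * m - 2)) % 2 = 0 by omega)]

lemma cm30 (m i : ℤ) (hm : 1 ≤ m) (h : i = (12 * m - 3)) :
    Xm m i = (4 * m) ∧ Em m i = 1 := by
  constructor
  · rw [Xm, if_neg (show ¬ i < (8 * m - 1) by omega), if_neg (show ¬ i < (10 * m - 2) by omega), if_neg (show ¬ i < (12 * m - 3) by omega), if_pos (show i < (12 * m - 2) by omega)] <;> omega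
  · rw [Em, if_neg (show ¬ i < (8 * m - 1) by omega), if_neg (show ¬ i < (10 * m - 2) by omega), if_neg (show ¬ i < (12 * m - 3) by omega), if_pos (show i < (12 * m - 2) by omega)]

lemma cm40 (m i : ℤ) (hm : 1 ≤ m) (h : (12 * m - 2) ≤ i ∧ i < (14 * m - 3) ∧ (i - (12 * m - 2)) % 2 = 0) :
    2 * Xm m i = 2 * (2 * m) - (i - (12 * m - 2)) ∧ Em m i = 1 := by
  constructor
  · rw [Xm, if_neg (show ¬ i < (8 * m - 1) by omega), if_neg (show ¬ i < (10 * m - 2) by omega), if_neg (show ¬ i < (12 * m - 3) by omega), if_neg (show ¬ i < (12 * m - 2) by omega), if_pos (show i < (14 * m - 3) by omega), if_pos h.2.2] <;> omega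
  · rw [Em, if_neg (show ¬ i < (8 * m - 1) by omega), if_neg (show ¬ i < (10 * m - 2) by omega), if_neg (show ¬ i < (12 * m - 3) by omega), if_neg (show ¬ i < (12 * m - 2) by omega), if_pos (show i < (14 * m - 3) by omega), if_pos h.2.2]

lemma cm41 (m i : ℤ) (hm : 1 ≤ m) (h : (12 * m - 2) ≤ i ∧ i < (14 * m - 3) ∧ (i - (12 * m - 2)) % 2 = 1) :
    2 * Xm m i = 2 * (2 * m + 1) + (i - (12 * m - 2) - 1) ∧ Em m i = 1 := by
  constructor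
  · rw [Xm, if_neg (show ¬ i < (8 * m - 1) by omega), if_neg (show ¬ i < (10 * m - 2) by omega), if_neg (show ¬ i < (12 * m - 3) by omega), if_neg (show ¬ i < (12 * m - 2) by omega), if_pos (show i < (14 * m - 3) by omega), if_neg (show ¬ (i - (12 * m - 2)) % 2 = 0 by omega)] <;> omega
  · rw [Em, if_neg (show ¬ i < (8 * m - 1) by omega), if_neg (show ¬ i < (10 * m - 2) by omega), if_neg (show ¬ i < (12 * m - 3) by omega), if_neg (show ¬ i < (12 * m - 2) by omega), if_pos (show i < (14 * m - 3) by omega), if_neg (show ¬ (i - (12 * m - 2)) % 2 = 0 by omega)]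

lemma cm50 (m i : ℤ) (hm : 1 ≤ m) (h : (14 * m - 3) ≤ i ∧ i < (16 * m - 2) ∧ (i - (14 * m - 3)) % 2 = 0) :
    2 * Xm m i = 2 * (1 * m) - (i - (14 * m - 3)) ∧ Em m i = 1 := by
  constructor
  · rw [Xm, if_neg (show ¬ i < (8 * m - 1) by omega), if_neg (show ¬ i < (10 * m - 2) by omega), if_neg (show ¬ i < (12 * m - 3) by omega), if_neg (show ¬ i < (12 * m - 2) by omega), if_neg (show ¬ i < (14 * m - 3) by omega), if_pos (show i < (16 * m - 2) by omega), if_pos h.2.2] <;> omega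
  · rw [Em, if_neg (show ¬ i < (8 * m - 1) by omega), if_neg (show ¬ i < (10 * m - 2) by omega), if_neg (show ¬ i < (12 * m - 3) by omega), if_neg (show ¬ i < (12 * m - 2) by omega), if_neg (show ¬ i < (14 * m - 3) by omega), if_pos (show i < (16 * m - 2) by omega), if_pos h.2.2]

lemma cm51 (m i : ℤ) (hm : 1 ≤ m) (h : (14 * m - 3) ≤ i ∧ i < (16 * m - 2) ∧ (i - (14 * m - 3)) % 2 = 1) :
    2 * Xm m i = 2 * (3 * m) + (i - (14 * m - 3) - 1) ∧ Em m i = 1 := by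
  constructor
  · rw [Xm, if_neg (show ¬ i < (8 * m - 1) by omega), if_neg (show ¬ i < (10 * m - 2) by omega), if_neg (show ¬ i < (12 * m - 3) by omega), if_neg (show ¬ i < (12 * m - 2) by omega), if_neg (show ¬ i < (14 * m - 3) by omega), if_pos (show i < (16 * m - 2) by omega), if_neg (show ¬ (i - (14 * m - 3)) % 2 = 0 by omega)] <;> omega
  · rw [Em, if_neg (show ¬ i < (8 * m - 1) by omega), if_neg (show ¬ i < (10 * m - 2) by omega), if_neg (show ¬ i < (12 * m - 3) by omega), if_neg (show ¬ i < (12 * m - 2) by omega), if_neg (show ¬ i < (14 * m - 3) by omega), if_pos (show i < (16 * m - 2) by omega), if_neg (show ¬ (i - (14 * m - 3)) % 2 = 0 by omega)]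

lemma cm60 (m i : ℤ) (hm : 1 ≤ m) (h : i = (16 * m - 2)) :
    Xm m i = (1 * m) ∧ Em m i = 0 := by
  constructor
  · rw [Xm, if_neg (show ¬ i < (8 * m - 1) by omega), if_neg (show ¬ i < (10 * m - 2) by omega), if_neg (show ¬ i < (12 * m - 3) by omega), if_neg (show ¬ i < (12 * m - 2) by omega), if_neg (show ¬ i < (14 * m - 3) by omega), if_neg (show ¬ i < (16 * m - 2) by omega)] <;> omega
  · rw [Em, if_neg (show ¬ i < (8 * m - 1) by omega), if_neg (show ¬ i < (10 * m - 2) by omega), if_neg (show ¬ i < (12 * m - 3) by omega), if_neg (show ¬ i < (12 * m - 2) by omega), if_neg (show ¬ i < (14 * m - 3) by omega), if_neg (show ¬ i < (16 * m - 2) by omega)]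

lemma specm (m i : ℤ) (hm : 1 ≤ m) (h0 : 0 ≤ i) (h1 : i < 16 * m - 1) :
    (((0) ≤ i ∧ i < (8 * m - 1) ∧ (i - (0)) % 2 = 0) ∧ 2 * Xm m i = 2 * (5 * m) - (i - (0)) ∧ Em m i = 0) ∨
    (((0) ≤ i ∧ i < (8 * m - 1) ∧ (i - (0)) % 2 = 1) ∧ 2 * Xm m i = 2 * (4 * m + 1) + (i - (0) - 1) ∧ Em m i = 1) ∨
    (((8 * m - 1) ≤ i ∧ i < (10 * m - 2) ∧ (i - (8 * m - 1)) % 2 = 0) ∧ 2 * Xm m i = 2 * (7 * m) + (i - (8 * m - 1)) ∧ Em m i = 0) ∨
    (((8 * m - 1) ≤ i ∧ i < (10 * m - 2) ∧ (i - (8 * m - 1)) % 2 = 1) ∧ 2 * Xm m i = 2 * (7 * m - 1) - (i - (8 * m - 1) - 1) ∧ Em m i = 0) ∨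
    (((10 * m - 2) ≤ i ∧ i < (12 * m - 3) ∧ (i - (10 * m - 2)) % 2 = 0) ∧ 2 * Xm m i = 2 * (6 * m) - (i - (10 * m - 2)) ∧ Em m i = 0) ∨
    (((10 * m - 2) ≤ i ∧ i < (12 * m - 3) ∧ (i - (10 * m - 2)) % 2 = 1) ∧ 2 * Xm m i = 2 * (1) + (i - (10 * m - 2) - 1) ∧ Em m i = 0) ∨
    ((i = (12 * m - 3)) ∧ Xm m i = (4 * m) ∧ Em m i = 1) ∨
    (((12 * m - 2) ≤ i ∧ i < (14 * m - 3) ∧ (i - (12 * m - 2)) % 2 = 0) ∧ 2 * Xm m i = 2 * (2 * m) - (i - (12 * m - 2)) ∧ Em m i = 1) ∨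
    (((12 * m - 2) ≤ i ∧ i < (14 * m - 3) ∧ (i - (12 * m - 2)) % 2 = 1) ∧ 2 * Xm m i = 2 * (2 * m + 1) + (i - (12 * m - 2) - 1) ∧ Em m i = 1) ∨
    (((14 * m - 3) ≤ i ∧ i < (16 * m - 2) ∧ (i - (14 * m - 3)) % 2 = 0) ∧ 2 * Xm m i = 2 * (1 * m) - (i - (14 * m - 3)) ∧ Em m i = 1) ∨
    (((14 * m - 3) ≤ i ∧ i < (16 * m - 2) ∧ (i - (14 * m - 3)) % 2 = 1) ∧ 2 * Xm m i = 2 * (3 * m) + (i - (14 * m - 3) - 1) ∧ Em m i = 1) ∨
    ((i = (16 * m - 2)) ∧ Xm m i = (1 * m) ∧ Em m i = 0) := by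
  by_cases g0 : i < (8 * m - 1)
  · by_cases hp : (i - (0)) % 2 = 0
    · have h : (0) ≤ i ∧ i < (8 * m - 1) ∧ (i - (0)) % 2 = 0 := ⟨by omega, by omega, by omega⟩
      exact Or.inl (⟨h, cm00 m i hm h⟩)
    · have h : (0) ≤ i ∧ i < (8 * m - 1) ∧ (i - (0)) % 2 = 1 := ⟨by omega, by omega, by omega⟩
      exact Or.inr (Or.inl (⟨h, cm01 m i hm h⟩))
  by_cases g1 : i < (10 * m - 2)
  · by_cases hp : (i - (8 * m - 1)) % 2 = 0
    · have h : (8 * m - 1) ≤ i ∧ i < (10 * m - 2) ∧ (i - (8 * m - 1)) % 2 = 0 := ⟨by omega, by omega, by omega⟩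
      exact Or.inr (Or.inr (Or.inl (⟨h, cm10 m i hm h⟩)))
    · have h : (8 * m - 1) ≤ i ∧ i < (10 * m - 2) ∧ (i - (8 * m - 1)) % 2 = 1 := ⟨by omega, by omega, by omega⟩
      exact Or.inr (Or.inr (Or.inr (Or.inl (⟨h, cm11 m i hm h⟩))))
  by_cases g2 : i < (12 * m - 3)
  · by_cases hp : (i - (10 * m - 2)) % 2 = 0
    · have h : (10 * m - 2) ≤ i ∧ i < (12 * m - 3) ∧ (i - (10 * m - 2)) % 2 = 0 := ⟨by omega, by omega, by omega⟩
      exact Or.inr (Or.inr (Or.inr (Or.inr (Or.inl (⟨h, cm20 m i hm h⟩)))))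
    · have h : (10 * m - 2) ≤ i ∧ i < (12 * m - 3) ∧ (i - (10 * m - 2)) % 2 = 1 := ⟨by omega, by omega, by omega⟩
      exact Or.inr (Or.inr (Or.inr (Or.inr (Or.inr (Or.inl (⟨h, cm21 m i hm h⟩))))))
  by_cases g3 : i < (12 * m - 2)
  · have h : i = (12 * m - 3) := by omega
    exact Or.inr (Or.inr (Or.inr (Or.inr (Or.inr (Or.inr (Or.inl (⟨h, cm30 m i hm h⟩)))))))
  by_cases g4 : i < (14 * m - 3)
  · by_cases hp : (i - (12 * m - 2)) % 2 = 0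
    · have h : (12 * m - 2) ≤ i ∧ i < (14 * m - 3) ∧ (i - (12 * m - 2)) % 2 = 0 := ⟨by omega, by omega, by omega⟩
      exact Or.inr (Or.inr (Or.inr (Or.inr (Or.inr (Or.inr (Or.inr (Or.inl (⟨h, cm40 m i hm h⟩))))))))
    · have h : (12 * m - 2) ≤ i ∧ i < (14 * m - 3) ∧ (i - (12 * m - 2)) % 2 = 1 := ⟨by omega, by omega, by omega⟩
      exact Or.inr (Or.inr (Or.inr (Or.inr (Or.inr (Or.inr (Or.inr (Or.inr (Or.inl (⟨h, cm41 m i hm h⟩)))))))))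
  by_cases g5 : i < (16 * m - 2)
  · by_cases hp : (i - (14 * m - 3)) % 2 = 0
    · have h : (14 * m - 3) ≤ i ∧ i < (16 * m - 2) ∧ (i - (14 * m - 3)) % 2 = 0 := ⟨by omega, by omega, by omega⟩
      exact Or.inr (Or.inr (Or.inr (Or.inr (Or.inr (Or.inr (Or.inr (Or.inr (Or.inr (Or.inl (⟨h, cm50 m i hm h⟩))))))))))
    · have h : (14 * m - 3) ≤ i ∧ i < (16 * m - 2) ∧ (i - (14 * m - 3)) % 2 = 1 := ⟨by omega, by omega, by omega⟩
      exact Or.inr (Or.inr (Or.inr (Or.inr (Or.inr (Or.inr (Or.inr (Or.inr (Or.inr (Or.inr (Or.inl (⟨h, cm51 m i hm h⟩)))))))))))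
  have h : i = (16 * m - 2) := by omega
  exact Or.inr (Or.inr (Or.inr (Or.inr (Or.inr (Or.inr (Or.inr (Or.inr (Or.inr (Or.inr (Or.inr (⟨h, cm60 m i hm h⟩)))))))))))

lemma stepm (m i j : ℤ) (hm : 1 ≤ m) (h0 : 0 ≤ i) (h1 : i < 16 * m - 1)
    (hj : (i + 1 < 16 * m - 1 ∧ j = i + 1) ∨ (i + 1 = 16 * m - 1 ∧ j = 0)) :
    (((0) ≤ i ∧ i + 1 < (8 * m - 1) ∧ (i - (0)) % 2 = 0) ∧ Xm m j - Xm m i = (-1 * m + 1) + (i - (0)) ∧ Em m i = 0 ∧ Em m j = 1) ∨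
    (((0) ≤ i ∧ i + 1 < (8 * m - 1) ∧ (i - (0)) % 2 = 1) ∧ Xm m j - Xm m i = (1 * m - 1) - (i - (0)) ∧ Em m i = 1 ∧ Em m j = 0) ∨
    ((i + 1 = (8 * m - 1)) ∧ Xm m j - Xm m i = (6 * m - 1) ∧ Em m i = 0 ∧ Em m j = 0) ∨
    (((8 * m - 1) ≤ i ∧ i + 1 < (10 * m - 2) ∧ (i - (8 * m - 1)) % 2 = 0) ∧ Xm m j - Xm m i = ( - 1) - (i - (8 * m - 1)) ∧ Em m i = 0 ∧ Em m j = 0) ∨
    (((8 * m - 1) ≤ i ∧ i + 1 < (10 * m - 2) ∧ (i - (8 * m - 1)) % 2 = 1) ∧ Xm m j - Xm m i = (1) + (i - (8 * m - 1)) ∧ Em m i = 0 ∧ Em m j = 0) ∨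
    ((i + 1 = (10 * m - 2)) ∧ Xm m j - Xm m i = (-2 * m + 1) ∧ Em m i = 0 ∧ Em m j = 0) ∨
    (((10 * m - 2) ≤ i ∧ i + 1 < (12 * m - 3) ∧ (i - (10 * m - 2)) % 2 = 0) ∧ Xm m j - Xm m i = (-6 * m + 1) + (i - (10 * m - 2)) ∧ Em m i = 0 ∧ Em m j = 0) ∨
    (((10 * m - 2) ≤ i ∧ i + 1 < (12 * m - 3) ∧ (i - (10 * m - 2)) % 2 = 1) ∧ Xm m j - Xm m i = (6 * m - 1) - (i - (10 * m - 2)) ∧ Em m i = 0 ∧ Em m j = 0) ∨
    ((i + 1 = (12 * m - 3)) ∧ Xm m j - Xm m i = (-1 * m - 1) ∧ Em m i = 0 ∧ Em m j = 1) ∨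
    ((i + 1 = (12 * m - 2)) ∧ Xm m j - Xm m i = (-2 * m) ∧ Em m i = 1 ∧ Em m j = 1) ∨
    (((12 * m - 2) ≤ i ∧ i + 1 < (14 * m - 3) ∧ (i - (12 * m - 2)) % 2 = 0) ∧ Xm m j - Xm m i = (1) + (i - (12 * m - 2)) ∧ Em m i = 1 ∧ Em m j = 1) ∨
    (((12 * m - 2) ≤ i ∧ i + 1 < (14 * m - 3) ∧ (i - (12 * m - 2)) % 2 = 1) ∧ Xm m j - Xm m i = ( - 1) - (i - (12 * m - 2)) ∧ Em m i = 1 ∧ Em m j = 1) ∨
    ((i + 1 = (14 * m - 3)) ∧ Xm m j - Xm m i = ( - 1) ∧ Em m i = 1 ∧ Em m j = 1) ∨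
    (((14 * m - 3) ≤ i ∧ i + 1 < (16 * m - 2) ∧ (i - (14 * m - 3)) % 2 = 0) ∧ Xm m j - Xm m i = (2 * m) + (i - (14 * m - 3)) ∧ Em m i = 1 ∧ Em m j = 1) ∨
    (((14 * m - 3) ≤ i ∧ i + 1 < (16 * m - 2) ∧ (i - (14 * m - 3)) % 2 = 1) ∧ Xm m j - Xm m i = (-2 * m) - (i - (14 * m - 3)) ∧ Em m i = 1 ∧ Em m j = 1) ∨
    ((i + 1 = (16 * m - 2)) ∧ Xm m j - Xm m i = (1 * m) ∧ Em m i = 1 ∧ Em m j = 0) ∨
    ((i + 1 = (16 * m - 1)) ∧ Xm m j - Xm m i = (4 * m) ∧ Em m i = 0 ∧ Em m j = 0) := by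
  by_cases g0 : i + 1 < (8 * m - 1)
  · have hj : j = i + 1 := by omega
    by_cases hp : (i - (0)) % 2 = 0
    · have h : (0) ≤ i ∧ i + 1 < (8 * m - 1) ∧ (i - (0)) % 2 = 0 := ⟨by omega, by omega, by omega⟩
      exact Or.inl (⟨h, by have a := cm00 m i hm (by omega); have b := cm01 m j hm (by omega); omega⟩)
    · have h : (0) ≤ i ∧ i + 1 < (8 * m - 1) ∧ (i - (0)) % 2 = 1 := ⟨by omega, by omega, by omega⟩
      exact Or.inr (Or.inl (⟨h, by have a := cm01 m i hm (by omega); have b := cm00 m j hm (by omega); omega⟩))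
  by_cases h : i + 1 = (8 * m - 1)
  · exact Or.inr (Or.inr (Or.inl (⟨h, by have a := cm00 m i hm (by omega); have b := cm10 m j hm (by omega); omega⟩)))
  by_cases g1 : i + 1 < (10 * m - 2)
  · have hj : j = i + 1 := by omega
    by_cases hp : (i - (8 * m - 1)) % 2 = 0
    · have h : (8 * m - 1) ≤ i ∧ i + 1 < (10 * m - 2) ∧ (i - (8 * m - 1)) % 2 = 0 := ⟨by omega, by omega, by omega⟩
      exact Or.inr (Or.inr (Or.inr (Or.inl (⟨h, by have a := cm10 m i hm (by omega); have b := cm11 m j hm (by omega); omega⟩))))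
    · have h : (8 * m - 1) ≤ i ∧ i + 1 < (10 * m - 2) ∧ (i - (8 * m - 1)) % 2 = 1 := ⟨by omega, by omega, by omega⟩
      exact Or.inr (Or.inr (Or.inr (Or.inr (Or.inl (⟨h, by have a := cm11 m i hm (by omega); have b := cm10 m j hm (by omega); omega⟩)))))
  by_cases h : i + 1 = (10 * m - 2)
  · exact Or.inr (Or.inr (Or.inr (Or.inr (Or.inr (Or.inl (⟨h, by have a := cm10 m i hm (by omega); have b := cm20 m j hm (by omega); omega⟩))))))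
  by_cases g2 : i + 1 < (12 * m - 3)
  · have hj : j = i + 1 := by omega
    by_cases hp : (i - (10 * m - 2)) % 2 = 0
    · have h : (10 * m - 2) ≤ i ∧ i + 1 < (12 * m - 3) ∧ (i - (10 * m - 2)) % 2 = 0 := ⟨by omega, by omega, by omega⟩
      exact Or.inr (Or.inr (Or.inr (Or.inr (Or.inr (Or.inr (Or.inl (⟨h, by have a := cm20 m i hm (by omega); have b := cm21 m j hm (by omega); omega⟩)))))))
    · have h : (10 * m - 2) ≤ i ∧ i + 1 < (12 * m - 3) ∧ (i - (10 * m - 2)) % 2 = 1 := ⟨by omega, by omega, by omega⟩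
      exact Or.inr (Or.inr (Or.inr (Or.inr (Or.inr (Or.inr (Or.inr (Or.inl (⟨h, by have a := cm21 m i hm (by omega); have b := cm20 m j hm (by omega); omega⟩))))))))
  by_cases h : i + 1 = (12 * m - 3)
  · exact Or.inr (Or.inr (Or.inr (Or.inr (Or.inr (Or.inr (Or.inr (Or.inr (Or.inl (⟨h, by have a := cm20 m i hm (by omega); have b := cm30 m j hm (by omega); omega⟩)))))))))
  by_cases h : i + 1 = (12 * m - 2)
  · exact Or.inr (Or.inr (Or.inr (Or.inr (Or.inr (Or.inr (Or.inr (Or.inr (Or.inr (Or.inl (⟨h, by have a := cm30 m i hm (by omega); have b := cm40 m j hm (by omega); omega⟩))))))))))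
  by_cases g4 : i + 1 < (14 * m - 3)
  · have hj : j = i + 1 := by omega
    by_cases hp : (i - (12 * m - 2)) % 2 = 0
    · have h : (12 * m - 2) ≤ i ∧ i + 1 < (14 * m - 3) ∧ (i - (12 * m - 2)) % 2 = 0 := ⟨by omega, by omega, by omega⟩
      exact Or.inr (Or.inr (Or.inr (Or.inr (Or.inr (Or.inr (Or.inr (Or.inr (Or.inr (Or.inr (Or.inl (⟨h, by have a := cm40 m i hm (by omega); have b := cm41 m j hm (by omega); omega⟩)))))))))))
    · have h : (12 * m - 2) ≤ i ∧ i + 1 < (14 * m - 3) ∧ (i - (12 * m - 2)) % 2 = 1 := ⟨by omega, by omega, by omega⟩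
      exact Or.inr (Or.inr (Or.inr (Or.inr (Or.inr (Or.inr (Or.inr (Or.inr (Or.inr (Or.inr (Or.inr (Or.inl (⟨h, by have a := cm41 m i hm (by omega); have b := cm40 m j hm (by omega); omega⟩))))))))))))
  by_cases h : i + 1 = (14 * m - 3)
  · exact Or.inr (Or.inr (Or.inr (Or.inr (Or.inr (Or.inr (Or.inr (Or.inr (Or.inr (Or.inr (Or.inr (Or.inr (Or.inl (⟨h, by have a := cm40 m i hm (by omega); have b := cm50 m j hm (by omega); omega⟩)))))))))))))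
  by_cases g5 : i + 1 < (16 * m - 2)
  · have hj : j = i + 1 := by omega
    by_cases hp : (i - (14 * m - 3)) % 2 = 0
    · have h : (14 * m - 3) ≤ i ∧ i + 1 < (16 * m - 2) ∧ (i - (14 * m - 3)) % 2 = 0 := ⟨by omega, by omega, by omega⟩
      exact Or.inr (Or.inr (Or.inr (Or.inr (Or.inr (Or.inr (Or.inr (Or.inr (Or.inr (Or.inr (Or.inr (Or.inr (Or.inr (Or.inl (⟨h, by have a := cm50 m i hm (by omega); have b := cm51 m j hm (by omega); omega⟩))))))))))))))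
    · have h : (14 * m - 3) ≤ i ∧ i + 1 < (16 * m - 2) ∧ (i - (14 * m - 3)) % 2 = 1 := ⟨by omega, by omega, by omega⟩
      exact Or.inr (Or.inr (Or.inr (Or.inr (Or.inr (Or.inr (Or.inr (Or.inr (Or.inr (Or.inr (Or.inr (Or.inr (Or.inr (Or.inr (Or.inl (⟨h, by have a := cm51 m i hm (by omega); have b := cm50 m j hm (by omega); omega⟩)))))))))))))))
  by_cases h : i + 1 = (16 * m - 2)
  · exact Or.inr (Or.inr (Or.inr (Or.inr (Or.inr (Or.inr (Or.inr (Or.inr (Or.inr (Or.inr (Or.inr (Or.inr (Or.inr (Or.inr (Or.inr (Or.inl (⟨h, by have a := cm50 m i hm (by omega); have b := cm60 m j hm (by omega); omega⟩))))))))))))))))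
  have h : i + 1 = (16 * m - 1) := by omega
  exact Or.inr (Or.inr (Or.inr (Or.inr (Or.inr (Or.inr (Or.inr (Or.inr (Or.inr (Or.inr (Or.inr (Or.inr (Or.inr (Or.inr (Or.inr (Or.inr (⟨h, by have a := cm60 m i hm (by omega); have b := cm00 m j hm (by omega); omega⟩))))))))))))))))

lemma good1m (m : ℤ) (hm : 1 ≤ m) : G1 m (Xm m) (Em m) := by
  intro i h0 h1
  have a := specm m i hm h0 h1
  rcases a with a | a | a | a | a | a | a | a | a | a | a | a <;> omega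

lemma good2m (m : ℤ) (hm : 1 ≤ m) : G2 m (Xm m) (Em m) := by
  intro i j h0 h1 h2 h3 h4 h5
  have a := specm m i hm h0 h1
  have b := specm m j hm h2 h3
  rcases a with a | a | a | a | a | a | a | a | a | a | a | a <;> rcases b with b | b | b | b | b | b | b | b | b | b | b | b <;> omega

def Stm0 (m i T : ℤ) : Prop :=
    ((i + 1 = (8 * m - 1)) ∧ T = (6 * m - 1)) ∨
    (((8 * m - 1) ≤ i ∧ i + 1 < (10 * m - 2) ∧ (i - (8 * m - 1)) % 2 = 0) ∧ T = ( - 1) - (i - (8 * m - 1))) ∨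
    (((8 * m - 1) ≤ i ∧ i + 1 < (10 * m - 2) ∧ (i - (8 * m - 1)) % 2 = 1) ∧ T = (1) + (i - (8 * m - 1))) ∨
    ((i + 1 = (10 * m - 2)) ∧ T = (-2 * m + 1)) ∨
    (((10 * m - 2) ≤ i ∧ i + 1 < (12 * m - 3) ∧ (i - (10 * m - 2)) % 2 = 0) ∧ T = (-6 * m + 1) + (i - (10 * m - 2))) ∨
    (((10 * m - 2) ≤ i ∧ i + 1 < (12 * m - 3) ∧ (i - (10 * m - 2)) % 2 = 1) ∧ T = (6 * m - 1) - (i - (10 * m - 2))) ∨
    (((i + 1 = (12 * m - 2)) ∧ ((-2 * m)) % 2 = 0) ∧ T = 1 * ((-2 * m))) ∨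
    (((i + 1 = (12 * m - 2)) ∧ ((-2 * m)) % 2 = 1) ∧ T = 1 * ((-2 * m)) + 4 * m) ∨
    ((((12 * m - 2) ≤ i ∧ i + 1 < (14 * m - 3) ∧ (i - (12 * m - 2)) % 2 = 0) ∧ ((1) + (i - (12 * m - 2))) % 2 = 0) ∧ T = 1 * ((1) + (i - (12 * m - 2)))) ∨
    ((((12 * m - 2) ≤ i ∧ i + 1 < (14 * m - 3) ∧ (i - (12 * m - 2)) % 2 = 0) ∧ ((1) + (i - (12 * m - 2))) % 2 = 1) ∧ T = 1 * ((1) + (i - (12 * m - 2))) + 4 * m) ∨
    ((((12 * m - 2) ≤ i ∧ i + 1 < (14 * m - 3) ∧ (i - (12 * m - 2)) % 2 = 1) ∧ (( - 1) - (i - (12 * m - 2))) % 2 = 0) ∧ T = 1 * (( - 1) - (i - (12 * m - 2)))) ∨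
    ((((12 * m - 2) ≤ i ∧ i + 1 < (14 * m - 3) ∧ (i - (12 * m - 2)) % 2 = 1) ∧ (( - 1) - (i - (12 * m - 2))) % 2 = 1) ∧ T = 1 * (( - 1) - (i - (12 * m - 2))) + 4 * m) ∨
    (((i + 1 = (14 * m - 3)) ∧ (( - 1)) % 2 = 0) ∧ T = 1 * (( - 1))) ∨
    (((i + 1 = (14 * m - 3)) ∧ (( - 1)) % 2 = 1) ∧ T = 1 * (( - 1)) + 4 * m) ∨
    ((((14 * m - 3) ≤ i ∧ i + 1 < (16 * m - 2) ∧ (i - (14 * m - 3)) % 2 = 0) ∧ ((2 * m) + (i - (14 * m - 3))) % 2 = 0) ∧ T = 1 * ((2 * m) + (i - (14 * m - 3)))) ∨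
    ((((14 * m - 3) ≤ i ∧ i + 1 < (16 * m - 2) ∧ (i - (14 * m - 3)) % 2 = 0) ∧ ((2 * m) + (i - (14 * m - 3))) % 2 = 1) ∧ T = 1 * ((2 * m) + (i - (14 * m - 3))) + 4 * m) ∨
    ((((14 * m - 3) ≤ i ∧ i + 1 < (16 * m - 2) ∧ (i - (14 * m - 3)) % 2 = 1) ∧ ((-2 * m) - (i - (14 * m - 3))) % 2 = 0) ∧ T = 1 * ((-2 * m) - (i - (14 * m - 3)))) ∨
    ((((14 * m - 3) ≤ i ∧ i + 1 < (16 * m - 2) ∧ (i - (14 * m - 3)) % 2 = 1) ∧ ((-2 * m) - (i - (14 * m - 3))) % 2 = 1) ∧ T = 1 * ((-2 * m) - (i - (14 * m - 3))) + 4 * m) ∨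
    ((i + 1 = (16 * m - 1)) ∧ T = (4 * m))

lemma inm00 (m i i' T T' : ℤ) (hm : 1 ≤ m) (a : Stm0 m i T) (b : (i' + 1 = (8 * m - 1)) ∧ T' = (6 * m - 1))
    (hD : T - T' = -16 * m ∨ T - T' = -8 * m ∨ T - T' = 0 ∨ T - T' = 8 * m ∨ T - T' = 16 * m) :
    i = i' := by
  rcases a with a | a | a | a | a | a | a | a | a | a | a | a | a | a | a | a | a | a | a <;> omega

lemma inm01 (m i i' T T' : ℤ) (hm : 1 ≤ m) (a : Stm0 m i T) (b : ((8 * m - 1) ≤ i' ∧ i' + 1 < (10 * m - 2) ∧ (i' - (8 * m - 1)) % 2 = 0) ∧ T' = ( - 1) - (i' - (8 * m - 1)))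
    (hD : T - T' = -16 * m ∨ T - T' = -8 * m ∨ T - T' = 0 ∨ T - T' = 8 * m ∨ T - T' = 16 * m) :
    i = i' := by
  rcases a with a | a | a | a | a | a | a | a | a | a | a | a | a | a | a | a | a | a | a <;> omega

lemma inm02 (m i i' T T' : ℤ) (hm : 1 ≤ m) (a : Stm0 m i T) (b : ((8 * m - 1) ≤ i' ∧ i' + 1 < (10 * m - 2) ∧ (i' - (8 * m - 1)) % 2 = 1) ∧ T' = (1) + (i' - (8 * m - 1)))
    (hD : T - T' = -16 * m ∨ T - T' = -8 * m ∨ T - T' = 0 ∨ T - T' = 8 * m ∨ T - T' = 16 * m) :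
    i = i' := by
  rcases a with a | a | a | a | a | a | a | a | a | a | a | a | a | a | a | a | a | a | a <;> omega

lemma inm03 (m i i' T T' : ℤ) (hm : 1 ≤ m) (a : Stm0 m i T) (b : (i' + 1 = (10 * m - 2)) ∧ T' = (-2 * m + 1))
    (hD : T - T' = -16 * m ∨ T - T' = -8 * m ∨ T - T' = 0 ∨ T - T' = 8 * m ∨ T - T' = 16 * m) :
    i = i' := by
  rcases a with a | a | a | a | a | a | a | a | a | a | a | a | a | a | a | a | a | a | a <;> omega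

lemma inm04 (m i i' T T' : ℤ) (hm : 1 ≤ m) (a : Stm0 m i T) (b : ((10 * m - 2) ≤ i' ∧ i' + 1 < (12 * m - 3) ∧ (i' - (10 * m - 2)) % 2 = 0) ∧ T' = (-6 * m + 1) + (i' - (10 * m - 2)))
    (hD : T - T' = -16 * m ∨ T - T' = -8 * m ∨ T - T' = 0 ∨ T - T' = 8 * m ∨ T - T' = 16 * m) :
    i = i' := by
  rcases a with a | a | a | a | a | a | a | a | a | a | a | a | a | a | a | a | a | a | a <;> omega

lemma inm05 (m i i' T T' : ℤ) (hm : 1 ≤ m) (a : Stm0 m i T) (b : ((10 * m - 2) ≤ i' ∧ i' + 1 < (12 * m - 3) ∧ (i' - (10 * m - 2)) % 2 = 1) ∧ T' = (6 * m - 1) - (i' - (10 * m - 2)))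
    (hD : T - T' = -16 * m ∨ T - T' = -8 * m ∨ T - T' = 0 ∨ T - T' = 8 * m ∨ T - T' = 16 * m) :
    i = i' := by
  rcases a with a | a | a | a | a | a | a | a | a | a | a | a | a | a | a | a | a | a | a <;> omega

lemma inm06 (m i i' T T' : ℤ) (hm : 1 ≤ m) (a : Stm0 m i T) (b : ((i' + 1 = (12 * m - 2)) ∧ ((-2 * m)) % 2 = 0) ∧ T' = 1 * ((-2 * m)))
    (hD : T - T' = -16 * m ∨ T - T' = -8 * m ∨ T - T' = 0 ∨ T - T' = 8 * m ∨ T - T' = 16 * m) :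
    i = i' := by
  rcases a with a | a | a | a | a | a | a | a | a | a | a | a | a | a | a | a | a | a | a <;> omega

lemma inm07 (m i i' T T' : ℤ) (hm : 1 ≤ m) (a : Stm0 m i T) (b : ((i' + 1 = (12 * m - 2)) ∧ ((-2 * m)) % 2 = 1) ∧ T' = 1 * ((-2 * m)) + 4 * m)
    (hD : T - T' = -16 * m ∨ T - T' = -8 * m ∨ T - T' = 0 ∨ T - T' = 8 * m ∨ T - T' = 16 * m) :
    i = i' := by
  rcases a with a | a | a | a | a | a | a | a | a | a | a | a | a | a | a | a | a | a | a <;> omega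

lemma inm08 (m i i' T T' : ℤ) (hm : 1 ≤ m) (a : Stm0 m i T) (b : (((12 * m - 2) ≤ i' ∧ i' + 1 < (14 * m - 3) ∧ (i' - (12 * m - 2)) % 2 = 0) ∧ ((1) + (i' - (12 * m - 2))) % 2 = 0) ∧ T' = 1 * ((1) + (i' - (12 * m - 2))))
    (hD : T - T' = -16 * m ∨ T - T' = -8 * m ∨ T - T' = 0 ∨ T - T' = 8 * m ∨ T - T' = 16 * m) :
    i = i' := by
  rcases a with a | a | a | a | a | a | a | a | a | a | a | a | a | a | a | a | a | a | a <;> omega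

lemma inm09 (m i i' T T' : ℤ) (hm : 1 ≤ m) (a : Stm0 m i T) (b : (((12 * m - 2) ≤ i' ∧ i' + 1 < (14 * m - 3) ∧ (i' - (12 * m - 2)) % 2 = 0) ∧ ((1) + (i' - (12 * m - 2))) % 2 = 1) ∧ T' = 1 * ((1) + (i' - (12 * m - 2))) + 4 * m)
    (hD : T - T' = -16 * m ∨ T - T' = -8 * m ∨ T - T' = 0 ∨ T - T' = 8 * m ∨ T - T' = 16 * m) :
    i = i' := by
  rcases a with a | a | a | a | a | a | a | a | a | a | a | a | a | a | a | a | a | a | a <;> omega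

lemma inm010 (m i i' T T' : ℤ) (hm : 1 ≤ m) (a : Stm0 m i T) (b : (((12 * m - 2) ≤ i' ∧ i' + 1 < (14 * m - 3) ∧ (i' - (12 * m - 2)) % 2 = 1) ∧ (( - 1) - (i' - (12 * m - 2))) % 2 = 0) ∧ T' = 1 * (( - 1) - (i' - (12 * m - 2))))
    (hD : T - T' = -16 * m ∨ T - T' = -8 * m ∨ T - T' = 0 ∨ T - T' = 8 * m ∨ T - T' = 16 * m) :
    i = i' := by
  rcases a with a | a | a | a | a | a | a | a | a | a | a | a | a | a | a | a | a | a | a <;> omega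

lemma inm011 (m i i' T T' : ℤ) (hm : 1 ≤ m) (a : Stm0 m i T) (b : (((12 * m - 2) ≤ i' ∧ i' + 1 < (14 * m - 3) ∧ (i' - (12 * m - 2)) % 2 = 1) ∧ (( - 1) - (i' - (12 * m - 2))) % 2 = 1) ∧ T' = 1 * (( - 1) - (i' - (12 * m - 2))) + 4 * m)
    (hD : T - T' = -16 * m ∨ T - T' = -8 * m ∨ T - T' = 0 ∨ T - T' = 8 * m ∨ T - T' = 16 * m) :
    i = i' := by
  rcases a with a | a | a | a | a | a | a | a | a | a | a | a | a | a | a | a | a | a | a <;> omega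

lemma inm012 (m i i' T T' : ℤ) (hm : 1 ≤ m) (a : Stm0 m i T) (b : ((i' + 1 = (14 * m - 3)) ∧ (( - 1)) % 2 = 0) ∧ T' = 1 * (( - 1)))
    (hD : T - T' = -16 * m ∨ T - T' = -8 * m ∨ T - T' = 0 ∨ T - T' = 8 * m ∨ T - T' = 16 * m) :
    i = i' := by
  rcases a with a | a | a | a | a | a | a | a | a | a | a | a | a | a | a | a | a | a | a <;> omega

lemma inm013 (m i i' T T' : ℤ) (hm : 1 ≤ m) (a : Stm0 m i T) (b : ((i' + 1 = (14 * m - 3)) ∧ (( - 1)) % 2 = 1) ∧ T' = 1 * (( - 1)) + 4 * m)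
    (hD : T - T' = -16 * m ∨ T - T' = -8 * m ∨ T - T' = 0 ∨ T - T' = 8 * m ∨ T - T' = 16 * m) :
    i = i' := by
  rcases a with a | a | a | a | a | a | a | a | a | a | a | a | a | a | a | a | a | a | a <;> omega

lemma inm014 (m i i' T T' : ℤ) (hm : 1 ≤ m) (a : Stm0 m i T) (b : (((14 * m - 3) ≤ i' ∧ i' + 1 < (16 * m - 2) ∧ (i' - (14 * m - 3)) % 2 = 0) ∧ ((2 * m) + (i' - (14 * m - 3))) % 2 = 0) ∧ T' = 1 * ((2 * m) + (i' - (14 * m - 3))))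
    (hD : T - T' = -16 * m ∨ T - T' = -8 * m ∨ T - T' = 0 ∨ T - T' = 8 * m ∨ T - T' = 16 * m) :
    i = i' := by
  rcases a with a | a | a | a | a | a | a | a | a | a | a | a | a | a | a | a | a | a | a <;> omega

lemma inm015 (m i i' T T' : ℤ) (hm : 1 ≤ m) (a : Stm0 m i T) (b : (((14 * m - 3) ≤ i' ∧ i' + 1 < (16 * m - 2) ∧ (i' - (14 * m - 3)) % 2 = 0) ∧ ((2 * m) + (i' - (14 * m - 3))) % 2 = 1) ∧ T' = 1 * ((2 * m) + (i' - (14 * m - 3))) + 4 * m)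
    (hD : T - T' = -16 * m ∨ T - T' = -8 * m ∨ T - T' = 0 ∨ T - T' = 8 * m ∨ T - T' = 16 * m) :
    i = i' := by
  rcases a with a | a | a | a | a | a | a | a | a | a | a | a | a | a | a | a | a | a | a <;> omega

lemma inm016 (m i i' T T' : ℤ) (hm : 1 ≤ m) (a : Stm0 m i T) (b : (((14 * m - 3) ≤ i' ∧ i' + 1 < (16 * m - 2) ∧ (i' - (14 * m - 3)) % 2 = 1) ∧ ((-2 * m) - (i' - (14 * m - 3))) % 2 = 0) ∧ T' = 1 * ((-2 * m) - (i' - (14 * m - 3))))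
    (hD : T - T' = -16 * m ∨ T - T' = -8 * m ∨ T - T' = 0 ∨ T - T' = 8 * m ∨ T - T' = 16 * m) :
    i = i' := by
  rcases a with a | a | a | a | a | a | a | a | a | a | a | a | a | a | a | a | a | a | a <;> omega

lemma inm017 (m i i' T T' : ℤ) (hm : 1 ≤ m) (a : Stm0 m i T) (b : (((14 * m - 3) ≤ i' ∧ i' + 1 < (16 * m - 2) ∧ (i' - (14 * m - 3)) % 2 = 1) ∧ ((-2 * m) - (i' - (14 * m - 3))) % 2 = 1) ∧ T' = 1 * ((-2 * m) - (i' - (14 * m - 3))) + 4 * m)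
    (hD : T - T' = -16 * m ∨ T - T' = -8 * m ∨ T - T' = 0 ∨ T - T' = 8 * m ∨ T - T' = 16 * m) :
    i = i' := by
  rcases a with a | a | a | a | a | a | a | a | a | a | a | a | a | a | a | a | a | a | a <;> omega

lemma inm018 (m i i' T T' : ℤ) (hm : 1 ≤ m) (a : Stm0 m i T) (b : (i' + 1 = (16 * m - 1)) ∧ T' = (4 * m))
    (hD : T - T' = -16 * m ∨ T - T' = -8 * m ∨ T - T' = 0 ∨ T - T' = 8 * m ∨ T - T' = 16 * m) :
    i = i' := by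
  rcases a with a | a | a | a | a | a | a | a | a | a | a | a | a | a | a | a | a | a | a <;> omega

lemma inm0 (m i i' T T' : ℤ) (hm : 1 ≤ m) (a : Stm0 m i T) (b : Stm0 m i' T')
    (hD : T - T' = -16 * m ∨ T - T' = -8 * m ∨ T - T' = 0 ∨ T - T' = 8 * m ∨ T - T' = 16 * m) :
    i = i' := by
  rcases b with b | b | b | b | b | b | b | b | b | b | b | b | b | b | b | b | b | b | b
  · exact inm00 m i i' T T' hm a b hD
  · exact inm01 m i i' T T' hm a b hD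
  · exact inm02 m i i' T T' hm a b hD
  · exact inm03 m i i' T T' hm a b hD
  · exact inm04 m i i' T T' hm a b hD
  · exact inm05 m i i' T T' hm a b hD
  · exact inm06 m i i' T T' hm a b hD
  · exact inm07 m i i' T T' hm a b hD
  · exact inm08 m i i' T T' hm a b hD
  · exact inm09 m i i' T T' hm a b hD
  · exact inm010 m i i' T T' hm a b hD
  · exact inm011 m i i' T T' hm a b hD
  · exact inm012 m i i' T T' hm a b hD
  · exact inm013 m i i' T T' hm a b hD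
  · exact inm014 m i i' T T' hm a b hD
  · exact inm015 m i i' T T' hm a b hD
  · exact inm016 m i i' T T' hm a b hD
  · exact inm017 m i i' T T' hm a b hD
  · exact inm018 m i i' T T' hm a b hD

def Stm1 (m i T : ℤ) : Prop :=
    (((0) ≤ i ∧ i + 1 < (8 * m - 1) ∧ (i - (0)) % 2 = 0) ∧ T = (-1 * m + 1) + (i - (0))) ∨
    ((((0) ≤ i ∧ i + 1 < (8 * m - 1) ∧ (i - (0)) % 2 = 1) ∧ ((1 * m - 1) - (i - (0))) % 2 = 0) ∧ T = 1 * ((1 * m - 1) - (i - (0)))) ∨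
    ((((0) ≤ i ∧ i + 1 < (8 * m - 1) ∧ (i - (0)) % 2 = 1) ∧ ((1 * m - 1) - (i - (0))) % 2 = 1) ∧ T = 1 * ((1 * m - 1) - (i - (0))) + 4 * m) ∨
    ((i + 1 = (12 * m - 3)) ∧ T = (-1 * m - 1)) ∨
    (((i + 1 = (16 * m - 2)) ∧ ((1 * m)) % 2 = 0) ∧ T = 1 * ((1 * m))) ∨
    (((i + 1 = (16 * m - 2)) ∧ ((1 * m)) % 2 = 1) ∧ T = 1 * ((1 * m)) + 4 * m)

lemma inm10 (m i i' T T' : ℤ) (hm : 1 ≤ m) (a : Stm1 m i T) (b : ((0) ≤ i' ∧ i' + 1 < (8 * m - 1) ∧ (i' - (0)) % 2 = 0) ∧ T' = (-1 * m + 1) + (i' - (0)))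
    (hD : T - T' = -16 * m ∨ T - T' = -8 * m ∨ T - T' = 0 ∨ T - T' = 8 * m ∨ T - T' = 16 * m) :
    i = i' := by
  rcases a with a | a | a | a | a | a <;> omega

lemma inm11 (m i i' T T' : ℤ) (hm : 1 ≤ m) (a : Stm1 m i T) (b : (((0) ≤ i' ∧ i' + 1 < (8 * m - 1) ∧ (i' - (0)) % 2 = 1) ∧ ((1 * m - 1) - (i' - (0))) % 2 = 0) ∧ T' = 1 * ((1 * m - 1) - (i' - (0))))
    (hD : T - T' = -16 * m ∨ T - T' = -8 * m ∨ T - T' = 0 ∨ T - T' = 8 * m ∨ T - T' = 16 * m) :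
    i = i' := by
  rcases a with a | a | a | a | a | a <;> omega

lemma inm12 (m i i' T T' : ℤ) (hm : 1 ≤ m) (a : Stm1 m i T) (b : (((0) ≤ i' ∧ i' + 1 < (8 * m - 1) ∧ (i' - (0)) % 2 = 1) ∧ ((1 * m - 1) - (i' - (0))) % 2 = 1) ∧ T' = 1 * ((1 * m - 1) - (i' - (0))) + 4 * m)
    (hD : T - T' = -16 * m ∨ T - T' = -8 * m ∨ T - T' = 0 ∨ T - T' = 8 * m ∨ T - T' = 16 * m) :
    i = i' := by
  rcases a with a | a | a | a | a | a <;> omega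

lemma inm13 (m i i' T T' : ℤ) (hm : 1 ≤ m) (a : Stm1 m i T) (b : (i' + 1 = (12 * m - 3)) ∧ T' = (-1 * m - 1))
    (hD : T - T' = -16 * m ∨ T - T' = -8 * m ∨ T - T' = 0 ∨ T - T' = 8 * m ∨ T - T' = 16 * m) :
    i = i' := by
  rcases a with a | a | a | a | a | a <;> omega

lemma inm14 (m i i' T T' : ℤ) (hm : 1 ≤ m) (a : Stm1 m i T) (b : ((i' + 1 = (16 * m - 2)) ∧ ((1 * m)) % 2 = 0) ∧ T' = 1 * ((1 * m)))
    (hD : T - T' = -16 * m ∨ T - T' = -8 * m ∨ T - T' = 0 ∨ T - T' = 8 * m ∨ T - T' = 16 * m) :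
    i = i' := by
  rcases a with a | a | a | a | a | a <;> omega

lemma inm15 (m i i' T T' : ℤ) (hm : 1 ≤ m) (a : Stm1 m i T) (b : ((i' + 1 = (16 * m - 2)) ∧ ((1 * m)) % 2 = 1) ∧ T' = 1 * ((1 * m)) + 4 * m)
    (hD : T - T' = -16 * m ∨ T - T' = -8 * m ∨ T - T' = 0 ∨ T - T' = 8 * m ∨ T - T' = 16 * m) :
    i = i' := by
  rcases a with a | a | a | a | a | a <;> omega

lemma inm1 (m i i' T T' : ℤ) (hm : 1 ≤ m) (a : Stm1 m i T) (b : Stm1 m i' T')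
    (hD : T - T' = -16 * m ∨ T - T' = -8 * m ∨ T - T' = 0 ∨ T - T' = 8 * m ∨ T - T' = 16 * m) :
    i = i' := by
  rcases b with b | b | b | b | b | b
  · exact inm10 m i i' T T' hm a b hD
  · exact inm11 m i i' T T' hm a b hD
  · exact inm12 m i i' T T' hm a b hD
  · exact inm13 m i i' T T' hm a b hD
  · exact inm14 m i i' T T' hm a b hD
  · exact inm15 m i i' T T' hm a b hD

lemma stm (m i j T : ℤ) (hm : 1 ≤ m) (h0 : 0 ≤ i) (h1 : i < 16 * m - 1)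
    (hj : (i + 1 < 16 * m - 1 ∧ j = i + 1) ∨ (i + 1 = 16 * m - 1 ∧ j = 0))
    (hT : (Em m i = 0 ∧ T = Xm m j - Xm m i) ∨
      (Em m i = 1 ∧ (Xm m j - Xm m i) % 2 = 0 ∧ T = 1 * (Xm m j - Xm m i)) ∨
      (Em m i = 1 ∧ (Xm m j - Xm m i) % 2 = 1 ∧ T = 1 * (Xm m j - Xm m i) + 4 * m)) :
    ((Em m i + Em m j) % 2 = 0 ∧ Stm0 m i T) ∨ ((Em m i + Em m j) % 2 = 1 ∧ Stm1 m i T) := by
  have a := stepm m i j hm h0 h1 hj
  clear hj
  generalize Xm m j - Xm m i = d at *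
  generalize Em m i = e at *
  generalize Em m j = f at *
  rcases a with ⟨a, rfl, rfl, rfl⟩ | ⟨a, rfl, rfl, rfl⟩ | ⟨a, rfl, rfl, rfl⟩ | ⟨a, rfl, rfl, rfl⟩ | ⟨a, rfl, rfl, rfl⟩ | ⟨a, rfl, rfl, rfl⟩ | ⟨a, rfl, rfl, rfl⟩ | ⟨a, rfl, rfl, rfl⟩ | ⟨a, rfl, rfl, rfl⟩ | ⟨a, rfl, rfl, rfl⟩ | ⟨a, rfl, rfl, rfl⟩ | ⟨a, rfl, rfl, rfl⟩ | ⟨a, rfl, rfl, rfl⟩ | ⟨a, rfl, rfl, rfl⟩ | ⟨a, rfl, rfl, rfl⟩ | ⟨a, rfl, rfl, rfl⟩ | ⟨a, rfl, rfl, rfl⟩
  · exact Or.inr ⟨by norm_num, Or.inl (⟨a, by omega⟩)⟩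
  · by_cases hp : ((1 * m - 1) - (i - (0))) % 2 = 0
    · exact Or.inr ⟨by norm_num, Or.inr (Or.inl (⟨⟨a, hp⟩, by omega⟩))⟩
    · exact Or.inr ⟨by norm_num, Or.inr (Or.inr (Or.inl (⟨⟨a, by omega⟩, by omega⟩)))⟩
  · exact Or.inl ⟨by norm_num, Or.inl (⟨a, by omega⟩)⟩
  · exact Or.inl ⟨by norm_num, Or.inr (Or.inl (⟨a, by omega⟩))⟩
  · exact Or.inl ⟨by norm_num, Or.inr (Or.inr (Or.inl (⟨a, by omega⟩)))⟩
  · exact Or.inl ⟨by norm_num, Or.inr (Or.inr (Or.inr (Or.inl (⟨a, by omega⟩))))⟩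
  · exact Or.inl ⟨by norm_num, Or.inr (Or.inr (Or.inr (Or.inr (Or.inl (⟨a, by omega⟩)))))⟩
  · exact Or.inl ⟨by norm_num, Or.inr (Or.inr (Or.inr (Or.inr (Or.inr (Or.inl (⟨a, by omega⟩))))))⟩
  · exact Or.inr ⟨by norm_num, Or.inr (Or.inr (Or.inr (Or.inl (⟨a, by omega⟩))))⟩
  · by_cases hp : ((-2 * m)) % 2 = 0
    · exact Or.inl ⟨by norm_num, Or.inr (Or.inr (Or.inr (Or.inr (Or.inr (Or.inr (Or.inl (⟨⟨a, hp⟩, by omega⟩)))))))⟩
    · exact Or.inl ⟨by norm_num, Or.inr (Or.inr (Or.inr (Or.inr (Or.inr (Or.inr (Or.inr (Or.inl (⟨⟨a, by omega⟩, by omega⟩))))))))⟩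
  · by_cases hp : ((1) + (i - (12 * m - 2))) % 2 = 0
    · exact Or.inl ⟨by norm_num, Or.inr (Or.inr (Or.inr (Or.inr (Or.inr (Or.inr (Or.inr (Or.inr (Or.inl (⟨⟨a, hp⟩, by omega⟩)))))))))⟩
    · exact Or.inl ⟨by norm_num, Or.inr (Or.inr (Or.inr (Or.inr (Or.inr (Or.inr (Or.inr (Or.inr (Or.inr (Or.inl (⟨⟨a, by omega⟩, by omega⟩))))))))))⟩
  · by_cases hp : (( - 1) - (i - (12 * m - 2))) % 2 = 0
    · exact Or.inl ⟨by norm_num, Or.inr (Or.inr (Or.inr (Or.inr (Or.inr (Or.inr (Or.inr (Or.inr (Or.inr (Or.inr (Or.inl (⟨⟨a, hp⟩, by omega⟩)))))))))))⟩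
    · exact Or.inl ⟨by norm_num, Or.inr (Or.inr (Or.inr (Or.inr (Or.inr (Or.inr (Or.inr (Or.inr (Or.inr (Or.inr (Or.inr (Or.inl (⟨⟨a, by omega⟩, by omega⟩))))))))))))⟩
  · by_cases hp : (( - 1)) % 2 = 0
    · exact Or.inl ⟨by norm_num, Or.inr (Or.inr (Or.inr (Or.inr (Or.inr (Or.inr (Or.inr (Or.inr (Or.inr (Or.inr (Or.inr (Or.inr (Or.inl (⟨⟨a, hp⟩, by omega⟩)))))))))))))⟩
    · exact Or.inl ⟨by norm_num, Or.inr (Or.inr (Or.inr (Or.inr (Or.inr (Or.inr (Or.inr (Or.inr (Or.inr (Or.inr (Or.inr (Or.inr (Or.inr (Or.inl (⟨⟨a, by omega⟩, by omega⟩))))))))))))))⟩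
  · by_cases hp : ((2 * m) + (i - (14 * m - 3))) % 2 = 0
    · exact Or.inl ⟨by norm_num, Or.inr (Or.inr (Or.inr (Or.inr (Or.inr (Or.inr (Or.inr (Or.inr (Or.inr (Or.inr (Or.inr (Or.inr (Or.inr (Or.inr (Or.inl (⟨⟨a, hp⟩, by omega⟩)))))))))))))))⟩
    · exact Or.inl ⟨by norm_num, Or.inr (Or.inr (Or.inr (Or.inr (Or.inr (Or.inr (Or.inr (Or.inr (Or.inr (Or.inr (Or.inr (Or.inr (Or.inr (Or.inr (Or.inr (Or.inl (⟨⟨a, by omega⟩, by omega⟩))))))))))))))))⟩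
  · by_cases hp : ((-2 * m) - (i - (14 * m - 3))) % 2 = 0
    · exact Or.inl ⟨by norm_num, Or.inr (Or.inr (Or.inr (Or.inr (Or.inr (Or.inr (Or.inr (Or.inr (Or.inr (Or.inr (Or.inr (Or.inr (Or.inr (Or.inr (Or.inr (Or.inr (Or.inl (⟨⟨a, hp⟩, by omega⟩)))))))))))))))))⟩
    · exact Or.inl ⟨by norm_num, Or.inr (Or.inr (Or.inr (Or.inr (Or.inr (Or.inr (Or.inr (Or.inr (Or.inr (Or.inr (Or.inr (Or.inr (Or.inr (Or.inr (Or.inr (Or.inr (Or.inr (Or.inl (⟨⟨a, by omega⟩, by omega⟩))))))))))))))))))⟩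
  · by_cases hp : ((1 * m)) % 2 = 0
    · exact Or.inr ⟨by norm_num, Or.inr (Or.inr (Or.inr (Or.inr (Or.inl (⟨⟨a, hp⟩, by omega⟩)))))⟩
    · exact Or.inr ⟨by norm_num, Or.inr (Or.inr (Or.inr (Or.inr (Or.inr (⟨⟨a, by omega⟩, by omega⟩)))))⟩
  · exact Or.inl ⟨by norm_num, Or.inr (Or.inr (Or.inr (Or.inr (Or.inr (Or.inr (Or.inr (Or.inr (Or.inr (Or.inr (Or.inr (Or.inr (Or.inr (Or.inr (Or.inr (Or.inr (Or.inr (Or.inr (⟨a, by omega⟩))))))))))))))))))⟩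

lemma good3m (m : ℤ) (hm : 1 ≤ m) : G3 m (1) (Xm m) (Em m) := by
  intro i i' j j' T T' h0 h1 hj h0' h1' hj' hT hT' hE hD
  rcases stm m i j T hm h0 h1 hj hT with a | a <;>
  rcases stm m i' j' T' hm h0' h1' hj' hT' with b | b
  · exact inm0 m i i' T T' hm a.2 b.2 hD
  · exact absurd (a.1.symm.trans (hE.trans b.1)) (by norm_num)
  · exact absurd (a.1.symm.trans (hE.trans b.1)) (by norm_num)
  · exact inm1 m i i' T T' hm a.2 b.2 hD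

end Pool.Agent.H54.RSeq
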