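import Pool.Agent.H54.RSeqA

set_option linter.unusedVariables false
set_option linter.unnecessarySeqFocus false
set_option linter.unusedTactic false
set_option linter.unreachableTactic false

namespace Pool.Agent.H54.RSeq

def Xs (m i : ℤ) : ℤ :=
  if i < (8 * m - 1) then (if (i - (0)) % 2 = 0 then (4 * m) - (i - (0)) / 2 else (2) + (i - (0)) / 2) else
  if i < (10 * m - 2) then (if (i - (8 * m - 1)) % 2 = 0 then (6 * m) + (i - (8 * m - 1)) / 2 else (6 * m - 1) - (i - (8 * m - 1)) / 2) else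
  if i < (12 * m - 2) then (if (i - (10 * m - 2)) % 2 = 0 then (7 * m) + (i - (10 * m - 2)) / 2 else (5 * m) - (i - (10 * m - 2)) / 2) else
  if i < (12 * m - 1) then (1) else
  if i < (14 * m - 2) then (if (i - (12 * m - 1)) % 2 = 0 then (6 * m) + (i - (12 * m - 1)) / 2 else (6 * m - 1) - (i - (12 * m - 1)) / 2) else
  if i < (16 * m - 2) then (if (i - (14 * m - 2)) % 2 = 0 then (7 * m) + (i - (14 * m - 2)) / 2 else (5 * m) - (i - (14 * m - 2)) / 2) else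
  (0)

def Es (m i : ℤ) : ℤ :=
  if i < (8 * m - 1) then (if (i - (0)) % 2 = 0 then 1 else 0) else
  if i < (10 * m - 2) then (if (i - (8 * m - 1)) % 2 = 0 then 1 else 1) else
  if i < (12 * m - 2) then (if (i - (10 * m - 2)) % 2 = 0 then 1 else 1) else
  if i < (12 * m - 1) then 0 else
  if i < (14 * m - 2) then (if (i - (12 * m - 1)) % 2 = 0 then 0 else 0) else
  if i < (16 * m - 2) then (if (i - (14 * m - 2)) % 2 = 0 then 0 else 0) else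
  1

lemma cs00 (m i : ℤ) (hm : 1 ≤ m) (h : (0) ≤ i ∧ i < (8 * m - 1) ∧ (i - (0)) % 2 = 0) :
    2 * Xs m i = 2 * (4 * m) - (i - (0)) ∧ Es m i = 1 := by
  constructor
  · rw [Xs, if_pos (show i < (8 * m - 1) by omega), if_pos h.2.2] <;> omega
  · rw [Es, if_pos (show i < (8 * m - 1) by omega), if_pos h.2.2]

lemma cs01 (m i : ℤ) (hm : 1 ≤ m) (h : (0) ≤ i ∧ i < (8 * m - 1) ∧ (i - (0)) % 2 = 1) :
    2 * Xs m i = 2 * (2) + (i - (0) - 1) ∧ Es m i = 0 := by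
  constructor
  · rw [Xs, if_pos (show i < (8 * m - 1) by omega), if_neg (show ¬ (i - (0)) % 2 = 0 by omega)] <;> omega
  · rw [Es, if_pos (show i < (8 * m - 1) by omega), if_neg (show ¬ (i - (0)) % 2 = 0 by omega)]

lemma cs10 (m i : ℤ) (hm : 1 ≤ m) (h : (8 * m - 1) ≤ i ∧ i < (10 * m - 2) ∧ (i - (8 * m - 1)) % 2 = 0) :
    2 * Xs m i = 2 * (6 * m) + (i - (8 * m - 1)) ∧ Es m i = 1 := by
  constructor
  · rw [Xs, if_neg (show ¬ i < (8 * m - 1) by omega), if_pos (show i < (10 * m - 2) by omega), if_pos h.2.2] <;> omega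
  · rw [Es, if_neg (show ¬ i < (8 * m - 1) by omega), if_pos (show i < (10 * m - 2) by omega), if_pos h.2.2]

lemma cs11 (m i : ℤ) (hm : 1 ≤ m) (h : (8 * m - 1) ≤ i ∧ i < (10 * m - 2) ∧ (i - (8 * m - 1)) % 2 = 1) :
    2 * Xs m i = 2 * (6 * m - 1) - (i - (8 * m - 1) - 1) ∧ Es m i = 1 := by
  constructor
  · rw [Xs, if_neg (show ¬ i < (8 * m - 1) by omega), if_pos (show i < (10 * m - 2) by omega), if_neg (show ¬ (i - (8 * m - 1)) % 2 = 0 by omega)] <;> omega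
  · rw [Es, if_neg (show ¬ i < (8 * m - 1) by omega), if_pos (show i < (10 * m - 2) by omega), if_neg (show ¬ (i - (8 * m - 1)) % 2 = 0 by omega)]

lemma cs20 (m i : ℤ) (hm : 1 ≤ m) (h : (10 * m - 2) ≤ i ∧ i < (12 * m - 2) ∧ (i - (10 * m - 2)) % 2 = 0) :
    2 * Xs m i = 2 * (7 * m) + (i - (10 * m - 2)) ∧ Es m i = 1 := by
  constructor
  · rw [Xs, if_neg (show ¬ i < (8 * m - 1) by omega), if_neg (show ¬ i < (10 * m - 2) by omega), if_pos (show i < (12 * m - 2) by omega), if_pos h.2.2] <;> omega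
  · rw [Es, if_neg (show ¬ i < (8 * m - 1) by omega), if_neg (show ¬ i < (10 * m - 2) by omega), if_pos (show i < (12 * m - 2) by omega), if_pos h.2.2]

lemma cs21 (m i : ℤ) (hm : 1 ≤ m) (h : (10 * m - 2) ≤ i ∧ i < (12 * m - 2) ∧ (i - (10 * m - 2)) % 2 = 1) :
    2 * Xs m i = 2 * (5 * m) - (i - (10 * m - 2) - 1) ∧ Es m i = 1 := by
  constructor
  · rw [Xs, if_neg (show ¬ i < (8 * m - 1) by omega), if_neg (show ¬ i < (10 * m - 2) by omega), if_pos (show i < (12 * m - 2) by omega), if_neg (show ¬ (i - (10 * m - 2)) % 2 = 0 by omega)] <;> omega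
  · rw [Es, if_neg (show ¬ i < (8 * m - 1) by omega), if_neg (show ¬ i < (10 * m - 2) by omega), if_pos (show i < (12 * m - 2) by omega), if_neg (show ¬ (i - (10 * m - 2)) % 2 = 0 by omega)]

lemma cs30 (m i : ℤ) (hm : 1 ≤ m) (h : i = (12 * m - 2)) :
    Xs m i = (1) ∧ Es m i = 0 := by
  constructor
  · rw [Xs, if_neg (show ¬ i < (8 * m - 1) by omega), if_neg (show ¬ i < (10 * m - 2) by omega), if_neg (show ¬ i < (12 * m - 2) by omega), if_pos (show i < (12 * m - 1) by omega)] <;> omega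
  · rw [Es, if_neg (show ¬ i < (8 * m - 1) by omega), if_neg (show ¬ i < (10 * m - 2) by omega), if_neg (show ¬ i < (12 * m - 2) by omega), if_pos (show i < (12 * m - 1) by omega)]

lemma cs40 (m i : ℤ) (hm : 1 ≤ m) (h : (12 * m - 1) ≤ i ∧ i < (14 * m - 2) ∧ (i - (12 * m - 1)) % 2 = 0) :
    2 * Xs m i = 2 * (6 * m) + (i - (12 * m - 1)) ∧ Es m i = 0 := by
  constructor
  · rw [Xs, if_neg (show ¬ i < (8 * m - 1) by omega), if_neg (show ¬ i < (10 * m - 2) by omega), if_neg (show ¬ i < (12 * m - 2) by omega), if_neg (show ¬ i < (12 * m - 1) by omega), if_pos (show i < (14 * m - 2) by omega), if_pos h.2.2] <;> omega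
  · rw [Es, if_neg (show ¬ i < (8 * m - 1) by omega), if_neg (show ¬ i < (10 * m - 2) by omega), if_neg (show ¬ i < (12 * m - 2) by omega), if_neg (show ¬ i < (12 * m - 1) by omega), if_pos (show i < (14 * m - 2) by omega), if_pos h.2.2]

lemma cs41 (m i : ℤ) (hm : 1 ≤ m) (h : (12 * m - 1) ≤ i ∧ i < (14 * m - 2) ∧ (i - (12 * m - 1)) % 2 = 1) :
    2 * Xs m i = 2 * (6 * m - 1) - (i - (12 * m - 1) - 1) ∧ Es m i = 0 := by
  constructor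
  · rw [Xs, if_neg (show ¬ i < (8 * m - 1) by omega), if_neg (show ¬ i < (10 * m - 2) by omega), if_neg (show ¬ i < (12 * m - 2) by omega), if_neg (show ¬ i < (12 * m - 1) by omega), if_pos (show i < (14 * m - 2) by omega), if_neg (show ¬ (i - (12 * m - 1)) % 2 = 0 by omega)] <;> omega
  · rw [Es, if_neg (show ¬ i < (8 * m - 1) by omega), if_neg (show ¬ i < (10 * m - 2) by omega), if_neg (show ¬ i < (12 * m - 2) by omega), if_neg (show ¬ i < (12 * m - 1) by omega), if_pos (show i < (14 * m - 2) by omega), if_neg (show ¬ (i - (12 * m - 1)) % 2 = 0 by omega)]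

lemma cs50 (m i : ℤ) (hm : 1 ≤ m) (h : (14 * m - 2) ≤ i ∧ i < (16 * m - 2) ∧ (i - (14 * m - 2)) % 2 = 0) :
    2 * Xs m i = 2 * (7 * m) + (i - (14 * m - 2)) ∧ Es m i = 0 := by
  constructor
  · rw [Xs, if_neg (show ¬ i < (8 * m - 1) by omega), if_neg (show ¬ i < (10 * m - 2) by omega), if_neg (show ¬ i < (12 * m - 2) by omega), if_neg (show ¬ i < (12 * m - 1) by omega), if_neg (show ¬ i < (14 * m - 2) by omega), if_pos (show i < (16 * m - 2) by omega), if_pos h.2.2] <;> omega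
  · rw [Es, if_neg (show ¬ i < (8 * m - 1) by omega), if_neg (show ¬ i < (10 * m - 2) by omega), if_neg (show ¬ i < (12 * m - 2) by omega), if_neg (show ¬ i < (12 * m - 1) by omega), if_neg (show ¬ i < (14 * m - 2) by omega), if_pos (show i < (16 * m - 2) by omega), if_pos h.2.2]

lemma cs51 (m i : ℤ) (hm : 1 ≤ m) (h : (14 * m - 2) ≤ i ∧ i < (16 * m - 2) ∧ (i - (14 * m - 2)) % 2 = 1) :
    2 * Xs m i = 2 * (5 * m) - (i - (14 * m - 2) - 1) ∧ Es m i = 0 := by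
  constructor
  · rw [Xs, if_neg (show ¬ i < (8 * m - 1) by omega), if_neg (show ¬ i < (10 * m - 2) by omega), if_neg (show ¬ i < (12 * m - 2) by omega), if_neg (show ¬ i < (12 * m - 1) by omega), if_neg (show ¬ i < (14 * m - 2) by omega), if_pos (show i < (16 * m - 2) by omega), if_neg (show ¬ (i - (14 * m - 2)) % 2 = 0 by omega)] <;> omega
  · rw [Es, if_neg (show ¬ i < (8 * m - 1) by omega), if_neg (show ¬ i < (10 * m - 2) by omega), if_neg (show ¬ i < (12 * m - 2) by omega), if_neg (show ¬ i < (12 * m - 1) by omega), if_neg (show ¬ i < (14 * m - 2) by omega), if_pos (show i < (16 * m - 2) by omega), if_neg (show ¬ (i - (14 * m - 2)) % 2 = 0 by omega)]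

lemma cs60 (m i : ℤ) (hm : 1 ≤ m) (h : i = (16 * m - 2)) :
    Xs m i = (0) ∧ Es m i = 1 := by
  constructor
  · rw [Xs, if_neg (show ¬ i < (8 * m - 1) by omega), if_neg (show ¬ i < (10 * m - 2) by omega), if_neg (show ¬ i < (12 * m - 2) by omega), if_neg (show ¬ i < (12 * m - 1) by omega), if_neg (show ¬ i < (14 * m - 2) by omega), if_neg (show ¬ i < (16 * m - 2) by omega)] <;> omega
  · rw [Es, if_neg (show ¬ i < (8 * m - 1) by omega), if_neg (show ¬ i < (10 * m - 2) by omega), if_neg (show ¬ i < (12 * m - 2) by omega), if_neg (show ¬ i < (12 * m - 1) by omega), if_neg (show ¬ i < (14 * m - 2) by omega), if_neg (show ¬ i < (16 * m - 2) by omega)]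

lemma specs (m i : ℤ) (hm : 1 ≤ m) (h0 : 0 ≤ i) (h1 : i < 16 * m - 1) :
    (((0) ≤ i ∧ i < (8 * m - 1) ∧ (i - (0)) % 2 = 0) ∧ 2 * Xs m i = 2 * (4 * m) - (i - (0)) ∧ Es m i = 1) ∨
    (((0) ≤ i ∧ i < (8 * m - 1) ∧ (i - (0)) % 2 = 1) ∧ 2 * Xs m i = 2 * (2) + (i - (0) - 1) ∧ Es m i = 0) ∨
    (((8 * m - 1) ≤ i ∧ i < (10 * m - 2) ∧ (i - (8 * m - 1)) % 2 = 0) ∧ 2 * Xs m i = 2 * (6 * m) + (i - (8 * m - 1)) ∧ Es m i = 1) ∨
    (((8 * m - 1) ≤ i ∧ i < (10 * m - 2) ∧ (i - (8 * m - 1)) % 2 = 1) ∧ 2 * Xs m i = 2 * (6 * m - 1) - (i - (8 * m - 1) - 1) ∧ Es m i = 1) ∨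
    (((10 * m - 2) ≤ i ∧ i < (12 * m - 2) ∧ (i - (10 * m - 2)) % 2 = 0) ∧ 2 * Xs m i = 2 * (7 * m) + (i - (10 * m - 2)) ∧ Es m i = 1) ∨
    (((10 * m - 2) ≤ i ∧ i < (12 * m - 2) ∧ (i - (10 * m - 2)) % 2 = 1) ∧ 2 * Xs m i = 2 * (5 * m) - (i - (10 * m - 2) - 1) ∧ Es m i = 1) ∨
    ((i = (12 * m - 2)) ∧ Xs m i = (1) ∧ Es m i = 0) ∨
    (((12 * m - 1) ≤ i ∧ i < (14 * m - 2) ∧ (i - (12 * m - 1)) % 2 = 0) ∧ 2 * Xs m i = 2 * (6 * m) + (i - (12 * m - 1)) ∧ Es m i = 0) ∨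
    (((12 * m - 1) ≤ i ∧ i < (14 * m - 2) ∧ (i - (12 * m - 1)) % 2 = 1) ∧ 2 * Xs m i = 2 * (6 * m - 1) - (i - (12 * m - 1) - 1) ∧ Es m i = 0) ∨
    (((14 * m - 2) ≤ i ∧ i < (16 * m - 2) ∧ (i - (14 * m - 2)) % 2 = 0) ∧ 2 * Xs m i = 2 * (7 * m) + (i - (14 * m - 2)) ∧ Es m i = 0) ∨
    (((14 * m - 2) ≤ i ∧ i < (16 * m - 2) ∧ (i - (14 * m - 2)) % 2 = 1) ∧ 2 * Xs m i = 2 * (5 * m) - (i - (14 * m - 2) - 1) ∧ Es m i = 0) ∨
    ((i = (16 * m - 2)) ∧ Xs m i = (0) ∧ Es m i = 1) := by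
  by_cases g0 : i < (8 * m - 1)
  · by_cases hp : (i - (0)) % 2 = 0
    · have h : (0) ≤ i ∧ i < (8 * m - 1) ∧ (i - (0)) % 2 = 0 := ⟨by omega, by omega, by omega⟩
      exact Or.inl (⟨h, cs00 m i hm h⟩)
    · have h : (0) ≤ i ∧ i < (8 * m - 1) ∧ (i - (0)) % 2 = 1 := ⟨by omega, by omega, by omega⟩
      exact Or.inr (Or.inl (⟨h, cs01 m i hm h⟩))
  by_cases g1 : i < (10 * m - 2)
  · by_cases hp : (i - (8 * m - 1)) % 2 = 0
    · have h : (8 * m - 1) ≤ i ∧ i < (10 * m - 2) ∧ (i - (8 * m - 1)) % 2 = 0 := ⟨by omega, by omega, by omega⟩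
      exact Or.inr (Or.inr (Or.inl (⟨h, cs10 m i hm h⟩)))
    · have h : (8 * m - 1) ≤ i ∧ i < (10 * m - 2) ∧ (i - (8 * m - 1)) % 2 = 1 := ⟨by omega, by omega, by omega⟩
      exact Or.inr (Or.inr (Or.inr (Or.inl (⟨h, cs11 m i hm h⟩))))
  by_cases g2 : i < (12 * m - 2)
  · by_cases hp : (i - (10 * m - 2)) % 2 = 0
    · have h : (10 * m - 2) ≤ i ∧ i < (12 * m - 2) ∧ (i - (10 * m - 2)) % 2 = 0 := ⟨by omega, by omega, by omega⟩
      exact Or.inr (Or.inr (Or.inr (Or.inr (Or.inl (⟨h, cs20 m i hm h⟩)))))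
    · have h : (10 * m - 2) ≤ i ∧ i < (12 * m - 2) ∧ (i - (10 * m - 2)) % 2 = 1 := ⟨by omega, by omega, by omega⟩
      exact Or.inr (Or.inr (Or.inr (Or.inr (Or.inr (Or.inl (⟨h, cs21 m i hm h⟩))))))
  by_cases g3 : i < (12 * m - 1)
  · have h : i = (12 * m - 2) := by omega
    exact Or.inr (Or.inr (Or.inr (Or.inr (Or.inr (Or.inr (Or.inl (⟨h, cs30 m i hm h⟩)))))))
  by_cases g4 : i < (14 * m - 2)
  · by_cases hp : (i - (12 * m - 1)) % 2 = 0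
    · have h : (12 * m - 1) ≤ i ∧ i < (14 * m - 2) ∧ (i - (12 * m - 1)) % 2 = 0 := ⟨by omega, by omega, by omega⟩
      exact Or.inr (Or.inr (Or.inr (Or.inr (Or.inr (Or.inr (Or.inr (Or.inl (⟨h, cs40 m i hm h⟩))))))))
    · have h : (12 * m - 1) ≤ i ∧ i < (14 * m - 2) ∧ (i - (12 * m - 1)) % 2 = 1 := ⟨by omega, by omega, by omega⟩
      exact Or.inr (Or.inr (Or.inr (Or.inr (Or.inr (Or.inr (Or.inr (Or.inr (Or.inl (⟨h, cs41 m i hm h⟩)))))))))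
  by_cases g5 : i < (16 * m - 2)
  · by_cases hp : (i - (14 * m - 2)) % 2 = 0
    · have h : (14 * m - 2) ≤ i ∧ i < (16 * m - 2) ∧ (i - (14 * m - 2)) % 2 = 0 := ⟨by omega, by omega, by omega⟩
      exact Or.inr (Or.inr (Or.inr (Or.inr (Or.inr (Or.inr (Or.inr (Or.inr (Or.inr (Or.inl (⟨h, cs50 m i hm h⟩))))))))))
    · have h : (14 * m - 2) ≤ i ∧ i < (16 * m - 2) ∧ (i - (14 * m - 2)) % 2 = 1 := ⟨by omega, by omega, by omega⟩
      exact Or.inr (Or.inr (Or.inr (Or.inr (Or.inr (Or.inr (Or.inr (Or.inr (Or.inr (Or.inr (Or.inl (⟨h, cs51 m i hm h⟩)))))))))))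
  have h : i = (16 * m - 2) := by omega
  exact Or.inr (Or.inr (Or.inr (Or.inr (Or.inr (Or.inr (Or.inr (Or.inr (Or.inr (Or.inr (Or.inr (⟨h, cs60 m i hm h⟩)))))))))))

lemma steps (m i j : ℤ) (hm : 1 ≤ m) (h0 : 0 ≤ i) (h1 : i < 16 * m - 1)
    (hj : (i + 1 < 16 * m - 1 ∧ j = i + 1) ∨ (i + 1 = 16 * m - 1 ∧ j = 0)) :
    (((0) ≤ i ∧ i + 1 < (8 * m - 1) ∧ (i - (0)) % 2 = 0) ∧ Xs m j - Xs m i = (-4 * m + 2) + (i - (0)) ∧ Es m i = 1 ∧ Es m j = 0) ∨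
    (((0) ≤ i ∧ i + 1 < (8 * m - 1) ∧ (i - (0)) % 2 = 1) ∧ Xs m j - Xs m i = (4 * m - 2) - (i - (0)) ∧ Es m i = 0 ∧ Es m j = 1) ∨
    ((i + 1 = (8 * m - 1)) ∧ Xs m j - Xs m i = (6 * m - 1) ∧ Es m i = 1 ∧ Es m j = 1) ∨
    (((8 * m - 1) ≤ i ∧ i + 1 < (10 * m - 2) ∧ (i - (8 * m - 1)) % 2 = 0) ∧ Xs m j - Xs m i = ( - 1) - (i - (8 * m - 1)) ∧ Es m i = 1 ∧ Es m j = 1) ∨
    (((8 * m - 1) ≤ i ∧ i + 1 < (10 * m - 2) ∧ (i - (8 * m - 1)) % 2 = 1) ∧ Xs m j - Xs m i = (1) + (i - (8 * m - 1)) ∧ Es m i = 1 ∧ Es m j = 1) ∨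
    ((i + 1 = (10 * m - 2)) ∧ Xs m j - Xs m i = (1) ∧ Es m i = 1 ∧ Es m j = 1) ∨
    (((10 * m - 2) ≤ i ∧ i + 1 < (12 * m - 2) ∧ (i - (10 * m - 2)) % 2 = 0) ∧ Xs m j - Xs m i = (-2 * m) - (i - (10 * m - 2)) ∧ Es m i = 1 ∧ Es m j = 1) ∨
    (((10 * m - 2) ≤ i ∧ i + 1 < (12 * m - 2) ∧ (i - (10 * m - 2)) % 2 = 1) ∧ Xs m j - Xs m i = (2 * m) + (i - (10 * m - 2)) ∧ Es m i = 1 ∧ Es m j = 1) ∨
    ((i + 1 = (12 * m - 2)) ∧ Xs m j - Xs m i = (-4 * m) ∧ Es m i = 1 ∧ Es m j = 0) ∨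
    ((i + 1 = (12 * m - 1)) ∧ Xs m j - Xs m i = (6 * m - 1) ∧ Es m i = 0 ∧ Es m j = 0) ∨
    (((12 * m - 1) ≤ i ∧ i + 1 < (14 * m - 2) ∧ (i - (12 * m - 1)) % 2 = 0) ∧ Xs m j - Xs m i = ( - 1) - (i - (12 * m - 1)) ∧ Es m i = 0 ∧ Es m j = 0) ∨
    (((12 * m - 1) ≤ i ∧ i + 1 < (14 * m - 2) ∧ (i - (12 * m - 1)) % 2 = 1) ∧ Xs m j - Xs m i = (1) + (i - (12 * m - 1)) ∧ Es m i = 0 ∧ Es m j = 0) ∨
    ((i + 1 = (14 * m - 2)) ∧ Xs m j - Xs m i = (1) ∧ Es m i = 0 ∧ Es m j = 0) ∨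
    (((14 * m - 2) ≤ i ∧ i + 1 < (16 * m - 2) ∧ (i - (14 * m - 2)) % 2 = 0) ∧ Xs m j - Xs m i = (-2 * m) - (i - (14 * m - 2)) ∧ Es m i = 0 ∧ Es m j = 0) ∨
    (((14 * m - 2) ≤ i ∧ i + 1 < (16 * m - 2) ∧ (i - (14 * m - 2)) % 2 = 1) ∧ Xs m j - Xs m i = (2 * m) + (i - (14 * m - 2)) ∧ Es m i = 0 ∧ Es m j = 0) ∨
    ((i + 1 = (16 * m - 2)) ∧ Xs m j - Xs m i = (-4 * m - 1) ∧ Es m i = 0 ∧ Es m j = 1) ∨
    ((i + 1 = (16 * m - 1)) ∧ Xs m j - Xs m i = (4 * m) ∧ Es m i = 1 ∧ Es m j = 1) := by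
  by_cases g0 : i + 1 < (8 * m - 1)
  · have hj : j = i + 1 := by omega
    by_cases hp : (i - (0)) % 2 = 0
    · have h : (0) ≤ i ∧ i + 1 < (8 * m - 1) ∧ (i - (0)) % 2 = 0 := ⟨by omega, by omega, by omega⟩
      exact Or.inl (⟨h, by have a := cs00 m i hm (by omega); have b := cs01 m j hm (by omega); omega⟩)
    · have h : (0) ≤ i ∧ i + 1 < (8 * m - 1) ∧ (i - (0)) % 2 = 1 := ⟨by omega, by omega, by omega⟩
      exact Or.inr (Or.inl (⟨h, by have a := cs01 m i hm (by omega); have b := cs00 m j hm (by omega); omega⟩))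
  by_cases h : i + 1 = (8 * m - 1)
  · exact Or.inr (Or.inr (Or.inl (⟨h, by have a := cs00 m i hm (by omega); have b := cs10 m j hm (by omega); omega⟩)))
  by_cases g1 : i + 1 < (10 * m - 2)
  · have hj : j = i + 1 := by omega
    by_cases hp : (i - (8 * m - 1)) % 2 = 0
    · have h : (8 * m - 1) ≤ i ∧ i + 1 < (10 * m - 2) ∧ (i - (8 * m - 1)) % 2 = 0 := ⟨by omega, by omega, by omega⟩
      exact Or.inr (Or.inr (Or.inr (Or.inl (⟨h, by have a := cs10 m i hm (by omega); have b := cs11 m j hm (by omega); omega⟩))))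
    · have h : (8 * m - 1) ≤ i ∧ i + 1 < (10 * m - 2) ∧ (i - (8 * m - 1)) % 2 = 1 := ⟨by omega, by omega, by omega⟩
      exact Or.inr (Or.inr (Or.inr (Or.inr (Or.inl (⟨h, by have a := cs11 m i hm (by omega); have b := cs10 m j hm (by omega); omega⟩)))))
  by_cases h : i + 1 = (10 * m - 2)
  · exact Or.inr (Or.inr (Or.inr (Or.inr (Or.inr (Or.inl (⟨h, by have a := cs10 m i hm (by omega); have b := cs20 m j hm (by omega); omega⟩))))))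
  by_cases g2 : i + 1 < (12 * m - 2)
  · have hj : j = i + 1 := by omega
    by_cases hp : (i - (10 * m - 2)) % 2 = 0
    · have h : (10 * m - 2) ≤ i ∧ i + 1 < (12 * m - 2) ∧ (i - (10 * m - 2)) % 2 = 0 := ⟨by omega, by omega, by omega⟩
      exact Or.inr (Or.inr (Or.inr (Or.inr (Or.inr (Or.inr (Or.inl (⟨h, by have a := cs20 m i hm (by omega); have b := cs21 m j hm (by omega); omega⟩)))))))
    · have h : (10 * m - 2) ≤ i ∧ i + 1 < (12 * m - 2) ∧ (i - (10 * m - 2)) % 2 = 1 := ⟨by omega, by omega, by omega⟩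
      exact Or.inr (Or.inr (Or.inr (Or.inr (Or.inr (Or.inr (Or.inr (Or.inl (⟨h, by have a := cs21 m i hm (by omega); have b := cs20 m j hm (by omega); omega⟩))))))))
  by_cases h : i + 1 = (12 * m - 2)
  · exact Or.inr (Or.inr (Or.inr (Or.inr (Or.inr (Or.inr (Or.inr (Or.inr (Or.inl (⟨h, by have a := cs21 m i hm (by omega); have b := cs30 m j hm (by omega); omega⟩)))))))))
  by_cases h : i + 1 = (12 * m - 1)
  · exact Or.inr (Or.inr (Or.inr (Or.inr (Or.inr (Or.inr (Or.inr (Or.inr (Or.inr (Or.inl (⟨h, by have a := cs30 m i hm (by omega); have b := cs40 m j hm (by omega); omega⟩))))))))))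
  by_cases g4 : i + 1 < (14 * m - 2)
  · have hj : j = i + 1 := by omega
    by_cases hp : (i - (12 * m - 1)) % 2 = 0
    · have h : (12 * m - 1) ≤ i ∧ i + 1 < (14 * m - 2) ∧ (i - (12 * m - 1)) % 2 = 0 := ⟨by omega, by omega, by omega⟩
      exact Or.inr (Or.inr (Or.inr (Or.inr (Or.inr (Or.inr (Or.inr (Or.inr (Or.inr (Or.inr (Or.inl (⟨h, by have a := cs40 m i hm (by omega); have b := cs41 m j hm (by omega); omega⟩)))))))))))
    · have h : (12 * m - 1) ≤ i ∧ i + 1 < (14 * m - 2) ∧ (i - (12 * m - 1)) % 2 = 1 := ⟨by omega, by omega, by omega⟩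
      exact Or.inr (Or.inr (Or.inr (Or.inr (Or.inr (Or.inr (Or.inr (Or.inr (Or.inr (Or.inr (Or.inr (Or.inl (⟨h, by have a := cs41 m i hm (by omega); have b := cs40 m j hm (by omega); omega⟩))))))))))))
  by_cases h : i + 1 = (14 * m - 2)
  · exact Or.inr (Or.inr (Or.inr (Or.inr (Or.inr (Or.inr (Or.inr (Or.inr (Or.inr (Or.inr (Or.inr (Or.inr (Or.inl (⟨h, by have a := cs40 m i hm (by omega); have b := cs50 m j hm (by omega); omega⟩)))))))))))))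
  by_cases g5 : i + 1 < (16 * m - 2)
  · have hj : j = i + 1 := by omega
    by_cases hp : (i - (14 * m - 2)) % 2 = 0
    · have h : (14 * m - 2) ≤ i ∧ i + 1 < (16 * m - 2) ∧ (i - (14 * m - 2)) % 2 = 0 := ⟨by omega, by omega, by omega⟩
      exact Or.inr (Or.inr (Or.inr (Or.inr (Or.inr (Or.inr (Or.inr (Or.inr (Or.inr (Or.inr (Or.inr (Or.inr (Or.inr (Or.inl (⟨h, by have a := cs50 m i hm (by omega); have b := cs51 m j hm (by omega); omega⟩))))))))))))))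
    · have h : (14 * m - 2) ≤ i ∧ i + 1 < (16 * m - 2) ∧ (i - (14 * m - 2)) % 2 = 1 := ⟨by omega, by omega, by omega⟩
      exact Or.inr (Or.inr (Or.inr (Or.inr (Or.inr (Or.inr (Or.inr (Or.inr (Or.inr (Or.inr (Or.inr (Or.inr (Or.inr (Or.inr (Or.inl (⟨h, by have a := cs51 m i hm (by omega); have b := cs50 m j hm (by omega); omega⟩)))))))))))))))
  by_cases h : i + 1 = (16 * m - 2)
  · exact Or.inr (Or.inr (Or.inr (Or.inr (Or.inr (Or.inr (Or.inr (Or.inr (Or.inr (Or.inr (Or.inr (Or.inr (Or.inr (Or.inr (Or.inr (Or.inl (⟨h, by have a := cs51 m i hm (by omega); have b := cs60 m j hm (by omega); omega⟩))))))))))))))))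
  have h : i + 1 = (16 * m - 1) := by omega
  exact Or.inr (Or.inr (Or.inr (Or.inr (Or.inr (Or.inr (Or.inr (Or.inr (Or.inr (Or.inr (Or.inr (Or.inr (Or.inr (Or.inr (Or.inr (Or.inr (⟨h, by have a := cs60 m i hm (by omega); have b := cs00 m j hm (by omega); omega⟩))))))))))))))))

lemma good1s (m : ℤ) (hm : 1 ≤ m) : G1 m (Xs m) (Es m) := by
  intro i h0 h1
  have a := specs m i hm h0 h1
  rcases a with a | a | a | a | a | a | a | a | a | a | a | a <;> omega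

lemma good2s (m : ℤ) (hm : 1 ≤ m) : G2 m (Xs m) (Es m) := by
  intro i j h0 h1 h2 h3 h4 h5
  have a := specs m i hm h0 h1
  have b := specs m j hm h2 h3
  rcases a with a | a | a | a | a | a | a | a | a | a | a | a <;> rcases b with b | b | b | b | b | b | b | b | b | b | b | b <;> omega

def Sts0 (m i T : ℤ) : Prop :=
    (((i + 1 = (8 * m - 1)) ∧ ((6 * m - 1)) % 2 = 0) ∧ T = -1 * ((6 * m - 1))) ∨
    (((i + 1 = (8 * m - 1)) ∧ ((6 * m - 1)) % 2 = 1) ∧ T = -1 * ((6 * m - 1)) + 4 * m) ∨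
    ((((8 * m - 1) ≤ i ∧ i + 1 < (10 * m - 2) ∧ (i - (8 * m - 1)) % 2 = 0) ∧ (( - 1) - (i - (8 * m - 1))) % 2 = 0) ∧ T = -1 * (( - 1) - (i - (8 * m - 1)))) ∨
    ((((8 * m - 1) ≤ i ∧ i + 1 < (10 * m - 2) ∧ (i - (8 * m - 1)) % 2 = 0) ∧ (( - 1) - (i - (8 * m - 1))) % 2 = 1) ∧ T = -1 * (( - 1) - (i - (8 * m - 1))) + 4 * m) ∨
    ((((8 * m - 1) ≤ i ∧ i + 1 < (10 * m - 2) ∧ (i - (8 * m - 1)) % 2 = 1) ∧ ((1) + (i - (8 * m - 1))) % 2 = 0) ∧ T = -1 * ((1) + (i - (8 * m - 1)))) ∨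
    ((((8 * m - 1) ≤ i ∧ i + 1 < (10 * m - 2) ∧ (i - (8 * m - 1)) % 2 = 1) ∧ ((1) + (i - (8 * m - 1))) % 2 = 1) ∧ T = -1 * ((1) + (i - (8 * m - 1))) + 4 * m) ∨
    (((i + 1 = (10 * m - 2)) ∧ ((1)) % 2 = 0) ∧ T = -1 * ((1))) ∨
    (((i + 1 = (10 * m - 2)) ∧ ((1)) % 2 = 1) ∧ T = -1 * ((1)) + 4 * m) ∨
    ((((10 * m - 2) ≤ i ∧ i + 1 < (12 * m - 2) ∧ (i - (10 * m - 2)) % 2 = 0) ∧ ((-2 * m) - (i - (10 * m - 2))) % 2 = 0) ∧ T = -1 * ((-2 * m) - (i - (10 * m - 2)))) ∨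
    ((((10 * m - 2) ≤ i ∧ i + 1 < (12 * m - 2) ∧ (i - (10 * m - 2)) % 2 = 0) ∧ ((-2 * m) - (i - (10 * m - 2))) % 2 = 1) ∧ T = -1 * ((-2 * m) - (i - (10 * m - 2))) + 4 * m) ∨
    ((((10 * m - 2) ≤ i ∧ i + 1 < (12 * m - 2) ∧ (i - (10 * m - 2)) % 2 = 1) ∧ ((2 * m) + (i - (10 * m - 2))) % 2 = 0) ∧ T = -1 * ((2 * m) + (i - (10 * m - 2)))) ∨
    ((((10 * m - 2) ≤ i ∧ i + 1 < (12 * m - 2) ∧ (i - (10 * m - 2)) % 2 = 1) ∧ ((2 * m) + (i - (10 * m - 2))) % 2 = 1) ∧ T = -1 * ((2 * m) + (i - (10 * m - 2))) + 4 * m) ∨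
    ((i + 1 = (12 * m - 1)) ∧ T = (6 * m - 1)) ∨
    (((12 * m - 1) ≤ i ∧ i + 1 < (14 * m - 2) ∧ (i - (12 * m - 1)) % 2 = 0) ∧ T = ( - 1) - (i - (12 * m - 1))) ∨
    (((12 * m - 1) ≤ i ∧ i + 1 < (14 * m - 2) ∧ (i - (12 * m - 1)) % 2 = 1) ∧ T = (1) + (i - (12 * m - 1))) ∨
    ((i + 1 = (14 * m - 2)) ∧ T = (1)) ∨
    (((14 * m - 2) ≤ i ∧ i + 1 < (16 * m - 2) ∧ (i - (14 * m - 2)) % 2 = 0) ∧ T = (-2 * m) - (i - (14 * m - 2))) ∨
    (((14 * m - 2) ≤ i ∧ i + 1 < (16 * m - 2) ∧ (i - (14 * m - 2)) % 2 = 1) ∧ T = (2 * m) + (i - (14 * m - 2))) ∨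
    (((i + 1 = (16 * m - 1)) ∧ ((4 * m)) % 2 = 0) ∧ T = -1 * ((4 * m))) ∨
    (((i + 1 = (16 * m - 1)) ∧ ((4 * m)) % 2 = 1) ∧ T = -1 * ((4 * m)) + 4 * m)

lemma ins00 (m i i' T T' : ℤ) (hm : 1 ≤ m) (a : Sts0 m i T) (b : ((i' + 1 = (8 * m - 1)) ∧ ((6 * m - 1)) % 2 = 0) ∧ T' = -1 * ((6 * m - 1)))
    (hD : T - T' = -16 * m ∨ T - T' = -8 * m ∨ T - T' = 0 ∨ T - T' = 8 * m ∨ T - T' = 16 * m) :
    i = i' := by
  rcases a with a | a | a | a | a | a | a | a | a | a | a | a | a | a | a | a | a | a | a | a <;> omega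

lemma ins01 (m i i' T T' : ℤ) (hm : 1 ≤ m) (a : Sts0 m i T) (b : ((i' + 1 = (8 * m - 1)) ∧ ((6 * m - 1)) % 2 = 1) ∧ T' = -1 * ((6 * m - 1)) + 4 * m)
    (hD : T - T' = -16 * m ∨ T - T' = -8 * m ∨ T - T' = 0 ∨ T - T' = 8 * m ∨ T - T' = 16 * m) :
    i = i' := by
  rcases a with a | a | a | a | a | a | a | a | a | a | a | a | a | a | a | a | a | a | a | a <;> omega

lemma ins02 (m i i' T T' : ℤ) (hm : 1 ≤ m) (a : Sts0 m i T) (b : (((8 * m - 1) ≤ i' ∧ i' + 1 < (10 * m - 2) ∧ (i' - (8 * m - 1)) % 2 = 0) ∧ (( - 1) - (i' - (8 * m - 1))) % 2 = 0) ∧ T' = -1 * (( - 1) - (i' - (8 * m - 1))))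
    (hD : T - T' = -16 * m ∨ T - T' = -8 * m ∨ T - T' = 0 ∨ T - T' = 8 * m ∨ T - T' = 16 * m) :
    i = i' := by
  rcases a with a | a | a | a | a | a | a | a | a | a | a | a | a | a | a | a | a | a | a | a <;> omega

lemma ins03 (m i i' T T' : ℤ) (hm : 1 ≤ m) (a : Sts0 m i T) (b : (((8 * m - 1) ≤ i' ∧ i' + 1 < (10 * m - 2) ∧ (i' - (8 * m - 1)) % 2 = 0) ∧ (( - 1) - (i' - (8 * m - 1))) % 2 = 1) ∧ T' = -1 * (( - 1) - (i' - (8 * m - 1))) + 4 * m)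
    (hD : T - T' = -16 * m ∨ T - T' = -8 * m ∨ T - T' = 0 ∨ T - T' = 8 * m ∨ T - T' = 16 * m) :
    i = i' := by
  rcases a with a | a | a | a | a | a | a | a | a | a | a | a | a | a | a | a | a | a | a | a <;> omega

lemma ins04 (m i i' T T' : ℤ) (hm : 1 ≤ m) (a : Sts0 m i T) (b : (((8 * m - 1) ≤ i' ∧ i' + 1 < (10 * m - 2) ∧ (i' - (8 * m - 1)) % 2 = 1) ∧ ((1) + (i' - (8 * m - 1))) % 2 = 0) ∧ T' = -1 * ((1) + (i' - (8 * m - 1))))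
    (hD : T - T' = -16 * m ∨ T - T' = -8 * m ∨ T - T' = 0 ∨ T - T' = 8 * m ∨ T - T' = 16 * m) :
    i = i' := by
  rcases a with a | a | a | a | a | a | a | a | a | a | a | a | a | a | a | a | a | a | a | a <;> omega

lemma ins05 (m i i' T T' : ℤ) (hm : 1 ≤ m) (a : Sts0 m i T) (b : (((8 * m - 1) ≤ i' ∧ i' + 1 < (10 * m - 2) ∧ (i' - (8 * m - 1)) % 2 = 1) ∧ ((1) + (i' - (8 * m - 1))) % 2 = 1) ∧ T' = -1 * ((1) + (i' - (8 * m - 1))) + 4 * m)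
    (hD : T - T' = -16 * m ∨ T - T' = -8 * m ∨ T - T' = 0 ∨ T - T' = 8 * m ∨ T - T' = 16 * m) :
    i = i' := by
  rcases a with a | a | a | a | a | a | a | a | a | a | a | a | a | a | a | a | a | a | a | a <;> omega

lemma ins06 (m i i' T T' : ℤ) (hm : 1 ≤ m) (a : Sts0 m i T) (b : ((i' + 1 = (10 * m - 2)) ∧ ((1)) % 2 = 0) ∧ T' = -1 * ((1)))
    (hD : T - T' = -16 * m ∨ T - T' = -8 * m ∨ T - T' = 0 ∨ T - T' = 8 * m ∨ T - T' = 16 * m) :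
    i = i' := by
  rcases a with a | a | a | a | a | a | a | a | a | a | a | a | a | a | a | a | a | a | a | a <;> omega

lemma ins07 (m i i' T T' : ℤ) (hm : 1 ≤ m) (a : Sts0 m i T) (b : ((i' + 1 = (10 * m - 2)) ∧ ((1)) % 2 = 1) ∧ T' = -1 * ((1)) + 4 * m)
    (hD : T - T' = -16 * m ∨ T - T' = -8 * m ∨ T - T' = 0 ∨ T - T' = 8 * m ∨ T - T' = 16 * m) :
    i = i' := by
  rcases a with a | a | a | a | a | a | a | a | a | a | a | a | a | a | a | a | a | a | a | a <;> omega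

lemma ins08 (m i i' T T' : ℤ) (hm : 1 ≤ m) (a : Sts0 m i T) (b : (((10 * m - 2) ≤ i' ∧ i' + 1 < (12 * m - 2) ∧ (i' - (10 * m - 2)) % 2 = 0) ∧ ((-2 * m) - (i' - (10 * m - 2))) % 2 = 0) ∧ T' = -1 * ((-2 * m) - (i' - (10 * m - 2))))
    (hD : T - T' = -16 * m ∨ T - T' = -8 * m ∨ T - T' = 0 ∨ T - T' = 8 * m ∨ T - T' = 16 * m) :
    i = i' := by
  rcases a with a | a | a | a | a | a | a | a | a | a | a | a | a | a | a | a | a | a | a | a <;> omega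

lemma ins09 (m i i' T T' : ℤ) (hm : 1 ≤ m) (a : Sts0 m i T) (b : (((10 * m - 2) ≤ i' ∧ i' + 1 < (12 * m - 2) ∧ (i' - (10 * m - 2)) % 2 = 0) ∧ ((-2 * m) - (i' - (10 * m - 2))) % 2 = 1) ∧ T' = -1 * ((-2 * m) - (i' - (10 * m - 2))) + 4 * m)
    (hD : T - T' = -16 * m ∨ T - T' = -8 * m ∨ T - T' = 0 ∨ T - T' = 8 * m ∨ T - T' = 16 * m) :
    i = i' := by
  rcases a with a | a | a | a | a | a | a | a | a | a | a | a | a | a | a | a | a | a | a | a <;> omega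

lemma ins010 (m i i' T T' : ℤ) (hm : 1 ≤ m) (a : Sts0 m i T) (b : (((10 * m - 2) ≤ i' ∧ i' + 1 < (12 * m - 2) ∧ (i' - (10 * m - 2)) % 2 = 1) ∧ ((2 * m) + (i' - (10 * m - 2))) % 2 = 0) ∧ T' = -1 * ((2 * m) + (i' - (10 * m - 2))))
    (hD : T - T' = -16 * m ∨ T - T' = -8 * m ∨ T - T' = 0 ∨ T - T' = 8 * m ∨ T - T' = 16 * m) :
    i = i' := by
  rcases a with a | a | a | a | a | a | a | a | a | a | a | a | a | a | a | a | a | a | a | a <;> omega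

lemma ins011 (m i i' T T' : ℤ) (hm : 1 ≤ m) (a : Sts0 m i T) (b : (((10 * m - 2) ≤ i' ∧ i' + 1 < (12 * m - 2) ∧ (i' - (10 * m - 2)) % 2 = 1) ∧ ((2 * m) + (i' - (10 * m - 2))) % 2 = 1) ∧ T' = -1 * ((2 * m) + (i' - (10 * m - 2))) + 4 * m)
    (hD : T - T' = -16 * m ∨ T - T' = -8 * m ∨ T - T' = 0 ∨ T - T' = 8 * m ∨ T - T' = 16 * m) :
    i = i' := by
  rcases a with a | a | a | a | a | a | a | a | a | a | a | a | a | a | a | a | a | a | a | a <;> omega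

lemma ins012 (m i i' T T' : ℤ) (hm : 1 ≤ m) (a : Sts0 m i T) (b : (i' + 1 = (12 * m - 1)) ∧ T' = (6 * m - 1))
    (hD : T - T' = -16 * m ∨ T - T' = -8 * m ∨ T - T' = 0 ∨ T - T' = 8 * m ∨ T - T' = 16 * m) :
    i = i' := by
  rcases a with a | a | a | a | a | a | a | a | a | a | a | a | a | a | a | a | a | a | a | a <;> omega

lemma ins013 (m i i' T T' : ℤ) (hm : 1 ≤ m) (a : Sts0 m i T) (b : ((12 * m - 1) ≤ i' ∧ i' + 1 < (14 * m - 2) ∧ (i' - (12 * m - 1)) % 2 = 0) ∧ T' = ( - 1) - (i' - (12 * m - 1)))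
    (hD : T - T' = -16 * m ∨ T - T' = -8 * m ∨ T - T' = 0 ∨ T - T' = 8 * m ∨ T - T' = 16 * m) :
    i = i' := by
  rcases a with a | a | a | a | a | a | a | a | a | a | a | a | a | a | a | a | a | a | a | a <;> omega

lemma ins014 (m i i' T T' : ℤ) (hm : 1 ≤ m) (a : Sts0 m i T) (b : ((12 * m - 1) ≤ i' ∧ i' + 1 < (14 * m - 2) ∧ (i' - (12 * m - 1)) % 2 = 1) ∧ T' = (1) + (i' - (12 * m - 1)))
    (hD : T - T' = -16 * m ∨ T - T' = -8 * m ∨ T - T' = 0 ∨ T - T' = 8 * m ∨ T - T' = 16 * m) :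
    i = i' := by
  rcases a with a | a | a | a | a | a | a | a | a | a | a | a | a | a | a | a | a | a | a | a <;> omega

lemma ins015 (m i i' T T' : ℤ) (hm : 1 ≤ m) (a : Sts0 m i T) (b : (i' + 1 = (14 * m - 2)) ∧ T' = (1))
    (hD : T - T' = -16 * m ∨ T - T' = -8 * m ∨ T - T' = 0 ∨ T - T' = 8 * m ∨ T - T' = 16 * m) :
    i = i' := by
  rcases a with a | a | a | a | a | a | a | a | a | a | a | a | a | a | a | a | a | a | a | a <;> omega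

lemma ins016 (m i i' T T' : ℤ) (hm : 1 ≤ m) (a : Sts0 m i T) (b : ((14 * m - 2) ≤ i' ∧ i' + 1 < (16 * m - 2) ∧ (i' - (14 * m - 2)) % 2 = 0) ∧ T' = (-2 * m) - (i' - (14 * m - 2)))
    (hD : T - T' = -16 * m ∨ T - T' = -8 * m ∨ T - T' = 0 ∨ T - T' = 8 * m ∨ T - T' = 16 * m) :
    i = i' := by
  rcases a with a | a | a | a | a | a | a | a | a | a | a | a | a | a | a | a | a | a | a | a <;> omega

lemma ins017 (m i i' T T' : ℤ) (hm : 1 ≤ m) (a : Sts0 m i T) (b : ((14 * m - 2) ≤ i' ∧ i' + 1 < (16 * m - 2) ∧ (i' - (14 * m - 2)) % 2 = 1) ∧ T' = (2 * m) + (i' - (14 * m - 2)))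
    (hD : T - T' = -16 * m ∨ T - T' = -8 * m ∨ T - T' = 0 ∨ T - T' = 8 * m ∨ T - T' = 16 * m) :
    i = i' := by
  rcases a with a | a | a | a | a | a | a | a | a | a | a | a | a | a | a | a | a | a | a | a <;> omega

lemma ins018 (m i i' T T' : ℤ) (hm : 1 ≤ m) (a : Sts0 m i T) (b : ((i' + 1 = (16 * m - 1)) ∧ ((4 * m)) % 2 = 0) ∧ T' = -1 * ((4 * m)))
    (hD : T - T' = -16 * m ∨ T - T' = -8 * m ∨ T - T' = 0 ∨ T - T' = 8 * m ∨ T - T' = 16 * m) :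
    i = i' := by
  rcases a with a | a | a | a | a | a | a | a | a | a | a | a | a | a | a | a | a | a | a | a <;> omega

lemma ins019 (m i i' T T' : ℤ) (hm : 1 ≤ m) (a : Sts0 m i T) (b : ((i' + 1 = (16 * m - 1)) ∧ ((4 * m)) % 2 = 1) ∧ T' = -1 * ((4 * m)) + 4 * m)
    (hD : T - T' = -16 * m ∨ T - T' = -8 * m ∨ T - T' = 0 ∨ T - T' = 8 * m ∨ T - T' = 16 * m) :
    i = i' := by
  rcases a with a | a | a | a | a | a | a | a | a | a | a | a | a | a | a | a | a | a | a | a <;> omega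

lemma ins0 (m i i' T T' : ℤ) (hm : 1 ≤ m) (a : Sts0 m i T) (b : Sts0 m i' T')
    (hD : T - T' = -16 * m ∨ T - T' = -8 * m ∨ T - T' = 0 ∨ T - T' = 8 * m ∨ T - T' = 16 * m) :
    i = i' := by
  rcases b with b | b | b | b | b | b | b | b | b | b | b | b | b | b | b | b | b | b | b | b
  · exact ins00 m i i' T T' hm a b hD
  · exact ins01 m i i' T T' hm a b hD
  · exact ins02 m i i' T T' hm a b hD
  · exact ins03 m i i' T T' hm a b hD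
  · exact ins04 m i i' T T' hm a b hD
  · exact ins05 m i i' T T' hm a b hD
  · exact ins06 m i i' T T' hm a b hD
  · exact ins07 m i i' T T' hm a b hD
  · exact ins08 m i i' T T' hm a b hD
  · exact ins09 m i i' T T' hm a b hD
  · exact ins010 m i i' T T' hm a b hD
  · exact ins011 m i i' T T' hm a b hD
  · exact ins012 m i i' T T' hm a b hD
  · exact ins013 m i i' T T' hm a b hD
  · exact ins014 m i i' T T' hm a b hD
  · exact ins015 m i i' T T' hm a b hD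
  · exact ins016 m i i' T T' hm a b hD
  · exact ins017 m i i' T T' hm a b hD
  · exact ins018 m i i' T T' hm a b hD
  · exact ins019 m i i' T T' hm a b hD

def Sts1 (m i T : ℤ) : Prop :=
    ((((0) ≤ i ∧ i + 1 < (8 * m - 1) ∧ (i - (0)) % 2 = 0) ∧ ((-4 * m + 2) + (i - (0))) % 2 = 0) ∧ T = -1 * ((-4 * m + 2) + (i - (0)))) ∨
    ((((0) ≤ i ∧ i + 1 < (8 * m - 1) ∧ (i - (0)) % 2 = 0) ∧ ((-4 * m + 2) + (i - (0))) % 2 = 1) ∧ T = -1 * ((-4 * m + 2) + (i - (0))) + 4 * m) ∨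
    (((0) ≤ i ∧ i + 1 < (8 * m - 1) ∧ (i - (0)) % 2 = 1) ∧ T = (4 * m - 2) - (i - (0))) ∨
    (((i + 1 = (12 * m - 2)) ∧ ((-4 * m)) % 2 = 0) ∧ T = -1 * ((-4 * m))) ∨
    (((i + 1 = (12 * m - 2)) ∧ ((-4 * m)) % 2 = 1) ∧ T = -1 * ((-4 * m)) + 4 * m) ∨
    ((i + 1 = (16 * m - 2)) ∧ T = (-4 * m - 1))

lemma ins10 (m i i' T T' : ℤ) (hm : 1 ≤ m) (a : Sts1 m i T) (b : (((0) ≤ i' ∧ i' + 1 < (8 * m - 1) ∧ (i' - (0)) % 2 = 0) ∧ ((-4 * m + 2) + (i' - (0))) % 2 = 0) ∧ T' = -1 * ((-4 * m + 2) + (i' - (0))))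
    (hD : T - T' = -16 * m ∨ T - T' = -8 * m ∨ T - T' = 0 ∨ T - T' = 8 * m ∨ T - T' = 16 * m) :
    i = i' := by
  rcases a with a | a | a | a | a | a <;> omega

lemma ins11 (m i i' T T' : ℤ) (hm : 1 ≤ m) (a : Sts1 m i T) (b : (((0) ≤ i' ∧ i' + 1 < (8 * m - 1) ∧ (i' - (0)) % 2 = 0) ∧ ((-4 * m + 2) + (i' - (0))) % 2 = 1) ∧ T' = -1 * ((-4 * m + 2) + (i' - (0))) + 4 * m)
    (hD : T - T' = -16 * m ∨ T - T' = -8 * m ∨ T - T' = 0 ∨ T - T' = 8 * m ∨ T - T' = 16 * m) :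
    i = i' := by
  rcases a with a | a | a | a | a | a <;> omega

lemma ins12 (m i i' T T' : ℤ) (hm : 1 ≤ m) (a : Sts1 m i T) (b : ((0) ≤ i' ∧ i' + 1 < (8 * m - 1) ∧ (i' - (0)) % 2 = 1) ∧ T' = (4 * m - 2) - (i' - (0)))
    (hD : T - T' = -16 * m ∨ T - T' = -8 * m ∨ T - T' = 0 ∨ T - T' = 8 * m ∨ T - T' = 16 * m) :
    i = i' := by
  rcases a with a | a | a | a | a | a <;> omega

lemma ins13 (m i i' T T' : ℤ) (hm : 1 ≤ m) (a : Sts1 m i T) (b : ((i' + 1 = (12 * m - 2)) ∧ ((-4 * m)) % 2 = 0) ∧ T' = -1 * ((-4 * m)))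
    (hD : T - T' = -16 * m ∨ T - T' = -8 * m ∨ T - T' = 0 ∨ T - T' = 8 * m ∨ T - T' = 16 * m) :
    i = i' := by
  rcases a with a | a | a | a | a | a <;> omega

lemma ins14 (m i i' T T' : ℤ) (hm : 1 ≤ m) (a : Sts1 m i T) (b : ((i' + 1 = (12 * m - 2)) ∧ ((-4 * m)) % 2 = 1) ∧ T' = -1 * ((-4 * m)) + 4 * m)
    (hD : T - T' = -16 * m ∨ T - T' = -8 * m ∨ T - T' = 0 ∨ T - T' = 8 * m ∨ T - T' = 16 * m) :
    i = i' := by
  rcases a with a | a | a | a | a | a <;> omega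

lemma ins15 (m i i' T T' : ℤ) (hm : 1 ≤ m) (a : Sts1 m i T) (b : (i' + 1 = (16 * m - 2)) ∧ T' = (-4 * m - 1))
    (hD : T - T' = -16 * m ∨ T - T' = -8 * m ∨ T - T' = 0 ∨ T - T' = 8 * m ∨ T - T' = 16 * m) :
    i = i' := by
  rcases a with a | a | a | a | a | a <;> omega

lemma ins1 (m i i' T T' : ℤ) (hm : 1 ≤ m) (a : Sts1 m i T) (b : Sts1 m i' T')
    (hD : T - T' = -16 * m ∨ T - T' = -8 * m ∨ T - T' = 0 ∨ T - T' = 8 * m ∨ T - T' = 16 * m) :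
    i = i' := by
  rcases b with b | b | b | b | b | b
  · exact ins10 m i i' T T' hm a b hD
  · exact ins11 m i i' T T' hm a b hD
  · exact ins12 m i i' T T' hm a b hD
  · exact ins13 m i i' T T' hm a b hD
  · exact ins14 m i i' T T' hm a b hD
  · exact ins15 m i i' T T' hm a b hD

lemma sts (m i j T : ℤ) (hm : 1 ≤ m) (h0 : 0 ≤ i) (h1 : i < 16 * m - 1)
    (hj : (i + 1 < 16 * m - 1 ∧ j = i + 1) ∨ (i + 1 = 16 * m - 1 ∧ j = 0))
    (hT : (Es m i = 0 ∧ T = Xs m j - Xs m i) ∨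
      (Es m i = 1 ∧ (Xs m j - Xs m i) % 2 = 0 ∧ T = -1 * (Xs m j - Xs m i)) ∨
      (Es m i = 1 ∧ (Xs m j - Xs m i) % 2 = 1 ∧ T = -1 * (Xs m j - Xs m i) + 4 * m)) :
    ((Es m i + Es m j) % 2 = 0 ∧ Sts0 m i T) ∨ ((Es m i + Es m j) % 2 = 1 ∧ Sts1 m i T) := by
  have a := steps m i j hm h0 h1 hj
  clear hj
  generalize Xs m j - Xs m i = d at *
  generalize Es m i = e at *
  generalize Es m j = f at *
  rcases a with ⟨a, rfl, rfl, rfl⟩ | ⟨a, rfl, rfl, rfl⟩ | ⟨a, rfl, rfl, rfl⟩ | ⟨a, rfl, rfl, rfl⟩ | ⟨a, rfl, rfl, rfl⟩ | ⟨a, rfl, rfl, rfl⟩ | ⟨a, rfl, rfl, rfl⟩ | ⟨a, rfl, rfl, rfl⟩ | ⟨a, rfl, rfl, rfl⟩ | ⟨a, rfl, rfl, rfl⟩ | ⟨a, rfl, rfl, rfl⟩ | ⟨a, rfl, rfl, rfl⟩ | ⟨a, rfl, rfl, rfl⟩ | ⟨a, rfl, rfl, rfl⟩ | ⟨a, rfl, rfl, rfl⟩ | ⟨a, rfl, rfl, rfl⟩ | ⟨a, rfl, rfl, rfl⟩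
  · by_cases hp : ((-4 * m + 2) + (i - (0))) % 2 = 0
    · exact Or.inr ⟨by norm_num, Or.inl (⟨⟨a, hp⟩, by omega⟩)⟩
    · exact Or.inr ⟨by norm_num, Or.inr (Or.inl (⟨⟨a, by omega⟩, by omega⟩))⟩
  · exact Or.inr ⟨by norm_num, Or.inr (Or.inr (Or.inl (⟨a, by omega⟩)))⟩
  · by_cases hp : ((6 * m - 1)) % 2 = 0
    · exact Or.inl ⟨by norm_num, Or.inl (⟨⟨a, hp⟩, by omega⟩)⟩
    · exact Or.inl ⟨by norm_num, Or.inr (Or.inl (⟨⟨a, by omega⟩, by omega⟩))⟩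
  · by_cases hp : (( - 1) - (i - (8 * m - 1))) % 2 = 0
    · exact Or.inl ⟨by norm_num, Or.inr (Or.inr (Or.inl (⟨⟨a, hp⟩, by omega⟩)))⟩
    · exact Or.inl ⟨by norm_num, Or.inr (Or.inr (Or.inr (Or.inl (⟨⟨a, by omega⟩, by omega⟩))))⟩
  · by_cases hp : ((1) + (i - (8 * m - 1))) % 2 = 0
    · exact Or.inl ⟨by norm_num, Or.inr (Or.inr (Or.inr (Or.inr (Or.inl (⟨⟨a, hp⟩, by omega⟩)))))⟩
    · exact Or.inl ⟨by norm_num, Or.inr (Or.inr (Or.inr (Or.inr (Or.inr (Or.inl (⟨⟨a, by omega⟩, by omega⟩))))))⟩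
  · by_cases hp : ((1)) % 2 = 0
    · exact Or.inl ⟨by norm_num, Or.inr (Or.inr (Or.inr (Or.inr (Or.inr (Or.inr (Or.inl (⟨⟨a, hp⟩, by omega⟩)))))))⟩
    · exact Or.inl ⟨by norm_num, Or.inr (Or.inr (Or.inr (Or.inr (Or.inr (Or.inr (Or.inr (Or.inl (⟨⟨a, by omega⟩, by omega⟩))))))))⟩
  · by_cases hp : ((-2 * m) - (i - (10 * m - 2))) % 2 = 0
    · exact Or.inl ⟨by norm_num, Or.inr (Or.inr (Or.inr (Or.inr (Or.inr (Or.inr (Or.inr (Or.inr (Or.inl (⟨⟨a, hp⟩, by omega⟩)))))))))⟩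
    · exact Or.inl ⟨by norm_num, Or.inr (Or.inr (Or.inr (Or.inr (Or.inr (Or.inr (Or.inr (Or.inr (Or.inr (Or.inl (⟨⟨a, by omega⟩, by omega⟩))))))))))⟩
  · by_cases hp : ((2 * m) + (i - (10 * m - 2))) % 2 = 0
    · exact Or.inl ⟨by norm_num, Or.inr (Or.inr (Or.inr (Or.inr (Or.inr (Or.inr (Or.inr (Or.inr (Or.inr (Or.inr (Or.inl (⟨⟨a, hp⟩, by omega⟩)))))))))))⟩
    · exact Or.inl ⟨by norm_num, Or.inr (Or.inr (Or.inr (Or.inr (Or.inr (Or.inr (Or.inr (Or.inr (Or.inr (Or.inr (Or.inr (Or.inl (⟨⟨a, by omega⟩, by omega⟩))))))))))))⟩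
  · by_cases hp : ((-4 * m)) % 2 = 0
    · exact Or.inr ⟨by norm_num, Or.inr (Or.inr (Or.inr (Or.inl (⟨⟨a, hp⟩, by omega⟩))))⟩
    · exact Or.inr ⟨by norm_num, Or.inr (Or.inr (Or.inr (Or.inr (Or.inl (⟨⟨a, by omega⟩, by omega⟩)))))⟩
  · exact Or.inl ⟨by norm_num, Or.inr (Or.inr (Or.inr (Or.inr (Or.inr (Or.inr (Or.inr (Or.inr (Or.inr (Or.inr (Or.inr (Or.inr (Or.inl (⟨a, by omega⟩)))))))))))))⟩
  · exact Or.inl ⟨by norm_num, Or.inr (Or.inr (Or.inr (Or.inr (Or.inr (Or.inr (Or.inr (Or.inr (Or.inr (Or.inr (Or.inr (Or.inr (Or.inr (Or.inl (⟨a, by omega⟩))))))))))))))⟩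
  · exact Or.inl ⟨by norm_num, Or.inr (Or.inr (Or.inr (Or.inr (Or.inr (Or.inr (Or.inr (Or.inr (Or.inr (Or.inr (Or.inr (Or.inr (Or.inr (Or.inr (Or.inl (⟨a, by omega⟩)))))))))))))))⟩
  · exact Or.inl ⟨by norm_num, Or.inr (Or.inr (Or.inr (Or.inr (Or.inr (Or.inr (Or.inr (Or.inr (Or.inr (Or.inr (Or.inr (Or.inr (Or.inr (Or.inr (Or.inr (Or.inl (⟨a, by omega⟩))))))))))))))))⟩
  · exact Or.inl ⟨by norm_num, Or.inr (Or.inr (Or.inr (Or.inr (Or.inr (Or.inr (Or.inr (Or.inr (Or.inr (Or.inr (Or.inr (Or.inr (Or.inr (Or.inr (Or.inr (Or.inr (Or.inl (⟨a, by omega⟩)))))))))))))))))⟩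
  · exact Or.inl ⟨by norm_num, Or.inr (Or.inr (Or.inr (Or.inr (Or.inr (Or.inr (Or.inr (Or.inr (Or.inr (Or.inr (Or.inr (Or.inr (Or.inr (Or.inr (Or.inr (Or.inr (Or.inr (Or.inl (⟨a, by omega⟩))))))))))))))))))⟩
  · exact Or.inr ⟨by norm_num, Or.inr (Or.inr (Or.inr (Or.inr (Or.inr (⟨a, by omega⟩)))))⟩
  · by_cases hp : ((4 * m)) % 2 = 0
    · exact Or.inl ⟨by norm_num, Or.inr (Or.inr (Or.inr (Or.inr (Or.inr (Or.inr (Or.inr (Or.inr (Or.inr (Or.inr (Or.inr (Or.inr (Or.inr (Or.inr (Or.inr (Or.inr (Or.inr (Or.inr (Or.inl (⟨⟨a, hp⟩, by omega⟩)))))))))))))))))))⟩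
    · exact Or.inl ⟨by norm_num, Or.inr (Or.inr (Or.inr (Or.inr (Or.inr (Or.inr (Or.inr (Or.inr (Or.inr (Or.inr (Or.inr (Or.inr (Or.inr (Or.inr (Or.inr (Or.inr (Or.inr (Or.inr (Or.inr (⟨⟨a, by omega⟩, by omega⟩)))))))))))))))))))⟩

lemma good3s (m : ℤ) (hm : 1 ≤ m) : G3 m (-1) (Xs m) (Es m) := by
  intro i i' j j' T T' h0 h1 hj h0' h1' hj' hT hT' hE hD
  rcases sts m i j T hm h0 h1 hj hT with a | a <;>
  rcases sts m i' j' T' hm h0' h1' hj' hT' with b | b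
  · exact ins0 m i i' T T' hm a.2 b.2 hD
  · exact absurd (a.1.symm.trans (hE.trans b.1)) (by norm_num)
  · exact absurd (a.1.symm.trans (hE.trans b.1)) (by norm_num)
  · exact ins1 m i i' T T' hm a.2 b.2 hD

end Pool.Agent.H54.RSeq
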