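import Mathlib

namespace Pool.Agent.H54.ResSum

open Finset

structure Hyp (b : ℕ → ℝ) (M : ℝ) : Prop where
  nn : ∀ j, 0 ≤ b j
  sub : ∀ i j, b (i + j) ≤ b i * b j
  bd : ∀ n j, 0 < n → b j * (n.ascFactorial j : ℝ) ≤ (j.factorial : ℝ) * M ^ n
  one : 1 ≤ M

variable {b : ℕ → ℝ} {M : ℝ}

theorem Hyp.mono (h : Hyp b M) {B : ℝ} (hB : M ≤ B) : Hyp b B :=
  ⟨h.nn, h.sub, fun n j hn => (h.bd n j hn).trans (by
    have := h.one
    gcongr), h.one.trans hB⟩

theorem Hyp.P_mono (h : Hyp b M) {N K : ℕ} (hNK : N ≤ K) :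
    ∑ j ∈ range N, b (j + 1) ≤ ∑ j ∈ range K, b (j + 1) :=
  sum_le_sum_of_subset_of_nonneg (range_mono hNK) fun _ _ _ => h.nn _

theorem Hyp.fold (h : Hyp b M) {k : ℕ} (hk : 0 < k) {E : ℝ} (hE : 0 ≤ E)
    (H : ∑ j ∈ range k, b (j + 1) + b k * E ≤ E) (N : ℕ) : ∑ j ∈ range N, b (j + 1) ≤ E := by
  induction N using Nat.strong_induction_on with
  | _ N ih =>
    have hb := mul_nonneg (h.nn k) hE
    rcases le_or_gt N k with hN | hN
    · have := h.P_mono hN
      linarith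
    · obtain ⟨m, rfl⟩ : ∃ m, N = k + m := ⟨N - k, by omega⟩
      rw [sum_range_add]
      have h1 : ∑ j ∈ range m, b (k + j + 1) ≤ b k * ∑ j ∈ range m, b (j + 1) := by
        rw [mul_sum]
        exact sum_le_sum fun j _ => by rw [add_assoc]; exact h.sub _ _
      have h2 := mul_le_mul_of_nonneg_left (ih m (by omega)) (h.nn k)
      linarith

theorem Hyp.b1 (h : Hyp b M) (j : ℕ) : b j ≤ M := by
  have := h.bd 1 j one_pos
  rw [Nat.one_ascFactorial, pow_one, mul_comm] at this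
  exact le_of_mul_le_mul_left this (by positivity)

theorem Hyp.b3 (h : Hyp b M) (j : ℕ) : b j * ((j + 1) * (j + 2)) ≤ 2 * M ^ 3 := by
  have h1 := h.bd 3 j (by norm_num)
  have h2 : ((2 : ℕ).factorial * (2 + 1).ascFactorial j : ℕ) = (2 + j).factorial :=
    Nat.factorial_mul_ascFactorial 2 j
  have h3 : ((3 : ℕ).ascFactorial j : ℝ) * 2 = (j.factorial : ℝ) * ((j + 1) * (j + 2)) := by
    have : (2 + j).factorial = j.factorial * ((j + 1) * (j + 2)) := by
      rw [add_comm 2 j, Nat.factorial_succ, Nat.factorial_succ]; ring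
    rw [this] at h2
    have h4 : (3 : ℕ).ascFactorial j * 2 = j.factorial * ((j + 1) * (j + 2)) := by
      rw [← h2]; simp [Nat.factorial]; ring
    exact_mod_cast h4
  have hf : (0 : ℝ) < j.factorial := by positivity
  refine le_of_mul_le_mul_left ?_ hf
  have : (j.factorial : ℝ) * (b j * ((j + 1) * (j + 2)))
      = 2 * (b j * ((3 : ℕ).ascFactorial j : ℝ)) := by linear_combination (-b j) * h3
  rw [this]; linarith

theorem Hyp.b4 (h : Hyp b M) (j : ℕ) : b j * ((j + 1) * (j + 2) * (j + 3)) ≤ 6 * M ^ 4 := by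
  have h1 := h.bd 4 j (by norm_num)
  have h2 : ((3 : ℕ).factorial * (3 + 1).ascFactorial j : ℕ) = (3 + j).factorial :=
    Nat.factorial_mul_ascFactorial 3 j
  have h3 : ((4 : ℕ).ascFactorial j : ℝ) * 6
      = (j.factorial : ℝ) * ((j + 1) * (j + 2) * (j + 3)) := by
    have : (3 + j).factorial = j.factorial * ((j + 1) * (j + 2) * (j + 3)) := by
      rw [add_comm 3 j, Nat.factorial_succ, Nat.factorial_succ, Nat.factorial_succ]; ring
    rw [this] at h2
    have h4 : (4 : ℕ).ascFactorial j * 6 = j.factorial * ((j + 1) * (j + 2) * (j + 3)) := by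
      rw [← h2]; simp [Nat.factorial]; ring
    exact_mod_cast h4
  have hf : (0 : ℝ) < j.factorial := by positivity
  refine le_of_mul_le_mul_left ?_ hf
  have : (j.factorial : ℝ) * (b j * ((j + 1) * (j + 2) * (j + 3)))
      = 6 * (b j * ((4 : ℕ).ascFactorial j : ℝ)) := by linear_combination (-b j) * h3
  rw [this]; linarith

theorem Hyp.tel3 (h : Hyp b M) {J N : ℕ} (hN : J ≤ N) :
    ∑ j ∈ range N, b (j + 1) + 2 * M ^ 3 / (N + 2)
      ≤ ∑ j ∈ range J, b (j + 1) + 2 * M ^ 3 / (J + 2) := by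
  induction N, hN using Nat.le_induction with
  | base => exact le_rfl
  | succ N _ ih =>
    rw [sum_range_succ]
    have h1 := h.b3 (N + 1)
    have h2 : b (N + 1) ≤ 2 * M ^ 3 / (N + 2) - 2 * M ^ 3 / ((N + 1 : ℕ) + 2) := by
      have : 2 * M ^ 3 / (N + 2) - 2 * M ^ 3 / ((N + 1 : ℕ) + 2)
          = 2 * M ^ 3 / ((((N + 1 : ℕ) : ℝ) + 1) * (((N + 1 : ℕ) : ℝ) + 2)) := by
        push_cast; field_simp; ring
      rw [this, le_div_iff₀ (by positivity)]
      exact h1
    linarith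

theorem Hyp.tel4 (h : Hyp b M) {J N : ℕ} (hN : J ≤ N) :
    ∑ j ∈ range N, b (j + 1) + 3 * M ^ 4 / ((N + 2) * (N + 3))
      ≤ ∑ j ∈ range J, b (j + 1) + 3 * M ^ 4 / ((J + 2) * (J + 3)) := by
  induction N, hN using Nat.le_induction with
  | base => exact le_rfl
  | succ N _ ih =>
    rw [sum_range_succ]
    have h1 := h.b4 (N + 1)
    have h2 : b (N + 1) ≤ 3 * M ^ 4 / ((N + 2) * (N + 3))
        - 3 * M ^ 4 / ((((N + 1 : ℕ) : ℝ) + 2) * (((N + 1 : ℕ) : ℝ) + 3)) := by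
      have : 3 * M ^ 4 / ((N + 2) * (N + 3))
          - 3 * M ^ 4 / ((((N + 1 : ℕ) : ℝ) + 2) * (((N + 1 : ℕ) : ℝ) + 3))
          = 6 * M ^ 4 / ((((N + 1 : ℕ) : ℝ) + 1) * (((N + 1 : ℕ) : ℝ) + 2)
            * (((N + 1 : ℕ) : ℝ) + 3)) := by
        push_cast; field_simp; ring
      rw [this, le_div_iff₀ (by positivity)]
      exact h1
    linarith

theorem e_lo : (2718 / 1000 : ℝ) ≤ Real.exp 1 := by
  have := Real.exp_one_gt_d9; linarith

theorem e_hi : Real.exp 1 ≤ (27183 / 10000 : ℝ) := by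
  have := Real.exp_one_lt_d9; linarith

theorem Hyp.large (h : Hyp b M) (hM : 4 ≤ M) (N : ℕ) :
    ∑ j ∈ range N, b (j + 1) ≤ 2718 / 1000 * (M * (M - 1)) := by
  obtain ⟨x, hx1, hx2⟩ : ∃ x : ℕ, 4 * M / 3 ≤ x ∧ (x : ℝ) < 4 * M / 3 + 1 :=
    ⟨⌈4 * M / 3⌉₊, Nat.le_ceil _, Nat.ceil_lt_add_one (by positivity)⟩
  obtain ⟨y, hy1, hy2⟩ : ∃ y : ℕ, 3 * M ≤ y ∧ (y : ℝ) < 3 * M + 1 :=
    ⟨⌈3 * M⌉₊, Nat.le_ceil _, Nat.ceil_lt_add_one (by positivity)⟩
  have hx : 2 ≤ x := by
    have : (2 : ℝ) ≤ x := by linarith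
    exact_mod_cast this
  have hxy : x ≤ y := by
    have : (x : ℝ) ≤ y := by linarith
    exact_mod_cast this
  obtain ⟨J, rfl⟩ : ∃ J, x = J + 2 := ⟨x - 2, by omega⟩
  obtain ⟨K, rfl⟩ : ∃ K, y = K + 2 := ⟨y - 2, by omega⟩
  push_cast at hx1 hx2 hy1 hy2
  have h1 := h.P_mono (le_max_left N K)
  have h2 := h.tel4 (le_max_right N K)
  have h3 := h.tel3 (show J ≤ K by omega)
  have h4 : ∑ j ∈ range J, b (j + 1) ≤ J * M := by
    have := sum_le_card_nsmul (range J) (fun j => b (j + 1)) M fun j _ => h.b1 _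
    simpa using this
  have h5 : 0 ≤ 3 * M ^ 4 / ((((max N K : ℕ) : ℝ) + 2) * (((max N K : ℕ) : ℝ) + 3)) := by
    positivity
  set x : ℝ := (J : ℝ) + 2 with hxd
  set y : ℝ := (K : ℝ) + 2 with hyd
  have hx0 : 0 < x := by linarith
  have hy0 : 0 < y := by linarith
  have hM0 : 0 < M := by linarith
  have h6 : x * M + 2 * M ^ 3 / x ≤ 285 / 100 * M ^ 2 := by
    have k : x ^ 2 + 2 * M ^ 2 ≤ 285 / 100 * M * x := by
      have a1 : 0 ≤ (x - 4 * M / 3) * (19 * M / 12 - x) :=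
        mul_nonneg (by linarith) (by linarith)
      have a2 : 0 ≤ M * (19 * M / 12 - x) := mul_nonneg hM0.le (by linarith)
      nlinarith
    have : 2 * M ^ 3 / x ≤ 285 / 100 * M ^ 2 - x * M := by
      rw [div_le_iff₀ hx0]
      nlinarith [mul_le_mul_of_nonneg_left k hM0.le]
    linarith
  have h7 : 3 * M ^ 4 / (y * ((K : ℝ) + 3)) - 2 * M ^ 3 / y ≤ -(33 / 100) * M ^ 2 := by
    have a0 : 3 * M ^ 4 / (y * ((K : ℝ) + 3)) ≤ 3 * M ^ 4 / (y * y) := by
      apply div_le_div_of_nonneg_left (by positivity) (by positivity)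
      exact mul_le_mul_of_nonneg_left (by linarith) hy0.le
    have k : 3 * M ^ 2 - 2 * M * y + 33 / 100 * y ^ 2 ≤ 0 := by
      have a1 : 0 ≤ (M - 3 / 10 * y) * (11 / 30 * y - M) :=
        mul_nonneg (by linarith) (by linarith)
      nlinarith
    have a2 : 3 * M ^ 4 / (y * y) - 2 * M ^ 3 / y + 33 / 100 * M ^ 2
        = M ^ 2 * (3 * M ^ 2 - 2 * M * y + 33 / 100 * y ^ 2) / y ^ 2 := by
      field_simp
    have a3 : M ^ 2 * (3 * M ^ 2 - 2 * M * y + 33 / 100 * y ^ 2) / y ^ 2 ≤ 0 :=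
      div_nonpos_of_nonpos_of_nonneg (mul_nonpos_of_nonneg_of_nonpos (by positivity) k)
        (by positivity)
    linarith
  have h8 : (J : ℝ) * M = x * M - 2 * M := by rw [hxd]; ring
  nlinarith

theorem Hyp.small (h : Hyp b M) (hM : M ≤ 1 + 1 / 40) (N : ℕ) :
    ∑ j ∈ range N, b (j + 1) ≤ Real.exp 1 * (M * (M - 1)) := by
  have hM1 := h.one
  rcases hM1.eq_or_lt with rfl | hM1
  · have hb : b 1 ≤ 0 := by
      by_contra hc
      push Not at hc
      obtain ⟨n, hn⟩ := exists_nat_gt (1 / b 1)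
      have hn0 : (0 : ℝ) < n := lt_trans (by positivity) hn
      have := h.bd n 1 (by exact_mod_cast hn0)
      rw [div_lt_iff₀ hc] at hn
      simp [Nat.ascFactorial] at this
      linarith
    simpa using h.fold one_pos (E := 0) le_rfl (by simpa using hb) N
  obtain ⟨s, hs0, hs1, rfl⟩ : ∃ s : ℝ, 0 < s ∧ s ≤ 1 / 40 ∧ M = Real.exp s :=
    ⟨Real.log M, Real.log_pos hM1, by have := Real.log_le_sub_one_of_pos (lt_trans one_pos hM1); linarith,
      (Real.exp_log (lt_trans one_pos hM1)).symm⟩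
  have he1 := e_lo
  have he2 := e_hi
  set e := Real.exp 1 with he
  have fl : ∀ c : ℝ, 1 ≤ c → ∃ n : ℕ, 0 < n ∧ n * s ≤ c ∧ c < (n + 1) * s := by
    intro c hc
    have a1 : ((⌊c / s⌋₊ : ℕ) : ℝ) ≤ c / s := Nat.floor_le (by positivity)
    have a2 : c / s < (⌊c / s⌋₊ : ℕ) + 1 := Nat.lt_floor_add_one _
    refine ⟨⌊c / s⌋₊, Nat.floor_pos.2 ?_, (le_div_iff₀ hs0).1 a1, (div_lt_iff₀ hs0).1 a2⟩
    rw [le_div_iff₀ hs0]; linarith
  obtain ⟨n, hn0, hn1, hn2⟩ := fl 1 le_rfl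
  obtain ⟨m, hm0, hm1, hm2⟩ := fl 2 (by norm_num)
  have hb1 : b 1 ≤ e * s * (1 + 40 / 39 * s ^ 2) := by
    have a1 := h.bd n 1 hn0
    simp only [Nat.ascFactorial_succ, Nat.ascFactorial_zero, add_zero, mul_one,
      Nat.factorial_one, Nat.cast_one, one_mul] at a1
    set d : ℝ := n * s - 1 with hd
    have d1 : -s ≤ d := by rw [hd]; linarith
    have d2 : d ≤ 0 := by rw [hd]; linarith
    have a2 : Real.exp s ^ n = e * Real.exp d := by
      rw [← Real.exp_nat_mul, he, ← Real.exp_add]; congr 1; rw [hd]; ring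
    have a3 : Real.exp d ≤ 1 + d + d ^ 2 := by
      have := Real.abs_exp_sub_one_sub_id_le (x := d) (by rw [abs_le]; constructor <;> linarith)
      have := (abs_le.1 this).2
      linarith
    have a4 : b 1 * (1 + d) ≤ e * s * (1 + d + d ^ 2) := by
      have : b 1 * (1 + d) = (b 1 * n) * s := by rw [hd]; ring
      rw [this]
      have : b 1 * n ≤ e * (1 + d + d ^ 2) := by
        rw [a2] at a1
        exact a1.trans (mul_le_mul_of_nonneg_left a3 (by linarith))
      nlinarith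
    have a5 : 1 + d + d ^ 2 ≤ (1 + 40 / 39 * s ^ 2) * (1 + d) := by
      have : d ^ 2 ≤ s ^ 2 := by nlinarith
      have : s ^ 2 * (39 / 40) ≤ s ^ 2 * (1 + d) :=
        mul_le_mul_of_nonneg_left (by linarith) (by positivity)
      nlinarith
    have a6 : 0 < 1 + d := by linarith
    refine le_of_mul_le_mul_right ?_ a6
    have : 0 ≤ e * s := by positivity
    calc b 1 * (1 + d) ≤ e * s * (1 + d + d ^ 2) := a4
      _ ≤ e * s * ((1 + 40 / 39 * s ^ 2) * (1 + d)) := mul_le_mul_of_nonneg_left a5 this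
      _ = _ := by ring
  have hb2 : b 2 ≤ e * s ^ 2 * (138 / 100) := by
    have a1 := h.bd m 2 hm0
    simp only [Nat.ascFactorial_succ, Nat.ascFactorial_zero, add_zero, mul_one,
      Nat.factorial_two] at a1
    push_cast at a1
    have a2 : Real.exp s ^ m ≤ e * e := by
      rw [← Real.exp_nat_mul, he, ← Real.exp_add]
      exact Real.exp_le_exp.2 (by linarith)
    have a3 : 2 * (79 / 40) ≤ ((m + 1) * s) * (m * s) :=
      mul_le_mul hm2.le (by linarith) (by norm_num) (by linarith)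
    have a4 : b 2 * (2 * (79 / 40)) ≤ 2 * (e * e) * s ^ 2 := by
      calc b 2 * (2 * (79 / 40)) ≤ b 2 * (((m + 1) * s) * (m * s)) :=
            mul_le_mul_of_nonneg_left a3 (h.nn 2)
        _ = (b 2 * ((m + 1) * m)) * s ^ 2 := by ring
        _ ≤ _ := mul_le_mul_of_nonneg_right (by linarith) (by positivity)
    have a5 : 0 ≤ e * s ^ 2 := by positivity
    nlinarith [mul_le_mul_of_nonneg_left he2 a5]
  have hE : s + 3 / 2 * s ^ 2 + s ^ 3 ≤ Real.exp s * (Real.exp s - 1) := by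
    have a1 : 1 + s + s ^ 2 / 2 ≤ Real.exp s := Real.quadratic_le_exp_of_nonneg hs0.le
    calc s + 3 / 2 * s ^ 2 + s ^ 3 ≤ (1 + s + s ^ 2 / 2) * (s + s ^ 2 / 2) := by
          nlinarith [pow_pos hs0 4]
      _ ≤ _ := mul_le_mul a1 (by linarith) (by positivity) (by linarith)
  have hE0 : 0 ≤ e * (s + 3 / 2 * s ^ 2 + s ^ 3) := by positivity
  have hE1 : e * (s + 3 / 2 * s ^ 2 + s ^ 3) ≤ 8 / 100 := by
    have : s + 3 / 2 * s ^ 2 + s ^ 3 ≤ 27 / 1000 := by nlinarith [pow_pos hs0 2, pow_pos hs0 3]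
    nlinarith
  refine (h.fold two_pos hE0 ?_ N).trans (mul_le_mul_of_nonneg_left hE (by linarith))
  have a0 : ∑ j ∈ range 2, b (j + 1) = b 1 + b 2 := by
    rw [sum_range_succ, sum_range_one]
  rw [a0]
  have a1 : b 2 * (e * (s + 3 / 2 * s ^ 2 + s ^ 3)) ≤ b 2 * (8 / 100) :=
    mul_le_mul_of_nonneg_left hE1 (h.nn 2)
  have a2 : 0 ≤ e * s ^ 2 := by positivity
  have a3 : e * s ^ 2 * s ≤ e * s ^ 2 * (1 / 40) := mul_le_mul_of_nonneg_left hs1 a2
  nlinarith

/-- upper bound for `10^15 * b j` when `M ≤ c / 10^6` -/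
def u (c j : ℕ) : ℕ :=
  j.factorial * c ^ (j * 1000000 / (c - 1000000) + 1) * 1000000000000000
    / (1000000 ^ (j * 1000000 / (c - 1000000) + 1)
      * (j * 1000000 / (c - 1000000) + 1).ascFactorial j) + 1

def su (c : ℕ) : ℕ → ℕ
  | 0 => 0
  | k + 1 => su c k + u c (k + 1)

def ok (a c k : ℕ) : Bool :=
  su c k * 1000 * 1000000 * 1000000 + u c k * (2718 * a * (a - 1000000))
    ≤ 1000000000000000 * (2718 * a * (a - 1000000))

def nx (a : ℕ) : ℕ := a + min ((a - 1000000) ^ 2 / 12000000) ((a - 1000000) / 50)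

def run : ℕ → ℕ → Bool
  | 0, a => 4000000 ≤ a
  | f + 1, a => 4000000 ≤ a || (ok a (nx a) (6 + 10 * (a - 1000000) / 1000000) && run f (nx a))

theorem run_ok : run 600 1025000 = true := by decide +kernel

theorem Hyp.le_u {c : ℕ} (h : Hyp b (c / 1000000)) (j : ℕ) :
    b j * 1000000000000000 ≤ u c j := by
  unfold u
  set n := j * 1000000 / (c - 1000000) + 1
  have hn : 0 < n := Nat.succ_pos _
  have h1 := h.bd n j hn
  have ha : 0 < 1000000 ^ n * n.ascFactorial j :=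
    Nat.mul_pos (by positivity) (Nat.ascFactorial_pos _ _)
  have h2 := Nat.lt_div_mul_add (a := j.factorial * c ^ n * 1000000000000000) ha
  have h3 : ((j.factorial * c ^ n * 1000000000000000 : ℕ) : ℝ) ≤
      ((j.factorial * c ^ n * 1000000000000000 / (1000000 ^ n * n.ascFactorial j) + 1 : ℕ) : ℝ)
        * ((1000000 ^ n * n.ascFactorial j : ℕ) : ℝ) := by
    rw [← Nat.cast_mul]
    exact_mod_cast (by rw [add_mul, one_mul]; exact h2.le)
  have ha' : (0 : ℝ) < ((1000000 ^ n * n.ascFactorial j : ℕ) : ℝ) := by exact_mod_cast ha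
  refine le_of_mul_le_mul_right (le_trans ?_ h3) ha'
  push_cast
  rw [div_pow, ← mul_div_assoc, le_div_iff₀ (by positivity)] at h1
  nlinarith

theorem Hyp.le_su {c : ℕ} (h : Hyp b (c / 1000000)) (k : ℕ) :
    (∑ j ∈ range k, b (j + 1)) * 1000000000000000 ≤ su c k := by
  induction k with
  | zero => simp [su]
  | succ k ih =>
    rw [sum_range_succ, su]
    have := h.le_u (k + 1)
    push_cast
    linarith

theorem Hyp.of_ok {a c k : ℕ} (h : Hyp b (c / 1000000)) (ha : 1000000 ≤ a) (hk : 0 < k)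
    (hok : ok a c k = true) (N : ℕ) :
    ∑ j ∈ range N, b (j + 1) ≤ 2718 / 1000 * ((a : ℝ) / 1000000 * ((a : ℝ) / 1000000 - 1)) := by
  have ha' : (1000000 : ℝ) ≤ a := by exact_mod_cast ha
  have h0 : (0 : ℝ) ≤ a * (a - 1000000) := mul_nonneg (by linarith) (by linarith)
  have e0 : (2718 / 1000 : ℝ) * ((a : ℝ) / 1000000 * ((a : ℝ) / 1000000 - 1))
      = 2718 / 1000000000000000 * (a * (a - 1000000)) := by ring
  rw [e0]
  refine h.fold hk (by positivity) ?_ N
  simp only [ok, decide_eq_true_eq] at hok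
  have h1 : (su c k : ℝ) * 1000 * 1000000 * 1000000 + u c k * (2718 * a * (a - 1000000))
      ≤ 1000000000000000 * (2718 * a * (a - 1000000)) := by
    have := (Nat.cast_le (α := ℝ)).2 hok
    push_cast [Nat.cast_sub ha] at this
    exact this
  have h2 := h.le_su k
  have h3 := mul_le_mul_of_nonneg_right (h.le_u k) h0
  have e1 : (u c k : ℝ) * (2718 * a * (a - 1000000)) = 2718 * (u c k * (a * (a - 1000000))) := by
    ring
  have e2 : (1000000000000000 : ℝ) * (2718 * a * (a - 1000000))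
      = 2718000000000000000 * (a * (a - 1000000)) := by ring
  have e3 : b k * 1000000000000000 * (a * (a - 1000000))
      = 1000000000000000 * (b k * (a * (a - 1000000))) := by ring
  have e4 : b k * (2718 / 1000000000000000 * (a * (a - 1000000)))
      = 2718 / 1000000000000000 * (b k * (a * (a - 1000000))) := by ring
  rw [e1, e2] at h1
  rw [e3] at h3
  rw [e4]
  generalize (a : ℝ) * (a - 1000000) = w at *
  generalize b k * w = v at *
  generalize (u c k : ℝ) * w = t at *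
  linarith

theorem Hyp.of_run (h : Hyp b M) (N : ℕ) : ∀ f a : ℕ, 1000000 ≤ a → run f a = true →
    (a : ℝ) / 1000000 ≤ M → ∑ j ∈ range N, b (j + 1) ≤ 2718 / 1000 * (M * (M - 1)) := by
  have big : ∀ a : ℕ, 4000000 ≤ a → (a : ℝ) / 1000000 ≤ M → 4 ≤ M := by
    intro a ha h1
    have : (4000000 : ℝ) ≤ a := by exact_mod_cast ha
    linarith
  intro f
  induction f with
  | zero =>
    intro a _ hr h1
    exact h.large (big a (by simpa [run] using hr) h1) N
  | succ f ih =>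
    intro a ha hr h1
    simp only [run, Bool.or_eq_true, decide_eq_true_eq, Bool.and_eq_true] at hr
    rcases hr with hr | ⟨hr1, hr2⟩
    · exact h.large (big a hr h1) N
    rcases le_total ((nx a : ℝ) / 1000000) M with h2 | h2
    · exact ih (nx a) (ha.trans (Nat.le_add_right _ _)) hr2 h2
    · refine ((h.mono h2).of_ok ha (by omega) hr1 N).trans ?_
      have ha' : (1000000 : ℝ) ≤ a := by exact_mod_cast ha
      have : (a : ℝ) / 1000000 * ((a : ℝ) / 1000000 - 1) ≤ M * (M - 1) :=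
        mul_le_mul h1 (by linarith) (by linarith) (by linarith)
      linarith

theorem Hyp.main (h : Hyp b M) (N : ℕ) :
    ∑ j ∈ range N, b (j + 1) ≤ Real.exp 1 * (M * (M - 1)) := by
  rcases le_total M (1 + 1 / 40) with h1 | h1
  · exact h.small h1 N
  · refine (h.of_run N 600 1025000 (by norm_num) run_ok (by push_cast; linarith)).trans ?_
    exact mul_le_mul_of_nonneg_right e_lo (mul_nonneg (by linarith) (by linarith))

end Pool.Agent.H54.ResSum
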