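import Pool.Agent.H54.ResPow
import Pool.Agent.H54.ResSum

namespace Pool.Agent.H54.ResEx

open Finset BoundedContinuousFunction

universe u

/-- `C` is admissible: every bounded operator `T` on a nonzero complex Banach space with spectrum
in the open unit disc and `‖(z - T)⁻¹‖ ≤ M` for `|z| ≥ 1` has all partial sums of
`∑_{j ≥ 1} ‖T ^ j‖` at most `C M (M - 1)`. -/
def Admissible (C : ℝ) : Prop :=
  ∀ (X : Type u) [NormedAddCommGroup X] [NormedSpace ℂ X] [CompleteSpace X] [Nontrivial X]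
    (T : X →L[ℂ] X) (M : ℝ), spectrum ℂ T ⊆ Metric.ball 0 1 →
    (∀ z : ℂ, 1 ≤ ‖z‖ → ‖resolvent T z‖ ≤ M) →
    ∀ N : ℕ, ∑ j ∈ range N, ‖T ^ (j + 1)‖ ≤ C * (M * (M - 1))

theorem upper : Admissible.{u} (Real.exp 1) := by
  intro X _ _ _ _ T M hs hM N
  have hb := ResPow.pow_bound T hs hM
  have h : ResSum.Hyp (fun j => ‖T ^ j‖) M :=
    ⟨fun _ => norm_nonneg _, fun i j => by rw [pow_add]; exact norm_mul_le _ _, hb, by
      simpa using hb 1 0 one_pos⟩
  exact h.main N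

theorem re_le (r : ℝ) : r * Real.exp (-r) ≤ Real.exp (-1) := by
  have h1 := Real.add_one_le_exp (r - 1)
  have h2 : Real.exp (r - 1) * Real.exp (-r) = Real.exp (-1) := by
    rw [← Real.exp_add]; congr 1; ring
  have := Real.exp_pos (-r)
  nlinarith

noncomputable def f1 : ℂ →ᵇ ℂ :=
  ofNormedAddCommGroup (fun w => w * (Real.exp (-‖w‖) : ℝ)) (by fun_prop) (Real.exp (-1))
    fun w => by
      rw [norm_mul, Complex.norm_real, Real.norm_eq_abs, abs_of_pos (Real.exp_pos _)]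
      exact re_le _

noncomputable def f2 : ℂ →ᵇ ℂ :=
  ofNormedAddCommGroup (fun w => ((Real.exp (-‖w‖) : ℝ) : ℂ)) (by fun_prop) 1
    fun w => by
      rw [Complex.norm_real, Real.norm_eq_abs, abs_of_pos (Real.exp_pos _)]
      exact Real.exp_le_one_iff.2 (by simp)

def Y : Type u := ULift.{u} (ℂ × ℂ)

instance : AddCommGroup Y.{u} := inferInstanceAs (AddCommGroup (ULift.{u} (ℂ × ℂ)))
noncomputable instance : Module ℂ Y.{u} := inferInstanceAs (Module ℂ (ULift.{u} (ℂ × ℂ)))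
instance : FiniteDimensional ℂ Y.{u} := inferInstanceAs (FiniteDimensional ℂ (ULift.{u} (ℂ × ℂ)))
instance : Nontrivial Y.{u} := inferInstanceAs (Nontrivial (ULift.{u} (ℂ × ℂ)))

noncomputable def phi : Y.{u} →ₗ[ℂ] (ℂ →ᵇ ℂ) where
  toFun x := x.down.1 • f1 + x.down.2 • f2
  map_add' x y := by
    show (x.down.1 + y.down.1) • f1 + (x.down.2 + y.down.2) • f2 = _
    rw [add_smul, add_smul]; abel
  map_smul' c x := by
    show (c * x.down.1) • f1 + (c * x.down.2) • f2 = c • (x.down.1 • f1 + x.down.2 • f2)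
    rw [smul_add, smul_smul, smul_smul]

theorem phi_apply (x : Y.{u}) (w : ℂ) :
    phi x w = (x.down.2 + w * x.down.1) * (Real.exp (-‖w‖) : ℝ) := by
  show x.down.1 * (w * (Real.exp (-‖w‖) : ℝ)) + x.down.2 * ((Real.exp (-‖w‖) : ℝ) : ℂ) = _
  ring

theorem phi_inj : Function.Injective phi.{u} := by
  rw [injective_iff_map_eq_zero]
  intro x hx
  have h : ∀ w : ℂ, x.down.2 + w * x.down.1 = 0 := by
    intro w
    have := phi_apply x w
    rw [hx] at this
    have h2 : ((Real.exp (-‖w‖) : ℝ) : ℂ) ≠ 0 := by exact_mod_cast (Real.exp_pos _).ne'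
    exact (mul_eq_zero.1 this.symm).resolve_right h2
  have h0 := h 0
  have h1 := h 1
  simp only [zero_mul, add_zero] at h0
  rw [h0, zero_add, one_mul] at h1
  exact ULift.ext _ _ (Prod.ext h1 h0)

noncomputable instance : NormedAddCommGroup Y.{u} := NormedAddCommGroup.induced _ _ phi phi_inj
noncomputable instance : NormedSpace ℂ Y.{u} := NormedSpace.induced ℂ _ _ phi
instance : CompleteSpace Y.{u} := FiniteDimensional.complete ℂ _

theorem norm_def (x : Y.{u}) : ‖x‖ = ‖phi x‖ := rfl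

noncomputable def Tl : Y.{u} →ₗ[ℂ] Y.{u} where
  toFun x := ULift.up (0, x.down.1)
  map_add' x y := ULift.ext _ _ (Prod.ext (add_zero (0 : ℂ)).symm rfl)
  map_smul' c x := ULift.ext _ _ (Prod.ext (mul_zero c).symm rfl)

noncomputable def T : Y.{u} →L[ℂ] Y.{u} := LinearMap.toContinuousLinearMap Tl

theorem T_sq : T.{u} * T = 0 := by
  ext x
  rfl

theorem one_add (v : ℂ) : ‖1 + v • T.{u}‖ ≤ Real.exp ‖v‖ := by
  refine ContinuousLinearMap.opNorm_le_bound _ (Real.exp_pos _).le fun x => ?_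
  rw [norm_def, norm_def, norm_le (by positivity)]
  intro w
  have h1 := norm_coe_le_norm (phi x) (w + v)
  rw [phi_apply] at h1 ⊢
  have e1 : ((1 + v • T.{u}) x).down.1 = x.down.1 := by
    show x.down.1 + v * 0 = _
    ring
  have e2 : ((1 + v • T.{u}) x).down.2 = x.down.2 + v * x.down.1 := rfl
  rw [e1, e2]
  have e3 : x.down.2 + v * x.down.1 + w * x.down.1 = x.down.2 + (w + v) * x.down.1 := by ring
  rw [e3]
  rw [norm_mul, Complex.norm_real, Real.norm_eq_abs, abs_of_pos (Real.exp_pos _)] at h1 ⊢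
  have h2 : Real.exp (-‖w‖) ≤ Real.exp ‖v‖ * Real.exp (-‖w + v‖) := by
    rw [← Real.exp_add]
    exact Real.exp_le_exp.2 (by have := norm_add_le w v; linarith)
  calc _ ≤ ‖x.down.2 + (w + v) * x.down.1‖ * (Real.exp ‖v‖ * Real.exp (-‖w + v‖)) := by gcongr
    _ = Real.exp ‖v‖ * (‖x.down.2 + (w + v) * x.down.1‖ * Real.exp (-‖w + v‖)) := by ring
    _ ≤ _ := by gcongr

theorem T_norm : Real.exp 1 ≤ ‖T.{u}‖ := by
  let x : Y.{u} := ULift.up (1, 0)
  have h1 : ‖x‖ ≤ Real.exp (-1) := by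
    rw [norm_def, norm_le (Real.exp_pos _).le]
    intro w
    rw [phi_apply]
    show ‖((0 : ℂ) + w * 1) * _‖ ≤ _
    rw [zero_add, mul_one, norm_mul, Complex.norm_real, Real.norm_eq_abs,
      abs_of_pos (Real.exp_pos _)]
    exact re_le _
  have h2 : 1 ≤ ‖T x‖ := by
    have := norm_coe_le_norm (phi (T x)) 0
    rw [phi_apply] at this
    have e : (T x).down.2 = 1 := rfl
    rw [e] at this
    rw [norm_def]
    simpa using this
  have h3 := T.le_opNorm x
  have h4 : Real.exp 1 * Real.exp (-1) = 1 := by rw [← Real.exp_add]; simp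
  have h5 := mul_le_mul_of_nonneg_left h1 (norm_nonneg T.{u})
  have := Real.exp_pos 1
  nlinarith

theorem inv_mul (c z : ℂ) (hz : z ≠ 0) :
    (algebraMap ℂ _ z - c • T.{u}) * (z⁻¹ • (1 + (c * z⁻¹) • T.{u})) = 1 ∧
    (z⁻¹ • (1 + (c * z⁻¹) • T.{u})) * (algebraMap ℂ _ z - c • T.{u}) = 1 := by
  rw [Algebra.algebraMap_eq_smul_one]
  constructor
  · simp only [mul_smul_comm, smul_mul_assoc, sub_mul, mul_add, one_mul, mul_one, T_sq, smul_zero,
      smul_sub, smul_add, smul_smul, sub_zero]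
    rw [inv_mul_cancel₀ hz, one_smul]
    have : z⁻¹ * (c * z⁻¹) * z = z⁻¹ * c := by field_simp
    rw [this]; abel
  · simp only [mul_smul_comm, smul_mul_assoc, mul_sub, add_mul, one_mul, mul_one, T_sq, smul_zero,
      smul_sub, smul_add, smul_smul, add_zero]
    rw [mul_inv_cancel₀ hz, one_smul]
    have : z * (z⁻¹ * (c * z⁻¹)) = c * z⁻¹ := by field_simp
    rw [this]; abel

theorem lower {C : ℝ} (hC : 0 < C) (h : Admissible.{u} C) : Real.exp 1 ≤ C := by
  have key : ∀ ε : ℝ, 0 < ε → ε ≤ 1 → Real.exp 1 ≤ C * (1 + 5 * ε) := by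
    intro ε h0 h1
    have hu : ∀ z : ℂ, z ≠ 0 → IsUnit (algebraMap ℂ _ z - (ε : ℂ) • T.{u}) := fun z hz =>
      ⟨⟨_, _, (inv_mul ε z hz).1, (inv_mul ε z hz).2⟩, rfl⟩
    have hs : spectrum ℂ ((ε : ℂ) • T.{u}) ⊆ Metric.ball 0 1 := by
      intro z hz
      by_cases hz0 : z = 0
      · simp [hz0]
      · exact absurd (hu z hz0) hz
    have hr : ∀ z : ℂ, 1 ≤ ‖z‖ → ‖resolvent ((ε : ℂ) • T.{u}) z‖ ≤ Real.exp ε := by
      intro z hz
      have hz0 : z ≠ 0 := by rintro rfl; norm_num at hz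
      have e : resolvent ((ε : ℂ) • T.{u}) z = z⁻¹ • (1 + ((ε : ℂ) * z⁻¹) • T.{u}) := by
        unfold resolvent
        calc _ = Ring.inverse (algebraMap ℂ _ z - (ε : ℂ) • T.{u}) *
            ((algebraMap ℂ _ z - (ε : ℂ) • T.{u}) * (z⁻¹ • (1 + ((ε : ℂ) * z⁻¹) • T.{u}))) := by
              rw [(inv_mul ε z hz0).1, mul_one]
          _ = _ := by rw [← mul_assoc, Ring.inverse_mul_cancel _ (hu z hz0), one_mul]
      have hi : ‖z⁻¹‖ ≤ 1 := by rw [norm_inv]; exact inv_le_one_of_one_le₀ hz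
      rw [e, norm_smul]
      have h2 := one_add.{u} ((ε : ℂ) * z⁻¹)
      have h3 : ‖(ε : ℂ) * z⁻¹‖ ≤ ε := by
        rw [norm_mul, Complex.norm_real, Real.norm_eq_abs, abs_of_pos h0]
        exact mul_le_of_le_one_right h0.le hi
      calc _ ≤ 1 * Real.exp ε :=
            mul_le_mul hi (h2.trans (Real.exp_le_exp.2 h3)) (norm_nonneg _) zero_le_one
        _ = _ := one_mul _
    have h2 := h Y.{u} ((ε : ℂ) • T.{u}) (Real.exp ε) hs hr 1
    rw [sum_range_one, zero_add, pow_one, norm_smul, Complex.norm_real, Real.norm_eq_abs,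
      abs_of_pos h0] at h2
    have h3 : Real.exp ε ≤ 1 + ε + ε ^ 2 := by
      have := Real.abs_exp_sub_one_sub_id_le (x := ε) (by rw [abs_of_pos h0]; exact h1)
      have := (abs_le.1 this).2
      linarith
    have h4 : Real.exp ε * (Real.exp ε - 1) ≤ ε * (1 + 5 * ε) := by
      have a1 : 1 ≤ Real.exp ε := Real.one_le_exp h0.le
      calc _ ≤ (1 + ε + ε ^ 2) * (ε + ε ^ 2) :=
            mul_le_mul h3 (by linarith) (by linarith) (by positivity)
        _ ≤ _ := by
          have a2 : ε ^ 3 ≤ ε ^ 2 := pow_le_pow_of_le_one h0.le h1 (by norm_num)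
          have a3 : ε ^ 4 ≤ ε ^ 2 := pow_le_pow_of_le_one h0.le h1 (by norm_num)
          nlinarith
    have h5 := mul_le_mul_of_nonneg_left T_norm.{u} h0.le
    have h6 := mul_le_mul_of_nonneg_left h4 hC.le
    refine le_of_mul_le_mul_left ?_ h0
    nlinarith
  refine le_of_forall_pos_le_add fun δ hδ => ?_
  have h1 := key (min 1 (δ / (5 * C))) (lt_min one_pos (by positivity)) (min_le_left _ _)
  have h2 : min 1 (δ / (5 * C)) * (5 * C) ≤ δ :=
    (le_div_iff₀ (by positivity)).1 (min_le_right _ _)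
  nlinarith

end Pool.Agent.H54.ResEx
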