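import Mathlib

namespace Pool.Agent.H54.ResPow

open Finset

section Alg
variable {A : Type*} [NormedRing A] [NormedAlgebra ℂ A] [CompleteSpace A]

/-- `(1 - w T)⁻¹` -/
noncomputable def g (T : A) (w : ℂ) : A := Ring.inverse (1 - w • T)

theorem g_comm (T : A) (w : ℂ) : Commute T (g T w) := by
  unfold g
  have : Commute T (1 - w • T) := (Commute.one_right T).sub_right ((Commute.refl T).smul_right w)
  by_cases hu : IsUnit (1 - w • T)
  · rw [← hu.unit_spec, Ring.inverse_unit]
    exact Commute.units_inv_right (by rwa [hu.unit_spec])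
  · rw [Ring.inverse_non_unit _ hu]; exact Commute.zero_right T

theorem g_deriv (T : A) {w : ℂ} (hw : IsUnit (1 - w • T)) :
    HasDerivAt (g T) (T * g T w ^ 2) w := by
  have H₁ : HasFDerivAt Ring.inverse _ (1 - w • T) :=
    hasFDerivAt_ringInverse (𝕜 := ℂ) hw.unit
  have H₂ : HasDerivAt (fun k : ℂ => 1 - k • T) (-T) w := by
    simpa using ((hasDerivAt_id w).smul_const T).const_sub 1
  have H := H₁.comp_hasDerivAt w H₂
  have e : ((hw.unit⁻¹ : Aˣ) : A) = g T w := by
    unfold g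
    rw [← Ring.inverse_unit hw.unit, hw.unit_spec]
  have e2 : T * g T w ^ 2 = g T w * T * g T w := by
    rw [sq, ← mul_assoc, (g_comm T w).eq]
  rw [e2]
  have H' : HasDerivAt (fun x : ℂ => Ring.inverse (1 - x • T)) (g T w * T * g T w) w := by
    simpa [e, Function.comp_def] using H
  exact H'

theorem g_pow_deriv (T : A) {w : ℂ} (hw : IsUnit (1 - w • T)) (n : ℕ) :
    HasDerivAt (fun z => g T z ^ n) ((n : ℂ) • (T * g T w ^ (n + 1))) w := by
  induction n with
  | zero => simpa using hasDerivAt_const w (1 : A)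
  | succ n ih =>
    have h := ih.mul (g_deriv T hw)
    have e : ((n : ℂ) • (T * g T w ^ (n + 1))) * g T w + g T w ^ n * (T * g T w ^ 2)
        = ((n + 1 : ℕ) : ℂ) • (T * g T w ^ (n + 1 + 1)) := by
      have c : g T w ^ n * T = T * g T w ^ n := ((g_comm T w).pow_right n).eq.symm
      rw [smul_mul_assoc, mul_assoc, ← pow_succ, ← mul_assoc (g T w ^ n), c, mul_assoc, ← pow_add]
      push_cast
      rw [add_smul, one_smul]
    rw [e] at h
    simpa [pow_succ, Pi.mul_def] using h

theorem isOpen_U (T : A) : IsOpen {w : ℂ | IsUnit (1 - w • T)} :=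
  Units.isOpen.preimage (f := fun w : ℂ => 1 - w • T) (by fun_prop)

theorem iter (T : A) (n j : ℕ) : ∀ w : ℂ, IsUnit (1 - w • T) →
    iteratedDeriv j (fun z => g T z ^ n) w
      = (n.ascFactorial j : ℂ) • (T ^ j * g T w ^ (n + j)) := by
  induction j with
  | zero => intro w _; simp
  | succ j ih =>
    intro w hw
    rw [iteratedDeriv_succ]
    have hev : iteratedDeriv j (fun z => g T z ^ n) =ᶠ[nhds w]
        fun z => (n.ascFactorial j : ℂ) • (T ^ j * g T z ^ (n + j)) := by
      filter_upwards [(isOpen_U T).mem_nhds hw] with z hz using ih z hz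
    rw [hev.deriv_eq]
    have h := ((g_pow_deriv T hw (n + j)).const_mul (T ^ j)).const_smul (n.ascFactorial j : ℂ)
    have h' := h.deriv
    simp only [Pi.smul_def] at h'
    rw [h', Nat.ascFactorial_succ, mul_smul_comm, smul_smul, ← mul_assoc, ← pow_succ]
    push_cast
    rw [mul_comm ((n : ℂ) + j)]
    rfl

theorem unit_of (T : A) (hs : spectrum ℂ T ⊆ Metric.ball 0 1) {w : ℂ} (hw : ‖w‖ ≤ 1) :
    IsUnit (1 - w • T) := by
  by_cases h0 : w = 0
  · simp [h0]
  have hn : w⁻¹ ∉ spectrum ℂ T := by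
    intro h
    have := hs h
    rw [mem_ball_zero_iff, norm_inv] at this
    have h1 : 0 < ‖w‖ := norm_pos_iff.2 h0
    have : 1 ≤ ‖w‖⁻¹ := (one_le_inv₀ h1).2 hw
    linarith
  have hu : IsUnit (algebraMap ℂ A w⁻¹ - T) := by simpa [spectrum.mem_iff] using hn
  have e : 1 - w • T = (Units.mk0 w h0) • (algebraMap ℂ A w⁻¹ - T) := by
    rw [Units.smul_def, Units.val_mk0, smul_sub, Algebra.algebraMap_eq_smul_one, smul_smul,
      mul_inv_cancel₀ h0, one_smul]
  rw [e]
  exact hu.smul _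

theorem g_eq (T : A) (hs : spectrum ℂ T ⊆ Metric.ball 0 1) {w : ℂ} (hw : ‖w‖ = 1) :
    g T w = w⁻¹ • resolvent T w⁻¹ := by
  have h0 : w ≠ 0 := by rintro rfl; simp at hw
  have hu := unit_of T hs hw.le
  have hn : w⁻¹ ∈ resolventSet ℂ T := by
    by_contra h
    have := hs h
    rw [mem_ball_zero_iff, norm_inv, hw] at this
    simp at this
  have hu2 : IsUnit (algebraMap ℂ A w⁻¹ - T) := hn
  have e : 1 - w • T = w • (algebraMap ℂ A w⁻¹ - T) := by
    rw [smul_sub, Algebra.algebraMap_eq_smul_one, smul_smul, mul_inv_cancel₀ h0, one_smul]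
  have k : (1 - w • T) * (w⁻¹ • resolvent T w⁻¹) = 1 := by
    rw [e, smul_mul_smul_comm, mul_inv_cancel₀ h0, one_smul]
    exact Ring.mul_inverse_cancel _ hu2
  calc g T w = g T w * ((1 - w • T) * (w⁻¹ • resolvent T w⁻¹)) := by rw [k, mul_one]
    _ = _ := by rw [← mul_assoc, g, Ring.inverse_mul_cancel _ hu, one_mul]

theorem pow_bound (T : A) (hs : spectrum ℂ T ⊆ Metric.ball 0 1) {M : ℝ}
    (hM : ∀ z : ℂ, 1 ≤ ‖z‖ → ‖resolvent T z‖ ≤ M) (n j : ℕ) (hn : 0 < n) :
    ‖T ^ j‖ * (n.ascFactorial j : ℝ) ≤ (j.factorial : ℝ) * M ^ n := by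
  have hd : DiffContOnCl ℂ (fun z => g T z ^ n) (Metric.ball 0 1) := by
    apply DifferentiableOn.diffContOnCl
    rw [closure_ball _ one_ne_zero]
    intro w hw
    exact (g_pow_deriv T (unit_of T hs (by simpa using hw)) n).differentiableAt.differentiableWithinAt
  have hb : ∀ z ∈ Metric.sphere (0 : ℂ) 1, ‖g T z ^ n‖ ≤ M ^ n := by
    intro z hz
    have hz' : ‖z‖ = 1 := by simpa using hz
    have h1 : ‖g T z‖ ≤ M := by
      rw [g_eq T hs hz', norm_smul, norm_inv, hz', inv_one, one_mul]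
      exact hM _ (by rw [norm_inv, hz', inv_one])
    exact (norm_pow_le' _ hn).trans (pow_le_pow_left₀ (norm_nonneg _) h1 n)
  have h := Complex.norm_iteratedDeriv_le_of_forall_mem_sphere_norm_le j one_pos hd hb
  rw [iter T n j 0 (by simp)] at h
  simpa [g, norm_smul, mul_comm] using h

end Alg

end Pool.Agent.H54.ResPow
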