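import Pool.Agent.H54.SupNorm

namespace Pool.Agent.H54.Ritt

open Finset SupNorm Complex

/-- There is an operator `T` on a finite-dimensional complex Banach space with spectrum in the
closed unit disc, Ritt constant at most `C`, and some power of norm at least `L`. -/
def Witness (C L : ℝ) : Prop :=
  ∃ (X : Type) (_ : NormedAddCommGroup X) (_ : NormedSpace ℂ X) (_ : CompleteSpace X)
    (_ : FiniteDimensional ℂ X) (T : X →L[ℂ] X), spectrum ℂ T ⊆ Metric.closedBall 0 1 ∧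
    (∀ z : ℂ, 1 < ‖z‖ → ‖(z - 1) • resolvent T z‖ ≤ C) ∧ ∃ n : ℕ, L ≤ ‖T ^ n‖

theorem sum_bd {ι : Type} [Fintype ι] (c v : ι → ℂ) {t : ℝ} (h : ∀ i, ‖v i‖ ≤ t) :
    ‖∑ i, c i * v i‖ ≤ (∑ i, ‖c i‖) * t := by
  rw [sum_mul]
  refine (norm_sum_le _ _).trans (sum_le_sum fun i _ => ?_)
  rw [norm_mul]
  exact mul_le_mul_of_nonneg_left (h i) (norm_nonneg _)

noncomputable def fn {ι : Type} [Fintype ι] (c : ι → ℂ) : (ι → ℂ) →ₗ[ℂ] ℂ where
  toFun x := ∑ i, c i * x i
  map_add' x y := by simp [mul_add, sum_add_distrib]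
  map_smul' a x := by simp [mul_sum, mul_left_comm]

theorem diag {ι : Type} [Fintype ι] (lam c : ι → ℂ) {C A : ℝ} (hC : 1 ≤ C) (hA0 : 0 ≤ A)
    (h1 : ∀ i, ‖lam i‖ ≤ 1) (h2 : ∀ z : ℂ, 1 < ‖z‖ → ∀ i, ‖(z - 1) / (z - lam i)‖ ≤ A)
    (hA : A ≤ C) (h3 : ‖∑ i, c i‖ ≤ 1)
    (h4 : ∀ z : ℂ, 1 < ‖z‖ → ‖∑ i, c i * ((z - 1) / (z - lam i))‖ ≤ C)
    (h5 : (∑ i, ‖c i‖) * A ^ 2 ≤ C ^ 2) (n : ℕ) : Witness C ‖∑ i, c i * lam i ^ n‖ := by
  have hC0 : 0 < C := by linarith
  have hS : 0 ≤ ∑ i, ‖c i‖ := sum_nonneg fun _ _ => norm_nonneg _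
  let a : ℂ → ι → ℂ := fun z i => (z - 1) / (z - lam i)
  let ψ : ι ⊕ Option {z : ℂ // 1 < ‖z‖} → (ι → ℂ) →ₗ[ℂ] ℂ := fun k =>
    match k with
    | .inl i => LinearMap.proj i
    | .inr none => fn c
    | .inr (some z) => fn fun i => (C : ℂ)⁻¹ * (c i * a z.1 i)
  have hψ : ∀ (z : {z : ℂ // 1 < ‖z‖}) (x : ι → ℂ),
      ‖ψ (.inr (some z)) x‖ = C⁻¹ * ‖∑ i, c i * (a z.1 i * x i)‖ := by
    intro z x
    have : ψ (.inr (some z)) x = (C : ℂ)⁻¹ * ∑ i, c i * (a z.1 i * x i) := by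
      show ∑ i, (C : ℂ)⁻¹ * (c i * a z.1 i) * x i = _
      rw [mul_sum]; exact sum_congr rfl fun i _ => by ring
    rw [this, norm_mul, norm_inv, Complex.norm_real, Real.norm_eq_abs, abs_of_pos hC0]
  let F : Fam (ι → ℂ) :=
    { I := ι ⊕ Option {z : ℂ // 1 < ‖z‖}
      ψ := ψ
      bdd := fun x => ⟨‖x‖ + (∑ i, ‖c i‖) * ‖x‖ + C⁻¹ * ((∑ i, ‖c i‖) * (A * ‖x‖)), by
        have p1 : 0 ≤ (∑ i, ‖c i‖) * ‖x‖ := by positivity
        have p2 : 0 ≤ C⁻¹ * ((∑ i, ‖c i‖) * (A * ‖x‖)) := by positivity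
        rintro (i | _ | z)
        · have : ‖x i‖ ≤ ‖x‖ := norm_le_pi_norm x i
          show ‖x i‖ ≤ _
          linarith
        · have := sum_bd c x (norm_le_pi_norm x)
          show ‖∑ i, c i * x i‖ ≤ _
          linarith [norm_nonneg x]
        · rw [hψ]
          have := sum_bd c (fun i => a z.1 i * x i) (t := A * ‖x‖) fun i => by
            rw [norm_mul]
            exact mul_le_mul (h2 z.1 z.2 i) (norm_le_pi_norm x i) (norm_nonneg _) hA0
          have := mul_le_mul_of_nonneg_left this (inv_nonneg.2 hC0.le)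
          linarith [norm_nonneg x]⟩
      sep := fun x hx => funext fun i => hx (.inl i) }
  let Θ : (ι → ℂ) →ₐ[ℂ] (F.Sp →L[ℂ] F.Sp) := F.op.comp (Algebra.lmul ℂ (ι → ℂ))
  have hΘ : ∀ (v : ι → ℂ) (x : F.Sp), Θ v x = (show F.Sp from v * (show ι → ℂ from x)) :=
    fun _ _ => rfl
  have hres : ∀ z : ℂ, 1 < ‖z‖ → z ∉ spectrum ℂ (Θ lam) ∧
      resolvent (Θ lam) z = Θ fun i => (z - lam i)⁻¹ := by
    intro z hz
    have hne : ∀ i, z - lam i ≠ 0 := fun i h => by
      have := h1 i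
      rw [← sub_eq_zero.1 h] at this
      linarith
    have e1 : (algebraMap ℂ (ι → ℂ) z - lam) * (fun i => (z - lam i)⁻¹) = 1 := by
      funext i
      exact mul_inv_cancel₀ (hne i)
    apply resolvent_eq
    · rw [← Θ.commutes, ← map_sub, ← map_mul, e1, map_one]
    · rw [← Θ.commutes, ← map_sub, ← map_mul, mul_comm, e1, map_one]
  refine ⟨F.Sp, inferInstance, inferInstance, inferInstance, inferInstance, Θ lam, ?_, ?_, n, ?_⟩
  · intro z hz
    by_contra h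
    rw [mem_closedBall_zero_iff, not_le] at h
    exact (hres z h).1 hz
  · intro z hz
    rw [(hres z hz).2, ← map_smul]
    have e : ((z - 1) • fun i => (z - lam i)⁻¹) = a z := by
      funext i; simp [a, div_eq_mul_inv]
    rw [e]
    refine ContinuousLinearMap.opNorm_le_bound _ hC0.le fun x => ?_
    have hx : ∀ i, ‖(show ι → ℂ from x) i‖ ≤ ‖x‖ := fun i => F.le_norm x (.inl i)
    have hax : ∀ i, ‖a z i * (show ι → ℂ from x) i‖ ≤ A * ‖x‖ := fun i => by
      rw [norm_mul]; exact mul_le_mul (h2 z hz i) (hx i) (norm_nonneg _) hA0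
    refine F.norm_le _ (by positivity) ?_
    rintro (i | _ | y)
    · exact (hax i).trans (mul_le_mul_of_nonneg_right hA (norm_nonneg _))
    · have := F.le_norm x (.inr (some ⟨z, hz⟩))
      have h6 := hψ ⟨z, hz⟩ x
      have h7 : C⁻¹ * ‖∑ i, c i * (a z i * (show ι → ℂ from x) i)‖ ≤ ‖x‖ := h6 ▸ this
      rw [inv_mul_le_iff₀ hC0] at h7
      exact h7
    · have h6 := hψ y (a z * (show ι → ℂ from x))
      refine le_trans (le_of_eq h6) ?_
      rw [inv_mul_le_iff₀ hC0]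
      have := sum_bd c (fun i => a y.1 i * (a z i * (show ι → ℂ from x) i))
        (t := A * (A * ‖x‖)) fun i => by
          rw [norm_mul]; exact mul_le_mul (h2 y.1 y.2 i) (hax i) (norm_nonneg _) hA0
      refine this.trans ?_
      have := mul_le_mul_of_nonneg_right h5 (norm_nonneg x)
      nlinarith
  · let x0 : F.Sp := (show ι → ℂ from 1)
    have hx0 : ‖x0‖ ≤ 1 := by
      refine F.norm_le _ zero_le_one ?_
      rintro (i | _ | y)
      · show ‖(1 : ℂ)‖ ≤ 1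
        simp
      · show ‖∑ i, c i * 1‖ ≤ 1
        simpa using h3
      · refine le_trans (le_of_eq (hψ y 1)) ?_
        rw [inv_mul_le_iff₀ hC0]
        simpa [a] using h4 y.1 y.2
    have h6 := F.le_norm ((Θ lam ^ n) x0) (.inr none)
    have h7 := (Θ lam ^ n).le_opNorm x0
    have h8 : F.ψ (.inr none) ((Θ lam ^ n) x0) = ∑ i, c i * lam i ^ n := by
      rw [← map_pow]
      show ∑ i, c i * ((lam ^ n) i * 1) = _
      simp
    rw [h8] at h6
    have := mul_le_mul_of_nonneg_left hx0 (norm_nonneg (Θ lam ^ n))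
    linarith

noncomputable def mu (j : ℕ) : ℂ := 1 + Real.pi * (j + 1) * I

theorem mu_re (j : ℕ) : (mu j).re = 1 := by simp [mu]
theorem mu_im (j : ℕ) : (mu j).im = Real.pi * (j + 1) := by simp [mu]

theorem arctan_step (u r : ℝ) (h1 : 1 / 2 ≤ r) (h2 : |u| ≤ r) :
    1 / r ^ 2 ≤ 86 / Real.pi * (Real.arctan (u + Real.pi) - Real.arctan u) := by
  have hp := Real.pi_pos
  obtain ⟨ξ, hξ, he⟩ := exists_hasDerivAt_eq_slope Real.arctan (fun x => 1 / (1 + x ^ 2))
    (show u < u + Real.pi by linarith) Real.continuous_arctan.continuousOn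
    (fun x _ => Real.hasDerivAt_arctan x)
  have e : Real.arctan (u + Real.pi) - Real.arctan u = Real.pi / (1 + ξ ^ 2) := by
    rw [add_sub_cancel_left, eq_div_iff hp.ne'] at he
    rw [← he]; ring
  rw [e]
  have e2 : 86 / Real.pi * (Real.pi / (1 + ξ ^ 2)) = 86 / (1 + ξ ^ 2) := by field_simp
  rw [e2, div_le_div_iff₀ (by positivity) (by positivity)]
  have hp2 := Real.pi_lt_d2
  have a1 : u ^ 2 ≤ r ^ 2 := by rw [← sq_abs u]; gcongr
  have a2 : (ξ - u) ^ 2 ≤ 10 := by nlinarith [hξ.1, hξ.2]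
  have a3 : ξ ^ 2 ≤ 2 * u ^ 2 + 2 * (ξ - u) ^ 2 := by nlinarith [sq_nonneg (ξ - 2 * u)]
  nlinarith

theorem sq_sum (w : ℂ) (m : ℕ) (h : ∀ j < m, 1 / 2 ≤ ‖w + mu j‖) :
    ∑ j ∈ range m, 1 / ‖w + mu j‖ ^ 2 ≤ 86 := by
  have hp := Real.pi_pos
  have h1 : ∑ j ∈ range m, 1 / ‖w + mu j‖ ^ 2 ≤ ∑ j ∈ range m, 86 / Real.pi *
      (Real.arctan (w.im + Real.pi * ((j + 1 : ℕ) + 1)) - Real.arctan (w.im + Real.pi * (j + 1))) := by
    refine sum_le_sum fun j hj => ?_
    have := arctan_step (w.im + Real.pi * (j + 1)) _ (h j (mem_range.1 hj)) (by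
      have := abs_im_le_norm (w + mu j)
      rwa [add_im, mu_im] at this)
    have e : w.im + Real.pi * (((j + 1 : ℕ) : ℝ) + 1) = w.im + Real.pi * (j + 1) + Real.pi := by
      push_cast; ring
    rw [e]; exact this
  rw [← mul_sum, sum_range_sub (fun j : ℕ => Real.arctan (w.im + Real.pi * (j + 1)))] at h1
  refine h1.trans ?_
  have a : ∀ p q : ℝ, 86 / Real.pi * (Real.arctan p - Real.arctan q) ≤ 86 := by
    intro p q
    have a1 := Real.arctan_lt_pi_div_two p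
    have a2 := Real.neg_pi_div_two_lt_arctan q
    calc _ ≤ 86 / Real.pi * Real.pi := by gcongr; linarith
      _ = 86 := by field_simp
  exact a _ _

theorem alt_le (w : ℂ) (J : ℕ) (h : ∀ j < 2 * J, 1 / 2 ≤ ‖w + mu j‖) :
    ‖∑ j ∈ range (2 * J), (-1) ^ j / (w + mu j)‖
      ≤ Real.pi / 2 * ∑ j ∈ range (2 * J), 1 / ‖w + mu j‖ ^ 2 := by
  induction J with
  | zero => simp
  | succ J ih =>
    have ih' := ih fun j hj => h j (by omega)
    rw [show 2 * (J + 1) = 2 * J + 1 + 1 by ring, sum_range_succ, sum_range_succ, sum_range_succ,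
      sum_range_succ, add_assoc]
    have p1 := h (2 * J) (by omega)
    have p2 := h (2 * J + 1) (by omega)
    set p := w + mu (2 * J) with hp
    set q := w + mu (2 * J + 1) with hq
    have hp0 : p ≠ 0 := norm_pos_iff.1 (by linarith)
    have hq0 : q ≠ 0 := norm_pos_iff.1 (by linarith)
    have e : (-1 : ℂ) ^ (2 * J) / p + (-1) ^ (2 * J + 1) / q = Real.pi * I / (p * q) := by
      have : q - p = Real.pi * I := by rw [hp, hq]; simp only [mu]; push_cast; ring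
      rw [← this, pow_succ, pow_mul]
      field_simp
      ring
    rw [e]
    have e2 : ‖(Real.pi : ℂ) * I / (p * q)‖ = Real.pi * ((1 / ‖p‖) * (1 / ‖q‖)) := by
      rw [norm_div, norm_mul, norm_mul, Complex.norm_real, Real.norm_eq_abs,
        abs_of_pos Real.pi_pos, norm_I]
      field_simp
    refine (norm_add_le _ _).trans ?_
    rw [e2]
    have a1 : (1 / ‖p‖) * (1 / ‖q‖) ≤ (1 / ‖p‖ ^ 2 + 1 / ‖q‖ ^ 2) / 2 := by
      rw [← one_div_pow, ← one_div_pow]
      nlinarith [sq_nonneg (1 / ‖p‖ - 1 / ‖q‖)]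
    have := mul_le_mul_of_nonneg_left a1 Real.pi_pos.le
    linarith

theorem alt_le' (w : ℂ) (J : ℕ) (h : ∀ j < 2 * J, 1 / 2 ≤ ‖w + mu j‖) :
    ‖∑ j ∈ range (2 * J), (-1) ^ j / (w + mu j)‖ ≤ 136 := by
  have h1 := alt_le w J h
  have h2 := sq_sum w _ h
  have := Real.pi_lt_d2
  have := Real.pi_pos
  nlinarith

theorem mu_ge (j : ℕ) : 1 ≤ ‖mu j‖ := by
  have := abs_re_le_norm (mu j)
  rwa [mu_re, abs_one] at this

theorem mu_le {j m : ℕ} (h : j < m) : ‖mu j‖ ≤ 1 + 4 * m := by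
  have h1 := norm_le_abs_re_add_abs_im (mu j)
  rw [mu_re, mu_im, abs_one, abs_of_pos (by positivity)] at h1
  have h2 : (j : ℝ) + 1 ≤ m := by exact_mod_cast h
  have := Real.pi_le_four
  have : Real.pi * (j + 1) ≤ 4 * m := mul_le_mul this h2 (by positivity) (by norm_num)
  linarith

theorem lam_le {j m n : ℕ} (h : j < m) (hn : 1 + 16 * m ^ 2 ≤ n) :
    ‖1 - mu j / n‖ ≤ 1 - 1 / (2 * n) := by
  have hn' : 1 + 16 * (m : ℝ) ^ 2 ≤ n := by exact_mod_cast hn
  have hn1 : (1 : ℝ) ≤ n := by nlinarith [sq_nonneg (m : ℝ)]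
  have hn0 : (0 : ℝ) < n := by linarith
  have h2 : (j : ℝ) + 1 ≤ m := by exact_mod_cast h
  have h3 : Real.pi * (j + 1) ≤ 4 * m :=
    mul_le_mul Real.pi_le_four h2 (by positivity) (by norm_num)
  have h4 : (Real.pi * (j + 1)) ^ 2 ≤ (4 * m) ^ 2 := by gcongr
  have h5 : 0 ≤ 1 - 1 / (2 * (n : ℝ)) := by
    rw [sub_nonneg, div_le_one (by positivity)]; linarith
  rw [← sq_le_sq₀ (norm_nonneg _) h5, Complex.sq_norm, normSq_apply]
  have e1 : (1 - mu j / n).re = 1 - 1 / n := by simp [mu_re]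
  have e2 : (1 - mu j / n).im = -(Real.pi * (j + 1) / n) := by simp [mu_im]
  rw [e1, e2]
  have : (1 - 1 / (2 * (n : ℝ))) ^ 2 - ((1 - 1 / n) * (1 - 1 / n)
      + -(Real.pi * (j + 1) / n) * -(Real.pi * (j + 1) / n))
      = (n - 3 / 4 - (Real.pi * (j + 1)) ^ 2) / n ^ 2 := by field_simp; ring
  have h6 : 0 ≤ (n - 3 / 4 - (Real.pi * (j + 1)) ^ 2) / (n : ℝ) ^ 2 :=
    div_nonneg (by nlinarith) (by positivity)
  linarith

theorem neg_add_cancel_left_aux (a b : ℂ) : -a + (a - b) = -b := by ring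

theorem wit (J n : ℕ) (hJ : 1 ≤ J) (hn : 1 + 16 * (2 * J) ^ 2 ≤ n) {C : ℝ}
    (hC : 1000 * (J : ℝ) ^ 3 ≤ C) :
    Witness C ‖(C / 136 : ℝ) * (-∑ j ∈ range (2 * J), (-1) ^ j / mu j
      + ∑ j ∈ range (2 * J), (-1) ^ j / mu j * (1 - mu j / n) ^ n)‖ := by
  have hJ' : (1 : ℝ) ≤ J := by exact_mod_cast hJ
  have hJ3 : (J : ℝ) ≤ J ^ 3 := le_self_pow₀ hJ' (by norm_num)
  have hn0 : (0 : ℝ) < n := by
    have : 0 < n := by omega
    exact_mod_cast this
  have hn0' : (n : ℂ) ≠ 0 := by exact_mod_cast hn0.ne'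
  set B : ℝ := C / 136 with hB
  have hB0 : 0 ≤ B := by rw [hB]; linarith
  let lam : Option (Fin (2 * J)) → ℂ := fun i => i.elim 1 fun j => 1 - mu j / n
  let c : Option (Fin (2 * J)) → ℂ := fun i =>
    i.elim (-(B * ∑ j ∈ range (2 * J), (-1) ^ j / mu j)) fun j => B * ((-1) ^ (j : ℕ) / mu j)
  have hD : ∀ z : ℂ, 1 < ‖z‖ → ∀ j < 2 * J, 1 / 2 ≤ ‖n * (z - 1) + mu j‖ := by
    intro z hz j hj
    have e : n * (z - 1) + mu j = n * (z - (1 - mu j / n)) := by field_simp; ring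
    rw [e, norm_mul, Complex.norm_natCast]
    have h1 := lam_le hj hn
    have h2 := norm_sub_norm_le z (1 - mu j / n)
    have h3 : 1 / (2 * (n : ℝ)) ≤ ‖z - (1 - mu j / n)‖ := by linarith
    rw [div_le_iff₀ (by positivity)] at h3
    linarith
  have ha : ∀ z : ℂ, 1 < ‖z‖ → ∀ j < 2 * J,
      (z - 1) / (z - (1 - mu j / n)) = 1 - mu j / (n * (z - 1) + mu j) := by
    intro z hz j hj
    have h0 : n * (z - 1) + mu j ≠ 0 := norm_pos_iff.1 (by linarith [hD z hz j hj])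
    have e : z - (1 - mu j / n) = (n * (z - 1) + mu j) / n := by field_simp; ring
    rw [e, div_div_eq_mul_div, eq_sub_iff_add_eq, ← add_div, div_eq_one_iff_eq h0]; ring
  have hz1 : ∀ z : ℂ, 1 < ‖z‖ → z - 1 ≠ 0 := fun z hz h => by
    rw [sub_eq_zero.1 h] at hz; simp at hz
  have h0 := alt_le' 0 J fun j _ => by rw [zero_add]; linarith [mu_ge j]
  simp only [zero_add] at h0
  have key := diag lam c (C := C) (A := 22 * J) (by linarith) (by positivity) ?_ ?_ (by linarith)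
    ?_ ?_ ?_ n
  · convert key using 2
    rw [Fintype.sum_option]
    simp only [lam, c, Option.elim, one_pow, mul_one]
    rw [Fin.sum_univ_eq_sum_range (fun j => B * ((-1) ^ j / mu j) * (1 - mu j / n) ^ n), mul_add,
      mul_neg, mul_sum (range _) (fun j => (-1) ^ j / mu j * (1 - mu j / n) ^ n)]
    simp only [mul_assoc]
  · rintro (_ | j)
    · simp [lam]
    · have := lam_le j.2 hn
      have h2 : 0 ≤ 1 / (2 * (n : ℝ)) := by positivity
      show ‖1 - mu j / n‖ ≤ 1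
      linarith
  · rintro z hz (_ | j)
    · show ‖(z - 1) / (z - 1)‖ ≤ _
      rw [div_self (hz1 z hz), norm_one]; linarith
    · show ‖(z - 1) / (z - (1 - mu j / n))‖ ≤ _
      rw [ha z hz j j.2]
      refine (norm_sub_le _ _).trans ?_
      rw [norm_one, norm_div]
      have h1 := hD z hz j j.2
      have h2 := mu_le j.2
      push_cast at h2
      have : ‖mu j‖ / ‖n * (z - 1) + mu j‖ ≤ 2 * ‖mu j‖ := by
        rw [div_le_iff₀ (by linarith)]; nlinarith [norm_nonneg (mu j)]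
      linarith
  · rw [Fintype.sum_option]
    simp only [c, Option.elim]
    rw [Fin.sum_univ_eq_sum_range (fun j => B * ((-1) ^ j / mu j)), ← mul_sum]
    simp
  · intro z hz
    rw [Fintype.sum_option]
    simp only [lam, c, Option.elim]
    rw [Fin.sum_univ_eq_sum_range
      (fun j => B * ((-1) ^ j / mu j) * ((z - 1) / (z - (1 - mu j / n)))), div_self (hz1 z hz)]
    have e : ∑ j ∈ range (2 * J), B * ((-1) ^ j / mu j) * ((z - 1) / (z - (1 - mu j / n)))
        = B * ∑ j ∈ range (2 * J), (-1) ^ j / mu j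
          - B * ∑ j ∈ range (2 * J), (-1) ^ j / (n * (z - 1) + mu j) := by
      rw [mul_sum, mul_sum, ← sum_sub_distrib]
      refine sum_congr rfl fun j hj => ?_
      rw [ha z hz j (mem_range.1 hj)]
      have : mu j ≠ 0 := norm_pos_iff.1 (by linarith [mu_ge j])
      field_simp
    rw [e, mul_one, neg_add_cancel_left_aux, norm_neg, norm_mul, Complex.norm_real,
      Real.norm_eq_abs, abs_of_nonneg hB0]
    have := mul_le_mul_of_nonneg_left (alt_le' _ J (hD z hz)) hB0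
    rw [hB] at this ⊢
    linarith
  · have h1 : ∑ i, ‖c i‖ ≤ B * (136 + 2 * J) := by
      rw [Fintype.sum_option]
      simp only [c, Option.elim]
      rw [norm_neg, norm_mul, Complex.norm_real, Real.norm_eq_abs, abs_of_nonneg hB0]
      have a1 := mul_le_mul_of_nonneg_left h0 hB0
      have a2 : ∑ j : Fin (2 * J), ‖(B : ℂ) * ((-1) ^ (j : ℕ) / mu j)‖ ≤ (2 * J) * B := by
        have := sum_le_card_nsmul (univ : Finset (Fin (2 * J)))
          (fun j => ‖(B : ℂ) * ((-1) ^ (j : ℕ) / mu j)‖) B fun j _ => by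
            rw [norm_mul, Complex.norm_real, Real.norm_eq_abs, abs_of_nonneg hB0, norm_div,
              norm_pow, norm_neg, norm_one, one_pow]
            exact mul_le_of_le_one_right hB0 ((div_le_one (by linarith [mu_ge j])).2 (mu_ge j))
        simpa using this
      linarith
    have h2 : (136 + 2 * (J : ℝ)) * (22 * J) ^ 2 ≤ 136 * C := by
      have : (136 + 2 * (J : ℝ)) ≤ 138 * J := by linarith
      calc _ ≤ 138 * J * (22 * (J : ℝ)) ^ 2 := by gcongr
        _ = 66792 * (J : ℝ) ^ 3 := by ring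
        _ ≤ _ := by linarith
    calc _ ≤ B * (136 + 2 * J) * (22 * (J : ℝ)) ^ 2 := by gcongr
      _ = B * ((136 + 2 * J) * (22 * (J : ℝ)) ^ 2) := by ring
      _ ≤ B * (136 * C) := by gcongr
      _ = C ^ 2 := by rw [hB]; ring

theorem Witness.mono {C L L' : ℝ} (h : Witness C L) (hL : L' ≤ L) : Witness C L' := by
  obtain ⟨X, i1, i2, i3, i4, T, h1, h2, n, h3⟩ := h
  exact ⟨X, i1, i2, i3, i4, T, h1, h2, n, hL.trans h3⟩

theorem exp_mu (j : ℕ) : Complex.exp (-mu j) = -(-1) ^ j * (Real.exp (-1) : ℝ) := by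
  have e : -mu j = -1 + ((-(j + 1 : ℕ) : ℤ) : ℂ) * (Real.pi * I) := by
    simp only [mu]; push_cast; ring
  rw [e, Complex.exp_add, Complex.exp_int_mul, Complex.exp_pi_mul_I, zpow_neg, zpow_natCast,
    ← inv_pow, inv_neg_one, pow_succ]
  push_cast
  ring

theorem inv_sum (m : ℕ) : Real.log (m + 1 : ℕ) / 7 ≤ ‖∑ j ∈ range m, 1 / mu j‖ := by
  have h1 := log_add_one_le_harmonic m
  have h2 : ((harmonic m : ℚ) : ℝ) / 7 ≤ -(∑ j ∈ range m, 1 / mu j).im := by
    rw [Complex.im_sum, ← sum_neg_distrib, harmonic]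
    push_cast
    rw [sum_div]
    refine sum_le_sum fun j _ => ?_
    rw [one_div, inv_im, normSq_apply, mu_re, mu_im, neg_div, neg_neg]
    have hp := Real.pi_gt_three
    have hp2 := Real.pi_lt_d2
    have hj : (1 : ℝ) ≤ (j : ℝ) + 1 := by linarith [(Nat.cast_nonneg j : (0 : ℝ) ≤ j)]
    set t : ℝ := (j : ℝ) + 1
    rw [inv_eq_one_div, div_div, div_le_div_iff₀ (by positivity) (by positivity)]
    have a1 : 1 ≤ t * t := by nlinarith
    have a2 : Real.pi * Real.pi + 1 ≤ 7 * Real.pi := by nlinarith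
    nlinarith [mul_le_mul_of_nonneg_right a2 (show 0 ≤ t * t by linarith)]
  have h3 := abs_im_le_norm (∑ j ∈ range m, 1 / mu j)
  have h4 := neg_le_abs (∑ j ∈ range m, 1 / mu j).im
  linarith

theorem wit2 (J : ℕ) (hJ : 1 ≤ J) {C : ℝ} (hC : 1000 * (J : ℝ) ^ 3 ≤ C) :
    Witness C (C / 136 * (Real.log (2 * J + 1 : ℕ) / 21 - 137)) := by
  have hC0 : 0 ≤ C / 136 := by
    have : (0 : ℝ) ≤ 1000 * (J : ℝ) ^ 3 := by positivity
    linarith
  have ht : Filter.Tendsto (fun n : ℕ => ‖∑ j ∈ range (2 * J), (-1) ^ j / mu j * (1 - mu j / n) ^ n‖)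
      Filter.atTop (nhds ‖∑ j ∈ range (2 * J), (-1) ^ j / mu j * Complex.exp (-mu j)‖) := by
    refine (tendsto_finsetSum _ fun j _ => Filter.Tendsto.const_mul _ ?_).norm
    simpa [neg_div, sub_eq_add_neg] using Complex.tendsto_one_add_div_pow_exp (-mu j)
  have e : ∑ j ∈ range (2 * J), (-1) ^ j / mu j * Complex.exp (-mu j)
      = -((Real.exp (-1) : ℝ) * ∑ j ∈ range (2 * J), 1 / mu j) := by
    rw [mul_sum, ← sum_neg_distrib]
    refine sum_congr rfl fun j _ => ?_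
    rw [exp_mu]
    have : ((-1 : ℂ) ^ j) * (-1) ^ j = 1 := by rw [← mul_pow]; simp
    linear_combination (-((Real.exp (-1) : ℝ) : ℂ) / mu j) * this
  have h1 : Real.log (2 * J + 1 : ℕ) / 21 - 1
      < ‖∑ j ∈ range (2 * J), (-1) ^ j / mu j * Complex.exp (-mu j)‖ := by
    rw [e, norm_neg, norm_mul, Complex.norm_real, Real.norm_eq_abs, abs_of_pos (Real.exp_pos _)]
    have a1 := inv_sum (2 * J)
    have a2 : 1 / 3 ≤ Real.exp (-1) := by
      have := Real.exp_neg_one_gt_d9; linarith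
    have := mul_le_mul_of_nonneg_right a2 (norm_nonneg (∑ j ∈ range (2 * J), 1 / mu j))
    linarith
  obtain ⟨n, hn1, hn2⟩ := ((ht.eventually_const_lt h1).and
    (Filter.eventually_ge_atTop (1 + 16 * (2 * J) ^ 2))).exists
  refine (wit J n hJ hn2 hC).mono ?_
  rw [norm_mul, Complex.norm_real, Real.norm_eq_abs, abs_of_nonneg hC0]
  refine mul_le_mul_of_nonneg_left ?_ hC0
  have h0 := alt_le' 0 J fun j _ => by rw [zero_add]; linarith [mu_ge j]
  simp only [zero_add] at h0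
  have h2 := norm_sub_norm_le (∑ j ∈ range (2 * J), (-1) ^ j / mu j * (1 - mu j / n) ^ n)
    (∑ j ∈ range (2 * J), (-1) ^ j / mu j)
  rw [neg_add_eq_sub]
  linarith

theorem main : ∃ c : ℝ, 0 < c ∧ ∃ C₀ : ℝ, 1 ≤ C₀ ∧ ∀ C : ℝ, C₀ ≤ C →
    Witness C (c * C * Real.log (1 + C)) := by
  refine ⟨1 / 27200, by norm_num, Real.exp 30000, Real.one_le_exp (by norm_num), fun C hC => ?_⟩
  have hC0 : 0 < C := lt_of_lt_of_le (Real.exp_pos _) hC
  have hL : 30000 ≤ Real.log C := (Real.le_log_iff_exp_le hC0).2 hC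
  have hC2 : 2 ≤ C := by have := Real.add_one_le_exp 30000; linarith
  set t := (Real.log C - 7) / 3 with ht
  have ht0 : 0 ≤ t := by rw [ht]; linarith
  have h1 : ((⌊Real.exp t⌋₊ : ℕ) : ℝ) ≤ Real.exp t := Nat.floor_le (Real.exp_pos _).le
  have h2 : Real.exp t < (⌊Real.exp t⌋₊ : ℕ) + 1 := Nat.lt_floor_add_one _
  have h3 : 1 ≤ ⌊Real.exp t⌋₊ := Nat.floor_pos.2 (Real.one_le_exp ht0)
  generalize ⌊Real.exp t⌋₊ = J at h1 h2 h3
  have h4 : 1000 * (J : ℝ) ^ 3 ≤ C := by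
    have a1 : (J : ℝ) ^ 3 ≤ Real.exp t ^ 3 := by gcongr
    have a2 : Real.exp t ^ 3 * Real.exp 1 ^ 7 = C := by
      rw [← Real.exp_nat_mul, ← Real.exp_nat_mul, ← Real.exp_add, ht]
      push_cast
      rw [show 3 * ((Real.log C - 7) / 3) + 7 * 1 = Real.log C by ring, Real.exp_log hC0]
    have a3 : (1000 : ℝ) ≤ Real.exp 1 ^ 7 := by
      have := Real.exp_one_gt_d9
      calc (1000 : ℝ) ≤ 2.7 ^ 7 := by norm_num
        _ ≤ _ := by gcongr; linarith
    have := mul_le_mul a1 a3 (by norm_num) (by positivity)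
    linarith
  refine (wit2 J h3 h4).mono ?_
  have h5 : t ≤ Real.log (2 * J + 1 : ℕ) := by
    rw [Real.le_log_iff_exp_le (by positivity)]
    push_cast
    linarith [(Nat.cast_nonneg J : (0 : ℝ) ≤ J)]
  have h6 : Real.log (1 + C) ≤ 2 * Real.log C := by
    have : Real.log (1 + C) ≤ Real.log (C ^ 2) := Real.log_le_log (by linarith) (by nlinarith)
    rwa [Real.log_pow] at this
  have h7 : Real.log (1 + C) / 200 ≤ Real.log (2 * J + 1 : ℕ) / 21 - 137 := by
    rw [ht] at h5; linarith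
  calc _ = C / 136 * (Real.log (1 + C) / 200) := by ring
    _ ≤ _ := mul_le_mul_of_nonneg_left h7 (by positivity)

end Pool.Agent.H54.Ritt
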