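import Mathlib

set_option autoImplicit false

namespace Pool.Agent.H54.Rob

variable {V W : Type}

/-- monochromatic copies of H in G under the colouring c (only the colours of edges matter) -/
def mono {r : ℕ} (H : SimpleGraph W) (G : SimpleGraph V) (c : Sym2 V → Fin r) :
    Set G.Subgraph :=
  {S | Nonempty (H ≃g S.coe) ∧ ∃ i : Fin r, ∀ e ∈ S.edgeSet, c e = i}

/-- the r-multiplicity of H in G -/
noncomputable def mult (r : ℕ) (H : SimpleGraph W) (G : SimpleGraph V) : ℕ :=
  sInf {k : ℕ | ∃ c : Sym2 V → Fin r, (mono H G c).ncard = k}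

/-- every r-colouring of G has a monochromatic copy of H -/
def Arrows (r : ℕ) (G : SimpleGraph V) (H : SimpleGraph W) : Prop :=
  ∀ c : Sym2 V → Fin r, (mono H G c).Nonempty

/-- G is r-Ramsey-minimal for H -/
def RamseyMin (r : ℕ) (G : SimpleGraph V) (H : SimpleGraph W) : Prop :=
  Arrows r G H ∧ ∀ G' : G.Subgraph, G' ≠ ⊤ → ¬ Arrows r G'.coe H

/-- H has finitely many r-Ramsey-minimal graphs up to isomorphism -/
def RamseyFinite (r : ℕ) (H : SimpleGraph W) : Prop :=
  ∃ F : Set ((n : ℕ) × SimpleGraph (Fin n)), F.Finite ∧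
    ∀ (n : ℕ) (G : SimpleGraph (Fin n)), RamseyMin r G H → ∃ x ∈ F, Nonempty (G ≃g x.2)

end Pool.Agent.H54.Rob
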