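import Mathlib
import Pool.Agent.H54.RobDef

set_option autoImplicit false

namespace Pool.Agent.H54.Rob

open Finset
open Classical

variable {V W : Type}

lemma mono_of_map {r : ℕ} (H : SimpleGraph W) (G : SimpleGraph V) (c : Sym2 V → Fin r)
    (f : W → V) (hf : Function.Injective f) (i : Fin r)
    (h : ∀ a b, H.Adj a b → G.Adj (f a) (f b) ∧ c s(f a, f b) = i) : (mono H G c).Nonempty := by
  let g : H.Copy G := ⟨⟨f, fun {a b} hab => (h a b hab).1⟩, hf⟩
  refine ⟨g.toSubgraph, ⟨g.isoToSubgraph⟩, i, fun e he => ?_⟩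
  induction e using Sym2.ind with
  | _ u v =>
    rw [SimpleGraph.Subgraph.mem_edgeSet, SimpleGraph.Subgraph.map_adj] at he
    obtain ⟨a, b, hab, rfl, rfl⟩ := he
    exact (h a b hab).2

lemma map_of_iso (H : SimpleGraph W) (G : SimpleGraph V) (S : G.Subgraph) (e : H ≃g S.coe) :
    ∃ f : W → V, Function.Injective f ∧ ∀ a b, H.Adj a b → S.Adj (f a) (f b) :=
  ⟨fun a => (e a).1, fun _ _ h => e.injective (Subtype.ext h),
    fun _ _ h => e.map_rel_iff.mpr h⟩

lemma no_isolated {r n h : ℕ} (H : SimpleGraph (Fin h)) (G : SimpleGraph (Fin n))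
    (hG : RamseyMin r G H) (hn : h + 1 < n) (v : Fin n) : ∃ w, G.Adj v w := by
  by_contra hv
  push Not at hv
  apply hG.2 ((⊤ : G.Subgraph).deleteVerts {v})
  · intro h0
    have : v ∈ ((⊤ : G.Subgraph).deleteVerts {v}).verts := by rw [h0]; trivial
    simp at this
  intro c'
  obtain ⟨u0, hu0⟩ : ∃ u : Fin n, u ≠ v := by
    have : Nontrivial (Fin n) := Fin.nontrivial_iff_two_le.mpr (by omega)
    exact exists_ne v
  let p : Fin n → ((⊤ : G.Subgraph).deleteVerts {v}).verts := fun x =>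
    if hx : x = v then ⟨u0, by simpa using hu0⟩ else ⟨x, by simpa using hx⟩
  obtain ⟨S, ⟨e⟩, i, hi⟩ := hG.1 (fun s => c' (s.map p))
  obtain ⟨f, hf, hadj⟩ := map_of_iso H G S e
  obtain ⟨u, hu⟩ : ∃ u, u ∉ Set.range f := by
    by_contra h0
    push Not at h0
    have := Fintype.card_le_of_surjective f h0
    simp at this
    omega
  have hne : ∀ a, Equiv.swap v u (f a) ≠ v := by
    intro a h0
    rw [Equiv.swap_apply_eq_iff, Equiv.swap_apply_left] at h0
    exact hu ⟨a, h0⟩
  refine mono_of_map _ _ _ (fun a => ⟨Equiv.swap v u (f a), by simpa using hne a⟩)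
    (fun a b hab => hf ((Equiv.swap v u).injective (congrArg Subtype.val hab))) i ?_
  intro a b hab
  have h1 := (hadj a b hab).adj_sub
  have ha : f a ≠ v := fun h0 => hv _ (h0 ▸ h1)
  have hb : f b ≠ v := fun h0 => hv _ (h0 ▸ h1.symm)
  have ha' : Equiv.swap v u (f a) = f a :=
    Equiv.swap_apply_of_ne_of_ne ha (fun h0 => hu ⟨a, h0⟩)
  have hb' : Equiv.swap v u (f b) = f b :=
    Equiv.swap_apply_of_ne_of_ne hb (fun h0 => hu ⟨b, h0⟩)
  constructor
  · simp [ha', hb', ha, hb, h1]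
  · rw [← hi s(f a, f b) (hadj a b hab)]
    simp only [Sym2.map_mk, p, dif_neg ha, dif_neg hb, ha', hb']

lemma mult_le {r n h : ℕ} (H : SimpleGraph (Fin h)) (G : SimpleGraph (Fin n))
    (hG : RamseyMin r G H) (e : Sym2 (Fin n)) (he : e ∈ G.edgeSet) :
    mult r H G ≤ (univ.filter (fun S : G.Subgraph =>
      Nonempty (H ≃g S.coe) ∧ e ∈ S.edgeSet)).card := by
  have h1 := hG.2 ((⊤ : G.Subgraph).deleteEdges {e}) (by
    intro h0
    induction e using Sym2.ind with
    | _ u v =>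
      have : ((⊤ : G.Subgraph).deleteEdges {s(u, v)}).Adj u v := by rw [h0]; exact he
      simp at this)
  unfold Arrows at h1
  push Not at h1
  obtain ⟨c', hc'⟩ := h1
  let p : Fin n → ((⊤ : G.Subgraph).deleteEdges {e}).verts := fun x => ⟨x, trivial⟩
  refine le_trans (b := (mono H G (fun s => c' (s.map p))).ncard)
    (Nat.sInf_le ⟨fun s => c' (s.map p), rfl⟩) ?_
  rw [← Set.ncard_coe_finset]
  apply Set.ncard_le_ncard _ (Set.toFinite _)
  rintro S ⟨⟨φ⟩, i, hi⟩
  simp only [coe_filter, mem_univ, true_and, Set.mem_ofPred_eq]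
  refine ⟨⟨φ⟩, ?_⟩
  by_contra hS
  obtain ⟨f, hf, hadj⟩ := map_of_iso H G S φ
  refine (mono_of_map H _ c' (fun a => p (f a))
    (fun a b hab => hf (congrArg Subtype.val hab)) i ?_).ne_empty hc'
  intro a b hab
  refine ⟨?_, hi s(f a, f b) (hadj a b hab)⟩
  simp only [SimpleGraph.Subgraph.coe_adj, SimpleGraph.Subgraph.deleteEdges_adj, p,
    SimpleGraph.Subgraph.top_adj, Set.mem_singleton_iff]
  exact ⟨(hadj a b hab).adj_sub, fun h0 => hS (h0 ▸ hadj a b hab)⟩

lemma mult_one {n h : ℕ} (H : SimpleGraph (Fin h)) (G : SimpleGraph (Fin n)) :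
    mult 1 H G = (univ.filter (fun S : G.Subgraph => Nonempty (H ≃g S.coe))).card := by
  have : {k : ℕ | ∃ c : Sym2 (Fin n) → Fin 1, (mono H G c).ncard = k}
      = {(univ.filter (fun S : G.Subgraph => Nonempty (H ≃g S.coe))).card} := by
    have h1 : ∀ c : Sym2 (Fin n) → Fin 1, (mono H G c).ncard
        = (univ.filter (fun S : G.Subgraph => Nonempty (H ≃g S.coe))).card := by
      intro c
      rw [← Set.ncard_coe_finset]
      congr 1
      ext S
      simp only [mono, Set.mem_ofPred_eq, coe_filter, mem_univ, true_and]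
      exact ⟨fun h => h.1, fun h => ⟨h, 0, fun _ _ => Subsingleton.elim _ _⟩⟩
    ext k
    simp only [Set.mem_ofPred_eq, h1, Set.mem_singleton_iff]
    exact ⟨fun ⟨_, h⟩ => h.symm, fun h => ⟨fun _ => 0, h.symm⟩⟩
  unfold mult
  rw [this, csInf_singleton]

lemma count {r n h : ℕ} (H : SimpleGraph (Fin h)) (G : SimpleGraph (Fin n))
    (hG : RamseyMin r G H) :
    G.edgeFinset.card * mult r H G ≤ mult 1 H G * (h * h) := by
  rw [mult_one]
  apply card_mul_le_card_mul (fun (e : Sym2 (Fin n)) (S : G.Subgraph) => e ∈ S.edgeSet)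
  · intro e he
    refine (mult_le H G hG e (SimpleGraph.mem_edgeFinset.mp he)).trans (le_of_eq ?_)
    rw [bipartiteAbove, filter_filter]
  · intro S hS
    obtain ⟨φ⟩ := (mem_filter.mp hS).2
    have : bipartiteBelow (fun (e : Sym2 (Fin n)) (S : G.Subgraph) => e ∈ S.edgeSet)
        G.edgeFinset S ⊆ (univ : Finset (Fin h × Fin h)).image
          (fun x => s((φ x.1).1, (φ x.2).1)) := by
      intro e he
      have h1 := (mem_filter.mp he).2
      induction e using Sym2.ind with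
      | _ u v =>
        refine mem_image.mpr ⟨(φ.symm ⟨u, S.edge_vert h1⟩, φ.symm ⟨v, S.edge_vert h1.symm⟩),
          mem_univ _, ?_⟩
        simp
    refine (card_le_card this).trans (card_image_le.trans ?_)
    simp

lemma verts_le {r n h : ℕ} (H : SimpleGraph (Fin h)) (G : SimpleGraph (Fin n))
    (hG : RamseyMin r G H) (hn : h + 1 < n) : n ≤ 2 * G.edgeFinset.card := by
  rw [← SimpleGraph.sum_degrees_eq_twice_card_edges]
  calc n = ∑ _v : Fin n, 1 := by simp
    _ ≤ _ := sum_le_sum (fun v _ =>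
      (G.degree_pos_iff_exists_adj v).mpr (no_isolated H G hG hn v))

lemma large {r : ℕ} (H : SimpleGraph W) (hH : ¬ RamseyFinite r H) (N : ℕ) :
    ∃ (n : ℕ) (G : SimpleGraph (Fin n)), RamseyMin r G H ∧ N < n := by
  by_contra hc
  push Not at hc
  refine hH ⟨⋃ n ∈ Set.Iic N, Set.range (Sigma.mk n),
    (Set.finite_Iic N).biUnion (fun n _ => Set.finite_range _), fun n G hG => ?_⟩
  exact ⟨⟨n, G⟩, Set.mem_biUnion (hc n G hG) ⟨G, rfl⟩, ⟨SimpleGraph.Iso.refl⟩⟩

lemma main {r h : ℕ} (H : SimpleGraph (Fin h)) (hH : ¬ RamseyFinite r H) :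
    IsGLB {x : ℝ | ∃ (n : ℕ) (G : SimpleGraph (Fin n)), RamseyMin r G H ∧
      x = (mult r H G : ℝ) / (mult 1 H G : ℝ)} 0 := by
  constructor
  · rintro _ ⟨n, G, _, rfl⟩
    positivity
  · intro b hb
    by_contra hb0
    push Not at hb0
    obtain ⟨N, hN⟩ := exists_nat_gt (2 * ((h * h : ℕ) : ℝ) / b)
    obtain ⟨n, G, hG, hn⟩ := large H hH (N + h + 1)
    have h1 := hb ⟨n, G, hG, rfl⟩
    have h2 : (G.edgeFinset.card : ℝ) * mult r H G ≤ mult 1 H G * ((h * h : ℕ) : ℝ) := by
      exact_mod_cast count H G hG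
    have h3 : (N : ℝ) ≤ 2 * G.edgeFinset.card := by
      have := verts_le H G hG (by omega)
      exact_mod_cast (show N ≤ 2 * G.edgeFinset.card by omega)
    rw [div_lt_iff₀ hb0] at hN
    rcases Nat.eq_zero_or_pos (mult 1 H G) with h0 | h0
    · rw [h0] at h1
      simp at h1
      linarith
    · have h4 : (0 : ℝ) < mult 1 H G := by exact_mod_cast h0
      rw [le_div_iff₀ h4] at h1
      have h5 : (0 : ℝ) ≤ G.edgeFinset.card := Nat.cast_nonneg _
      have h6 : (G.edgeFinset.card : ℝ) * (b * mult 1 H G) ≤ G.edgeFinset.card * mult r H G :=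
        mul_le_mul_of_nonneg_left h1 h5
      have h7 : (G.edgeFinset.card * b) * (mult 1 H G : ℝ)
          ≤ ((h * h : ℕ) : ℝ) * mult 1 H G := by linarith
      have h8 := le_of_mul_le_mul_right h7 h4
      nlinarith

end Pool.Agent.H54.Rob
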