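import Pool.Agent.H54.WZ3

namespace Pool.Agent.H54.S216

open Nat Finset Pool.Agent.H54.SuperCat

def S (n : ℕ) : ℚ :=
  ∑ j ∈ range n, 216 ^ (n - 1 - j) * (6 * j + 1) * ((2 * j).choose j : ℚ) ^ 2 * ((3 * j).choose j : ℚ)

def FA (k d : ℕ) : ℚ := h (k + d) * (3 * d)! * (3 * k)! * 8 ^ k * (6 * (k + d) + 1) /
  (54 ^ (k + d) * d ! ^ 2 * (k + d)! * (2 * k + d)! * k !)
def GA (j d : ℕ) : ℚ := h (j + d + 1) * (3 * d)! * (3 * j)! * 8 ^ (j + 1) * (27 * (j + d + 1) * (6 * j - 3 * d + 1)) /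
  (2 * 54 ^ (j + d + 1) * d ! ^ 2 * (j + d + 1)! * (2 * j + d + 1)! * j !)
def FB (k d : ℕ) : ℚ := (2 * d)! * (3 * (k + d))! * k ! * iv d k * 27 ^ k * (6 * d + 1) /
  (216 ^ (k + d) * d ! ^ 2 * (k + d)! ^ 2 * (3 * k)!)
def GB (j d : ℕ) : ℚ := (2 * d)! * (3 * (j + d + 1))! * (j + 1)! * iv d j * 27 ^ (j + 1) *
  (4 * (j + d + 1) * (3 * d + 2)) / (216 ^ (j + d + 1) * d ! ^ 2 * (j + d + 1)! ^ 2 * (3 * (j + 1))!)

lemma clA (j d : ℕ) : FA j (d + 1) - FA (j + 1) d = GA j (d + 1) - GA j d := by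
  simp only [FA, GA, show j + (d + 1) = j + d + 1 by ring, show j + 1 + d = j + d + 1 by ring,
    show 2 * j + (d + 1) = 2 * j + d + 1 by ring, show 2 * (j + 1) + d = 2 * j + d + 1 + 1 by ring,
    show 3 * (j + 1) = 3 * j + 1 + 1 + 1 by ring, show 3 * (d + 1) = 3 * d + 1 + 1 + 1 by ring,
    factorial_succ, h.eq_2, pow_succ]
  push_cast
  field_simp
  ring

lemma bdA (n : ℕ) : FA n 0 = GA n 0 := by
  simp only [FA, GA, add_zero, mul_zero, factorial_succ, h.eq_2, pow_succ]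
  push_cast
  field_simp
  ring

lemma clB (j d : ℕ) : FB j (d + 1) - FB (j + 1) d = GB j (d + 1) - GB j d := by
  simp only [FB, GB]
  rw [iv.eq_2 d j, ← iv_ss d j, iv.eq_2 (d + 1) j]
  simp only [show j + (d + 1) = j + d + 1 by ring, show j + 1 + d = j + d + 1 by ring,
    show 2 * (d + 1) = 2 * d + 1 + 1 by ring, show 3 * (j + 1) = 3 * j + 1 + 1 + 1 by ring,
    show 3 * (j + d + 1 + 1) = 3 * (j + d + 1) + 1 + 1 + 1 by ring, factorial_succ, pow_succ]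
  push_cast
  field_simp
  ring

lemma bdB (n : ℕ) : FB n 0 = GB n 0 := by
  simp only [FB, GB, add_zero, mul_zero, factorial_succ n, pow_succ]
  push_cast
  field_simp
  ring

lemma FAB (k : ℕ) : FB 0 k = FA 0 k := by
  simp only [FA, FB, zero_add, mul_zero, factorial_zero, pow_zero, iv, h_eq,
    show (216 : ℚ) = 54 * 4 by norm_num, mul_pow]
  push_cast
  field_simp
  ring

lemma aT (k : ℕ) : (6 * k + 1) * ((2 * k).choose k : ℚ) ^ 2 * ((3 * k).choose k : ℚ) = 216 ^ k * FA 0 k := by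
  simp only [FA, zero_add, mul_zero, pow_zero, factorial_zero]
  rw [mul_assoc, c3, show (216 : ℚ) = 54 * 4 by norm_num, mul_pow]
  push_cast
  field_simp
  ring

lemma S_eq (n : ℕ) : S (n + 1) = 216 ^ n * ∑ k ∈ range (n + 1), FA 0 k := by
  rw [S, mul_sum]
  refine sum_congr rfl fun k hk => ?_
  obtain ⟨e, rfl⟩ := Nat.exists_eq_add_of_le (Nat.lt_succ_iff.1 (mem_range.1 hk))
  rw [mul_assoc, mul_assoc, ← mul_assoc (6 * (k : ℚ) + 1), aT, show k + e + 1 - 1 - k = e by omega, pow_add]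
  ring

lemma step (n : ℕ) : S (n + 2) = 216 * S (n + 1) + (6 * (n + 1 : ℕ) + 1) *
    ((2 * (n + 1)).choose (n + 1) : ℚ) ^ 2 * ((3 * (n + 1)).choose (n + 1) : ℚ) := by
  rw [S, S, sum_range_succ, mul_sum]
  congr 1
  · refine sum_congr rfl fun k hk => ?_
    rw [show n + 2 - 1 - k = n + 1 - 1 - k + 1 by have := mem_range.1 hk; omega, pow_succ]
    ring
  · simp

lemma tmA (j d : ℕ) : (216 : ℚ) ^ (j + d) * GA j d = ((j + d + 1 : ℕ) : ℚ) *
    ((2 * (j + d + 1)).choose (j + d + 1) : ℚ) * (8 ^ j / 2 *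
      (3 * ((3 * d + 0)! * (3 * j)! / (d ! * d ! * j ! * (d + 2 * j + 0)!)) -
        2 * ((3 * d + 1)! * (3 * j)! / (d ! * d ! * j ! * (d + 2 * j + 1)!)))) := by
  rw [cb]
  simp only [GA, add_zero, show 2 * j + d + 1 = d + 2 * j + 1 by ring, factorial_succ (d + 2 * j),
    factorial_succ (3 * d), show (216 : ℚ) = 54 * 4 by norm_num, mul_pow]
  push_cast
  field_simp
  ring

lemma one (n : ℕ) : ∃ z : ℤ, S (n + 2) = ((n + 2 : ℕ) : ℚ) * ((2 * (n + 2)).choose (n + 2) : ℚ) * z := by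
  have hp : (0 : ℚ) < (2 * (n + 2)).choose (n + 2) := by exact_mod_cast Nat.choose_pos (by omega)
  obtain ⟨z, hz⟩ := sum_int (n := n + 2) (f := fun j => (216 : ℚ) ^ (n + 1) * GA j (n + 2 - 1 - j) /
      (((n + 2 : ℕ) : ℚ) * ((2 * (n + 2)).choose (n + 2) : ℚ))) fun j hj => by
    obtain ⟨d, hd⟩ := Nat.exists_eq_add_of_le (Nat.lt_succ_iff.1 hj)
    rw [show n + 2 = j + d + 1 by omega] at hp ⊢
    rw [hd, show j + d + 1 - 1 - j = d by omega, tmA, mul_div_cancel_left₀ _ (by positivity)]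
    cases j with
    | succ j =>
      obtain ⟨x, hx⟩ := Zint d (j + 1) 0 (by omega)
      obtain ⟨y, hy⟩ := Zint d (j + 1) 1 le_rfl
      exact ⟨4 * 8 ^ j * (3 * x - 2 * y), by rw [hx, hy]; push_cast; ring⟩
    | zero =>
      obtain rfl : d = n + 1 := by omega
      obtain ⟨w, hw⟩ := even_cb n
      obtain ⟨c, hc⟩ := cat (n + 1)
      obtain ⟨y, hy⟩ := bin (n + 1) (2 * (n + 1))
      refine ⟨y * (2 * c - 3 * w), ?_⟩
      push_cast
      rw [show (w : ℚ) = 4 ^ (n + 1) * h (n + 1) / (n + 1)! / 2 by rw [hw]; ring, ← hc, ← hy, h_eq,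
        show n + 1 + 2 * (n + 1) = 3 * (n + 1) by ring]
      simp only [add_zero, factorial_zero, factorial_succ (3 * (n + 1)), factorial_succ (n + 1)]
      push_cast
      field_simp
      ring
  refine ⟨z, ?_⟩
  rw [S_eq, wz clA bdA, ← hz, mul_sum, mul_sum]
  refine sum_congr rfl fun j _ => ?_
  field_simp

lemma tmB (j d : ℕ) : 3 * ((216 : ℚ) ^ (j + d) * GB j d) / (((j + d + 1 : ℕ) : ℚ) *
    (2 * ((j + d + 1 : ℕ) : ℚ) + 1) * ((2 * (j + d + 1)).choose (j + d + 1) : ℚ)) =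
    9 ^ j * (3 * d + 2) * ((2 * d).choose d : ℚ) *
      ((3 * (j + d + 1))! * iv d j / (2 * (j + d + 1) + 1)!) / (2 * u3 (j + 1)) := by
  have := u3_pos (j + 1)
  rw [Nat.cast_choose ℚ (by omega), Nat.cast_choose ℚ (by omega),
    show 2 * (j + d + 1) - (j + d + 1) = j + d + 1 by omega, show 2 * d - d = d by omega]
  simp only [GB, pow_succ (216 : ℚ), pow_succ (27 : ℚ), factorial_succ (2 * (j + d + 1)), u3_eq (j + 1)]
  rw [show (27 : ℚ) ^ j = 9 ^ j * 3 ^ j by rw [← mul_pow]; norm_num]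
  push_cast
  field_simp
  ring

lemma Xint (j d : ℕ) : ∃ z : ℤ, ((3 * (j + d + 1))! * iv d j / (2 * (j + d + 1) + 1)! : ℚ) = z := by
  rcases le_or_gt j d with hj | hj
  · obtain ⟨c, rfl⟩ := Nat.exists_eq_add_of_le hj
    obtain ⟨w, hw⟩ := (factorial_mul_factorial_dvd_factorial_add c (2 * (j + (j + c) + 1) + 1)).trans
      (factorial_dvd_factorial (show _ ≤ 3 * (j + (j + c) + 1) by omega))
    exact ⟨w, by rw [iv_add, hw]; push_cast; field_simp⟩
  · obtain ⟨c, rfl⟩ := Nat.exists_eq_add_of_lt hj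
    exact ⟨0, by simp [iv_lt]⟩

lemma main (k : ℕ) : ∃ b : ℤ, 3 * (S (k + 2) / ((k + 2 : ℕ) * (2 * (k + 2 : ℕ) + 1) *
    ((2 * (k + 2)).choose (k + 2) : ℚ))) = b ∧ (3 ∣ b ↔ ¬ IsP (2 * (k + 2) + 1)) := by
  obtain ⟨x, hx⟩ := one k
  obtain ⟨y, hy⟩ := one (k + 1)
  obtain ⟨m, hm⟩ : ∃ m, m = k + 1 := ⟨_, rfl⟩
  rw [show k + 2 = m + 1 by omega] at hx ⊢
  rw [show k + 1 + 2 = m + 1 + 1 by omega] at hy
  obtain ⟨f, hf⟩ := fc (m + 1)
  have hs := step m
  obtain ⟨z, hz⟩ := sum_int (n := m) (f := fun j => (4 * u3 (m + 1) : ℕ) * (3 * ((216 : ℚ) ^ m *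
      GB (j + 1) (m + 1 - 1 - (j + 1))) / (((m + 1 : ℕ) : ℚ) *
      (2 * ((m + 1 : ℕ) : ℚ) + 1) * ((2 * (m + 1)).choose (m + 1) : ℚ))) / 3) fun j hj => by
    obtain ⟨d, rfl⟩ : ∃ d, m = j + 1 + d := ⟨m - j - 1, by omega⟩
    obtain ⟨c, hc⟩ := u3_dvd (j + 1 + 1) d
    obtain ⟨y, hy⟩ := Xint (j + 1) d
    have := u3_pos (j + 1 + 1)
    rw [show j + 1 + d + 1 - 1 - (j + 1) = d by omega, tmB, hy,
      show u3 (j + 1 + d + 1) = u3 (j + 1 + 1) * c by rw [← hc]; congr 1; ring]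
    refine ⟨6 * c * 9 ^ j * (3 * d + 2) * ((2 * d).choose d) * y, ?_⟩
    push_cast
    field_simp
    ring
  have e0 := tmB 0 m
  have hCp : (0 : ℚ) < (2 * (m + 1)).choose (m + 1) := by exact_mod_cast Nat.choose_pos (by omega)
  have hC : ((m + 1 + 1 : ℕ) : ℚ) * ((2 * (m + 1 + 1)).choose (m + 1 + 1) : ℚ) =
      2 * (2 * (m + 1 : ℕ) + 1) * ((2 * (m + 1)).choose (m + 1) : ℚ) := by
    rw [cb, cb, h.eq_2 (m + 1), factorial_succ (m + 1)]
    push_cast
    field_simp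
    ring
  have h3 : ((3 * (m + 1)).choose (m + 1) : ℚ) = (2 * (m + 1 : ℕ) + 1) * f := by
    rw [← hf, Nat.cast_choose ℚ (by omega), show 3 * (m + 1) - (m + 1) = 2 * (m + 1) by omega]
    field_simp
  refine fin3 (c := 3) (U := 4 * u3 (m + 1)) (x := x) (z := z) (v := (3 * m + 2) * u3 (m + 1))
    (y := 2 * y - (6 * (m + 1) + 1) * ((2 * (m + 1)).choose (m + 1)) * f)
    (Y := (m + 1) * (2 * m).choose m * f) (by omega) ?_ ?_ (by have := u3_nd (m + 1); omega) ?_ ?_ ?_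
  · rw [hx]; field_simp
  · rw [hy, hC, h3] at hs
    push_cast at hs ⊢
    field_simp
    linear_combination -hs
  · rw [Int.prime_three.dvd_mul, not_or]
    exact ⟨by omega, by exact_mod_cast u3_nd _⟩
  · rw [S_eq, ← sum_congr rfl fun k _ => FAB k, wz clB bdB, sum_range_succ', ← hz, mul_add, add_div,
      mul_add, mul_add, add_comm, mul_sum, sum_div, mul_sum, mul_sum, mul_sum]
    congr 1
    · simp only [zero_add] at e0
      rw [← mul_div_assoc, show m + 1 - 1 - 0 = m from rfl, e0]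
      push_cast
      rw [← hf, factorial_succ (2 * (m + 1)), factorial_succ m]
      simp only [u3, iv]
      push_cast
      field_simp
      ring
    · refine sum_congr rfl fun j _ => ?_
      ring
  · push_cast
    rw [← hf, Nat.cast_choose ℚ (by omega), show 2 * m - m = m by omega, factorial_succ m,
      factorial_succ (2 * (m + 1))]
    push_cast
    field_simp

end Pool.Agent.H54.S216
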