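import Pool.Agent.H54.WZ3

namespace Pool.Agent.H54.S2304

open Nat Finset Pool.Agent.H54.SuperCat

def S (n : ℕ) : ℚ :=
  ∑ j ∈ range n, 2304 ^ (n - 1 - j) * (8 * j + 1) * (((4 * j)! : ℚ) / (j ! : ℚ) ^ 4)

def T (k d : ℕ) : ℚ := h d * h (k + d) * hz (2 * d) k * h k * (-27) ^ k /
  (4 ^ k * 9 ^ (k + d) * (2 * d)! * d ! * (k + d)!)
def F (k d : ℕ) : ℚ := T k d * (2 * k + 8 * d + 1)
def G (j d : ℕ) : ℚ := T (j + 1) d * (8 * (j + d + 1) * (2 * j + 2 * d + 1) / (3 * (2 * j + 1)))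

lemma cl (j d : ℕ) : F j (d + 1) - F (j + 1) d = G j (d + 1) - G j d := by
  simp only [F, G, T, show 2 * (d + 1) = 2 * d + 1 + 1 by ring]
  rw [← hz_ss (2 * d + 1 + 1) j]
  simp only [show j + (d + 1) = j + d + 1 by ring, show j + 1 + d = j + d + 1 by ring,
    show j + 1 + (d + 1) = j + d + 1 + 1 by ring, hz_s, factorial_succ, h.eq_2, pow_succ]
  push_cast
  field_simp
  ring

lemma bd (n : ℕ) : F n 0 = G n 0 := by
  simp only [F, G, T, add_zero, mul_zero, hz, factorial_succ, h.eq_2, pow_succ]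
  push_cast
  rw [show (2 * 0 - 2 * (n : ℚ) - 1) = -(2 * n + 1) by ring]
  field_simp
  ring

lemma aT (k : ℕ) : (8 * k + 1) * (((4 * k)! : ℚ) / (k ! : ℚ) ^ 4) = 2304 ^ k * F 0 k := by
  simp only [F, T, zero_add, pow_zero, hz, h_eq, show 2 * (2 * k) = 4 * k by ring, mul_zero, factorial_zero,
    show (2304 : ℚ) = 9 * (4 * 4 * 4 * 4) by norm_num, mul_pow]
  push_cast
  field_simp
  ring

lemma S_eq (n : ℕ) : S (n + 1) = 2304 ^ n * ∑ k ∈ range (n + 1), F 0 k := by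
  rw [S, mul_sum]
  refine sum_congr rfl fun k hk => ?_
  obtain ⟨e, rfl⟩ := Nat.exists_eq_add_of_le (Nat.lt_succ_iff.1 (mem_range.1 hk))
  rw [mul_assoc, aT, show k + e + 1 - 1 - k = e by omega, pow_add]
  ring

lemma step (n : ℕ) : S (n + 2) = 2304 * S (n + 1) + (8 * (n + 1 : ℕ) + 1) *
    (((4 * (n + 1))! : ℚ) / ((n + 1)! : ℚ) ^ 4) := by
  rw [S, S, sum_range_succ, mul_sum]
  congr 1
  · refine sum_congr rfl fun k hk => ?_
    rw [show n + 2 - 1 - k = n + 1 - 1 - k + 1 by have := mem_range.1 hk; omega, pow_succ]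
    ring
  · simp

def Y (j d : ℕ) : ℚ := 4 ^ (2 * d) * (2 * j + 2 * d + 1) * h j * hz (2 * d) (j + 1) / (2 * d)!

lemma Yint (j d : ℕ) : ∃ z : ℤ, Y j d = z := by
  obtain ⟨x, hx⟩ := sz (j + 1) (2 * d)
  cases d with
  | zero => exact ⟨2 * x, by push_cast; rw [← hx, Y, h]; push_cast; ring⟩
  | succ d =>
    obtain ⟨y, hy⟩ := sz j (2 * d + 1)
    refine ⟨2 * x + 4 * y, ?_⟩
    push_cast
    rw [← hx, ← hy, Y, h, show 2 * (d + 1) = 2 * d + 1 + 1 by ring, hz_ss, factorial_succ (2 * d + 1)]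
    push_cast
    field_simp
    ring

lemma tm (j d : ℕ) : (2304 : ℚ) ^ (j + d) * G j d = 2 * ((j + d + 1 : ℕ) : ℚ) *
    ((2 * (j + d + 1)).choose (j + d + 1) : ℚ) * (-(-27) ^ j * 16 ^ j / 8 * (4 ^ d * h d / d !) * Y j d) := by
  rw [cb]
  simp only [G, T, Y, show j + 1 + d = j + d + 1 by ring, h.eq_2 j, pow_succ (-27 : ℚ),
    show (2304 : ℚ) = 9 * (4 * 4 * 4 * 4) by norm_num, show (16 : ℚ) = 4 * 4 by norm_num, mul_pow]
  push_cast
  field_simp
  ring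

/-- Catalan number -/
def C (m : ℕ) : ℚ := 4 ^ m * h m / m ! / (m + 1)

lemma one (n : ℕ) : ∃ z : ℤ, S (n + 2) = 2 * ((n + 2 : ℕ) : ℚ) * ((2 * (n + 2)).choose (n + 2) : ℚ) *
    (27 * z - 4 ^ (n + 1) * h (n + 1) / (n + 1)! / 2 * (2 * n + 3) * C (2 * n + 1)) := by
  have hp : (0 : ℚ) < (2 * (n + 2)).choose (n + 2) := by exact_mod_cast Nat.choose_pos (by omega)
  obtain ⟨z, hz'⟩ := sum_int (n := n + 1) (f := fun j => (2304 : ℚ) ^ (n + 1) * G (j + 1) (n + 2 - 1 - (j + 1)) /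
      (2 * ((n + 2 : ℕ) : ℚ) * ((2 * (n + 2)).choose (n + 2) : ℚ)) / 27) fun j hj => by
    obtain ⟨d, rfl⟩ := Nat.exists_eq_add_of_le (Nat.lt_succ_iff.1 hj)
    rw [show j + d + 2 = j + 1 + d + 1 by omega] at hp ⊢
    rw [show j + d + 1 = j + 1 + d by omega, show j + 1 + d + 1 - 1 - (j + 1) = d by omega, tm,
      mul_div_cancel_left₀ _ (by positivity), ← cb]
    obtain ⟨y, hy⟩ := Yint (j + 1) d
    exact ⟨(-27) ^ j * 16 ^ j * 2 * (2 * d).choose d * y, by rw [hy]; push_cast; ring⟩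
  refine ⟨z, ?_⟩
  have e0 := tm 0 (n + 1)
  rw [zero_add] at e0
  rw [S_eq, wz cl bd, sum_range_succ', ← hz', mul_add, show n + 1 + 1 - 1 - 0 = n + 1 from rfl, e0, mul_sub,
    sub_eq_add_neg, mul_sum, mul_sum, mul_sum]
  congr 1
  · refine sum_congr rfl fun j _ => ?_
    field_simp
  · rw [Y, C, show 2 * (n + 1) = 2 * n + 1 + 1 by ring, hz_ss, hz, factorial_succ (2 * n + 1), h.eq_1]
    push_cast
    field_simp
    ring

lemma main (k : ℕ) : ∃ b : ℤ, 3 * (S (k + 2) / (2 * (k + 2 : ℕ) * (2 * (k + 2 : ℕ) + 1) *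
    ((2 * (k + 2)).choose (k + 2) : ℚ))) = b ∧ (3 ∣ b ↔ ¬ IsP (2 * (k + 2) + 1)) := by
  obtain ⟨x, hx⟩ := one k
  obtain ⟨y, hy⟩ := one (k + 1)
  obtain ⟨w, hw⟩ := even_cb k
  obtain ⟨c0, h0⟩ := cat (2 * k + 1)
  obtain ⟨c1, h1⟩ := cat (2 * (k + 1) + 1)
  obtain ⟨c2, h2⟩ := cat (2 * (k + 1) + 1 + 1)
  have hs := step (k + 1)
  rw [hw, C, h0] at hx
  rw [← cb (k + 1 + 1)] at hy
  obtain ⟨N, hN⟩ : ∃ N, N = k + 2 := ⟨_, rfl⟩
  rw [show k + 1 + 1 = N by omega, show k + 1 + 2 = N + 1 by omega] at hs hy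
  rw [← hN] at hx ⊢
  obtain ⟨M, hM⟩ : ∃ M, M = 2 * (k + 1) + 1 := ⟨_, rfl⟩
  rw [← hM] at h1 h2 hy
  have hMN : (M : ℚ) = 2 * N - 1 := by rw [hM, hN]; push_cast; ring
  have hCp : (0 : ℚ) < (2 * N).choose N := by exact_mod_cast Nat.choose_pos (by omega)
  have hNp : (0 : ℚ) < N := by rw [hN]; positivity
  have hC : ((N + 1 : ℕ) : ℚ) * ((2 * (N + 1)).choose (N + 1) : ℚ) = 2 * (2 * N + 1) * ((2 * N).choose N : ℚ) := by
    rw [cb, cb, h.eq_2 N, factorial_succ N]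
    push_cast
    field_simp
    ring
  have hZ : (2 * N + 1 : ℚ) * (4 * c1 - c2) = 6 * c1 := by
    rw [← h1, ← h2, h.eq_2, factorial_succ, show (2 * N + 1 : ℚ) = M + 2 by rw [hMN]; ring]
    push_cast
    field_simp
    ring
  have h4 : (((4 * N)! : ℚ) / (N ! : ℚ) ^ 4) = ((2 * N).choose N : ℚ) ^ 2 * (2 * N + 1) * c2 := by
    rw [← h2, h_eq, show M + 1 = 2 * N by omega, show 2 * (2 * N) = 4 * N by ring, Nat.cast_choose ℚ (by omega),
      show 2 * N - N = N by omega]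
    push_cast
    field_simp
  set q := S N / (2 * N * (2 * N + 1) * ((2 * N).choose N : ℚ)) with hq
  have ha : S N = 2 * N * (2 * N + 1) * ((2 * N).choose N : ℚ) * q := by rw [hq]; field_simp
  have I : (2 * N + 1) * q = 27 * x - w * (2 * k + 3) * c0 := by
    apply mul_left_cancel₀ (show 2 * N * ((2 * N).choose N : ℚ) ≠ 0 by positivity)
    linear_combination hx - ha
  have II : 128 * N * (3 * q) = 9 * y - N ^ 2 * (((2 * N).choose N : ℚ) * (4 * c1 - c2)) := by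
    rw [hy, mul_assoc 2, hC, ha, h4, C, h1] at hs
    apply mul_left_cancel₀ (show 12 * (2 * N + 1) * ((2 * N).choose N : ℚ) ≠ 0 by positivity)
    have hk : (k : ℚ) = N - 2 := by rw [hN]; push_cast; ring
    push_cast at hs
    rw [hk] at hs
    linear_combination -hs + (2 * N + 1) * ((2 * N).choose N : ℚ) ^ 2 * (6 * N + 1) * hZ
  obtain ⟨b, hb⟩ := int_of_coprime (q := 3 * q) (a := 2 * N + 1) (b := 2 ^ 6 * (2 * N))
    (x := 3 * (27 * x - w * (2 * k + 3) * c0)) (y := 9 * y - N ^ 2 * (((2 * N).choose N : ℤ) * (4 * c1 - c2)))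
    (IsCoprime.mul_right (IsCoprime.pow_right ⟨1, -(N : ℤ), by ring⟩) ⟨1, -1, by ring⟩)
    (by push_cast; linear_combination 3 * I) (by push_cast; linear_combination II)
  refine ⟨b, hb, ?_⟩
  by_cases h3 : N % 3 = 1
  · obtain ⟨m, hm⟩ : ∃ m, N = 3 * m + 1 := ⟨N / 3, by omega⟩
    obtain ⟨Z, hZ'⟩ : ∃ Z : ℤ, Z = ((2 * N).choose N : ℤ) * (4 * c1 - c2) := ⟨_, rfl⟩
    have e1 : (128 * N * b : ℤ) = 9 * y - N ^ 2 * Z := by
      rw [hb] at II
      rw [hZ']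
      exact_mod_cast II
    have e4 : (Z : ℚ) * (N ! * N ! * (2 * N + 1)! : ℕ) = (3 * (4 * N) * (2 * M)! : ℕ) := by
      rw [hZ']
      push_cast
      rw [show (4 * c1 - c2 : ℚ) = 6 * c1 / (2 * N + 1) by rw [← hZ]; field_simp, ← h1, h_eq,
        Nat.cast_choose ℚ (by omega), show 2 * N - N = N by omega, factorial_succ,
        show 2 * N = M + 1 by omega, factorial_succ]
      push_cast
      rw [hMN]
      field_simp
      ring
    have e5 := congrArg Int.natAbs (show Z * _ = _ by exact_mod_cast e4)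
    rw [Int.natAbs_mul, Int.natAbs_natCast, Int.natAbs_natCast] at e5
    have e6 := dvd_iff (factorial_ne_zero _) (by positivity) (by omega) e5
    rw [padicValNat.mul (by positivity) (factorial_ne_zero _),
      padicValNat.mul (factorial_ne_zero _) (factorial_ne_zero _), ← L, ← L, ← L,
      Lq N m (by omega), Lq (2 * N + 1) (2 * m + 1) (by omega), Lq (2 * M) (4 * m + 0) (by omega)] at e6
    rw [show 2 * N + 1 = 3 * (2 * m + 1) by omega, isP3, ← phi m 0 (by omega)]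
    rw [hm] at e1
    push_cast at e1
    have : b = 3 * (43 * b + 128 * m * b - 3 * y + (3 * m ^ 2 + 2 * m) * Z) + Z := by linear_combination -e1
    constructor <;> intro h <;> omega
  · refine iff_of_true ?_ (notP (by omega) (by omega))
    have : (2 * N + 1) * b = 3 * (27 * x - w * (2 * k + 3) * c0) := by
      have : (2 * N + 1 : ℚ) * b = 3 * (27 * x - w * (2 * k + 3) * c0) := by rw [← hb, ← I]; ring
      exact_mod_cast this
    exact (Int.prime_three.dvd_mul.1 (Dvd.intro _ this.symm)).resolve_left (by omega)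

end Pool.Agent.H54.S2304
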