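import Pool.Agent.H54.WZ2

namespace Pool.Agent.H54.SuperCat

open Nat Finset

lemma flo (a b e q : ℕ) (he : e ≤ 1) (hq : 2 ≤ q) :
    a / q + a / q + b / q + (a + 2 * b + e) / q ≤ (3 * a + e) / q + 3 * b / q := by
  obtain ⟨x, r, hr, rfl⟩ : ∃ x r, r < q ∧ a = r + q * x :=
    ⟨a / q, a % q, Nat.mod_lt _ (by omega), (Nat.mod_add_div _ _).symm⟩
  obtain ⟨y, s, hs, rfl⟩ : ∃ y s, s < q ∧ b = s + q * y :=
    ⟨b / q, b % q, Nat.mod_lt _ (by omega), (Nat.mod_add_div _ _).symm⟩
  have q0 : 0 < q := by omega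
  rw [show r + q * x + 2 * (s + q * y) + e = r + 2 * s + e + q * (x + 2 * y) by ring,
    show 3 * (r + q * x) + e = 3 * r + e + q * (3 * x) by ring, show 3 * (s + q * y) = 3 * s + q * (3 * y) by ring]
  simp only [Nat.add_mul_div_left _ _ q0, Nat.div_eq_of_lt hr, Nat.div_eq_of_lt hs]
  have A : ∀ t k, k ≤ t / q ↔ k * q ≤ t := fun t k => Nat.le_div_iff_mul_le q0
  have := A (r + 2 * s + e) 1
  have := A (r + 2 * s + e) 2
  have := A (r + 2 * s + e) 3
  have := A (3 * r + e) 1
  have := A (3 * r + e) 2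
  have := A (3 * s) 1
  have := A (3 * s) 2
  generalize (r + 2 * s + e) / q = i at *
  generalize (3 * r + e) / q = j at *
  generalize (3 * s) / q = k at *
  omega

lemma Zint (a b e : ℕ) (he : e ≤ 1) :
    ∃ z : ℤ, ((3 * a + e)! * (3 * b)! : ℚ) / (a ! * a ! * b ! * (a + 2 * b + e)!) = z := by
  have : a ! * a ! * b ! * (a + 2 * b + e)! ∣ (3 * a + e)! * (3 * b)! := by
    rw [← factorization_prime_le_iff_dvd (by positivity) (by positivity)]
    intro p hp
    have B : ∀ n, n ≤ 3 * a + 3 * b + 1 → (n !).factorization p = ∑ i ∈ Ico 1 (3 * a + 3 * b + 2), n / p ^ i :=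
      fun n hn => factorization_factorial hp ((Nat.log_le_self _ _).trans_lt (by omega))
    rw [Nat.factorization_mul (by positivity) (by positivity), Nat.factorization_mul (by positivity) (by positivity),
      Nat.factorization_mul (by positivity) (by positivity), Nat.factorization_mul (by positivity) (by positivity)]
    simp only [Finsupp.add_apply]
    rw [B a (by omega), B b (by omega), B (a + 2 * b + e) (by omega), B (3 * a + e) (by omega),
      B (3 * b) (by omega)]
    simp only [← sum_add_distrib]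
    exact sum_le_sum fun i hi => flo a b e _ he
      (hp.two_le.trans (le_self_pow (by have := (mem_Ico.1 hi).1; omega) _))
  obtain ⟨c, hc⟩ := this
  refine ⟨c, ?_⟩
  have : ((3 * a + e)! * (3 * b)! : ℚ) = a ! * a ! * b ! * (a + 2 * b + e)! * c := by exact_mod_cast hc
  rw [this]
  push_cast
  field_simp

/-- `1/(a-b)!`, and zero for `a < b` -/
def iv (a : ℕ) : ℕ → ℚ
  | 0 => 1 / a !
  | b + 1 => iv a b * (a - b)

lemma iv_ss (a b : ℕ) : iv (a + 1) (b + 1) = iv a b := by
  induction b with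
  | zero => simp only [iv, factorial_succ]; push_cast; field_simp; ring
  | succ b ih => rw [iv, ih, iv]; push_cast; ring

lemma iv_add (b c : ℕ) : iv (b + c) b = 1 / c ! := by
  induction b with
  | zero => simp [iv]
  | succ b ih => rw [show b + 1 + c = b + c + 1 by ring, iv_ss, ih]

lemma iv_lt (a c : ℕ) : iv a (a + c + 1) = 0 := by
  induction c with
  | zero => simp [iv]
  | succ c ih => rw [← add_assoc, iv, ih, zero_mul]

/-- the rising factorial of one half at the integer `a - b` -/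
def hz (a : ℕ) : ℕ → ℚ
  | 0 => h a
  | b + 1 => hz a b * (2 / (2 * a - 2 * b - 1))

lemma od (a b : ℕ) : (2 * a - 2 * b - 1 : ℚ) ≠ 0 := by
  intro h
  have : (2 * a - 2 * b - 1 : ℤ) = 0 := by exact_mod_cast h
  omega

lemma hz_ss (a b : ℕ) : hz (a + 1) (b + 1) = hz a b := by
  induction b with
  | zero =>
    simp only [hz, h]
    push_cast
    rw [show (2 * ((a : ℚ) + 1) - 2 * 0 - 1) = 2 * a + 1 by ring]
    field_simp
  | succ b ih => rw [hz, ih, hz]; push_cast; ring

lemma hz_s (a b : ℕ) : hz (a + 1) b = hz a b * ((2 * a - 2 * b + 1) / 2) := by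
  have := od (a + 1) b
  rw [← hz_ss a b, hz]
  push_cast at this ⊢
  rw [show (2 * (a : ℚ) - 2 * b + 1) = 2 * (a + 1) - 2 * b - 1 by ring]
  generalize (2 * ((a : ℚ) + 1) - 2 * b - 1) = t at this ⊢
  field_simp

lemma sz (a M : ℕ) : ∃ z : ℤ, 4 ^ M * h a * hz M a / M ! = z := by
  induction a generalizing M with
  | zero => exact ⟨(2 * M).choose M, by rw [Int.cast_natCast, cb]; simp [h, hz]⟩
  | succ a ih =>
    cases M with
    | zero =>
      obtain ⟨x, hx⟩ := ih 0
      refine ⟨-x, ?_⟩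
      push_cast
      rw [← hx, h, hz]
      push_cast
      rw [show (2 * 0 - 2 * (a : ℚ) - 1) = -(2 * a + 1) by ring]
      field_simp
    | succ M =>
      obtain ⟨x, hx⟩ := ih M
      obtain ⟨y, hy⟩ := ih (M + 1)
      refine ⟨4 * x - y, ?_⟩
      push_cast
      rw [← hx, ← hy, hz_ss, hz_s, h, factorial_succ]
      push_cast
      field_simp
      ring

lemma chi (m : ℕ) (hm : 1 ≤ m) : 2 * L m + L (2 * m) + 1 ≤ L (4 * m) := by
  induction m using Nat.strong_induction_on with
  | _ m ih =>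
    have h1 := Ladd (m / 3) (m / 3) (2 * (m / 3)) (by omega)
    rw [Lq m _ rfl]
    rcases (show m % 3 = 0 ∨ m % 3 = 1 ∨ m % 3 = 2 by omega) with h | h | h
    · rw [Lq (2 * m) (2 * (m / 3)) (by omega), Lq (4 * m) (4 * (m / 3)) (by omega)]
      have := ih (m / 3) (by omega) (by omega)
      omega
    · rw [Lq (2 * m) (2 * (m / 3)) (by omega), Lq (4 * m) (4 * (m / 3) + 1) (by omega)]
      have := Ladd (2 * (m / 3)) (2 * (m / 3)) (4 * (m / 3) + 1) (by omega)
      omega
    · rw [Lq (2 * m) (2 * (m / 3) + 1) (by omega), Lq (4 * m) (4 * (m / 3) + 2) (by omega)]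
      have := Ladd (2 * (m / 3)) (2 * (m / 3) + 1) (4 * (m / 3) + 2) (by omega)
      omega

lemma phi (m d : ℕ) (hd : d ≤ 1) : 2 * L m + L (2 * m + 1) + 1 ≤ L (4 * m + d) ↔ ¬ IsP (2 * m + 1) := by
  induction m using Nat.strong_induction_on generalizing d with
  | _ m ih =>
    have h1 := Ladd (m / 3) (m / 3) (2 * (m / 3)) (by omega)
    rcases Nat.eq_zero_or_pos m with rfl | m0
    · rw [Lq (4 * 0 + d) 0 (by omega), L0]
      exact iff_of_false (by omega) (not_not.2 ⟨0, rfl⟩)
    rw [Lq m _ rfl]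
    rcases (show m % 3 = 0 ∨ m % 3 = 1 ∨ m % 3 = 2 by omega) with h | h | h
    · rw [Lq (2 * m + 1) (2 * (m / 3)) (by omega), Lq (4 * m + d) (4 * (m / 3)) (by omega)]
      have := chi (m / 3) (by omega)
      exact iff_of_true (by omega) (notP (by omega) (by omega))
    · rw [Lq (2 * m + 1) (2 * (m / 3) + 1) (by omega), Lq (4 * m + d) (4 * (m / 3) + 1) (by omega),
        show 2 * m + 1 = 3 * (2 * (m / 3) + 1) by omega, isP3, ← ih (m / 3) (by omega) 1 le_rfl]
      omega
    · rw [Lq (2 * m + 1) (2 * (m / 3) + 1) (by omega), Lq (4 * m + d) (4 * (m / 3) + 2 + d) (by omega)]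
      have := Ladd (2 * (m / 3)) (2 * (m / 3) + 1) (4 * (m / 3) + 2 + d) (by omega)
      exact iff_of_true (by omega) (notP (by omega) (by omega))

end Pool.Agent.H54.SuperCat
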