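import Mathlib
import Pool.Agent.H54.WZ3

namespace Pool.Agent.H54.Sev

open Nat Finset Pool.Agent.H54.SuperCat

def g (n j : ℕ) : ℚ := 256 ^ n * (n + 1) * (2 * j + 1) * (hz n j * h (n + j + 1) * iv n (2 * j) / (n + 2 * j + 2)!) ^ 2
def f (n j : ℕ) : ℚ := 256 ^ n / 16 * (hz n j * h (n + j) * iv n (2 * j) / (n + 2 * j)!) ^ 2 *
  (21 * n ^ 3 + 22 * n ^ 2 + 8 * n + 1 - 4 * j ^ 2 * (3 * n + 1))

lemma cl (n j : ℕ) : (2 * n + 3) ^ 3 * g (n + 1) j - 32 * (n + 1) ^ 3 * g n j = f (n + 1) j - f (n + 1) (j + 1) := by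
  have e1 : iv n (2 * j) = iv (n + 1) (2 * j) * (n + 1 - 2 * j) := by
    rw [← iv_ss n (2 * j), iv]; push_cast; ring
  have e2 : iv (n + 1) (2 * (j + 1)) = iv (n + 1) (2 * j) * (n + 1 - 2 * j) * (n - 2 * j) := by
    rw [show 2 * (j + 1) = 2 * j + 1 + 1 by ring, iv, iv]; push_cast; ring
  simp only [g, f, hz_ss, hz_s, e2, show n + 1 + j + 1 = n + j + 1 + 1 by ring, show n + 1 + j = n + j + 1 by ring,
    show n + 1 + (j + 1) = n + j + 1 + 1 by ring, show n + 1 + 2 * j + 2 = n + 2 * j + 1 + 1 + 1 by ring,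
    show n + 2 * j + 2 = n + 2 * j + 1 + 1 by ring, show n + 1 + 2 * j = n + 2 * j + 1 by ring,
    show n + 1 + 2 * (j + 1) = n + 2 * j + 1 + 1 + 1 by ring, factorial_succ (n + 2 * j + 1 + 1),
    factorial_succ (n + 2 * j + 1), h.eq_2 (n + j + 1), pow_succ (256 : ℚ)]
  rw [e1]
  push_cast
  field_simp
  ring

def b (n : ℕ) : ℚ := ∑ j ∈ range (n + 1), g n j

lemma f0 (n : ℕ) : f (n + 1) 0 = (21 * (n + 1) ^ 3 + 22 * (n + 1) ^ 2 + 8 * (n + 1) + 1) *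
    ((2 * (n + 1) - 1).choose (n + 1) : ℚ) ^ 4 := by
  have e : ((2 * (n + 1) - 1).choose (n + 1) : ℚ) = 4 ^ (n + 1) * h (n + 1) / (n + 1)! / 2 := by
    rw [← cb, show 2 * (n + 1) - 1 = 2 * n + 1 by omega, show 2 * (n + 1) = 2 * n + 1 + 1 by ring,
      Nat.choose_succ_succ' (2 * n + 1) n, ← Nat.choose_symm_half n]
    push_cast; ring
  rw [e, f, show (256 : ℚ) = 4 ^ 4 by norm_num, ← pow_mul, mul_comm 4 (n + 1), pow_mul]
  simp only [hz, iv, mul_zero, add_zero]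
  push_cast
  field_simp
  ring

lemma b_rec (n : ℕ) : (2 * n + 3) ^ 3 * b (n + 1) = 32 * (n + 1) ^ 3 * b n +
    (21 * (n + 1) ^ 3 + 22 * (n + 1) ^ 2 + 8 * (n + 1) + 1) * ((2 * (n + 1) - 1).choose (n + 1) : ℚ) ^ 4 := by
  have e1 : b n = ∑ j ∈ range (n + 2), g n j := by
    rw [sum_range_succ, b, g, show 2 * (n + 1) = n + (n + 1) + 1 by ring, iv_lt]; simp
  have e2 : f (n + 1) (n + 2) = 0 := by
    rw [f, show 2 * (n + 2) = n + 1 + (n + 2) + 1 by ring, iv_lt]; simp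
  have e3 := Finset.sum_range_sub' (f (n + 1)) (n + 2)
  rw [← f0, e1, b, mul_sum, mul_sum, ← sub_eq_iff_eq_add', ← sum_sub_distrib]
  simp only [cl]
  rw [e3, e2, sub_zero]

lemma hz_ad (c : ℕ) : ∀ j, hz (j + c) j = h c
  | 0 => by simp [hz]
  | j + 1 => by rw [show j + 1 + c = j + c + 1 by ring, hz_ss, hz_ad c j]

lemma g_int (n j : ℕ) : ∃ z : ℤ, 64 * g n j = z := by
  rcases lt_or_ge n (2 * j) with hl | hl
  · obtain ⟨c, hc⟩ : ∃ c, 2 * j = n + c + 1 := ⟨2 * j - n - 1, by omega⟩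
    exact ⟨0, by rw [g, hc, iv_lt]; simp⟩
  · obtain ⟨d, rfl⟩ := Nat.exists_eq_add_of_le hl
    obtain ⟨s, hs⟩ := sc (j + d) (3 * j + d + 1)
    obtain ⟨x, hx⟩ := bin d (4 * j + d + 1)
    obtain ⟨y, hy⟩ := bin d (4 * j + d + 1 + 1)
    refine ⟨s ^ 2 * y * (2 * x - y), ?_⟩
    push_cast
    rw [← hs, ← hx, ← hy, g, iv_add, show 2 * j + d = j + (j + d) by ring, hz_ad,
      show j + (j + d) + j + 1 = 3 * j + d + 1 by ring, show j + (j + d) + 2 * j + 2 = 4 * j + d + 1 + 1 by ring,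
      show d + (4 * j + d + 1 + 1) = 4 * j + 2 * d + 1 + 1 by ring, show d + (4 * j + d + 1) = 4 * j + 2 * d + 1 by ring,
      show j + d + (3 * j + d + 1) = 4 * j + 2 * d + 1 by ring, factorial_succ (4 * j + 2 * d + 1),
      factorial_succ (4 * j + d + 1), show (256 : ℚ) = 4 ^ 4 by norm_num, ← pow_mul]
    push_cast
    field_simp
    ring


def g2 (n j : ℕ) : ℚ := 256 ^ n / 16 * (2 * n + 1) * (2 * j + 1) * (hz n (2 * j + 1) * h (n + 2 * j + 1) * iv n j / (n + j + 1)!) ^ 2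
def f2 (n j : ℕ) : ℚ := 256 ^ n / 16 * (hz n (2 * j) * h (n + 2 * j) * iv n j / (n + j)!) ^ 2 *
  (168 * n ^ 3 + 76 * n ^ 2 + 14 * n + 1 - 16 * j ^ 2 * (6 * n + 1))

lemma cl2 (n j : ℕ) : (2 * n + 3) ^ 3 * g2 (n + 1) j - 2 ^ 17 * (n + 1) ^ 3 * g2 n j = f2 (n + 1) j - f2 (n + 1) (j + 1) := by
  have e1 : iv n j = iv (n + 1) j * (n + 1 - j) := by
    rw [← iv_ss n j, iv]; push_cast; ring
  have e2 : iv (n + 1) (j + 1) = iv (n + 1) j * (n + 1 - j) := by rw [iv_ss, e1]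
  have e3 : hz (n + 1) (2 * j + 1) = hz n (2 * j + 1) * ((2 * n - 4 * j - 1) / 2) := by
    rw [hz_s]; push_cast; ring
  have e4 : hz (n + 1) (2 * j) = hz n (2 * j + 1) * ((2 * n - 4 * j - 1) / 2) * ((2 * n - 4 * j + 1) / 2) := by
    rw [hz_s, ← hz_ss n (2 * j), e3]; push_cast; ring
  have e5 : hz (n + 1) (2 * (j + 1)) = hz n (2 * j + 1) := by rw [show 2 * (j + 1) = 2 * j + 1 + 1 by ring, hz_ss]
  simp only [g2, f2, e2, e3, e4, e5, show n + 1 + 2 * j = n + 2 * j + 1 by ring,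
    show n + 1 + 2 * (j + 1) = n + 2 * j + 1 + 1 + 1 by ring, show n + 1 + j = n + j + 1 by ring,
    show n + 1 + (j + 1) = n + j + 1 + 1 by ring, factorial_succ (n + j + 1),
    h.eq_2 (n + 2 * j + 1 + 1), h.eq_2 (n + 2 * j + 1), pow_succ (256 : ℚ)]
  rw [e1]
  push_cast
  field_simp
  ring

def b2 (n : ℕ) : ℚ := ∑ j ∈ range (n + 1), g2 n j

lemma f20 (n : ℕ) : f2 (n + 1) 0 = (168 * (n + 1) ^ 3 + 76 * (n + 1) ^ 2 + 14 * (n + 1) + 1) *
    ((2 * (n + 1) - 1).choose (n + 1) : ℚ) ^ 4 := by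
  have e : ((2 * (n + 1) - 1).choose (n + 1) : ℚ) = 4 ^ (n + 1) * h (n + 1) / (n + 1)! / 2 := by
    rw [← cb, show 2 * (n + 1) - 1 = 2 * n + 1 by omega, show 2 * (n + 1) = 2 * n + 1 + 1 by ring,
      Nat.choose_succ_succ' (2 * n + 1) n, ← Nat.choose_symm_half n]
    push_cast; ring
  rw [e, f2, show (256 : ℚ) = 4 ^ 4 by norm_num, ← pow_mul, mul_comm 4 (n + 1), pow_mul]
  simp only [hz, iv, mul_zero, add_zero]
  push_cast
  field_simp
  ring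

lemma b2_rec (n : ℕ) : (2 * n + 3) ^ 3 * b2 (n + 1) = 2 ^ 17 * (n + 1) ^ 3 * b2 n +
    (168 * (n + 1) ^ 3 + 76 * (n + 1) ^ 2 + 14 * (n + 1) + 1) * ((2 * (n + 1) - 1).choose (n + 1) : ℚ) ^ 4 := by
  have e1 : b2 n = ∑ j ∈ range (n + 2), g2 n j := by
    rw [sum_range_succ, b2, g2, show iv n (n + 1) = 0 from iv_lt n 0]; simp
  have e2 : f2 (n + 1) (n + 2) = 0 := by
    rw [f2, show iv (n + 1) (n + 2) = 0 from iv_lt (n + 1) 0]; simp
  have e3 := Finset.sum_range_sub' (f2 (n + 1)) (n + 2)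
  rw [← f20, e1, b2, mul_sum, mul_sum, ← sub_eq_iff_eq_add', ← sum_sub_distrib]
  simp only [cl2]
  rw [e3, e2, sub_zero]

lemma hz_sh (a b : ℕ) : ∀ c, hz (a + c) (b + c) = hz a b
  | 0 => rfl
  | c + 1 => by rw [← add_assoc, ← add_assoc, hz_ss, hz_sh a b c]

lemma g2_int (j d : ℕ) : ∃ z : ℤ, 16 * g2 (j + d) j = z := by
  obtain ⟨s, hs⟩ := sz (j + d + 2 * j + 1) (j + d + (j + d))
  obtain ⟨x, hx⟩ := bin d (2 * j + d)
  obtain ⟨y, hy⟩ := bin d (2 * j + d + 1)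
  have e := hz_sh (j + d) (2 * j + 1) (j + d)
  rw [show 2 * j + 1 + (j + d) = j + d + 2 * j + 1 by ring] at e
  refine ⟨s ^ 2 * y * (2 * x - y), ?_⟩
  push_cast
  rw [← hs, ← hx, ← hy, g2, iv_add, e, show j + d + j + 1 = 2 * j + d + 1 by ring,
    show d + (2 * j + d + 1) = j + d + (j + d) + 1 by ring, show d + (2 * j + d) = j + d + (j + d) by ring,
    factorial_succ (j + d + (j + d)), factorial_succ (2 * j + d), show (256 : ℚ) = 4 ^ 4 by norm_num, ← pow_mul]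
  push_cast
  field_simp
  ring

/-- integrality from a recurrence with odd leading coefficient -/
lemma fin2 (b : ℕ → ℚ) (c : ℤ) (P : ℕ → ℤ) (h0 : b 0 = 1 / 16)
    (hr : ∀ n : ℕ, (2 * n + 3) ^ 3 * b (n + 1) = 16 * c * (n + 1) ^ 3 * b n + P n)
    (h64 : ∀ n, ∃ z : ℤ, 64 * b n = z) : ∀ n, ∃ z : ℤ, b (n + 1) = z := by
  have A : ∀ m : ℕ, ∃ o z : ℤ, Odd o ∧ o * b (m + 1) = z := by
    intro m
    induction m with
    | zero =>
      refine ⟨27, c + P 0, by decide, ?_⟩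
      have := hr 0
      rw [h0] at this; push_cast at this ⊢; linear_combination this
    | succ m ih =>
      obtain ⟨o, z, ho, hz⟩ := ih
      refine ⟨(2 * (m + 2) + 1) ^ 3 * o, 16 * c * (m + 2) ^ 3 * z + o * P (m + 1),
        (Odd.pow ⟨(m : ℤ) + 2, rfl⟩).mul ho, ?_⟩
      have e := hr (m + 1)
      push_cast at e ⊢; rw [← hz]; linear_combination (o : ℚ) * e
  intro m
  obtain ⟨o, z, ho, hz⟩ := A m
  obtain ⟨w, hw⟩ := h64 (m + 1)
  refine int_of_coprime (a := 2 ^ 6) (b := o) (IsCoprime.pow_left ?_) (by push_cast; exact hw) hz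
  obtain ⟨c, rfl⟩ := ho
  exact ⟨-c, 1, by ring⟩

lemma b0 : b 0 = 1 / 16 := by simp [b, g, hz, iv, h, factorial]; norm_num
lemma b20 : b2 0 = 1 / 16 := by simp [b2, g2, hz, iv, h, factorial]; norm_num

lemma b_int (n : ℕ) : ∃ z : ℤ, b (n + 1) = z :=
  fin2 b 2 (fun n => (21 * (n + 1) ^ 3 + 22 * (n + 1) ^ 2 + 8 * (n + 1) + 1) * ((2 * (n + 1) - 1).choose (n + 1) : ℤ) ^ 4)
    b0 (fun n => by rw [b_rec]; push_cast; ring) (fun n => by
      rw [b, mul_sum]; exact sum_int (fun j _ => g_int n j)) n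

lemma b2_int (n : ℕ) : ∃ z : ℤ, b2 (n + 1) = z :=
  fin2 b2 (2 ^ 13) (fun n => (168 * (n + 1) ^ 3 + 76 * (n + 1) ^ 2 + 14 * (n + 1) + 1) * ((2 * (n + 1) - 1).choose (n + 1) : ℤ) ^ 4)
    b20 (fun n => by rw [b2_rec]; push_cast; ring) (fun n => by
      rw [b2, mul_sum]
      refine sum_int (fun j hj => ?_)
      obtain ⟨d, rfl⟩ := Nat.exists_eq_add_of_le (Nat.lt_succ_iff.1 hj)
      obtain ⟨z, hz⟩ := g2_int j d
      exact ⟨4 * z, by push_cast; rw [← hz]; ring⟩) n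

/-- the partial sum equals `2 N^3 C(2N,N)^3 b (N-1)` -/
lemma sum_eq (b : ℕ → ℚ) (c : ℚ) (P : ℕ → ℚ) (h0 : b 0 = 1 / 16) (hP : P 0 = 1)
    (hr : ∀ n : ℕ, (2 * n + 3) ^ 3 * b (n + 1) = c / 8 * (n + 1) ^ 3 * b n +
      P (n + 1) * ((2 * (n + 1) - 1).choose (n + 1) : ℚ) ^ 4) (n : ℕ) :
    ∑ k ∈ range (n + 1), P k * ((2 * k).choose k : ℚ) ^ 7 * c ^ (n + 1 - 1 - k) =
      2 * ((n + 1 : ℕ) : ℚ) ^ 3 * ((2 * (n + 1)).choose (n + 1) : ℚ) ^ 3 * b n := by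
  induction n with
  | zero => simp [h0, hP]; norm_num
  | succ n ih =>
    have e1 : ∑ k ∈ range (n + 1), P k * ((2 * k).choose k : ℚ) ^ 7 * c ^ (n + 1 + 1 - 1 - k) =
        c * ∑ k ∈ range (n + 1), P k * ((2 * k).choose k : ℚ) ^ 7 * c ^ (n + 1 - 1 - k) := by
      rw [mul_sum]; refine sum_congr rfl (fun k hk => ?_)
      rw [show n + 1 + 1 - 1 - k = n + 1 - 1 - k + 1 by have := mem_range.1 hk; omega, pow_succ]; ring
    have hC : ((n + 1 + 1 : ℕ) : ℚ) * ((2 * (n + 1 + 1)).choose (n + 1 + 1) : ℚ) =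
        2 * (2 * n + 3) * ((2 * (n + 1)).choose (n + 1) : ℚ) := by
      rw [cb, cb, h.eq_2 (n + 1), factorial_succ (n + 1)]
      push_cast
      field_simp
      ring
    have e : ((2 * (n + 1)).choose (n + 1) : ℚ) = 2 * ((2 * (n + 1) - 1).choose (n + 1) : ℚ) := by
      rw [show 2 * (n + 1) - 1 = 2 * n + 1 by omega, show 2 * (n + 1) = 2 * n + 1 + 1 by ring,
        Nat.choose_succ_succ' (2 * n + 1) n, ← Nat.choose_symm_half n]
      push_cast; ring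
    rw [sum_range_succ, e1, ih, mul_assoc 2 (((n + 1 + 1 : ℕ) : ℚ) ^ 3), ← mul_pow, hC,
      show n + 1 + 1 - 1 - (n + 1) = 0 by omega, e]
    have := hr n
    push_cast
    linear_combination (-128 * ((2 * (n + 1) - 1).choose (n + 1) : ℚ) ^ 3) * this

end Pool.Agent.H54.Sev
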