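import Mathlib

set_option autoImplicit false
set_option linter.unusedSectionVars false

namespace Pool.Agent.H54.Spec

open Matrix Finset

variable {n : Type} [Fintype n] [DecidableEq n]

lemma psd_sSup (A : Matrix n n ℝ) (hA : A.IsHermitian) (c : ℝ) (hc : sSup (spectrum ℝ A) ≤ c) :
    (c • (1 : Matrix n n ℝ) - A).PosSemidef := by
  rw [posSemidef_iff_isHermitian_and_spectrum_nonneg]
  refine ⟨(isHermitian_one.smul (IsSelfAdjoint.all c)).sub hA, ?_⟩
  rw [← Algebra.algebraMap_eq_smul_one, ← spectrum.singleton_sub_eq]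
  rintro _ ⟨a, ha, b, hb, rfl⟩
  rw [Set.mem_singleton_iff] at ha
  subst ha
  have := le_csSup A.finite_real_spectrum.bddAbove hb
  simp only [Set.mem_ofPred_eq, sub_nonneg]
  linarith

lemma rayleigh (A : Matrix n n ℝ) (hA : A.IsHermitian) (x : n → ℝ) :
    x ⬝ᵥ A *ᵥ x ≤ sSup (spectrum ℝ A) * (x ⬝ᵥ x) := by
  have := (psd_sSup A hA _ le_rfl).dotProduct_mulVec_nonneg x
  rw [sub_mulVec, smul_mulVec, one_mulVec, dotProduct_sub, dotProduct_smul, star_trivial,
    smul_eq_mul] at this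
  linarith

lemma eq_of_rayleigh (A : Matrix n n ℝ) (hA : A.IsHermitian) (c : ℝ)
    (hc : sSup (spectrum ℝ A) ≤ c) (x : n → ℝ) (hx : x ⬝ᵥ A *ᵥ x = c * (x ⬝ᵥ x)) :
    A *ᵥ x = c • x := by
  have := ((psd_sSup A hA c hc).dotProduct_mulVec_zero_iff x).mp (by
    rw [sub_mulVec, smul_mulVec, one_mulVec, dotProduct_sub, dotProduct_smul, star_trivial,
      smul_eq_mul, hx, sub_self])
  rw [sub_mulVec, smul_mulVec, one_mulVec, sub_eq_zero] at this
  exact this.symm

lemma mem_spectrum_of_eigen {K : Type} [Field K] (A : Matrix n n K) (μ : K) (x : n → K)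
    (hx : x ≠ 0) (h : A *ᵥ x = μ • x) : μ ∈ spectrum K A := by
  rw [← spectrum_toLin', ← Module.End.hasEigenvalue_iff_mem_spectrum]
  exact Module.End.hasEigenvalue_of_hasEigenvector
    ⟨Module.End.mem_eigenspace_iff.mpr (by rw [toLin'_apply, h]), hx⟩

lemma adj_herm (G : SimpleGraph n) [DecidableRel G.Adj] : (G.adjMatrix ℝ).IsHermitian := by
  rw [IsHermitian, conjTranspose_eq_transpose_of_trivial, SimpleGraph.transpose_adjMatrix]

lemma sSup_le_deg (G : SimpleGraph n) [DecidableRel G.Adj] (d : ℕ)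
    (hd : ∀ v, G.degree v ≤ d) : sSup (spectrum ℝ (G.adjMatrix ℝ)) ≤ d := by
  apply Real.sSup_le _ (Nat.cast_nonneg d)
  intro μ hμ
  rw [← spectrum_toLin', ← Module.End.hasEigenvalue_iff_mem_spectrum] at hμ
  obtain ⟨k, hk⟩ := eigenvalue_mem_ball hμ
  rw [Metric.mem_closedBall, SimpleGraph.adjMatrix_apply, if_neg (G.irrefl), dist_zero_right]
    at hk
  have h1 : ∑ j ∈ univ.erase k, ‖G.adjMatrix ℝ k j‖ ≤ ∑ j, ‖G.adjMatrix ℝ k j‖ :=
    sum_le_sum_of_subset_of_nonneg (erase_subset _ _) (fun _ _ _ => norm_nonneg _)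
  have h2 : ∑ j, ‖G.adjMatrix ℝ k j‖ = G.degree k := by
    rw [← SimpleGraph.card_neighborFinset_eq_degree, SimpleGraph.neighborFinset_eq_filter,
      natCast_card_filter]
    refine sum_congr rfl (fun j _ => ?_)
    rw [SimpleGraph.adjMatrix_apply]
    split_ifs <;> simp
  have h3 : (G.degree k : ℝ) ≤ d := by exact_mod_cast hd k
  linarith [le_abs_self μ, Real.norm_eq_abs μ]

lemma one_adj_one (G : SimpleGraph n) [DecidableRel G.Adj] :
    (fun _ => (1 : ℝ)) ⬝ᵥ (G.adjMatrix ℝ) *ᵥ (fun _ => 1) = 2 * (G.edgeSet.ncard : ℝ) := by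
  have h1 : ∀ v, ((G.adjMatrix ℝ) *ᵥ (fun _ => (1 : ℝ))) v = G.degree v := by
    intro v
    rw [SimpleGraph.adjMatrix_mulVec_apply, sum_const, SimpleGraph.card_neighborFinset_eq_degree]
    simp
  simp only [dotProduct, h1, one_mul]
  rw [← Nat.cast_sum, SimpleGraph.sum_degrees_eq_twice_card_edges,
    Set.ncard_eq_toFinset_card']
  simp [SimpleGraph.edgeFinset]

lemma avg_le_sSup (G : SimpleGraph n) [DecidableRel G.Adj] :
    2 * (G.edgeSet.ncard : ℝ) ≤ sSup (spectrum ℝ (G.adjMatrix ℝ)) * Fintype.card n := by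
  have := rayleigh _ (adj_herm G) (fun _ => 1)
  rw [one_adj_one] at this
  simpa [dotProduct] using this

lemma regular_of_le (G : SimpleGraph n) [DecidableRel G.Adj] (d : ℕ)
    (h1 : sSup (spectrum ℝ (G.adjMatrix ℝ)) ≤ d)
    (h2 : 2 * G.edgeSet.ncard = d * Fintype.card n) (v : n) : G.degree v = d := by
  have h3 := eq_of_rayleigh _ (adj_herm G) d h1 (fun _ => 1) (by
    rw [one_adj_one]
    have : (2 * (G.edgeSet.ncard : ℝ)) = d * Fintype.card n := by exact_mod_cast h2
    rw [this]; simp [dotProduct])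
  have h4 := congrFun h3 v
  rw [SimpleGraph.adjMatrix_mulVec_apply, sum_const, SimpleGraph.card_neighborFinset_eq_degree]
    at h4
  simpa using h4

lemma twice_edges (G : SimpleGraph n) [DecidableRel G.Adj] (d : ℕ) (h : ∀ v, G.degree v = d) :
    2 * G.edgeSet.ncard = d * Fintype.card n := by
  have := G.sum_degrees_eq_twice_card_edges
  simp only [h, sum_const, card_univ, smul_eq_mul] at this
  rw [Set.ncard_eq_toFinset_card', mul_comm d, this]
  simp [SimpleGraph.edgeFinset]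

lemma even_card_of_regular (G : SimpleGraph n) [DecidableRel G.Adj] (d : ℕ) (hd : 0 < d)
    (h : ∀ v, G.degree v = d) (hc : G.Colorable 2) : Even (Fintype.card n) := by
  obtain ⟨c⟩ := hc
  let s : n → ℤ := fun v => if c v = 0 then 1 else -1
  have h1 : ∀ v w, G.Adj v w → s v + s w = 0 := by
    intro v w hvw
    have := c.valid hvw
    simp only [s]
    revert this
    generalize c v = a
    generalize c w = b
    fin_cases a <;> fin_cases b <;> simp
  have h2 : ∑ v, ∑ w, (if G.Adj v w then s v + s w else 0) = 0 :=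
    sum_eq_zero (fun v _ => sum_eq_zero (fun w _ => by split_ifs with h; exact h1 v w h; rfl))
  have h3 : ∀ v, ∑ w, (if G.Adj v w then s v else 0) = d * s v := by
    intro v
    rw [← sum_filter, sum_const, ← SimpleGraph.neighborFinset_eq_filter,
      SimpleGraph.card_neighborFinset_eq_degree, h, nsmul_eq_mul]
  have h4 : ∑ v, ∑ w, (if G.Adj v w then s v + s w else 0)
      = ∑ v, ∑ w, (if G.Adj v w then s v else 0) + ∑ v, ∑ w, (if G.Adj v w then s w else 0) := by
    rw [← sum_add_distrib]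
    refine sum_congr rfl (fun v _ => ?_)
    rw [← sum_add_distrib]
    exact sum_congr rfl (fun w _ => by split_ifs <;> simp)
  have h5 : ∑ v, ∑ w, (if G.Adj v w then s w else 0) = ∑ v, ∑ w, (if G.Adj v w then s v else 0) := by
    rw [sum_comm]
    simp only [G.adj_comm]
  rw [h4, h5] at h2
  simp only [h3, ← mul_sum] at h2
  have h6 : ∑ v, s v = 0 := by
    have : (0 : ℤ) < d := by exact_mod_cast hd
    nlinarith
  have h7 : ((∑ v, s v : ℤ) : ZMod 2) = (Fintype.card n : ZMod 2) := by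
    push_cast
    rw [← card_univ, card_eq_sum_ones]
    push_cast
    refine sum_congr rfl (fun v _ => ?_)
    simp only [s]
    split_ifs
    · simp
    · decide
  rw [h6] at h7
  exact ZMod.natCast_eq_zero_iff_even.mp (by simpa using h7.symm)

/-- circulant graph on 4t + 1 points with steps up to t -/
def circ (t : ℕ) : SimpleGraph (Fin (4 * t + 1)) where
  Adj i j := i ≠ j ∧ ((i - j).val ≤ t ∨ (j - i).val ≤ t)
  symm := ⟨fun _ _ h => ⟨h.1.symm, h.2.symm⟩⟩
  loopless := ⟨fun _ h => h.1 rfl⟩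

lemma circ_degree (t : ℕ) [DecidableRel (circ t).Adj] (v : Fin (4 * t + 1)) :
    (circ t).degree v = 2 * t := by
  rw [← SimpleGraph.card_neighborFinset_eq_degree, SimpleGraph.neighborFinset_eq_filter]
  have h1 : (univ.filter ((circ t).Adj v)).card = (univ.filter (fun x : Fin (4 * t + 1) =>
      x.val ∈ Icc 1 t ∪ Icc (3 * t + 1) (4 * t))).card := by
    apply card_equiv (Equiv.subRight v)
    intro w
    simp only [mem_filter, mem_univ, true_and, Equiv.subRight_apply, mem_union, mem_Icc]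
    show (v ≠ w ∧ ((v - w).val ≤ t ∨ (w - v).val ≤ t)) ↔ _
    rw [← neg_sub w v, Fin.val_neg, ne_comm, ← sub_ne_zero]
    have := (w - v).2
    split_ifs with h
    · simp [h]
    · have h' := h
      rw [Fin.ext_iff] at h'
      simp only [Fin.val_zero] at h'
      simp only [ne_eq, h, not_false_eq_true, true_and]
      omega
  rw [h1]
  have h2 : (univ.filter (fun x : Fin (4 * t + 1) =>
      x.val ∈ Icc 1 t ∪ Icc (3 * t + 1) (4 * t))).map Fin.valEmbedding
        = Icc 1 t ∪ Icc (3 * t + 1) (4 * t) := by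
    ext i
    simp only [mem_map, mem_filter, mem_univ, true_and, Fin.valEmbedding_apply]
    constructor
    · rintro ⟨x, hx, rfl⟩; exact hx
    · intro hi
      refine ⟨⟨i, ?_⟩, hi, rfl⟩
      simp only [mem_union, mem_Icc] at hi
      omega
  rw [← card_map Fin.valEmbedding, h2, card_union_of_disjoint, Nat.card_Icc, Nat.card_Icc]
  · omega
  · rw [disjoint_left]
    intro i h1 h2
    simp only [mem_Icc] at h1 h2
    omega

lemma circ_connected (t : ℕ) (ht : 1 ≤ t) : (circ t).Connected := by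
  have key : ∀ i : ℕ, ∀ h : i < 4 * t + 1, (circ t).Reachable 0 ⟨i, h⟩ := by
    intro i
    induction i with
    | zero => intro h; exact SimpleGraph.Reachable.refl _
    | succ i ih =>
      intro h
      refine (ih (by omega)).trans (SimpleGraph.Adj.reachable ⟨?_, Or.inr ?_⟩)
      · intro h'
        have := congrArg Fin.val h'
        simp at this
      · rw [Fin.sub_val_of_le (by rw [Fin.le_def]; simp)]
        simpa using ht
  exact ⟨fun a b => (key a.1 a.2).symm.trans (key b.1 b.2)⟩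

open Classical in
lemma no_min_colorable (t : ℕ) (ht : 1 ≤ t) (G : SimpleGraph (Fin (4 * t + 1)))
    (hm : G.edgeSet.ncard = t * (4 * t + 1))
    (hmin : ∀ H : SimpleGraph (Fin (4 * t + 1)), H.Connected →
      H.edgeSet.ncard = t * (4 * t + 1) →
      sSup (spectrum ℝ (G.adjMatrix ℝ)) ≤ sSup (spectrum ℝ (H.adjMatrix ℝ))) :
    ¬ G.Colorable 2 := by
  intro hc
  have h1 := twice_edges (circ t) (2 * t) (circ_degree t)
  rw [Fintype.card_fin] at h1
  have h2 := (hmin (circ t) (circ_connected t ht) (by nlinarith)).trans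
    (sSup_le_deg (circ t) (2 * t) (fun v => (circ_degree t v).le))
  have h3 := regular_of_le G (2 * t) h2 (by rw [hm, Fintype.card_fin]; ring)
  have h4 := even_card_of_regular G (2 * t) (by omega) h3 hc
  rw [Fintype.card_fin, Nat.even_iff] at h4
  omega

open Classical in
lemma circ_min (t : ℕ) : (circ t).edgeSet.ncard = t * (4 * t + 1) ∧
    ∀ H : SimpleGraph (Fin (4 * t + 1)), H.Connected → H.edgeSet.ncard = t * (4 * t + 1) →
      sSup (spectrum ℝ ((circ t).adjMatrix ℝ)) ≤ sSup (spectrum ℝ (H.adjMatrix ℝ)) := by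
  have h1 := twice_edges (circ t) (2 * t) (circ_degree t)
  rw [Fintype.card_fin] at h1
  refine ⟨by nlinarith, fun H _ hH => ?_⟩
  refine (sSup_le_deg (circ t) (2 * t) (fun v => (circ_degree t v).le)).trans ?_
  have h2 := avg_le_sSup H
  rw [hH, Fintype.card_fin] at h2
  have h3 : (0 : ℝ) < ((4 * t + 1 : ℕ) : ℝ) := by positivity
  refine le_of_mul_le_mul_right (le_trans (le_of_eq ?_) h2) h3
  push_cast; ring

lemma turan_two (t : ℕ) : (SimpleGraph.turanGraph (4 * t + 1) (2 - 1)).edgeSet.ncard = 0 ∧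
    (SimpleGraph.turanGraph (4 * t + 1) 2).edgeSet.ncard = 4 * t ^ 2 + 2 * t := by
  have key : ∀ r, (SimpleGraph.turanGraph (4 * t + 1) r).edgeSet.ncard
      = #(SimpleGraph.turanGraph (4 * t + 1) r).edgeFinset := by
    intro r
    rw [Set.ncard_eq_toFinset_card']
    simp [SimpleGraph.edgeFinset]
  rw [key, key, SimpleGraph.card_edgeFinset_turanGraph, SimpleGraph.card_edgeFinset_turanGraph]
  constructor
  · simp [Nat.mod_one]
  · rw [show (4 * t + 1) % 2 = 1 by omega,
      show (4 * t + 1) ^ 2 = 4 * (4 * t ^ 2 + 2 * t) + 1 by ring]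
    simp

lemma exists_t (α : ℝ) (h2 : α < 2) (c : ℝ) (n₀ : ℕ) :
    ∃ t : ℕ, 1 ≤ t ∧ n₀ ≤ 4 * t + 1 ∧
      c * ((4 * t + 1 : ℕ) : ℝ) ^ α ≤ ((t * (4 * t + 1) : ℕ) : ℝ) := by
  have h1 : Filter.Tendsto (fun x : ℝ => x ^ (2 - α)) Filter.atTop Filter.atTop :=
    tendsto_rpow_atTop (by linarith)
  obtain ⟨x, hx⟩ := Filter.eventually_atTop.mp (h1.eventually_ge_atTop (5 * c))
  obtain ⟨t, ht⟩ := exists_nat_ge (max x (n₀ + 1))
  have ht1 : x ≤ t := (le_max_left _ _).trans ht
  have ht2 : (n₀ : ℝ) + 1 ≤ t := (le_max_right _ _).trans ht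
  have ht3 : n₀ + 1 ≤ t := by exact_mod_cast ht2
  refine ⟨t, by omega, by omega, ?_⟩
  have ht4 : (1 : ℝ) ≤ t := by exact_mod_cast (show 1 ≤ t by omega)
  have h3 := hx ((4 * t + 1 : ℕ) : ℝ) (by push_cast; linarith)
  have hp : (0 : ℝ) < ((4 * t + 1 : ℕ) : ℝ) := by positivity
  have h4 : ((4 * t + 1 : ℕ) : ℝ) ^ (2 - α) * ((4 * t + 1 : ℕ) : ℝ) ^ α
      = ((4 * t + 1 : ℕ) : ℝ) ^ 2 := by
    rw [← Real.rpow_add hp, sub_add_cancel, Real.rpow_two]
  have h5 := mul_le_mul_of_nonneg_right h3 (Real.rpow_nonneg hp.le α)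
  rw [h4] at h5
  push_cast at h5 ⊢
  nlinarith

end Pool.Agent.H54.Spec
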