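import Mathlib

namespace Pool.Agent.H54.SqSize
open Polynomial Finset

noncomputable def F (m : ℕ) (z : ℂ) : ℂ :=
  z ^ (2 * m) - (1 + 4 * z - 4 * z ^ 3) * z ^ m + (2 * z ^ 2 - 1) ^ 2

noncomputable def f (m : ℕ) (z : ℝ) : ℝ :=
  z ^ (2 * m) - (1 + 4 * z - 4 * z ^ 3) * z ^ m + (2 * z ^ 2 - 1) ^ 2

lemma F_ofReal (m : ℕ) (x : ℝ) : F m x = f m x := by
  simp [F, f]

lemma pow_lip (ρ : ℝ) (hρ : 0 ≤ ρ) (b c : ℂ) (hb : ‖b‖ ≤ ρ) (hc : ‖c‖ ≤ ρ) (j : ℕ) :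
    ρ * ‖b ^ j - c ^ j‖ ≤ j * ρ ^ j * ‖b - c‖ := by
  induction j with
  | zero => simp
  | succ j ih =>
    have e : b ^ (j + 1) - c ^ (j + 1) = b * (b ^ j - c ^ j) + (b - c) * c ^ j := by ring
    have h1 : ‖b ^ (j + 1) - c ^ (j + 1)‖ ≤ ρ * ‖b ^ j - c ^ j‖ + ‖b - c‖ * ρ ^ j := by
      rw [e]
      refine (norm_add_le _ _).trans (add_le_add ?_ ?_)
      · rw [norm_mul]; gcongr
      · rw [norm_mul, norm_pow]; gcongr
    have h2 : ρ * ‖b ^ (j + 1) - c ^ (j + 1)‖ ≤ ρ * (ρ * ‖b ^ j - c ^ j‖ + ‖b - c‖ * ρ ^ j) := by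
      gcongr
    have h3 : ρ * (ρ * ‖b ^ j - c ^ j‖) ≤ ρ * (j * ρ ^ j * ‖b - c‖) := by gcongr
    push_cast
    calc _ ≤ _ := h2
      _ ≤ ρ * (j * ρ ^ j * ‖b - c‖) + ρ * (‖b - c‖ * ρ ^ j) := by linarith [mul_add ρ (ρ * ‖b ^ j - c ^ j‖) (‖b - c‖ * ρ ^ j)]
      _ = _ := by ring

noncomputable def D (k : ℕ) (a b : ℂ) : ℂ := ∑ i ∈ range k, a ^ i * b ^ (k - 1 - i)

lemma D_mul (k : ℕ) (a b : ℂ) : D k a b * (a - b) = a ^ k - b ^ k := geom_sum₂_mul a b k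

lemma D_lip (ρ : ℝ) (hρ : 0 < ρ) (a b c : ℂ) (ha : ‖a‖ ≤ ρ) (hb : ‖b‖ ≤ ρ) (hc : ‖c‖ ≤ ρ)
    (k : ℕ) : ‖D k a b - D k a c‖ ≤ k ^ 2 * ρ ^ k / ρ ^ 2 * ‖b - c‖ := by
  unfold D
  rw [← sum_sub_distrib]
  refine (norm_sum_le _ _).trans ?_
  have : ∀ i ∈ range k, ‖a ^ i * b ^ (k - 1 - i) - a ^ i * c ^ (k - 1 - i)‖
      ≤ k * ρ ^ k / ρ ^ 2 * ‖b - c‖ := by
    intro i hi
    have hi' := mem_range.1 hi
    obtain ⟨j, rfl⟩ : ∃ j, k = i + j + 1 := ⟨k - 1 - i, by omega⟩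
    have e : i + j + 1 - 1 - i = j := by omega
    rw [e, ← mul_sub, norm_mul, norm_pow]
    have h1 := pow_lip ρ hρ.le b c hb hc j
    have h2 : ‖b ^ j - c ^ j‖ ≤ j * ρ ^ j / ρ * ‖b - c‖ := by
      rw [div_mul_eq_mul_div, le_div_iff₀ hρ]; linarith
    have h3 : (j : ℝ) ≤ ((i + j + 1 : ℕ) : ℝ) := by exact_mod_cast (by omega)
    calc ‖a‖ ^ i * ‖b ^ j - c ^ j‖ ≤ ρ ^ i * (j * ρ ^ j / ρ * ‖b - c‖) := by gcongr
      _ = j * ρ ^ (i + j + 1) / ρ ^ 2 * ‖b - c‖ := by field_simp; ring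
      _ ≤ _ := by gcongr
  refine (sum_le_sum this).trans ?_
  rw [sum_const, card_range, nsmul_eq_mul]
  apply le_of_eq; ring

lemma three (m : ℕ) (hm : ∀ k ≥ m, (k : ℝ) ^ 2 * (3 / 4) ^ k ≤ 1 / 20) (a b c : ℂ)
    (ha : ‖a‖ ≤ 3 / 4) (hb : ‖b‖ ≤ 3 / 4) (hc : ‖c‖ ≤ 3 / 4)
    (hab : a ≠ b) (hac : a ≠ c) (hbc : b ≠ c)
    (Fa : F m a = 0) (Fb : F m b = 0) (Fc : F m c = 0)
    (h2 : 3 / 2 ≤ (a * a + a * b + a * c + b * b + b * c + c * c).re) : False := by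
  have key : ∀ b : ℂ, a ≠ b → F m b = 0 →
      D (2 * m) a b - D m a b - 4 * D (m + 1) a b + 4 * D (m + 3) a b
        + 4 * (a ^ 3 + a ^ 2 * b + a * b ^ 2 + b ^ 3) - 4 * (a + b) = 0 := by
    intro b hab Fb
    apply mul_right_cancel₀ (sub_ne_zero.2 hab)
    have e1 := D_mul (2 * m) a b
    have e2 := D_mul m a b
    have e3 := D_mul (m + 1) a b
    have e4 := D_mul (m + 3) a b
    unfold F at Fa Fb
    linear_combination e1 - e2 - 4 * e3 + 4 * e4 + Fa - Fb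
  have k1 := key b hab Fb
  have k2 := key c hac Fc
  have e : (b - c) * (4 * (a * a + a * b + a * c + b * b + b * c + c * c) - 4) =
      -(D (2 * m) a b - D (2 * m) a c) + (D m a b - D m a c)
        + 4 * (D (m + 1) a b - D (m + 1) a c) - 4 * (D (m + 3) a b - D (m + 3) a c) := by
    linear_combination k1 - k2
  have hl : ∀ k ≥ m, ‖D k a b - D k a c‖ ≤ 1 / 10 * ‖b - c‖ := by
    intro k hk
    refine (D_lip (3 / 4) (by norm_num) a b c ha hb hc k).trans ?_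
    refine mul_le_mul_of_nonneg_right ?_ (norm_nonneg _)
    have := hm k hk
    rw [div_le_iff₀ (by norm_num)]; linarith
  have hn : 0 < ‖b - c‖ := norm_pos_iff.2 (sub_ne_zero.2 hbc)
  have h3 : 2 ≤ ‖4 * (a * a + a * b + a * c + b * b + b * c + c * c) - 4‖ := by
    refine le_trans ?_ (Complex.re_le_norm _)
    generalize (a * a + a * b + a * c + b * b + b * c + c * c) = w at h2
    simp; linarith
  have h4 := congrArg norm e
  rw [norm_mul] at h4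
  have l1 := hl (2 * m) (by omega)
  have l2 := hl m le_rfl
  have l3 := hl (m + 1) (by omega)
  have l4 := hl (m + 3) (by omega)
  have h5 : ‖-(D (2 * m) a b - D (2 * m) a c) + (D m a b - D m a c)
        + 4 * (D (m + 1) a b - D (m + 1) a c) - 4 * (D (m + 3) a b - D (m + 3) a c)‖
        ≤ ‖b - c‖ := by
    refine (norm_sub_le _ _).trans ?_
    refine (add_le_add_left (norm_add_le _ _) _).trans ?_
    refine (add_le_add_left (add_le_add_left (norm_add_le _ _) _) _).trans ?_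
    rw [norm_neg, norm_mul, norm_mul]
    simp only [Complex.norm_ofNat]
    linarith
  nlinarith

lemma normB (z : ℂ) (t : ℝ) (h : ‖z‖ ≤ t) : ‖1 + 4 * z - 4 * z ^ 3‖ ≤ 1 + 4 * t + 4 * t ^ 3 := by
  refine (norm_sub_le _ _).trans (add_le_add ((norm_add_le _ _).trans ?_) ?_)
  · simp; linarith
  · rw [norm_mul, norm_pow]; simp only [Complex.norm_ofNat]; gcongr

lemma small_u (m : ℕ) (z : ℂ) (hz : F m z = 0) (δ : ℝ) (hδ : δ ≤ 1 / 2)
    (h : ‖z‖ ^ m ≤ δ) : ‖2 * z ^ 2 - 1‖ ^ 2 ≤ 10 * δ := by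
  have hz1 : ‖z‖ ≤ 1 := by
    by_contra hh
    have := one_le_pow₀ (n := m) (le_of_lt (not_le.1 hh))
    linarith
  have e : (2 * z ^ 2 - 1) ^ 2 = z ^ m * ((1 + 4 * z - 4 * z ^ 3) - z ^ m) := by
    unfold F at hz; linear_combination hz
  have hB := normB z 1 hz1
  rw [← norm_pow, e, norm_mul, norm_pow]
  have h0 : 0 ≤ ‖z‖ ^ m := by positivity
  have : ‖(1 + 4 * z - 4 * z ^ 3) - z ^ m‖ ≤ 10 := by
    refine (norm_sub_le _ _).trans ?_
    rw [norm_pow]; linarith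
  calc _ ≤ δ * 10 := by gcongr; linarith
    _ = _ := by ring

lemma near (z : ℂ) (h : ‖2 * z ^ 2 - 1‖ ^ 2 ≤ 1 / 100) :
    ‖z‖ ≤ 3 / 4 ∧ |z.im| ≤ 1 / 20 ∧ 3 / 5 ≤ |z.re| := by
  have h1 : ‖2 * z ^ 2 - 1‖ ≤ 1 / 10 := by nlinarith [norm_nonneg (2 * z ^ 2 - 1)]
  have h2 : ‖2 * z ^ 2‖ ≤ 11 / 10 := by
    have := norm_add_le (2 * z ^ 2 - 1) 1
    simp only [sub_add_cancel, norm_one] at this; linarith
  rw [norm_mul, norm_pow] at h2
  simp only [Complex.norm_ofNat] at h2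
  have h3 := (Complex.abs_re_le_norm _).trans h1
  have h4 := (Complex.abs_im_le_norm _).trans h1
  simp [pow_two] at h3 h4
  have h5 : 3 / 5 ≤ |z.re| := by
    have := (abs_le.1 h3).1
    rw [← sq_le_sq₀ (by norm_num) (abs_nonneg _), sq_abs]; nlinarith [sq_nonneg z.im]
  refine ⟨by nlinarith [norm_nonneg z], ?_, h5⟩
  have h6 : |z.re| * |z.im| ≤ 1 / 40 := by
    rw [← abs_mul]
    have : z.re * z.im + z.im * z.re = 2 * (z.re * z.im) := by ring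
    rw [this, abs_mul] at h4
    norm_num at h4 ⊢; linarith
  nlinarith [abs_nonneg z.im]

lemma upper (m : ℕ) (hm : 10 ≤ m) (z : ℂ) (hz : F m z = 0) : ‖z‖ ^ m ≤ 1000 := by
  have e : (z ^ m) ^ 2 = z ^ m * (1 + 4 * z - 4 * z ^ 3) - (2 * z ^ 2 - 1) ^ 2 := by
    unfold F at hz; linear_combination hz
  have hB := normB z _ le_rfl
  have hu : ‖2 * z ^ 2 - 1‖ ≤ 2 * ‖z‖ ^ 2 + 1 := by
    refine (norm_sub_le _ _).trans ?_
    simp
  have h1 : (‖z‖ ^ m) ^ 2 ≤ ‖z‖ ^ m * (1 + 4 * ‖z‖ + 4 * ‖z‖ ^ 3) + (2 * ‖z‖ ^ 2 + 1) ^ 2 := by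
    rw [← norm_pow, ← norm_pow, e]
    refine (norm_sub_le _ _).trans (add_le_add ?_ ?_)
    · rw [norm_mul]; gcongr
    · rw [norm_pow]; gcongr
  have t0 := norm_nonneg z
  generalize ‖z‖ = t at *
  by_contra hh
  push Not at hh
  rcases le_total t 2 with h | h
  · have a1 : 1 + 4 * t + 4 * t ^ 3 ≤ 41 := by
      have : t ^ 3 ≤ 2 ^ 3 := by gcongr
      linarith
    have a2 : (2 * t ^ 2 + 1) ^ 2 ≤ 81 := by
      have : t ^ 2 ≤ 2 ^ 2 := by gcongr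
      nlinarith [sq_nonneg t]
    nlinarith
  · have a0 : t ^ 10 ≤ t ^ m := pow_le_pow_right₀ (by linarith) hm
    have b1 : 2 ^ 6 ≤ t ^ 6 := by gcongr
    have b2 : 1 ≤ t ^ 2 := one_le_pow₀ (by linarith)
    have b3 : t ≤ t ^ 4 := le_self_pow₀ (by linarith) (by norm_num)
    have b4 : t ^ 3 ≤ t ^ 4 := pow_le_pow_right₀ (by linarith) (by norm_num)
    have b5 : t ^ 2 ≤ t ^ 4 := pow_le_pow_right₀ (by linarith) (by norm_num)
    have b6 : 64 * t ^ 4 ≤ t ^ m := by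
      have : t ^ 10 = t ^ 6 * t ^ 4 := by ring
      nlinarith [pow_nonneg t0 4]
    have a1 : 1 + 4 * t + 4 * t ^ 3 ≤ t ^ m / 4 := by linarith
    have a2 : (2 * t ^ 2 + 1) ^ 2 ≤ t ^ m / 4 := by nlinarith
    nlinarith

lemma real_bd (m : ℕ) (hm : Odd m) (x : ℝ) (hx : f m x = 0) : |x| ≤ 19 / 20 := by
  by_contra hh
  push Not at hh
  unfold f at hx
  have e : x ^ (2 * m) = (x ^ m) ^ 2 := by ring
  rw [e] at hx
  rcases lt_abs.1 hh with h | h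
  · have hy : 0 < x ^ m := pow_pos (by linarith) m
    have : 1 + 4 * x - 4 * x ^ 3 < 2 * (2 * x ^ 2 - 1) := by nlinarith [sq_nonneg (x - 1), sq_nonneg x, mul_pos (show 0 < x by linarith) (show 0 < x - 19/20 by linarith), pow_pos (show 0 < x by linarith) 3]
    nlinarith [sq_nonneg (x ^ m - (2 * x ^ 2 - 1))]
  · have hy : x ^ m < 0 := hm.pow_neg (by linarith)
    have h3 : x ^ 3 < -(19 / 20) ^ 3 := by
      have : (19 / 20 : ℝ) ^ 3 < (-x) ^ 3 := by gcongr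
      nlinarith
    have : -(2 * (2 * x ^ 2 - 1)) < 1 + 4 * x - 4 * x ^ 3 := by nlinarith [sq_nonneg (x + 1)]
    nlinarith [sq_nonneg (x ^ m + (2 * x ^ 2 - 1))]

lemma four_roots (m : ℕ) (hm : Odd m) (h3 : 3 ≤ m) :
    ∃ r1 r2 r3 r4 : ℝ, r4 < r3 ∧ r3 < 0 ∧ 0 < r1 ∧ r1 < r2 ∧
      f m r1 = 0 ∧ f m r2 = 0 ∧ f m r3 = 0 ∧ f m r4 = 0 := by
  have hc : Continuous (f m) := by unfold f; fun_prop
  set s := Real.sqrt (1 / 2) with hs
  have s2 : s ^ 2 = 1 / 2 := Real.sq_sqrt (by norm_num)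
  have s0 : 0 ≤ s := Real.sqrt_nonneg _
  have s7 : 7 / 10 < s := by nlinarith
  have s8 : s < 72 / 100 := by nlinarith
  have sm : s ^ m ≤ s ^ 3 := pow_le_pow_of_le_one s0 (by linarith) h3
  have s3 : s ^ 3 = s / 2 := by rw [pow_succ, s2]; ring
  have sp : 0 < s ^ m := pow_pos (by linarith) m
  have f0 : f m 0 = 1 := by
    have : m ≠ 0 := by omega
    simp [f, this]
  have f1 : f m 1 = 1 := by simp [f]; norm_num
  have fm1 : f m (-1) = 3 := by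
    simp only [f, hm.neg_one_pow, pow_mul]; norm_num
  have fs : f m s < 0 := by
    unfold f
    rw [show s ^ (2 * m) = (s ^ m) ^ 2 by ring, s2, s3]; nlinarith
  have fms : f m (-s) < 0 := by
    unfold f
    rw [show (-s) ^ (2 * m) = ((-s) ^ m) ^ 2 by ring, hm.neg_pow, neg_sq s, s2,
      show (-s) ^ 3 = -s ^ 3 by ring, s3]; nlinarith
  obtain ⟨r1, a1, b1⟩ := intermediate_value_Ioo' (a := 0) (b := s) s0 hc.continuousOn
    (show (0 : ℝ) ∈ Set.Ioo (f m s) (f m 0) from ⟨fs, by rw [f0]; norm_num⟩)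
  obtain ⟨r2, a2, b2⟩ := intermediate_value_Ioo (a := s) (b := 1) (by linarith) hc.continuousOn
    (show (0 : ℝ) ∈ Set.Ioo (f m s) (f m 1) from ⟨fs, by rw [f1]; norm_num⟩)
  obtain ⟨r3, a3, b3⟩ := intermediate_value_Ioo (a := -s) (b := 0) (by linarith) hc.continuousOn
    (show (0 : ℝ) ∈ Set.Ioo (f m (-s)) (f m 0) from ⟨fms, by rw [f0]; norm_num⟩)
  obtain ⟨r4, a4, b4⟩ := intermediate_value_Ioo' (a := -1) (b := -s) (by linarith) hc.continuousOn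
    (show (0 : ℝ) ∈ Set.Ioo (f m (-s)) (f m (-1)) from ⟨fms, by rw [fm1]; norm_num⟩)
  exact ⟨r1, r2, r3, r4, by linarith [a4.2, a3.1], a3.2, a1.1, by linarith [a1.2, a2.1],
    b1, b2, b3, b4⟩

lemma re_mul (a b : ℂ) (ha : |a.im| ≤ 1 / 20) (hb : |b.im| ≤ 1 / 20)
    (h : (3 / 5 ≤ a.re ∧ 3 / 5 ≤ b.re) ∨ (a.re ≤ -(3 / 5) ∧ b.re ≤ -(3 / 5))) :
    1 / 4 ≤ (a * b).re := by
  rw [Complex.mul_re]
  have : a.im * b.im ≤ 1 / 400 := by
    refine (le_abs_self _).trans ?_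
    rw [abs_mul]
    calc _ ≤ (1 / 20 : ℝ) * (1 / 20) := by gcongr
      _ = _ := by norm_num
  rcases h with ⟨h1, h2⟩ | ⟨h1, h2⟩ <;> nlinarith

lemma three' (m : ℕ) (hm : ∀ k ≥ m, (k : ℝ) ^ 2 * (3 / 4) ^ k ≤ 1 / 20) (a b c : ℂ)
    (ha : ‖a‖ ^ m ≤ 1 / 1000) (hb : ‖b‖ ^ m ≤ 1 / 1000) (hc : ‖c‖ ^ m ≤ 1 / 1000)
    (hab : a ≠ b) (hac : a ≠ c) (hbc : b ≠ c)
    (Fa : F m a = 0) (Fb : F m b = 0) (Fc : F m c = 0)
    (h : (0 ≤ a.re ∧ 0 ≤ b.re ∧ 0 ≤ c.re) ∨ (a.re ≤ 0 ∧ b.re ≤ 0 ∧ c.re ≤ 0)) : False := by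
  have na := near a ((small_u m a Fa _ (by norm_num) ha).trans (by norm_num))
  have nb := near b ((small_u m b Fb _ (by norm_num) hb).trans (by norm_num))
  have nc := near c ((small_u m c Fc _ (by norm_num) hc).trans (by norm_num))
  refine three m hm a b c na.1 nb.1 nc.1 hab hac hbc Fa Fb Fc ?_
  have hh : (3 / 5 ≤ a.re ∧ 3 / 5 ≤ b.re ∧ 3 / 5 ≤ c.re) ∨
      (a.re ≤ -(3 / 5) ∧ b.re ≤ -(3 / 5) ∧ c.re ≤ -(3 / 5)) := by
    have a3 := na.2.2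
    have b3 := nb.2.2
    have c3 := nc.2.2
    rcases h with ⟨h1, h2, h3⟩ | ⟨h1, h2, h3⟩
    · left; rw [abs_of_nonneg h1] at a3; rw [abs_of_nonneg h2] at b3
      rw [abs_of_nonneg h3] at c3; exact ⟨a3, b3, c3⟩
    · right; rw [abs_of_nonpos h1] at a3; rw [abs_of_nonpos h2] at b3
      rw [abs_of_nonpos h3] at c3; exact ⟨by linarith, by linarith, by linarith⟩
  have e1 := re_mul a a na.2.1 na.2.1 (by tauto)
  have e2 := re_mul a b na.2.1 nb.2.1 (by tauto)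
  have e3 := re_mul a c na.2.1 nc.2.1 (by tauto)
  have e4 := re_mul b b nb.2.1 nb.2.1 (by tauto)
  have e5 := re_mul b c nb.2.1 nc.2.1 (by tauto)
  have e6 := re_mul c c nc.2.1 nc.2.1 (by tauto)
  simp only [Complex.add_re]
  linarith

lemma real_small (m : ℕ) (hm : Odd m) (z : ℂ) (hz : F m z = 0) (hi : z.im = 0) :
    ‖z‖ ^ m ≤ (19 / 20) ^ m := by
  have e : z = (z.re : ℂ) := by apply Complex.ext <;> simp [hi]
  rw [e, F_ofReal] at hz
  have := real_bd m hm z.re (by exact_mod_cast hz)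
  rw [e, Complex.norm_real, Real.norm_eq_abs]; gcongr

/-- the small roots are exactly four real points -/
lemma small_set (m : ℕ) (hm : Odd m) (h3 : 3 ≤ m)
    (h1 : ∀ k ≥ m, (k : ℝ) ^ 2 * (3 / 4) ^ k ≤ 1 / 20) (h2 : (19 / 20 : ℝ) ^ m ≤ 1 / 1000) :
    ∃ S : Finset ℂ, S.card = 4 ∧ (∀ z ∈ S, F m z = 0 ∧ z.im = 0) ∧
      ∀ z, F m z = 0 → ‖z‖ ^ m ≤ 1 / 1000 → z ∈ S := by
  classical
  obtain ⟨r1, r2, r3, r4, o1, o2, o3, o4, f1, f2, f3, f4⟩ := four_roots m hm h3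
  have F1 : F m r1 = 0 := by rw [F_ofReal, f1]; simp
  have F2 : F m r2 = 0 := by rw [F_ofReal, f2]; simp
  have F3 : F m r3 = 0 := by rw [F_ofReal, f3]; simp
  have F4 : F m r4 = 0 := by rw [F_ofReal, f4]; simp
  refine ⟨{(r1 : ℂ), (r2 : ℂ), (r3 : ℂ), (r4 : ℂ)}, ?_, ?_, ?_⟩
  · rw [card_eq_four]
    refine ⟨_, _, _, _, ?_, ?_, ?_, ?_, ?_, ?_, rfl⟩ <;>
      (rw [Ne, Complex.ofReal_inj]; intro h; linarith)
  · intro z hz
    simp only [mem_insert, mem_singleton] at hz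
    rcases hz with rfl | rfl | rfl | rfl <;> simp [*]
  · intro z hz hs
    by_contra hn
    simp only [mem_insert, mem_singleton, not_or] at hn
    rcases le_total 0 z.re with h | h
    · exact three' m h1 z r1 r2 hs ((real_small m hm _ F1 (by simp)).trans h2)
        ((real_small m hm _ F2 (by simp)).trans h2) hn.1 hn.2.1
        (by rw [Ne, Complex.ofReal_inj]; intro h; linarith) hz F1 F2
        (Or.inl ⟨h, by simp; linarith, by simp; linarith⟩)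
    · exact three' m h1 z r3 r4 hs ((real_small m hm _ F3 (by simp)).trans h2)
        ((real_small m hm _ F4 (by simp)).trans h2) hn.2.2.1 hn.2.2.2
        (by rw [Ne, Complex.ofReal_inj]; intro h; linarith) hz F3 F4
        (Or.inr ⟨h, by simp; linarith, by simp; linarith⟩)

lemma nonreal_bd (m : ℕ) (hm : 14 ≤ m) (t : ℝ) (ht : 0 ≤ t) (h1 : 1 / 1000 < t ^ m)
    (h2 : t ^ m ≤ 1000) : t ^ 2 ≤ 1 + 2 * Real.log t + 196 / (m : ℝ) ^ 2 := by
  have t0 : 0 < t := by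
    rcases ht.eq_or_lt with rfl | h
    · rw [zero_pow (by omega)] at h1; norm_num at h1
    · exact h
  have l7 : Real.log 1000 ≤ 7 := by
    rw [Real.log_le_iff_le_exp (by norm_num)]
    have := Real.exp_one_gt_d9
    have e : Real.exp 7 = Real.exp 1 ^ 7 := by rw [← Real.exp_nat_mul]; norm_num
    rw [e]
    calc (1000 : ℝ) ≤ 2.7 ^ 7 := by norm_num
      _ ≤ _ := by gcongr; linarith
  have m0 : (14 : ℝ) ≤ m := by exact_mod_cast hm
  have a1 : m * Real.log t ≤ 7 := by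
    rw [← Real.log_pow]; exact (Real.log_le_log (by positivity) h2).trans l7
  have a2 : -7 ≤ m * Real.log t := by
    rw [← Real.log_pow]
    have := Real.log_le_log (by norm_num) h1.le
    rw [one_div, Real.log_inv] at this; linarith
  set x := 2 * Real.log t with hx
  have hx1 : |x| ≤ 14 / m := by
    rw [le_div_iff₀ (by linarith), ← abs_of_pos (show (0 : ℝ) < m by linarith), ← abs_mul, abs_le]
    constructor <;> nlinarith
  have hx2 : |x| ≤ 1 := hx1.trans (by rw [div_le_one (by linarith)]; exact m0)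
  have e : t ^ 2 = Real.exp x := by
    rw [hx, show (2 : ℝ) * Real.log t = Real.log (t ^ 2) by rw [Real.log_pow]; norm_num,
      Real.exp_log (by positivity)]
  have := (abs_le.1 (Real.abs_exp_sub_one_sub_id_le hx2)).2
  have h5 : x ^ 2 ≤ 196 / (m : ℝ) ^ 2 := by
    rw [← sq_abs]
    calc _ ≤ (14 / (m : ℝ)) ^ 2 := by gcongr
      _ = _ := by rw [div_pow]; norm_num
  linarith

lemma real_term (x η : ℝ) (hη : η ≤ 1 / 2) (h : |2 * x ^ 2 - 1| ≤ η) :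
    x ^ 2 - Real.log |x| ≤ 1 / 2 + Real.log 2 / 2 + 2 * η := by
  obtain ⟨a, b⟩ := abs_le.1 h
  have y0 : 0 < 2 * x ^ 2 := by linarith
  have e : Real.log (2 * x ^ 2) = Real.log 2 + 2 * Real.log |x| := by
    rw [Real.log_mul (by norm_num) (by linarith), Real.log_pow, Real.log_abs]; norm_num
  have h1 := Real.one_sub_inv_le_log_of_pos y0
  have h2 : (2 * x ^ 2)⁻¹ ≤ 1 + 2 * η := by
    rw [inv_le_iff_one_le_mul₀ y0]
    have : 0 ≤ η := (abs_nonneg _).trans h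
    nlinarith
  linarith

lemma F_conj (m : ℕ) (z : ℂ) (h : F m z = 0) : F m ((starRingEnd ℂ) z) = 0 := by
  have := congrArg (starRingEnd ℂ) h
  simpa [F, map_ofNat] using this

lemma core (m : ℕ) (hm : Odd m) (h14 : 14 ≤ m)
    (h1 : ∀ k ≥ m, (k : ℝ) ^ 2 * (3 / 4) ^ k ≤ 1 / 20) (h2 : (19 / 20 : ℝ) ^ m ≤ 1 / 1000)
    (η : ℝ) (hη0 : 0 ≤ η) (hη : η ≤ 1 / 2) (h3 : 10 * (19 / 20 : ℝ) ^ m ≤ η ^ 2)
    (R : Finset ℂ) (hR : ∀ z, z ∈ R ↔ F m z = 0) (hc : R.card = 2 * m)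
    (hp : ∏ z ∈ R, ‖z‖ = 1) :
    (R.filter (fun z => z.im = 0)).card = 4 ∧
      ∑ z ∈ R.filter (fun z => 0 ≤ z.im), ‖z‖ ^ 2 ≤ m + 2 * Real.log 2 + 8 * η + 196 / m := by
  classical
  obtain ⟨S, S4, SF, Ss⟩ := small_set m hm (by omega) h1 h2
  have hS : R.filter (fun z => z.im = 0) = S := by
    ext z
    rw [mem_filter, hR]
    exact ⟨fun h => Ss z h.1 ((real_small m hm z h.1 h.2).trans h2), SF z⟩
  refine ⟨by rw [hS, S4], ?_⟩
  set N := R.filter (fun z => ¬ z.im = 0) with hN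
  have cN : N.card + 4 = 2 * m := by
    rw [← S4, ← hS, ← hc, add_comm]; exact card_filter_add_card_filter_not _
  have hz0 : ∀ z ∈ R, ‖z‖ ≠ 0 := by
    intro z hz h
    rw [prod_eq_zero hz h] at hp; norm_num at hp
  have hlog : ∑ z ∈ S, Real.log ‖z‖ + ∑ z ∈ N, Real.log ‖z‖ = 0 := by
    rw [← hS, sum_filter_add_sum_filter_not, ← Real.log_prod hz0, hp, Real.log_one]
  have sym : ∑ z ∈ R.filter (fun z => 0 < z.im), ‖z‖ ^ 2
      = ∑ z ∈ R.filter (fun z => z.im < 0), ‖z‖ ^ 2 := by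
    refine sum_bij' (fun z _ => (starRingEnd ℂ) z) (fun z _ => (starRingEnd ℂ) z) ?_ ?_ ?_ ?_ ?_
    · intro z hz; rw [mem_filter, hR] at *; exact ⟨F_conj m z hz.1, by simpa using hz.2⟩
    · intro z hz; rw [mem_filter, hR] at *; exact ⟨F_conj m z hz.1, by simpa using hz.2⟩
    · intro z _; simp
    · intro z _; simp
    · intro z _; simp
  have split1 : ∑ z ∈ R.filter (fun z => 0 ≤ z.im), ‖z‖ ^ 2
      = ∑ z ∈ S, ‖z‖ ^ 2 + ∑ z ∈ R.filter (fun z => 0 < z.im), ‖z‖ ^ 2 := by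
    rw [← hS, sum_filter, sum_filter, sum_filter, ← sum_add_distrib]
    refine sum_congr rfl fun z _ => ?_
    rcases lt_trichotomy z.im 0 with h | h | h
    · simp [h.ne, h.not_ge, h.not_gt]
    · simp [h]
    · simp [h, h.le, h.ne']
  have split2 : ∑ z ∈ N, ‖z‖ ^ 2 = ∑ z ∈ R.filter (fun z => 0 < z.im), ‖z‖ ^ 2
      + ∑ z ∈ R.filter (fun z => z.im < 0), ‖z‖ ^ 2 := by
    rw [hN, sum_filter, sum_filter, sum_filter, ← sum_add_distrib]
    refine sum_congr rfl fun z _ => ?_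
    rcases lt_trichotomy z.im 0 with h | h | h
    · simp [h, h.ne, h.not_gt]
    · simp [h]
    · simp [h, h.ne', h.not_gt]
  have bN : ∑ z ∈ N, ‖z‖ ^ 2 ≤ ∑ z ∈ N, (1 + 2 * Real.log ‖z‖ + 196 / (m : ℝ) ^ 2) := by
    refine sum_le_sum fun z hz => ?_
    rw [hN, mem_filter, hR] at hz
    refine nonreal_bd m h14 _ (norm_nonneg _) ?_ (upper m (by omega) z hz.1)
    by_contra hh
    exact hz.2 (SF z (Ss z hz.1 (not_lt.1 hh))).2
  have bS : ∑ z ∈ S, (‖z‖ ^ 2 - Real.log ‖z‖) ≤ ∑ z ∈ S, (1 / 2 + Real.log 2 / 2 + 2 * η) := by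
    refine sum_le_sum fun z hz => ?_
    obtain ⟨a, b⟩ := SF z hz
    have e : z = (z.re : ℂ) := by apply Complex.ext <;> simp [b]
    have u := (small_u m z a _ (h2.trans (by norm_num)) (real_small m hm z a b)).trans h3
    have u' : ‖2 * z ^ 2 - 1‖ ≤ η := (sq_le_sq₀ (norm_nonneg _) hη0).1 u
    rw [e] at u' ⊢
    have e2 : (2 * (z.re : ℂ) ^ 2 - 1) = ((2 * z.re ^ 2 - 1 : ℝ) : ℂ) := by push_cast; ring
    rw [e2, Complex.norm_real, Real.norm_eq_abs] at u'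
    rw [Complex.norm_real, Real.norm_eq_abs, sq_abs]
    exact real_term _ _ hη u'
  rw [sum_sub_distrib, sum_const, S4, nsmul_eq_mul] at bS
  rw [sum_add_distrib, sum_add_distrib, sum_const, sum_const, ← mul_sum, nsmul_eq_mul,
    nsmul_eq_mul] at bN
  have cN' : (N.card : ℝ) = 2 * m - 4 := by
    have : ((N.card + 4 : ℕ) : ℝ) = ((2 * m : ℕ) : ℝ) := by rw [cN]
    push_cast at this; linarith
  have m0 : (14 : ℝ) ≤ m := by exact_mod_cast h14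
  have hq : (N.card : ℝ) * (196 / (m : ℝ) ^ 2) ≤ 2 * (196 / m) := by
    calc _ ≤ (2 * m : ℝ) * (196 / (m : ℝ) ^ 2) := by gcongr; linarith
      _ = _ := by field_simp
  rw [split1]
  push_cast at bS
  linarith

noncomputable def P (m : ℕ) : ℤ[X] :=
  X ^ (2 * m) - (1 + 4 * X - 4 * X ^ 3) * X ^ m + (2 * X ^ 2 - 1) ^ 2

lemma P_deg (m : ℕ) (hm : 4 ≤ m) : (P m).Monic ∧ (P m).natDegree = 2 * m := by
  have e : P m = X ^ (2 * m) + (-(1 + 4 * X - 4 * X ^ 3) * X ^ m + (2 * X ^ 2 - 1) ^ 2) := by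
    unfold P; ring
  have h : (-(1 + 4 * X - 4 * X ^ 3) * X ^ m + (2 * X ^ 2 - 1) ^ 2 : ℤ[X]).natDegree < 2 * m := by
    have a : (-(1 + 4 * X - 4 * X ^ 3) : ℤ[X]).natDegree ≤ 3 := by compute_degree
    have b : ((2 * X ^ 2 - 1) ^ 2 : ℤ[X]).natDegree ≤ 4 := by compute_degree
    have c : (-(1 + 4 * X - 4 * X ^ 3) * X ^ m : ℤ[X]).natDegree ≤ 3 + m :=
      natDegree_mul_le.trans (add_le_add a (natDegree_X_pow_le m))
    have := natDegree_add_le (-(1 + 4 * X - 4 * X ^ 3) * X ^ m : ℤ[X]) ((2 * X ^ 2 - 1) ^ 2)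
    omega
  rw [e]
  constructor
  · exact monic_X_pow_add (degree_le_natDegree.trans_lt (by exact_mod_cast h))
  · rw [natDegree_add_eq_left_of_natDegree_lt (by rwa [natDegree_X_pow]), natDegree_X_pow]

lemma ord2 (j : ℕ) : orderOf (2 : ZMod (3 ^ (j + 1))) = 2 * 3 ^ j := by
  have h4 : orderOf ((2 : ZMod (3 ^ (j + 1))) ^ 2) = 3 ^ j := by
    have := ZMod.orderOf_one_add_prime Nat.prime_three (by norm_num) j
    convert this using 2; norm_num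
  have h2 : 2 ∣ orderOf (2 : ZMod (3 ^ (j + 1))) := by
    have a : orderOf (2 : ZMod 3) = 2 := by
      apply orderOf_eq_prime <;> decide
    have b := orderOf_map_dvd (ZMod.castHom (dvd_pow_self 3 (Nat.succ_ne_zero j)) (ZMod 3)).toMonoidHom
      (2 : ZMod (3 ^ (j + 1)))
    simpa [map_ofNat, a] using b
  rw [orderOf_pow_of_dvd (by norm_num) h2] at h4
  omega

lemma P_irr (j : ℕ) (hj : 2 ≤ j) : Irreducible (P (3 ^ j)) := by
  have hm : 4 ≤ 3 ^ j := le_trans (by norm_num) (Nat.pow_le_pow_right (by norm_num) hj)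
  apply Monic.irreducible_of_irreducible_map (Int.castRingHom (ZMod 2)) _ (P_deg _ hm).1
  have e : (P (3 ^ j)).map (Int.castRingHom (ZMod 2)) = cyclotomic (3 ^ (j + 1)) (ZMod 2) := by
    rw [cyclotomic_prime_pow_eq_geom_sum Nat.prime_three]
    simp only [P, Polynomial.map_add, Polynomial.map_sub, Polynomial.map_mul, Polynomial.map_pow,
      map_X, Polynomial.map_one, Polynomial.map_ofNat, sum_range_succ, range_zero, sum_empty]
    have h2 : (2 : (ZMod 2)[X]) = 0 := CharTwo.two_eq_zero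
    generalize 3 ^ j = m
    linear_combination (-X ^ m - 2 * X ^ (m + 1) + 2 * X ^ (m + 3) + 2 * X ^ 4 - 2 * X ^ 2) * h2
  rw [e]
  have hn : ¬ 2 ∣ 3 ^ (j + 1) := by
    intro h; have := Nat.Prime.dvd_of_dvd_pow Nat.prime_two h; omega
  refine ZMod.irreducible_of_dvd_cyclotomic_of_natDegree hn dvd_rfl ?_
  rw [natDegree_cyclotomic, Nat.totient_prime_pow_succ Nat.prime_three, ← orderOf_units,
    ZMod.coe_unitOfCoprime]
  have := ord2 j
  push_cast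
  omega

lemma alg (j : ℕ) (hj : 2 ≤ j) : ∃ α : ℂ, IsIntegral ℤ α ∧ α ≠ 0 ∧
    (minpoly ℚ α).natDegree = 2 * 3 ^ j ∧
    (∀ z, z ∈ ((minpoly ℚ α).aroots ℂ).toFinset ↔ F (3 ^ j) z = 0) ∧
    ((minpoly ℚ α).aroots ℂ).toFinset.card = 2 * 3 ^ j ∧
    ∏ z ∈ ((minpoly ℚ α).aroots ℂ).toFinset, ‖z‖ = 1 := by
  classical
  have hm : 4 ≤ 3 ^ j := le_trans (by norm_num) (Nat.pow_le_pow_right (by norm_num) hj)
  have hI := P_irr j hj
  generalize 3 ^ j = m at *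
  obtain ⟨mo, dg⟩ := P_deg m hm
  set Q := (P m).map (algebraMap ℤ ℚ) with hQ
  have Qm : Q.Monic := mo.map _
  have QI : Irreducible Q := (mo.irreducible_iff_irreducible_map_fraction_map).1 hI
  have Qd : Q.natDegree = 2 * m := by rw [hQ, mo.natDegree_map, dg]
  have ev : ∀ z : ℂ, aeval z (P m) = F m z := by intro z; simp [P, F, map_ofNat]
  have evQ : ∀ z : ℂ, aeval z Q = F m z := by intro z; rw [hQ, aeval_map_algebraMap, ev]
  obtain ⟨α, hα⟩ := IsAlgClosed.exists_aeval_eq_zero ℂ Q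
    (by rw [degree_eq_natDegree Qm.ne_zero, Qd]; exact_mod_cast (by omega))
  have e : minpoly ℚ α = Q := (minpoly.eq_of_irreducible_of_monic QI hα Qm).symm
  have F0 : F m 0 = 1 := by
    have : m ≠ 0 := by omega
    simp [F, this]
  have nd : (Q.aroots ℂ).Nodup := nodup_roots (QI.separable.map)
  have sp : (Q.map (algebraMap ℚ ℂ)).Splits := IsAlgClosed.splits _
  refine ⟨α, ⟨P m, mo, by rw [← aeval_def, ev, ← evQ, hα]⟩, ?_, by rw [e, Qd], ?_, ?_, ?_⟩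
  · rintro rfl; rw [evQ, F0] at hα; exact one_ne_zero hα
  · intro z; rw [e, Multiset.mem_toFinset, mem_aroots, evQ]; simp [Qm.ne_zero]
  · rw [e, Multiset.toFinset_card_of_nodup nd, aroots, ← sp.natDegree_eq_card_roots,
      Qm.natDegree_map, Qd]
  · rw [e, ← norm_prod]
    have h1 := sp.coeff_zero_eq_prod_roots_of_monic (Qm.map _)
    have h2 : (Q.map (algebraMap ℚ ℂ)).coeff 0 = 1 := by
      rw [coeff_zero_eq_eval_zero, eval_map_algebraMap, evQ, F0]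
    have h3 : ∏ z ∈ (Q.aroots ℂ).toFinset, z = (Q.aroots ℂ).prod := by
      rw [Finset.prod, Multiset.toFinset_val, nd.dedup, Multiset.map_id']
    rw [h3]
    have := congrArg norm h1
    rw [h2, norm_mul, norm_pow, norm_neg, norm_one, one_pow, one_mul] at this
    exact this.symm

end Pool.Agent.H54.SqSize
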