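import Mathlib

set_option autoImplicit false

namespace Pool.Agent.H54.Strip

open Finset MeasureTheory
open Classical

noncomputable def ind (p : Prop) : ℝ := if p then 1 else 0

lemma ind_nonneg (p : Prop) : 0 ≤ ind p := by unfold ind; split_ifs <;> norm_num
lemma ind_le_one (p : Prop) : ind p ≤ 1 := by unfold ind; split_ifs <;> norm_num
lemma ind_pos {p : Prop} (h : p) : ind p = 1 := by unfold ind; rw [if_pos h]
lemma ind_neg {p : Prop} (h : ¬ p) : ind p = 0 := by unfold ind; rw [if_neg h]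
lemma ind_and (p q : Prop) : ind (p ∧ q) = ind p * ind q := by
  unfold ind; by_cases hp : p <;> by_cases hq : q <;> simp [hp, hq]
lemma ind_congr {p q : Prop} (h : p ↔ q) : ind p = ind q := by rw [propext h]

lemma card_eq {ι : Type} [Fintype ι] (p : ι → Prop) [DecidablePred p] :
    ((univ.filter p).card : ℝ) = ∑ i, ind (p i) := by
  rw [natCast_card_filter]
  exact sum_congr rfl (fun i _ => by unfold ind; split_ifs <;> rfl)

lemma cnt1 (m : ℕ) (hm : 0 < m) (u : ℝ) (h0 : 0 ≤ u) (h1 : u ≤ 1) :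
    m * u ≤ ∑ i : Fin m, ind (((i : ℕ) : ℝ) / m < u) ∧
      ∑ i : Fin m, ind (((i : ℕ) : ℝ) / m < u) ≤ m * u + 1 := by
  have hm' : (0 : ℝ) < m := by exact_mod_cast hm
  have hc : ⌈(m : ℝ) * u⌉₊ ≤ m := Nat.ceil_le.mpr (by nlinarith)
  have : ∑ i : Fin m, ind (((i : ℕ) : ℝ) / m < u) = ⌈(m : ℝ) * u⌉₊ := by
    rw [Fin.sum_univ_eq_sum_range (fun i : ℕ => ind ((i : ℝ) / m < u)) m]
    have h2 : ∀ i : ℕ, ind ((i : ℝ) / m < u) = if i < ⌈(m : ℝ) * u⌉₊ then 1 else 0 := by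
      intro i
      have : ((i : ℝ) / m < u) ↔ i < ⌈(m : ℝ) * u⌉₊ := by
        rw [Nat.lt_ceil, div_lt_iff₀ hm', mul_comm]
      split_ifs with h
      · exact ind_pos (this.mpr h)
      · exact ind_neg (fun h' => h (this.mp h'))
    simp only [h2]
    rw [← natCast_card_filter]
    have : (range m).filter (fun i => i < ⌈(m : ℝ) * u⌉₊) = range ⌈(m : ℝ) * u⌉₊ := by
      ext i; simp only [mem_filter, mem_range]; omega
    rw [this, card_range]
  rw [this]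
  exact ⟨Nat.le_ceil _, (Nat.ceil_lt_add_one (by positivity)).le⟩

lemma cnt2 (m : ℕ) (hm : 0 < m) (a b : ℝ) (h0 : 0 ≤ a) (hab : a ≤ b) (h1 : b ≤ 1) :
    |∑ i : Fin m, ind (a ≤ ((i : ℕ) : ℝ) / m ∧ ((i : ℕ) : ℝ) / m < b) - m * (b - a)| ≤ 1 := by
  have h2 : ∀ i : Fin m, ind (a ≤ ((i : ℕ) : ℝ) / m ∧ ((i : ℕ) : ℝ) / m < b)
      = ind (((i : ℕ) : ℝ) / m < b) - ind (((i : ℕ) : ℝ) / m < a) := by
    intro i
    by_cases ha : ((i : ℕ) : ℝ) / m < a
    · rw [ind_neg (fun h => by linarith [h.1]), ind_pos ha, ind_pos (by linarith)]; ring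
    · by_cases hb : ((i : ℕ) : ℝ) / m < b
      · rw [ind_pos ⟨not_lt.mp ha, hb⟩, ind_pos hb, ind_neg ha]; ring
      · rw [ind_neg (fun h => hb h.2), ind_neg hb, ind_neg ha]; ring
  simp only [h2]
  rw [sum_sub_distrib]
  have ha := cnt1 m hm a h0 (hab.trans h1)
  have hb := cnt1 m hm b (h0.trans hab) h1
  rw [abs_le]
  constructor <;> nlinarith [ha.1, ha.2, hb.1, hb.2]

lemma sum_ind_le (m : ℕ) (p : Fin m → Prop) : ∑ i, ind (p i) ≤ m := by
  refine (sum_le_sum (fun i _ => ind_le_one (p i))).trans ?_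
  simp

lemma sum_ind_nonneg (m : ℕ) (p : Fin m → Prop) : 0 ≤ ∑ i, ind (p i) :=
  sum_nonneg (fun i _ => ind_nonneg (p i))

/-- second coordinate of the point in column i and row j -/
noncomputable def yc (k : ℕ) (i j : Fin (k * k)) : ℝ :=
  if ((i : ℕ) : ℝ) / (k * k : ℕ) < 1 - 1 / k then ((j : ℕ) : ℝ) / (k * k : ℕ)
  else ((j : ℕ) : ℝ) / (k * k : ℕ) / 2

/-- the point set -/
noncomputable def pt (k : ℕ) (n : Fin ((k * k) * (k * k))) : Fin 2 → ℝ :=
  ![(((finProdFinEquiv.symm n).1 : ℕ) : ℝ) / (k * k : ℕ),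
    yc k (finProdFinEquiv.symm n).1 (finProdFinEquiv.symm n).2]

lemma frac_mem (m : ℕ) (i : Fin m) : 0 ≤ ((i : ℕ) : ℝ) / m ∧ ((i : ℕ) : ℝ) / m < 1 := by
  have hm : (0 : ℝ) < m := by exact_mod_cast i.pos
  refine ⟨by positivity, ?_⟩
  rw [div_lt_one hm]; exact_mod_cast i.2

lemma pt_mem (k : ℕ) (n : Fin ((k * k) * (k * k))) (j : Fin 2) :
    0 ≤ pt k n j ∧ pt k n j < 1 := by
  have h1 := frac_mem _ (finProdFinEquiv.symm n).1
  have h2 := frac_mem _ (finProdFinEquiv.symm n).2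
  fin_cases j
  · exact h1
  · simp only [pt, yc, Fin.mk_one, Matrix.cons_val_one, Matrix.cons_val_fin_one]
    split_ifs
    · exact h2
    · constructor <;> linarith [h2.1, h2.2]

lemma sum_pt (k : ℕ) (p q : ℝ → Prop) :
    ∑ n, ind (p (pt k n 0) ∧ q (pt k n 1)) =
      ∑ i : Fin (k * k), ind (p (((i : ℕ) : ℝ) / (k * k : ℕ))) * ∑ j, ind (q (yc k i j)) := by
  rw [← Equiv.sum_comp finProdFinEquiv, Fintype.sum_prod_type]
  refine sum_congr rfl (fun i _ => ?_)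
  rw [mul_sum]
  refine sum_congr rfl (fun j _ => ?_)
  rw [← ind_and]
  simp [pt]

lemma box_bound (k : ℕ) (hk : 1 ≤ k) (x y : Fin 2 → ℝ) (hx : 0 ≤ x) (hxy : x ≤ y) (hy : y ≤ 1) :
    |∑ n, ind (∀ j, x j ≤ pt k n j ∧ pt k n j < y j)
      - (((k * k) * (k * k) : ℕ) : ℝ) * ∏ j, (y j - x j)|
      ≤ 2 * k ^ 2 + (k ^ 3 + k ^ 2) * ind (1 - 1 / (k : ℝ) ≤ y 0) := by
  have hm : 0 < k * k := Nat.mul_pos hk hk
  have hk' : (1 : ℝ) ≤ k := by exact_mod_cast hk
  simp only [Fin.forall_fin_two, Fin.prod_univ_two]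
  rw [sum_pt k (fun z => x 0 ≤ z ∧ z < y 0) (fun z => x 1 ≤ z ∧ z < y 1)]
  set m := k * k with hmk
  have hmr : (m : ℝ) = (k : ℝ) ^ 2 := by rw [hmk]; push_cast; ring
  have ha := cnt2 m hm (x 0) (y 0) (hx 0) (hxy 0) (hy 0)
  have hb := cnt2 m hm (x 1) (y 1) (hx 1) (hxy 1) (hy 1)
  have hk1 : 0 ≤ 1 - 1 / (k : ℝ) := by
    rw [sub_nonneg, div_le_one (by linarith)]; exact hk'
  have hk2 : 1 - 1 / (k : ℝ) ≤ 1 := by
    have : 0 ≤ 1 / (k : ℝ) := by positivity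
    linarith
  have hc := cnt2 m hm (1 - 1 / k) 1 hk1 hk2 le_rfl
  set α := ∑ i : Fin m, ind (x 0 ≤ ((i : ℕ) : ℝ) / m ∧ ((i : ℕ) : ℝ) / m < y 0) with hα
  set β := ∑ i : Fin m, ind (x 1 ≤ ((i : ℕ) : ℝ) / m ∧ ((i : ℕ) : ℝ) / m < y 1) with hβ
  have hβ0 : 0 ≤ β := sum_ind_nonneg _ _
  have hβ1 : β ≤ m := sum_ind_le _ _
  have h1 : |α * β - ((m * m : ℕ) : ℝ) * ((y 0 - x 0) * (y 1 - x 1))| ≤ 2 * k ^ 2 := by
    have e : α * β - ((m * m : ℕ) : ℝ) * ((y 0 - x 0) * (y 1 - x 1))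
        = (α - m * (y 0 - x 0)) * β + (m * (y 0 - x 0)) * (β - m * (y 1 - x 1)) := by
      push_cast; ring
    have h3 : 0 ≤ y 0 - x 0 := sub_nonneg.mpr (hxy 0)
    have h4 : y 0 - x 0 ≤ 1 := by
      have h5 : (0 : ℝ) ≤ x 0 := hx 0
      have h6 : y 0 ≤ 1 := hy 0
      linarith
    have hm0 : (0 : ℝ) ≤ m := Nat.cast_nonneg m
    rw [e]
    refine (abs_add_le _ _).trans ?_
    rw [abs_mul, abs_mul, abs_of_nonneg hβ0, abs_of_nonneg (mul_nonneg hm0 h3), ← hmr]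
    have h7 : |α - m * (y 0 - x 0)| * β ≤ 1 * m :=
      mul_le_mul ha hβ1 hβ0 zero_le_one
    have h8 : (m * (y 0 - x 0)) * |β - m * (y 1 - x 1)| ≤ m * 1 :=
      mul_le_mul (by nlinarith) hb (abs_nonneg _) hm0
    linarith
  have h2 : |∑ i : Fin m, ind (x 0 ≤ ((i : ℕ) : ℝ) / m ∧ ((i : ℕ) : ℝ) / m < y 0) *
      ∑ j, ind (x 1 ≤ yc k i j ∧ yc k i j < y 1) - α * β|
      ≤ (k ^ 3 + k ^ 2) * ind (1 - 1 / (k : ℝ) ≤ y 0) := by
    rw [hα, sum_mul, ← sum_sub_distrib]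
    refine (abs_sum_le_sum_abs _ _).trans ?_
    have h3 : ∀ i : Fin m, |ind (x 0 ≤ ((i : ℕ) : ℝ) / m ∧ ((i : ℕ) : ℝ) / m < y 0) *
        ∑ j, ind (x 1 ≤ yc k i j ∧ yc k i j < y 1)
        - ind (x 0 ≤ ((i : ℕ) : ℝ) / m ∧ ((i : ℕ) : ℝ) / m < y 0) * β|
        ≤ ind (1 - 1 / (k : ℝ) ≤ ((i : ℕ) : ℝ) / m ∧ ((i : ℕ) : ℝ) / m < 1)
          * (m * ind (1 - 1 / (k : ℝ) ≤ y 0)) := by
      intro i
      have hr : 0 ≤ ind (1 - 1 / (k : ℝ) ≤ ((i : ℕ) : ℝ) / m ∧ ((i : ℕ) : ℝ) / m < 1)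
          * (m * ind (1 - 1 / (k : ℝ) ≤ y 0)) :=
        mul_nonneg (ind_nonneg _) (mul_nonneg (Nat.cast_nonneg m) (ind_nonneg _))
      by_cases hi : ((i : ℕ) : ℝ) / m < 1 - 1 / k
      · have : ∑ j, ind (x 1 ≤ yc k i j ∧ yc k i j < y 1) = β := by
          refine sum_congr rfl (fun j _ => ?_)
          have : yc k i j = ((j : ℕ) : ℝ) / m := if_pos hi
          rw [this]
        rw [this, sub_self, abs_zero]; exact hr
      · by_cases hb : x 0 ≤ ((i : ℕ) : ℝ) / m ∧ ((i : ℕ) : ℝ) / m < y 0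
        · rw [ind_pos hb, ind_pos ⟨not_lt.mp hi, (frac_mem m i).2⟩,
            ind_pos (show 1 - 1 / (k : ℝ) ≤ y 0 by linarith [not_lt.mp hi, hb.2])]
          have h4 := sum_ind_le m (fun j => x 1 ≤ yc k i j ∧ yc k i j < y 1)
          have h5 := sum_ind_nonneg m (fun j => x 1 ≤ yc k i j ∧ yc k i j < y 1)
          rw [abs_le]; constructor <;> linarith
        · rw [ind_neg hb]; simpa using hr
    refine (sum_le_sum (fun i _ => h3 i)).trans ?_
    rw [← sum_mul, ← mul_assoc]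
    refine mul_le_mul_of_nonneg_right ?_ (ind_nonneg _)
    have h4 := (abs_le.mp hc).2
    have h5 : (m : ℝ) * (1 - (1 - 1 / k)) = k := by
      rw [hmr]; field_simp; ring
    rw [h5] at h4
    rw [hmr] at *
    nlinarith [sq_nonneg (k : ℝ)]
  have := abs_sub_le (∑ i : Fin m, ind (x 0 ≤ ((i : ℕ) : ℝ) / m ∧ ((i : ℕ) : ℝ) / m < y 0) *
      ∑ j, ind (x 1 ≤ yc k i j ∧ yc k i j < y 1)) (α * β)
      (((m * m : ℕ) : ℝ) * ((y 0 - x 0) * (y 1 - x 1)))
  linarith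

/-- membership in a wrap-around interval -/
def inI (a b z : ℝ) : Prop := (a ≤ b ∧ a ≤ z ∧ z < b) ∨ (b < a ∧ (z < b ∨ a ≤ z))

/-- the periodic local discrepancy -/
noncomputable def perF {N : ℕ} (P : Fin N → Fin 2 → ℝ) (x y : Fin 2 → ℝ) : ℝ :=
  |∑ n, ind (∀ j, inI (x j) (y j) (P n j))
    - (N : ℝ) * ∏ j, (if x j ≤ y j then y j - x j else 1 - x j + y j)|

lemma per_lower (k : ℕ) (hk : 6 ≤ k) (x y : Fin 2 → ℝ)
    (hx : x ∈ Set.Icc (![1 / 2, 1 / 2] : Fin 2 → ℝ) ![3 / 4, 5 / 8])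
    (hy : y ∈ Set.Icc (![0, 7 / 8] : Fin 2 → ℝ) ![1 / 4, 1]) :
    (k : ℝ) ^ 2 * (k - 6) / 4 ≤ perF (pt k) x y := by
  have hm : 0 < k * k := Nat.mul_pos (by omega) (by omega)
  have hk' : (6 : ℝ) ≤ k := by exact_mod_cast hk
  have hx0 : 1 / 2 ≤ x 0 := by simpa using hx.1 0
  have hx1 : 1 / 2 ≤ x 1 := by simpa using hx.1 1
  have hx2 : x 0 ≤ 3 / 4 := by simpa using hx.2 0
  have hx3 : x 1 ≤ 5 / 8 := by simpa using hx.2 1
  have hy0 : 0 ≤ y 0 := by simpa using hy.1 0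
  have hy1 : 7 / 8 ≤ y 1 := by simpa using hy.1 1
  have hy2 : y 0 ≤ 1 / 4 := by simpa using hy.2 0
  have hy3 : y 1 ≤ 1 := by simpa using hy.2 1
  unfold perF
  simp only [Fin.forall_fin_two, Fin.prod_univ_two]
  rw [sum_pt k (fun z => inI (x 0) (y 0) z) (fun z => inI (x 1) (y 1) z),
    if_neg (show ¬ x 0 ≤ y 0 by linarith), if_pos (show x 1 ≤ y 1 by linarith)]
  set m := k * k with hmk
  have hmr : (m : ℝ) = (k : ℝ) ^ 2 := by rw [hmk]; push_cast; ring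
  have hk3 : 1 / (k : ℝ) ≤ 1 / 4 := one_div_le_one_div_of_le (by norm_num) (by linarith)
  have hk4 : 0 ≤ 1 / (k : ℝ) := by positivity
  have ha := (cnt1 m hm (y 0) hy0 (by linarith)).2
  have hb := (abs_le.mp (cnt2 m hm (x 1) (y 1) (by linarith) (by linarith) hy3)).2
  have hc := (abs_le.mp (cnt2 m hm (x 0) (1 - 1 / k) (by linarith) (by linarith)
    (by linarith))).2
  set β := ∑ i : Fin m, ind (x 1 ≤ ((i : ℕ) : ℝ) / m ∧ ((i : ℕ) : ℝ) / m < y 1) with hβ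
  have hβ0 : 0 ≤ β := sum_ind_nonneg _ _
  have h3 : ∀ i : Fin m, ind (inI (x 0) (y 0) (((i : ℕ) : ℝ) / m)) *
      ∑ j, ind (inI (x 1) (y 1) (yc k i j)) ≤
      (ind (((i : ℕ) : ℝ) / m < y 0) +
        ind (x 0 ≤ ((i : ℕ) : ℝ) / m ∧ ((i : ℕ) : ℝ) / m < 1 - 1 / k)) * β := by
    intro i
    by_cases hi : ((i : ℕ) : ℝ) / m < 1 - 1 / k
    · have : ∑ j, ind (inI (x 1) (y 1) (yc k i j)) = β := by
        refine sum_congr rfl (fun j _ => ?_)
        have : yc k i j = ((j : ℕ) : ℝ) / m := if_pos hi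
        rw [this]
        apply ind_congr
        unfold inI
        constructor
        · rintro (h | h)
          · exact h.2
          · linarith [h.1]
        · intro h
          exact Or.inl ⟨by linarith, h⟩
      rw [this]
      refine mul_le_mul_of_nonneg_right ?_ hβ0
      by_cases h : inI (x 0) (y 0) (((i : ℕ) : ℝ) / m)
      · rw [ind_pos h]
        rcases h with h | ⟨_, h | h⟩
        · linarith [h.1]
        · rw [ind_pos h]; linarith [ind_nonneg (x 0 ≤ ((i : ℕ) : ℝ) / m ∧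
            ((i : ℕ) : ℝ) / m < 1 - 1 / k)]
        · rw [ind_pos (And.intro h hi)]; linarith [ind_nonneg (((i : ℕ) : ℝ) / m < y 0)]
      · rw [ind_neg h]; exact add_nonneg (ind_nonneg _) (ind_nonneg _)
    · have : ∑ j, ind (inI (x 1) (y 1) (yc k i j)) = 0 := by
        refine sum_eq_zero (fun j _ => ?_)
        have : yc k i j = ((j : ℕ) : ℝ) / m / 2 := if_neg hi
        rw [this]
        apply ind_neg
        have := (frac_mem m j).2
        rintro (h | h)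
        · linarith [h.2.1]
        · linarith [h.1]
      rw [this, mul_zero]
      exact mul_nonneg (add_nonneg (ind_nonneg _) (ind_nonneg _)) hβ0
  have h4 := sum_le_sum (fun i (_ : i ∈ (univ : Finset (Fin m))) => h3 i)
  rw [← sum_mul, sum_add_distrib] at h4
  have h5 : (m : ℝ) * (1 - 1 / k - x 0) = m * (1 - x 0) - k := by
    rw [hmr]; field_simp; ring
  rw [h5] at hc
  set α := ∑ i : Fin m, ind (((i : ℕ) : ℝ) / m < y 0) +
    ∑ i : Fin m, ind (x 0 ≤ ((i : ℕ) : ℝ) / m ∧ ((i : ℕ) : ℝ) / m < 1 - 1 / k) with hα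
  have hα0 : 0 ≤ α := add_nonneg (sum_ind_nonneg _ _) (sum_ind_nonneg _ _)
  have hα1 : α ≤ m * (1 - x 0 + y 0) - k + 2 := by rw [hα]; linarith
  have hβ1 : β ≤ m * (y 1 - x 1) + 1 := by linarith
  have h6 : α * β ≤ (m * (1 - x 0 + y 0) - k + 2) * (m * (y 1 - x 1) + 1) :=
    mul_le_mul hα1 hβ1 hβ0 (hα0.trans hα1)
  refine le_trans ?_ (neg_le_abs _)
  have hm0 : (0 : ℝ) ≤ m := Nat.cast_nonneg m
  have h7 : (k - 2) * (m * (1 / 4)) ≤ (k - 2 : ℝ) * (m * (y 1 - x 1)) :=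
    mul_le_mul_of_nonneg_left (mul_le_mul_of_nonneg_left (by linarith) hm0) (by linarith)
  have h8 : (m : ℝ) * (1 - x 0 + y 0) ≤ m * 1 := mul_le_mul_of_nonneg_left (by linarith) hm0
  rw [Nat.cast_mul m m, ← hmr]
  nlinarith

lemma vol_box (a b : Fin 2 → ℝ) (h : a ≤ b) :
    (volume : Measure (Fin 2 → ℝ)).real (Set.Icc a b) = (b 0 - a 0) * (b 1 - a 1) := by
  rw [measureReal_def, Real.volume_Icc_pi_toReal h, Fin.prod_univ_two]

lemma vol_unit : (volume : Measure (Fin 2 → ℝ)).real (Set.Icc 0 1) = 1 := by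
  rw [vol_box _ _ zero_le_one]; simp

lemma vol_lt_top (a b : Fin 2 → ℝ) : (volume : Measure (Fin 2 → ℝ)) (Set.Icc a b) < ⊤ :=
  isCompact_Icc.measure_lt_top

instance : IsFiniteMeasure ((volume : Measure (Fin 2 → ℝ)).restrict (Set.Icc 0 1)) :=
  isFiniteMeasure_restrict.mpr (vol_lt_top _ _).ne

lemma int_indicator (a b : Fin 2 → ℝ) (h0 : 0 ≤ a) (h : a ≤ b) (h1 : b ≤ 1) (c : ℝ) :
    ∫ y in Set.Icc (0 : Fin 2 → ℝ) 1, (Set.Icc a b).indicator (fun _ => c) y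
      = (b 0 - a 0) * (b 1 - a 1) * c := by
  rw [integral_indicator_const _ measurableSet_Icc, measureReal_restrict_apply measurableSet_Icc,
    Set.inter_eq_left.mpr (Set.Icc_subset_Icc h0 h1), vol_box a b h, smul_eq_mul]

lemma upper_int (k : ℕ) (hk : 1 ≤ k) (f : (Fin 2 → ℝ) → ℝ) (h0 : ∀ y, 0 ≤ f y)
    (h : ∀ y ∈ Set.Icc (0 : Fin 2 → ℝ) 1,
      f y ≤ 2 * k ^ 2 + (k ^ 3 + k ^ 2) * ind (1 - 1 / (k : ℝ) ≤ y 0)) :
    ∫ y in Set.Icc (0 : Fin 2 → ℝ) 1, f y ≤ 4 * k ^ 2 := by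
  have hk' : (1 : ℝ) ≤ k := by exact_mod_cast hk
  have hk1 : 0 ≤ 1 - 1 / (k : ℝ) := by
    rw [sub_nonneg, div_le_one (by linarith)]; exact hk'
  have hk2 : 1 - 1 / (k : ℝ) ≤ 1 := by
    have : 0 ≤ 1 / (k : ℝ) := by positivity
    linarith
  have ha0 : (0 : Fin 2 → ℝ) ≤ ![1 - 1 / (k : ℝ), 0] := by
    intro j; fin_cases j <;> simp
    simpa using hk1
  have ha1 : (![1 - 1 / (k : ℝ), 0] : Fin 2 → ℝ) ≤ 1 := by
    intro j; fin_cases j <;> simp
  have hi : Integrable ((Set.Icc (![1 - 1 / (k : ℝ), 0] : Fin 2 → ℝ) 1).indicator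
      (fun _ => (k : ℝ) ^ 3 + k ^ 2)) (volume.restrict (Set.Icc (0 : Fin 2 → ℝ) 1)) :=
    (integrable_const _).indicator measurableSet_Icc
  calc ∫ y in Set.Icc (0 : Fin 2 → ℝ) 1, f y
      ≤ ∫ y in Set.Icc (0 : Fin 2 → ℝ) 1, (2 * (k : ℝ) ^ 2 +
        (Set.Icc (![1 - 1 / (k : ℝ), 0] : Fin 2 → ℝ) 1).indicator
          (fun _ => (k : ℝ) ^ 3 + k ^ 2) y) := by
        apply integral_mono_of_nonneg (Filter.Eventually.of_forall h0)
          ((integrable_const _).add hi)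
        filter_upwards [ae_restrict_mem measurableSet_Icc] with y hy
        refine (h y hy).trans ?_
        simp only [Pi.add_apply]
        by_cases hy0 : 1 - 1 / (k : ℝ) ≤ y 0
        · rw [ind_pos hy0, Set.indicator_of_mem, mul_one]
          refine ⟨fun j => ?_, hy.2⟩
          fin_cases j
          · simpa using hy0
          · simpa using hy.1 1
        · rw [ind_neg hy0, mul_zero]
          have : 0 ≤ (Set.Icc (![1 - 1 / (k : ℝ), 0] : Fin 2 → ℝ) 1).indicator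
            (fun _ => (k : ℝ) ^ 3 + k ^ 2) y :=
            Set.indicator_nonneg (fun _ _ => by positivity) y
          linarith
    _ = 2 * (k : ℝ) ^ 2 + (k ^ 2 + k) := by
        rw [integral_add (integrable_const _) hi, int_indicator _ _ ha0 ha1 le_rfl,
          integral_const, measureReal_restrict_apply_univ, vol_unit]
        simp only [Pi.one_apply, Matrix.cons_val_zero, Matrix.cons_val_one, smul_eq_mul]
        field_simp
        ring
    _ ≤ 4 * k ^ 2 := by nlinarith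

lemma perF_meas {N : ℕ} (P : Fin N → Fin 2 → ℝ) :
    Measurable (fun z : (Fin 2 → ℝ) × (Fin 2 → ℝ) => perF P z.1 z.2) := by
  have h1 : ∀ j : Fin 2, Measurable (fun z : (Fin 2 → ℝ) × (Fin 2 → ℝ) => z.1 j) :=
    fun j => (measurable_pi_apply j).comp measurable_fst
  have h2 : ∀ j : Fin 2, Measurable (fun z : (Fin 2 → ℝ) × (Fin 2 → ℝ) => z.2 j) :=
    fun j => (measurable_pi_apply j).comp measurable_snd
  unfold perF
  refine continuous_abs.measurable.comp (Measurable.sub ?_ ?_)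
  · refine Finset.measurable_sum _ (fun n _ => ?_)
    unfold ind
    refine Measurable.ite ?_ measurable_const measurable_const
    rw [Set.ofPred_forall]
    refine MeasurableSet.iInter (fun j => ?_)
    unfold inI
    exact ((measurableSet_le (h1 j) (h2 j)).inter ((measurableSet_le (h1 j) measurable_const).inter
      (measurableSet_lt measurable_const (h2 j)))).union
      ((measurableSet_lt (h2 j) (h1 j)).inter ((measurableSet_lt measurable_const (h2 j)).union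
        (measurableSet_le (h1 j) measurable_const)))
  · refine measurable_const.mul (Finset.measurable_prod _ (fun j _ => ?_))
    exact Measurable.ite (measurableSet_le (h1 j) (h2 j)) ((h2 j).sub (h1 j))
      ((measurable_const.sub (h1 j)).add (h2 j))

lemma perF_bdd {N : ℕ} (P : Fin N → Fin 2 → ℝ) (x y : Fin 2 → ℝ)
    (hx : x ∈ Set.Icc (0 : Fin 2 → ℝ) 1) (hy : y ∈ Set.Icc (0 : Fin 2 → ℝ) 1) :
    perF P x y ≤ N := by
  unfold perF
  have h1 := sum_ind_le N (fun n => ∀ j, inI (x j) (y j) (P n j))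
  have h2 := sum_ind_nonneg N (fun n => ∀ j, inI (x j) (y j) (P n j))
  have h3 : ∀ j : Fin 2, 0 ≤ (if x j ≤ y j then y j - x j else 1 - x j + y j) ∧
      (if x j ≤ y j then y j - x j else 1 - x j + y j) ≤ 1 := by
    intro j
    have a1 : (0 : ℝ) ≤ x j := hx.1 j
    have a2 : x j ≤ 1 := hx.2 j
    have a3 : (0 : ℝ) ≤ y j := hy.1 j
    have a4 : y j ≤ 1 := hy.2 j
    split_ifs with h <;> constructor <;> linarith
  have h4 : 0 ≤ ∏ j, (if x j ≤ y j then y j - x j else 1 - x j + y j) :=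
    prod_nonneg (fun j _ => (h3 j).1)
  have h5 : ∏ j, (if x j ≤ y j then y j - x j else 1 - x j + y j) ≤ 1 :=
    prod_le_one (fun j _ => (h3 j).1) (fun j _ => (h3 j).2)
  have h6 : (0 : ℝ) ≤ N := Nat.cast_nonneg N
  rw [abs_le]
  constructor <;> nlinarith

lemma perF_nonneg {N : ℕ} (P : Fin N → Fin 2 → ℝ) (x y : Fin 2 → ℝ) : 0 ≤ perF P x y :=
  abs_nonneg _

lemma lower_int (f : (Fin 2 → ℝ) → ℝ) (hf : Measurable f) (B : ℝ) (h0 : ∀ y, 0 ≤ f y)
    (hB : ∀ y ∈ Set.Icc (0 : Fin 2 → ℝ) 1, f y ≤ B) (a b : Fin 2 → ℝ) (ha : 0 ≤ a)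
    (hab : a ≤ b) (hb : b ≤ 1) (c : ℝ) (hc : ∀ y ∈ Set.Icc a b, c ≤ f y) :
    (b 0 - a 0) * (b 1 - a 1) * c ≤ ∫ y in Set.Icc (0 : Fin 2 → ℝ) 1, f y := by
  rw [← int_indicator a b ha hab hb c]
  apply integral_mono ((integrable_const _).indicator measurableSet_Icc)
  · refine Integrable.of_bound hf.aestronglyMeasurable B ?_
    filter_upwards [ae_restrict_mem measurableSet_Icc] with y hy
    rw [Real.norm_of_nonneg (h0 y)]; exact hB y hy
  · intro y
    by_cases hy : y ∈ Set.Icc a b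
    · simp only [Set.indicator_of_mem hy]; exact hc y hy
    · simp only [Set.indicator_of_notMem hy]; exact h0 y

lemma per_int (k : ℕ) (hk : 6 ≤ k) :
    (k : ℝ) ^ 2 * (k - 6) / 4096 ≤ ∫ x in Set.Icc (0 : Fin 2 → ℝ) 1,
      ∫ y in Set.Icc (0 : Fin 2 → ℝ) 1, perF (pt k) x y := by
  have hm := perF_meas (pt k)
  have h := lower_int (fun x => ∫ y in Set.Icc (0 : Fin 2 → ℝ) 1, perF (pt k) x y)
    (hm.stronglyMeasurable.integral_prod_right'.measurable) ((k * k * (k * k) : ℕ) : ℝ)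
    (fun x => integral_nonneg (fun y => perF_nonneg _ _ _)) ?_
    ![1 / 2, 1 / 2] ![3 / 4, 5 / 8] ?_ ?_ ?_ ((k : ℝ) ^ 2 * (k - 6) / 128) ?_
  · simp only [Matrix.cons_val_zero, Matrix.cons_val_one] at h
    linarith
  · intro x hx
    calc ∫ y in Set.Icc (0 : Fin 2 → ℝ) 1, perF (pt k) x y
        ≤ ∫ y in Set.Icc (0 : Fin 2 → ℝ) 1, ((k * k * (k * k) : ℕ) : ℝ) := by
          apply integral_mono_of_nonneg (Filter.Eventually.of_forall (perF_nonneg _ _))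
            (integrable_const _)
          filter_upwards [ae_restrict_mem measurableSet_Icc] with y hy
          exact perF_bdd _ x y hx hy
      _ = _ := by rw [integral_const, measureReal_restrict_apply_univ, vol_unit]; simp
  · intro j; fin_cases j <;> simp
  · intro j; fin_cases j <;> simp <;> norm_num
  · intro j; fin_cases j <;> simp <;> norm_num
  · intro x hx
    have hx' : x ∈ Set.Icc (0 : Fin 2 → ℝ) 1 := by
      refine Set.Icc_subset_Icc ?_ ?_ hx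
      · intro j; fin_cases j <;> simp
      · intro j; fin_cases j <;> simp <;> norm_num
    have h := lower_int (fun y => perF (pt k) x y) (hm.comp measurable_prodMk_left)
      ((k * k * (k * k) : ℕ) : ℝ) (perF_nonneg _ _) (fun y hy => perF_bdd _ x y hx' hy)
      ![0, 7 / 8] ![1 / 4, 1] ?_ ?_ ?_ ((k : ℝ) ^ 2 * (k - 6) / 4)
      (fun y hy => per_lower k hk x y hx hy)
    · simp only [Matrix.cons_val_zero, Matrix.cons_val_one] at h
      linarith
    · intro j; fin_cases j <;> simp <;> norm_num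
    · intro j; fin_cases j <;> simp <;> norm_num
    · intro j; fin_cases j <;> simp <;> norm_num

lemma final (C : ℝ) (h : ∀ k : ℕ, 6 ≤ k → (k : ℝ) ^ 2 * (k - 6) / 4096 ≤ C * (4 * k ^ 2)) :
    False := by
  obtain ⟨k, hk⟩ := exists_nat_gt (max 6 (16384 * C + 6))
  have h1 : (6 : ℝ) < k := (le_max_left _ _).trans_lt hk
  have h2 : 16384 * C + 6 < k := (le_max_right _ _).trans_lt hk
  have h3 := h k (by exact_mod_cast h1.le)
  have h4 : (0 : ℝ) < (k : ℝ) ^ 2 := by positivity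
  nlinarith

end Pool.Agent.H54.Strip
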