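import Mathlib

namespace Pool.Agent.H54.SupNorm

open scoped ENNReal

/-- A pointwise bounded, separating family of linear functionals on `V`. -/
structure Fam (V : Type) [AddCommGroup V] [Module ℂ V] where
  I : Type
  ψ : I → V →ₗ[ℂ] ℂ
  bdd : ∀ x, ∃ t : ℝ, ∀ i, ‖ψ i x‖ ≤ t
  sep : ∀ x, (∀ i, ψ i x = 0) → x = 0

variable {V : Type} [AddCommGroup V] [Module ℂ V]

/-- `V` with the norm `sup_i |ψ_i x|`. -/
def Fam.Sp (_F : Fam V) : Type := V

variable (F : Fam V)

instance : AddCommGroup F.Sp := inferInstanceAs (AddCommGroup V)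
instance : Module ℂ F.Sp := inferInstanceAs (Module ℂ V)
instance [h : FiniteDimensional ℂ V] : FiniteDimensional ℂ F.Sp := h
instance [h : Nontrivial V] : Nontrivial F.Sp := h

noncomputable def Fam.emb : F.Sp →ₗ[ℂ] lp (fun _ : F.I => ℂ) ∞ where
  toFun x := ⟨fun i => F.ψ i x, memℓp_infty (by
    obtain ⟨t, ht⟩ := F.bdd x
    exact ⟨t, by rintro _ ⟨i, rfl⟩; exact ht i⟩)⟩
  map_add' x y := by
    ext i
    exact (F.ψ i).map_add x y
  map_smul' c x := by
    ext i
    exact (F.ψ i).map_smul c x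

theorem Fam.emb_inj : Function.Injective F.emb := by
  rw [injective_iff_map_eq_zero]
  intro x hx
  refine F.sep x fun i => ?_
  have : (F.emb x : ∀ _ : F.I, ℂ) i = 0 := by rw [hx]; rfl
  exact this

noncomputable instance : NormedAddCommGroup F.Sp :=
  NormedAddCommGroup.induced _ _ F.emb F.emb_inj
noncomputable instance : NormedSpace ℂ F.Sp := NormedSpace.induced ℂ _ _ F.emb
instance [FiniteDimensional ℂ V] : CompleteSpace F.Sp := FiniteDimensional.complete ℂ _

theorem Fam.le_norm (x : F.Sp) (i : F.I) : ‖F.ψ i x‖ ≤ ‖x‖ :=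
  lp.norm_apply_le_norm (by simp) (F.emb x) i

theorem Fam.norm_le (x : F.Sp) {t : ℝ} (ht : 0 ≤ t) (h : ∀ i, ‖F.ψ i x‖ ≤ t) : ‖x‖ ≤ t :=
  lp.norm_le_of_forall_le (f := F.emb x) ht h

/-- a linear map of `V` as a bounded operator on `F.Sp` -/
noncomputable def Fam.op [FiniteDimensional ℂ V] : (V →ₗ[ℂ] V) →ₐ[ℂ] (F.Sp →L[ℂ] F.Sp) where
  toFun A := LinearMap.toContinuousLinearMap (show F.Sp →ₗ[ℂ] F.Sp from A)
  map_one' := by ext; rfl
  map_mul' _ _ := by ext; rfl
  map_zero' := by ext; rfl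
  map_add' _ _ := by ext; rfl
  commutes' _ := by ext; rfl

theorem Fam.op_apply [FiniteDimensional ℂ V] (A : V →ₗ[ℂ] V) (x : V) :
    F.op A (show F.Sp from x) = (show F.Sp from A x) := rfl

theorem resolvent_eq {A : Type*} [Ring A] [Algebra ℂ A] {a r : A} {z : ℂ}
    (h1 : (algebraMap ℂ A z - a) * r = 1) (h2 : r * (algebraMap ℂ A z - a) = 1) :
    z ∉ spectrum ℂ a ∧ resolvent a z = r := by
  have hu : IsUnit (algebraMap ℂ A z - a) := ⟨⟨_, _, h1, h2⟩, rfl⟩
  refine ⟨fun h => h hu, ?_⟩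
  unfold resolvent
  calc _ = Ring.inverse (algebraMap ℂ A z - a) * ((algebraMap ℂ A z - a) * r) := by
        rw [h1, mul_one]
    _ = _ := by rw [← mul_assoc, Ring.inverse_mul_cancel _ hu, one_mul]

end Pool.Agent.H54.SupNorm
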