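import Mathlib

namespace Pool.Agent.H54.SuperCat

open Nat

/-- rising factorial of one half -/
def h : ℕ → ℚ
  | 0 => 1
  | m + 1 => h m * ((2 * m + 1) / 2)

lemma h_eq (m : ℕ) : h m = ((2 * m)! : ℚ) / (4 ^ m * m !) := by
  induction m with
  | zero => simp [h]
  | succ m ih =>
    rw [h, ih, show 2 * (m + 1) = 2 * m + 1 + 1 by ring]
    simp only [factorial_succ]
    push_cast
    field_simp
    ring

lemma h_pos (m : ℕ) : 0 < h m := by rw [h_eq]; positivity

lemma cb (m : ℕ) : ((2 * m).choose m : ℚ) = 4 ^ m * h m / m ! := by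
  rw [h_eq, Nat.cast_choose ℚ (by omega), show 2 * m - m = m by omega]
  field_simp

/-- super Catalan numbers are integers -/
lemma sc (a b : ℕ) : ∃ z : ℤ, 4 ^ (a + b) * h a * h b / (a + b)! = z := by
  induction b generalizing a with
  | zero => exact ⟨(2 * a).choose a, by rw [Int.cast_natCast, cb]; simp [h]⟩
  | succ b ih =>
    obtain ⟨x, hx⟩ := ih a
    obtain ⟨y, hy⟩ := ih (a + 1)
    refine ⟨4 * x - y, ?_⟩
    push_cast
    rw [← hx, ← hy, show a + 1 + b = a + b + 1 by ring, show a + (b + 1) = a + b + 1 by ring]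
    simp only [h, factorial_succ]
    push_cast
    field_simp
    ring

/-- Catalan numbers -/
lemma cat (m : ℕ) : ∃ z : ℤ, 4 ^ m * h m / m ! / (m + 1) = z := by
  obtain ⟨z, hz⟩ := Nat.succ_dvd_centralBinom m
  refine ⟨z, ?_⟩
  rw [← cb, ← Nat.centralBinom_eq_two_mul_choose, hz]
  push_cast
  field_simp

/-- `C(2m,m)/(2m-1)` is an integer -/
lemma ee (m : ℕ) : ∃ z : ℤ, 4 ^ m * h m / m ! / (2 * m - 1) = z := by
  cases m with
  | zero => exact ⟨-1, by simp [h]⟩
  | succ m =>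
    obtain ⟨z, hz⟩ := cat m
    refine ⟨2 * z, ?_⟩
    push_cast
    rw [← hz, h, factorial_succ, show (2 * ((m : ℚ) + 1) - 1) = 2 * m + 1 by ring]
    push_cast
    field_simp
    ring

lemma even_cb (m : ℕ) : ∃ z : ℤ, 4 ^ (m + 1) * h (m + 1) / (m + 1)! = 2 * z := by
  obtain ⟨z, hz⟩ := cat m
  refine ⟨(2 * m + 1) * z, ?_⟩
  push_cast
  rw [← hz, h, factorial_succ]
  push_cast
  field_simp
  ring

lemma odd_ne (a b : ℤ) : (2 * a + 1 : ℚ) ≠ 2 * b := by
  intro h
  have : (2 * a + 1 : ℤ) = 2 * b := by exact_mod_cast h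
  omega

lemma sum_int {n : ℕ} {f : ℕ → ℚ} (hf : ∀ j < n, ∃ z : ℤ, f j = z) :
    ∃ z : ℤ, ∑ j ∈ Finset.range n, f j = z := by
  induction n with
  | zero => exact ⟨0, by simp⟩
  | succ n ih =>
    obtain ⟨x, hx⟩ := ih fun j hj => hf j (by omega)
    obtain ⟨y, hy⟩ := hf n (by omega)
    exact ⟨x + y, by rw [Finset.sum_range_succ, hx, hy]; push_cast; rfl⟩

lemma int_of_coprime {q : ℚ} {a b x y : ℤ} (hab : IsCoprime a b) (h1 : a * q = x) (h2 : b * q = y) :
    ∃ z : ℤ, q = z := by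
  obtain ⟨u, v, h⟩ := hab
  refine ⟨u * x + v * y, ?_⟩
  have : (u : ℚ) * a + v * b = 1 := by exact_mod_cast h
  push_cast
  rw [← h1, ← h2]
  linear_combination (-q) * this

end Pool.Agent.H54.SuperCat
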