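import Pool.Agent.H54.SuperCat

namespace Pool.Agent.H54.SuperCat

open Nat

lemma bb (c k : ℕ) : ∃ z : ℤ, 4 ^ k * h (c + k) / (h c * k !) = z := by
  induction c generalizing k with
  | zero => exact ⟨(2 * k).choose k, by rw [Int.cast_natCast, cb]; simp [h]⟩
  | succ c ih =>
    induction k with
    | zero => exact ⟨1, by have := (h_pos (c + 1)).ne'; simp [this]⟩
    | succ k ih2 =>
      obtain ⟨x, hx⟩ := ih (k + 1)
      obtain ⟨y, hy⟩ := ih2
      refine ⟨x + 4 * y, ?_⟩
      push_cast
      rw [← hx, ← hy, show c + 1 + (k + 1) = c + k + 1 + 1 by ring, show c + (k + 1) = c + k + 1 by ring,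
        show c + 1 + k = c + k + 1 by ring]
      have := (h_pos c).ne'
      simp only [h, factorial_succ]
      push_cast
      field_simp
      ring

/-- the multinomial coefficient `(4k)!/(k!)^4` -/
def M4 (k : ℕ) : ℚ := ((4 * k)! : ℚ) / (k ! : ℚ) ^ 4

lemma Mpos (n : ℕ) : 0 < M4 n := by unfold M4; positivity

lemma Mle (n : ℕ) : M4 (n + 1) ≤ 256 * M4 n := by
  have : M4 (n + 1) = M4 n * ((4 * n + 1) * (4 * n + 2) * (4 * n + 3) * 4 / (n + 1) ^ 3) := by
    simp only [M4, show 4 * (n + 1) = 4 * n + 1 + 1 + 1 + 1 by ring, factorial_succ]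
    push_cast
    field_simp
    ring
  rw [this, mul_comm]
  refine mul_le_mul_of_nonneg_right ?_ (Mpos n).le
  rw [div_le_iff₀ (by positivity)]
  have : (0 : ℚ) ≤ n := by positivity
  nlinarith [mul_nonneg this this]

/-- alternating sums with fast decreasing terms are positive -/
lemma alt_pos {t : ℕ → ℚ} {c : ℚ} (hc : 0 < c) (h0 : ∀ k, 0 < t k) (h1 : t 1 < c * t 0)
    (h2 : ∀ k, 1 ≤ k → t (k + 1) ≤ c * t k) (n : ℕ) :
    0 < ∑ k ∈ Finset.range (n + 1), t k / (-c) ^ k := by
  have key : ∀ m, 0 < ∑ k ∈ Finset.range (2 * m + 2), t k / (-c) ^ k := by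
    intro m
    induction m with
    | zero =>
      simp only [mul_zero, zero_add, Finset.sum_range_succ, Finset.sum_range_zero, pow_zero, pow_one,
        div_one, div_neg]
      rw [← sub_eq_add_neg, sub_pos, div_lt_iff₀ hc]; linarith
    | succ m ih =>
      rw [show 2 * (m + 1) + 2 = 2 * m + 2 + 1 + 1 by ring, Finset.sum_range_succ, Finset.sum_range_succ,
        Even.neg_pow ⟨m + 1, by ring⟩, Odd.neg_pow ⟨m + 1, by ring⟩, div_neg]
      have : t (2 * m + 2 + 1) / c ^ (2 * m + 2 + 1) ≤ t (2 * m + 2) / c ^ (2 * m + 2) := by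
        rw [_root_.pow_succ', ← div_div]
        refine div_le_div_of_nonneg_right ?_ (by positivity)
        rw [div_le_iff₀ hc, mul_comm (t _)]
        exact h2 _ (by omega)
      linarith
  rcases Nat.even_or_odd' n with ⟨m, rfl | rfl⟩
  · cases m with
    | zero => simpa using h0 0
    | succ m =>
      rw [show 2 * (m + 1) + 1 = 2 * m + 2 + 1 by ring, Finset.sum_range_succ, Even.neg_pow ⟨m + 1, by ring⟩]
      have := key m
      have := h0 (2 * m + 2)
      positivity
  · exact key m

end Pool.Agent.H54.SuperCat
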