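import Pool.Agent.H54.SuperCat2

namespace Pool.Agent.H54.SuperCat

open Nat

lemma bin (a b : ℕ) : ∃ z : ℤ, ((a + b)! : ℚ) / (a ! * b !) = z :=
  ⟨(a + b).choose a, by rw [Int.cast_natCast, Nat.cast_add_choose]⟩

lemma fc (m : ℕ) : ∃ z : ℤ, ((3 * m)! : ℚ) / (m ! * (2 * m)!) / (2 * m + 1) = z := by
  cases m with
  | zero => exact ⟨1, by simp⟩
  | succ k =>
    obtain ⟨x, hx⟩ := bin (k + 1) (2 * (k + 1))
    obtain ⟨y, hy⟩ := bin k (2 * (k + 1) + 1)
    refine ⟨x - 2 * y, ?_⟩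
    push_cast
    rw [← hx, ← hy, show k + 1 + 2 * (k + 1) = 3 * (k + 1) by ring,
      show k + (2 * (k + 1) + 1) = 3 * (k + 1) by ring, factorial_succ k, factorial_succ (2 * (k + 1))]
    push_cast
    field_simp
    ring

lemma c3 (k : ℕ) : ((2 * k).choose k : ℚ) ^ 2 * ((3 * k).choose k : ℚ) =
    4 ^ k * h k * (3 * k)! / (k ! : ℚ) ^ 4 := by
  rw [Nat.cast_choose ℚ (show k ≤ 2 * k by omega), Nat.cast_choose ℚ (show k ≤ 3 * k by omega), h_eq,
    show 2 * k - k = k by omega, show 3 * k - k = 2 * k by omega]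
  field_simp

end Pool.Agent.H54.SuperCat
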