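import Mathlib

namespace Pool.Agent.H54.TDom

open Finset

variable {V : Type} [DecidableEq V] (r : V → V → Prop) [DecidableRel r]

/-- neighbours of `y` in `A` -/
def nb (A : Finset V) (y : V) : Finset V := A.filter (fun x => r x y)

def NoIso (A B : Finset V) : Prop := (∀ x ∈ A, ∃ y ∈ B, r x y) ∧ (∀ y ∈ B, ∃ x ∈ A, r x y)

/-- at least `s` vertices of `A` are needed to dominate `B` -/
def Dom (A B : Finset V) (s : ℕ) : Prop := ∀ S ⊆ A, (∀ y ∈ B, ∃ x ∈ S, r x y) → s ≤ #S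

def m (A B : Finset V) : ℤ := ∑ y ∈ B, (#(nb r A y) : ℤ)

variable {r}

omit [DecidableEq V] in
theorem mem_nb {A : Finset V} {x y : V} : x ∈ nb r A y ↔ x ∈ A ∧ r x y := mem_filter

omit [DecidableEq V] in
theorem m_comm (hs : ∀ x y, r x y → r y x) (A B : Finset V) : m r A B = m r B A := by
  unfold m nb
  simp only [card_filter]
  push_cast
  rw [sum_comm]
  refine sum_congr rfl fun x _ => sum_congr rfl fun y _ => ?_
  by_cases h : r y x
  · simp [h, hs _ _ h]
  · have : ¬ r x y := fun h' => h (hs _ _ h')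
    simp [h, this]

omit [DecidableEq V] [DecidableRel r] in
theorem NoIso.symm (hs : ∀ x y, r x y → r y x) {A B : Finset V} (h : NoIso r A B) :
    NoIso r B A :=
  ⟨fun y hy => (h.2 y hy).imp fun _ hx => ⟨hx.1, hs _ _ hx.2⟩,
    fun x hx => (h.1 x hx).imp fun _ hy => ⟨hy.1, hs _ _ hy.2⟩⟩

omit [DecidableEq V] [DecidableRel r] in
theorem Dom.mono {A B : Finset V} {s s' : ℕ} (h : Dom r A B s) (h' : s' ≤ s) : Dom r A B s' :=
  fun S h1 h2 => h'.trans (h S h1 h2)

omit [DecidableEq V] [DecidableRel r] in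
theorem Dom.one {A B : Finset V} (h : B.Nonempty) : Dom r A B 1 := by
  intro S _ h2
  obtain ⟨y, hy⟩ := h
  obtain ⟨x, hx, _⟩ := h2 y hy
  exact card_pos.2 ⟨x, hx⟩

omit [DecidableRel r] in
theorem Dom.cover {A B : Finset V} {s : ℕ} (h : Dom r A B s) (hn : ∀ y ∈ B, ∃ x ∈ A, r x y)
    (S U : Finset V) (hS : S ⊆ A) (hU : ∀ y ∈ B, y ∉ U → ∃ x ∈ S, r x y) : s ≤ #S + #U := by
  classical
  choose! f hf using hn
  have h1 := h (S ∪ (U ∩ B).image f) (union_subset hS (by
    intro x hx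
    obtain ⟨y, hy, rfl⟩ := mem_image.1 hx
    exact (hf y (mem_inter.1 hy).2).1)) (by
    intro y hy
    by_cases hyU : y ∈ U
    · exact ⟨f y, mem_union_right _ (mem_image_of_mem _ (mem_inter.2 ⟨hyU, hy⟩)), (hf y hy).2⟩
    · obtain ⟨x, hx, hr⟩ := hU y hy hyU
      exact ⟨x, mem_union_left _ hx, hr⟩)
  have h2 := card_union_le S ((U ∩ B).image f)
  have h3 : #((U ∩ B).image f) ≤ #(U ∩ B) := card_image_le
  have h4 : #(U ∩ B) ≤ #U := card_le_card inter_subset_left
  omega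

theorem card_sdiff_nb (A : Finset V) (y : V) : #(A \ nb r A y) + #(nb r A y) = #A :=
  card_sdiff_add_card_eq_card (filter_subset _ _)

theorem deg_le (hs : ∀ x y, r x y → r y x) {A B : Finset V} {t : ℕ} (hn : NoIso r A B)
    (h : Dom r B A t) {y : V} (hy : y ∈ B) : (#(nb r A y) : ℤ) ≤ #A - t + 1 := by
  have h1 := h.cover (hn.symm hs).2 {y} (A \ nb r A y) (by simpa using hy) (by
    intro x hx hx'
    refine ⟨y, mem_singleton_self _, hs _ _ ?_⟩
    by_contra hc
    exact hx' (mem_sdiff.2 ⟨hx, fun h => hc (mem_nb.1 h).2⟩))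
  have h2 := card_sdiff_nb (r := r) A y
  rw [card_singleton] at h1
  omega

theorem coloring (L : Finset V) (C : V → Finset V) (I : Finset V) : (∀ i ∈ I, C i ⊆ L) →
    ∃ φ : V → V, (∀ i ∈ I, ∀ x ∈ C i, ∀ x' ∈ C i, φ x = φ x') ∧
      #L ≤ #(L.image φ) + ∑ i ∈ I, (#(C i) - 1) := by
  induction I using Finset.induction_on with
  | empty => intro _; exact ⟨id, by simp, by simp⟩
  | insert j I hj ih =>
    intro h
    obtain ⟨φ, h1, h2⟩ := ih fun i hi => h i (mem_insert_of_mem hi)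
    rw [sum_insert hj]
    rcases (C j).eq_empty_or_nonempty with he | ⟨c, hc⟩
    · refine ⟨φ, ?_, by omega⟩
      intro i hi
      rcases mem_insert.1 hi with rfl | hi
      · simp [he]
      · exact h1 i hi
    · refine ⟨fun x => if φ x ∈ (C j).image φ then φ c else φ x, ?_, ?_⟩
      · intro i hi x hx x' hx'
        rcases mem_insert.1 hi with rfl | hi
        · simp only [if_pos (mem_image_of_mem φ hx), if_pos (mem_image_of_mem φ hx')]
        · simp only [h1 i hi x hx x' hx']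
      · have h3 : L.image φ ⊆ L.image (fun x => if φ x ∈ (C j).image φ then φ c else φ x) ∪
            ((C j).erase c).image φ := by
          intro v hv
          obtain ⟨x, hx, rfl⟩ := mem_image.1 hv
          by_cases hx' : φ x ∈ (C j).image φ
          · obtain ⟨x', hx1, hx2⟩ := mem_image.1 hx'
            by_cases hcx : x' = c
            · refine mem_union_left _ (mem_image.2 ⟨x, hx, ?_⟩)
              rw [if_pos hx', ← hx2, hcx]
            · exact mem_union_right _ (mem_image.2 ⟨x', mem_erase.2 ⟨hcx, hx1⟩, hx2⟩)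
          · exact mem_union_left _ (mem_image.2 ⟨x, hx, if_neg hx'⟩)
        have h4 := (card_le_card h3).trans (card_union_le _ _)
        have h5 : #(((C j).erase c).image φ) ≤ #((C j).erase c) := card_image_le
        rw [card_erase_of_mem hc] at h5
        omega

omit [DecidableEq V] in
theorem prod_ge (W : Finset V) (k : V → ℕ) (hk : ∀ w ∈ W, 1 ≤ k w) :
    1 + ∑ w ∈ W, ((k w : ℤ) - 1) ≤ ∏ w ∈ W, (k w : ℤ) := by
  classical
  induction W using Finset.induction_on with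
  | empty => simp
  | insert j W hj ih =>
    rw [sum_insert hj, prod_insert hj]
    have h1 := ih fun w hw => hk w (mem_insert_of_mem hw)
    have h2 : (1 : ℤ) ≤ k j := by exact_mod_cast hk j (mem_insert_self _ _)
    have h3 : (0 : ℤ) ≤ ∑ w ∈ W, ((k w : ℤ) - 1) := sum_nonneg fun w hw => by
      have : (1 : ℤ) ≤ k w := by exact_mod_cast hk w (mem_insert_of_mem hw)
      linarith
    nlinarith

/-- selection counting: an injective choice indexed by all colour selections -/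
theorem sel_count (W : Finset V) (K : V → Finset V) (hK : ∀ w ∈ W, (K w).Nonempty)
    (P : Finset V) (rel : V → V → V → Prop)
    (hex : ∀ γ : V → V, (∀ w ∈ W, γ w ∈ K w) → ∃ p ∈ P, ∀ w ∈ W, rel p w (γ w))
    (huniq : ∀ p ∈ P, ∀ w ∈ W, ∀ c c', rel p w c → rel p w c' → c = c') :
    ∃ Q ⊆ P, 1 + ∑ w ∈ W, ((#(K w) : ℤ) - 1) ≤ #Q ∧ (∀ p ∈ Q, ∀ w ∈ W, ∃ c, rel p w c) ∧
      ∀ p ∈ Q, ∀ p' ∈ Q, p ≠ p' → ∃ w ∈ W, ∃ c c', c ≠ c' ∧ rel p w c ∧ rel p' w c' := by
  classical
  have hex' : ∀ γ ∈ W.pi K, ∃ p ∈ P, ∀ w, ∀ hw : w ∈ W, rel p w (γ w hw) := by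
    intro γ hγ
    obtain ⟨p, hp, h⟩ := hex (fun w => if hw : w ∈ W then γ w hw else w) (fun w hw => by
      rw [dif_pos hw]; exact mem_pi.1 hγ w hw)
    exact ⟨p, hp, fun w hw => by simpa [hw] using h w hw⟩
  have hne : (W.pi K).Nonempty := pi_nonempty.2 hK
  obtain ⟨γ0, hγ0⟩ := hne
  obtain ⟨p0, -⟩ := hex' γ0 hγ0
  haveI : Nonempty V := ⟨p0⟩
  choose! f hf using hex'
  have hinj : Set.InjOn f (W.pi K) := by
    intro γ hγ γ' hγ' h
    funext w hw
    exact huniq _ (hf γ hγ).1 w hw _ _ ((hf γ hγ).2 w hw) (h ▸ (hf γ' hγ').2 w hw)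
  refine ⟨(W.pi K).image f, ?_, ?_, ?_, ?_⟩
  · intro p hp
    obtain ⟨γ, hγ, rfl⟩ := mem_image.1 hp
    exact (hf γ hγ).1
  · rw [card_image_of_injOn hinj, card_pi]
    push_cast
    exact prod_ge W (fun w => #(K w)) fun w hw => card_pos.2 (hK w hw)
  · intro p hp w hw
    obtain ⟨γ, hγ, rfl⟩ := mem_image.1 hp
    exact ⟨_, (hf γ hγ).2 w hw⟩
  · intro p hp p' hp' hne
    obtain ⟨γ, hγ, rfl⟩ := mem_image.1 hp
    obtain ⟨γ', hγ', rfl⟩ := mem_image.1 hp'
    by_contra hc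
    push Not at hc
    apply hne
    congr 1
    funext w hw
    by_contra h
    exact hc w hw _ _ h ((hf γ hγ).2 w hw) ((hf γ' hγ').2 w hw)

end Pool.Agent.H54.TDom
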