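import Pool.Agent.H54.TDom

namespace Pool.Agent.H54.TDom

open Finset

variable {V : Type} [DecidableEq V] {r : V → V → Prop} [DecidableRel r]

theorem del (hs : ∀ x y, r x y → r y x) {A B : Finset V} (hn : NoIso r A B) {y0 : V}
    (hy0 : y0 ∈ B) : ∃ (A' B' : Finset V) (κ : ℕ), A' ⊆ A ∧ B' ⊆ B ∧ NoIso r A' B' ∧ 1 ≤ κ ∧
      #B' + κ = #B ∧ #A' + #(nb r A y0) = #A ∧
      (∀ t, Dom r B A t → Dom r B' A' (t - 1)) ∧
      (∀ s, Dom r A B s → Dom r A' B' (s - κ)) ∧
      (∀ s, 2 ≤ κ → Dom r A B s → Dom r A' B' (s - (κ - 1))) ∧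
      m r A B = ∑ x ∈ nb r A y0, (#(nb r B x) : ℤ) + m r A' B' := by
  classical
  set A' := A \ nb r A y0 with hA'
  set B' := B.filter (fun y => ∃ x ∈ A', r x y) with hB'
  have hAA : A' ⊆ A := sdiff_subset
  have hBB : B' ⊆ B := filter_subset _ _
  have hy0' : y0 ∈ B \ B' := by
    refine mem_sdiff.2 ⟨hy0, fun h => ?_⟩
    obtain ⟨x, hx, hr⟩ := (mem_filter.1 h).2
    exact (mem_sdiff.1 hx).2 (mem_nb.2 ⟨hAA hx, hr⟩)
  have hc : #(B \ B') + #B' = #B := card_sdiff_add_card_eq_card hBB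
  refine ⟨A', B', #(B \ B'), hAA, hBB, ⟨?_, ?_⟩, card_pos.2 ⟨_, hy0'⟩, by omega,
    card_sdiff_nb A y0, ?_, ?_, ?_, ?_⟩
  · intro x hx
    obtain ⟨y, hy, hr⟩ := hn.1 x (hAA hx)
    exact ⟨y, mem_filter.2 ⟨hy, x, hx, hr⟩, hr⟩
  · intro y hy
    exact (mem_filter.1 hy).2
  · intro t ht T hT hT'
    have h1 := ht (insert y0 T) (insert_subset hy0 (hT.trans hBB)) (by
      intro x hx
      by_cases h : x ∈ nb r A y0
      · exact ⟨y0, mem_insert_self _ _, hs _ _ (mem_nb.1 h).2⟩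
      · obtain ⟨y, hy, hr⟩ := hT' x (mem_sdiff.2 ⟨hx, h⟩)
        exact ⟨y, mem_insert_of_mem hy, hr⟩)
    have := card_insert_le y0 T
    omega
  · intro s h S hS hS'
    have := h.cover hn.2 S (B \ B') (hS.trans hAA) fun y hy hy' => hS' y (by
      by_contra hc
      exact hy' (mem_sdiff.2 ⟨hy, hc⟩))
    omega
  · intro s hκ h S hS hS'
    obtain ⟨y1, hy1, hne⟩ : ∃ y1 ∈ B \ B', y1 ≠ y0 := by
      obtain ⟨a, ha, b, hb, hab⟩ := one_lt_card.1 hκ
      by_cases h : a = y0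
      · exact ⟨b, hb, fun h' => hab (h.trans h'.symm)⟩
      · exact ⟨a, ha, h⟩
    obtain ⟨x1, hx1, hr1⟩ := hn.2 y1 (mem_sdiff.1 hy1).1
    have hr0 : r x1 y0 := by
      by_contra hc
      exact (mem_sdiff.1 hy1).2 (mem_filter.2 ⟨(mem_sdiff.1 hy1).1, x1,
        mem_sdiff.2 ⟨hx1, fun h => hc (mem_nb.1 h).2⟩, hr1⟩)
    have h1 := h.cover hn.2 (insert x1 S) (((B \ B').erase y0).erase y1)
      (insert_subset hx1 (hS.trans hAA)) (by
        intro y hy hy'
        by_cases e1 : y = y1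
        · exact ⟨x1, mem_insert_self _ _, e1 ▸ hr1⟩
        by_cases e0 : y = y0
        · exact ⟨x1, mem_insert_self _ _, e0 ▸ hr0⟩
        obtain ⟨x, hx, hr⟩ := hS' y (by
          by_contra hc
          exact hy' (mem_erase.2 ⟨e1, mem_erase.2 ⟨e0, mem_sdiff.2 ⟨hy, hc⟩⟩⟩))
        exact ⟨x, mem_insert_of_mem hx, hr⟩)
    rw [card_erase_of_mem (mem_erase.2 ⟨hne, hy1⟩), card_erase_of_mem hy0'] at h1
    have := card_insert_le x1 S
    omega
  · rw [m_comm hs A B, m_comm hs A' B']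
    unfold m
    rw [← sum_sdiff (filter_subset (fun x => r x y0) A), add_comm]
    congr 1
    refine sum_congr rfl fun x hx => ?_
    congr 2
    ext y
    simp only [mem_nb]
    exact ⟨fun h => ⟨mem_filter.2 ⟨h.1, x, hx, hs _ _ h.2⟩, h.2⟩, fun h => ⟨hBB h.1, h.2⟩⟩

theorem one_nb (hs : ∀ x y, r x y → r y x) {A B : Finset V} {t : ℕ} (hn : NoIso r A B)
    (h : Dom r B A t) {y0 : V} (hy0 : y0 ∈ B) (hU : #(A \ nb r A y0) + 1 = t) {y : V}
    (hy : y ∈ B) : #(nb r (A \ nb r A y0) y) ≤ 1 := by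
  have h1 := h.cover (hn.symm hs).2 {y0, y} ((A \ nb r A y0) \ nb r (A \ nb r A y0) y)
    (insert_subset hy0 (by simpa using hy)) (by
      intro x hx hx'
      by_cases h0 : x ∈ nb r A y0
      · exact ⟨y0, by simp, hs _ _ (mem_nb.1 h0).2⟩
      · refine ⟨y, by simp, hs _ _ ?_⟩
        by_contra hc
        exact hx' (mem_sdiff.2 ⟨mem_sdiff.2 ⟨hx, h0⟩, fun h => hc (mem_nb.1 h).2⟩))
  have h2 := card_sdiff_nb (r := r) (A \ nb r A y0) y
  have h3 : #({y0, y} : Finset V) ≤ 2 := card_le_two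
  omega

omit [DecidableEq V] in
theorem dc (hs : ∀ x y, r x y → r y x) (U B : Finset V) (F : V → ℤ) :
    ∑ u ∈ U, ∑ y ∈ nb r B u, F y = ∑ y ∈ B, (#(nb r U y) : ℤ) * F y := by
  unfold nb
  simp only [card_filter, sum_filter]
  push_cast
  rw [sum_comm]
  refine sum_congr rfl fun y _ => ?_
  rw [sum_mul]
  refine sum_congr rfl fun u _ => ?_
  by_cases h : r y u
  · simp [h, hs _ _ h]
  · have : ¬ r u y := fun h' => h (hs _ _ h')
    simp [h, this]

theorem dc2 (E I : Finset V) (D : V → Finset V) (h : ∀ i ∈ I, D i ⊆ E) :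
    ∑ p ∈ E, (#(I.filter fun i => p ∈ D i) : ℤ) = ∑ i ∈ I, (#(D i) : ℤ) := by
  simp only [card_filter]
  push_cast
  rw [sum_comm]
  refine sum_congr rfl fun i hi => ?_
  rw [sum_ite_mem, inter_eq_right.2 (h i hi)]
  simp

theorem g0 (hs : ∀ x y, r x y → r y x) {A B : Finset V} {s t : ℕ} (hn : NoIso r A B)
    (hA : Dom r A B s) (hB : Dom r B A t) (hst : s < t) {y0 : V} (hy0 : y0 ∈ B)
    (hd : (#(nb r A y0) : ℤ) = #A - t + 1) :
    ((s : ℤ) - 1) * (#A - t) ≤ ∑ y ∈ B, ((#A : ℤ) - t + 1 - #(nb r A y)) := by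
  classical
  set E := nb r A y0 with hE
  set U := A \ E with hU
  have hEA : E ⊆ A := filter_subset _ _
  have hUA : U ⊆ A := sdiff_subset
  have hcU : #U + 1 = t := by
    have := card_sdiff_nb (r := r) A y0
    rw [← hE, ← hU] at this
    omega
  have hone : ∀ y ∈ B, #(nb r U y) ≤ 1 := fun y hy => one_nb hs hn hB hy0 hcU hy
  set C : V → Finset V := fun y => E \ nb r E y with hC
  have hmC : ∀ p y, p ∈ C y ↔ p ∈ E ∧ ¬ r p y := fun p y => by
    simp only [hC, mem_sdiff, mem_nb]; tauto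
  have hg : ∀ y, (#A : ℤ) - t + 1 - #(nb r A y) = #(C y) - #(nb r U y) := by
    intro y
    have h1 := card_sdiff_nb (r := r) E y
    have h2 : nb r A y = nb r E y ∪ nb r U y := by
      ext x
      simp only [mem_union, mem_nb, hU, mem_sdiff]
      constructor
      · intro h
        by_cases hx : x ∈ E
        · exact Or.inl ⟨hx, h.2⟩
        · exact Or.inr ⟨⟨h.1, hx⟩, h.2⟩
      · rintro (h | h)
        · exact ⟨hEA h.1, h.2⟩
        · exact ⟨h.1.1, h.2⟩
    have h3 : Disjoint (nb r E y) (nb r U y) :=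
      Disjoint.mono (filter_subset _ _) (filter_subset _ _) disjoint_sdiff
    rw [h2, card_union_of_disjoint h3]
    simp only [hC]
    push_cast
    omega
  set K0 := B.filter (fun y => #(nb r U y) = 0) with hK0
  have hsum : ∑ y ∈ B, ((#A : ℤ) - t + 1 - #(nb r A y))
      = ∑ y ∈ K0, (#(C y) : ℤ) + ∑ u ∈ U, ∑ y ∈ nb r B u, ((#(C y) : ℤ) - 1) := by
    rw [dc hs, hK0, sum_filter, ← sum_add_distrib]
    refine sum_congr rfl fun y hy => ?_
    rw [hg]
    have := hone y hy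
    rcases Nat.le_one_iff_eq_zero_or_eq_one.1 this with h | h <;> simp [h]
  have hCne : ∀ u ∈ U, ∀ y ∈ nb r B u, (C y).Nonempty := by
    intro u hu y hy
    by_contra hc
    rw [not_nonempty_iff_eq_empty] at hc
    have h1 := hB.cover (hn.symm hs).2 {y} (U.erase u) (by simpa using (mem_nb.1 hy).1) (by
      intro x hx hx'
      refine ⟨y, mem_singleton_self _, ?_⟩
      by_cases e : x = u
      · exact e ▸ (mem_nb.1 hy).2
      by_cases hxE : x ∈ E
      · by_contra hr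
        have : x ∈ C y := (hmC _ _).2 ⟨hxE, fun h => hr (hs _ _ h)⟩
        simp [hc] at this
      · exact absurd (mem_erase.2 ⟨e, mem_sdiff.2 ⟨hx, hxE⟩⟩) hx')
    rw [card_erase_of_mem hu, card_singleton] at h1
    have := card_pos.2 ⟨u, hu⟩
    omega
  set D : V → Finset V := fun u => (nb r B u).biUnion C with hD
  have hDE : ∀ u, D u ⊆ E := fun u => biUnion_subset.2 fun y _ => sdiff_subset
  have hcol := fun u => coloring (D u) C (nb r B u) fun i hi => subset_biUnion_of_mem C hi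
  choose φ hφ1 hφ2 using hcol
  obtain ⟨Q, hQE, hQ1, hQ2, -⟩ := sel_count U (fun u => (D u).image (φ u)) (by
      intro u hu
      obtain ⟨y, hy, hr⟩ := hn.1 u (hUA hu)
      have hy' : y ∈ nb r B u := mem_nb.2 ⟨hy, hs _ _ hr⟩
      exact ((hCne u hu y hy').mono (subset_biUnion_of_mem C hy')).image _)
    E (fun p u c => p ∈ D u ∧ φ u p = c) (by
      intro γ hγ
      have : ∀ u ∈ U, ∃ y ∈ nb r B u, ∃ x ∈ C y, φ u x = γ u := by
        intro u hu
        obtain ⟨x, hx, e⟩ := mem_image.1 (hγ u hu)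
        obtain ⟨y, hy, hxy⟩ := mem_biUnion.1 hx
        exact ⟨y, hy, x, hxy, e⟩
      choose! y hy using this
      by_contra hc
      push Not at hc
      have h1 := hB (U.image y) (by
        intro v hv
        obtain ⟨u, hu, rfl⟩ := mem_image.1 hv
        exact (mem_nb.1 (hy u hu).1).1) (by
        intro x hx
        by_cases hxE : x ∈ E
        · obtain ⟨u, hu, h⟩ := hc x hxE
          refine ⟨y u, mem_image_of_mem _ hu, ?_⟩
          by_contra hr
          have hxC : x ∈ C (y u) := (hmC _ _).2 ⟨hxE, fun h => hr (hs _ _ h)⟩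
          obtain ⟨x', hx', e⟩ := (hy u hu).2
          exact h (mem_biUnion.2 ⟨_, (hy u hu).1, hxC⟩)
            ((hφ1 u _ (hy u hu).1 _ hxC _ hx').trans e)
        · have hu : x ∈ U := mem_sdiff.2 ⟨hx, hxE⟩
          exact ⟨y x, mem_image_of_mem _ hu, (mem_nb.1 (hy x hu).1).2⟩)
      have : #(U.image y) ≤ #U := card_image_le
      omega)
    (fun p _ u _ c c' h h' => h.2.symm.trans h'.2)
  have hD1 : ∀ u ∈ U, (#(D u) : ℤ) ≤ #((D u).image (φ u))
      + ∑ y ∈ nb r B u, ((#(C y) : ℤ) - 1) := by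
    intro u hu
    have h1 := hφ2 u
    have h2 : ((∑ y ∈ nb r B u, (#(C y) - 1) : ℕ) : ℤ) = ∑ y ∈ nb r B u, ((#(C y) : ℤ) - 1) := by
      push_cast
      refine sum_congr rfl fun y hy => ?_
      have := card_pos.2 (hCne u hu y hy)
      omega
    omega
  have hc : ∀ p ∈ E, ((s : ℤ) - 1) + (if p ∈ Q then (t : ℤ) - s else 0) ≤
      #(U.filter fun u => p ∈ D u) + #(K0.filter fun y => p ∈ C y) := by
    intro p hp
    split_ifs with hpQ
    · have : (U.filter fun u => p ∈ D u) = U :=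
        filter_true_of_mem fun u hu => (hQ2 p hpQ u hu).choose_spec.1
      rw [this]
      omega
    · have h1 := hA.cover hn.2 (insert p (U.filter fun u => p ∈ D u))
        (K0.filter fun y => p ∈ C y) (insert_subset (hEA hp) ((filter_subset _ _).trans hUA)) (by
          intro y hy hy'
          by_cases hr : r p y
          · exact ⟨p, mem_insert_self _ _, hr⟩
          have hpC : p ∈ C y := (hmC _ _).2 ⟨hp, hr⟩
          have : #(nb r U y) ≠ 0 := fun h => hy' (mem_filter.2 ⟨mem_filter.2 ⟨hy, h⟩, hpC⟩)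
          obtain ⟨u, hu⟩ := card_ne_zero.1 this
          exact ⟨u, mem_insert_of_mem (mem_filter.2 ⟨(mem_nb.1 hu).1, mem_biUnion.2
            ⟨y, mem_nb.2 ⟨hy, hs _ _ (mem_nb.1 hu).2⟩, hpC⟩⟩), (mem_nb.1 hu).2⟩)
      have := card_insert_le p (U.filter fun u => p ∈ D u)
      omega
  have h1 := sum_le_sum hc
  rw [sum_add_distrib, sum_add_distrib, dc2 E U D (fun u _ => hDE u),
    dc2 E K0 C (fun y _ => sdiff_subset), sum_ite_mem, inter_eq_right.2 hQE, sum_const, sum_const,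
    nsmul_eq_mul, nsmul_eq_mul, hd] at h1
  have h2 := sum_le_sum hD1
  rw [sum_add_distrib] at h2
  rw [sum_sub_distrib, sum_const, nsmul_eq_mul, mul_one] at hQ1
  rw [hsum]
  have h3 : (0 : ℤ) ≤ ∑ w ∈ U, (#((D w).image (φ w)) : ℤ) - #U := by
    have : ∑ _w ∈ U, (1 : ℤ) ≤ ∑ w ∈ U, (#((D w).image (φ w)) : ℤ) := sum_le_sum fun u hu => by
      obtain ⟨y, hy, hr⟩ := hn.1 u (hUA hu)
      have hy' : y ∈ nb r B u := mem_nb.2 ⟨hy, hs _ _ hr⟩
      have := card_pos.2 (((hCne u hu y hy').mono (subset_biUnion_of_mem C hy')).image (φ u))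
      exact_mod_cast this
    simp at this
    linarith
  have h4 : (#U : ℤ) + 1 = t := by exact_mod_cast hcU
  have h5 : (0 : ℤ) ≤ (t : ℤ) - s - 1 := by omega
  have h6 : (0 : ℤ) ≤ (#Q : ℤ) - 1 := by linarith
  nlinarith [mul_nonneg h5 h6]

end Pool.Agent.H54.TDom
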