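import Pool.Agent.H54.TDom2

namespace Pool.Agent.H54.TDom

open Finset

variable {V : Type} [DecidableEq V] {r : V → V → Prop} [DecidableRel r]

theorem f0 (hs : ∀ x y, r x y → r y x) {A B : Finset V} {s t : ℕ} (hn : NoIso r A B)
    (hA : Dom r A B s) (hB : Dom r B A t) (hst : s < t) {x0 : V} (hx0 : x0 ∈ A)
    (hd : (#(nb r B x0) : ℤ) = #B - s + 1) :
    ((s : ℤ) - 1) * (#A - t) ≤ ∑ y ∈ B, ((#A : ℤ) - t + 1 - #(nb r A y)) := by
  classical
  set N := nb r B x0 with hN
  set W := B \ N with hW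
  have hNB : N ⊆ B := filter_subset _ _
  have hWB : W ⊆ B := sdiff_subset
  have hcW : #W + 1 = s := by
    have := card_sdiff_nb (r := r) B x0
    rw [← hN, ← hW] at this
    omega
  have hone : ∀ x ∈ A, #(nb r W x) ≤ 1 := fun x hx => one_nb hs (hn.symm hs) hA hx0 hcW hx
  set M : V → Finset V := fun y => A \ nb r A y with hM
  have hmM : ∀ x y, x ∈ M y ↔ x ∈ A ∧ ¬ r x y := fun p y => by
    simp only [hM, mem_sdiff, mem_nb]; tauto
  set C : V → V → Finset V := fun w y => nb r (M y) w with hC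
  have hmC : ∀ w y x, x ∈ C w y ↔ (x ∈ A ∧ ¬ r x y) ∧ r x w := fun w y x => by
    simp only [hC, mem_nb, hmM]
  set Z : V → Finset V := fun y => (M y).filter fun x => #(nb r W x) = 0 with hZ
  have hmZ : ∀ y x, x ∈ Z y ↔ (x ∈ A ∧ ¬ r x y) ∧ ∀ w ∈ W, ¬ r w x := fun y x => by
    simp only [hZ, mem_filter, hmM, card_eq_zero, nb, filter_eq_empty_iff]
  set h : V → ℤ := fun y => #(W.filter fun w => (C w y).Nonempty) + #(Z y) - (t - 1) with hh
  have hg : ∀ y, (#A : ℤ) - t + 1 - #(nb r A y)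
      = ∑ w ∈ W, ((#(C w y) - 1 : ℕ) : ℤ) + h y := by
    intro y
    have h1 := card_sdiff_nb (r := r) A y
    have h2 : (#(M y) : ℤ) = ∑ w ∈ W, (#(C w y) : ℤ) + #(Z y) := by
      have := m_comm hs (M y) W
      unfold m at this
      simp only [hC]
      rw [this, hZ, card_filter, card_eq_sum_ones]
      push_cast
      rw [← sum_add_distrib]
      refine sum_congr rfl fun x hx => ?_
      have := hone x ((hmM _ _).1 hx).1
      rcases Nat.le_one_iff_eq_zero_or_eq_one.1 this with h | h <;> simp [h]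
    have h3 : ∑ w ∈ W, (#(C w y) : ℤ) = ∑ w ∈ W, ((#(C w y) - 1 : ℕ) : ℤ)
        + #(W.filter fun w => (C w y).Nonempty) := by
      rw [card_filter]
      push_cast
      rw [← sum_add_distrib]
      refine sum_congr rfl fun w _ => ?_
      split_ifs with hc
      · have := card_pos.2 hc
        omega
      · rw [not_nonempty_iff_eq_empty] at hc
        simp [hc]
    have h4 : #(M y) = #(A \ nb r A y) := rfl
    simp only [hh]
    omega
  have hcov : ∀ y1 ∈ B, ∀ y2 ∈ B, ∀ T ⊆ W, (∀ w ∈ W, w ∉ T → C w y1 ∩ C w y2 = ∅) →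
      t ≤ #({y1, y2} : Finset V) + #T + #(Z y1 ∩ Z y2) := by
    intro y1 h1 y2 h2 T hT hT'
    have a1 := hB.cover (hn.symm hs).2 ({y1, y2} ∪ T) (Z y1 ∩ Z y2)
      (union_subset (insert_subset h1 (by simpa using h2)) (hT.trans hWB)) (by
        intro x hx hx'
        by_cases r1 : r x y1
        · exact ⟨y1, by simp, hs _ _ r1⟩
        by_cases r2 : r x y2
        · exact ⟨y2, by simp, hs _ _ r2⟩
        have : ¬ ∀ w ∈ W, ¬ r w x := fun hc =>
          hx' (mem_inter.2 ⟨(hmZ _ _).2 ⟨⟨hx, r1⟩, hc⟩, (hmZ _ _).2 ⟨⟨hx, r2⟩, hc⟩⟩)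
        push Not at this
        obtain ⟨w, hw, hr⟩ := this
        refine ⟨w, mem_union_right _ ?_, hr⟩
        by_contra hwT
        have : x ∈ C w y1 ∩ C w y2 :=
          mem_inter.2 ⟨(hmC _ _ _).2 ⟨⟨hx, r1⟩, hs _ _ hr⟩, (hmC _ _ _).2 ⟨⟨hx, r2⟩, hs _ _ hr⟩⟩
        simp [hT' w hw hwT] at this)
    have := card_union_le ({y1, y2} : Finset V) T
    omega
  have hh0 : ∀ y ∈ B, 0 ≤ h y := by
    intro y hy
    have := hcov y hy y hy (W.filter fun w => (C w y).Nonempty) (filter_subset _ _) (by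
      intro w hw hw'
      rw [inter_self]
      by_contra hc
      exact hw' (mem_filter.2 ⟨hw, nonempty_iff_ne_empty.2 hc⟩))
    rw [inter_self, pair_eq_singleton, card_singleton] at this
    simp only [hh]
    omega
  have hcol := fun w => coloring (nb r A w) (C w) N fun y _ x hx =>
    mem_nb.2 ⟨((hmC _ _ _).1 hx).1.1, ((hmC _ _ _).1 hx).2⟩
  choose φ hφ1 hφ2 using hcol
  obtain ⟨Q, hQN, hQ1, hQ2, hQ3⟩ := sel_count W (fun w => (nb r A w).image (φ w)) (by
      intro w hw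
      obtain ⟨x, hx, hr⟩ := hn.2 w (hWB hw)
      exact ⟨_, mem_image_of_mem _ (mem_nb.2 ⟨hx, hr⟩)⟩)
    N (fun y w c => y ∈ N ∧ ∃ x ∈ C w y, φ w x = c) (by
      intro γ hγ
      have : ∀ w ∈ W, ∃ x ∈ nb r A w, φ w x = γ w := fun w hw => mem_image.1 (hγ w hw)
      choose! q hq using this
      by_contra hc
      have h1 := hA (W.image q) (by
        intro v hv
        obtain ⟨w, hw, rfl⟩ := mem_image.1 hv
        exact (mem_nb.1 (hq w hw).1).1) (by
        intro y hy
        by_cases hyN : y ∈ N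
        · by_contra hy'
          push Not at hy'
          exact hc ⟨y, hyN, fun w hw => ⟨hyN, q w, (hmC _ _ _).2 ⟨⟨(mem_nb.1 (hq w hw).1).1,
            hy' _ (mem_image_of_mem _ hw)⟩, (mem_nb.1 (hq w hw).1).2⟩, (hq w hw).2⟩⟩
        · have hw : y ∈ W := mem_sdiff.2 ⟨hy, hyN⟩
          exact ⟨q y, mem_image_of_mem _ hw, (mem_nb.1 (hq y hw).1).2⟩)
      have : #(W.image q) ≤ #W := card_image_le
      omega)
    (fun y hy w _ c c' h h' => by
      obtain ⟨_, x, hx, rfl⟩ := h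
      obtain ⟨_, x', hx', rfl⟩ := h'
      exact hφ1 w y hy x hx x' hx')
  have hZQ : ∀ y ∈ Q, h y = 0 → #(Z y) + s = t := by
    intro y hy h0
    have : (W.filter fun w => (C w y).Nonempty) = W := filter_true_of_mem fun w hw => by
      obtain ⟨c, _, x, hx, _⟩ := hQ2 y hy w hw
      exact ⟨x, hx⟩
    simp only [hh, this] at h0
    omega
  have hpair : ∀ y1 ∈ B, ∀ y2 ∈ B, ∀ w ∈ W, C w y1 ∩ C w y2 = ∅ → t ≤ s + #(Z y1 ∩ Z y2) := by
    intro y1 h1 y2 h2 w hw he
    have := hcov y1 h1 y2 h2 (W.erase w) (erase_subset _ _) (by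
      intro w' hw' hw''
      have : w' = w := by
        by_contra hc
        exact hw'' (mem_erase.2 ⟨hc, hw'⟩)
      rw [this, he])
    rw [card_erase_of_mem hw] at this
    have h3 : #({y1, y2} : Finset V) ≤ 2 := card_le_two
    have := card_pos.2 ⟨w, hw⟩
    omega
  have huniq : ∀ y ∈ Q.filter (fun y => h y = 0), ∀ y' ∈ Q.filter (fun y => h y = 0), y = y' := by
    intro y hy y' hy'
    obtain ⟨hy, h0⟩ := mem_filter.1 hy
    obtain ⟨hy', h0'⟩ := mem_filter.1 hy'
    by_contra hne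
    obtain ⟨w, hw, c, c', hcc, ⟨hyN, x, hx, rfl⟩, ⟨hyN', x', hx', rfl⟩⟩ := hQ3 y hy y' hy' hne
    have z1 := hZQ y hy h0
    have z2 := hZQ y' hy' h0'
    have e1 : C w y ∩ C w y' = ∅ := by
      by_contra hc
      obtain ⟨v, hv⟩ := nonempty_iff_ne_empty.2 hc
      exact hcc ((hφ1 w y hyN x hx v (mem_inter.1 hv).1).trans
        (hφ1 w y' hyN' v (mem_inter.1 hv).2 x' hx'))
    have p1 := hpair y (hNB hyN) y' (hNB hyN') w hw e1
    obtain ⟨z, hz⟩ : (Z y ∩ Z y').Nonempty := card_pos.1 (by omega)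
    have hz1 := (hmZ _ _).1 (mem_inter.1 hz).1
    obtain ⟨y2, hy2, hr2⟩ := hn.1 z hz1.1.1
    have hy2N : y2 ∈ N := by
      by_contra hc
      exact hz1.2 y2 (mem_sdiff.2 ⟨hy2, hc⟩) (hs _ _ hr2)
    have key : ∀ v ∈ N, #(Z v) + s = t → z ∈ Z v → (C w v ∩ C w y2).Nonempty := by
      intro v hv hv1 hv2
      by_contra hc
      rw [not_nonempty_iff_eq_empty] at hc
      have a1 := hpair v (hNB hv) y2 hy2 w hw hc
      have a2 : Z v ∩ Z y2 ⊆ (Z v).erase z := by
        intro a ha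
        refine mem_erase.2 ⟨?_, (mem_inter.1 ha).1⟩
        rintro rfl
        exact ((hmZ _ _).1 (mem_inter.1 ha).2).1.2 hr2
      have a3 := card_le_card a2
      rw [card_erase_of_mem hv2] at a3
      have := card_pos.2 ⟨z, hv2⟩
      omega
    obtain ⟨v1, hv1⟩ := key y hyN z1 (mem_inter.1 hz).1
    obtain ⟨v2, hv2⟩ := key y' hyN' z2 (mem_inter.1 hz).2
    exact hcc ((hφ1 w y hyN x hx v1 (mem_inter.1 hv1).1).trans
      ((hφ1 w y2 hy2N v1 (mem_inter.1 hv1).2 v2 (mem_inter.1 hv2).2).trans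
        (hφ1 w y' hyN' v2 (mem_inter.1 hv2).1 x' hx')))
  have hQh : (#Q : ℤ) - 1 ≤ ∑ y ∈ N, h y := by
    have a1 : #(Q.filter fun y => h y = 0) ≤ 1 := card_le_one.2 huniq
    have a2 := card_filter_add_card_filter_not (s := Q) (fun y => h y = 0)
    have a3 : ∑ _y ∈ Q.filter (fun y => ¬ h y = 0), (1 : ℤ)
        ≤ ∑ y ∈ Q.filter (fun y => ¬ h y = 0), h y := sum_le_sum fun y hy => by
      have := hh0 y (hNB (hQN (mem_filter.1 hy).1))
      have := (mem_filter.1 hy).2
      omega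
    have a4 : ∑ y ∈ Q.filter (fun y => ¬ h y = 0), h y ≤ ∑ y ∈ N, h y :=
      sum_le_sum_of_subset_of_nonneg ((filter_subset _ _).trans hQN)
        fun y hy _ => hh0 y (hNB hy)
    rw [sum_const, nsmul_eq_mul, mul_one] at a3
    omega
  have b1 : ∑ y ∈ N, ((#A : ℤ) - t + 1 - #(nb r A y))
      = ∑ w ∈ W, ∑ y ∈ N, ((#(C w y) - 1 : ℕ) : ℤ) + ∑ y ∈ N, h y := by
    rw [sum_comm, ← sum_add_distrib]
    exact sum_congr rfl fun y _ => hg y
  have b2 : ∑ w ∈ W, (#(nb r A w) : ℤ) ≤ ∑ w ∈ W, (#((nb r A w).image (φ w)) : ℤ)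
      + ∑ w ∈ W, ∑ y ∈ N, ((#(C w y) - 1 : ℕ) : ℤ) := by
    rw [← sum_add_distrib]
    refine sum_le_sum fun w _ => ?_
    exact_mod_cast hφ2 w
  rw [← sum_sdiff hNB, ← hW, b1, sum_sub_distrib, sum_const, nsmul_eq_mul]
  rw [sum_sub_distrib, sum_const, nsmul_eq_mul, mul_one] at hQ1
  have b3 : (s : ℤ) - 1 = #W := by omega
  rw [b3]
  nlinarith

omit [DecidableEq V] in
theorem m_eq (A B : Finset V) (c : ℤ) :
    m r A B = #B * c - ∑ y ∈ B, (c - #(nb r A y)) := by
  rw [sum_sub_distrib, sum_const, nsmul_eq_mul, m]; ring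

theorem main (hs : ∀ x y, r x y → r y x) (n : ℕ) : ∀ (A B : Finset V) (s t : ℕ), #A + #B ≤ n →
    NoIso r A B → Dom r A B s → Dom r B A t → 1 ≤ s → s < t →
    m r A B ≤ ((#A : ℤ) - t + 1) * (#B - s + 1) + s - 1 := by
  induction n with
  | zero =>
    intro A B s t hn _ hA _ h1 _
    have hB : B = ∅ := card_eq_zero.1 (by omega)
    have := hA ∅ (empty_subset _) (by simp [hB])
    simp at this
    omega
  | succ n ih =>
    intro A B s t hc hn hA hB h1 hst
    have hg : ∀ y ∈ B, (#(nb r A y) : ℤ) ≤ #A - t + 1 := fun y hy => deg_le hs hn hB hy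
    have hf : ∀ x ∈ A, (#(nb r B x) : ℤ) ≤ #B - s + 1 := fun x hx => deg_le hs (hn.symm hs) hA hx
    have hgp : ∀ y ∈ B, 0 < #(nb r A y) := fun y hy => by
      obtain ⟨x, hx, hr⟩ := hn.2 y hy
      exact card_pos.2 ⟨x, mem_nb.2 ⟨hx, hr⟩⟩
    have hfp : ∀ x ∈ A, 0 < #(nb r B x) := fun x hx => by
      obtain ⟨y, hy, hr⟩ := hn.1 x hx
      exact card_pos.2 ⟨y, mem_nb.2 ⟨hy, hs _ _ hr⟩⟩
    have hBne : B.Nonempty := by
      by_contra hc
      rw [not_nonempty_iff_eq_empty] at hc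
      have := hA ∅ (empty_subset _) (by simp [hc])
      simp at this
      omega
    have hAne : A.Nonempty := by
      obtain ⟨y, hy⟩ := hBne
      obtain ⟨x, hx, _⟩ := hn.2 y hy
      exact ⟨x, hx⟩
    have ha1 : (1 : ℤ) ≤ #A - t + 1 := by
      obtain ⟨y, hy⟩ := hBne
      have := hg y hy
      have := hgp y hy
      omega
    have hb1 : (1 : ℤ) ≤ #B - s + 1 := by
      obtain ⟨x, hx⟩ := hAne
      have := hf x hx
      have := hfp x hx
      omega
    have triv : ∀ B' ⊆ B, ∀ A' ⊆ A, m r A' B' ≤ #B' * ((#A : ℤ) - t + 1) := by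
      intro B' hB' A' hA'
      have := sum_le_card_nsmul B' (fun y => (#(nb r A' y) : ℤ)) ((#A : ℤ) - t + 1) fun y hy => by
        have a1 : #(nb r A' y) ≤ #(nb r A y) := card_le_card (filter_subset_filter _ hA')
        have := hg y (hB' hy)
        omega
      rwa [nsmul_eq_mul] at this
    rcases h1.eq_or_lt with rfl | h2
    · have := triv B subset_rfl A subset_rfl
      push_cast
      linarith
    have fin : ((s : ℤ) - 1) * (#A - t) ≤ ∑ y ∈ B, ((#A : ℤ) - t + 1 - #(nb r A y)) →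
        m r A B ≤ ((#A : ℤ) - t + 1) * (#B - s + 1) + s - 1 := by
      intro h
      rw [m_eq A B ((#A : ℤ) - t + 1)]
      linarith
    by_cases c1 : ∃ y0 ∈ B, (#B : ℤ) - s ≤ ∑ x ∈ nb r A y0, ((#B : ℤ) - s + 1 - #(nb r B x))
    · obtain ⟨y0, hy0, c1⟩ := c1
      obtain ⟨A', B', κ, -, -, hn', hκ, e1, e2, d1, d2, -, e3⟩ := del hs hn hy0
      have d1' := d1 t hB
      have hA'ne : A'.Nonempty := by
        by_contra hc
        rw [not_nonempty_iff_eq_empty] at hc
        have := d1' ∅ (empty_subset _) (by simp [hc])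
        simp at this
        omega
      have hB'ne : B'.Nonempty := by
        obtain ⟨x, hx⟩ := hA'ne
        obtain ⟨y, hy, _⟩ := hn'.1 x hx
        exact ⟨y, hy⟩
      obtain ⟨s', q1, q2, q3, q4⟩ : ∃ s', Dom r A' B' s' ∧ 1 ≤ s' ∧ s' + 1 ≤ s ∧ s ≤ s' + κ := by
        rcases le_total (s - κ) 1 with h | h
        · exact ⟨1, Dom.one hB'ne, le_rfl, by omega, by omega⟩
        · exact ⟨s - κ, d2 s hA, h, by omega, by omega⟩
      have i1 := ih A' B' s' (t - 1) (by omega) hn' q1 d1' q2 (by omega)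
      rw [sum_sub_distrib, sum_const, nsmul_eq_mul] at c1
      have hd := hg y0 hy0
      have e4 : ((t - 1 : ℕ) : ℤ) = t - 1 := by omega
      rw [e4] at i1
      have e5 : (#A' : ℤ) = #A - #(nb r A y0) := by omega
      have e6 : (#B' : ℤ) - s' + 1 ≤ #B - s + 1 := by omega
      have e7 := mul_le_mul_of_nonneg_left e6 (show (0 : ℤ) ≤ #A' - (t - 1) + 1 by omega)
      have e8 : (s' : ℤ) + 1 ≤ s := by omega
      rw [e5] at i1 e7
      nlinarith
    by_cases c2 : ∃ x0 ∈ A, (#A : ℤ) - t ≤ ∑ y ∈ nb r B x0, ((#A : ℤ) - t + 1 - #(nb r A y))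
    · obtain ⟨x0, hx0, c2⟩ := c2
      obtain ⟨B', A', κ, s1, s2, hn', hκ, e1, e2, d1, d2, d3, e3⟩ := del hs (hn.symm hs) hx0
      have d1' := d1 s hA
      rw [sum_sub_distrib, sum_const, nsmul_eq_mul] at c2
      have hd := hf x0 hx0
      have e5 : (#B' : ℤ) = #B - #(nb r B x0) := by omega
      have hβ : (0 : ℤ) ≤ #B' - s + 2 := by omega
      suffices hm : m r B' A' ≤ ((#A : ℤ) - t + 1) * (#B' - s + 2) + s - 2 by
        rw [m_comm hs, e3]
        rw [e5] at hm
        nlinarith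
      have e4 : ((s - 1 : ℕ) : ℤ) = s - 1 := by omega
      have direct : ∀ t', Dom r B' A' t' → s - 1 < t' → (#A' : ℤ) - t' ≤ #A - t →
          m r B' A' ≤ ((#A : ℤ) - t + 1) * (#B' - s + 2) + s - 2 := by
        intro t' p1 p2 p3
        have i1 := ih A' B' (s - 1) t' (by omega) (hn'.symm hs) d1' p1 (by omega) p2
        rw [m_comm hs, e4] at i1
        have := mul_le_mul_of_nonneg_right (show (#A' : ℤ) - t' + 1 ≤ #A - t + 1 by omega) hβ
        linarith
      rcases lt_trichotomy (s - 1) (t - κ) with h | h | h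
      · exact direct _ (d2 t hB) h (by omega)
      · exact direct _ (d3 t (by omega) hB) (by omega) (by omega)
      · rcases (show 2 ≤ s by omega).eq_or_lt with rfl | h3
        · have := triv B' s1 A' s2
          rw [m_comm hs] at this
          push_cast
          linarith
        · have hB'ne : B'.Nonempty := by
            by_contra hc
            rw [not_nonempty_iff_eq_empty] at hc
            have := d1' ∅ (empty_subset _) (by simp [hc])
            simp at this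
            omega
          have hA'ne : A'.Nonempty := by
            obtain ⟨x, hx⟩ := hB'ne
            obtain ⟨y, hy, _⟩ := hn'.1 x hx
            exact ⟨y, hy⟩
          obtain ⟨θ, q1, q2, q3, q4⟩ :
              ∃ θ, Dom r B' A' θ ∧ 1 ≤ θ ∧ θ < s - 1 ∧ t ≤ θ + κ := by
            rcases le_total (t - κ) 1 with h' | h'
            · exact ⟨1, Dom.one hA'ne, le_rfl, by omega, by omega⟩
            · exact ⟨t - κ, d2 t hB, h', h, by omega⟩
          have i1 := ih B' A' θ (s - 1) (by omega) hn' q1 d1' q2 q3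
          rw [e4] at i1
          have := mul_le_mul_of_nonneg_left (show (#A' : ℤ) - θ + 1 ≤ #A - t + 1 by omega) hβ
          have e8 : (θ : ℤ) + 1 ≤ s - 1 := by omega
          linarith
    push Not at c1 c2
    obtain ⟨x1, hx1, mx⟩ := exists_max_image A (fun x => #(nb r B x)) hAne
    obtain ⟨y1, hy1, my⟩ := exists_max_image B (fun y => #(nb r A y)) hBne
    rcases (hg y1 hy1).eq_or_lt with h | g1
    · exact fin (g0 hs hn hA hB hst hy1 h)
    rcases (hf x1 hx1).eq_or_lt with h | f1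
    · exact fin (f0 hs hn hA hB hst hx1 h)
    exfalso
    have a1 := card_nsmul_le_sum (nb r A y1) (fun x => (#B : ℤ) - s + 1 - #(nb r B x))
      ((#B : ℤ) - s + 1 - #(nb r B x1)) fun x hx => by
        have := mx x (mem_nb.1 hx).1
        omega
    have a2 := card_nsmul_le_sum (nb r B x1) (fun y => (#A : ℤ) - t + 1 - #(nb r A y))
      ((#A : ℤ) - t + 1 - #(nb r A y1)) fun y hy => by
        have := my y (mem_nb.1 hy).1
        omega
    rw [nsmul_eq_mul] at a1 a2
    have a3 := c1 y1 hy1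
    have a4 := c2 x1 hx1
    have a5 : (1 : ℤ) ≤ #(nb r A y1) := by exact_mod_cast hgp y1 hy1
    have a6 : (1 : ℤ) ≤ #(nb r B x1) := by exact_mod_cast hfp x1 hx1
    have a7 := mul_nonneg (show (0 : ℤ) ≤ #(nb r A y1) - 1 by linarith)
      (show (0 : ℤ) ≤ (#B : ℤ) - s + 1 - #(nb r B x1) - 1 by linarith)
    have a8 := mul_nonneg (show (0 : ℤ) ≤ #(nb r B x1) - 1 by linarith)
      (show (0 : ℤ) ≤ (#A : ℤ) - t + 1 - #(nb r A y1) - 1 by linarith)
    nlinarith

end Pool.Agent.H54.TDom
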