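import Pool.Agent.H54.TDom3

namespace Pool.Agent.H54.TDom

open Finset

/-- `S` is a total dominating set of `G`. -/
def IsTDS {V : Type} (G : SimpleGraph V) (S : Finset V) : Prop := ∀ v, ∃ u ∈ S, G.Adj v u

/-- total domination number -/
noncomputable def gammaT {V : Type} (G : SimpleGraph V) : ℕ :=
  sInf {k | ∃ S : Finset V, IsTDS G S ∧ #S = k}

/-- the bound of Q1 for order `n` and total domination number `g` -/
def bound (n g : ℕ) : ℕ := ((n - g) * (n - g + 4) + 2 * g - 2) / 4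

theorem ex_dom {V : Type} [DecidableEq V] (r : V → V → Prop) [DecidableRel r] {A B : Finset V}
    (h : ∀ y ∈ B, ∃ x ∈ A, r x y) :
    ∃ S ⊆ A, (∀ y ∈ B, ∃ x ∈ S, r x y) ∧ Dom r A B #S := by
  obtain ⟨S, hS, hm⟩ := exists_min_image (A.powerset.filter fun S => ∀ y ∈ B, ∃ x ∈ S, r x y)
    card ⟨A, mem_filter.2 ⟨mem_powerset_self _, h⟩⟩
  exact ⟨S, mem_powerset.1 (mem_filter.1 hS).1, (mem_filter.1 hS).2,
    fun T h1 h2 => hm T (mem_filter.2 ⟨mem_powerset.2 h1, h2⟩)⟩

theorem arith {a b s t m : ℤ} (h : m ≤ (a - t + 1) * (b - s + 1) + s - 1) (hst : s < t) :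
    4 * m ≤ (a + b - (s + t)) * (a + b - (s + t) + 4) + 2 * (s + t) - 2 := by
  nlinarith [sq_nonneg (a - t - (b - s))]

theorem q1 {V : Type} [Fintype V] (G : SimpleGraph V) (hb : G.IsBipartite)
    (hi : ∀ v, ∃ u, G.Adj v u) (ho : Odd (gammaT G)) (h3 : 3 ≤ gammaT G) :
    G.edgeSet.ncard ≤ bound (Fintype.card V) (gammaT G) := by
  classical
  obtain ⟨s0, t0, hst⟩ := hb.exists_isBipartiteWith
  set A : Finset V := univ.filter (· ∈ s0) with hA
  set B : Finset V := univ.filter (· ∈ t0) with hB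
  have hAB : G.IsBipartiteWith (A : Set V) (B : Set V) := by
    have e1 : (A : Set V) = s0 := by ext; simp [hA]
    have e2 : (B : Set V) = t0 := by ext; simp [hB]
    rwa [e1, e2]
  have hs : ∀ x y, G.Adj x y → G.Adj y x := fun _ _ h => h.symm
  have hdis : Disjoint A B := disjoint_coe.1 hAB.disjoint
  have hcov : ∀ v, v ∈ A ∨ v ∈ B := fun v => by
    obtain ⟨u, hu⟩ := hi v
    rcases hAB.mem_of_adj hu with h | h
    · exact Or.inl h.1
    · exact Or.inr h.1
  have hn : NoIso G.Adj A B := by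
    constructor
    · intro x hx
      obtain ⟨u, hu⟩ := hi x
      exact ⟨u, hAB.mem_of_mem_adj hx hu, hu⟩
    · intro y hy
      obtain ⟨u, hu⟩ := hi y
      exact ⟨u, hAB.symm.mem_of_mem_adj hy hu, hu.symm⟩
  have hcard : #A + #B = Fintype.card V := by
    rw [← card_union_of_disjoint hdis, ← card_univ]
    congr 1
    ext v
    simpa using hcov v
  have hm : (G.edgeSet.ncard : ℤ) = m G.Adj A B := by
    rw [Set.ncard_eq_toFinset_card', ← SimpleGraph.edgeFinset,
      ← SimpleGraph.isBipartiteWith_sum_degrees_eq_card_edges' hAB, m]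
    push_cast
    refine sum_congr rfl fun y hy => ?_
    rw [← SimpleGraph.card_neighborFinset_eq_degree]
    congr 2
    ext x
    rw [SimpleGraph.mem_neighborFinset, mem_nb]
    exact ⟨fun h => ⟨hAB.symm.mem_of_mem_adj hy h, h.symm⟩, fun h => h.2.symm⟩
  obtain ⟨S, hS1, hS2, hS3⟩ := ex_dom G.Adj hn.2
  obtain ⟨T, hT1, hT2, hT3⟩ := ex_dom G.Adj (hn.symm hs).2
  have hg : gammaT G ≤ #S + #T := by
    refine le_trans (Nat.sInf_le ⟨S ∪ T, fun v => ?_, rfl⟩) (card_union_le _ _)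
    rcases hcov v with h | h
    · obtain ⟨u, hu, hr⟩ := hT2 v h
      exact ⟨u, mem_union_right _ hu, hr.symm⟩
    · obtain ⟨u, hu, hr⟩ := hS2 v h
      exact ⟨u, mem_union_left _ hu, hr.symm⟩
  have hS4 := card_le_card hS1
  have hT4 := card_le_card hT1
  have hne : A.Nonempty ∧ B.Nonempty := by
    obtain ⟨v, hv⟩ : (A ∪ B).Nonempty := by
      rw [← card_pos, card_union_of_disjoint hdis]; omega
    rcases mem_union.1 hv with h | h
    · obtain ⟨y, hy, _⟩ := hn.1 v h
      exact ⟨⟨v, h⟩, y, hy⟩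
    · obtain ⟨y, hy, _⟩ := hn.2 v h
      exact ⟨⟨y, hy⟩, v, h⟩
  have hS5 : 1 ≤ #S := Dom.one hne.2 S hS1 hS2
  have hT5 : 1 ≤ #T := Dom.one hne.1 T hT1 hT2
  obtain ⟨s, t, e, s1, t1, s2, t2⟩ : ∃ s t, s + t = gammaT G ∧ 1 ≤ s ∧ 1 ≤ t ∧ s ≤ #S ∧ t ≤ #T := by
    rcases le_total (#S) (gammaT G - 1) with h | h
    · exact ⟨#S, gammaT G - #S, by omega, by omega, by omega, le_rfl, by omega⟩
    · exact ⟨gammaT G - 1, 1, by omega, by omega, le_rfl, h, hT5⟩
  have key : 4 * (G.edgeSet.ncard : ℤ) ≤ ((#A : ℤ) + #B - (s + t)) * (#A + #B - (s + t) + 4)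
      + 2 * (s + t) - 2 := by
    rw [hm]
    rcases lt_trichotomy s t with h | h | h
    · exact arith (main hs _ A B s t le_rfl hn (hS3.mono s2) (hT3.mono t2) s1 h)
        (by exact_mod_cast h)
    · obtain ⟨k, hk⟩ := ho
      omega
    · have := arith (main hs _ B A t s le_rfl (hn.symm hs) (hT3.mono t2) (hS3.mono s2) t1 h)
        (by exact_mod_cast h)
      rw [m_comm hs]
      linarith
  unfold bound
  rw [Nat.le_div_iff_mul_le (by norm_num), ← hcard, ← e]
  obtain ⟨k, hk⟩ : ∃ k, #A + #B = k + (s + t) := ⟨#A + #B - (s + t), by omega⟩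
  have hk' : (#A : ℤ) + #B - (s + t) = k := by omega
  rw [hk'] at key
  rw [hk, Nat.add_sub_cancel]
  have : ((k * (k + 4) : ℕ) : ℤ) = k * (k + 4) := by push_cast; ring
  omega

/-- vertex set of `G(x) ∪ j K₂` -/
abbrev EV (x j : ℕ) : Type := (Fin ((x - 1) / 2) ⊕ Fin (x / 2 + 1)) ⊕ (Fin j × Bool)

def extAdj (x j : ℕ) : EV x j → EV x j → Bool
  | .inl (.inl a), .inl (.inr b) => a.1 != b.1
  | .inl (.inr b), .inl (.inl a) => a.1 != b.1
  | .inr p, .inr q => p.1 == q.1 && p.2 != q.2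
  | _, _ => false

/-- `G(x) ∪ j K₂`: the complete bipartite graph with parts of sizes `⌈x/2 - 1⌉ = (x-1)/2` and
`⌊x/2 + 1⌋` minus the maximum matching `{(i, i)}`, together with `j` disjoint edges. -/
def Ext (x j : ℕ) : SimpleGraph (EV x j) where
  Adj u v := extAdj x j u v = true
  symm := ⟨by
    rintro ((a | a) | ⟨a, c⟩) ((b | b) | ⟨b, d⟩) <;> simp [extAdj]
    intro h1 h2
    exact ⟨h1.symm, fun h => h2 h.symm⟩⟩
  loopless := ⟨by rintro ((a | a) | ⟨a, c⟩) <;> simp [extAdj]⟩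

instance (x j : ℕ) : DecidableRel (Ext x j).Adj := fun u v =>
  inferInstanceAs (Decidable (extAdj x j u v = true))

theorem ext_adj {x j : ℕ} (u v : EV x j) : (Ext x j).Adj u v ↔ extAdj x j u v = true := Iff.rfl

def side (x j : ℕ) : EV x j → Bool
  | .inl (.inl _) => false
  | .inl (.inr _) => true
  | .inr p => p.2

theorem ext_side {x j : ℕ} {u v : EV x j} (h : (Ext x j).Adj u v) : side x j u ≠ side x j v := by
  revert h
  rcases u with ((a | a) | ⟨a, c⟩) <;> rcases v with ((b | b) | ⟨b, d⟩) <;>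
    simp [Ext, extAdj, side]

theorem ext_bw (x j : ℕ) : (Ext x j).IsBipartiteWith
    ((univ.filter fun v => side x j v = false : Finset _) : Set _)
    ((univ.filter fun v => side x j v = true : Finset _) : Set _) where
  disjoint := by
    rw [disjoint_coe, disjoint_filter]
    intro v _ h
    simp [h]
  mem_of_adj := by
    intro u v h
    have := ext_side h
    cases hu : side x j u <;> cases hv : side x j v <;> simp_all

theorem ext_card (x j : ℕ) (hx : 1 ≤ x) : Fintype.card (EV x j) = x + 2 * j := by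
  simp only [Fintype.card_sum, Fintype.card_fin, Fintype.card_prod, Fintype.card_bool]
  omega

theorem ext_edges (x j : ℕ) : (Ext x j).edgeSet.ncard = (x - 1) / 2 * (x / 2) + j := by
  rw [Set.ncard_eq_toFinset_card', ← SimpleGraph.edgeFinset,
    ← SimpleGraph.isBipartiteWith_sum_degrees_eq_card_edges (ext_bw x j), sum_filter,
    Fintype.sum_sum_type, Fintype.sum_sum_type, Fintype.sum_prod_type]
  have d1 : ∀ a : Fin ((x - 1) / 2), (Ext x j).degree (.inl (.inl a)) = x / 2 := by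
    intro a
    have ha : a.1 < x / 2 + 1 := by have := a.2; omega
    have : (Ext x j).neighborFinset (.inl (.inl a)) =
        (univ.erase (⟨a.1, ha⟩ : Fin (x / 2 + 1))).image (fun b => .inl (.inr b)) := by
      ext ((b | b) | ⟨b, d⟩) <;> rw [SimpleGraph.mem_neighborFinset, ext_adj] <;>
        simp [extAdj, Fin.ext_iff]
      exact ⟨fun h => ⟨b, fun h' => h h'.symm, rfl⟩, fun ⟨c, h1, h2⟩ h' => h1 (h2.trans h'.symm)⟩
    rw [← SimpleGraph.card_neighborFinset_eq_degree, this,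
      card_image_of_injective _ (fun _ _ h => by simpa using h), card_erase_of_mem (mem_univ _)]
    simp
  have d2 : ∀ a : Fin j, (Ext x j).degree (.inr (a, false)) = 1 := by
    intro a
    have : (Ext x j).neighborFinset (.inr (a, false)) = {.inr (a, true)} := by
      ext ((b | b) | ⟨b, d⟩) <;> rw [SimpleGraph.mem_neighborFinset, ext_adj] <;> simp [extAdj]
      exact fun _ => eq_comm
    rw [← SimpleGraph.card_neighborFinset_eq_degree, this, card_singleton]
  simp [side, d1, d2]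

theorem ext_gamma (x j : ℕ) (hx : 5 ≤ x) :
    (∀ v, ∃ u, (Ext x j).Adj v u) ∧ gammaT (Ext x j) = 2 * j + 3 := by
  have h0 : 0 < (x - 1) / 2 := by omega
  have h1 : 1 < (x - 1) / 2 := by omega
  have h2 : x / 2 < x / 2 + 1 := by omega
  let e : Fin j × Bool ↪ EV x j := ⟨fun p => .inr p, fun _ _ h => by simpa using h⟩
  let S : Finset (EV x j) := insert (.inl (.inl ⟨0, h0⟩)) (insert (.inl (.inl ⟨1, h1⟩))
    (insert (.inl (.inr ⟨x / 2, h2⟩)) (univ.map e)))
  have hS : IsTDS (Ext x j) S := by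
    rintro ((a | a) | ⟨a, c⟩)
    · refine ⟨.inl (.inr ⟨x / 2, h2⟩), by simp [S], ?_⟩
      have := a.2
      simp only [Ext, extAdj, bne_iff_ne]
      omega
    · by_cases h : a.1 = 0
      · exact ⟨.inl (.inl ⟨1, h1⟩), by simp [S], by simp [Ext, extAdj, h]⟩
      · exact ⟨.inl (.inl ⟨0, h0⟩), by simp [S], by
          simp only [ext_adj, extAdj, bne_iff_ne]
          exact fun h' => h h'.symm⟩
    · exact ⟨.inr (a, !c), mem_insert_of_mem (mem_insert_of_mem (mem_insert_of_mem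
        (mem_map_of_mem e (mem_univ (a, !c))))), by simp [Ext, extAdj]⟩
  have hc : #S = 2 * j + 3 := by
    simp only [S]
    rw [card_insert_of_notMem (by simp [e]), card_insert_of_notMem (by simp [e]),
      card_insert_of_notMem (by simp [e]), card_map]
    simp
    omega
  refine ⟨fun v => (hS v).imp fun _ h => h.2, le_antisymm (Nat.sInf_le ⟨S, hS, hc⟩) ?_⟩
  refine le_csInf ⟨_, S, hS, hc⟩ ?_
  rintro k ⟨T, hT, rfl⟩
  obtain ⟨u1, hu1, r1⟩ := hT (.inl (.inl ⟨0, h0⟩))
  obtain ⟨u2, hu2, r2⟩ := hT (.inl (.inr ⟨0, by omega⟩))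
  rcases u1 with ((b | b) | ⟨b, d⟩) <;> simp [Ext, extAdj] at r1
  rcases u2 with ((a | a) | ⟨a, d⟩) <;> simp [Ext, extAdj] at r2
  obtain ⟨u3, hu3, r3⟩ := hT (.inl (.inr ⟨a.1, by have := a.2; omega⟩))
  rcases u3 with ((a' | a') | ⟨a', d⟩) <;> simp [Ext, extAdj] at r3
  have hsub : insert (.inl (.inl a)) (insert (.inl (.inl a')) (insert (.inl (.inr b))
      (univ.map e))) ⊆ T := by
    refine insert_subset hu2 (insert_subset hu3 (insert_subset hu1 ?_))
    intro v hv
    obtain ⟨⟨i, c⟩, -, rfl⟩ := mem_map.1 hv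
    obtain ⟨u, hu, r⟩ := hT (.inr (i, !c))
    rcases u with ((a | a) | ⟨i', d⟩) <;> simp [Ext, extAdj] at r
    obtain ⟨rfl, r⟩ := r
    have : d = c := by cases c <;> cases d <;> simp_all
    subst this
    exact hu
  have := card_le_card hsub
  rw [card_insert_of_notMem (by
      simp only [e, mem_insert, mem_map]
      simp [Fin.ext_iff, eq_comm]
      exact fun h => r3 h.symm),
    card_insert_of_notMem (by simp [e]), card_insert_of_notMem (by simp [e]), card_map] at this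
  simp at this
  omega

theorem ext_bound (x j : ℕ) (hx : 5 ≤ x) :
    (Ext x j).edgeSet.ncard = bound (x + 2 * j) (2 * j + 3) := by
  rw [ext_edges, bound]
  obtain ⟨k, rfl⟩ : ∃ k, x = k + 3 := ⟨x - 3, by omega⟩
  rw [show k + 3 + 2 * j - (2 * j + 3) = k by omega]
  obtain ⟨p, rfl | rfl⟩ := Nat.even_or_odd' k
  · rw [show (2 * p + 3 - 1) / 2 = p + 1 by omega, show (2 * p + 3) / 2 = p + 1 by omega,
      show 2 * p * (2 * p + 4) = 4 * (p * p) + 8 * p by ring,
      show (p + 1) * (p + 1) = p * p + 2 * p + 1 by ring]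
    omega
  · rw [show (2 * p + 1 + 3 - 1) / 2 = p + 1 by omega, show (2 * p + 1 + 3) / 2 = p + 2 by omega,
      show (2 * p + 1) * (2 * p + 1 + 4) = 4 * (p * p) + 12 * p + 5 by ring,
      show (p + 1) * (p + 2) = p * p + 3 * p + 2 by ring]
    omega

/-- a second extremal graph for `n = 6`, `γ_t = 3` -/
def H6 : SimpleGraph (Fin 6) :=
  SimpleGraph.fromRel fun u v => (u, v) ∈ [(0, 3), (0, 4), (0, 5), (1, 5), (2, 3), (2, 4)]

instance : DecidableRel H6.Adj := fun u v => by unfold H6; infer_instance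

theorem h6 : H6.IsBipartite ∧ (∀ v, ∃ u, H6.Adj v u) ∧ gammaT H6 = 3 ∧
    H6.edgeSet.ncard = bound 6 3 ∧ IsEmpty (H6 ≃g Ext 6 0) := by
  refine ⟨⟨SimpleGraph.Coloring.mk (fun v => if v.1 < 3 then 0 else 1) (by decide)⟩, by decide,
    ?_, ?_, ⟨fun e => ?_⟩⟩
  · have h1 : IsTDS H6 {0, 3, 5} := by unfold IsTDS; decide
    refine le_antisymm (Nat.sInf_le ⟨_, h1, by decide⟩) (le_csInf ⟨_, _, h1, rfl⟩ ?_)
    rintro k ⟨T, hT, rfl⟩
    revert T
    unfold IsTDS
    decide +kernel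
  · rw [Set.ncard_eq_toFinset_card', ← SimpleGraph.edgeFinset]
    decide
  · have a1 := e.symm.degree_eq (.inl (.inl 0))
    have a2 := e.symm.degree_eq (.inl (.inl 1))
    have b1 : (Ext 6 0).degree (.inl (.inl 0)) = 3 := by decide
    have b2 : (Ext 6 0).degree (.inl (.inl 1)) = 3 := by decide
    have c : ∀ v, H6.degree v = 3 → v = 0 := by decide
    have := (c _ (a1.trans b1)).trans (c _ (a2.trans b2)).symm
    exact absurd (e.symm.injective this) (by decide)

end Pool.Agent.H54.TDom
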