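import Pool.Agent.H54.SuperCat3

namespace Pool.Agent.H54.SuperCat

open Nat

instance : Fact (Nat.Prime 3) := ⟨Nat.prime_three⟩

/-- the 3-adic valuation of `n!` -/
def L (n : ℕ) : ℕ := padicValNat 3 n !

lemma Lq (n m : ℕ) (h : n / 3 = m) : L n = m + L m := by
  rw [L, ← padicValNat_mul_div_factorial, padicValNat_factorial_mul, h, add_comm, L]

lemma Ladd (a b c : ℕ) (h : a + b ≤ c) : L a + L b ≤ L c := by
  rw [L, L, L, ← padicValNat.mul (factorial_ne_zero _) (factorial_ne_zero _),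
    ← padicValNat_dvd_iff_le (factorial_ne_zero _)]
  exact pow_padicValNat_dvd.trans ((factorial_mul_factorial_dvd_factorial_add a b).trans
    (factorial_dvd_factorial h))

lemma L0 : L 0 = 0 := by simp [L]

lemma dvd_iff {y : ℤ} {A B u : ℕ} (hA : A ≠ 0) (hB : B ≠ 0) (hu : ¬ 3 ∣ u)
    (h : y.natAbs * B = 3 * u * A) : (3 : ℤ) ∣ y ↔ padicValNat 3 B ≤ padicValNat 3 A := by
  have u0 : u ≠ 0 := fun h => hu (by simp [h])
  have y0 : y.natAbs ≠ 0 := fun h0 => by rw [h0, zero_mul] at h; exact absurd h.symm (by positivity)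
  have := congrArg (padicValNat 3) h
  rw [padicValNat.mul y0 hB, padicValNat.mul (by positivity) hA, padicValNat.mul (by norm_num) u0,
    padicValNat.eq_zero_of_not_dvd hu, padicValNat_self] at this
  rw [← Int.natAbs_dvd_natAbs]
  exact ⟨fun h => by have := one_le_padicValNat_of_dvd (p := 3) y0 h; omega,
    fun h => dvd_of_one_le_padicValNat (p := 3) (by omega)⟩

/-- powers of three -/
def IsP (m : ℕ) : Prop := ∃ k, m = 3 ^ k

lemma isP3 (m : ℕ) : IsP (3 * m) ↔ IsP m := by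
  refine ⟨fun ⟨k, hk⟩ => ?_, fun ⟨k, hk⟩ => ⟨k + 1, by rw [hk]; ring⟩⟩
  cases k with
  | zero => omega
  | succ k => exact ⟨k, by rw [pow_succ] at hk; omega⟩

lemma notP {m : ℕ} (h1 : m ≠ 1) (h : ¬ 3 ∣ m) : ¬ IsP m := by
  rintro ⟨k, rfl⟩
  cases k with
  | zero => exact h1 rfl
  | succ k => exact h (dvd_pow_self 3 (by omega))

end Pool.Agent.H54.SuperCat
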