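import Pool.Agent.H54.Val3

namespace Pool.Agent.H54.SuperCat

open Nat

lemma sc4 (t a b : ℕ) (hab : a + b = 2 * t + 3) :
    ∃ z : ℤ, 4 ^ (a + b) * h a * h b / (a + b)! = 4 * z := by
  induction a generalizing b with
  | zero =>
    obtain rfl : b = 2 * t + 1 + 1 + 1 := by omega
    obtain ⟨w, hw⟩ := even_cb (2 * t + 1)
    obtain ⟨z, hz⟩ := int_of_coprime (q := 4 ^ (2 * t + 1 + 1 + 1) * h (2 * t + 1 + 1 + 1) / (2 * t + 1 + 1 + 1)! / 4)
      (a := 2 * t + 3) (b := 2 ^ 2) (x := (4 * t + 5) * w) (y := (2 * (2 * t + 1 + 1 + 1)).choose (2 * t + 1 + 1 + 1))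
      (IsCoprime.pow_right ⟨1, -((t : ℤ) + 1), by ring⟩)
      (by
        have : (w : ℚ) = 4 ^ (2 * t + 1 + 1) * h (2 * t + 1 + 1) / (2 * t + 1 + 1)! / 2 := by rw [hw]; ring
        push_cast
        rw [this, h.eq_2 (2 * t + 1 + 1), factorial_succ (2 * t + 1 + 1)]
        push_cast
        field_simp
        ring)
      (by rw [Int.cast_natCast, cb]; push_cast; ring)
    exact ⟨z, by rw [← hz, zero_add, h.eq_1]; ring⟩
  | succ a ih =>
    obtain ⟨x, hx⟩ := ih (b + 1) (by omega)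
    obtain ⟨y, hy⟩ := sc a b
    refine ⟨y - x, ?_⟩
    push_cast
    rw [mul_sub, ← hx, ← hy, show a + 1 + b = a + b + 1 by ring, show a + (b + 1) = a + b + 1 by ring]
    simp only [h, factorial_succ]
    push_cast
    field_simp
    ring

lemma Llt (m : ℕ) (hm : 1 ≤ m) : 2 * L m + 1 ≤ m := by
  induction m using Nat.strong_induction_on with
  | _ m ih =>
    rw [Lq m _ rfl]
    rcases Nat.eq_zero_or_pos (m / 3) with h | h
    · rw [h, L0]; omega
    · have := ih (m / 3) (by omega) h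
      omega

lemma phi3 (m : ℕ) : 2 * L m + L (2 * m + 1) + 1 ≤ m + L (2 * m) ↔ ¬ IsP (2 * m + 1) := by
  induction m using Nat.strong_induction_on with
  | _ m ih =>
    rcases Nat.eq_zero_or_pos m with rfl | m0
    · exact iff_of_false (by rw [mul_zero, L0]; omega) (not_not.2 ⟨0, rfl⟩)
    by_cases h : m % 3 = 1
    · rw [Lq m _ rfl, Lq (2 * m + 1) (2 * (m / 3) + 1) (by omega), Lq (2 * m) (2 * (m / 3)) (by omega),
        show 2 * m + 1 = 3 * (2 * (m / 3) + 1) by omega, isP3, ← ih (m / 3) (by omega)]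
      omega
    · rw [Lq (2 * m + 1) (2 * m / 3) (by omega), Lq (2 * m) _ rfl]
      have := Llt m m0
      exact iff_of_true (by omega) (notP (by omega) (by omega))

/-- `C(2N,N) C(3N+2,N)` for `N = 3m+1` -/
lemma key3 (m : ℕ) (Y : ℤ)
    (hY : (Y : ℚ) = (3 * (3 * m + 1) + 2)! * (2 * (3 * m + 1))! / ((3 * m + 1)! ^ 3 * (2 * (3 * m + 1) + 2)!)) :
    3 ∣ Y ↔ ¬ IsP (2 * (3 * m + 1) + 1) := by
  have e4 : (Y : ℚ) * (3 * ((3 * m + 1)! ^ 3 * (2 * (3 * m + 1) + 2)!) : ℕ) =
      (3 * 1 * ((3 * (3 * m + 1) + 2)! * (2 * (3 * m + 1))!) : ℕ) := by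
    rw [hY]
    push_cast
    field_simp
  have e5 := congrArg Int.natAbs (show Y * _ = _ by exact_mod_cast e4)
  rw [Int.natAbs_mul, Int.natAbs_natCast, Int.natAbs_natCast] at e5
  rw [dvd_iff (by positivity) (by positivity) (by omega) e5,
    padicValNat.mul (by positivity) (by positivity), padicValNat.mul (by positivity) (by positivity),
    padicValNat.mul (by positivity) (by positivity), padicValNat.pow,
    padicValNat_self, ← L, ← L, ← L, ← L, Lq (3 * (3 * m + 1) + 2) (3 * m + 1) (by omega),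
    Lq (2 * (3 * m + 1) + 2) (2 * m + 1) (by omega), Lq (2 * (3 * m + 1)) (2 * m) (by omega),
    Lq (3 * m + 1) m (by omega), show 2 * (3 * m + 1) + 1 = 3 * (2 * m + 1) by ring, isP3, ← phi3]
  omega

end Pool.Agent.H54.SuperCat
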