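import Pool.Agent.H54.Val3b

namespace Pool.Agent.H54.SuperCat

open Nat Finset

/-- telescoping a WZ pair along antidiagonals -/
lemma wz {F G : ℕ → ℕ → ℚ} (h1 : ∀ j d, F j (d + 1) - F (j + 1) d = G j (d + 1) - G j d)
    (h2 : ∀ n, F n 0 = G n 0) (n : ℕ) :
    ∑ k ∈ range n, F 0 k = ∑ j ∈ range n, G j (n - 1 - j) := by
  have tel : ∀ m e, ∑ j ∈ range m, G j (m + e - j) + F m e =
      ∑ j ∈ range m, G j (m + e - 1 - j) + F 0 (m + e) := by
    intro m
    induction m with
    | zero => simp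
    | succ m ih =>
      intro e
      have := ih (e + 1)
      rw [sum_range_succ, sum_range_succ, show m + 1 + e = m + (e + 1) by ring,
        show m + (e + 1) - m = e + 1 by omega, show m + (e + 1) - 1 - m = e by omega]
      linarith [h1 m e]
  induction n with
  | zero => rfl
  | succ n ih =>
    have := tel n 0
    rw [sum_range_succ, ih, sum_range_succ, show n + 1 - 1 - n = 0 by omega, ← h2]
    simpa using this.symm

/-- `(3k)!/(3^k k!)` -/
def u3 : ℕ → ℕ
  | 0 => 1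
  | k + 1 => u3 k * ((3 * k + 1) * (3 * k + 2))

lemma u3_eq (k : ℕ) : ((3 * k)! : ℚ) = 3 ^ k * k ! * u3 k := by
  induction k with
  | zero => simp [u3]
  | succ k ih =>
    rw [u3, show 3 * (k + 1) = 3 * k + 1 + 1 + 1 by ring]
    simp only [factorial_succ]
    push_cast
    rw [ih]
    ring

lemma u3_nd (k : ℕ) : ¬ 3 ∣ u3 k := by
  induction k with
  | zero => simp [u3]
  | succ k ih => rw [u3, Nat.prime_three.dvd_mul, Nat.prime_three.dvd_mul]; omega

lemma u3_dvd (k e : ℕ) : ∃ c : ℕ, u3 (k + e) = u3 k * c := by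
  induction e with
  | zero => exact ⟨1, by simp⟩
  | succ e ih =>
    obtain ⟨c, hc⟩ := ih
    exact ⟨c * _, by rw [← add_assoc, u3, hc, mul_assoc]⟩

lemma u3_pos (k : ℕ) : (0 : ℚ) < u3 k := by
  exact_mod_cast Nat.pos_of_ne_zero fun h => u3_nd k (by simp [h])

lemma key4 (m : ℕ) (Y : ℤ)
    (hY : (Y : ℚ) = (6 * m)! * (9 * m + 3)! / ((3 * m)! ^ 3 * (6 * m + 3)!)) :
    3 ∣ Y ↔ ¬ IsP (2 * (3 * m + 1) + 1) := by
  have e4 : (Y : ℚ) * (3 * ((3 * m)! ^ 3 * (6 * m + 3)!) : ℕ) =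
      (3 * 1 * ((6 * m)! * (9 * m + 3)!) : ℕ) := by
    rw [hY]
    push_cast
    field_simp
  have e5 := congrArg Int.natAbs (show Y * _ = _ by exact_mod_cast e4)
  rw [Int.natAbs_mul, Int.natAbs_natCast, Int.natAbs_natCast] at e5
  rw [dvd_iff (by positivity) (by positivity) (by omega) e5,
    padicValNat.mul (by positivity) (by positivity), padicValNat.mul (by positivity) (by positivity),
    padicValNat.mul (by positivity) (by positivity), padicValNat.pow,
    padicValNat_self, ← L, ← L, ← L, ← L, Lq (9 * m + 3) (3 * m + 1) (by omega),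
    Lq (6 * m + 3) (2 * m + 1) (by omega), Lq (6 * m) (2 * m) (by omega), Lq (3 * m) m (by omega),
    Lq (3 * m + 1) m (by omega), show 2 * (3 * m + 1) + 1 = 3 * (2 * m + 1) by ring, isP3, ← phi3]
  omega

/-- the common final step -/
lemma fin3 {a : ℚ} {N U c : ℕ} {x y z v Y : ℤ} (hN : 1 ≤ N) (h1 : (2 * N + 1) * a = x)
    (h2 : 2 ^ c * 27 * N * a = y) (hU : ¬ 3 ∣ U) (hv : ¬ 3 ∣ v) (h3 : U * (3 * a) = v * Y + 3 * z)
    (hY : (Y : ℚ) = (2 * (N - 1))! * (3 * N)! / ((N - 1)! ^ 3 * (2 * N + 1)!)) :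
    ∃ b : ℤ, 3 * a = b ∧ (3 ∣ b ↔ ¬ IsP (2 * N + 1)) := by
  obtain ⟨w, hw⟩ := int_of_coprime (q := 27 * a) (a := 2 * N + 1) (b := 2 ^ c * (2 * N)) (x := 27 * x) (y := 2 * y)
    (IsCoprime.mul_right (IsCoprime.pow_right ⟨1, -(N : ℤ), by ring⟩) ⟨1, -1, by ring⟩)
    (by push_cast; linear_combination 27 * h1) (by push_cast; linear_combination 2 * h2)
  have hU' : ¬ (3 : ℤ) ∣ U := by exact_mod_cast hU
  obtain ⟨b, hb⟩ := int_of_coprime (q := 3 * a) (a := 3 ^ 2) (b := U) (x := w) (y := v * Y + 3 * z)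
    (IsCoprime.pow_left ((Int.prime_three.coprime_iff_not_dvd).2 hU'))
    (by push_cast; linear_combination hw) (by push_cast; linear_combination h3)
  refine ⟨b, hb, ?_⟩
  by_cases h : N % 3 = 1
  · obtain ⟨k, rfl⟩ : ∃ k, N = 3 * k + 1 := ⟨N / 3, by omega⟩
    rw [← key4 k Y (by rw [hY, add_tsub_cancel_right, show 2 * (3 * k) = 6 * k by ring,
      show 3 * (3 * k + 1) = 9 * k + 3 by ring, show 2 * (3 * k + 1) + 1 = 6 * k + 3 by ring])]
    have e : U * b = v * Y + 3 * z := by rw [hb] at h3; exact_mod_cast h3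
    constructor <;> intro h
    · have : (3 : ℤ) ∣ v * Y := by have := Dvd.dvd.mul_left h U; omega
      exact (Int.prime_three.dvd_mul.1 this).resolve_left hv
    · have : (3 : ℤ) ∣ U * b := by have := Dvd.dvd.mul_left h v; omega
      exact (Int.prime_three.dvd_mul.1 this).resolve_left hU'
  · refine iff_of_true ?_ (notP (by omega) (by omega))
    have : (2 * N + 1) * b = 3 * x := by
      have : (2 * N + 1 : ℚ) * b = 3 * x := by rw [← hb, ← h1]; ring
      exact_mod_cast this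
    exact (Int.prime_three.dvd_mul.1 (Dvd.intro _ this.symm)).resolve_left (by omega)

end Pool.Agent.H54.SuperCat
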