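import Mathlib
import Pool.Agent.H54.Spec

set_option autoImplicit false

namespace Pool.Agent.H54.Wheel

open Finset Matrix
open Classical

/-- complete bipartite graph with a perfect matching added inside each side -/
def G (s t : ℕ) : SimpleGraph ((Fin s ⊕ Fin t) × Bool) where
  Adj v w := v.1.isLeft ≠ w.1.isLeft ∨ (v.1 = w.1 ∧ v.2 ≠ w.2)
  symm := ⟨fun _ _ h => h.imp Ne.symm (fun h => ⟨h.1.symm, h.2.symm⟩)⟩
  loopless := ⟨fun _ h => h.elim (fun h => h rfl) (fun h => h.2 rfl)⟩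

lemma adj_iff (s t : ℕ) (v w : (Fin s ⊕ Fin t) × Bool) :
    (G s t).Adj v w ↔ v.1.isLeft ≠ w.1.isLeft ∨ (v.1 = w.1 ∧ v.2 ≠ w.2) := Iff.rfl

lemma mulVec_side (s t : ℕ) (g : Bool → ℝ) (v : (Fin s ⊕ Fin t) × Bool) :
    ((G s t).adjMatrix ℝ *ᵥ fun w => g w.1.isLeft) v
      = g v.1.isLeft + if v.1.isLeft then 2 * t * g false else 2 * s * g true := by
  obtain ⟨p, b⟩ := v
  simp only [mulVec, dotProduct, SimpleGraph.adjMatrix_apply, adj_iff, Fintype.sum_prod_type,
    Fintype.sum_sum_type, Fintype.sum_bool]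
  rcases p with p | p <;> cases b <;> simp <;> ring

lemma uniq (s t : ℕ) (u v w : (Fin s ⊕ Fin t) × Bool) (h1 : (G s t).Adj u v)
    (h2 : (G s t).Adj w v) (h3 : u.1.isLeft = v.1.isLeft) (h4 : w.1.isLeft = v.1.isLeft) :
    u = w := by
  rcases h1 with h1 | h1
  · exact absurd h3 h1
  rcases h2 with h2 | h2
  · exact absurd h4 h2
  refine Prod.ext (h1.1.trans h2.1.symm) ?_
  have a := h1.2
  have b := h2.2
  revert a b
  cases u.2 <;> cases v.2 <;> cases w.2 <;> simp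

lemma no_wheel (s t : ℕ) (h c0 c1 c2 c3 : (Fin s ⊕ Fin t) × Bool)
    (a0 : (G s t).Adj c0 h) (a1 : (G s t).Adj c1 h) (a2 : (G s t).Adj c2 h)
    (a3 : (G s t).Adj c3 h) (b0 : (G s t).Adj c0 c1) (b1 : (G s t).Adj c1 c2)
    (b2 : (G s t).Adj c2 c3) (b3 : (G s t).Adj c3 c0) (n02 : c0 ≠ c2) (n13 : c1 ≠ c3) :
    False := by
  have e01 := fun x y => b0.ne (uniq s t c0 h c1 a0 a1 x y)
  have e12 := fun x y => b1.ne (uniq s t c1 h c2 a1 a2 x y)
  have e23 := fun x y => b2.ne (uniq s t c2 h c3 a2 a3 x y)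
  have e30 := fun x y => b3.ne (uniq s t c3 h c0 a3 a0 x y)
  have e02 := fun x y => n02 (uniq s t c0 h c2 a0 a2 x y)
  have e13 := fun x y => n13 (uniq s t c1 h c3 a1 a3 x y)
  have f1 := fun x y => n02 (uniq s t c0 c1 c2 b0 b1.symm x y)
  have f2 := fun x y => n13 (uniq s t c1 c2 c3 b1 b2.symm x y)
  have f3 := fun x y => n02 (uniq s t c0 c3 c2 b3.symm b2 x y)
  have f0 := fun x y => n13 (uniq s t c1 c0 c3 b0.symm b3 x y)
  revert e01 e12 e23 e30 e02 e13 f1 f2 f3 f0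
  cases h.1.isLeft <;> cases c0.1.isLeft <;> cases c1.1.isLeft <;> cases c2.1.isLeft <;>
    cases c3.1.isLeft <;> simp

lemma edges (s t : ℕ) : (G s t).edgeSet.ncard = 4 * s * t + s + t := by
  have h := Spec.one_adj_one (G s t)
  have h2 := mulVec_side s t (fun _ => 1)
  simp only [dotProduct, h2, Fintype.sum_prod_type, Fintype.sum_sum_type, Fintype.sum_bool] at h
  simp at h
  have : (((G s t).edgeSet.ncard : ℕ) : ℝ) = 4 * s * t + s + t := by linarith
  exact_mod_cast this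

lemma eigen (s t : ℕ) [DecidableEq ((Fin s ⊕ Fin t) × Bool)] (hs : 0 < s) (ht : 0 < t) :
    1 + 2 * (√s * √t) ≤ sSup (spectrum ℝ ((G s t).adjMatrix ℝ)) := by
  apply le_csSup ((G s t).adjMatrix ℝ).finite_real_spectrum.bddAbove
  have h1 : √(s : ℝ) * √s = s := Real.mul_self_sqrt (Nat.cast_nonneg s)
  have h2 : √(t : ℝ) * √t = t := Real.mul_self_sqrt (Nat.cast_nonneg t)
  have h3 : 0 < √(s : ℝ) := Real.sqrt_pos.mpr (by exact_mod_cast hs)
  apply Spec.mem_spectrum_of_eigen _ _ (fun w => (fun b => if b then √t else √s) w.1.isLeft)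
  · intro h
    have := congrFun h (Sum.inr ⟨0, ht⟩, true)
    simp only [Sum.isLeft_inr, Bool.false_eq_true, if_false, Pi.zero_apply] at this
    linarith
  · funext v
    refine (mulVec_side s t (fun b => if b then √t else √s) v).trans ?_
    obtain ⟨p | p, b⟩ := v
    · simp only [Sum.isLeft_inl, if_true, Bool.false_eq_true, if_false, Pi.smul_apply, smul_eq_mul]
      linear_combination (-2 * √(s : ℝ)) * h2
    · simp only [Sum.isLeft_inr, if_true, Bool.false_eq_true, if_false, Pi.smul_apply, smul_eq_mul]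
      linear_combination (-2 * √(t : ℝ)) * h1

end Pool.Agent.H54.Wheel
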