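import Mathlib
import Pool.Agent.H54.Zam2

namespace Pool.Agent.H54.Zam

theorem pull {X Y X' Y' R Q : Type} [Fintype R] [Fintype Q] {m : ℕ} (f : X → Y → Bool)
    (A : Fin m → Set (X × R)) (B : Fin m → Set (Y × Q)) (h : IsZAM f A B)
    (φ : X' → X) (ψ : Y' → Y) :
    IsZAM (fun x y => f (φ x) (ψ y)) (fun i => {p | (φ p.1, p.2) ∈ A i})
      (fun i => {p | (ψ p.1, p.2) ∈ B i}) :=
  ⟨fun x y hf => h.1 (φ x) (ψ y) hf, fun x y hf => h.2.1 (φ x) (ψ y) hf,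
    fun x y hf => h.2.2.1 (φ x) (ψ y) hf,
    fun x y x' y' hf hf' => h.2.2.2 (φ x) (ψ y) (φ x') (ψ y') hf hf'⟩

theorem general (n : ℕ) (hn : 5 ≤ n) (f : (Fin n → Bool) → (Fin n → Bool) → Bool) :
    ∃ (R Q : Type) (_ : Fintype R) (_ : Fintype Q) (_ : Nonempty R) (_ : Nonempty Q) (m : ℕ)
      (A : Fin m → Set ((Fin n → Bool) × R)) (B : Fin m → Set ((Fin n → Bool) × Q)),
      IsZAM f A B ∧ (Nat.clog 2 m : ℝ) ≤ Real.exp (26 * √(n * Real.log n)) := by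
  have h28 : 28 ≤ 2 ^ n := le_trans (by norm_num) (Nat.pow_le_pow_right (by norm_num) hn)
  obtain ⟨R, Q, i1, i2, i3, i4, m, A, B, hAB, hm⟩ := main (2 ^ n) h28
  let e : (Fin n → Bool) ≃ Fin (2 ^ n) := Fintype.equivFinOfCardEq (by simp)
  have := pull _ A B hAB (fun x j => f x (e.symm j)) e
  simp only [Equiv.symm_apply_apply] at this
  refine ⟨R, Q, i1, i2, i3, i4, m, _, _, this, hm.trans ?_⟩
  apply Real.exp_le_exp.2
  apply mul_le_mul_of_nonneg_left _ (by norm_num)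
  apply Real.sqrt_le_sqrt
  have hn' : (5 : ℝ) ≤ n := by exact_mod_cast hn
  have h2 := Real.log_two_lt_d9
  have h2' := Real.log_two_gt_d9
  have hL : Real.log ((2 ^ n : ℕ) : ℝ) = n * Real.log 2 := by
    push_cast
    rw [Real.log_pow]
  rw [hL]
  have h1 : (n : ℝ) * Real.log 2 ≤ n := by nlinarith
  have h3 : 1 ≤ (n : ℝ) * Real.log 2 := by nlinarith
  exact mul_le_mul h1 (Real.log_le_log (by linarith) h1) (Real.log_nonneg h3) (by linarith)

end Pool.Agent.H54.Zam
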